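import Pool.Agent.P.MP_224820_co.St.GrA

/-! Basic rules for graphs, triangles, decompositions, walks. -/

set_option autoImplicit false

namespace Pool.Agent.P.MP_224820_co.St

open Finset

variable {V : Type} [Fintype V] [DecidableEq V]

omit [Fintype V] [DecidableEq V] in
theorem NoLoop.ne {G : Finset (Sym2 V)} (hG : NoLoop G) {u v : V} (h : s(u, v) ∈ G) : u ≠ v :=
  fun e => hG _ h (Sym2.mk_isDiag_iff.2 e)

omit [Fintype V] in
theorem Dec_empty (T : Finset (Finset V)) : Dec T ∅ :=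
  ⟨∅, empty_subset _, by simp, by simp⟩

omit [Fintype V] in
theorem Dec_mono {T T' : Finset (Finset V)} {G : Finset (Sym2 V)} (h : T ⊆ T') (hD : Dec T G) :
    Dec T' G := by
  obtain ⟨K, a, b⟩ := hD
  exact ⟨K, a.trans h, b⟩

omit [Fintype V] in
theorem Dec_union {T : Finset (Finset V)} {G H : Finset (Sym2 V)} (hd : Disjoint G H)
    (h1 : Dec T G) (h2 : Dec T H) : Dec T (G ∪ H) := by
  obtain ⟨K, a, b, c⟩ := h1
  obtain ⟨K', a', b', c'⟩ := h2
  refine ⟨K ∪ K', union_subset a a', ?_, ?_⟩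
  · intro t ht
    rcases mem_union.1 ht with ht | ht
    · exact ⟨(b t ht).1, (b t ht).2.trans subset_union_left⟩
    · exact ⟨(b' t ht).1, (b' t ht).2.trans subset_union_right⟩
  · intro e he
    rcases mem_union.1 he with he | he
    · obtain ⟨t, ⟨t1, t2⟩, u⟩ := c e he
      refine ⟨t, ⟨mem_union_left _ t1, t2⟩, ?_⟩
      rintro s ⟨s1, s2⟩
      rcases mem_union.1 s1 with s1 | s1
      · exact u s ⟨s1, s2⟩
      · exact absurd ((b' s s1).2 s2) (disjoint_left.1 hd he)
    · obtain ⟨t, ⟨t1, t2⟩, u⟩ := c' e he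
      refine ⟨t, ⟨mem_union_right _ t1, t2⟩, ?_⟩
      rintro s ⟨s1, s2⟩
      rcases mem_union.1 s1 with s1 | s1
      · exact absurd he (disjoint_left.1 hd ((b s s1).2 s2))
      · exact u s ⟨s1, s2⟩

omit [Fintype V] in
/-- a family of edge-disjoint triangles decomposes the union of its edges -/
theorem Dec_biUnion {T K : Finset (Finset V)} (hK : K ⊆ T) (h3 : ∀ t ∈ K, t.card = 3)
    (hd : ∀ t ∈ K, ∀ t' ∈ K, t ≠ t' → Disjoint (ed t) (ed t')) : Dec T (K.biUnion ed) := by
  refine ⟨K, hK, fun t ht => ⟨h3 t ht, subset_biUnion_of_mem ed ht⟩, fun e he => ?_⟩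
  obtain ⟨t, t1, t2⟩ := mem_biUnion.1 he
  refine ⟨t, ⟨t1, t2⟩, ?_⟩
  rintro s ⟨s1, s2⟩
  by_contra hne
  exact disjoint_left.1 (hd s s1 t t1 hne) s2 t2

omit [Fintype V] in
/-- the explicit form of a decomposition -/
theorem Dec.exists_eq {T : Finset (Finset V)} {G : Finset (Sym2 V)} (h : Dec T G) :
    ∃ K ⊆ T, (∀ t ∈ K, t.card = 3) ∧ (∀ t ∈ K, ∀ t' ∈ K, t ≠ t' → Disjoint (ed t) (ed t')) ∧
      G = K.biUnion ed := by
  obtain ⟨K, a, b, c⟩ := h
  refine ⟨K, a, fun t ht => (b t ht).1, fun t ht t' ht' hne => disjoint_left.2 fun e h1 h2 => ?_, ?_⟩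
  · obtain ⟨s, -, u⟩ := c e ((b t ht).2 h1)
    exact hne ((u t ⟨ht, h1⟩).trans (u t' ⟨ht', h2⟩).symm)
  · ext e
    constructor
    · intro he
      obtain ⟨t, ⟨t1, t2⟩, -⟩ := c e he
      exact mem_biUnion.2 ⟨t, t1, t2⟩
    · intro he
      obtain ⟨t, t1, t2⟩ := mem_biUnion.1 he
      exact (b t t1).2 t2

theorem card_nb_ed {t : Finset V} (h : t.card = 3) (v : V) :
    (nb (ed t) v).card = if v ∈ t then 2 else 0 := by
  split_ifs with hv
  · have : nb (ed t) v = t.erase v := by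
      ext w; simp only [mem_nb, mk_mem_ed, mem_erase, hv, true_and]
      exact ⟨fun a => ⟨a.2.symm, a.1⟩, fun a => ⟨a.2, a.1.symm⟩⟩
    rw [this, card_erase_of_mem hv, h]
  · rw [card_eq_zero]
    ext w; simp [mem_nb, mk_mem_ed, hv]

theorem card_nb_biUnion {K : Finset (Finset V)} (h3 : ∀ t ∈ K, t.card = 3)
    (hd : ∀ t ∈ K, ∀ t' ∈ K, t ≠ t' → Disjoint (ed t) (ed t')) (v : V) :
    (nb (K.biUnion ed) v).card = 2 * (K.filter fun t => v ∈ t).card := by
  have h1 : nb (K.biUnion ed) v = K.biUnion fun t => nb (ed t) v := by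
    ext w; simp [mem_nb]
  rw [h1, card_biUnion, sum_congr rfl fun t ht => card_nb_ed (h3 t ht) v, ← sum_filter]
  · simp [mul_comm]
  · intro t ht t' ht' hne
    exact disjoint_left.2 fun w a b => disjoint_left.1 (hd t ht t' ht' hne) (mem_nb.1 a) (mem_nb.1 b)

theorem Dec_dv {T : Finset (Finset V)} {G : Finset (Sym2 V)} (h : Dec T G) : Dv G := by
  obtain ⟨K, -, b, c, rfl⟩ := h.exists_eq
  refine ⟨fun v => ?_, ?_⟩
  · rw [card_nb_biUnion b c]; exact even_two_mul _
  · rw [card_biUnion fun t ht t' ht' hne => c t ht t' ht' hne,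
      sum_congr rfl fun t ht => card_ed (b t ht)]
    simp

theorem Dec_deg {T : Finset (Finset V)} {G : Finset (Sym2 V)} (h : Dec T G) (v : V) :
    (nb G v).card ≤ 2 * (T.filter fun t => v ∈ t).card := by
  obtain ⟨K, a, b, c, rfl⟩ := h.exists_eq
  rw [card_nb_biUnion b c]
  exact Nat.mul_le_mul_left _ (card_le_card (filter_subset_filter _ a))

theorem Dv_sdiff {G H : Finset (Sym2 V)} (hG : Dv G) (hH : Dv H) (h : H ⊆ G) : Dv (G \ H) := by
  refine ⟨fun v => ?_, ?_⟩
  · rw [nb_sdiff, card_sdiff_of_subset (nb_mono h v)]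
    exact (Nat.even_sub (card_le_card (nb_mono h v))).2 (iff_of_true (hG.1 v) (hH.1 v))
  · rw [card_sdiff_of_subset h]
    exact Nat.dvd_sub hG.2 hH.2

theorem card_KN : (KN V).card = (Fintype.card V).choose 2 := by
  rw [← Sym2.card_subtype_not_diag, Fintype.card_subtype]
  rfl

theorem nb_KN (v : V) : nb (KN V) v = univ.erase v := by
  ext w; simp [mem_nb, mem_KN, eq_comm]

theorem Dv_KN (h : Fintype.card V % 6 = 1 ∨ Fintype.card V % 6 = 3) : Dv (KN V) := by
  refine ⟨fun v => ?_, ?_⟩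
  · rw [nb_KN, card_erase_of_mem (mem_univ v), card_univ, Nat.even_iff]
    omega
  · rw [card_KN, Nat.choose_two_right]
    generalize Fintype.card V = n at h
    obtain ⟨k, hk⟩ : ∃ k, n = 6 * k + 1 ∨ n = 6 * k + 3 := ⟨n / 6, by omega⟩
    rcases hk with rfl | rfl
    · have : (6 * k + 1) * (6 * k + 1 - 1) = 2 * (3 * (k * (6 * k + 1))) := by
        rw [Nat.add_sub_cancel]; ring
      rw [this, Nat.mul_div_cancel_left _ two_pos]; exact dvd_mul_right _ _
    · have : (6 * k + 3) * (6 * k + 3 - 1) = 2 * (3 * ((2 * k + 1) * (3 * k + 1))) := by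
        rw [show 6 * k + 3 - 1 = 6 * k + 2 by omega]; ring
      rw [this, Nat.mul_div_cancel_left _ two_pos]; exact dvd_mul_right _ _

omit [Fintype V] [DecidableEq V] in
theorem FD_zero : FD (0 : Multiset (Sym2 V)) :=
  ⟨0, by simp⟩

omit [Fintype V] [DecidableEq V] in
theorem FD_add {m m' : Multiset (Sym2 V)} (h : FD m) (h' : FD m') : FD (m + m') := by
  obtain ⟨l, rfl⟩ := h
  obtain ⟨l', rfl⟩ := h'
  exact ⟨l + l', (Multiset.add_bind _ _ _).symm⟩

omit [Fintype V] [DecidableEq V] in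
theorem FD_sum {ι : Type} (J : Finset ι) (m : ι → Multiset (Sym2 V)) (h : ∀ i ∈ J, FD (m i)) :
    FD (∑ i ∈ J, m i) :=
  sum_induction m FD (fun _ _ => FD_add) FD_zero h

omit [Fintype V] [DecidableEq V] in
theorem FD_tri (a b c : V) : FD ({s(a, b), s(b, c), s(c, a)} : Multiset (Sym2 V)) :=
  ⟨{(a, b, c)}, by rw [Multiset.singleton_bind]; rfl⟩

omit [Fintype V] in
theorem Dec_of_bind (l : Multiset (V × V × V)) (T : Finset (Finset V)) :
    ∀ G : Finset (Sym2 V), NoLoop G → G.val = l.bind tr3 →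
      (∀ t, t.card = 3 → ed t ⊆ G → t ∈ T) → Dec T G := by
  induction l using Multiset.induction_on with
  | empty =>
    intro G _ h _
    rw [Multiset.zero_bind, val_eq_zero] at h
    rw [h]; exact Dec_empty T
  | cons x l ih =>
    intro G hG h hT
    obtain ⟨a, b, c⟩ := x
    rw [Multiset.cons_bind] at h
    have hn : (tr3 (a, b, c) + l.bind tr3).Nodup := h ▸ G.nodup
    obtain ⟨n1, n2, n3⟩ := Multiset.nodup_add.1 hn
    have m : ∀ e ∈ tr3 (a, b, c), e ∈ G := fun e he =>
      mem_def.2 (h ▸ Multiset.mem_add.2 (Or.inl he))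
    have ab : a ≠ b := hG.ne (m _ (by simp [tr3]))
    have bc : b ≠ c := hG.ne (m _ (by simp [tr3]))
    have ca : c ≠ a := hG.ne (m _ (by simp [tr3]))
    have hed : ∀ e, e ∈ ed ({a, b, c} : Finset V) ↔ e ∈ tr3 (a, b, c) := by
      intro e
      rw [ed_triple ab ca.symm bc]
      simp only [tr3, mem_insert, mem_singleton, Multiset.insert_eq_cons, Multiset.mem_cons,
        Multiset.mem_singleton, Sym2.eq_swap (a := c) (b := a)]
      tauto
    have h3 : ({a, b, c} : Finset V).card = 3 := card_eq_three.2 ⟨a, b, c, ab, ca.symm, bc, rfl⟩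
    let H : Finset (Sym2 V) := ⟨l.bind tr3, n2⟩
    have hH : H ⊆ G := fun e he => mem_def.2 (h ▸ Multiset.mem_add.2 (Or.inr he))
    have hs : ed ({a, b, c} : Finset V) ⊆ G := fun e he => m e ((hed e).1 he)
    have e1 : G = ({({a, b, c} : Finset V)} : Finset (Finset V)).biUnion ed ∪ H := by
      ext e
      rw [singleton_biUnion, mem_union, hed, ← mem_val, h, Multiset.mem_add]
      rfl
    rw [e1]
    refine Dec_union ?_ (Dec_biUnion ?_ ?_ ?_)
      (ih H (fun e he => hG e (hH he)) rfl fun t a1 a2 => hT t a1 (a2.trans hH))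
    · rw [singleton_biUnion]
      exact disjoint_left.2 fun e h1 h2 => Multiset.disjoint_left.1 n3 ((hed e).1 h1) h2
    · exact singleton_subset_iff.2 (hT _ h3 hs)
    · intro t ht; rw [mem_singleton.1 ht]; exact h3
    · intro t ht t' ht' hne
      exact absurd ((mem_singleton.1 ht).trans (mem_singleton.1 ht').symm) hne

/-- a loopless graph that is a sum of formal triangles has a triangle decomposition -/
theorem Dec_of_FD {G : Finset (Sym2 V)} (hG : NoLoop G) (h : FD G.val) : Dec (tri G) G := by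
  obtain ⟨l, hl⟩ := h
  exact Dec_of_bind l _ G hG hl fun t a b => mem_tri.2 ⟨a, b⟩

omit [Fintype V] [DecidableEq V] in
theorem Wk_edge (u v : V) : Wk u v 1 {s(u, v)} :=
  ⟨fun j => if j = 0 then u else v, by simp, by simp, by simp⟩

omit [Fintype V] [DecidableEq V] in
theorem Wk_append {u v w : V} {k l : ℕ} {m m' : Multiset (Sym2 V)} (h : Wk u v k m)
    (h' : Wk v w l m') : Wk u w (k + l) (m + m') := by
  obtain ⟨x, x0, xk, rfl⟩ := h
  obtain ⟨y, y0, yl, rfl⟩ := h'
  have h1 : ∀ j, (if k + j ≤ k then x (k + j) else y (k + j - k)) = y j := by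
    intro j
    split_ifs with hj
    · obtain rfl : j = 0 := by omega
      rw [add_zero, xk, y0]
    · rw [Nat.add_sub_cancel_left]
  refine ⟨fun j => if j ≤ k then x j else y (j - k), by simp [x0], (h1 l).trans yl, ?_⟩
  rw [sum_range_add]
  congr 1
  · refine sum_congr rfl fun j hj => ?_
    have := mem_range.1 hj
    simp only [if_pos (show j ≤ k by omega), if_pos (show j + 1 ≤ k by omega)]
  · refine sum_congr rfl fun j _ => ?_
    simp only [add_assoc, h1]

omit [Fintype V] [DecidableEq V] in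
theorem Wk_rev {u v : V} {k : ℕ} {m : Multiset (Sym2 V)} (h : Wk u v k m) : Wk v u k m := by
  obtain ⟨x, x0, xk, rfl⟩ := h
  refine ⟨fun j => x (k - j), by simp [xk], by simp [x0], ?_⟩
  rw [← sum_range_reflect]
  refine sum_congr rfl fun j hj => ?_
  have := mem_range.1 hj
  beta_reduce
  rw [show k - 1 - j + 1 = k - j by omega, show k - (j + 1) = k - 1 - j by omega, Sym2.eq_swap]

end Pool.Agent.P.MP_224820_co.St
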