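import Pool.Agent.P.MP_224820_co.St.DefsB
import Pool.Agent.P.MP_224820_co.St.Base

/-! Statements: probability tools and the transport lemma. -/

set_option autoImplicit false

namespace Pool.Agent.P.MP_224820_co.St

open Finset

-- deps:
def S_CH : Prop := ∀ (α ι : Type) [Fintype α] [DecidableEq α] (p : α → ℝ), IsP p →
  ∀ (J : Finset ι) (s : ι → Finset α) (E : ι → Finset α → Prop),
  (J : Set ι).PairwiseDisjoint s → (∀ j ∈ J, Loc (s j) (E j)) → ∀ (lam m k : ℝ), 0 ≤ lam →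
  (∑ j ∈ J, Pr p (E j) ≤ m → Pr p (fun R => k ≤ (cnt J (fun j => E j R) : ℝ))
      ≤ Real.exp (m * (Real.exp lam - 1) - lam * k)) ∧
  (m ≤ ∑ j ∈ J, Pr p (E j) → Pr p (fun R => (cnt J (fun j => E j R) : ℝ) ≤ k)
      ≤ Real.exp (lam * k - m * (1 - Real.exp (-lam))))

-- deps: CH
def S_CH1 : Prop := ∀ (α : Type) [Fintype α] [DecidableEq α] (p : α → ℝ), IsP p →
  ∀ (F : Finset α) (lam m k : ℝ), 0 ≤ lam →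
  (∑ a ∈ F, p a ≤ m → Pr p (fun R => k ≤ ((F ∩ R).card : ℝ))
      ≤ Real.exp (m * (Real.exp lam - 1) - lam * k)) ∧
  (m ≤ ∑ a ∈ F, p a → Pr p (fun R => ((F ∩ R).card : ℝ) ≤ k)
      ≤ Real.exp (lam * k - m * (1 - Real.exp (-lam))))

-- deps:
def S_MONO : Prop := ∀ (α : Type) [Fintype α] [DecidableEq α] (p p' : α → ℝ), IsP p → IsP p' →
  (∀ a, p a ≤ p' a) → ∀ E : Finset α → Prop, Incr E →
  Pr p' (fun R => ¬ E R) ≤ Pr p (fun R => ¬ E R)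

-- deps: MONO
def S_SPR : Prop := ∀ (α : Type) [Fintype α] [DecidableEq α] (p p1 p2 : α → ℝ),
  IsP p → IsP p1 → IsP p2 → (∀ a, 1 - p a ≤ (1 - p1 a) * (1 - p2 a)) →
  ∀ E : Finset α → Prop, Incr E →
  Pr p (fun R => ¬ E R) ≤ Ex p1 (fun Q => Pr p2 (fun R => ¬ E (Q ∪ R)))

-- deps: SPR
def S_TWO : Prop := ∀ (α : Type) [Fintype α] [DecidableEq α] (E Bad : Finset α → Prop), Incr E →
  ∀ δ1 δ2 : ℝ, 0 ≤ δ2 →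
  (∀ p p1 p2 : α → ℝ, IsP p → IsP p1 → IsP p2 → (∀ a, 1 - p a ≤ (1 - p1 a) * (1 - p2 a)) →
    Pr p1 Bad ≤ δ1 → (∀ Q, ¬ Bad Q → Pr p2 (fun R => ¬ E (Q ∪ R)) ≤ δ2) →
    Pr p (fun R => ¬ E R) ≤ δ1 + δ2) ∧
  (∀ h h1 h2 : α → ℝ, (∀ a, 0 ≤ h1 a) → (∀ a, 0 ≤ h2 a) → (∀ a, h1 a + h2 a ≤ h a) →
    Pr (hz h1) Bad ≤ δ1 → (∀ Q, ¬ Bad Q → Pr (hz h2) (fun R => ¬ E (Q ∪ R)) ≤ δ2) →
    Pr (hz h) (fun R => ¬ E R) ≤ δ1 + δ2)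

-- deps:
def S_BD : Prop := ∀ (α : Type) [Fintype α] [DecidableEq α] (p : α → ℝ), IsP p →
  ∀ (f : Finset α → ℝ) (c : α → ℝ), (∀ a R, |f (insert a R) - f (R.erase a)| ≤ c a) →
  ∀ lam Vr x : ℝ, 0 ≤ lam → (∀ a, lam * c a ≤ 1) → ∑ a, p a * c a ^ 2 ≤ Vr →
  Pr p (fun R => x ≤ f R - Ex p f) ≤ Real.exp (lam ^ 2 * Vr - lam * x) ∧
  Pr p (fun R => x ≤ Ex p f - f R) ≤ Real.exp (lam ^ 2 * Vr - lam * x)

-- deps: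
def S_ET : Prop := ∀ (α ι : Type) [Fintype α] [DecidableEq α] (p : α → ℝ), IsP p →
  ∀ (J : Finset ι) (F : ι → Finset α) (k : ℕ) (μ : ℝ), ∑ i ∈ J, ∏ a ∈ F i, p a ≤ μ →
  Pr p (fun R => ∃ I ⊆ J, k ≤ I.card ∧ (I : Set ι).PairwiseDisjoint F ∧ ∀ i ∈ I, F i ⊆ R)
    ≤ Real.exp (3 * μ - k)

-- deps:
def S_SLICE : Prop := ∀ (K E : Type) [Fintype K] [DecidableEq K] [Fintype E] [DecidableEq E]
  (π : K → ℝ),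
  (∀ k k' : K, k ≠ k' → ∀ F : Finset E → Finset E → ℝ,
    Ex (fun x : K × E => π x.1) (fun ξ => F (sl ξ k) (sl ξ k'))
      = Ex (fun _ : E => π k) (fun A => Ex (fun _ : E => π k') (fun B => F A B))) ∧
  (∀ (e : E) (g : Finset K → ℝ), Ex (fun x : K × E => π x.1) (fun ξ => g (st ξ e)) = Ex π g)

-- deps:
def S_TRK : Prop := ∀ (K Y Λ : Type) [Fintype K] [DecidableEq K] [Fintype Λ] (π : K → ℝ), IsP π →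
  ∀ (σ : Λ → Finset K → ℝ), (∀ l s, 0 ≤ σ l s) → (∀ l, Ex π (σ l) ≤ 1 / 2) →
  ∀ (Lst : Finset K → Prop) [DecidablePred Lst] (ρ : ℝ), 0 < ρ → ρ ≤ 1 → Pr π Lst ≤ ρ / 4 →
  ∀ (G : Finset Y) (H : Λ → Y → ℝ) (x : Y → ℝ), (∀ l, ∀ y ∈ G, 0 ≤ H l y) →
  (∀ y ∈ G, 0 ≤ x y ∧ x y ≤ ρ) →
  ∏ y ∈ G, (Real.exp (-∑ l, H l y) * (1 - x y))
    ≤ Ex π (fun s => ∏ y ∈ G, (Real.exp (-∑ l, σ l s * H l y) * (1 - if Lst s then x y / ρ else 0)))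

-- deps: TRK MONO SLICE
def S_TRANS : Prop := ∀ (K E Y Λ : Type) [Fintype K] [DecidableEq K] [Fintype E] [DecidableEq E]
  [Fintype Y] [DecidableEq Y] [Fintype Λ] (π : K → ℝ), IsP π →
  ∀ (σ : Λ → Finset K → ℝ), (∀ l s, 0 ≤ σ l s) → (∀ l, Ex π (σ l) ≤ 1 / 2) →
  ∀ (Lst : Finset K → Prop) (ρ : ℝ), 0 < ρ → ρ ≤ 1 → Pr π Lst ≤ ρ / 4 →
  ∀ (ed' : Y → Finset E), (∀ y, (ed' y).card ≤ 3) →
  ∀ (lam0 : ℝ) (lam : Λ → ℝ), 0 ≤ lam0 → (∀ l, 0 ≤ lam l) →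
  ∀ (Ev : Finset Y → Prop), Incr Ev →
  (∀ e T, Ev T → Ev (T.filter fun y => e ∉ ed' y) ∨
    ∃ y ∈ T, e ∈ ed' y ∧ Ev (insert y (T.filter fun y => e ∉ ed' y))) →
  ∀ p : Y → ℝ, IsP p → (∀ y, 1 - p y ≤ Real.exp (-(lam0 + ∑ l, lam l)) * (1 - ρ ^ 3)) →
  Pr p (fun T => ¬ Ev T) ≤ Ex (fun x : K × E => π x.1) (fun ξ =>
    Pr (hz (hzs lam0 lam σ ed' ξ)) (fun T => ¬ Ev (T ∪ sure Lst ed' ξ)))

end Pool.Agent.P.MP_224820_co.St
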