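import Pool.Agent.P.MP_224820_co.St.IfaceA
import Pool.Agent.P.MP_224820_co.St.IfaceP

/-! Step ABS. -/

set_option autoImplicit false

namespace Pool.Agent.P.MP_224820_co.St

open Finset

theorem abs_lam {n : ℕ} (hn : 1 ≤ n) :
    ((500 * (⌊(n : ℝ) ^ (657 / 1000 : ℝ)⌋₊ + Nat.sqrt n + 1) : ℕ) : ℝ)
      ≤ 2000 * (n : ℝ) ^ (657 / 1000 : ℝ) := by
  have h1 : (1 : ℝ) ≤ n := by exact_mod_cast hn
  have h0 : (0 : ℝ) ≤ n := by linarith
  have ha : (⌊(n : ℝ) ^ (657 / 1000 : ℝ)⌋₊ : ℝ) ≤ (n : ℝ) ^ (657 / 1000 : ℝ) :=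
    Nat.floor_le (Real.rpow_nonneg h0 _)
  have hb : (Nat.sqrt n : ℝ) ≤ (n : ℝ) ^ (657 / 1000 : ℝ) := by
    have h2 : (Nat.sqrt n : ℝ) ≤ Real.sqrt n := Real.nat_sqrt_le_real_sqrt
    rw [Real.sqrt_eq_rpow] at h2
    exact h2.trans (Real.rpow_le_rpow_of_exponent_le h1 (by norm_num))
  have hc : (1 : ℝ) ≤ (n : ℝ) ^ (657 / 1000 : ℝ) := Real.one_le_rpow h1 (by norm_num)
  push_cast
  linarith

theorem p_ABS (hDES : S_DES) (hABSA : S_ABSA) (hABSB : S_ABSB) (hNUMA1 : S_NUMA1) (hNUMA2 : S_NUMA2) (hTWO : S_TWO) :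
    S_ABS := by
  intro η hη0 hη1
  obtain ⟨n1, h1⟩ := hNUMA1
  obtain ⟨n2, h2⟩ := hNUMA2 η hη0 hη1
  refine ⟨max 1 (max n1 n2), fun n hn X hX hdeg => ?_⟩
  have hn0 : 1 ≤ n := le_trans (le_max_left _ _) hn
  have hn1 : n1 ≤ n := le_trans ((le_max_left _ _).trans (le_max_right _ _)) hn
  have hn2 : n2 ≤ n := le_trans ((le_max_right _ _).trans (le_max_right _ _)) hn
  have hr1 : (1 : ℝ) ≤ n := by exact_mod_cast hn0
  have hr0 : (0 : ℝ) ≤ n := by linarith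
  obtain ⟨I, Cl, iI, iC, src, tgt, len, cell, out, hM, -⟩ :=
    hDES n X ⌊(n : ℝ) ^ (657 / 1000 : ℝ)⌋₊ hX (fun v => Nat.le_floor (hdeg v))
  have hout : out = Empty.elim := funext fun e => e.elim
  subst hout
  obtain ⟨κ1, hE1, hb1⟩ := h1 n hn1 _ (abs_lam hn0)
  obtain ⟨hβ, hρ1, s, m, κ2, y, hs, hE2, hb2⟩ := h2 n hn2
  have hρ0 : 0 ≤ rho n η := by
    have : (0 : ℝ) ≤ ((10000 : ℕ) : ℝ) * (n : ℝ) ^ (-(1003 / 3000) : ℝ) := by positivity
    linarith
  have hA := hABSA n I src tgt len _ 10000 _ _ κ1 _ _ (rho n η / 16) hn0 hM.len34 hM.load hE1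
    (by positivity) hβ (by linarith) X hdeg
  have hinc : Incr (fun c : Finset (Sym2 (Fin n)) => ∃ A ⊆ c, Absorbs A X) := by
    rintro R R' h ⟨A, hA, hAb⟩
    exact ⟨A, hA.trans h, hAb⟩
  have hP : IsP (fun _ : Sym2 (Fin n) => rho n η / 16) := fun _ => ⟨by linarith, by linarith⟩
  have key := (hTWO (Sym2 (Fin n)) _ _ hinc (1 / n) (1 / n) (by positivity)).1
    (fun _ => rho n η / 8) (fun _ => rho n η / 16) (fun _ => rho n η / 16)
    (fun _ => ⟨by linarith, by linarith⟩) hP hP (fun _ => by nlinarith [sq_nonneg (rho n η)])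
    (hA.trans hb1) (by
      intro Q hQ
      obtain ⟨PE, hW, hnd, hin, hd⟩ := not_not.mp hQ
      have hd2 : ∀ v, ((nb (X ∪ (∑ i, PE i).toFinset) v).card : ℝ)
          ≤ 40000 * (n : ℝ) ^ (1997 / 3000 : ℝ) := by
        intro v
        rw [nb_union]
        have e1 : ((nb X v ∪ nb (∑ i, PE i).toFinset v).card : ℝ)
            ≤ (nb X v).card + (nb (∑ i, PE i).toFinset v).card := by
          exact_mod_cast card_union_le _ _
        have e2 := hdeg v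
        have e3 := hd v
        have e4 : (n : ℝ) ^ (657 / 1000 : ℝ) ≤ (n : ℝ) ^ (1997 / 3000 : ℝ) :=
          Real.rpow_le_rpow_of_exponent_le hr1 (by norm_num)
        have e5 : (0 : ℝ) ≤ (n : ℝ) ^ (1997 / 3000 : ℝ) := by positivity
        push_cast at e3
        linarith
      have hB := hABSB n X I Cl src tgt len cell _ hn0 hX hM PE hW hnd (fun e he => (hin e he).2) _ hd2
        s 10000 _ m κ2 _ y (rho n η / 16) hs hE2 (by positivity) (by push_cast; linarith) (by linarith)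
      refine le_trans (Pr_mono hP ?_) (hB.trans hb2)
      rintro R hR ⟨A, hA, hAb⟩
      refine hR ⟨A, hA.trans (union_subset_union ?_ subset_rfl), hAb⟩
      intro e he
      exact (hin e (Multiset.mem_toFinset.mp he)).1)
  calc _ ≤ 1 / (n : ℝ) + 1 / n := key
    _ = 2 / n := by ring

end Pool.Agent.P.MP_224820_co.St
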