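import Pool.Agent.P.MP_224820_co.St.IfaceA

/-! Step ABSA. -/

set_option autoImplicit false

namespace Pool.Agent.P.MP_224820_co.St

open Finset

theorem absa_card {n : ℕ} {I : Type} [Fintype I] (src tgt : I → Fin n) (Lam : ℕ)
    (h : ∀ v, cnt univ (fun i => src i = v ∨ tgt i = v) ≤ Lam) :
    (univ : Finset I).card ≤ n * Lam := by
  classical
  have h1 : (univ : Finset I).card ≤ Lam * (univ : Finset (Fin n)).card := by
    refine card_le_mul_card_image_of_maps_to (f := src) (fun _ _ => mem_univ _) Lam fun v _ => ?_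
    refine le_trans ?_ (h v)
    rw [← cnt_eq]
    exact cnt_mono fun i hi e => ⟨hi, Or.inl e⟩
  rw [card_univ (α := Fin n), Fintype.card_fin, mul_comm] at h1
  exact h1

theorem p_ABSA (hEMB : S_EMB) (hPATH : S_PATH) :
    S_ABSA := by
  intro n I _ src tgt len Lam M β m κ0 Δ d π hn hlen hload hEN hd hβ hπ X hX
  classical
  haveI : Nonempty (Fin n) := ⟨⟨0, hn⟩⟩
  have hF : EF (fun i => pback (src i) (tgt i) (len i)) (univ : Finset I) 2 2 4 0 4
      ((n : ℝ) * Lam) Lam 0 := by
    refine ⟨fun g _ => (hPATH _ _ _ _).1, fun g _ => (hPATH _ _ _ _).2.1, ?_, fun x => ?_,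
      fun x y hxy => ?_⟩
    · exact_mod_cast absa_card src tgt Lam hload
    · have : cnt univ (fun g : I => x ∈ rts (pback (src g) (tgt g) (len g))) ≤ Lam := by
        refine le_trans (cnt_mono fun i hi e => ⟨hi, ?_⟩) (hload x)
        rcases (hPATH _ (src i) (tgt i) (len i)).2.2.1 x e with t | t
        · exact Or.inl t.symm
        · exact Or.inr t.symm
      exact_mod_cast this
    · have : cnt univ (fun g : I => ∃ u, x ∈ rb (pback (src g) (tgt g) (len g)) u ∧
          y ∈ rb (pback (src g) (tgt g) (len g)) u) = 0 := by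
        rw [cnt_eq, card_eq_zero, filter_eq_empty_iff]
        rintro g - ⟨u, h1, h2⟩
        exact hxy (card_le_one.1 ((hPATH _ (src g) (tgt g) (len g)).2.2.2.1 u) x h1 y h2)
      rw [this]
      simp
  have key := hEMB (Fin n) (Fin 3) I (fun i => pback (src i) (tgt i) (len i)) univ 2 2 4 0 4 M
    ((n : ℝ) * Lam) Lam 0 β m κ0 Δ d 1 π hF (by simpa using hEN) hd hβ hπ X hX
  rw [Fintype.card_fin] at key
  have hp : IsP (fun _ : Sym2 (Fin n) => π) := fun _ =>
    ⟨le_trans (mul_nonneg (Nat.cast_nonneg _) hEN.b0.le) hβ, hπ⟩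
  refine le_trans (Pr_mono hp fun c hc => ?_) key
  rintro ⟨φ, h1, h2, h3⟩
  exact hc ⟨fun i => gE (pback (src i) (tgt i) (len i)) (φ i),
    fun i => (hPATH _ (src i) (tgt i) (len i)).2.2.2.2 (hlen i) (φ i), h1, h2, h3⟩

end Pool.Agent.P.MP_224820_co.St
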