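import Pool.Agent.P.MP_224820_co.St.IfaceA

/-! Step ABSB. -/

set_option autoImplicit false

namespace Pool.Agent.P.MP_224820_co.St

open Finset

theorem absb_bind {α β ι : Type} (f : α → Multiset β) (T : Finset ι) (g : ι → Multiset α) :
    (∑ c ∈ T, g c).bind f = ∑ c ∈ T, (g c).bind f := by
  classical
  induction T using Finset.induction_on with
  | empty => simp
  | insert a s ha ih => rw [sum_insert ha, sum_insert ha, Multiset.add_bind, ih]

theorem absb_key {V Cl : Type} [Fintype V] [DecidableEq V] [Fintype Cl]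
    {X : Finset (Sym2 V)} (hX : NoLoop X) (H : Multiset (Sym2 V)) (g w : Cl → Multiset (Sym2 V))
    (hH : H.Nodup) (hH2 : ∀ e ∈ H, e ∉ X ∧ ¬ e.IsDiag) (hG : (∑ c, g c).Nodup)
    (hG2 : ∀ e ∈ ∑ c, g c, e ∉ X ∪ H.toFinset ∧ ¬ e.IsDiag)
    (f1 : ∀ c, FD (g c)) (f2 : ∀ c, FD (g c + w c))
    (cov : ∀ L ⊆ X, Dv L → ∃ T : Finset Cl, ∑ c ∈ T, w c = L.val + H) :
    Absorbs (H.toFinset ∪ (∑ c, g c).toFinset) X := by
  classical
  have hA : NoLoop (H.toFinset ∪ (∑ c, g c).toFinset) := by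
    intro e he
    rcases mem_union.1 he with he | he
    · exact (hH2 e (Multiset.mem_toFinset.1 he)).2
    · exact (hG2 e (Multiset.mem_toFinset.1 he)).2
  refine ⟨hA, ?_, fun L hL hD => ?_⟩
  · refine disjoint_left.2 fun e he hx => ?_
    rcases mem_union.1 he with he | he
    · exact (hH2 e (Multiset.mem_toFinset.1 he)).1 hx
    · exact (hG2 e (Multiset.mem_toFinset.1 he)).1 (mem_union_left _ hx)
  · obtain ⟨T, hT⟩ := cov L hL hD
    have hN : NoLoop (H.toFinset ∪ (∑ c, g c).toFinset ∪ L) := by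
      intro e he
      rcases mem_union.1 he with he | he
      · exact hA e he
      · exact hX e (hL he)
    refine Dec_mono (tri_mono (union_subset_union_right hL)) (Dec_of_FD hN ?_)
    have hv : (H.toFinset ∪ (∑ c, g c).toFinset ∪ L).val = (∑ c, g c) + (L.val + H) := by
      refine (Multiset.Nodup.ext (Finset.nodup _) ?_).2 fun e => ?_
      · refine Multiset.nodup_add.2 ⟨hG, Multiset.nodup_add.2 ⟨L.nodup, hH, ?_⟩, ?_⟩
        · exact Multiset.disjoint_left.2 fun {e} h1 h2 => (hH2 e h2).1 (hL h1)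
        · refine Multiset.disjoint_left.2 fun {e} h1 h2 => (hG2 e h1).1 ?_
          rcases Multiset.mem_add.1 h2 with h2 | h2
          · exact mem_union_left _ (hL h2)
          · exact mem_union_right _ (Multiset.mem_toFinset.2 h2)
      · simp only [mem_val, mem_union, Multiset.mem_toFinset, Multiset.mem_add]
        tauto
    have h2 : (∑ c, g c) + (L.val + H) = ∑ c ∈ T, (g c + w c) + ∑ c ∈ Tᶜ, g c := by
      rw [← hT, ← sum_add_sum_compl T g, sum_add_distrib]
      abel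
    rw [hv, h2]
    exact FD_add (FD_sum _ _ fun c _ => f2 c) (FD_sum _ _ fun c _ => f1 c)

theorem p_ABSB (hCELL : S_CELL) (hEMB : S_EMB) (hFOLD : S_FOLD) (hFSA : S_FSA) :
    S_ABSB := by
  intro n X I Cl _ _ src tgt len cell Lam hn hX hM PE hW hN hE d2 hd2 s M β m κ0 d y π hs hEN hd
    hMβ hπ
  classical
  obtain ⟨k, v, hkv, hEF⟩ := hCELL n X I Cl src tgt len cell Lam hX hM PE hW hN hE d2 hd2 s hs
  have hcard : Fintype.card (FU (5 * s)) = 63 + 42 * (5 * s) :=
    (hFSA (Fin n) (5 * s) 1 (fun _ => ⟨0, hn⟩) (by omega) le_rfl (by omega) rfl).1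
  have : Nonempty (Fin n) := ⟨⟨0, hn⟩⟩
  have hp : IsP (fun _ : Sym2 (Fin n) => π) := fun _ =>
    ⟨le_trans (mul_nonneg (Nat.cast_nonneg M) hEN.b0.le) hMβ, hπ⟩
  have h := hEMB (Fin n) (FU (5 * s)) Cl (fun c => fback (5 * s) (v c) (k c)) univ 21 300
    (3 * (63 + 42 * (5 * s)) + 84) 84 s M (n * (60 * d2)) (60 * d2) 60 β m κ0 d2 d y π hEF
    (by rw [hcard, Fintype.card_fin]; exact hEN) hd hMβ hπ (X ∪ (∑ i, PE i).toFinset) hd2
  rw [Fintype.card_fin] at h
  refine le_trans (Pr_mono hp fun c hc => ?_) h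
  rintro ⟨φ, h1, h2, -⟩
  refine hc ⟨(∑ i, PE i).toFinset ∪ (∑ g, gE (fback (5 * s) (v g) (k g)) (φ g)).toFinset, ?_, ?_⟩
  · exact union_subset_union_right fun e he => (h2 e (Multiset.mem_toFinset.1 he)).1
  · have hF := fun g => hFOLD (Fin n) (5 * s) (k g) (v g) (φ g) (by omega) (hkv g).1 (hkv g).2.1
      (hkv g).2.2.1 (hkv g).2.2.2.1
    refine absb_key hX _ _ (fun g => ∑ i ∈ range (3 * k g), {s(v g i, v g (i + 1))}) hN hE h1
      (fun e he => (h2 e he).2) (fun g => (hF g).1) (fun g => (hF g).2) fun L hL hD => ?_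
    have hS : (L.subtype fun e => e ∈ X).map (Function.Embedding.subtype _) = L :=
      subtype_map_of_mem fun e he => hL he
    obtain ⟨T, SO, -, hT⟩ := hM.cover (L.subtype fun e => e ∈ X) (by unfold okX; rw [hS]; exact hD)
    refine ⟨T, ?_⟩
    have hSO : SO = ∅ := eq_empty_of_isEmpty SO
    rw [hSO] at hT
    have h3 := congrArg (fun z => Multiset.bind z (Sum.elim (fun e : {e // e ∈ X} => ({e.1} :
      Multiset (Sym2 (Fin n)))) PE)) hT
    simp only [empty_val, Multiset.map_zero, add_zero, Multiset.add_bind, Multiset.bind_map,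
      Sum.elim_inl, Sum.elim_inr] at h3
    rw [absb_bind, sum_congr rfl fun g _ => (hkv g).2.2.2.2] at h3
    rw [h3, Multiset.bind_singleton]
    congr 1
    conv_rhs => rw [← hS]
    rfl

end Pool.Agent.P.MP_224820_co.St
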