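import Pool.Agent.P.MP_224820_co.St.BaseA

/-! Basic rules for `Pr`. -/

set_option autoImplicit false

namespace Pool.Agent.P.MP_224820_co.St

open Finset

variable {α : Type} [Fintype α] [DecidableEq α]

theorem Pr_congr {p : α → ℝ} {E E' : Finset α → Prop} (h : ∀ R, E R ↔ E' R) : Pr p E = Pr p E' := by
  have : E = E' := funext fun R => propext (h R)
  rw [this]

theorem Pr_eq (p : α → ℝ) (E : Finset α → Prop) [DecidablePred E] :
    Pr p E = Ex p (fun R => if E R then 1 else 0) := by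
  unfold Pr
  exact Ex_congr fun R => by by_cases h : E R <;> simp [h]

theorem Pr_nonneg {p : α → ℝ} (hp : IsP p) (E : Finset α → Prop) : 0 ≤ Pr p E := by
  unfold Pr
  exact Ex_nonneg hp fun R => by by_cases h : E R <;> simp [h]

theorem Pr_le_one {p : α → ℝ} (hp : IsP p) (E : Finset α → Prop) : Pr p E ≤ 1 := by
  unfold Pr
  refine le_of_le_of_eq (Ex_mono hp (g := fun _ => 1) fun R => ?_) (Ex_const p 1)
  by_cases h : E R <;> simp [h]

theorem Pr_not (p : α → ℝ) (E : Finset α → Prop) : Pr p (fun R => ¬ E R) = 1 - Pr p E := by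
  unfold Pr
  rw [← Ex_const p 1, ← Ex_sub, Ex_const p 1]
  exact Ex_congr fun R => by by_cases h : E R <;> simp [h]

theorem Pr_false (p : α → ℝ) {E : Finset α → Prop} (h : ∀ R, ¬ E R) : Pr p E = 0 := by
  unfold Pr
  rw [← Ex_const p 0]
  exact Ex_congr fun R => by simp [h R, Ex_const]

theorem Pr_mono {p : α → ℝ} (hp : IsP p) {E E' : Finset α → Prop} (h : ∀ R, E R → E' R) :
    Pr p E ≤ Pr p E' := by
  unfold Pr
  refine Ex_mono hp fun R => ?_
  by_cases h1 : E R
  · simp [h1, h R h1]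
  · by_cases h2 : E' R <;> simp [h1, h2]

theorem Pr_mono_ae {p : α → ℝ} (hp : IsP p) {E E' : Finset α → Prop}
    (h : ∀ R, (∀ a ∈ R, p a ≠ 0) → (∀ a, p a = 1 → a ∈ R) → E R → E' R) : Pr p E ≤ Pr p E' := by
  unfold Pr
  refine Ex_mono_ae hp fun R ha hb => ?_
  by_cases h1 : E R
  · simp [h1, h R ha hb h1]
  · by_cases h2 : E' R <;> simp [h1, h2]

/-- Markov -/
theorem Pr_le_Ex {p : α → ℝ} (hp : IsP p) {E : Finset α → Prop} {f : Finset α → ℝ}
    (hf : ∀ R, 0 ≤ f R) (h : ∀ R, E R → 1 ≤ f R) : Pr p E ≤ Ex p f := by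
  unfold Pr
  refine Ex_mono hp fun R => ?_
  by_cases h1 : E R
  · simpa [h1] using h R h1
  · simpa [h1] using hf R

theorem Pr_or_le {p : α → ℝ} (hp : IsP p) (E E' : Finset α → Prop) :
    Pr p (fun R => E R ∨ E' R) ≤ Pr p E + Pr p E' := by
  unfold Pr
  rw [← Ex_add]
  refine Ex_mono hp fun R => ?_
  by_cases h1 : E R <;> by_cases h2 : E' R <;> simp [h1, h2]

theorem Pr_exists_le {p : α → ℝ} (hp : IsP p) {ι : Type} (J : Finset ι) (E : ι → Finset α → Prop) :
    Pr p (fun R => ∃ i ∈ J, E i R) ≤ ∑ i ∈ J, Pr p (E i) := by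
  classical
  induction J using Finset.induction_on with
  | empty => rw [Pr_false p (by simp)]; simp
  | insert a J ha ih =>
    rw [sum_insert ha]
    refine le_trans (le_of_eq (Pr_congr (E' := fun R => E a R ∨ ∃ i ∈ J, E i R) fun R => ?_))
      ((Pr_or_le hp _ _).trans (by linarith))
    simp

theorem Pr_exists_le' {p : α → ℝ} (hp : IsP p) {ι : Type} (J : Finset ι) (E : ι → Finset α → Prop)
    {δ : ℝ} (h : ∀ i ∈ J, Pr p (E i) ≤ δ) : Pr p (fun R => ∃ i ∈ J, E i R) ≤ J.card * δ := by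
  refine (Pr_exists_le hp J E).trans ((sum_le_sum h).trans (le_of_eq ?_))
  simp

theorem Pr_mem (p : α → ℝ) (a : α) : Pr p (fun R => a ∈ R) = p a := by
  rw [Pr_eq, Ex_coord p a, ← Ex_const p (p a)]
  exact Ex_congr fun R => by simp [Ex_const]

omit [Fintype α] in
theorem baseb_loc_mem (a : α) : Loc {a} (fun R : Finset α => if a ∈ R then (1 : ℝ) else 0) := by
  intro R R' h
  have : a ∈ R ↔ a ∈ R' := by
    have := congrArg (fun S => a ∈ S) h
    simpa using this
  simp [this]

omit [Fintype α] in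
theorem baseb_loc_not_mem (a : α) :
    Loc {a} (fun R : Finset α => if a ∉ R then (1 : ℝ) else 0) := by
  intro R R' h
  have : a ∈ R ↔ a ∈ R' := by
    have := congrArg (fun S => a ∈ S) h
    simpa using this
  simp [this]

omit [Fintype α] [DecidableEq α] in
theorem baseb_pd (F : Finset α) : (F : Set α).PairwiseDisjoint (fun a => ({a} : Finset α)) := by
  intro a _ b _ hab
  simpa [Function.onFun] using hab

theorem Pr_subset (p : α → ℝ) (F : Finset α) : Pr p (fun R => F ⊆ R) = ∏ a ∈ F, p a := by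
  have h := Ex_prod_loc p F (fun a => {a}) (baseb_pd F)
    (fun a R => if a ∈ R then (1 : ℝ) else 0) fun a _ => baseb_loc_mem a
  rw [Pr_eq, ← prod_congr rfl fun a _ => (Pr_mem p a).symm.trans (Pr_eq p _) |>.symm, ← h]
  refine Ex_congr fun R => ?_
  rw [prod_boole]
  simp [Finset.subset_iff]

theorem Pr_disjoint (p : α → ℝ) (F : Finset α) :
    Pr p (fun R => Disjoint F R) = ∏ a ∈ F, (1 - p a) := by
  have h := Ex_prod_loc p F (fun a => {a}) (baseb_pd F)
    (fun a R => if a ∉ R then (1 : ℝ) else 0) fun a _ => baseb_loc_not_mem a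
  have h2 : ∀ a, Ex p (fun R => if a ∉ R then (1 : ℝ) else 0) = 1 - p a := fun a => by
    rw [← Pr_eq p fun R => a ∉ R, Pr_not p fun R => a ∈ R, Pr_mem]
  rw [Pr_eq, ← prod_congr rfl fun a _ => h2 a, ← h]
  refine Ex_congr fun R => ?_
  rw [prod_boole]
  simp [Finset.disjoint_left]

theorem Pr_subset_disjoint (p : α → ℝ) {F G : Finset α} (h : Disjoint F G) :
    Pr p (fun R => F ⊆ R ∧ Disjoint G R) = (∏ a ∈ F, p a) * ∏ a ∈ G, (1 - p a) := by
  have hF : Loc F (fun R : Finset α => if F ⊆ R then (1 : ℝ) else 0) := by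
    intro R R' hR
    have : F ⊆ R ↔ F ⊆ R' := by
      rw [← inter_eq_right, hR, inter_eq_right]
    simp [this]
  have hG : Loc G (fun R : Finset α => if Disjoint G R then (1 : ℝ) else 0) := by
    intro R R' hR
    have : Disjoint G R ↔ Disjoint G R' := by
      rw [disjoint_iff_inter_eq_empty, disjoint_iff_inter_eq_empty, inter_comm G, inter_comm G, hR]
    simp [this]
  rw [← Pr_subset, ← Pr_disjoint, Pr_eq, Pr_eq, Pr_eq, ← Ex_mul_loc p h hF hG]
  refine Ex_congr fun R => ?_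
  by_cases h1 : F ⊆ R <;> by_cases h2 : Disjoint G R <;> simp [h1, h2]

/-- an expectation of conditional probabilities, split along a bad event -/
theorem Ex_le_bad {p : α → ℝ} (hp : IsP p) (Bad : Finset α → Prop) {f : Finset α → ℝ} {δ : ℝ}
    (hδ : 0 ≤ δ) (h1 : ∀ R, f R ≤ 1) (h2 : ∀ R, ¬ Bad R → f R ≤ δ) : Ex p f ≤ Pr p Bad + δ := by
  unfold Pr
  rw [← Ex_const p δ, ← Ex_add]
  refine Ex_mono hp fun R => ?_
  by_cases h : Bad R
  · have := h1 R
    simp only [h, if_true]; linarith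
  · have := h2 R h
    simp only [h, if_false]; linarith

end Pool.Agent.P.MP_224820_co.St
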