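import Pool.Agent.P.MP_224820_co.St.Defs

/-! Basic rules for graphs, triangles, decompositions, walks. -/

set_option autoImplicit false

namespace Pool.Agent.P.MP_224820_co.St

open Finset

variable {V : Type} [Fintype V] [DecidableEq V]

theorem mem_nb {G : Finset (Sym2 V)} {u w : V} : w ∈ nb G u ↔ s(u, w) ∈ G := by
  simp [nb]

theorem mem_nn {G : Finset (Sym2 V)} {u w : V} : w ∈ nn G u ↔ s(u, w) ∉ G := by
  simp [nn]

theorem nb_mono {G H : Finset (Sym2 V)} (h : G ⊆ H) (u : V) : nb G u ⊆ nb H u := by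
  intro w hw
  exact mem_nb.2 (h (mem_nb.1 hw))

theorem nb_union (G H : Finset (Sym2 V)) (u : V) : nb (G ∪ H) u = nb G u ∪ nb H u := by
  ext w
  simp only [mem_nb, mem_union]

theorem nb_sdiff (G H : Finset (Sym2 V)) (u : V) : nb (G \ H) u = nb G u \ nb H u := by
  ext w
  simp only [mem_nb, mem_sdiff]

theorem nn_sdiff (G H : Finset (Sym2 V)) (u : V) : nn (G \ H) u = nn G u ∪ nb H u := by
  ext w
  simp only [mem_nb, mem_nn, mem_sdiff, mem_union]
  tauto

theorem card_nb_add_nn (G : Finset (Sym2 V)) (u : V) :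
    (nb G u).card + (nn G u).card = Fintype.card V := by
  unfold nb nn
  rw [card_filter_add_card_filter_not, card_univ]

theorem card_le_of_nb {G : Finset (Sym2 V)} {d : ℝ} (h : ∀ v, ((nb G v).card : ℝ) ≤ d) :
    (G.card : ℝ) ≤ Fintype.card V * d := by
  have h1 : G ⊆ univ.biUnion fun u => (nb G u).image fun w => s(u, w) := by
    intro e he
    induction e using Sym2.ind with
    | _ u w => exact mem_biUnion.2 ⟨u, mem_univ _, mem_image.2 ⟨w, mem_nb.2 he, rfl⟩⟩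
  have h2 : G.card ≤ ∑ u, (nb G u).card :=
    (card_le_card h1).trans (card_biUnion_le.trans (sum_le_sum fun u _ => card_image_le))
  calc (G.card : ℝ) ≤ ∑ u, ((nb G u).card : ℝ) := by exact_mod_cast h2
    _ ≤ ∑ _u : V, d := sum_le_sum fun u _ => h u
    _ = Fintype.card V * d := by simp

theorem card_sym2_le (G : Finset (Sym2 V)) : G.card ≤ Fintype.card V ^ 2 := by
  have h := card_le_of_nb (G := G) (d := Fintype.card V) fun v => by
    exact_mod_cast card_le_univ _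
  rw [sq]
  exact_mod_cast h

omit [Fintype V] [DecidableEq V] in
theorem gra_inj (u : V) : Function.Injective fun x : V => s(u, x) := fun _ _ h =>
  Sym2.congr_right.1 h

/-- stars: vertex sets against edge sets -/
theorem card_inter_star (G : Finset (Sym2 V)) (u : V) (Y : Finset V) :
    (G ∩ Y.image fun x => s(u, x)).card = (nb G u ∩ Y).card := by
  rw [← card_image_of_injective (nb G u ∩ Y) (gra_inj u)]
  congr 1
  ext e
  simp only [mem_inter, mem_image, mem_nb]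
  constructor
  · rintro ⟨h, x, hx, rfl⟩
    exact ⟨x, ⟨h, hx⟩, rfl⟩
  · rintro ⟨x, ⟨h, hx⟩, rfl⟩
    exact ⟨h, x, hx, rfl⟩

theorem card_nb_eq (G : Finset (Sym2 V)) (v : V) : (nb G v).card = (G.filter fun e => v ∈ e).card := by
  rw [← card_image_of_injective (nb G v) (gra_inj v)]
  congr 1
  ext e
  simp only [mem_filter, mem_image, mem_nb]
  constructor
  · rintro ⟨x, hx, rfl⟩
    exact ⟨hx, Sym2.mem_mk_left _ _⟩
  · rintro ⟨h, hv⟩
    obtain ⟨x, rfl⟩ := Sym2.mem_iff_exists.1 hv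
    exact ⟨x, h, rfl⟩

theorem mem_KN {e : Sym2 V} : e ∈ KN V ↔ ¬ e.IsDiag := by
  simp [KN]

omit [Fintype V] in
theorem mk_mem_ed {t : Finset V} {x y : V} : s(x, y) ∈ ed t ↔ x ∈ t ∧ y ∈ t ∧ x ≠ y := by
  simp only [ed, mem_filter, mk_mem_sym2_iff, Sym2.mk_isDiag_iff, and_assoc, ne_eq]

omit [Fintype V] in
theorem ed_triple {u v w : V} (huv : u ≠ v) (huw : u ≠ w) (hvw : v ≠ w) :
    ed ({u, v, w} : Finset V) = {s(u, v), s(u, w), s(v, w)} := by
  ext e
  induction e using Sym2.ind with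
  | _ x y =>
    simp only [mk_mem_ed, mem_insert, mem_singleton, Sym2.eq_iff]
    constructor
    · rintro ⟨rfl | rfl | rfl, rfl | rfl | rfl, h⟩ <;> simp_all
    · rintro ((⟨rfl, rfl⟩ | ⟨rfl, rfl⟩) | (⟨rfl, rfl⟩ | ⟨rfl, rfl⟩) | (⟨rfl, rfl⟩ | ⟨rfl, rfl⟩)) <;>
        simp [huv, huw, hvw, huv.symm, huw.symm, hvw.symm]

omit [Fintype V] in
theorem card_ed {t : Finset V} (h : t.card = 3) : (ed t).card = 3 := by
  obtain ⟨u, v, w, huv, huw, hvw, rfl⟩ := card_eq_three.1 h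
  rw [ed_triple huv huw hvw]
  refine card_eq_three.2 ⟨_, _, _, ?_, ?_, ?_, rfl⟩ <;>
    simp [huv, huw, hvw, huw.symm, hvw.symm]

omit [Fintype V] in
theorem exists_third {t : Finset V} (h : t.card = 3) {u v : V} (he : s(u, v) ∈ ed t) :
    ∃ w, w ≠ u ∧ w ≠ v ∧ t = {u, v, w} := by
  obtain ⟨hu, hv, huv⟩ := mk_mem_ed.1 he
  have h1 : ({u, v} : Finset V) ⊆ t := by
    intro x hx
    rcases mem_insert.1 hx with rfl | hx
    · exact hu
    · rw [mem_singleton.1 hx]; exact hv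
  have h2 : (t \ {u, v}).card = 1 := by rw [card_sdiff_of_subset h1, h, card_pair huv]
  obtain ⟨w, hw⟩ := card_eq_one.1 h2
  have h3 : w ∈ t \ {u, v} := hw ▸ mem_singleton_self w
  simp only [mem_sdiff, mem_insert, mem_singleton, not_or] at h3
  refine ⟨w, h3.2.1, h3.2.2, ?_⟩
  rw [← union_sdiff_of_subset h1, hw]
  ext x
  simp only [mem_union, mem_insert, mem_singleton, or_assoc]

omit [Fintype V] in
/-- two different edges lie in at most one triangle -/
theorem eq_of_two_edges {t t' : Finset V} (h : t.card = 3) (h' : t'.card = 3) {e f : Sym2 V}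
    (hef : e ≠ f) (h1 : e ∈ ed t) (h2 : f ∈ ed t) (h3 : e ∈ ed t') (h4 : f ∈ ed t') : t = t' := by
  induction e using Sym2.ind with
  | _ u v =>
    induction f using Sym2.ind with
    | _ x y =>
      obtain ⟨w, -, -, rfl⟩ := exists_third h h1
      obtain ⟨hu, hv, -⟩ := mk_mem_ed.1 h3
      obtain ⟨hx, hy, hxy⟩ := mk_mem_ed.1 h2
      obtain ⟨hx', hy', -⟩ := mk_mem_ed.1 h4
      have hw : w ∈ t' := by
        simp only [mem_insert, mem_singleton] at hx hy
        rcases hx with rfl | rfl | rfl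
        · rcases hy with rfl | rfl | rfl
          · exact absurd rfl hxy
          · exact absurd rfl hef
          · exact hy'
        · rcases hy with rfl | rfl | rfl
          · exact absurd Sym2.eq_swap hef
          · exact absurd rfl hxy
          · exact hy'
        · exact hx'
      refine eq_of_subset_of_card_le ?_ (by rw [h, h'])
      intro z hz
      simp only [mem_insert, mem_singleton] at hz
      rcases hz with rfl | rfl | rfl <;> assumption

omit [Fintype V] in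
theorem triple_inj {u v w w' : V} (h1 : w ≠ u) (h2 : w ≠ v)
    (h : ({u, v, w} : Finset V) = {u, v, w'}) : w = w' := by
  have : w ∈ ({u, v, w'} : Finset V) := h ▸ by simp
  simpa [h1, h2] using this

theorem mem_tri {G : Finset (Sym2 V)} {t : Finset V} : t ∈ tri G ↔ t.card = 3 ∧ ed t ⊆ G := by
  simp [tri]

theorem tri_mono {G H : Finset (Sym2 V)} (h : G ⊆ H) : tri G ⊆ tri H := by
  intro t ht
  exact mem_tri.2 ⟨(mem_tri.1 ht).1, (mem_tri.1 ht).2.trans h⟩

omit [Fintype V] [DecidableEq V] in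
theorem gra_ne {G : Finset (Sym2 V)} (hG : NoLoop G) {u v : V} (h : s(u, v) ∈ G) : u ≠ v :=
  fun e => hG _ h (Sym2.mk_isDiag_iff.2 e)

theorem triple_mem_tri {G : Finset (Sym2 V)} (hG : NoLoop G) {u v w : V} (h1 : s(u, v) ∈ G)
    (h2 : s(u, w) ∈ G) (h3 : s(v, w) ∈ G) : ({u, v, w} : Finset V) ∈ tri G := by
  refine mem_tri.2 ⟨card_eq_three.2 ⟨u, v, w, gra_ne hG h1, gra_ne hG h2, gra_ne hG h3, rfl⟩, ?_⟩
  rw [ed_triple (gra_ne hG h1) (gra_ne hG h2) (gra_ne hG h3)]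
  intro e he
  simp only [mem_insert, mem_singleton] at he
  rcases he with rfl | rfl | rfl <;> assumption

/-- sums over the triangles of `G` on an edge of `G` -/
theorem sum_tri_edge {G : Finset (Sym2 V)} (hG : NoLoop G) {u v : V} (he : s(u, v) ∈ G)
    (f : Finset V → ℝ) :
    ∑ t ∈ (tri G).filter (fun t => s(u, v) ∈ ed t), f t = ∑ w ∈ nb G u ∩ nb G v, f {u, v, w} := by
  symm
  refine sum_bij (fun w _ => ({u, v, w} : Finset V)) ?_ ?_ ?_ fun _ _ => rfl
  · intro w hw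
    obtain ⟨h1, h2⟩ := mem_inter.1 hw
    exact mem_filter.2 ⟨triple_mem_tri hG he (mem_nb.1 h1) (mem_nb.1 h2),
      mk_mem_ed.2 ⟨by simp, by simp, gra_ne hG he⟩⟩
  · intro w hw w' _ h
    obtain ⟨h1, h2⟩ := mem_inter.1 hw
    exact triple_inj (gra_ne hG (mem_nb.1 h1)).symm (gra_ne hG (mem_nb.1 h2)).symm h
  · intro t ht
    obtain ⟨h1, h2⟩ := mem_filter.1 ht
    obtain ⟨h3, h4⟩ := mem_tri.1 h1
    obtain ⟨w, hu, hv, rfl⟩ := exists_third h3 h2
    exact ⟨w, mem_inter.2 ⟨mem_nb.2 (h4 (mk_mem_ed.2 ⟨by simp, by simp, hu.symm⟩)),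
      mem_nb.2 (h4 (mk_mem_ed.2 ⟨by simp, by simp, hv.symm⟩))⟩, rfl⟩

omit [Fintype V] in
theorem Ty_card {L R : Finset (Sym2 V)} (hL : NoLoop L) (hR : NoLoop R) {t : Finset V}
    (h : Ty L R t) : t.card = 3 ∧ ed t ⊆ L ∪ R := by
  obtain ⟨u, v, w, rfl, h1, h2, h3⟩ := h
  refine ⟨card_eq_three.2 ⟨u, v, w, gra_ne hL h1, gra_ne hR h2, gra_ne hR h3, rfl⟩, ?_⟩
  rw [ed_triple (gra_ne hL h1) (gra_ne hR h2) (gra_ne hR h3)]
  intro e he
  simp only [mem_insert, mem_singleton] at he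
  rcases he with rfl | rfl | rfl
  · exact mem_union_left _ h1
  · exact mem_union_right _ h2
  · exact mem_union_right _ h3

omit [Fintype V] in
/-- a typed triangle seen from its `L`-edge -/
theorem Ty_of_left {L R : Finset (Sym2 V)} (hL : NoLoop L) (hR : NoLoop R) (hd : Disjoint L R)
    {t : Finset V} (h : Ty L R t) {u v : V} (he : s(u, v) ∈ L) (ht : s(u, v) ∈ ed t) :
    ∃ w, t = {u, v, w} ∧ s(u, w) ∈ R ∧ s(v, w) ∈ R := by
  obtain ⟨a, b, c, rfl, h1, h2, h3⟩ := h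
  rw [ed_triple (gra_ne hL h1) (gra_ne hR h2) (gra_ne hR h3)] at ht
  simp only [mem_insert, mem_singleton] at ht
  rcases ht with e | e | e
  · rcases Sym2.eq_iff.1 e with ⟨rfl, rfl⟩ | ⟨rfl, rfl⟩
    · exact ⟨c, rfl, h2, h3⟩
    · exact ⟨c, insert_comm _ _ _, h3, h2⟩
  · exact absurd (e ▸ h2) (disjoint_left.1 hd he)
  · exact absurd (e ▸ h3) (disjoint_left.1 hd he)

omit [Fintype V] in
/-- a typed triangle seen from one of its `R`-edges -/
theorem Ty_of_right {L R : Finset (Sym2 V)} (hL : NoLoop L) (hR : NoLoop R) (hd : Disjoint L R)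
    {t : Finset V} (h : Ty L R t) {u w : V} (he : s(u, w) ∈ R) (ht : s(u, w) ∈ ed t) :
    ∃ x, t = {u, w, x} ∧ ((s(u, x) ∈ L ∧ s(w, x) ∈ R) ∨ (s(w, x) ∈ L ∧ s(u, x) ∈ R)) := by
  obtain ⟨a, b, c, rfl, h1, h2, h3⟩ := h
  rw [ed_triple (gra_ne hL h1) (gra_ne hR h2) (gra_ne hR h3)] at ht
  simp only [mem_insert, mem_singleton] at ht
  have p : ∀ {x y z : V}, ({x, y, z} : Finset V) = {x, z, y} := by
    intro x y z
    rw [pair_comm]
  rcases ht with e | e | e
  · exact absurd he (disjoint_left.1 hd (e ▸ h1))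
  · rcases Sym2.eq_iff.1 e with ⟨rfl, rfl⟩ | ⟨rfl, rfl⟩
    · exact ⟨b, p, Or.inl ⟨h1, Sym2.eq_swap ▸ h3⟩⟩
    · exact ⟨b, p.trans (insert_comm _ _ _), Or.inr ⟨h1, Sym2.eq_swap ▸ h3⟩⟩
  · rcases Sym2.eq_iff.1 e with ⟨rfl, rfl⟩ | ⟨rfl, rfl⟩
    · exact ⟨a, (insert_comm _ _ _).trans p, Or.inl ⟨Sym2.eq_swap ▸ h1, Sym2.eq_swap ▸ h2⟩⟩
    · exact ⟨a, (p.trans (insert_comm _ _ _)).trans p,
        Or.inr ⟨Sym2.eq_swap ▸ h1, Sym2.eq_swap ▸ h2⟩⟩

omit [Fintype V] in
/-- a typed triangle has only one `L`-edge -/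
theorem Ty_unique {L R : Finset (Sym2 V)} (hL : NoLoop L) (hR : NoLoop R) (hd : Disjoint L R)
    {t : Finset V} (h : Ty L R t) {e f : Sym2 V} (he : e ∈ L) (hf : f ∈ L) (h1 : e ∈ ed t)
    (h2 : f ∈ ed t) : e = f := by
  obtain ⟨a, b, c, rfl, k1, k2, k3⟩ := h
  rw [ed_triple (gra_ne hL k1) (gra_ne hR k2) (gra_ne hR k3)] at h1 h2
  simp only [mem_insert, mem_singleton] at h1 h2
  have q : ∀ g ∈ L, g = s(a, b) ∨ g = s(a, c) ∨ g = s(b, c) → g = s(a, b) := by
    rintro g hg (e | e | e)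
    · exact e
    · exact absurd (e ▸ k2) (disjoint_left.1 hd hg)
    · exact absurd (e ▸ k3) (disjoint_left.1 hd hg)
  rw [q e he h1, q f hf h2]

end Pool.Agent.P.MP_224820_co.St
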