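import Pool.Agent.P.MP_224820_co.St.IfaceP

/-! Statements: gadgets, embedding, designs, the absorber. -/

set_option autoImplicit false

namespace Pool.Agent.P.MP_224820_co.St

open Finset

-- deps:
def S_GN : Prop := ∀ (V U : Type) [Fintype V] [DecidableEq V] [Fintype U] [DecidableEq U]
  (back : U → Finset (V ⊕ U)) (wr D1 emax : ℕ), GS back wr D1 emax →
  ∀ φ : U → V, Function.Injective φ → (∀ u, φ u ∉ rts back) →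
  (gE back φ).Nodup ∧ (∀ e ∈ gE back φ, ¬ e.IsDiag) ∧ (gE back φ).card ≤ emax ∧
  (gE back φ).card = ∑ u, (back u).card ∧
  (∀ y, (nb (gE back φ).toFinset y).card ≤ 2 * D1) ∧
  ∀ e ∈ gE back φ, ∀ y ∈ e, y ∈ rts back ∪ univ.image φ

-- deps:
def S_OPT : Prop := ∀ (V U : Type) [Fintype V] [DecidableEq V] [Fintype U] [DecidableEq U]
  (back : U → Finset (V ⊕ U)) (wr D1 emax : ℕ), GS back wr D1 emax →
  ∀ (Fb : Finset (Sym2 V)) (Δ : ℝ), (∀ v, ((nb Fb v).card : ℝ) ≤ Δ) → 0 ≤ Δ →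
  (Fintype.card U : ℝ) ^ 2 + Fintype.card U * wr + emax * Δ ≤ Fintype.card V / 2 →
  (Fintype.card V : ℝ) ^ Fintype.card U / 2 ≤ cnt univ (Opt back Fb)

-- deps:
def S_SEQ : Prop := ∀ (V U : Type) [Fintype V] [Fintype U] [DecidableEq U]
  (f : U → (U → V) → ℝ) (r : U → ℕ) (M : U → ℝ), (∀ u φ, 0 ≤ f u φ) → (∀ u, 0 ≤ M u) →
  (∀ u φ ψ, (∀ w, w = u ∨ r w < r u → φ w = ψ w) → f u φ = f u ψ) →
  (∀ u φ, ∑ x, f u (Function.update φ u x) ≤ M u) →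
  ∑ φ : U → V, ∏ u, f u φ ≤ ∏ u, M u

-- deps: SEQ
def S_PATI : Prop := ∀ (V U : Type) [Fintype V] [DecidableEq V] [Fintype U] [DecidableEq U]
  (back : U → Finset (V ⊕ U)), (∀ u, (rb back u).card ≤ 2) →
  ∀ (E0 : Finset (Sym2 V)) (W0 : Finset V) (w0 D0 β F : ℝ), (∀ e ∈ E0, ∀ y ∈ e, y ∈ W0) →
  (W0.card : ℝ) ≤ w0 → (∀ y, ((nb E0 y).card : ℝ) ≤ D0) → 1 ≤ D0 → 0 < β → β ≤ 1 → w0 * β ^ 2 ≤ 1 →
  w0 + 3 * D0 / β ^ 3 ≤ Fintype.card V * F →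
  ∀ (I : Finset U) (r : U → ℕ) (Z : Finset U), (∀ u ∈ I, ∀ w ∈ I, adjF back u w → r u ≠ r w) →
  (∀ u ∈ I, (rb back u).card + cnt I (fun w => adjF back u w ∧ r w < r u) ≤ if u ∈ Z then 4 else 3) →
  ∑ φ ∈ univ.filter (fun φ : U → V => (univ.filter fun u => φ u ∈ W0) = I ∧
      ¬ Disjoint (gE back φ).toFinset E0), (1 / β) ^ ((gE back φ).toFinset ∩ E0).card
    ≤ (Fintype.card V : ℝ) ^ Fintype.card U * F ^ I.card *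
      (if Z = ∅ then 8 * Fintype.card U * gain back W0 β w0 else (2 / β) ^ Z.card)

-- deps: PATI
def S_PAT : Prop := ∀ (V U : Type) [Fintype V] [DecidableEq V] [Fintype U] [DecidableEq U]
  (back : U → Finset (V ⊕ U)) (z0 s0 : ℕ), (∀ u, (rb back u).card ≤ 2) → GOrd back z0 s0 →
  ∀ (E0 : Finset (Sym2 V)) (W0 : Finset V) (w0 D0 β F y : ℝ), (∀ e ∈ E0, ∀ y ∈ e, y ∈ W0) →
  (W0.card : ℝ) ≤ w0 → (∀ y, ((nb E0 y).card : ℝ) ≤ D0) → 1 ≤ D0 → 0 < β → β ≤ 1 → w0 * β ^ 2 ≤ 1 →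
  0 ≤ F → w0 + 3 * D0 / β ^ 3 ≤ Fintype.card V * F → 0 < y → y ≤ 1 →
  ∑ φ ∈ univ.filter (fun φ : U → V => ¬ Disjoint (gE back φ).toFinset E0),
      (1 / β) ^ ((gE back φ).toFinset ∩ E0).card
    ≤ (Fintype.card V : ℝ) ^ Fintype.card U *
      (8 * Fintype.card U * (1 + F) ^ Fintype.card U * gain back W0 β w0
        + (2 / β) ^ z0 * bigB (Fintype.card U) s0 F y)

-- deps:
def S_AR : Prop := ∀ (E O Gd : Type) [Fintype E] [DecidableEq E] [Fintype O] [DecidableEq O]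
  [Nonempty O] [DecidableEq Gd] (gad : O → Gd) (S : O → Finset E) (π : O → ℝ), IsP π →
  ∀ β m K1 : ℝ, 0 ≤ β → β ≤ 1 → 0 < m → 0 ≤ K1 → ∀ 𝒢 : Finset Gd,
  (∀ g ∈ 𝒢, ∑ o ∈ univ.filter (fun o => gad o = g), π o * β ^ (S o).card = m) →
  (∀ o, π o ≠ 0 → ∑ o' ∈ univ.filter (fun o' => o' ≠ o ∧ ¬ Disjoint (S o) (S o')),
    π o' * β ^ (S o' \ S o).card ≤ K1) →
  ∃ (succ : Finset E → Finset Gd) (ch : Finset E → Gd → O),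
    (∀ c, succ c ⊆ 𝒢 ∧ (∀ g ∈ succ c, gad (ch c g) = g ∧ π (ch c g) ≠ 0 ∧ S (ch c g) ⊆ c) ∧
      ∀ g ∈ succ c, ∀ g' ∈ succ c, g ≠ g' → Disjoint (S (ch c g)) (S (ch c g'))) ∧
    Ex (fun _ : E => β) (fun c => ((𝒢 \ succ c).card : ℝ)) ≤ (4 * (1 + K1) / m + 2 * K1) * 𝒢.card

-- deps: GN OPT PAT AR
def S_EMB1 : Prop := ∀ (V U : Type) [Fintype V] [DecidableEq V] [Nonempty V] [Fintype U]
  [DecidableEq U] (Gd : Type) [Fintype Gd] [DecidableEq Gd] (back : Gd → U → Finset (V ⊕ U))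
  (𝒢 : Finset Gd) (wr D1 emax z0 s0 : ℕ) (NG L1 L2 β m κ0 Δ y : ℝ),
  EF back 𝒢 wr D1 emax z0 s0 NG L1 L2 →
  EN (Fintype.card V) (Fintype.card U) wr D1 emax z0 s0 NG L1 L2 β m κ0 Δ y →
  ∀ Fb : Finset (Sym2 V), (∀ v, ((nb Fb v).card : ℝ) ≤ Δ) →
  ∃ (succ : Finset (Sym2 V) → Finset Gd) (φ : Finset (Sym2 V) → Gd → U → V),
    (∀ c, succ c ⊆ 𝒢 ∧ (∑ g ∈ succ c, gE (back g) (φ c g)).Nodup ∧
      ∀ e ∈ ∑ g ∈ succ c, gE (back g) (φ c g), e ∈ c ∧ e ∉ Fb ∧ ¬ e.IsDiag) ∧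
    Ex (fun _ : Sym2 V => β) (fun c => ((𝒢 \ succ c).card : ℝ)) ≤ kapR m κ0 * 𝒢.card

-- deps: EMB1 SPR MONO CH1
def S_EMB : Prop := ∀ (V U : Type) [Fintype V] [DecidableEq V] [Nonempty V] [Fintype U]
  [DecidableEq U] (Gd : Type) [Fintype Gd] [DecidableEq Gd] (back : Gd → U → Finset (V ⊕ U))
  (𝒢 : Finset Gd) (wr D1 emax z0 s0 M : ℕ) (NG L1 L2 β m κ0 Δ d y π : ℝ),
  EF back 𝒢 wr D1 emax z0 s0 NG L1 L2 →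
  EN (Fintype.card V) (Fintype.card U) wr D1 emax z0 s0 NG L1 L2 β m κ0 (Δ + M * d) y →
  0 ≤ d → M * β ≤ π → π ≤ 1 → ∀ Fb : Finset (Sym2 V), (∀ v, ((nb Fb v).card : ℝ) ≤ Δ) →
  Pr (fun _ : Sym2 V => π) (fun c => ¬ ∃ φ : Gd → U → V, (∑ g ∈ 𝒢, gE (back g) (φ g)).Nodup ∧
      (∀ e ∈ ∑ g ∈ 𝒢, gE (back g) (φ g), e ∈ c ∧ e ∉ Fb ∧ ¬ e.IsDiag) ∧
      ∀ v, ((nb (∑ g ∈ 𝒢, gE (back g) (φ g)).toFinset v).card : ℝ) ≤ M * d)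
    ≤ kapR m κ0 ^ M * NG + M * (Fintype.card V * Real.exp (2 * Fintype.card V * β - d))

-- deps:
def S_TUBE : Prop := ∀ (W : Type) (x : ℕ → W) (t : ℕ),
  FD (core x t + {s(x 0, x 1), s(x 1, x 2), s(x 2, x 3), s(x 3, x 4)}) ∧ FD (core x t + {s(x 0, x 4)})

-- deps:
def S_FGE : Prop := ∀ (W : Type) [DecidableEq W] (t k : ℕ) (v : ℕ → W) (φ : FU t → W), 10 ≤ t →
  1 ≤ k → k ≤ 7 → v (3 * k) = v 0 → (∀ i < 3 * k, v i ≠ v (i + 1)) →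
  gE (fback t v k) φ =
    ∑ i ∈ range (3 * k), (core (fun j => Sum.elim id φ (fX t v k 0 (f21 i) j)) t
      + core (fun j => Sum.elim id φ (fX t v k 1 (f21 i) j)) t
      + ({s(v i, Sum.elim id φ (fP W t i)), s(Sum.elim id φ (fP W t i), Sum.elim id φ (fQ W t i)),
          s(Sum.elim id φ (fQ W t i), Sum.elim id φ (fR W t i)),
          s(Sum.elim id φ (fR W t i), v (i + 1))} : Multiset (Sym2 W)))
    + ∑ j ∈ range k, ({s(Sum.elim id φ (fQ W t (3 * j)), Sum.elim id φ (fQ W t (3 * j + 1))),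
        s(Sum.elim id φ (fQ W t (3 * j + 1)), Sum.elim id φ (fQ W t (3 * j + 2))),
        s(Sum.elim id φ (fQ W t (3 * j + 2)), Sum.elim id φ (fQ W t (3 * j + 3)))} : Multiset (Sym2 W))

-- deps: TUBE FGE
def S_FOLD : Prop := ∀ (W : Type) [DecidableEq W] (t k : ℕ) (v : ℕ → W) (φ : FU t → W), 10 ≤ t →
  1 ≤ k → k ≤ 7 → v (3 * k) = v 0 → (∀ i < 3 * k, v i ≠ v (i + 1)) →
  FD (gE (fback t v k) φ) ∧
  FD (gE (fback t v k) φ + ∑ i ∈ range (3 * k), {s(v i, v (i + 1))})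

-- deps:
def S_FSA : Prop := ∀ (V : Type) [Fintype V] [DecidableEq V] (t k : ℕ) (v : ℕ → V), 10 ≤ t →
  1 ≤ k → k ≤ 7 → v (3 * k) = v 0 →
  Fintype.card (FU t) = 63 + 42 * t ∧ GS (fback t v k) 21 300 (3 * (63 + 42 * t) + 84) ∧
  v 0 ∈ rts (fback t v k) ∧ (∀ x ∈ rts (fback t v k), ∃ i < 3 * k, x = v i) ∧
  ∀ u x y, x ≠ y → x ∈ rb (fback t v k) u → y ∈ rb (fback t v k) u →
    ∃ i < 3 * k, s(x, y) = s(v i, v (i + 1))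

-- deps:
def S_FSB : Prop := ∀ (V : Type) [Fintype V] [DecidableEq V] (s k : ℕ) (v : ℕ → V), 2 ≤ s →
  1 ≤ k → k ≤ 7 → GOrd (fback (5 * s) v k) 84 s

-- deps:
def S_PATH : Prop := ∀ (V : Type) [Fintype V] [DecidableEq V] (u v : V) (l : ℕ),
  GS (pback u v l) 2 2 4 ∧ GOrd (pback u v l) 0 4 ∧ (∀ x ∈ rts (pback u v l), x = u ∨ x = v) ∧
  (∀ w, (rb (pback u v l) w).card ≤ 1) ∧
  (l = 3 ∨ l = 4 → ∀ φ : Fin 3 → V, Wk u v l (gE (pback u v l) φ))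

-- deps:
def S_COMP : Prop := ∀ (V In Mid Out : Type) (iu iv : In → V) (il : In → ℕ) (ok : Finset In → Prop)
  (mu mv : Mid → V) (okM : Finset Mid → Prop) (ou ov : Out → V) (okO : Finset Out → Prop)
  (L1 C1 L2 C2 : ℕ), HasMod iu iv il ok mu mv okM L1 C1 →
  HasMod mu mv (fun _ => 3) okM ou ov okO L2 C2 → HasMod iu iv il ok ou ov okO (L1 + L2) (C1 + C2)

-- deps:
def S_PHASE : Prop := ∀ (n : ℕ) (In : Type) [Fintype In] (own pos : In → Fin n) (s m d : ℕ), 1 ≤ s →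
  (∀ w, own w ≤ pos w ∧ (pos w : ℕ) ≤ own w + s * m) →
  (∀ v, cnt univ (fun w => own w = v ∨ pos w = v) ≤ d) →
  ∃ (Out : Type) (_ : Fintype Out) (ou ov : Out → Fin n),
    HasMod own pos (fun _ => 3) (Zb own pos) ou ov (Zb ou ov) (8 * (d + 2 * m + 3)) 12 ∧
    (∀ o, ou o ≤ ov o ∧ (ov o : ℕ) ≤ ou o + s) ∧
    (∀ v, cnt univ (fun o => ou o = v ∨ ov o = v) ≤ 2 * (d + 2 * m + 3)) ∧
    (s * m ≤ 1 → ∀ o o', ou o = ou o' → ou o ≠ ov o → ou o' ≠ ov o' → o = o')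

-- deps:
def S_TERM : Prop := ∀ (n : ℕ) (In : Type) [Fintype In] (own pos : In → Fin n),
  (∀ w, own w ≤ pos w ∧ (pos w : ℕ) ≤ own w + 1) →
  (∀ o o', own o = own o' → own o ≠ pos o → own o' ≠ pos o' → o = o') →
  HasMod own pos (fun _ => 3) (Zb own pos) (Empty.elim : Empty → Fin n) Empty.elim (fun _ => True) 0 1

-- deps:
def S_TOK : Prop := ∀ (n : ℕ) (X : Finset (Sym2 (Fin n))) (d : ℕ), NoLoop X →
  (∀ v, (nb X v).card ≤ d) →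
  HasMod (fun e : {e // e ∈ X} => e.1.inf) (fun e => e.1.sup) (fun _ => 1) (okX X)
    (fun e : {e // e ∈ X} => e.1.inf) (fun e => e.1.sup)
    (Zb (fun e : {e // e ∈ X} => e.1.inf) (fun e => e.1.sup)) (14 * d) 16

-- deps: COMP PHASE TERM TOK
def S_DES : Prop := ∀ (n : ℕ) (X : Finset (Sym2 (Fin n))) (d : ℕ), NoLoop X →
  (∀ v, (nb X v).card ≤ d) →
  HasMod (fun e : {e // e ∈ X} => e.1.inf) (fun e => e.1.sup) (fun _ => 1) (okX X)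
    (Empty.elim : Empty → Fin n) Empty.elim (fun _ => True) (500 * (d + Nat.sqrt n + 1)) 60

-- deps: EMB PATH
def S_ABSA : Prop := ∀ (n : ℕ) (I : Type) [Fintype I] (src tgt : I → Fin n) (len : I → ℕ) (Lam M : ℕ)
  (β m κ0 Δ d π : ℝ), 0 < n → (∀ i, len i = 3 ∨ len i = 4) →
  (∀ v, cnt univ (fun i => src i = v ∨ tgt i = v) ≤ Lam) →
  EN n 3 2 2 4 0 4 (n * Lam) Lam 0 β m κ0 (Δ + M * d) 1 → 0 ≤ d → M * β ≤ π → π ≤ 1 →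
  ∀ X : Finset (Sym2 (Fin n)), (∀ v, ((nb X v).card : ℝ) ≤ Δ) →
  Pr (fun _ : Sym2 (Fin n) => π) (fun c => ¬ ∃ PE : I → Multiset (Sym2 (Fin n)),
      (∀ i, Wk (src i) (tgt i) (len i) (PE i)) ∧ (∑ i, PE i).Nodup ∧
      (∀ e ∈ ∑ i, PE i, e ∈ c ∧ e ∉ X ∧ ¬ e.IsDiag) ∧
      ∀ v, ((nb (∑ i, PE i).toFinset v).card : ℝ) ≤ M * d)
    ≤ kapR m κ0 ^ M * (n * Lam) + M * (n * Real.exp (2 * n * β - d))

-- deps: FSA FSB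
def S_CELL : Prop := ∀ (n : ℕ) (X : Finset (Sym2 (Fin n))) (I Cl : Type) [Fintype I] [Fintype Cl]
  (src tgt : I → Fin n) (len : I → ℕ) (cell : Cl → Multiset ({e // e ∈ X} ⊕ I)) (Lam : ℕ),
  NoLoop X →
  Mod (fun e : {e // e ∈ X} => e.1.inf) (fun e => e.1.sup) (fun _ => 1) (okX X) src tgt len cell
    (Empty.elim : Empty → I) (fun _ => True) Lam 60 →
  ∀ PE : I → Multiset (Sym2 (Fin n)), (∀ i, Wk (src i) (tgt i) (len i) (PE i)) →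
  (∑ i, PE i).Nodup → (∀ e ∈ ∑ i, PE i, e ∉ X ∧ ¬ e.IsDiag) →
  ∀ (d2 : ℝ), (∀ v, ((nb (X ∪ (∑ i, PE i).toFinset) v).card : ℝ) ≤ d2) → ∀ s : ℕ, 2 ≤ s →
  ∃ (k : Cl → ℕ) (v : Cl → ℕ → Fin n),
    (∀ c, 1 ≤ k c ∧ k c ≤ 7 ∧ v c (3 * k c) = v c 0 ∧ (∀ i < 3 * k c, v c i ≠ v c (i + 1)) ∧
      (cell c).bind (Sum.elim (fun e => {e.1}) PE) = ∑ i ∈ range (3 * k c), {s(v c i, v c (i + 1))}) ∧
    EF (fun c => fback (5 * s) (v c) (k c)) univ 21 300 (3 * (63 + 42 * (5 * s)) + 84) 84 s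
      (n * (60 * d2)) (60 * d2) 60

-- deps: CELL EMB FOLD FSA
def S_ABSB : Prop := ∀ (n : ℕ) (X : Finset (Sym2 (Fin n))) (I Cl : Type) [Fintype I] [Fintype Cl]
  (src tgt : I → Fin n) (len : I → ℕ) (cell : Cl → Multiset ({e // e ∈ X} ⊕ I)) (Lam : ℕ),
  0 < n → NoLoop X →
  Mod (fun e : {e // e ∈ X} => e.1.inf) (fun e => e.1.sup) (fun _ => 1) (okX X) src tgt len cell
    (Empty.elim : Empty → I) (fun _ => True) Lam 60 →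
  ∀ PE : I → Multiset (Sym2 (Fin n)), (∀ i, Wk (src i) (tgt i) (len i) (PE i)) →
  (∑ i, PE i).Nodup → (∀ e ∈ ∑ i, PE i, e ∉ X ∧ ¬ e.IsDiag) →
  ∀ (d2 : ℝ), (∀ v, ((nb (X ∪ (∑ i, PE i).toFinset) v).card : ℝ) ≤ d2) →
  ∀ (s M : ℕ) (β m κ0 d y π : ℝ), 2 ≤ s →
  EN n (63 + 42 * (5 * s)) 21 300 (3 * (63 + 42 * (5 * s)) + 84) 84 s (n * (60 * d2)) (60 * d2) 60
    β m κ0 (d2 + M * d) y → 0 ≤ d → M * β ≤ π → π ≤ 1 →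
  Pr (fun _ : Sym2 (Fin n) => π) (fun c => ¬ ∃ A ⊆ (∑ i, PE i).toFinset ∪ c, Absorbs A X)
    ≤ kapR m κ0 ^ M * (n * (60 * d2)) + M * (n * Real.exp (2 * n * β - d))

-- deps:
def S_NUMA1 : Prop := ∃ n0 : ℕ, ∀ n : ℕ, n0 ≤ n → ∀ Lam : ℕ,
  (Lam : ℝ) ≤ 2000 * (n : ℝ) ^ (657 / 1000 : ℝ) →
  ∃ κ0 : ℝ, EN n 3 2 2 4 0 4 (n * Lam) Lam 0 ((n : ℝ) ^ (-(1003 / 3000) : ℝ)) ((n : ℝ) ^ (1 / 1000 : ℝ))
      κ0 ((n : ℝ) ^ (657 / 1000 : ℝ) + (10000 : ℕ) * (3 * (n : ℝ) ^ (1997 / 3000 : ℝ))) 1 ∧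
    kapR ((n : ℝ) ^ (1 / 1000 : ℝ)) κ0 ^ 10000 * (n * Lam)
      + (10000 : ℕ) * (n * Real.exp (2 * n * (n : ℝ) ^ (-(1003 / 3000) : ℝ)
        - 3 * (n : ℝ) ^ (1997 / 3000 : ℝ))) ≤ 1 / n

-- deps:
def S_NUMA2 : Prop := ∀ η : ℝ, 0 < η → η ≤ 1 → ∃ n0 : ℕ, ∀ n : ℕ, n0 ≤ n →
  (10000 : ℕ) * (n : ℝ) ^ (-(1003 / 3000) : ℝ) ≤ rho n η / 16 ∧ rho n η ≤ 1 ∧
  ∃ (s : ℕ) (m κ0 y : ℝ), 2 ≤ s ∧
    EN n (63 + 42 * (5 * s)) 21 300 (3 * (63 + 42 * (5 * s)) + 84) 84 s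
      (n * (60 * (40000 * (n : ℝ) ^ (1997 / 3000 : ℝ)))) (60 * (40000 * (n : ℝ) ^ (1997 / 3000 : ℝ))) 60
      (rho n η / 160000) m κ0
      (40000 * (n : ℝ) ^ (1997 / 3000 : ℝ) + (10000 : ℕ) * (3 * n * (rho n η / 160000))) y ∧
    kapR m κ0 ^ 10000 * (n * (60 * (40000 * (n : ℝ) ^ (1997 / 3000 : ℝ))))
      + (10000 : ℕ) * (n * Real.exp (2 * n * (rho n η / 160000) - 3 * n * (rho n η / 160000))) ≤ 1 / n

-- deps: DES ABSA ABSB NUMA1 NUMA2 TWO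
def S_ABS : Prop := ∀ η : ℝ, 0 < η → η ≤ 1 → ∃ n0 : ℕ, ∀ n : ℕ, n0 ≤ n →
  ∀ X : Finset (Sym2 (Fin n)), NoLoop X → (∀ v, ((nb X v).card : ℝ) ≤ (n : ℝ) ^ (657 / 1000 : ℝ)) →
  Pr (fun _ : Sym2 (Fin n) => rho n η / 8) (fun c => ¬ ∃ A ⊆ c, Absorbs A X) ≤ 2 / n

end Pool.Agent.P.MP_224820_co.St
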