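import Pool.Agent.P.MP_224820_co.St.IfaceM
import Pool.Agent.P.MP_224820_co.St.IfaceA
import Pool.Agent.P.MP_224820_co.St.IfaceP
import Pool.Agent.P.MP_224820_co.St.BaseB
import Pool.Agent.P.MP_224820_co.St.GrA

/-! Step ABSX. -/

set_option autoImplicit false

namespace Pool.Agent.P.MP_224820_co.St

open Finset Filter Topology

theorem absx_ne (J : ℕ) : kA J J ≠ kB J J := by
  simp [kA, kB]

/-- degrees in a random graph -/
theorem absx_deg (hCH1 : S_CH1) (n : ℕ) (q y : ℝ) (q0 : 0 ≤ q) (q1 : q ≤ 1) (hy : 2 * n * q ≤ y) :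
    Pr (fun _ : Sym2 (Fin n) => q) (fun A => ∃ v ∈ (univ : Finset (Fin n)), y ≤ ((nb A v).card : ℝ))
      ≤ n * Real.exp (-(7 / 50 * y)) := by
  have hp : IsP (fun _ : Sym2 (Fin n) => q) := fun _ => ⟨q0, q1⟩
  have y0 : 0 ≤ y := le_trans (by positivity) hy
  refine (Pr_exists_le' hp univ (fun v A => y ≤ ((nb A v).card : ℝ))
    (δ := Real.exp (-(7 / 50 * y))) fun v _ => ?_).trans (le_of_eq (by simp))
  have h1 := (hCH1 _ _ hp (univ.image fun x : Fin n => s(v, x)) 1 (y / 2) y zero_le_one).1 (by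
    rw [sum_const, nsmul_eq_mul]
    have h2 : ((univ.image fun x : Fin n => s(v, x)).card : ℝ) ≤ n := by
      have := card_image_le (s := (univ : Finset (Fin n))) (f := fun x : Fin n => s(v, x))
      rw [card_univ, Fintype.card_fin] at this
      exact_mod_cast this
    nlinarith [mul_le_mul_of_nonneg_right h2 q0])
  refine le_trans (le_of_eq (Pr_congr fun A => ?_)) (h1.trans (Real.exp_le_exp.2 ?_))
  · rw [inter_comm, card_inter_star, inter_univ]
  · have := Real.exp_one_lt_d9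
    nlinarith

theorem absx_num (n : ℕ) (hn : 1 ≤ n) :
    (n : ℝ) * Real.exp (-(7 / 50 * (n : ℝ) ^ (657 / 1000 : ℝ))) ≤ 62500 / n := by
  have n1 : (1 : ℝ) ≤ n := by exact_mod_cast hn
  have n0 : (0 : ℝ) < n := by linarith
  set y := (n : ℝ) ^ (657 / 1000 : ℝ) with hy
  have y0 : 0 < y := Real.rpow_pos_of_pos n0 _
  have h1 : (n : ℝ) ≤ y ^ 2 := by
    rw [hy, ← Real.rpow_natCast, ← Real.rpow_mul n0.le]
    conv_lhs => rw [← Real.rpow_one (n : ℝ)]
    exact Real.rpow_le_rpow_of_exponent_le n1 (by norm_num)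
  have h2 := Real.pow_div_factorial_le_exp (7 / 50 * y) (by positivity) 4
  have h3 : (n : ℝ) ^ 2 ≤ y ^ 4 := by
    have := pow_le_pow_left₀ n0.le h1 2
    calc (n : ℝ) ^ 2 ≤ (y ^ 2) ^ 2 := this
      _ = y ^ 4 := by ring
  have h4 : (n : ℝ) ^ 2 ≤ 62500 * Real.exp (7 / 50 * y) := by
    norm_num [Nat.factorial] at h2
    nlinarith [pow_pos y0 4]
  rw [Real.exp_neg, ← div_eq_mul_inv, div_le_div_iff₀ (Real.exp_pos _) n0]
  nlinarith

theorem p_ABSX (hABS : S_ABS) (hSLICE : S_SLICE) (hCH1 : S_CH1) (hNUMT : S_NUMT) :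
    S_ABSX := by
  classical
  intro ε δ e0 e1 d0
  obtain ⟨n1, h1⟩ := hABS (ε / 260) (by positivity) (by linarith)
  obtain ⟨n2, h2⟩ := hNUMT ε e0 e1
  obtain ⟨n3, h3⟩ := exists_nat_ge (62502 / δ)
  refine ⟨n1 + n2 + n3 + 1, fun n hn J x0 hP => ?_⟩
  have T := h2 n (by omega) J x0 hP
  have n0 : (0 : ℝ) < n := by exact_mod_cast (show 0 < n by omega)
  have hn3 : (n3 : ℝ) ≤ n := by exact_mod_cast (show n3 ≤ n by omega)
  have hs := (hSLICE (Fin (2 * J + 2)) (Sym2 (Fin n)) (piK n J x0 (ε / 260))).1 _ _ (absx_ne J)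
    (fun A B => if ¬ ∃ A' ⊆ B, Absorbs A' (KN (Fin n) ∩ A) then 1 else 0)
  have pA : IsP (fun _ : Sym2 (Fin n) => piK n J x0 (ε / 260) (kA J J)) := fun _ => T.isP _
  have pB : IsP (fun _ : Sym2 (Fin n) => piK n J x0 (ε / 260) (kB J J)) := fun _ => T.isP _
  rw [Pr_eq, hs]
  have hb := Ex_le_bad pA
    (fun A => ∃ v ∈ (univ : Finset (Fin n)), (n : ℝ) ^ (657 / 1000 : ℝ) ≤ ((nb A v).card : ℝ))
    (f := fun A => Ex (fun _ : Sym2 (Fin n) => piK n J x0 (ε / 260) (kB J J))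
      fun B => if ¬ ∃ A' ⊆ B, Absorbs A' (KN (Fin n) ∩ A) then 1 else 0) (δ := 2 / n)
    (by positivity)
    (fun A => by
      rw [← Pr_eq]
      exact Pr_le_one pB _)
    (fun A hA => by
      rw [← Pr_eq, T.piC]
      refine h1 n (by omega) _ (fun e he => mem_KN.1 (mem_inter.1 he).1) fun v => ?_
      have h4 : ((nb (KN (Fin n) ∩ A) v).card : ℝ) ≤ (nb A v).card := by
        exact_mod_cast card_le_card (nb_mono inter_subset_right v)
      refine h4.trans (le_of_not_ge fun h5 => hA ⟨v, mem_univ _, h5⟩))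
  have hd := absx_deg hCH1 n _ ((n : ℝ) ^ (657 / 1000 : ℝ)) (T.isP (kA J J)).1 (T.isP (kA J J)).2
    (by rw [T.piA J le_rfl]; exact T.degX)
  have hx := absx_num n (by omega)
  have hf : 62502 / (n : ℝ) ≤ δ := by
    rw [div_le_iff₀ n0]
    rw [div_le_iff₀ d0] at h3
    nlinarith
  have he : 62502 / (n : ℝ) = 62500 / n + 2 / n := by ring
  linarith

end Pool.Agent.P.MP_224820_co.St
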