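import Pool.Agent.P.MP_224820_co.St.IfaceA
import Pool.Agent.P.MP_224820_co.St.BaseB

/-! Step AR. -/

set_option autoImplicit false

namespace Pool.Agent.P.MP_224820_co.St

open Finset

section
variable {E O : Type} [Fintype E] [DecidableEq E] [Fintype O] [DecidableEq O]

open Classical in
/-- indicator of a present option -/
noncomputable def arx (S : O → Finset E) (π : O → ℝ) (o : O) (M : Finset O) (c : Finset E) : ℝ :=
  if o ∈ M ∧ π o ≠ 0 ∧ S o ⊆ c then 1 else 0

/-- double expectation -/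
noncomputable def arE (π : O → ℝ) (β : ℝ) (f : Finset O → Finset E → ℝ) : ℝ :=
  Ex π fun M => Ex (fun _ : E => β) fun c => f M c

theorem arE_add (π : O → ℝ) (β : ℝ) (f g : Finset O → Finset E → ℝ) :
    arE π β (fun M c => f M c + g M c) = arE π β f + arE π β g := by
  unfold arE
  rw [← Ex_add]
  exact Ex_congr fun M => Ex_add _ _ _

theorem arE_mul (π : O → ℝ) (β a : ℝ) (f : Finset O → Finset E → ℝ) :
    arE π β (fun M c => a * f M c) = a * arE π β f := by
  unfold arE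
  rw [← Ex_mul]
  exact Ex_congr fun M => Ex_mul _ _ _

theorem arE_sum {ι : Type} (π : O → ℝ) (β : ℝ) (J : Finset ι) (f : ι → Finset O → Finset E → ℝ) :
    arE π β (fun M c => ∑ i ∈ J, f i M c) = ∑ i ∈ J, arE π β (f i) := by
  unfold arE
  rw [← Ex_sum]
  exact Ex_congr fun M => Ex_sum _ _ _

theorem arE_const (π : O → ℝ) (β a : ℝ) : arE π β (fun _ (_ : Finset E) => a) = a := by
  unfold arE
  rw [Ex_congr (fun M => Ex_const _ a), Ex_const]

theorem arE_congr {π : O → ℝ} {β : ℝ} {f g : Finset O → Finset E → ℝ} (h : ∀ M c, f M c = g M c) :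
    arE π β f = arE π β g := by
  unfold arE
  exact Ex_congr fun M => Ex_congr fun c => h M c

theorem arE_mono {π : O → ℝ} (hπ : IsP π) {β : ℝ} (h0 : 0 ≤ β) (h1 : β ≤ 1)
    {f g : Finset O → Finset E → ℝ} (h : ∀ M c, f M c ≤ g M c) : arE π β f ≤ arE π β g := by
  unfold arE
  exact Ex_mono hπ fun M => Ex_mono (fun _ => ⟨h0, h1⟩) fun c => h M c

theorem ar_box (π : O → ℝ) (β : ℝ) (F : Finset O) (G : Finset E) :
    arE π β (fun M c => (if F ⊆ M then (1 : ℝ) else 0) * (if G ⊆ c then (1 : ℝ) else 0))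
      = (∏ a ∈ F, π a) * β ^ G.card := by
  unfold arE
  have h1 : Ex (fun _ : E => β) (fun c => if G ⊆ c then (1 : ℝ) else 0) = β ^ G.card := by
    rw [← Pr_eq, Pr_subset]; simp
  have h2 : Ex π (fun M => if F ⊆ M then (1 : ℝ) else 0) = ∏ a ∈ F, π a := by
    rw [← Pr_eq, Pr_subset]
  rw [Ex_congr (fun M => Ex_mul _ _ _), h1, ← h2, mul_comm, ← Ex_mul]
  exact Ex_congr fun M => mul_comm _ _

omit [Fintype E] [Fintype O] in
theorem arx_nonneg (S : O → Finset E) (π : O → ℝ) (o : O) (M : Finset O) (c : Finset E) :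
    0 ≤ arx S π o M c := by
  unfold arx; split_ifs <;> norm_num

omit [Fintype E] [Fintype O] in
theorem arx_sq (S : O → Finset E) (π : O → ℝ) (o : O) (M : Finset O) (c : Finset E) :
    arx S π o M c * arx S π o M c = arx S π o M c := by
  unfold arx; split_ifs <;> norm_num

theorem ar_one (S : O → Finset E) (π : O → ℝ) (β : ℝ) (o : O) :
    arE π β (arx S π o) = π o * β ^ (S o).card := by
  by_cases h : π o = 0
  · rw [arE_congr (g := fun _ _ => 0) (fun M c => by simp [arx, h]), arE_const, h, zero_mul]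
  · have := ar_box π β {o} (S o)
    rw [prod_singleton] at this
    rw [← this]
    refine arE_congr fun M c => ?_
    by_cases h1 : o ∈ M <;> by_cases h2 : S o ⊆ c <;> simp [arx, h, h1, h2]

theorem ar_two (S : O → Finset E) {π : O → ℝ} (hπ : IsP π) {β : ℝ} (h0 : 0 ≤ β) (h1 : β ≤ 1)
    {o o' : O} (h : o' ≠ o) :
    arE π β (fun M c => arx S π o M c * arx S π o' M c)
      ≤ π o * β ^ (S o).card * (π o' * β ^ (S o' \ S o).card) := by
  have := ar_box π β {o, o'} (S o' ∪ S o)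
  rw [prod_pair h.symm, ← card_sdiff_add_card, pow_add] at this
  refine le_trans (arE_mono hπ h0 h1 fun M c => ?_) (le_of_eq (this.trans (by ring)))
  unfold arx
  by_cases a1 : o ∈ M ∧ π o ≠ 0 ∧ S o ⊆ c
  · by_cases a2 : o' ∈ M ∧ π o' ≠ 0 ∧ S o' ⊆ c
    · have b1 : ({o, o'} : Finset O) ⊆ M := by
        intro x hx
        rcases mem_insert.1 hx with rfl | hx
        · exact a1.1
        · rw [mem_singleton.1 hx]; exact a2.1
      have b2 : S o' ∪ S o ⊆ c := union_subset a2.2.2 a1.2.2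
      rw [if_pos a1, if_pos a2, if_pos b1, if_pos b2]
    · rw [if_neg a2, mul_zero]
      split_ifs <;> norm_num
  · rw [if_neg a1, zero_mul]
    split_ifs <;> norm_num

/-- sums over pairs that meet -/
theorem ar_meet (S : O → Finset E) {π : O → ℝ} (hπ : IsP π) {β K1 : ℝ} (h0 : 0 ≤ β) (h1 : β ≤ 1)
    (hK : ∀ o, π o ≠ 0 → ∑ o' ∈ univ.filter (fun o' => o' ≠ o ∧ ¬ Disjoint (S o) (S o')),
      π o' * β ^ (S o' \ S o).card ≤ K1) (o : O) (B : Finset O)
    (hB : ∀ o' ∈ B, o' ≠ o ∧ ¬ Disjoint (S o) (S o')) :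
    ∑ o' ∈ B, arE π β (fun M c => arx S π o M c * arx S π o' M c) ≤ π o * β ^ (S o).card * K1 := by
  refine le_trans (sum_le_sum fun o' ho' => ar_two S hπ h0 h1 (hB o' ho').1) ?_
  rw [← mul_sum]
  by_cases h : π o = 0
  · simp [h]
  · refine mul_le_mul_of_nonneg_left (le_trans (sum_le_sum_of_subset_of_nonneg ?_ ?_) (hK o h))
      (mul_nonneg (hπ o).1 (pow_nonneg h0 _))
    · intro o' ho'
      exact mem_filter.2 ⟨mem_univ _, hB o' ho'⟩
    · intro o' _ _
      exact mul_nonneg (hπ o').1 (pow_nonneg h0 _)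

theorem ar_sq (S : O → Finset E) {π : O → ℝ} (hπ : IsP π) {β K1 m : ℝ} (h0 : 0 ≤ β) (h1 : β ≤ 1)
    (hK : ∀ o, π o ≠ 0 → ∑ o' ∈ univ.filter (fun o' => o' ≠ o ∧ ¬ Disjoint (S o) (S o')),
      π o' * β ^ (S o' \ S o).card ≤ K1) (A : Finset O)
    (hA : ∑ o ∈ A, π o * β ^ (S o).card = m) :
    arE π β (fun M c => (∑ o ∈ A, arx S π o M c) * ∑ o ∈ A, arx S π o M c)
      ≤ m * (1 + m + K1) := by
  classical
  rw [arE_congr (g := fun M c => ∑ o ∈ A, ∑ o' ∈ A, arx S π o M c * arx S π o' M c)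
    (fun M c => sum_mul_sum _ _ _ _), arE_sum, ← hA, sum_mul]
  refine sum_le_sum fun o ho => ?_
  rw [arE_sum, ← add_sum_erase A _ ho, arE_congr (fun M c => arx_sq S π o M c), ar_one,
    ← sum_filter_add_sum_filter_not (A.erase o) (fun o' => Disjoint (S o) (S o'))]
  have hw : 0 ≤ π o * β ^ (S o).card := mul_nonneg (hπ o).1 (pow_nonneg h0 _)
  have e1 : ∑ o' ∈ (A.erase o).filter (fun o' => Disjoint (S o) (S o')),
      arE π β (fun M c => arx S π o M c * arx S π o' M c)
      ≤ π o * β ^ (S o).card * ∑ o ∈ A, π o * β ^ (S o).card := by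
    refine le_trans (sum_le_sum fun o' ho' =>
      ar_two S hπ h0 h1 (ne_of_mem_erase (mem_filter.1 ho').1)) ?_
    rw [← mul_sum]
    refine mul_le_mul_of_nonneg_left ?_ hw
    refine le_trans (le_of_eq (sum_congr rfl fun o' ho' => ?_))
      (sum_le_sum_of_subset_of_nonneg ((filter_subset _ _).trans (erase_subset _ _))
        fun o' _ _ => mul_nonneg (hπ o').1 (pow_nonneg h0 _))
    rw [sdiff_eq_self_of_disjoint (mem_filter.1 ho').2.symm]
  have e2 := ar_meet S hπ h0 h1 hK o ((A.erase o).filter (fun o' => ¬ Disjoint (S o) (S o')))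
    fun o' ho' => ⟨ne_of_mem_erase (mem_filter.1 ho').1, (mem_filter.1 ho').2⟩
  nlinarith [e1, e2]

end

section
variable {E O Gd : Type} [Fintype E] [DecidableEq E] [Fintype O] [DecidableEq O] [DecidableEq Gd]

/-- a present option of `g` that meets no present option of another gadget -/
def arG (gad : O → Gd) (S : O → Finset E) (π : O → ℝ) (M : Finset O) (c : Finset E) (g : Gd)
    (o : O) : Prop :=
  gad o = g ∧ (o ∈ M ∧ π o ≠ 0 ∧ S o ⊆ c) ∧
    ∀ o', (o' ∈ M ∧ π o' ≠ 0 ∧ S o' ⊆ c) → gad o' ≠ g → Disjoint (S o) (S o')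

omit [Fintype E] in
theorem ar_fail (gad : O → Gd) (S : O → Finset E) (π : O → ℝ) (M : Finset O) (c : Finset E) (g : Gd)
    (h : ¬ ∃ o, arG gad S π M c g o) :
    ∑ o ∈ univ.filter (fun o => gad o = g), arx S π o M c ≤
      ∑ o ∈ univ.filter (fun o => gad o = g),
        ∑ o' ∈ univ.filter (fun o' => gad o' ≠ g ∧ ¬ Disjoint (S o) (S o')),
          arx S π o M c * arx S π o' M c := by
  refine sum_le_sum fun o ho => ?_
  have nn : ∀ o', 0 ≤ arx S π o M c * arx S π o' M c := fun o' =>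
    mul_nonneg (arx_nonneg _ _ _ _ _) (arx_nonneg _ _ _ _ _)
  by_cases a1 : o ∈ M ∧ π o ≠ 0 ∧ S o ⊆ c
  · have : ∃ o', (o' ∈ M ∧ π o' ≠ 0 ∧ S o' ⊆ c) ∧ gad o' ≠ g ∧ ¬ Disjoint (S o) (S o') := by
      by_contra hc
      refine h ⟨o, (mem_filter.1 ho).2, a1, fun o' b1 b2 => ?_⟩
      by_contra b3
      exact hc ⟨o', b1, b2, b3⟩
    obtain ⟨o', b1, b2⟩ := this
    refine le_trans (le_of_eq ?_) (single_le_sum (f := fun o' => arx S π o M c * arx S π o' M c)
      (fun o' _ => nn o') (mem_filter.2 ⟨mem_univ o', b2⟩))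
    have : arx S π o' M c = 1 := by unfold arx; rw [if_pos b1]
    simp [this]
  · have : arx S π o M c = 0 := by unfold arx; rw [if_neg a1]
    rw [this]
    exact sum_nonneg fun o' _ => by simp

open Classical in
theorem ar_g (gad : O → Gd) (S : O → Finset E) {π : O → ℝ} (hπ : IsP π) {β K1 m : ℝ} (h0 : 0 ≤ β)
    (h1 : β ≤ 1) (hm : 0 < m)
    (hK : ∀ o, π o ≠ 0 → ∑ o' ∈ univ.filter (fun o' => o' ≠ o ∧ ¬ Disjoint (S o) (S o')),
      π o' * β ^ (S o' \ S o).card ≤ K1) (g : Gd)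
    (hA : ∑ o ∈ univ.filter (fun o => gad o = g), π o * β ^ (S o).card = m) :
    arE π β (fun M c => if ∃ o, arG gad S π M c g o then (0 : ℝ) else 1)
      ≤ 4 * (1 + K1) / m + 2 * K1 := by
  set A := univ.filter (fun o => gad o = g) with hAd
  have e1 := ar_sq S hπ h0 h1 hK A hA
  have e2 : arE π β (fun M c => ∑ o ∈ A, arx S π o M c) = m := by
    rw [arE_sum, ← hA]
    exact sum_congr rfl fun o _ => ar_one S π β o
  have e3 : arE π β (fun M c => ∑ o ∈ A,
      ∑ o' ∈ univ.filter (fun o' => gad o' ≠ g ∧ ¬ Disjoint (S o) (S o')),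
          arx S π o M c * arx S π o' M c) ≤ m * K1 := by
    rw [arE_sum, ← hA, sum_mul]
    refine sum_le_sum fun o ho => ?_
    rw [arE_sum]
    refine ar_meet S hπ h0 h1 hK o _ fun o' ho' => ⟨?_, (mem_filter.1 ho').2.2⟩
    rintro rfl
    exact (mem_filter.1 ho').2.1 (mem_filter.1 ho).2
  have e4 : ∀ M c, (if ∃ o, arG gad S π M c g o then (0 : ℝ) else 1) ≤
      (4 / m ^ 2 * ((∑ o ∈ A, arx S π o M c) * ∑ o ∈ A, arx S π o M c)
        + (-8 / m) * ∑ o ∈ A, arx S π o M c) + (4 + 2 / m * ∑ o ∈ A,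
      ∑ o' ∈ univ.filter (fun o' => gad o' ≠ g ∧ ¬ Disjoint (S o) (S o')),
          arx S π o M c * arx S π o' M c) := by
    intro M c
    have z0 : 0 ≤ ∑ o ∈ A, ∑ o' ∈ univ.filter (fun o' => gad o' ≠ g ∧ ¬ Disjoint (S o) (S o')),
          arx S π o M c * arx S π o' M c :=
      sum_nonneg fun o _ => sum_nonneg fun o' _ =>
        mul_nonneg (arx_nonneg _ _ _ _ _) (arx_nonneg _ _ _ _ _)
    have hf := ar_fail gad S π M c g
    rw [← hAd] at hf
    generalize (∑ o ∈ A, arx S π o M c) = Y at *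
    generalize (∑ o ∈ A, ∑ o' ∈ univ.filter (fun o' => gad o' ≠ g ∧ ¬ Disjoint (S o) (S o')),
          arx S π o M c * arx S π o' M c) = Z at *
    have k1 : 4 / m ^ 2 * (Y * Y) + (-8 / m) * Y + (4 + 2 / m * Z)
        = (2 * (Y / m) - 2) ^ 2 + 2 * (Z / m) := by
      field_simp; ring
    rw [k1]
    have k2 : 0 ≤ Z / m := div_nonneg z0 hm.le
    split_ifs with hx
    · positivity
    · have k3 : Y / m ≤ Z / m := div_le_div_of_nonneg_right (hf hx) hm.le
      generalize Y / m = y at *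
      generalize Z / m = z at *
      by_cases hy : y ≤ 1 / 2
      · nlinarith
      · nlinarith [sq_nonneg (2 * y - 2)]
  refine le_trans (arE_mono hπ h0 h1 e4) ?_
  rw [arE_add, arE_add, arE_add, arE_mul, arE_mul, arE_mul, arE_const, e2]
  have k1 := mul_le_mul_of_nonneg_left e1 (show 0 ≤ 4 / m ^ 2 by positivity)
  have k2 := mul_le_mul_of_nonneg_left e3 (show 0 ≤ 2 / m by positivity)
  have k3 : 4 / m ^ 2 * (m * (1 + m + K1)) + -8 / m * m + (4 + 2 / m * (m * K1))
      = 4 * (1 + K1) / m + 2 * K1 := by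
    field_simp; ring
  linarith

end

theorem p_AR :
    S_AR := by
  intro E O Gd _ _ _ _ _ _ gad S π hπ β m K1 h0 h1 hm _ 𝒢 hA hK
  classical
  obtain ⟨M, hM⟩ := exists_le_Ex hπ fun M => Ex (fun _ : E => β) fun c =>
    ∑ g ∈ 𝒢, (if ∃ o, arG gad S π M c g o then (0 : ℝ) else 1)
  have hch : ∀ c g, (∃ o, arG gad S π M c g o) →
      arG gad S π M c g (Classical.epsilon (arG gad S π M c g)) :=
    fun c g h => Classical.epsilon_spec h
  refine ⟨fun c => 𝒢.filter fun g => ∃ o, arG gad S π M c g o,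
    fun c g => Classical.epsilon (arG gad S π M c g), fun c => ⟨filter_subset _ _, ?_, ?_⟩, ?_⟩
  · intro g hg
    have := hch c g (mem_filter.1 hg).2
    exact ⟨this.1, this.2.1.2.1, this.2.1.2.2⟩
  · intro g hg g' hg' hne
    have a := hch c g (mem_filter.1 hg).2
    have b := hch c g' (mem_filter.1 hg').2
    exact a.2.2 _ b.2.1 (by rw [b.1]; exact hne.symm)
  · refine le_trans (le_of_eq (Ex_congr fun c => ?_)) (hM.trans ?_)
    · rw [← filter_not, card_filter]
      push_cast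
      refine sum_congr rfl fun g _ => ?_
      by_cases h : ∃ o, arG gad S π M c g o <;> simp only [h] <;> simp
    · have := arE_sum π β 𝒢 fun g M (c : Finset E) =>
        (if ∃ o, arG gad S π M c g o then (0 : ℝ) else 1)
      unfold arE at this
      rw [this, mul_comm, ← nsmul_eq_mul]
      refine sum_le_card_nsmul _ _ _ fun g hg => ?_
      have := ar_g gad S hπ h0 h1 hm hK g (hA g hg)
      unfold arE at this
      convert this

end Pool.Agent.P.MP_224820_co.St
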