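import Pool.Agent.P.MP_224820_co.St.IfaceN

/-! Step BOOST. -/

set_option autoImplicit false

namespace Pool.Agent.P.MP_224820_co.St

open Finset

section
variable {V : Type} [Fintype V] [DecidableEq V]

/-- codegree of a pair -/
noncomputable def boost_cod (b : Finset (Sym2 V)) (e : Sym2 V) : ℝ :=
  ((univ.filter fun w => ∀ u ∈ e, s(u, w) ∈ b).card : ℝ)

lemma boost_cod_mk (b : Finset (Sym2 V)) (u v : V) :
    boost_cod b s(u, v) = ((nb b u ∩ nb b v).card : ℝ) := by
  unfold boost_cod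
  congr 2
  ext w
  simp [mem_nb]

lemma boost_cod_bd {b : Finset (Sym2 V)} {β : ℝ} (ht : Typ b β) {e : Sym2 V} (he : ¬ e.IsDiag) :
    |boost_cod b e - Fintype.card V * β ^ 2| ≤ Fintype.card V * β ^ 2 / 100 := by
  induction e using Sym2.ind with
  | _ u v =>
    have huv : u ≠ v := by simpa using he
    have h := ht {u, v} (by rw [card_pair huv]) (by rw [card_pair huv]; norm_num)
    rw [card_pair huv] at h
    have e : (univ.filter fun w => ∀ x ∈ ({u, v} : Finset V), s(x, w) ∈ b) = nb b u ∩ nb b v := by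
      ext w
      simp [mem_nb]
    rw [e] at h
    rw [boost_cod_mk]
    exact h

open Classical in
/-- weights on the triangles with one edge in `A` -/
noncomputable def boost_om (A b : Finset (Sym2 V)) (t : Finset V) : ℝ :=
  ∑ e ∈ A.filter (fun e => Ty {e} b t), 1 / boost_cod b e

omit [Fintype V] in
lemma boost_ty {A b : Finset (Sym2 V)} (hA : NoLoop A) {e : Sym2 V} (he : e ∈ A) {t : Finset V}
    (h : Ty {e} b t) : Ty A b t ∧ e ∈ ed t := by
  obtain ⟨u, v, w, rfl, h1, h2, h3⟩ := h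
  rw [mem_singleton] at h1
  subst h1
  refine ⟨⟨u, v, w, rfl, he, h2, h3⟩, mk_mem_ed.2 ⟨by simp, by simp, ?_⟩⟩
  simpa using hA _ he

lemma boost_om_ne {A b : Finset (Sym2 V)} (hA : NoLoop A) {t : Finset V} (h : boost_om A b t ≠ 0) :
    Ty A b t ∧ ∃ e ∈ A, e ∈ ed t := by
  classical
  obtain ⟨e, he, -⟩ := exists_ne_zero_of_sum_ne_zero h
  rw [mem_filter] at he
  exact ⟨(boost_ty hA he.1 he.2).1, e, he.1, (boost_ty hA he.1 he.2).2⟩

lemma boost_om_nonneg (A b : Finset (Sym2 V)) (t : Finset V) : 0 ≤ boost_om A b t :=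
  sum_nonneg fun e _ => by unfold boost_cod; positivity

lemma boost_om_le {A b : Finset (Sym2 V)} (hA : NoLoop A) (hb : NoLoop b) (hd : Disjoint A b)
    {c : ℝ} (hc0 : 0 ≤ c) (hc : ∀ e ∈ A, 1 / boost_cod b e ≤ c) (t : Finset V) :
    boost_om A b t ≤ c := by
  classical
  have h1 : (A.filter fun e => Ty {e} b t).card ≤ 1 := by
    refine card_le_one.2 fun e he f hf => ?_
    rw [mem_filter] at he hf
    exact Ty_unique hA hb hd (boost_ty hA he.1 he.2).1 he.1 hf.1 (boost_ty hA he.1 he.2).2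
      (boost_ty hA hf.1 hf.2).2
  have h2 := sum_le_card_nsmul (A.filter fun e => Ty {e} b t) (fun e => 1 / boost_cod b e) c
    fun e he => hc e (mem_filter.1 he).1
  rw [nsmul_eq_mul] at h2
  have h3 : ((A.filter fun e => Ty {e} b t).card : ℝ) ≤ 1 := by exact_mod_cast h1
  unfold boost_om
  refine le_trans (le_of_eq ?_) (h2.trans (by nlinarith))
  congr

lemma boost_om_val {A b : Finset (Sym2 V)} (hA : NoLoop A) (hb : NoLoop b) (hd : Disjoint A b)
    {u v w : V} (he : s(u, v) ∈ A) (h1 : w ≠ u) (h2 : w ≠ v) :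
    boost_om A b {u, v, w} = if w ∈ nb b u ∩ nb b v then 1 / boost_cod b s(u, v) else 0 := by
  classical
  have huv : u ≠ v := by simpa using hA _ he
  have hed : s(u, v) ∈ ed ({u, v, w} : Finset V) := mk_mem_ed.2 ⟨by simp, by simp, huv⟩
  split_ifs with h
  · rw [mem_inter, mem_nb, mem_nb] at h
    unfold boost_om
    rw [sum_eq_single_of_mem s(u, v)]
    · exact mem_filter.2 ⟨he, u, v, w, rfl, mem_singleton_self _, h.1, h.2⟩
    · intro f hf hne
      rw [mem_filter] at hf
      exact absurd (Ty_unique hA hb hd (boost_ty hA hf.1 hf.2).1 hf.1 he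
        (boost_ty hA hf.1 hf.2).2 hed) hne
  · by_contra hne
    obtain ⟨w', e, a1, a2⟩ := Ty_of_left hA hb hd (boost_om_ne hA hne).1 he hed
    rw [← triple_inj h1 h2 e] at a1 a2
    exact h (mem_inter.2 ⟨mem_nb.2 a1, mem_nb.2 a2⟩)

lemma boost_ne {G : Finset (Sym2 V)} (hG : NoLoop G) {u w : V} (h : w ∈ nb G u) : w ≠ u := by
  have := hG _ (mem_nb.1 h)
  intro e
  simp [e] at this

lemma boost_wd_A {A b : Finset (Sym2 V)} (hA : NoLoop A) (hb : NoLoop b) (hd : Disjoint A b)
    (hG : NoLoop (A ∪ b)) {u v : V} (he : s(u, v) ∈ A) (h0 : boost_cod b s(u, v) ≠ 0) :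
    wd (boost_om A b) (A ∪ b) u v = 1 := by
  unfold wd
  rw [sum_congr rfl fun w hw => boost_om_val hA hb hd he (boost_ne hG (mem_inter.1 hw).1)
    (boost_ne hG (mem_inter.1 hw).2), sum_ite_mem, inter_eq_right.2
      (inter_subset_inter (nb_mono subset_union_right u) (nb_mono subset_union_right v)),
    sum_const, nsmul_eq_mul, ← boost_cod_mk]
  field_simp

lemma boost_wd_b {A b : Finset (Sym2 V)} (hA : NoLoop A) (hb : NoLoop b) (hd : Disjoint A b)
    (hG : NoLoop (A ∪ b)) {c : ℝ} (hc0 : 0 ≤ c) (hc : ∀ t, boost_om A b t ≤ c) {x w : V}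
    (he : s(x, w) ∈ b) : wd (boost_om A b) (A ∪ b) x w ≤
      (((nb A x ∩ nb b w).card : ℝ) + (nb A w ∩ nb b x).card) * c := by
  have hxw : x ≠ w := by simpa using hb _ he
  unfold wd
  rw [← sum_filter_ne_zero]
  have hs : (nb (A ∪ b) x ∩ nb (A ∪ b) w).filter (fun y => boost_om A b {x, w, y} ≠ 0) ⊆
      (nb A x ∩ nb b w) ∪ (nb A w ∩ nb b x) := by
    intro y hy
    rw [mem_filter, mem_inter] at hy
    obtain ⟨y', e, h⟩ := Ty_of_right hA hb hd (boost_om_ne hA hy.2).1 he
      (mk_mem_ed.2 ⟨by simp, by simp, hxw⟩)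
    rw [← triple_inj (boost_ne hG hy.1.1) (boost_ne hG hy.1.2) e] at h
    simp only [mem_union, mem_inter, mem_nb]
    exact h
  have h1 := sum_le_card_nsmul ((nb (A ∪ b) x ∩ nb (A ∪ b) w).filter
    (fun y => boost_om A b {x, w, y} ≠ 0)) (fun y => boost_om A b {x, w, y}) c fun y _ => hc _
  rw [nsmul_eq_mul] at h1
  refine h1.trans (mul_le_mul_of_nonneg_right ?_ hc0)
  exact_mod_cast (card_le_card hs).trans (card_union_le _ _)

lemma boost_supp {A b : Finset (Sym2 V)} (hG : NoLoop (A ∪ b)) {ω : Finset V → ℝ}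
    (hω : ∀ t, ω t ≠ 0 → t ∈ tri b) (u v : V) : wd ω (A ∪ b) u v = wd ω b u v := by
  unfold wd
  refine (sum_subset
    (inter_subset_inter (nb_mono subset_union_right u) (nb_mono subset_union_right v)) ?_).symm
  intro w hw hn
  by_contra hne
  have h := (mem_tri.1 (hω _ hne)).2
  rw [mem_inter] at hw
  exact hn (mem_inter.2 ⟨mem_nb.2 (h (mk_mem_ed.2 ⟨by simp, by simp, (boost_ne hG hw.1).symm⟩)),
    mem_nb.2 (h (mk_mem_ed.2 ⟨by simp, by simp, (boost_ne hG hw.2).symm⟩))⟩)

lemma boost_zero {b : Finset (Sym2 V)} {ω : Finset V → ℝ} (hω : ∀ t, ω t ≠ 0 → t ∈ tri b)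
    {u v : V} (huv : u ≠ v) (hn : s(u, v) ∉ b) : wd ω b u v = 0 := by
  refine sum_eq_zero fun w _ => ?_
  by_contra hne
  exact hn ((mem_tri.1 (hω _ hne)).2 (mk_mem_ed.2 ⟨by simp, by simp, huv⟩))

end

theorem p_BOOST (hK5 : S_K5) :
    S_BOOST := by
  intro V _ _ A b β hA hb hd β0 β1 ht hm
  rcases isEmpty_or_nonempty V with hV | hV
  · exact ⟨fun _ => 0, fun t => ⟨le_rfl, by positivity⟩, fun u => isEmptyElim u⟩
  have hn : (0 : ℝ) < Fintype.card V := by exact_mod_cast Fintype.card_pos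
  obtain ⟨D, hD⟩ : ∃ D : ℝ, D = Fintype.card V * β ^ 2 := ⟨_, rfl⟩
  have D0 : 0 < D := by rw [hD]; positivity
  have hG : NoLoop (A ∪ b) := fun e he => (mem_union.1 he).elim (hA e) (hb e)
  have hcod : ∀ e : Sym2 V, ¬ e.IsDiag →
      99 / 100 * D ≤ boost_cod b e ∧ boost_cod b e ≤ 101 / 100 * D := by
    intro e he
    have := boost_cod_bd ht he
    rw [← hD, abs_le] at this
    constructor <;> linarith [this.1, this.2]
  have c0 : 0 ≤ 1 / (99 / 100 * D) := by positivity
  have hom : ∀ t, boost_om A b t ≤ 1 / (99 / 100 * D) := boost_om_le hA hb hd c0 fun e he =>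
    one_div_le_one_div_of_le (by positivity) (hcod e (hA e he)).1
  obtain ⟨ω, hω1, hω2, hω3⟩ := hK5 V b β hb β0 β1 ht (fun e => 1 -
      (∑ t ∈ (tri (A ∪ b)).filter (fun t => e ∈ ed t), boost_om A b t) - boost_cod b e / D) (by
    intro e he
    induction e using Sym2.ind with
    | _ x w =>
      have a1 := boost_wd_b hA hb hd hG c0 hom he
      have a2 := hm x w he
      have a3 := hm w x (by rwa [Sym2.eq_swap])
      rw [← hD] at a2 a3
      have a4 : 0 ≤ wd (boost_om A b) (A ∪ b) x w := sum_nonneg fun _ _ => boost_om_nonneg _ _ _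
      have a5 : (((nb A x ∩ nb b w).card : ℝ) + (nb A w ∩ nb b x).card) * (1 / (99 / 100 * D))
          ≤ 2 / 99 := by
        rw [mul_one_div, div_le_iff₀ (by positivity)]
        linarith
      have a6 := hcod _ (hb _ he)
      have a7 : 99 / 100 ≤ boost_cod b s(x, w) / D := by rw [le_div_iff₀ D0]; exact a6.1
      have a8 : boost_cod b s(x, w) / D ≤ 101 / 100 := by rw [div_le_iff₀ D0]; exact a6.2
      rw [sum_tri_edge hG (mem_union_right _ he), abs_le]
      unfold wd at a1 a4
      constructor <;> linarith)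
  rw [← hD] at hω1 ⊢
  have hs : ∀ t, (if t ∈ tri b then 1 / D else 0) + ω t ≠ 0 → t ∈ tri b := by
    intro t h
    by_contra hn
    rw [if_neg hn, zero_add] at h
    exact hn (hω2 t h)
  refine ⟨fun t => boost_om A b t + ((if t ∈ tri b then 1 / D else 0) + ω t), fun t => ?_,
    fun u v he => ?_⟩
  · have e1 : 1 / (2 * D) = 1 / 2 * (1 / D) := by field_simp
    have e2 : 2 / D = 2 * (1 / D) := by field_simp
    have e3 : 1 / (99 / 100 * D) = 100 / 99 * (1 / D) := by field_simp
    have e4 : 0 < 1 / D := by positivity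
    have b1 := hω1 t
    have b2 := hom t
    have b3 := boost_om_nonneg A b t
    rw [e1, abs_le] at b1
    rw [e3] at b2
    rw [e2]
    by_cases h : t ∈ tri b
    · have z : boost_om A b t = 0 := by
        by_contra hne
        obtain ⟨-, e, he, het⟩ := boost_om_ne hA hne
        exact disjoint_left.1 hd he ((mem_tri.1 h).2 het)
      simp only [if_pos h, z]
      constructor <;> linarith [b1.1, b1.2]
    · have z : ω t = 0 := by
        by_contra hne
        exact h (hω2 t hne)
      simp only [if_neg h, z]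
      constructor <;> linarith
  · have e : wd (fun t => boost_om A b t + ((if t ∈ tri b then 1 / D else 0) + ω t)) (A ∪ b) u v =
        wd (boost_om A b) (A ∪ b) u v +
          wd (fun t => (if t ∈ tri b then 1 / D else 0) + ω t) (A ∪ b) u v := by
      unfold wd
      rw [sum_add_distrib]
    rw [e, boost_supp hG hs]
    rcases mem_union.1 he with h | h
    · rw [boost_wd_A hA hb hd hG h (lt_of_lt_of_le (by positivity) (hcod _ (hA _ h)).1).ne',
        boost_zero hs (by simpa using hA _ h) (disjoint_left.1 hd h), add_zero]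
    · have e2 : wd (fun t => (if t ∈ tri b then 1 / D else 0) + ω t) b u v =
          boost_cod b s(u, v) / D + wd ω b u v := by
        unfold wd
        rw [sum_add_distrib, sum_congr rfl fun w hw => if_pos (triple_mem_tri hb h
          (mem_nb.1 (mem_inter.1 hw).1) (mem_nb.1 (mem_inter.1 hw).2)), sum_const, nsmul_eq_mul,
          boost_cod_mk, mul_one_div]
      rw [e2, hω3 u v h]
      rw [sum_tri_edge hG he]
      unfold wd
      ring

end Pool.Agent.P.MP_224820_co.St
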