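import Pool.Agent.P.MP_224820_co.St.IfaceM

/-! Step BRIDGE. -/

set_option autoImplicit false

namespace Pool.Agent.P.MP_224820_co.St

open Finset Filter Topology

theorem bridge_on {α : Type} [Fintype α] [DecidableEq α] (U : Finset α) (p : ℝ)
    (f : Finset α → ℝ) : Ex (fun a => if a ∈ U then p else 0) f =
      ∑ T ∈ U.powerset, p ^ T.card * (1 - p) ^ (U.card - T.card) * f T := by
  rw [Ex]
  symm
  refine (sum_congr rfl fun T hT => ?_).trans (sum_subset (subset_univ U.powerset) fun T _ hT => ?_)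
  · congr 1
    have hTU := mem_powerset.1 hT
    rw [← prod_mul_prod_compl T, ← card_sdiff_of_subset hTU, ← prod_const, ← prod_const]
    congr 1
    · exact prod_congr rfl fun a ha => by rw [if_pos ha, if_pos (hTU ha)]
    · rw [← prod_subset (s₁ := U \ T) (s₂ := Tᶜ)]
      · refine prod_congr rfl fun a ha => ?_
        rw [if_neg (mem_sdiff.1 ha).2, if_pos (mem_sdiff.1 ha).1]
      · intro a ha
        exact mem_compl.2 (mem_sdiff.1 ha).2
      · intro a ha hb
        have h1 := mem_compl.1 ha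
        have h2 : a ∉ U := fun h => hb (mem_sdiff.2 ⟨h, h1⟩)
        rw [if_neg h1, if_neg h2, sub_zero]
  · obtain ⟨a, ha, hb⟩ := not_subset.1 (fun h => hT (mem_powerset.2 h))
    rw [prod_eq_zero (mem_univ a), zero_mul]
    rw [if_pos ha, if_neg hb]

theorem bridge_iff {n : ℕ} (T : Finset (Finset (Fin n))) :
    Dec T (KN (Fin n)) ↔ ∃ S ⊆ T, IsSTS n S := by
  have hK : ∀ e : Sym2 (Fin n), e ∈ KN (Fin n) ↔ ¬ e.IsDiag := fun e => by
    simp only [KN, mem_filter, mem_univ, true_and]
  constructor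
  · rintro ⟨K, hKT, h1, h2⟩
    refine ⟨K, hKT, fun t ht => (h1 t ht).1, fun e he => ?_⟩
    obtain ⟨x, y, hxy, rfl⟩ := card_eq_two.1 he
    have := h2 s(x, y) ((hK _).2 (by simpa using hxy))
    simpa only [mk_mem_ed, insert_subset_iff, singleton_subset_iff, hxy, ne_eq, not_false_eq_true,
      and_true] using this
  · rintro ⟨K, hKT, h1, h2⟩
    refine ⟨K, hKT, fun t ht => ⟨h1 t ht, fun e he => (hK _).2 (mem_filter.1 he).2⟩,
      fun e he => ?_⟩
    induction e using Sym2.ind with
    | _ x y =>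
      have hxy : x ≠ y := by simpa [hK] using he
      have := h2 {x, y} (card_pair hxy)
      simpa only [mk_mem_ed, insert_subset_iff, singleton_subset_iff, hxy, ne_eq, not_false_eq_true,
        and_true] using this

theorem p_BRIDGE :
    S_BRIDGE := by
  classical
  intro n p
  set U := powersetCard 3 (univ : Finset (Fin n)) with hU
  have key : ∀ R : Finset (Finset (Fin n)),
      (∃ S ⊆ R, IsSTS n S) ↔ ∃ S ⊆ R ∩ U, IsSTS n S := fun R =>
    ⟨fun ⟨S, h1, h2⟩ => ⟨S, subset_inter h1 fun t ht =>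
      mem_powersetCard.2 ⟨subset_univ _, h2.1 t ht⟩, h2⟩,
      fun ⟨S, h1, h2⟩ => ⟨S, h1.trans inter_subset_left, h2⟩⟩
  rw [Pr_congr bridge_iff, Pr_eq, Ex_loc (s := U) (p' := fun a => if a ∈ U then p else 0)
    (fun R R' h => by simp only [key R, key R', h]) fun a ha => (if_pos ha).symm, bridge_on,
    probSTS, card_powersetCard, card_univ, Fintype.card_fin]
  refine sum_congr rfl fun T _ => ?_
  split_ifs <;> simp

end Pool.Agent.P.MP_224820_co.St
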