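import Pool.Agent.P.MP_224820_co.St.IfaceA

/-! Step CELL. -/

set_option autoImplicit false

namespace Pool.Agent.P.MP_224820_co.St

open Finset

theorem cell_inf_sup {n : ℕ} (e : Sym2 (Fin n)) : s(e.inf, e.sup) = e := by
  induction e using Sym2.ind with
  | h a b =>
    rcases le_total a b with h | h
    · simp [Sym2.inf_mk, Sym2.sup_mk, h]
    · simp [Sym2.inf_mk, Sym2.sup_mk, h, Sym2.eq_swap]

theorem cell_uniq {I E : Type} [Fintype I] (PE : I → Multiset E) (hnd : (∑ i, PE i).Nodup)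
    {i j : I} {e : E} (hi : e ∈ PE i) (hj : e ∈ PE j) : i = j := by
  classical
  by_contra hne
  have h1 : ∑ l ∈ ({i, j} : Finset I), PE l ≤ ∑ l, PE l :=
    Finset.sum_le_sum_of_subset (subset_univ _)
  rw [sum_pair hne] at h1
  have h2 := Multiset.nodup_of_le h1 hnd
  rw [Multiset.nodup_add] at h2
  exact Multiset.disjoint_left.1 h2.2.2 hi hj

theorem cell_cover {Cl W : Type} [Fintype Cl] (P : Cl → Prop) (Y : Finset W) (Q : W → Cl → Prop)
    (b : ℝ) (h : ∀ c, P c → ∃ w ∈ Y, Q w c) (hb : ∀ w ∈ Y, (cnt univ (Q w) : ℝ) ≤ b) :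
    (cnt univ P : ℝ) ≤ Y.card * b := by
  classical
  have h1 : (univ.filter P) ⊆ Y.biUnion (fun w => univ.filter (Q w)) := by
    intro c hc
    obtain ⟨w, hw, hq⟩ := h c (mem_filter.1 hc).2
    exact mem_biUnion.2 ⟨w, hw, mem_filter.2 ⟨mem_univ _, hq⟩⟩
  have h2 := (card_le_card h1).trans card_biUnion_le
  rw [cnt_eq]
  calc ((univ.filter P).card : ℝ) ≤ ∑ w ∈ Y, ((univ.filter (Q w)).card : ℝ) := by exact_mod_cast h2
    _ ≤ ∑ _w ∈ Y, b := sum_le_sum fun w hw => by
        have := hb w hw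
        rwa [cnt_eq] at this
    _ = Y.card * b := by rw [sum_const, nsmul_eq_mul]

theorem p_CELL (hFSA : S_FSA) (hFSB : S_FSB) :
    S_CELL := by
  intro n X I Cl _ _ src tgt len cell Lam hX hM PE hPE hnd hout d2 hd2 s hs
  have hcl := hM.closed (fun e => {e.1}) PE
    (fun w => by simpa only [cell_inf_sup] using Wk_edge w.1.inf w.1.sup) hPE
  choose u k hk1 hk7 hW using hcl
  choose v hv0 hv3 hve using hW
  have hPEle : ∀ i, ∀ e ∈ PE i, e ∈ ∑ i, PE i := fun i e he =>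
    Multiset.mem_sum.2 ⟨i, mem_univ _, he⟩
  have hmem : ∀ c, ∀ e ∈ (cell c).bind (Sum.elim (fun e : {e // e ∈ X} => {e.1}) PE),
      e ∈ X ∪ (∑ i, PE i).toFinset ∧ ¬ e.IsDiag := by
    intro c e he
    obtain ⟨a, -, hea⟩ := Multiset.mem_bind.1 he
    rcases a with a | a
    · have h1 : e = a.1 := Multiset.mem_singleton.1 hea
      rw [h1]
      exact ⟨mem_union_left _ a.2, hX _ a.2⟩
    · exact ⟨mem_union_right _ (Multiset.mem_toFinset.2 (hPEle a e hea)),
        (hout e (hPEle a e hea)).2⟩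
  have hedge : ∀ c, ∀ i < 3 * k c, s(v c i, v c (i + 1)) ∈
      (cell c).bind (Sum.elim (fun e : {e // e ∈ X} => {e.1}) PE) := by
    intro c i hi
    rw [hve c]
    exact Multiset.mem_sum.2 ⟨i, mem_range.2 hi, Multiset.mem_singleton_self _⟩
  have huniq : ∀ (e : Sym2 (Fin n)) (a b : {e // e ∈ X} ⊕ I),
      e ∈ (Sum.elim (fun e : {e // e ∈ X} => {e.1}) PE a : Multiset (Sym2 (Fin n))) →
      e ∈ (Sum.elim (fun e : {e // e ∈ X} => {e.1}) PE b : Multiset (Sym2 (Fin n))) → a = b := by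
    intro e a b ha hb
    rcases a with a | a <;> rcases b with b | b
    · have h1 : e = a.1 := Multiset.mem_singleton.1 ha
      have h2 : e = b.1 := Multiset.mem_singleton.1 hb
      rw [Subtype.ext (h1.symm.trans h2)]
    · have h1 : e = a.1 := Multiset.mem_singleton.1 ha
      exact absurd (h1 ▸ a.2) (hout e (hPEle b e hb)).1
    · have h1 : e = b.1 := Multiset.mem_singleton.1 hb
      exact absurd (h1 ▸ b.2) (hout e (hPEle a e ha)).1
    · rw [cell_uniq PE hnd ha hb]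
  have hcnt : ∀ e : Sym2 (Fin n), cnt univ (fun c => e ∈
      (cell c).bind (Sum.elim (fun e : {e // e ∈ X} => {e.1}) PE)) ≤ 60 := by
    intro e
    by_cases h : ∃ a : {e // e ∈ X} ⊕ I,
        e ∈ (Sum.elim (fun e : {e // e ∈ X} => {e.1}) PE a : Multiset (Sym2 (Fin n)))
    · obtain ⟨a, ha⟩ := h
      refine le_trans (cnt_mono ?_) (hM.mult a)
      intro c _ hc
      obtain ⟨b, hb, heb⟩ := Multiset.mem_bind.1 hc
      exact ⟨mem_univ _, by rw [huniq e a b ha heb]; exact hb⟩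
    · refine le_trans (cnt_mono (J' := (∅ : Finset Cl)) (P' := fun _ => True) ?_)
        ((cnt_le _ _).trans (by simp))
      intro c _ hc
      obtain ⟨b, -, heb⟩ := Multiset.mem_bind.1 hc
      exact absurd ⟨b, heb⟩ h
  have hF := fun c => hFSA (Fin n) (5 * s) (k c) (v c) (by omega) (hk1 c) (hk7 c)
    ((hv3 c).trans (hv0 c).symm)
  have hld1 : ∀ x, (cnt univ (fun c => x ∈ rts (fback (5 * s) (v c) (k c))) : ℝ) ≤ 60 * d2 := by
    intro x
    have h1 := cell_cover (fun c => x ∈ rts (fback (5 * s) (v c) (k c)))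
      (nb (X ∪ (∑ i, PE i).toFinset) x)
      (fun w c => s(x, w) ∈ (cell c).bind (Sum.elim (fun e : {e // e ∈ X} => {e.1}) PE)) 60
      (fun c hc => by
        obtain ⟨i, hi, hx⟩ := (hF c).2.2.2.1 x hc
        refine ⟨v c (i + 1), mem_nb.2 ?_, ?_⟩
        · rw [hx]; exact (hmem c _ (hedge c i hi)).1
        · rw [hx]; exact hedge c i hi)
      (fun w _ => by exact_mod_cast hcnt _)
    have h2 := hd2 x
    linarith
  refine ⟨k, v, fun c => ⟨hk1 c, hk7 c, (hv3 c).trans (hv0 c).symm, fun i hi h => ?_, hve c⟩,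
    ⟨fun c _ => (hF c).2.1, fun c _ => hFSB (Fin n) s (k c) (v c) hs (hk1 c) (hk7 c), ?_, hld1, ?_⟩⟩
  · exact (hmem c _ (hedge c i hi)).2 (Sym2.mk_isDiag_iff.2 h)
  · have h1 := cell_cover (fun _ : Cl => True) (univ : Finset (Fin n))
      (fun x c => x ∈ rts (fback (5 * s) (v c) (k c))) (60 * d2)
      (fun c _ => ⟨v c 0, mem_univ _, (hF c).2.2.1⟩) (fun x _ => hld1 x)
    rw [cnt_eq] at h1
    simpa using h1
  · intro x y hxy
    have h1 : cnt univ (fun c => ∃ u, x ∈ rb (fback (5 * s) (v c) (k c)) u ∧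
        y ∈ rb (fback (5 * s) (v c) (k c)) u) ≤ 60 := by
      refine le_trans (cnt_mono ?_) (hcnt s(x, y))
      rintro c - ⟨u, hx, hy⟩
      obtain ⟨i, hi, he⟩ := (hF c).2.2.2.2 u x y hxy hx hy
      exact ⟨mem_univ _, by rw [he]; exact hedge c i hi⟩
    exact_mod_cast h1

end Pool.Agent.P.MP_224820_co.St
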