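import Pool.Agent.P.MP_224820_co.St.BaseB

/-! Concentration inequalities for random subsets with independent coordinates. -/

set_option autoImplicit false

namespace Pool.Agent.P.MP_224820_co.St

open Finset

variable {α : Type} [Fintype α] [DecidableEq α]

/-- exponential Markov inequality -/
theorem Pr_le_mgf {p : α → ℝ} (hp : IsP p) {E : Finset α → Prop} (f : Finset α → ℝ) (k : ℝ)
    (h : ∀ R, E R → k ≤ f R) : Pr p E ≤ Real.exp (-k) * Ex p (fun R => Real.exp (f R)) := by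
  rw [← Ex_mul]
  refine Pr_le_Ex hp (fun R => by positivity) fun R hR => ?_
  rw [← Real.exp_add]
  exact Real.one_le_exp (by linarith [h R hR])

theorem conc_step {q x y c : ℝ} (h0 : 0 ≤ q) (hc : |x - y| ≤ c) (h1 : c ≤ 1) :
    q * Real.exp x + (1 - q) * Real.exp y ≤ Real.exp (q * x + (1 - q) * y + q * c ^ 2) := by
  have h2 := (abs_le.1 (Real.abs_exp_sub_one_sub_id_le (hc.trans h1))).2
  have h3 : (x - y) ^ 2 ≤ c ^ 2 := by
    rw [← sq_abs]; exact pow_le_pow_left₀ (abs_nonneg _) hc 2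
  have h4 : Real.exp x = Real.exp y * Real.exp (x - y) := by rw [← Real.exp_add]; ring_nf
  have h5 : Real.exp (q * x + (1 - q) * y + q * c ^ 2)
      = Real.exp y * Real.exp (q * (x - y + c ^ 2)) := by rw [← Real.exp_add]; ring_nf
  have h6 := Real.add_one_le_exp (q * (x - y + c ^ 2))
  have h7 : q * Real.exp (x - y) + (1 - q) ≤ Real.exp (q * (x - y + c ^ 2)) := by
    nlinarith [mul_le_mul_of_nonneg_left (show Real.exp (x - y) ≤ 1 + (x - y) + c ^ 2 by
      linarith) h0]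
  rw [h5, h4]
  nlinarith [mul_le_mul_of_nonneg_left h7 (Real.exp_pos y).le]

/-- moment generating function under bounded differences -/
theorem bd_mgf_loc {p : α → ℝ} (hp : IsP p) (c : α → ℝ) (hc : ∀ a, p a ≠ 0 → c a ≤ 1)
    (s : Finset α) : ∀ f : Finset α → ℝ, Loc s f →
      (∀ a, p a ≠ 0 → ∀ R, |f (insert a R) - f (R.erase a)| ≤ c a) →
      Ex p (fun R => Real.exp (f R)) ≤ Real.exp (Ex p f + ∑ a ∈ s, p a * c a ^ 2) := by
  induction s using Finset.induction_on with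
  | empty =>
    intro f hf _
    have e : ∀ R, f R = f ∅ := fun R => hf R ∅ (by simp)
    rw [Ex_congr (g := fun _ => Real.exp (f ∅)) fun R => by rw [e R], Ex_congr e, Ex_const,
      Ex_const]
    simp
  | insert a s ha ih =>
    intro f hf hl
    let g : Finset α → ℝ := fun R => p a * f (insert a R) + (1 - p a) * f (R.erase a)
    have hg : Loc s g := by
      intro R R' h
      have e : ∀ x ∈ s, x ∈ R ↔ x ∈ R' := fun x hx => by
        have := Finset.ext_iff.1 h x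
        simpa [hx] using this
      have e1 : f (insert a R) = f (insert a R') := hf _ _ (by
        ext x
        simp only [mem_inter, mem_insert]
        have := e x
        tauto)
      have e2 : f (R.erase a) = f (R'.erase a) := hf _ _ (by
        ext x
        simp only [mem_inter, mem_insert, mem_erase]
        have := e x
        tauto)
      simp only [g, e1, e2]
    have hgl : ∀ b, p b ≠ 0 → ∀ R, |g (insert b R) - g (R.erase b)| ≤ c b := by
      intro b hb R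
      by_cases e : b = a
      · subst e
        have : g (insert b R) = g (R.erase b) := by
          have e : insert b (R.erase b) = insert b R := by
            ext x; simp only [mem_insert, mem_erase]; tauto
          simp only [g, insert_idem, erase_insert_eq_erase, erase_idem, e]
        rw [this, sub_self, abs_zero]
        exact (abs_nonneg _).trans (hl b hb R)
      · have h1 := hl b hb (insert a R)
        have h2 := hl b hb (R.erase a)
        rw [insert_comm, erase_insert_of_ne (Ne.symm e)] at h1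
        rw [← erase_insert_of_ne e, erase_right_comm] at h2
        have h3 : g (insert b R) - g (R.erase b)
            = p a * (f (insert a (insert b R)) - f (insert a (R.erase b)))
              + (1 - p a) * (f ((insert b R).erase a) - f ((R.erase b).erase a)) := by
          simp only [g]; ring
        rw [h3]
        have h4 := (hp a).1
        have h5 : 0 ≤ 1 - p a := by linarith [(hp a).2]
        refine (abs_add_le _ _).trans ?_
        rw [abs_mul, abs_mul, abs_of_nonneg h4, abs_of_nonneg h5]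
        nlinarith [mul_le_mul_of_nonneg_left h1 h4, mul_le_mul_of_nonneg_left h2 h5]
    have h1 : Ex p (fun R => Real.exp (f R))
        ≤ Ex p (fun R => Real.exp (p a * c a ^ 2) * Real.exp (g R)) := by
      rw [Ex_coord p a]
      refine Ex_mono hp fun R => ?_
      rw [← Real.exp_add, add_comm (p a * c a ^ 2)]
      by_cases h0 : p a = 0
      · simp [g, h0]
      · exact conc_step (hp a).1 (hl a h0 R) (hc a h0)
    rw [Ex_mul] at h1
    refine h1.trans ?_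
    rw [sum_insert ha, Ex_coord p a f, add_left_comm, Real.exp_add]
    exact mul_le_mul_of_nonneg_left (ih g hg hgl) (Real.exp_pos _).le

theorem conc_bd_mgf {p : α → ℝ} (hp : IsP p) {f : Finset α → ℝ} {c : α → ℝ} {C V l : ℝ}
    (hl : ∀ a, p a ≠ 0 → ∀ R, |f (insert a R) - f (R.erase a)| ≤ c a)
    (hC : ∀ a, p a ≠ 0 → c a ≤ C) (hV : ∑ a, p a * c a ^ 2 ≤ V) (h1 : |l| * C ≤ 1) :
    Ex p (fun R => Real.exp (l * f R)) ≤ Real.exp (l * Ex p f + l ^ 2 * V) := by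
  have := bd_mgf_loc hp (fun a => |l| * c a)
    (fun a ha => (mul_le_mul_of_nonneg_left (hC a ha) (abs_nonneg l)).trans h1) univ
    (fun R => l * f R) (fun R R' h => by simp only [inter_univ] at h; rw [h])
    (fun a ha R => by
      rw [← mul_sub, abs_mul]; exact mul_le_mul_of_nonneg_left (hl a ha R) (abs_nonneg l))
  refine this.trans (Real.exp_le_exp.2 ?_)
  rw [Ex_mul]
  have e : ∑ a, p a * (|l| * c a) ^ 2 = l ^ 2 * ∑ a, p a * c a ^ 2 := by
    rw [mul_sum]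
    exact sum_congr rfl fun a _ => by rw [mul_pow, sq_abs]; ring
  rw [e]
  linarith [mul_le_mul_of_nonneg_left hV (sq_nonneg l)]

theorem conc_opt {V C t : ℝ} (hV : 0 ≤ V) (hC : 0 ≤ C) (ht : 0 ≤ t) :
    ∃ l : ℝ, 0 ≤ l ∧ l * C ≤ 1 ∧ -(l * t) + l ^ 2 * V ≤ -t ^ 2 / (4 * V + 2 * C * t) := by
  have hCt := mul_nonneg hC ht
  rcases (show 0 ≤ 2 * V + C * t by positivity).eq_or_lt with h | h
  · refine ⟨0, le_rfl, by simp, ?_⟩
    rw [show 4 * V + 2 * C * t = 0 by linarith]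
    simp
  · refine ⟨t / (2 * V + C * t), by positivity, ?_, ?_⟩
    · rw [div_mul_eq_mul_div, div_le_one h]; linarith
    · have e : -t ^ 2 / (4 * V + 2 * C * t) = -(t / (2 * V + C * t) * t / 2) := by
        rw [show 4 * V + 2 * C * t = 2 * (2 * V + C * t) by ring]
        field_simp
      have h1 : t / (2 * V + C * t) * V ≤ t / 2 := by
        rw [div_mul_eq_mul_div, div_le_div_iff₀ h two_pos]; nlinarith
      have h2 : 0 ≤ t / (2 * V + C * t) := by positivity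
      rw [e]
      nlinarith [mul_le_mul_of_nonneg_left h1 h2]

/-- bounded differences, upper tail -/
theorem bd_upper {p : α → ℝ} (hp : IsP p) {f : Finset α → ℝ} {c : α → ℝ} {C V t μ : ℝ}
    (hl : ∀ a, p a ≠ 0 → ∀ R, |f (insert a R) - f (R.erase a)| ≤ c a)
    (hC : ∀ a, p a ≠ 0 → c a ≤ C) (hC0 : 0 ≤ C) (hV : ∑ a, p a * c a ^ 2 ≤ V) (ht : 0 ≤ t)
    (hμ : Ex p f ≤ μ) :
    Pr p (fun R => μ + t ≤ f R) ≤ Real.exp (-t ^ 2 / (4 * V + 2 * C * t)) := by
  have hV0 : 0 ≤ V := (sum_nonneg fun a _ => mul_nonneg (hp a).1 (sq_nonneg _)).trans hV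
  obtain ⟨l, l0, l1, l2⟩ := conc_opt hV0 hC0 ht
  refine (Pr_le_mgf hp (fun R => l * f R) (l * (μ + t))
    fun R h => mul_le_mul_of_nonneg_left h l0).trans ?_
  refine (mul_le_mul_of_nonneg_left (conc_bd_mgf hp hl hC hV (by rwa [abs_of_nonneg l0]))
    (Real.exp_pos _).le).trans ?_
  rw [← Real.exp_add]
  exact Real.exp_le_exp.2 (by nlinarith [mul_le_mul_of_nonneg_left hμ l0])

/-- bounded differences, lower tail -/
theorem bd_lower {p : α → ℝ} (hp : IsP p) {f : Finset α → ℝ} {c : α → ℝ} {C V t μ : ℝ}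
    (hl : ∀ a, p a ≠ 0 → ∀ R, |f (insert a R) - f (R.erase a)| ≤ c a)
    (hC : ∀ a, p a ≠ 0 → c a ≤ C) (hC0 : 0 ≤ C) (hV : ∑ a, p a * c a ^ 2 ≤ V) (ht : 0 ≤ t)
    (hμ : μ ≤ Ex p f) :
    Pr p (fun R => f R ≤ μ - t) ≤ Real.exp (-t ^ 2 / (4 * V + 2 * C * t)) := by
  have := bd_upper hp (f := fun R => (-1) * f R) (μ := -μ) (fun a ha R => by
    rw [← mul_sub, abs_mul]; simpa using hl a ha R) hC hC0 hV ht (by rw [Ex_mul]; linarith)
  exact (Pr_mono hp fun R h => by linarith).trans this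

/-- bounded differences, both tails -/
theorem bd_both {p : α → ℝ} (hp : IsP p) {f : Finset α → ℝ} {c : α → ℝ} {C V t : ℝ}
    (hl : ∀ a, p a ≠ 0 → ∀ R, |f (insert a R) - f (R.erase a)| ≤ c a)
    (hC : ∀ a, p a ≠ 0 → c a ≤ C) (hC0 : 0 ≤ C) (hV : ∑ a, p a * c a ^ 2 ≤ V) (ht : 0 ≤ t) :
    Pr p (fun R => t ≤ |f R - Ex p f|) ≤ 2 * Real.exp (-t ^ 2 / (4 * V + 2 * C * t)) := by
  have h1 := bd_upper hp hl hC hC0 hV ht le_rfl
  have h2 := bd_lower hp hl hC hC0 hV ht le_rfl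
  have h3 := Pr_or_le hp (fun R => Ex p f + t ≤ f R) (fun R => f R ≤ Ex p f - t)
  refine (Pr_mono hp fun R h => ?_).trans (h3.trans (by linarith))
  rcases le_abs.1 h with h | h
  · left; linarith
  · right; linarith

section Chernoff

variable {ι : Type} {p : α → ℝ} {J : Finset ι} {s : ι → Finset α} {f : ι → Finset α → ℝ}

/-- moment generating function of a sum of independent variables in the unit interval -/
theorem ch_mgf (hp : IsP p) (hs : (J : Set ι).PairwiseDisjoint s) (hf : ∀ j ∈ J, Loc (s j) (f j))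
    (h0 : ∀ j ∈ J, ∀ R, 0 ≤ f j R) (h1 : ∀ j ∈ J, ∀ R, f j R ≤ 1) (l : ℝ) :
    Ex p (fun R => Real.exp (l * ∑ j ∈ J, f j R))
      ≤ Real.exp ((Real.exp l - 1) * ∑ j ∈ J, Ex p (f j)) := by
  simp_rw [mul_sum, Real.exp_sum]
  rw [Ex_prod_loc p J s hs (fun j R => Real.exp (l * f j R))
    fun j hj R R' h => by simp only [hf j hj R R' h]]
  refine prod_le_prod (fun j _ => Ex_nonneg hp fun R => (Real.exp_pos _).le) fun j hj => ?_
  have h2 : Ex p (fun R => Real.exp (l * f j R))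
      ≤ Ex p (fun R => (Real.exp l - 1) * f j R + 1) := by
    refine Ex_mono hp fun R => ?_
    have := convexOn_exp.2 (Set.mem_univ l) (Set.mem_univ 0) (h0 j hj R)
      (sub_nonneg.2 (h1 j hj R)) (by ring)
    simp only [smul_eq_mul, mul_zero, add_zero, Real.exp_zero, mul_one] at this
    rw [mul_comm l]
    linarith
  rw [Ex_add, Ex_mul, Ex_const] at h2
  exact h2.trans (Real.add_one_le_exp _)

/-- Chernoff, upper tail, free exponent -/
theorem ch_upper_l (hp : IsP p) (hs : (J : Set ι).PairwiseDisjoint s)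
    (hf : ∀ j ∈ J, Loc (s j) (f j)) (h0 : ∀ j ∈ J, ∀ R, 0 ≤ f j R) (h1 : ∀ j ∈ J, ∀ R, f j R ≤ 1)
    {μ k l : ℝ} (hμ : ∑ j ∈ J, Ex p (f j) ≤ μ) (hl : 0 ≤ l) :
    Pr p (fun R => k ≤ ∑ j ∈ J, f j R) ≤ Real.exp ((Real.exp l - 1) * μ - l * k) := by
  refine (Pr_le_mgf hp (fun R => l * ∑ j ∈ J, f j R) (l * k)
    fun R h => mul_le_mul_of_nonneg_left h hl).trans ?_
  refine (mul_le_mul_of_nonneg_left (ch_mgf hp hs hf h0 h1 l) (Real.exp_pos _).le).trans ?_
  rw [← Real.exp_add]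
  have := mul_le_mul_of_nonneg_left hμ (sub_nonneg.2 (Real.one_le_exp hl))
  exact Real.exp_le_exp.2 (by linarith)

/-- Chernoff, lower tail, free exponent -/
theorem ch_lower_l (hp : IsP p) (hs : (J : Set ι).PairwiseDisjoint s)
    (hf : ∀ j ∈ J, Loc (s j) (f j)) (h0 : ∀ j ∈ J, ∀ R, 0 ≤ f j R) (h1 : ∀ j ∈ J, ∀ R, f j R ≤ 1)
    {μ k l : ℝ} (hμ : μ ≤ ∑ j ∈ J, Ex p (f j)) (hl : 0 ≤ l) :
    Pr p (fun R => ∑ j ∈ J, f j R ≤ k) ≤ Real.exp (l * k - (1 - Real.exp (-l)) * μ) := by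
  refine (Pr_le_mgf hp (fun R => -l * ∑ j ∈ J, f j R) (-l * k)
    fun R h => by nlinarith [mul_le_mul_of_nonneg_left h hl]).trans ?_
  refine (mul_le_mul_of_nonneg_left (ch_mgf hp hs hf h0 h1 (-l)) (Real.exp_pos _).le).trans ?_
  rw [← Real.exp_add]
  have h2 : Real.exp (-l) ≤ 1 := Real.exp_le_one_iff.2 (by linarith)
  have := mul_le_mul_of_nonneg_left hμ (sub_nonneg.2 h2)
  exact Real.exp_le_exp.2 (by linarith)

/-- Chernoff, upper deviation -/
theorem ch_upper (hp : IsP p) (hs : (J : Set ι).PairwiseDisjoint s)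
    (hf : ∀ j ∈ J, Loc (s j) (f j)) (h0 : ∀ j ∈ J, ∀ R, 0 ≤ f j R) (h1 : ∀ j ∈ J, ∀ R, f j R ≤ 1)
    {μ t : ℝ} (hμ : ∑ j ∈ J, Ex p (f j) ≤ μ) (ht : 0 ≤ t) :
    Pr p (fun R => μ + t ≤ ∑ j ∈ J, f j R) ≤ Real.exp (-t ^ 2 / (4 * μ + 2 * t)) := by
  have hμ0 : 0 ≤ μ := (sum_nonneg fun j hj => Ex_nonneg hp (h0 j hj)).trans hμ
  obtain ⟨l, l0, l1, l2⟩ := conc_opt hμ0 zero_le_one ht
  rw [mul_one] at l1 l2
  refine (ch_upper_l hp hs hf h0 h1 hμ l0).trans (Real.exp_le_exp.2 ?_)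
  have h2 := (abs_le.1 (Real.abs_exp_sub_one_sub_id_le (x := l) (by rwa [abs_of_nonneg l0]))).2
  nlinarith [mul_le_mul_of_nonneg_right h2 hμ0]

/-- Chernoff, lower deviation -/
theorem ch_lower (hp : IsP p) (hs : (J : Set ι).PairwiseDisjoint s)
    (hf : ∀ j ∈ J, Loc (s j) (f j)) (h0 : ∀ j ∈ J, ∀ R, 0 ≤ f j R) (h1 : ∀ j ∈ J, ∀ R, f j R ≤ 1)
    {μ t : ℝ} (hμ : μ ≤ ∑ j ∈ J, Ex p (f j)) (hμ0 : 0 ≤ μ) (ht : 0 ≤ t) :
    Pr p (fun R => ∑ j ∈ J, f j R ≤ μ - t) ≤ Real.exp (-t ^ 2 / (4 * μ + 2 * t)) := by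
  obtain ⟨l, l0, l1, l2⟩ := conc_opt hμ0 zero_le_one ht
  rw [mul_one] at l1 l2
  refine (ch_lower_l hp hs hf h0 h1 hμ l0).trans (Real.exp_le_exp.2 ?_)
  have h2 := (abs_le.1 (Real.abs_exp_sub_one_sub_id_le (x := -l)
    (by rwa [abs_neg, abs_of_nonneg l0]))).2
  nlinarith [mul_le_mul_of_nonneg_right h2 hμ0]

/-- Poisson type upper tail: at least `k ≥ 8 μ` has probability at most `exp (-k)` -/
theorem ch_far (hp : IsP p) (hs : (J : Set ι).PairwiseDisjoint s)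
    (hf : ∀ j ∈ J, Loc (s j) (f j)) (h0 : ∀ j ∈ J, ∀ R, 0 ≤ f j R) (h1 : ∀ j ∈ J, ∀ R, f j R ≤ 1)
    {μ k : ℝ} (hμ : ∑ j ∈ J, Ex p (f j) ≤ μ) (hk : 8 * μ ≤ k) :
    Pr p (fun R => k ≤ ∑ j ∈ J, f j R) ≤ Real.exp (-k) := by
  have hμ0 : 0 ≤ μ := (sum_nonneg fun j hj => Ex_nonneg hp (h0 j hj)).trans hμ
  refine (ch_upper_l hp hs hf h0 h1 hμ (l := 2) (by norm_num)).trans (Real.exp_le_exp.2 ?_)
  have h2 : Real.exp 2 ≤ 9 := by
    have := Real.exp_one_lt_d9
    have h3 := Real.exp_pos 1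
    rw [show (2 : ℝ) = 1 + 1 by norm_num, Real.exp_add]
    nlinarith
  nlinarith

/-- Poisson type upper tail `(e μ / k) ^ k` -/
theorem ch_pois (hp : IsP p) (hs : (J : Set ι).PairwiseDisjoint s)
    (hf : ∀ j ∈ J, Loc (s j) (f j)) (h0 : ∀ j ∈ J, ∀ R, 0 ≤ f j R) (h1 : ∀ j ∈ J, ∀ R, f j R ≤ 1)
    {μ k : ℝ} (hμ : ∑ j ∈ J, Ex p (f j) ≤ μ) (hμ0 : 0 < μ) (hk : μ ≤ k) :
    Pr p (fun R => k ≤ ∑ j ∈ J, f j R) ≤ Real.exp (k - μ - k * Real.log (k / μ)) := by
  have h2 : 1 ≤ k / μ := (one_le_div hμ0).2 hk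
  refine (ch_upper_l hp hs hf h0 h1 hμ (Real.log_nonneg h2)).trans (le_of_eq ?_)
  rw [Real.exp_log (by linarith)]
  congr 1
  field_simp

/-- sharp lower tail -/
theorem ch_low (hp : IsP p) (hs : (J : Set ι).PairwiseDisjoint s)
    (hf : ∀ j ∈ J, Loc (s j) (f j)) (h0 : ∀ j ∈ J, ∀ R, 0 ≤ f j R) (h1 : ∀ j ∈ J, ∀ R, f j R ≤ 1)
    {μ g : ℝ} (hμ : μ ≤ ∑ j ∈ J, Ex p (f j)) (hg0 : 0 < g) (hg1 : g ≤ 1) :
    Pr p (fun R => ∑ j ∈ J, f j R ≤ g * μ) ≤ Real.exp (-(μ * (1 - g + g * Real.log g))) := by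
  refine (ch_lower_l hp hs hf h0 h1 hμ (l := -Real.log g)
    (neg_nonneg.2 (Real.log_nonpos hg0.le hg1))).trans (le_of_eq ?_)
  rw [neg_neg, Real.exp_log hg0]
  congr 1
  ring

end Chernoff

section Count

variable {ι : Type} {p : α → ℝ} {J : Finset ι} {s : ι → Finset α} {P : ι → Finset α → Prop}

open Classical in
theorem cnt_eq_sum (J : Finset ι) (Q : ι → Prop) :
    (cnt J Q : ℝ) = ∑ j ∈ J, if Q j then (1 : ℝ) else 0 := by
  rw [cnt, card_filter]; push_cast; rfl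

open Classical in
theorem Ex_cnt (p : α → ℝ) (J : Finset ι) (P : ι → Finset α → Prop) :
    Ex p (fun R => (cnt J fun j => P j R : ℝ)) = ∑ j ∈ J, Pr p (P j) := by
  simp_rw [cnt_eq_sum]
  rw [Ex_sum]
  rfl

open Classical in
/-- Chernoff for counts of independent events, upper tail, free exponent -/
theorem cnt_upper_l (hp : IsP p) (hs : (J : Set ι).PairwiseDisjoint s)
    (hP : ∀ j ∈ J, Loc (s j) (P j)) {μ k l : ℝ} (hμ : ∑ j ∈ J, Pr p (P j) ≤ μ) (hl : 0 ≤ l) :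
    Pr p (fun R => k ≤ (cnt J fun j => P j R : ℝ)) ≤ Real.exp ((Real.exp l - 1) * μ - l * k) := by
  simp_rw [cnt_eq_sum]
  exact ch_upper_l hp hs (f := fun j R => if P j R then 1 else 0)
    (fun j hj R R' h => by simp only [hP j hj R R' h]) (fun j _ R => by positivity)
    (fun j _ R => by split_ifs <;> norm_num) hμ hl

open Classical in
/-- Chernoff for counts of independent events, lower tail, free exponent -/
theorem cnt_lower_l (hp : IsP p) (hs : (J : Set ι).PairwiseDisjoint s)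
    (hP : ∀ j ∈ J, Loc (s j) (P j)) {μ k l : ℝ} (hμ : μ ≤ ∑ j ∈ J, Pr p (P j)) (hl : 0 ≤ l) :
    Pr p (fun R => (cnt J fun j => P j R : ℝ) ≤ k)
      ≤ Real.exp (l * k - (1 - Real.exp (-l)) * μ) := by
  simp_rw [cnt_eq_sum]
  exact ch_lower_l hp hs (f := fun j R => if P j R then 1 else 0)
    (fun j hj R R' h => by simp only [hP j hj R R' h]) (fun j _ R => by positivity)
    (fun j _ R => by split_ifs <;> norm_num) hμ hl

open Classical in
theorem cnt_upper (hp : IsP p) (hs : (J : Set ι).PairwiseDisjoint s)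
    (hP : ∀ j ∈ J, Loc (s j) (P j)) {μ t : ℝ} (hμ : ∑ j ∈ J, Pr p (P j) ≤ μ) (ht : 0 ≤ t) :
    Pr p (fun R => μ + t ≤ (cnt J fun j => P j R : ℝ)) ≤ Real.exp (-t ^ 2 / (4 * μ + 2 * t)) := by
  simp_rw [cnt_eq_sum]
  exact ch_upper hp hs (f := fun j R => if P j R then 1 else 0)
    (fun j hj R R' h => by simp only [hP j hj R R' h]) (fun j _ R => by positivity)
    (fun j _ R => by split_ifs <;> norm_num) hμ ht

open Classical in
theorem cnt_lower (hp : IsP p) (hs : (J : Set ι).PairwiseDisjoint s)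
    (hP : ∀ j ∈ J, Loc (s j) (P j)) {μ t : ℝ} (hμ : μ ≤ ∑ j ∈ J, Pr p (P j)) (hμ0 : 0 ≤ μ)
    (ht : 0 ≤ t) :
    Pr p (fun R => (cnt J fun j => P j R : ℝ) ≤ μ - t) ≤ Real.exp (-t ^ 2 / (4 * μ + 2 * t)) := by
  simp_rw [cnt_eq_sum]
  exact ch_lower hp hs (f := fun j R => if P j R then 1 else 0)
    (fun j hj R R' h => by simp only [hP j hj R R' h]) (fun j _ R => by positivity)
    (fun j _ R => by split_ifs <;> norm_num) hμ hμ0 ht

open Classical in
theorem cnt_far (hp : IsP p) (hs : (J : Set ι).PairwiseDisjoint s)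
    (hP : ∀ j ∈ J, Loc (s j) (P j)) {μ k : ℝ} (hμ : ∑ j ∈ J, Pr p (P j) ≤ μ) (hk : 8 * μ ≤ k) :
    Pr p (fun R => k ≤ (cnt J fun j => P j R : ℝ)) ≤ Real.exp (-k) := by
  simp_rw [cnt_eq_sum]
  exact ch_far hp hs (f := fun j R => if P j R then 1 else 0)
    (fun j hj R R' h => by simp only [hP j hj R R' h]) (fun j _ R => by positivity)
    (fun j _ R => by split_ifs <;> norm_num) hμ hk

open Classical in
theorem cnt_pois (hp : IsP p) (hs : (J : Set ι).PairwiseDisjoint s)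
    (hP : ∀ j ∈ J, Loc (s j) (P j)) {μ k : ℝ} (hμ : ∑ j ∈ J, Pr p (P j) ≤ μ) (hμ0 : 0 < μ)
    (hk : μ ≤ k) : Pr p (fun R => k ≤ (cnt J fun j => P j R : ℝ))
      ≤ Real.exp (k - μ - k * Real.log (k / μ)) := by
  simp_rw [cnt_eq_sum]
  exact ch_pois hp hs (f := fun j R => if P j R then 1 else 0)
    (fun j hj R R' h => by simp only [hP j hj R R' h]) (fun j _ R => by positivity)
    (fun j _ R => by split_ifs <;> norm_num) hμ hμ0 hk

open Classical in
theorem cnt_low (hp : IsP p) (hs : (J : Set ι).PairwiseDisjoint s)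
    (hP : ∀ j ∈ J, Loc (s j) (P j)) {μ g : ℝ} (hμ : μ ≤ ∑ j ∈ J, Pr p (P j)) (hg0 : 0 < g)
    (hg1 : g ≤ 1) : Pr p (fun R => (cnt J fun j => P j R : ℝ) ≤ g * μ)
      ≤ Real.exp (-(μ * (1 - g + g * Real.log g))) := by
  simp_rw [cnt_eq_sum]
  exact ch_low hp hs (f := fun j R => if P j R then 1 else 0)
    (fun j hj R R' h => by simp only [hP j hj R R' h]) (fun j _ R => by positivity)
    (fun j _ R => by split_ifs <;> norm_num) hμ hg0 hg1

omit [Fintype α] in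
theorem cnt_mem (F R : Finset α) : cnt F (fun a => a ∈ R) = (F ∩ R).card := by
  rw [cnt_eq, filter_mem_eq_inter]

omit [Fintype α] in
theorem loc_mem (a : α) : Loc {a} (fun R : Finset α => a ∈ R) := by
  intro R R' h
  have := Finset.ext_iff.1 h a
  simpa using this

omit [Fintype α] in
theorem loc_subset (F : Finset α) : Loc F (fun R : Finset α => F ⊆ R) := by
  intro R R' h
  simp only [← inter_eq_right, h]

omit [Fintype α] [DecidableEq α] in
theorem pd_single (F : Finset α) : (F : Set α).PairwiseDisjoint fun a => ({a} : Finset α) :=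
  fun _ _ _ _ h => disjoint_singleton.2 h

theorem card_upper (hp : IsP p) (F : Finset α) {μ t : ℝ} (hμ : ∑ a ∈ F, p a ≤ μ) (ht : 0 ≤ t) :
    Pr p (fun R => μ + t ≤ ((F ∩ R).card : ℝ)) ≤ Real.exp (-t ^ 2 / (4 * μ + 2 * t)) := by
  simp_rw [← cnt_mem]
  exact cnt_upper hp (pd_single F) (fun a _ => loc_mem a) (by simpa [Pr_mem] using hμ) ht

theorem card_lower (hp : IsP p) (F : Finset α) {μ t : ℝ} (hμ : μ ≤ ∑ a ∈ F, p a) (hμ0 : 0 ≤ μ)
    (ht : 0 ≤ t) :
    Pr p (fun R => ((F ∩ R).card : ℝ) ≤ μ - t) ≤ Real.exp (-t ^ 2 / (4 * μ + 2 * t)) := by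
  simp_rw [← cnt_mem]
  exact cnt_lower hp (pd_single F) (fun a _ => loc_mem a) (by simpa [Pr_mem] using hμ) hμ0 ht

theorem card_far (hp : IsP p) (F : Finset α) {μ k : ℝ} (hμ : ∑ a ∈ F, p a ≤ μ)
    (hk : 8 * μ ≤ k) : Pr p (fun R => k ≤ ((F ∩ R).card : ℝ)) ≤ Real.exp (-k) := by
  simp_rw [← cnt_mem]
  exact cnt_far hp (pd_single F) (fun a _ => loc_mem a) (by simpa [Pr_mem] using hμ) hk

theorem card_upper_l (hp : IsP p) (F : Finset α) {μ k l : ℝ} (hμ : ∑ a ∈ F, p a ≤ μ)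
    (hl : 0 ≤ l) :
    Pr p (fun R => k ≤ ((F ∩ R).card : ℝ)) ≤ Real.exp ((Real.exp l - 1) * μ - l * k) := by
  simp_rw [← cnt_mem]
  exact cnt_upper_l hp (pd_single F) (fun a _ => loc_mem a) (by simpa [Pr_mem] using hμ) hl

theorem card_lower_l (hp : IsP p) (F : Finset α) {μ k l : ℝ} (hμ : μ ≤ ∑ a ∈ F, p a)
    (hl : 0 ≤ l) :
    Pr p (fun R => ((F ∩ R).card : ℝ) ≤ k) ≤ Real.exp (l * k - (1 - Real.exp (-l)) * μ) := by
  simp_rw [← cnt_mem]
  exact cnt_lower_l hp (pd_single F) (fun a _ => loc_mem a) (by simpa [Pr_mem] using hμ) hl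

end Count

end Pool.Agent.P.MP_224820_co.St
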