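import Pool.Agent.P.MP_224820_co.St.IfaceP
import Pool.Agent.P.MP_224820_co.St.Conc

/-! Step CH. -/

set_option autoImplicit false

namespace Pool.Agent.P.MP_224820_co.St

open Finset

theorem p_CH :
    S_CH := by
  intro α ι _ _ p hp J s E hs hE lam m k hl
  refine ⟨fun hm => ?_, fun hm => ?_⟩
  · rw [mul_comm m]
    exact cnt_upper_l hp hs hE hm hl
  · rw [mul_comm m]
    exact cnt_lower_l hp hs hE hm hl

end Pool.Agent.P.MP_224820_co.St
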