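import Pool.Agent.P.MP_224820_co.St.Conc
import Pool.Agent.P.MP_224820_co.St.IfaceP

/-! Step CH1. -/

set_option autoImplicit false

namespace Pool.Agent.P.MP_224820_co.St

open Finset

theorem p_CH1 (hCH : S_CH) :
    S_CH1 := by
  intro α _ _ p hp F lam m k hl
  refine ⟨fun h => (card_upper_l hp F h hl).trans (le_of_eq ?_),
    fun h => (card_lower_l hp F h hl).trans (le_of_eq ?_)⟩
  · rw [mul_comm]
  · rw [mul_comm m]

end Pool.Agent.P.MP_224820_co.St
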