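import Pool.Agent.P.MP_224820_co.St.IfaceA

/-! Step COMP. -/

set_option autoImplicit false

namespace Pool.Agent.P.MP_224820_co.St

open Finset

theorem comp_cnt_sum {A B : Type} [Fintype A] [Fintype B] (P : A ⊕ B → Prop) :
    cnt univ P = cnt univ (fun a => P (Sum.inl a)) + cnt univ (fun b => P (Sum.inr b)) := by
  classical
  rw [cnt_eq, cnt_eq, cnt_eq, card_filter, card_filter, card_filter, Fintype.sum_sum_type]

theorem comp_cnt_map {Cl A B : Type} [Fintype Cl] (cell : Cl → Multiset A) {f : A → B}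
    (hf : Function.Injective f) {C : ℕ} (h : ∀ a, cnt univ (fun c => a ∈ cell c) ≤ C) (b : B) :
    cnt univ (fun c => b ∈ (cell c).map f) ≤ C := by
  classical
  by_cases hb : ∃ a, f a = b
  · obtain ⟨a, rfl⟩ := hb
    refine le_trans (cnt_mono fun c hc hP => ⟨hc, ?_⟩) (h a)
    exact (Multiset.mem_map_of_injective hf).1 hP
  · rw [cnt_eq, filter_false_of_mem, card_empty]
    · exact Nat.zero_le _
    · intro c _ hc
      obtain ⟨a, -, ha⟩ := Multiset.mem_map.1 hc
      exact hb ⟨a, ha⟩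

theorem comp_map_sum {Cl A B : Type} (T : Finset Cl) (cell : Cl → Multiset A) (f : A → B) :
    (∑ c ∈ T, cell c).map f = ∑ c ∈ T, (cell c).map f :=
  map_sum (Multiset.mapAddMonoidHom f) cell T

theorem p_COMP :
    S_COMP := by
  intro V In Mid Out iu iv il ok mu mv okM ou ov okO L1 C1 L2 C2 h1 h2
  obtain ⟨I1, Cl1, _, _, src1, tgt1, len1, cell1, out1, m1, e1⟩ := h1
  obtain ⟨I2, Cl2, _, _, src2, tgt2, len2, cell2, out2, m2, e2⟩ := h2
  let f1 : In ⊕ I1 → In ⊕ (I1 ⊕ I2) := Sum.map id Sum.inl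
  let f2 : Mid ⊕ I2 → In ⊕ (I1 ⊕ I2) :=
    Sum.elim (fun m => Sum.inr (Sum.inl (out1 m))) (fun i => Sum.inr (Sum.inr i))
  have hf1 : Function.Injective f1 :=
    Sum.map_injective.2 ⟨Function.injective_id, Sum.inl_injective⟩
  have hf2 : Function.Injective f2 := by
    rintro (a | a) (b | b) h
    · simp only [f2, Sum.elim_inl, Sum.inr.injEq, Sum.inl.injEq] at h
      rw [m1.inj h]
    · simp [f2] at h
    · simp [f2] at h
    · simp only [f2, Sum.elim_inr, Sum.inr.injEq] at h
      rw [h]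
  refine ⟨I1 ⊕ I2, Cl1 ⊕ Cl2, inferInstance, inferInstance, Sum.elim src1 src2, Sum.elim tgt1 tgt2,
    Sum.elim len1 len2, Sum.elim (fun c => (cell1 c).map f1) (fun c => (cell2 c).map f2),
    fun o => Sum.inr (out2 o), ⟨?_, ?_, ?_, ?_, ?_, ?_⟩, fun o => e2 o⟩
  · rintro (i | i)
    · exact m1.len34 i
    · exact m2.len34 i
  · intro a b h
    exact m2.inj (Sum.inr_injective h)
  · intro PI PE hI hE c
    rcases c with c | c
    · obtain ⟨u, k, k1, k7, hw⟩ := m1.closed PI (fun i => PE (Sum.inl i)) hI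
        (fun i => hE (Sum.inl i)) c
      refine ⟨u, k, k1, k7, ?_⟩
      have : (Sum.elim PI PE) ∘ f1 = Sum.elim PI (fun i => PE (Sum.inl i)) := by
        funext x; rcases x with x | x <;> rfl
      rw [Sum.elim_inl, Multiset.bind_map]
      rw [← this] at hw
      exact hw
    · obtain ⟨u, k, k1, k7, hw⟩ := m2.closed (fun m => PE (Sum.inl (out1 m)))
        (fun i => PE (Sum.inr i)) (fun m => by
          have := hE (Sum.inl (out1 m))
          simp only [Sum.elim_inl, (e1 m).1, (e1 m).2.1, (e1 m).2.2] at this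
          exact this) (fun i => hE (Sum.inr i)) c
      refine ⟨u, k, k1, k7, ?_⟩
      have : (Sum.elim PI PE) ∘ f2 =
          Sum.elim (fun m => PE (Sum.inl (out1 m))) (fun i => PE (Sum.inr i)) := by
        funext x; rcases x with x | x <;> rfl
      rw [Sum.elim_inr, Multiset.bind_map]
      rw [← this] at hw
      exact hw
  · intro S hS
    obtain ⟨T1, SM, hM, q1⟩ := m1.cover S hS
    obtain ⟨T2, SO, hO, q2⟩ := m2.cover SM hM
    refine ⟨T1.disjSum T2, SO, hO, ?_⟩
    have r1 := congrArg (Multiset.map f1) q1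
    have r2 := congrArg (Multiset.map f2) q2
    simp only [Multiset.map_add, Multiset.map_map, comp_map_sum] at r1 r2
    rw [sum_disjSum, ← univ_disjSum_univ, val_disjSum, Multiset.disjSum, Multiset.map_add,
      Multiset.map_map, Multiset.map_map]
    simp only [Sum.elim_inl, Sum.elim_inr]
    have a1 : (f1 ∘ fun o => Sum.inr (out1 o)) = (f2 ∘ Sum.inl) := rfl
    have a2 : (f2 ∘ fun o => Sum.inr (out2 o)) = fun o => Sum.inr (Sum.inr (out2 o)) := rfl
    have a3 : (f1 ∘ Sum.inl) = Sum.inl := rfl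
    have a4 : (f1 ∘ Sum.inr) = Sum.inr ∘ Sum.inl := rfl
    have a5 : (f2 ∘ Sum.inr) = Sum.inr ∘ Sum.inr := rfl
    rw [a1, a3, a4] at r1
    rw [a2, a5] at r2
    rw [add_assoc, r2, ← add_assoc, r1, add_assoc]
  · intro v
    rw [comp_cnt_sum]
    exact add_le_add (m1.load v) (m2.load v)
  · intro a
    rw [comp_cnt_sum]
    exact add_le_add (comp_cnt_map cell1 hf1 m1.mult a) (comp_cnt_map cell2 hf2 m2.mult a)

end Pool.Agent.P.MP_224820_co.St
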