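import Pool.Agent.P.MP_224820_co.St.IfaceA

/-! Step DES. -/

set_option autoImplicit false

namespace Pool.Agent.P.MP_224820_co.St

open Finset

theorem des_mono {V In Out : Type} {iu iv : In → V} {il : In → ℕ} {ok : Finset In → Prop}
    {ou ov : Out → V} {okO : Finset Out → Prop} {L C L' C' : ℕ}
    (h : HasMod iu iv il ok ou ov okO L C) (hL : L ≤ L') (hC : C ≤ C') :
    HasMod iu iv il ok ou ov okO L' C' := by
  obtain ⟨I, Cl, i1, i2, src, tgt, len, cell, out, hm, ho⟩ := h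
  exact ⟨I, Cl, i1, i2, src, tgt, len, cell, out,
    ⟨hm.len34, hm.inj, hm.closed, hm.cover, fun v => (hm.load v).trans hL,
      fun a => (hm.mult a).trans hC⟩, ho⟩

theorem des_mem {n : ℕ} (e : Sym2 (Fin n)) (v : Fin n) (h : e.inf = v ∨ e.sup = v) : v ∈ e := by
  induction e using Sym2.ind with
  | _ x y =>
    rw [Sym2.inf_mk, Sym2.sup_mk] at h
    rw [Sym2.mem_iff]
    rcases le_total x y with hxy | hxy
    · rw [inf_eq_left.mpr hxy, sup_eq_right.mpr hxy] at h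
      exact h.imp Eq.symm Eq.symm
    · rw [inf_eq_right.mpr hxy, sup_eq_left.mpr hxy] at h
      exact h.symm.imp Eq.symm Eq.symm

theorem des_cnt {n : ℕ} (X : Finset (Sym2 (Fin n))) (v : Fin n) :
    cnt univ (fun e : {e // e ∈ X} => e.1.inf = v ∨ e.1.sup = v) ≤ (nb X v).card := by
  classical
  rw [cnt_eq, card_nb_eq]
  refine Finset.card_le_card_of_injOn (fun e => e.1) ?_ ?_
  · intro e he
    have he' := (mem_filter.mp (mem_coe.mp he)).2
    exact mem_coe.mpr (mem_filter.mpr ⟨e.2, des_mem e.1 v he'⟩)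
  · intro e _ e' _ h
    exact Subtype.ext h

theorem p_DES (hCOMP : S_COMP) (hPHASE : S_PHASE) (hTERM : S_TERM) (hTOK : S_TOK) :
    S_DES := by
  intro n X d hX hd
  have hn : n ≤ (Nat.sqrt n + 1) * (Nat.sqrt n + 1) := (Nat.lt_succ_sqrt n).le
  set a := Nat.sqrt n + 1 with ha
  have h0 := hTOK n X d hX hd
  obtain ⟨O1, i1, u1, v1, m1, r1, c1, -⟩ := hPHASE n {e // e ∈ X} (fun e => e.1.inf) (fun e => e.1.sup)
    a a d (by omega)
    (fun w => ⟨Sym2.inf_le_sup w.1, by have := (w.1.sup).2; omega⟩)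
    (fun v => (des_cnt X v).trans (hd v))
  obtain ⟨O2, i2, u2, v2, m2, r2, c2, -⟩ := hPHASE n O1 u1 v1 1 a _ le_rfl
    (fun w => ⟨(r1 w).1, by have := (r1 w).2; omega⟩) c1
  obtain ⟨O3, i3, u3, v3, m3, r3, -, q3⟩ := hPHASE n O2 u2 v2 1 1 _ le_rfl
    (fun w => ⟨(r2 w).1, by have := (r2 w).2; omega⟩) c2
  have m4 := hTERM n O3 u3 v3 r3 (q3 le_rfl)
  have k1 := hCOMP _ _ _ _ _ _ _ _ _ _ _ _ _ _ _ _ _ _ h0 m1
  have k2 := hCOMP _ _ _ _ _ _ _ _ _ _ _ _ _ _ _ _ _ _ k1 m2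
  have k3 := hCOMP _ _ _ _ _ _ _ _ _ _ _ _ _ _ _ _ _ _ k2 m3
  have k4 := hCOMP _ _ _ _ _ _ _ _ _ _ _ _ _ _ _ _ _ _ k3 m4
  exact des_mono k4 (by omega) (by omega)

end Pool.Agent.P.MP_224820_co.St
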