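import Pool.Agent.P.MP_224820_co.St.IfaceA
import Pool.Agent.P.MP_224820_co.St.IfaceP

/-! Step EMB. -/

set_option autoImplicit false

namespace Pool.Agent.P.MP_224820_co.St

open Finset

section
variable {V U Gd : Type} [Fintype V] [DecidableEq V] [Fintype U] [DecidableEq U]

/-- all gadgets of `G` are embedded inside `c`, avoiding `Fb`, with degrees at most `D` -/
def embE (back : Gd → U → Finset (V ⊕ U)) (G : Finset Gd) (Fb : Finset (Sym2 V)) (D : ℝ)
    (c : Finset (Sym2 V)) : Prop :=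
  ∃ φ : Gd → U → V, (∑ g ∈ G, gE (back g) (φ g)).Nodup ∧
    (∀ e ∈ ∑ g ∈ G, gE (back g) (φ g), e ∈ c ∧ e ∉ Fb ∧ ¬ e.IsDiag) ∧
    ∀ v, ((nb (∑ g ∈ G, gE (back g) (φ g)).toFinset v).card : ℝ) ≤ D

omit [DecidableEq U] in
theorem emb_incr (back : Gd → U → Finset (V ⊕ U)) (G : Finset Gd) (Fb : Finset (Sym2 V)) (D : ℝ) :
    Incr (embE back G Fb D) := by
  rintro R R' h ⟨φ, h1, h2, h3⟩
  exact ⟨φ, h1, fun e he => ⟨h (h2 e he).1, (h2 e he).2⟩, h3⟩

theorem emb_EF {back : Gd → U → Finset (V ⊕ U)} {G G' : Finset Gd} {wr D1 emax z0 s0 : ℕ}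
    {NG L1 L2 : ℝ} (h : EF back G wr D1 emax z0 s0 NG L1 L2) (hG : G' ⊆ G) :
    EF back G' wr D1 emax z0 s0 NG L1 L2 where
  gs := fun g hg => h.gs g (hG hg)
  ord := fun g hg => h.ord g (hG hg)
  num := le_trans (by exact_mod_cast card_le_card hG) h.num
  ld1 := fun x => le_trans (by exact_mod_cast cnt_mono fun i hi hp => ⟨hG hi, hp⟩) (h.ld1 x)
  ld2 := fun x y hxy =>
    le_trans (by exact_mod_cast cnt_mono fun i hi hp => ⟨hG hi, hp⟩) (h.ld2 x y hxy)

theorem emb_kap {n : ℝ} (hn : 0 ≤ n) {T wr D1 emax z0 s0 : ℕ} {NG L1 L2 β m κ0 Δ y : ℝ}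
    (h : EN n T wr D1 emax z0 s0 NG L1 L2 β m κ0 Δ y) : 0 ≤ kapR m κ0 := by
  have hb := h.b0
  have hm := h.m0
  have hy := h.y0
  have h0 := h.n0
  have h1 := h.n1
  have h2 := h.n2
  have hF : 0 ≤ FF n T wr D1 β := by unfold FF; positivity
  have hB : 0 ≤ bigB T s0 (FF n T wr D1 β) y := by
    unfold bigB
    split_ifs
    · exact le_rfl
    · positivity
  have hk : 0 ≤ κ0 := le_trans (by positivity) h.kap
  unfold kapR
  positivity

/-- the degrees of a random graph -/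
theorem emb_deg (hCH1 : S_CH1) {β d : ℝ} (b0 : 0 ≤ β) (b1 : β ≤ 1) :
    Pr (fun _ : Sym2 V => β) (fun Q => ∃ v ∈ (univ : Finset V), d ≤ ((nb Q v).card : ℝ))
      ≤ Fintype.card V * Real.exp (2 * Fintype.card V * β - d) := by
  have hp : IsP (fun _ : Sym2 V => β) := fun _ => ⟨b0, b1⟩
  refine (Pr_exists_le' hp univ _ fun v _ => ?_).trans (le_of_eq (by rw [card_univ]))
  have h := (hCH1 (Sym2 V) _ hp (univ.image fun x => s(v, x)) 1 (Fintype.card V * β) d
    zero_le_one).1 (by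
      rw [sum_const, card_image_of_injective _ (gra_inj v), card_univ, nsmul_eq_mul])
  refine le_trans (le_of_eq (Pr_congr fun Q => ?_)) (h.trans (Real.exp_le_exp.2 ?_))
  · rw [inter_comm, card_inter_star, inter_univ]
  · have h1 : Real.exp 1 - 1 ≤ 2 := by linarith [Real.exp_one_lt_d9]
    have h2 : (0 : ℝ) ≤ Fintype.card V * β := by positivity
    nlinarith [mul_le_mul_of_nonneg_left h1 h2]

omit [DecidableEq U] in
/-- gluing the gadgets of one round with the later ones -/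
theorem emb_glue [DecidableEq Gd] {back : Gd → U → Finset (V ⊕ U)} {G S : Finset Gd} (hS : S ⊆ G)
    {φ : Gd → U → V} {Fb Q R : Finset (Sym2 V)} {d D : ℝ}
    (h1 : (∑ g ∈ S, gE (back g) (φ g)).Nodup)
    (h2 : ∀ e ∈ ∑ g ∈ S, gE (back g) (φ g), e ∈ Q ∧ e ∉ Fb ∧ ¬ e.IsDiag)
    (h3 : ∀ v, ((nb Q v).card : ℝ) ≤ d)
    (h : embE back (G \ S) (Fb ∪ (∑ g ∈ S, gE (back g) (φ g)).toFinset) D R) :
    embE back G Fb (D + d) (Q ∪ R) := by
  obtain ⟨ψ, k1, k2, k3⟩ := h
  have hsum : ∑ g ∈ G, gE (back g) ((fun g => if g ∈ S then φ g else ψ g) g)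
      = ∑ g ∈ G \ S, gE (back g) (ψ g) + ∑ g ∈ S, gE (back g) (φ g) := by
    rw [← sum_sdiff hS]
    congr 1
    · exact sum_congr rfl fun g hg => by simp only [if_neg (mem_sdiff.1 hg).2]
    · exact sum_congr rfl fun g hg => by simp only [if_pos hg]
  refine ⟨fun g => if g ∈ S then φ g else ψ g, ?_, ?_, ?_⟩
  · rw [hsum, Multiset.nodup_add]
    refine ⟨k1, h1, Multiset.disjoint_left.2 fun {e} he he' => ?_⟩
    exact (k2 e he).2.1 (mem_union_right _ (Multiset.mem_toFinset.2 he'))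
  · rw [hsum]
    intro e he
    rcases Multiset.mem_add.1 he with he | he
    · exact ⟨mem_union_right _ (k2 e he).1, fun h => (k2 e he).2.1 (mem_union_left _ h),
        (k2 e he).2.2⟩
    · exact ⟨mem_union_left _ (h2 e he).1, (h2 e he).2⟩
  · intro v
    rw [hsum, Multiset.toFinset_add, nb_union]
    have hq : (∑ g ∈ S, gE (back g) (φ g)).toFinset ⊆ Q := fun e he =>
      (h2 e (Multiset.mem_toFinset.1 he)).1
    have h4 : ((nb (∑ g ∈ S, gE (back g) (φ g)).toFinset v).card : ℝ) ≤ d :=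
      le_trans (by exact_mod_cast card_le_card (nb_mono hq v)) (h3 v)
    refine le_trans ?_ (add_le_add (k3 v) h4)
    exact_mod_cast card_union_le _ _

end

theorem p_EMB (hEMB1 : S_EMB1) (hSPR : S_SPR) (hMONO : S_MONO) (hCH1 : S_CH1) :
    S_EMB := by
  intro V U _ _ _ _ _ Gd _ _ back 𝒢 wr D1 emax z0 s0 M NG L1 L2 β m κ0 Δ d y π hF hN hd hπ hπ1 Fb hFb
  have hκ := emb_kap (Nat.cast_nonneg _) hN
  have hb0 := hN.b0.le
  have hb1 := hN.b1
  have hβ : IsP (fun _ : Sym2 V => β) := fun _ => ⟨hb0, hb1⟩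
  obtain ⟨ε, hε⟩ : ∃ ε : ℝ, ε = Fintype.card V * Real.exp (2 * Fintype.card V * β - d) := ⟨_, rfl⟩
  have hε0 : 0 ≤ ε := by rw [hε]; positivity
  have key : ∀ k : ℕ, ∀ G ⊆ 𝒢, ∀ (Fb : Finset (Sym2 V)) (Δ' π' : ℝ), Δ' + k * d ≤ Δ + M * d →
      k * β ≤ π' → π' ≤ 1 → (∀ v, ((nb Fb v).card : ℝ) ≤ Δ') →
      Pr (fun _ : Sym2 V => π') (fun c => ¬ embE back G Fb (k * d) c)
        ≤ kapR m κ0 ^ k * G.card + k * ε := by
    intro k
    induction k with
    | zero =>
      intro G _ Fb Δ' π' _ h0 h1 _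
      have hp : IsP (fun _ : Sym2 V => π') := fun _ => ⟨by simpa using h0, h1⟩
      rcases G.eq_empty_or_nonempty with rfl | hne
      · rw [Pr_false]
        · simp
        · intro c hc
          refine hc ⟨fun _ _ => Classical.arbitrary V, by simp, by simp, fun v => ?_⟩
          simp [nb]
      · refine (Pr_le_one hp _).trans ?_
        have : (1 : ℝ) ≤ G.card := by exact_mod_cast hne.card_pos
        simpa using this
    | succ k ih =>
      intro G hG Fb Δ' π' hΔ h0 h1 hFb'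
      have hk : (0 : ℝ) ≤ k := Nat.cast_nonneg k
      push_cast at hΔ h0 ⊢
      have hkb : 0 ≤ k * β := mul_nonneg hk hb0
      have hkd : 0 ≤ k * d := mul_nonneg hk hd
      have hp : IsP (fun _ : Sym2 V => π') := fun _ => ⟨by linarith, h1⟩
      have hp2 : IsP (fun _ : Sym2 V => π' - β) := fun _ => ⟨by linarith, by linarith⟩
      obtain ⟨succ, φ, hs, hE⟩ := hEMB1 V U Gd back G wr D1 emax z0 s0 NG L1 L2 β m κ0 (Δ + M * d) y
        (emb_EF hF hG) hN Fb fun v => (hFb' v).trans (by linarith)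
      refine (hSPR (Sym2 V) _ _ _ hp hβ hp2 (fun _ => ?_) _ (emb_incr back G Fb _)).trans ?_
      · nlinarith [mul_nonneg hb0 (show 0 ≤ π' - β by linarith)]
      have hbad := emb_deg (V := V) (d := d) hCH1 hb0 hb1
      rw [← hε] at hbad
      have hpow : 0 ≤ kapR m κ0 ^ k := pow_nonneg hκ k
      classical
      have hstep : ∀ Q : Finset (Sym2 V),
          Pr (fun _ : Sym2 V => π' - β) (fun R => ¬ embE back G Fb ((k + 1) * d) (Q ∪ R))
            ≤ (if ∃ v ∈ (univ : Finset V), d ≤ ((nb Q v).card : ℝ) then 1 else 0)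
              + (kapR m κ0 ^ k * ((G \ succ Q).card : ℝ) + k * ε) := by
        intro Q
        have hr : 0 ≤ kapR m κ0 ^ k * ((G \ succ Q).card : ℝ) + k * ε := by positivity
        split_ifs with hQ
        · linarith [Pr_le_one hp2 fun R => ¬ embE back G Fb ((k + 1) * d) (Q ∪ R)]
        · have h3 : ∀ v, ((nb Q v).card : ℝ) ≤ d := fun v =>
            le_of_lt (lt_of_not_ge fun h => hQ ⟨v, mem_univ v, h⟩)
          obtain ⟨s1, s2, s3⟩ := hs Q
          have hq : (∑ g ∈ succ Q, gE (back g) (φ Q g)).toFinset ⊆ Q := fun e he =>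
            (s3 e (Multiset.mem_toFinset.1 he)).1
          have h := ih (G \ succ Q) (sdiff_subset.trans hG)
            (Fb ∪ (∑ g ∈ succ Q, gE (back g) (φ Q g)).toFinset) (Δ' + d) (π' - β) (by linarith)
            (by linarith) (by linarith) (fun v => by
              rw [nb_union]
              have h4 : ((nb (∑ g ∈ succ Q, gE (back g) (φ Q g)).toFinset v).card : ℝ) ≤ d :=
                le_trans (by exact_mod_cast card_le_card (nb_mono hq v)) (h3 v)
              refine le_trans ?_ (add_le_add (hFb' v) h4)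
              exact_mod_cast card_union_le _ _)
          rw [zero_add]
          refine le_trans (Pr_mono hp2 fun R hR => ?_) h
          intro hE'
          refine hR ?_
          have := emb_glue s1 s2 s3 h3 hE'
          rwa [show k * d + d = (k + 1) * d by ring] at this
      refine (Ex_mono hβ hstep).trans ?_
      rw [Ex_add, Ex_add, Ex_mul, Ex_const, ← Pr_eq]
      have h5 := mul_le_mul_of_nonneg_left hE hpow
      rw [pow_succ]
      linarith
  have h := key M 𝒢 Subset.rfl Fb Δ π le_rfl hπ hπ1 hFb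
  rw [← hε]
  refine le_trans h ?_
  have := mul_le_mul_of_nonneg_left hF.num (pow_nonneg hκ M)
  linarith

end Pool.Agent.P.MP_224820_co.St
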