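import Pool.Agent.P.MP_224820_co.St.IfaceP

/-! Step ET. -/

set_option autoImplicit false

namespace Pool.Agent.P.MP_224820_co.St

open Finset

theorem p_ET :
    S_ET := by
  intro α ι _ _ p hp J F k μ hμ
  classical
  have hx : ∀ i, 0 ≤ ∏ a ∈ F i, p a := fun i => prod_nonneg fun a _ => (hp a).1
  have h1 : Pr p (fun R => ∃ I ⊆ J, k ≤ I.card ∧ (I : Set ι).PairwiseDisjoint F ∧
      ∀ i ∈ I, F i ⊆ R) ≤ ∑ I ∈ powersetCard k J, ∏ i ∈ I, ∏ a ∈ F i, p a := by
    refine le_trans (Pr_mono hp (E' := fun R => ∃ I ∈ powersetCard k J,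
      (I : Set ι).PairwiseDisjoint F ∧ I.biUnion F ⊆ R) ?_) ((Pr_exists_le hp _ _).trans
        (sum_le_sum fun I _ => ?_))
    · rintro R ⟨I, hI, hk, hd, hF⟩
      obtain ⟨I', h1, h2⟩ := exists_subset_card_eq hk
      exact ⟨I', mem_powersetCard.2 ⟨h1.trans hI, h2⟩, hd.subset (coe_subset.2 h1),
        biUnion_subset.2 fun i hi => hF i (h1 hi)⟩
    · by_cases hd : (I : Set ι).PairwiseDisjoint F
      · rw [← prod_biUnion hd, ← Pr_subset]
        exact Pr_mono hp fun R h => h.2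
      · rw [Pr_false p fun R h => hd h.1]
        exact prod_nonneg fun i _ => hx i
  refine h1.trans ?_
  have he : 0 < Real.exp 1 := Real.exp_pos 1
  have h2 : Real.exp k * ∑ I ∈ powersetCard k J, ∏ i ∈ I, ∏ a ∈ F i, p a
      ≤ ∏ i ∈ J, (Real.exp 1 * ∏ a ∈ F i, p a + 1) := by
    rw [prod_add_one, mul_sum]
    refine le_trans (le_of_eq (sum_congr rfl fun I hI => ?_))
      (sum_le_sum_of_subset_of_nonneg (s := powersetCard k J) (fun I hI => mem_powerset.2
        (mem_powersetCard.1 hI).1) fun I _ _ => prod_nonneg fun i _ => mul_nonneg he.le (hx i))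
    rw [prod_mul_distrib, prod_const, (mem_powersetCard.1 hI).2, ← Real.exp_nat_mul, mul_one]
  have h3 : ∏ i ∈ J, (Real.exp 1 * ∏ a ∈ F i, p a + 1) ≤ Real.exp (3 * μ) := by
    refine (prod_le_prod (fun i _ => by have := hx i; positivity)
      fun i _ => Real.add_one_le_exp _).trans ?_
    rw [← Real.exp_sum, ← mul_sum]
    have h4 : 0 ≤ ∑ i ∈ J, ∏ a ∈ F i, p a := sum_nonneg fun i _ => hx i
    exact Real.exp_le_exp.2 (by nlinarith [Real.exp_one_lt_d9])
  rw [Real.exp_sub, le_div_iff₀ (Real.exp_pos _), mul_comm]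
  exact h2.trans h3

end Pool.Agent.P.MP_224820_co.St
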