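import Pool.Agent.P.MP_224820_co.St.IfaceA

/-! Step FGE. -/

set_option autoImplicit false

namespace Pool.Agent.P.MP_224820_co.St

open Finset

theorem fge_val {i : ℕ} (h : i < 21) : ((f21 i : Fin 21) : ℕ) = i := Nat.mod_eq_of_lt h

theorem fge_fin {M : Type} [AddCommMonoid M] {k : ℕ} (hk : k ≤ 7) (F : Fin 21 → M)
    (hF : ∀ i : Fin 21, ¬ (i : ℕ) < 3 * k → F i = 0) :
    ∑ i, F i = ∑ i ∈ range (3 * k), F (f21 i) := by
  have h1 : ∑ i, F i = ∑ i : Fin 21, (fun n => F (f21 n)) i := by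
    refine sum_congr rfl fun i _ => ?_
    have : f21 i = i := Fin.ext (fge_val i.2)
    simp only [this]
  rw [h1, Fin.sum_univ_eq_sum_range (fun n => F (f21 n)) 21]
  symm
  refine sum_subset (fun i hi => ?_) fun i hi hi' => ?_
  · rw [mem_range] at hi ⊢
    omega
  · rw [mem_range] at hi hi'
    exact hF _ (by rw [fge_val hi]; exact hi')

theorem fge_three {M : Type} [AddCommMonoid M] (F : ℕ → M) (k : ℕ) :
    ∑ i ∈ range (3 * k), F i = ∑ j ∈ range k, (F (3 * j) + F (3 * j + 1) + F (3 * j + 2)) := by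
  induction k with
  | zero => simp
  | succ k ih =>
    rw [show 3 * (k + 1) = 3 * k + 1 + 1 + 1 by ring, sum_range_succ, sum_range_succ, sum_range_succ,
      sum_range_succ, ih]
    abel

section
variable {W : Type} {t k : ℕ} {v : ℕ → W}

theorem fge_in {c : Fin 2} {i : Fin 21} {j : ℕ} (h1 : 5 ≤ j) (h2 : j - 5 < t) :
    fX t v k c i j = Sum.inr (Sum.inr (c, i, ⟨j - 5, h2⟩)) := by
  unfold fX
  rw [dif_pos ⟨h1, h2⟩]

theorem fge_bd {c : Fin 2} {i : Fin 21} {j : ℕ} (h1 : j < 5) :
    fX t v k c i j = fB t v k c i j := by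
  unfold fX
  rw [dif_neg (by omega)]

theorem fge_bne (c : Fin 2) (i j : ℕ) (z : Fin 2 × Fin 21 × Fin t) :
    Sum.inr (Sum.inr z) ≠ fB t v k c i j := by
  unfold fB fP fQ fR
  split_ifs <;> simp

theorem fge_ne {c : Fin 2} {i : Fin 21} {a b : ℕ} (hab : a ≠ b) (h1 : 5 ≤ a) (h2 : a < t + 5)
    (h3 : b < t + 5) : fX t v k c i a ≠ fX t v k c i b := by
  rw [fge_in h1 (by omega)]
  by_cases hb : b < 5
  · rw [fge_bd hb]
    exact fge_bne _ _ _ _
  · rw [fge_in (by omega) (by omega)]
    simp only [ne_eq, Sum.inr.injEq, Prod.mk.injEq, true_and, Fin.mk.injEq]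
    omega

theorem fge_Q {i : ℕ} (_hi : i < 21) : fQ W t (i + 1) ≠ fQ W t i := by
  unfold fQ f21
  simp only [ne_eq, Sum.inr.injEq, Sum.inl.injEq, Prod.mk.injEq, true_and, Fin.mk.injEq]
  split_ifs <;> omega

theorem fge_succ {c : Fin 2} {i : Fin 21} {j : ℕ} (hj : j < t) :
    fX t v k c i (j + 1) ≠ fX t v k c i j := by
  by_cases h : 4 ≤ j
  · exact fge_ne (by omega) (by omega) (by omega) (by omega)
  · rw [fge_bd (by omega), fge_bd (by omega)]
    have h4 : j < 4 := by omega
    unfold fB fP fQ fR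
    interval_cases j <;> by_cases hc : c = 0 <;> simp [hc]

theorem fge_41 {c : Fin 2} {i : Fin 21} {j : ℕ} (hj : j < t) :
    fX t v k c i (j + 4) ≠ fX t v k c i (j + 1) := by
  by_cases h : 1 ≤ j
  · exact fge_ne (by omega) (by omega) (by omega) (by omega)
  · rw [fge_bd (by omega), fge_bd (by omega)]
    have h4 : j = 0 := by omega
    subst h4
    unfold fB fP fQ fR
    by_cases hc : c = 0 <;> simp [hc]

theorem fge_40 {c : Fin 2} {i : Fin 21} {j : ℕ} (hj : j < t) (hv : v i ≠ v (i + 1)) :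
    fX t v k c i (j + 4) ≠ fX t v k c i j := by
  by_cases h : 1 ≤ j
  · exact fge_ne (by omega) (by omega) (by omega) (by omega)
  · rw [fge_bd (by omega), fge_bd (by omega)]
    have h4 : j = 0 := by omega
    subst h4
    by_cases hc : c = 0
    · simp [fB, hc, hv.symm]
    · simpa [fB, hc] using fge_Q (W := W) (t := t) i.2

variable [DecidableEq W]

theorem fge_tube_val {c : Fin 2} {i : Fin 21} (j : Fin t) (ht : 10 ≤ t) (hi : (i : ℕ) < 3 * k)
    (hv : v i ≠ v (i + 1)) :
    (fback t v k (Sum.inr (c, i, j))).val =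
      ({fX t v k c i (j + 4), fX t v k c i (j + 1), fX t v k c i j} : Multiset (W ⊕ FU t))
        + (if (j : ℕ) + 3 = t then {fX t v k c i t} else 0)
        + (if (j : ℕ) + 1 = t then {fX t v k c i (t + 2)} else 0) := by
  have hj := j.2
  have e1 := fge_succ (v := v) (k := k) (c := c) (i := i) hj
  have e2 := fge_41 (v := v) (k := k) (c := c) (i := i) hj
  have e3 := fge_40 (v := v) (k := k) (c := c) (i := i) hj hv
  have h0 : ({fX t v k c i (j + 4), fX t v k c i (j + 1), fX t v k c i j} : Finset (W ⊕ FU t)).val =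
      ({fX t v k c i (j + 4), fX t v k c i (j + 1), fX t v k c i j} : Multiset (W ⊕ FU t)) := by
    rw [insert_val_of_notMem (by simp [e2, e3]), insert_val_of_notMem (by simp [e1])]
    rfl
  have key : ∀ b : ℕ, 5 ≤ b → b < t + 5 → b ≠ j + 4 → b ≠ j + 1 → b ≠ j →
      (({fX t v k c i (j + 4), fX t v k c i (j + 1), fX t v k c i j} : Finset (W ⊕ FU t))
        ∪ {fX t v k c i b}).val =
      ({fX t v k c i (j + 4), fX t v k c i (j + 1), fX t v k c i j} : Multiset (W ⊕ FU t))
        + {fX t v k c i b} := by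
    intro b b1 b2 b3 b4 b5
    have d1 : fX t v k c i b ≠ fX t v k c i (j + 4) := fge_ne b3 b1 b2 (by omega)
    have d2 : fX t v k c i b ≠ fX t v k c i (j + 1) := fge_ne b4 b1 b2 (by omega)
    have d3 : fX t v k c i b ≠ fX t v k c i j := fge_ne b5 b1 b2 (by omega)
    rw [← disjUnion_eq_union _ _ (by simp [d1, d2, d3]), disjUnion_val, h0]
    rfl
  simp only [fback, if_pos hi]
  by_cases h3 : (j : ℕ) + 3 = t
  · have h1 : ¬ (j : ℕ) + 1 = t := by omega
    rw [if_pos h3, if_pos h3, if_neg h1, if_neg h1, union_empty, add_zero]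
    exact key t (by omega) (by omega) (by omega) (by omega) (by omega)
  · rw [if_neg h3, if_neg h3, union_empty, add_zero]
    by_cases h1 : (j : ℕ) + 1 = t
    · rw [if_pos h1, if_pos h1]
      exact key (t + 2) (by omega) (by omega) (by omega) (by omega) (by omega)
    · rw [if_neg h1, if_neg h1, union_empty, add_zero, h0]

theorem fge_tube (φ : FU t → W) (c : Fin 2) (i : Fin 21) (ht : 10 ≤ t) (hi : (i : ℕ) < 3 * k)
    (hv : v i ≠ v (i + 1)) :
    ∑ j : Fin t, (fback t v k (Sum.inr (c, i, j))).val.map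
        (fun x => s(φ (Sum.inr (c, i, j)), Sum.elim id φ x))
      = core (fun j => Sum.elim id φ (fX t v k c i j)) t := by
  obtain ⟨x, hx⟩ : ∃ x : ℕ → W, x = fun j => Sum.elim id φ (fX t v k c i j) := ⟨_, rfl⟩
  have hx' : ∀ j, Sum.elim id φ (fX t v k c i j) = x j := fun j => by rw [hx]
  rw [← hx]
  have h1 : ∀ j : Fin t, (fback t v k (Sum.inr (c, i, j))).val.map
        (fun x => s(φ (Sum.inr (c, i, j)), Sum.elim id φ x)) =
      (fun j : ℕ => ({s(x (j + 5), x (j + 4)), s(x (j + 5), x (j + 1)), s(x (j + 5), x j)} :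
        Multiset (Sym2 W)) + (if j + 3 = t then {s(x (t + 2), x t)} else 0)
        + (if j + 1 = t then {s(x (t + 4), x (t + 2))} else 0)) j := by
    intro j
    have h5 : φ (Sum.inr (c, i, j)) = x (j + 5) := by
      rw [← hx', fge_in (by omega) (by have := j.2; omega)]
      simp
    rw [fge_tube_val j ht hi hv, h5, Multiset.map_add, Multiset.map_add]
    congr 1
    · congr 1
      · simp [hx']
      · split_ifs with h
        · rw [Multiset.map_singleton, hx', show (j : ℕ) + 5 = t + 2 by omega]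
        · rfl
    · split_ifs with h
      · rw [Multiset.map_singleton, hx', show (j : ℕ) + 5 = t + 4 by omega]
      · rfl
  rw [sum_congr rfl fun j _ => h1 j, Fin.sum_univ_eq_sum_range (fun j : ℕ =>
    ({s(x (j + 5), x (j + 4)), s(x (j + 5), x (j + 1)), s(x (j + 5), x j)} :
        Multiset (Sym2 W)) + (if j + 3 = t then {s(x (t + 2), x t)} else 0)
        + (if j + 1 = t then {s(x (t + 4), x (t + 2))} else 0)) t, sum_add_distrib, sum_add_distrib]
  have h2 : ∀ (d : ℕ) (m : Multiset (Sym2 W)), 1 ≤ d → d ≤ t →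
      ∑ j ∈ range t, (if j + d = t then m else 0) = m := by
    intro d m d1 d2
    rw [sum_eq_single (t - d)]
    · rw [if_pos (by omega)]
    · intro b _ hb
      rw [if_neg (by omega)]
    · intro h
      exact absurd (mem_range.2 (by omega)) h
  rw [h2 3 _ (by omega) (by omega), h2 1 _ (by omega) (by omega), core, add_assoc]
  rfl

theorem fge_P (φ : FU t → W) {i : ℕ} (hk : k ≤ 7) (hi : i < 3 * k) :
    (fback t v k (Sum.inl (0, f21 i))).val.map
        (fun x => s(φ (Sum.inl (0, f21 i)), Sum.elim id φ x))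
      = {s(v i, Sum.elim id φ (fP W t i)), s(Sum.elim id φ (fP W t i), Sum.elim id φ (fQ W t i))} := by
  have hv := fge_val (i := i) (by omega)
  simp only [fback, hv, if_pos hi, if_true]
  rw [insert_val_of_notMem (by simp [fQ])]
  simp only [singleton_val, Multiset.map_cons, Multiset.map_singleton, Sum.elim_inl, id, fP,
    Sum.elim_inr]
  rw [Sym2.eq_swap]
  rfl

theorem fge_R (φ : FU t → W) {i : ℕ} (hk : k ≤ 7) (hi : i < 3 * k) :
    (fback t v k (Sum.inl (2, f21 i))).val.map
        (fun x => s(φ (Sum.inl (2, f21 i)), Sum.elim id φ x))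
      = {s(Sum.elim id φ (fQ W t i), Sum.elim id φ (fR W t i)),
          s(Sum.elim id φ (fR W t i), v (i + 1))} := by
  have hv := fge_val (i := i) (by omega)
  have h20 : ¬ (2 : Fin 3) = 0 := by decide
  simp only [fback, hv, if_pos hi, if_neg h20, if_true]
  rw [insert_val_of_notMem (by simp [fQ])]
  simp only [singleton_val, Multiset.map_cons, Multiset.map_singleton, Sum.elim_inl, id, fR,
    Sum.elim_inr]
  rw [Sym2.eq_swap]
  rfl

omit [DecidableEq W] in
theorem fge_hub {i : ℕ} (h : i % 3 = 0) : fQ W t i = fQ W t 0 := by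
  simp [fQ, h]

omit [DecidableEq W] in
theorem fge_mid {i : ℕ} (h : i % 3 ≠ 0) : fQ W t i = Sum.inr (Sum.inl (1, f21 i)) := by
  simp [fQ, h]

theorem fge_Qs (φ : FU t → W) {j : ℕ} (hk : k ≤ 7) (hj : j < k) :
    (fback t v k (Sum.inl (1, f21 (3 * j)))).val.map
        (fun x => s(φ (Sum.inl (1, f21 (3 * j))), Sum.elim id φ x))
    + (fback t v k (Sum.inl (1, f21 (3 * j + 1)))).val.map
        (fun x => s(φ (Sum.inl (1, f21 (3 * j + 1))), Sum.elim id φ x))
    + (fback t v k (Sum.inl (1, f21 (3 * j + 2)))).val.map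
        (fun x => s(φ (Sum.inl (1, f21 (3 * j + 2))), Sum.elim id φ x))
      = {s(Sum.elim id φ (fQ W t (3 * j)), Sum.elim id φ (fQ W t (3 * j + 1))),
        s(Sum.elim id φ (fQ W t (3 * j + 1)), Sum.elim id φ (fQ W t (3 * j + 2))),
        s(Sum.elim id φ (fQ W t (3 * j + 2)), Sum.elim id φ (fQ W t (3 * j + 3)))} := by
  have v0 := fge_val (i := 3 * j) (by omega)
  have v1 := fge_val (i := 3 * j + 1) (by omega)
  have v2 := fge_val (i := 3 * j + 2) (by omega)
  have h10 : ¬ (1 : Fin 3) = 0 := by decide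
  have h12 : ¬ (1 : Fin 3) = 2 := by decide
  have a0 : 3 * j < 3 * k := by omega
  have a1 : 3 * j + 1 < 3 * k := by omega
  have a2 : 3 * j + 2 < 3 * k := by omega
  have b1 : ¬ 3 * j % 3 = 1 := by omega
  have b2 : ¬ 3 * j % 3 = 2 := by omega
  have b3 : (3 * j + 1) % 3 = 1 := by omega
  have b4 : ¬ (3 * j + 2) % 3 = 1 := by omega
  have b5 : (3 * j + 2) % 3 = 2 := by omega
  have q0 : fQ W t (3 * j) = fQ W t 0 := fge_hub (by omega)
  have q3 : fQ W t (3 * j + 3) = fQ W t 0 := fge_hub (by omega)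
  have q1 : φ (Sum.inl (1, f21 (3 * j + 1))) = Sum.elim id φ (fQ W t (3 * j + 1)) := by
    rw [fge_mid (by omega)]
    rfl
  have q2 : φ (Sum.inl (1, f21 (3 * j + 2))) = Sum.elim id φ (fQ W t (3 * j + 2)) := by
    rw [fge_mid (by omega)]
    rfl
  have hne : fQ W t 0 ≠ fQ W t (3 * j + 1) := by
    rw [← q0]
    exact (fge_Q (by omega)).symm
  simp only [fback, v0, v1, v2, if_pos a0, if_pos a1, if_pos a2, if_neg h10, if_neg h12, if_neg b1,
    if_neg b2, if_pos b3, if_neg b4, if_pos b5, show 3 * j + 2 - 1 = 3 * j + 1 by omega]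
  rw [insert_val_of_notMem (by simpa using hne), q0, q3, q1, q2]
  simp only [singleton_val, Multiset.map_cons, Multiset.map_singleton, empty_val, Multiset.map_zero,
    zero_add]
  rw [Sym2.eq_swap (a := Sum.elim id φ (fQ W t 0)),
    Sym2.eq_swap (a := Sum.elim id φ (fQ W t (3 * j + 1))) (b := Sum.elim id φ (fQ W t (3 * j + 2)))]
  simp only [Multiset.insert_eq_cons, ← Multiset.singleton_add]
  abel

end

theorem p_FGE :
    S_FGE := by
  intro W _ t k v φ ht _ hk _ hv
  unfold gE
  rw [Fintype.sum_sum_type, Fintype.sum_prod_type, Fintype.sum_prod_type, Fin.sum_univ_three,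
    Fin.sum_univ_two]
  have hA : ∀ a : Fin 3, ∑ i : Fin 21, (fback t v k (Sum.inl (a, i))).val.map
        (fun x => s(φ (Sum.inl (a, i)), Sum.elim id φ x)) =
      ∑ i ∈ range (3 * k), (fback t v k (Sum.inl (a, f21 i))).val.map
        (fun x => s(φ (Sum.inl (a, f21 i)), Sum.elim id φ x)) := fun a =>
    fge_fin hk _ fun i hi => by simp [fback, hi]
  have hB : ∀ c : Fin 2, ∑ y : Fin 21 × Fin t, (fback t v k (Sum.inr (c, y))).val.map
        (fun x => s(φ (Sum.inr (c, y)), Sum.elim id φ x)) =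
      ∑ i ∈ range (3 * k), core (fun j => Sum.elim id φ (fX t v k c (f21 i) j)) t := by
    intro c
    rw [Fintype.sum_prod_type, fge_fin hk _ fun i hi => by simp [fback, hi]]
    refine sum_congr rfl fun i hi => ?_
    rw [mem_range] at hi
    have h := fge_val (i := i) (by omega)
    exact fge_tube φ c _ ht (by rw [h]; exact hi) (by rw [h]; exact hv i hi)
  have hQ : ∑ i ∈ range (3 * k), (fback t v k (Sum.inl (1, f21 i))).val.map
        (fun x => s(φ (Sum.inl (1, f21 i)), Sum.elim id φ x)) =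
      ∑ j ∈ range k, ({s(Sum.elim id φ (fQ W t (3 * j)), Sum.elim id φ (fQ W t (3 * j + 1))),
        s(Sum.elim id φ (fQ W t (3 * j + 1)), Sum.elim id φ (fQ W t (3 * j + 2))),
        s(Sum.elim id φ (fQ W t (3 * j + 2)), Sum.elim id φ (fQ W t (3 * j + 3)))} :
          Multiset (Sym2 W)) := by
    rw [fge_three]
    exact sum_congr rfl fun j hj => fge_Qs φ hk (mem_range.1 hj)
  have h4 : ∀ a b c d : Sym2 W, ({a, b, c, d} : Multiset (Sym2 W)) = {a, b} + {c, d} := by
    intro a b c d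
    rfl
  rw [hA, hA, hA, hB, hB, hQ, sum_congr rfl fun i hi => fge_P φ hk (mem_range.1 hi),
    sum_congr rfl fun i hi => fge_R φ hk (mem_range.1 hi)]
  simp only [h4, sum_add_distrib]
  abel

end Pool.Agent.P.MP_224820_co.St
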