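import Pool.Agent.P.MP_224820_co.St.IfaceM

/-! Step FINAL. -/

set_option autoImplicit false

namespace Pool.Agent.P.MP_224820_co.St

open Finset Filter Topology

theorem p_FINAL (hONE : S_ONE) (hZERO : S_ZERO) (hBRIDGE : S_BRIDGE) :
    S_FINAL := by
  intro ε hε p hp
  have hP : ∀ n, IsP (fun _ : Finset (Fin n) => p n) := fun n _ => hp n
  refine ⟨fun h => ?_, fun h => ?_⟩
  · refine Metric.tendsto_nhds.2 fun δ hδ => eventually_inf_principal.2 ?_
    obtain ⟨n0, h0⟩ := hZERO (2 * ε) (δ / 2) (by linarith) (by linarith)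
    filter_upwards [h, eventually_ge_atTop n0] with n h1 h2 _
    have h3 := h0 n h2 (p n) (hp n).1 (h1.trans_eq (by ring))
    rw [hBRIDGE, Real.dist_eq, sub_zero, abs_of_nonneg (Pr_nonneg (hP n) _)]
    linarith
  · refine Metric.tendsto_nhds.2 fun δ hδ => eventually_inf_principal.2 ?_
    obtain ⟨n0, h0⟩ := hONE (2 * ε) (δ / 2) (by linarith) (by linarith)
    filter_upwards [h, eventually_ge_atTop n0] with n h1 h2 hn
    have h3 := h0 n h2 hn (p n) (le_of_eq_of_le (by ring) h1) (hp n).2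
    rw [Pr_not] at h3
    rw [hBRIDGE, Real.dist_eq, abs_sub_comm, abs_of_nonneg (sub_nonneg.2 (Pr_le_one (hP n) _))]
    linarith

end Pool.Agent.P.MP_224820_co.St
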