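import Pool.Agent.P.MP_224820_co.St.IfaceA

/-! Step FOLD. -/

set_option autoImplicit false

namespace Pool.Agent.P.MP_224820_co.St

open Finset

theorem fold_three {M : Type} [AddCommMonoid M] (f : ℕ → M) (k : ℕ) :
    ∑ j ∈ range k, (f (3 * j) + f (3 * j + 1) + f (3 * j + 2)) = ∑ i ∈ range (3 * k), f i := by
  induction k with
  | zero => simp
  | succ k ih =>
    rw [sum_range_succ, ih, show 3 * (k + 1) = 3 * k + 1 + 1 + 1 by ring, sum_range_succ,
      sum_range_succ, sum_range_succ]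
    simp only [add_assoc]

theorem fold_abs {W : Type} (k : ℕ) (v P Q R : ℕ → W) (c0 c1 : ℕ → Multiset (Sym2 W))
    (hv : v (3 * k) = v 0) (hQ0 : Q (3 * k) = Q 0) (hQ : ∀ j, Q (3 * j + 3) = Q (3 * j))
    (h0p : ∀ i < 3 * k, FD (c0 i + {s(v i, P i), s(P i, Q i), s(Q i, R i), s(R i, v (i + 1))}))
    (h0c : ∀ i < 3 * k, FD (c0 i + {s(v i, v (i + 1))}))
    (h1p : ∀ i < 3 * k, FD (c1 i + {s(Q i, R i), s(R i, v (i + 1)),
      s(v (i + 1), P ((i + 1) % (3 * k))), s(P ((i + 1) % (3 * k)), Q (i + 1))}))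
    (h1c : ∀ i < 3 * k, FD (c1 i + {s(Q i, Q (i + 1))}))
    (E : Multiset (Sym2 W))
    (hE : E = ∑ i ∈ range (3 * k), (c0 i + c1 i
        + ({s(v i, P i), s(P i, Q i), s(Q i, R i), s(R i, v (i + 1))} : Multiset (Sym2 W)))
      + ∑ j ∈ range k, ({s(Q (3 * j), Q (3 * j + 1)), s(Q (3 * j + 1), Q (3 * j + 2)),
        s(Q (3 * j + 2), Q (3 * j + 3))} : Multiset (Sym2 W))) :
    FD E ∧ FD (E + ∑ i ∈ range (3 * k), {s(v i, v (i + 1))}) := by
  constructor
  · have h1 : ∑ j ∈ range k, ({s(Q (3 * j), Q (3 * j + 1)), s(Q (3 * j + 1), Q (3 * j + 2)),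
        s(Q (3 * j + 2), Q (3 * j + 3))} : Multiset (Sym2 W))
        = ∑ i ∈ range (3 * k), ({s(Q i, Q (i + 1))} : Multiset (Sym2 W)) := by
      rw [← fold_three]
      refine sum_congr rfl fun j _ => ?_
      simp only [Multiset.insert_eq_cons, ← Multiset.singleton_add, add_assoc]
    have h2 : E = ∑ i ∈ range (3 * k), ((c0 i
        + ({s(v i, P i), s(P i, Q i), s(Q i, R i), s(R i, v (i + 1))} : Multiset (Sym2 W)))
        + (c1 i + {s(Q i, Q (i + 1))})) := by
      rw [hE, h1, ← sum_add_distrib]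
      refine sum_congr rfl fun i _ => ?_
      abel
    rw [h2]
    exact FD_sum _ _ fun i hi => FD_add (h0p i (mem_range.1 hi)) (h1c i (mem_range.1 hi))
  · let G : ℕ → Multiset (Sym2 W) := fun i => {s(v i, P (i % (3 * k))), s(P (i % (3 * k)), Q i)}
    have hG : ∑ i ∈ range (3 * k), G (i + 1) = ∑ i ∈ range (3 * k), G i := by
      have a := sum_range_succ G (3 * k)
      have b := sum_range_succ' G (3 * k)
      have c : G (3 * k) = G 0 := by
        simp only [G, Nat.mod_self, Nat.zero_mod, hv, hQ0]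
      rw [a, c] at b
      exact (add_right_cancel b).symm
    have h1 : ∑ i ∈ range (3 * k), (c0 i + c1 i
        + ({s(v i, P i), s(P i, Q i), s(Q i, R i), s(R i, v (i + 1))} : Multiset (Sym2 W)))
        = ∑ i ∈ range (3 * k), (c0 i + c1 i + {s(Q i, R i), s(R i, v (i + 1))})
          + ∑ i ∈ range (3 * k), G i := by
      rw [← sum_add_distrib]
      refine sum_congr rfl fun i hi => ?_
      simp only [G, Nat.mod_eq_of_lt (mem_range.1 hi), Multiset.insert_eq_cons,
        ← Multiset.singleton_add]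
      abel
    have h2 : E + ∑ i ∈ range (3 * k), {s(v i, v (i + 1))}
        = ∑ i ∈ range (3 * k), ((c0 i + {s(v i, v (i + 1))}) + (c1 i + {s(Q i, R i), s(R i, v (i + 1)),
          s(v (i + 1), P ((i + 1) % (3 * k))), s(P ((i + 1) % (3 * k)), Q (i + 1))}))
        + ∑ j ∈ range k, ({s(Q (3 * j), Q (3 * j + 1)), s(Q (3 * j + 1), Q (3 * j + 2)),
          s(Q (3 * j + 2), Q (3 * j + 3))} : Multiset (Sym2 W)) := by
      rw [hE, h1, ← hG, add_right_comm, ← sum_add_distrib, ← sum_add_distrib]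
      congr 1
      refine sum_congr rfl fun i _ => ?_
      simp only [G, Multiset.insert_eq_cons, ← Multiset.singleton_add]
      abel
    rw [h2]
    refine FD_add (FD_sum _ _ fun i hi => FD_add (h0c i (mem_range.1 hi)) (h1p i (mem_range.1 hi)))
      (FD_sum _ _ fun j _ => ?_)
    rw [hQ j]
    exact FD_tri _ _ _

theorem fold_X {W : Type} (t : ℕ) (v : ℕ → W) (k : ℕ) (c : Fin 2) {i : ℕ} (hi : i < 21) {j : ℕ}
    (hj : j < 5) : fX t v k c (f21 i) j = fB t v k c i j := by
  unfold fX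
  rw [dif_neg (by omega)]
  simp only [f21, Nat.mod_eq_of_lt hi]

theorem p_FOLD (hTUBE : S_TUBE) (hFGE : S_FGE) :
    S_FOLD := by
  intro W _ t k v φ ht hk1 hk7 hv hne
  have key : ∀ (c : Fin 2) (i : ℕ), i < 3 * k → ∀ j < 5,
      fX t v k c (f21 i) j = fB t v k c i j := fun c i hi j hj => fold_X t v k c (by omega) hj
  refine fold_abs k v (fun i => Sum.elim id φ (fP W t i)) (fun i => Sum.elim id φ (fQ W t i))
    (fun i => Sum.elim id φ (fR W t i))
    (fun i => core (fun j => Sum.elim id φ (fX t v k 0 (f21 i) j)) t)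
    (fun i => core (fun j => Sum.elim id φ (fX t v k 1 (f21 i) j)) t) hv ?_ ?_ ?_ ?_ ?_ ?_ _
    (hFGE W t k v φ ht hk1 hk7 hv hne)
  · simp only [fQ, Nat.mul_mod_right, if_true, Nat.zero_mod]
  · intro j
    have h1 : (3 * j + 3) % 3 = 0 := by omega
    simp only [fQ, Nat.mul_mod_right, if_true, h1]
  · intro i hi
    have h := (hTUBE W (fun j => Sum.elim id φ (fX t v k 0 (f21 i) j)) t).1
    simp only [key 0 i hi 0 (by omega), key 0 i hi 1 (by omega), key 0 i hi 2 (by omega),
      key 0 i hi 3 (by omega), key 0 i hi 4 (by omega)] at h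
    simpa [fB] using h
  · intro i hi
    have h := (hTUBE W (fun j => Sum.elim id φ (fX t v k 0 (f21 i) j)) t).2
    simp only [key 0 i hi 0 (by omega), key 0 i hi 4 (by omega)] at h
    simpa [fB] using h
  · intro i hi
    have h := (hTUBE W (fun j => Sum.elim id φ (fX t v k 1 (f21 i) j)) t).1
    simp only [key 1 i hi 0 (by omega), key 1 i hi 1 (by omega), key 1 i hi 2 (by omega),
      key 1 i hi 3 (by omega), key 1 i hi 4 (by omega)] at h
    simpa [fB] using h
  · intro i hi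
    have h := (hTUBE W (fun j => Sum.elim id φ (fX t v k 1 (f21 i) j)) t).2
    simp only [key 1 i hi 0 (by omega), key 1 i hi 4 (by omega)] at h
    simpa [fB] using h

end Pool.Agent.P.MP_224820_co.St
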