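import Pool.Agent.P.MP_224820_co.St.IfaceA

/-! Step FSA. -/

set_option autoImplicit false

namespace Pool.Agent.P.MP_224820_co.St

open Finset

/-- the walk index of a free vertex of a fold -/
def fsa_idx {t : ℕ} : FU t → ℕ
  | Sum.inl (_, i) => i
  | Sum.inr (_, i, _) => i

/-- the rank of a free vertex of a fold -/
def fsa_rk {t : ℕ} : FU t → ℕ
  | Sum.inl (a, i) => if a = 1 then (i : ℕ) % 3 else 3
  | Sum.inr (_, _, j) => 4 + j

lemma fsa_rk_base {t : ℕ} (b : Fin 3 × Fin 21) : fsa_rk (t := t) (Sum.inl b) ≤ 3 := by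
  obtain ⟨a, i⟩ := b
  simp only [fsa_rk]
  split_ifs
  · omega
  · exact le_rfl

lemma fsa_fB_inl {W : Type} {t : ℕ} {v : ℕ → W} {k : ℕ} {c : Fin 2} {i j : ℕ} {x : W}
    (h : Sum.inl x = fB t v k c i j) : x = v i ∨ x = v (i + 1) := by
  unfold fB fP fQ fR at h
  split_ifs at h <;> simp_all

lemma fsa_fB_inr {W : Type} {t : ℕ} {v : ℕ → W} {k : ℕ} {c : Fin 2} {i j : ℕ} {w : FU t}
    (h : Sum.inr w = fB t v k c i j) : ∃ b, w = Sum.inl b := by
  unfold fB fP fQ fR at h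
  split_ifs at h <;> exact ⟨_, Sum.inr.inj h⟩

lemma fsa_fX_inl {W : Type} {t : ℕ} {v : ℕ → W} {k : ℕ} {c : Fin 2} {i : Fin 21} {p : ℕ} {x : W}
    (h : Sum.inl x = fX t v k c i p) :
    (x = v i ∨ x = v (i + 1)) ∧ ¬ (5 ≤ p ∧ p - 5 < t) := by
  unfold fX at h
  split_ifs at h with hp
  exact ⟨fsa_fB_inl h, hp⟩

lemma fsa_fX_inr {W : Type} {t : ℕ} {v : ℕ → W} {k : ℕ} {c : Fin 2} {i : Fin 21} {p : ℕ}
    {w : FU t} (h : Sum.inr w = fX t v k c i p) :
    (∃ j : Fin t, w = Sum.inr (c, i, j) ∧ (j : ℕ) + 5 = p) ∨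
      ((∃ b, w = Sum.inl b) ∧ ¬ (5 ≤ p ∧ p - 5 < t)) := by
  unfold fX at h
  split_ifs at h with hp
  · left
    refine ⟨⟨p - 5, hp.2⟩, Sum.inr.inj h, ?_⟩
    have := hp.1
    simp only
    omega
  · right
    exact ⟨fsa_fB_inr h, hp⟩

/-- members of the back set of a tube vertex -/
lemma fsa_tube {W : Type} [DecidableEq W] {t : ℕ} {v : ℕ → W} {k : ℕ} {c : Fin 2} {i : Fin 21}
    {j : Fin t} {x : W ⊕ FU t} (h : x ∈ fback t v k (Sum.inr (c, i, j))) :
    (i : ℕ) < 3 * k ∧ ∃ p, x = fX t v k c i p ∧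
      (p = j + 4 ∨ p = j + 1 ∨ p = j ∨ (p = t ∧ (j : ℕ) + 3 = t) ∨ (p = t + 2 ∧ (j : ℕ) + 1 = t)) := by
  simp only [fback] at h
  by_cases hi : (i : ℕ) < 3 * k
  · refine ⟨hi, ?_⟩
    rw [if_pos hi] at h
    rcases mem_union.1 h with h | h
    · rcases mem_union.1 h with h | h
      · simp only [mem_insert, mem_singleton] at h
        rcases h with h | h | h
        · exact ⟨_, h, Or.inl rfl⟩
        · exact ⟨_, h, Or.inr (Or.inl rfl)⟩
        · exact ⟨_, h, Or.inr (Or.inr (Or.inl rfl))⟩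
      · split_ifs at h with h3
        · exact ⟨_, mem_singleton.1 h, Or.inr (Or.inr (Or.inr (Or.inl ⟨rfl, h3⟩)))⟩
        · simp at h
    · split_ifs at h with h1
      · exact ⟨_, mem_singleton.1 h, Or.inr (Or.inr (Or.inr (Or.inr ⟨rfl, h1⟩)))⟩
      · simp at h
  · rw [if_neg hi] at h
    simp at h

lemma fsa_root {W : Type} [DecidableEq W] {t : ℕ} {v : ℕ → W} {k : ℕ} {u : FU t} {x : W}
    (h : Sum.inl x ∈ fback t v k u) :
    fsa_idx u < 3 * k ∧ (x = v (fsa_idx u) ∨ x = v (fsa_idx u + 1)) := by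
  rcases u with ⟨a, i⟩ | ⟨c, i, j⟩
  · simp only [fback, fQ] at h
    simp only [fsa_idx]
    split_ifs at h <;> simp_all
  · obtain ⟨hi, p, hp, -⟩ := fsa_tube h
    exact ⟨hi, (fsa_fX_inl hp).1⟩

lemma fsa_acyc {W : Type} [DecidableEq W] {t : ℕ} {v : ℕ → W} {k : ℕ} (u w : FU t)
    (h : Sum.inr w ∈ fback t v k u) : fsa_rk w < fsa_rk u := by
  rcases u with ⟨a, i⟩ | ⟨c, i, j⟩
  · simp only [fback] at h
    have hQ : ∀ m, (Sum.inr w : W ⊕ FU t) = fQ W t m → fsa_rk w = m % 3 ∨ (fsa_rk w = 0) := by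
      intro m hm
      unfold fQ at hm
      rw [Sum.inr.inj hm]
      simp only [fsa_rk, f21, if_true]
      split_ifs <;> omega
    have hQ0 : (Sum.inr w : W ⊕ FU t) = fQ W t 0 → fsa_rk w = 0 := by
      intro hm
      rcases hQ 0 hm with h | h <;> omega
    split_ifs at h with h1 h2 h3 h4 h5
    · subst h2
      simp only [mem_insert, mem_singleton, reduceCtorEq, false_or] at h
      have := hQ _ h
      have h3 : fsa_rk (t := t) (Sum.inl (0, i)) = 3 := by simp [fsa_rk]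
      omega
    · subst h3
      simp only [mem_insert, mem_singleton, reduceCtorEq, or_false] at h
      have := hQ _ h
      have h3 : fsa_rk (t := t) (Sum.inl (2, i)) = 3 := by simp [fsa_rk]
      omega
    · have := hQ0 (mem_singleton.1 h)
      simp only [fsa_rk] at this ⊢
      split_ifs <;> omega
    · have ha : a = 1 := by omega
      subst ha
      have h3 : fsa_rk (t := t) (Sum.inl (1, i)) = 2 := by simp [fsa_rk, h5]
      simp only [mem_insert, mem_singleton] at h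
      rcases h with h | h
      · have := hQ0 h
        omega
      · have := hQ _ h
        omega
    · simp at h
    · simp at h
  · obtain ⟨-, p, hp, hc⟩ := fsa_tube h
    have h4 : fsa_rk (t := t) (Sum.inr (c, i, j)) = 4 + j := rfl
    rw [h4]
    rcases fsa_fX_inr hp with ⟨j', rfl, hj'⟩ | ⟨⟨b, rfl⟩, -⟩
    · have h5 : fsa_rk (t := t) (Sum.inr (c, i, j')) = 4 + j' := rfl
      rw [h5]
      omega
    · have := fsa_rk_base (t := t) b
      omega

lemma fsa_card_base {W : Type} [DecidableEq W] {t : ℕ} {v : ℕ → W} {k : ℕ} (b : Fin 3 × Fin 21) :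
    (fback t v k (Sum.inl b)).card ≤ 2 := by
  obtain ⟨a, i⟩ := b
  simp only [fback]
  split_ifs <;> first | exact card_le_two | simp

lemma fsa_card_tube {W : Type} [DecidableEq W] {t : ℕ} {v : ℕ → W} {k : ℕ} (c : Fin 2) (i : Fin 21)
    (j : Fin t) : (fback t v k (Sum.inr (c, i, j))).card ≤
      3 + (if (j : ℕ) + 3 = t then 1 else 0) + (if (j : ℕ) + 1 = t then 1 else 0) := by
  simp only [fback]
  by_cases hi : (i : ℕ) < 3 * k
  · rw [if_pos hi]
    refine (card_union_le _ _).trans (Nat.add_le_add ((card_union_le _ _).trans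
      (Nat.add_le_add card_le_three ?_)) ?_)
    · split_ifs <;> simp
    · split_ifs <;> simp
  · rw [if_neg hi]
    simp

lemma fsa_ind {t : ℕ} (d : ℕ) : ∑ j : Fin t, (if (j : ℕ) + d = t then 1 else 0) ≤ 1 := by
  rw [← card_filter]
  refine card_le_one.2 fun a ha b hb => ?_
  have h1 := (mem_filter.1 ha).2
  have h2 := (mem_filter.1 hb).2
  exact Fin.ext (by omega)

lemma fsa_tot {W : Type} [DecidableEq W] {t : ℕ} {v : ℕ → W} {k : ℕ} :
    ∑ u, (fback t v k u).card ≤ 3 * (63 + 42 * t) + 84 := by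
  rw [Fintype.sum_sum_type]
  have h1 : ∑ b : Fin 3 × Fin 21, (fback t v k (Sum.inl b)).card ≤ 126 := by
    refine (sum_le_card_nsmul _ _ 2 fun b _ => fsa_card_base b).trans ?_
    simp
  have h2 : ∀ (c : Fin 2) (i : Fin 21),
      ∑ j : Fin t, (fback t v k (Sum.inr (c, i, j))).card ≤ 3 * t + 2 := by
    intro c i
    refine (sum_le_sum fun j _ => fsa_card_tube c i j).trans ?_
    rw [sum_add_distrib, sum_add_distrib]
    have := fsa_ind (t := t) 3
    have := fsa_ind (t := t) 1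
    have h3 : ∑ _j : Fin t, 3 = 3 * t := by simp [mul_comm]
    omega
  have h3 : ∑ b : Fin 2 × Fin 21 × Fin t, (fback t v k (Sum.inr b)).card ≤ 42 * (3 * t + 2) := by
    rw [Fintype.sum_prod_type]
    refine (sum_le_card_nsmul _ _ (21 * (3 * t + 2)) fun c _ => ?_).trans ?_
    · rw [Fintype.sum_prod_type]
      refine (sum_le_card_nsmul _ _ (3 * t + 2) fun i _ => h2 c i).trans ?_
      simp
    · simp only [card_univ, Fintype.card_fin, smul_eq_mul]
      omega
  omega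

lemma fsa_J {W : Type} [DecidableEq W] {t : ℕ} {v : ℕ → W} {k : ℕ} (ht : 10 ≤ t) (x : W ⊕ FU t) :
    ∃ J : Finset ℕ, J.card ≤ 5 ∧ ∀ (c : Fin 2) (i : Fin 21) (j : Fin t),
      x ∈ fback t v k (Sum.inr (c, i, j)) → (j : ℕ) ∈ J := by
  rcases x with x | b | ⟨c', i', j'⟩
  · refine ⟨range 5, by simp, fun c i j h => ?_⟩
    obtain ⟨-, p, hp, hc⟩ := fsa_tube h
    have h1 := (fsa_fX_inl hp).2
    have := j.2
    rw [mem_range]
    omega
  · refine ⟨range 5, by simp, fun c i j h => ?_⟩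
    obtain ⟨-, p, hp, hc⟩ := fsa_tube h
    have := j.2
    rw [mem_range]
    rcases fsa_fX_inr hp with ⟨j', h1, -⟩ | ⟨-, h1⟩
    · simp at h1
    · omega
  · refine ⟨{(j' : ℕ) + 1, (j' : ℕ) + 4, (j' : ℕ) + 5, t - 3, t - 1}, card_le_five, fun c i j h => ?_⟩
    obtain ⟨-, p, hp, hc⟩ := fsa_tube h
    simp only [mem_insert, mem_singleton]
    rcases fsa_fX_inr hp with ⟨j'', h1, h2⟩ | ⟨⟨b, h1⟩, -⟩
    · have h3 : j' = j'' := by
        simp only [Sum.inr.injEq, Prod.mk.injEq] at h1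
        exact h1.2.2
      subst h3
      omega
    · simp at h1

lemma fsa_inn {W : Type} [DecidableEq W] {t : ℕ} {v : ℕ → W} {k : ℕ} (ht : 10 ≤ t) (x : W ⊕ FU t)
    (S : Finset (FU t)) (hS : ∀ u ∈ S, x ∈ fback t v k u) : S.card ≤ 300 := by
  obtain ⟨J, hJ, h⟩ := fsa_J (v := v) (k := k) ht x
  let g : FU t → (Fin 3 × Fin 21) ⊕ (Fin 2 × Fin 21 × ℕ) :=
    Sum.map id fun y => (y.1, y.2.1, (y.2.2 : ℕ))
  have hg : Function.Injective g := by
    refine Function.Injective.sumMap Function.injective_id ?_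
    rintro ⟨c, i, j⟩ ⟨c', i', j'⟩ he
    simp only [Prod.mk.injEq] at he
    obtain ⟨rfl, rfl, he⟩ := he
    rw [Fin.ext he]
  have hle : S.card ≤
      ((univ : Finset (Fin 3 × Fin 21)).disjSum
        ((univ : Finset (Fin 2)) ×ˢ (univ : Finset (Fin 21)) ×ˢ J)).card := by
    refine card_le_card_of_injOn g (fun u hu => ?_) hg.injOn
    have hu' := hS u (mem_coe.1 hu)
    rcases u with b | ⟨c, i, j⟩
    · simp [g]
    · have := h c i j hu'
      simp [g, this]
  refine hle.trans ?_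
  simp only [card_disjSum, card_product, card_univ, Fintype.card_prod, Fintype.card_fin]
  omega

lemma fsa_mem_rts {V U : Type} [Fintype V] [DecidableEq V] [Fintype U] [DecidableEq U]
    (back : U → Finset (V ⊕ U)) (x : V) : x ∈ rts back ↔ ∃ u, Sum.inl x ∈ back u := by
  simp [rts]

lemma fsa_mem_rb {V U : Type} [Fintype V] [DecidableEq V] [Fintype U] [DecidableEq U]
    (back : U → Finset (V ⊕ U)) (u : U) (x : V) : x ∈ rb back u ↔ Sum.inl x ∈ back u := by
  simp [rb]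

theorem p_FSA :
    S_FSA := by
  intro V _ _ t k v ht hk1 hk7 hv
  have hr : ∀ x ∈ rts (fback t v k), ∃ i < 3 * k, x = v i := by
    intro x hx
    obtain ⟨u, hu⟩ := (fsa_mem_rts _ _).1 hx
    obtain ⟨h1, h2 | h2⟩ := fsa_root hu
    · exact ⟨_, h1, h2⟩
    · by_cases h3 : fsa_idx u + 1 = 3 * k
      · exact ⟨0, by omega, by rw [h2, h3, hv]⟩
      · exact ⟨_, by omega, h2⟩
  refine ⟨?_, ⟨⟨fsa_rk, fsa_acyc⟩, ?_, ?_,
    fun x => fsa_inn ht x _ fun u hu => (@mem_filter _ _ (_) _ _).1 hu |>.2, ?_, fsa_tot⟩, ?_, hr, ?_⟩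
  · simp only [Fintype.card_sum, Fintype.card_prod, Fintype.card_fin]
    omega
  · have hs : rts (fback t v k) ⊆ (range (3 * k)).image v := by
      intro x hx
      obtain ⟨i, hi, rfl⟩ := hr x hx
      exact mem_image_of_mem _ (mem_range.2 hi)
    have := (card_le_card hs).trans card_image_le
    rw [card_range] at this
    omega
  · rintro (b | ⟨c, i, j⟩)
    · exact (fsa_card_base b).trans (by norm_num)
    · refine (fsa_card_tube c i j).trans ?_
      split_ifs <;> norm_num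
  · intro u
    have hs : rb (fback t v k) u ⊆ {v (fsa_idx u), v (fsa_idx u + 1)} := by
      intro x hx
      simpa using (fsa_root ((fsa_mem_rb _ _ _).1 hx)).2
    exact (card_le_card hs).trans card_le_two
  · refine (fsa_mem_rts _ _).2 ⟨Sum.inl (0, 0), ?_⟩
    have h0 : 0 < 3 * k := by omega
    simp [fback, h0]
  · intro u x y hxy hx hy
    obtain ⟨h1, h2⟩ := fsa_root ((fsa_mem_rb _ _ _).1 hx)
    obtain ⟨-, h3⟩ := fsa_root ((fsa_mem_rb _ _ _).1 hy)
    refine ⟨_, h1, ?_⟩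
    rcases h2 with h2 | h2 <;> rcases h3 with h3 | h3
    · exact absurd (h2.trans h3.symm) hxy
    · rw [← h2, ← h3]
    · rw [← h2, ← h3, Sym2.eq_swap]
    · exact absurd (h2.trans h3.symm) hxy

end Pool.Agent.P.MP_224820_co.St
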