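import Pool.Agent.P.MP_224820_co.St.IfaceA

/-! Step FSB. -/

set_option autoImplicit false

namespace Pool.Agent.P.MP_224820_co.St

open Finset

/-- rank of the free vertices of a fold, the tube `(c, i)` being cut at `g c i` -/
def fsbR (t : ℕ) (g : Fin 2 → Fin 21 → ℕ) : FU t → ℕ
  | Sum.inl (a, i) => if a = 1 then (i : ℕ) % 3 else 3
  | Sum.inr (c, i, j) => if (j : ℕ) < g c i then 4 + j else 4 + 2 * t - j

theorem fsb_cnt {V U : Type} [Fintype V] [DecidableEq V] [Fintype U] [DecidableEq U]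
    (back : U → Finset (V ⊕ U)) (I : Finset U) (u : U) (P : U → Prop)
    (h : ∀ w ∈ I, P w → Sum.inr w ∈ back u) : (rb back u).card + cnt I P ≤ (back u).card := by
  classical
  unfold cnt
  rw [← card_disjSum]
  apply card_le_card
  intro x hx
  rcases x with x | x
  · simpa [rb] using hx
  · rw [inr_mem_disjSum, mem_filter] at hx
    exact h x hx.1 hx.2

theorem fsb_B {V : Type} (t : ℕ) (v : ℕ → V) (k : ℕ) (c : Fin 2) (i j : ℕ)
    (y : Fin 2 × Fin 21 × Fin t) : fB t v k c i j ≠ Sum.inr (Sum.inr y) := by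
  unfold fB fP fQ fR
  split_ifs <;> simp

theorem fsb_X {V : Type} (t : ℕ) (v : ℕ → V) (k : ℕ) (c : Fin 2) (i : Fin 21) (m : ℕ)
    (hm : m < t + 5) (x : V ⊕ FU t) (h : x = fX t v k c i m) :
    (m < 5 ∧ ∀ y, x ≠ Sum.inr (Sum.inr y)) ∨
      ∃ j : Fin t, x = Sum.inr (Sum.inr (c, i, j)) ∧ (j : ℕ) + 5 = m := by
  unfold fX at h
  split_ifs at h with h1
  · right
    exact ⟨_, h, by simp only; omega⟩
  · left
    refine ⟨by omega, fun y => ?_⟩
    rw [h]
    exact fsb_B t v k c i m y

theorem fsb_tube {V : Type} [DecidableEq V] (t : ℕ) (ht : 10 ≤ t) (v : ℕ → V) (k : ℕ) (c : Fin 2)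
    (i : Fin 21) (j : Fin t) (x : V ⊕ FU t) (h : x ∈ fback t v k (Sum.inr (c, i, j))) :
    ((j : ℕ) < 5 ∧ ∀ y, x ≠ Sum.inr (Sum.inr y)) ∨
      ∃ j' : Fin t, x = Sum.inr (Sum.inr (c, i, j')) ∧ ((j' : ℕ) + 1 = j ∨ (j' : ℕ) + 4 = j ∨
        (j' : ℕ) + 5 = j ∨ ((j' : ℕ) + 2 = j ∧ ((j : ℕ) + 3 = t ∨ (j : ℕ) + 1 = t))) := by
  have hj := j.2
  simp only [fback] at h
  by_cases hi : (i : ℕ) < 3 * k
  · rw [if_pos hi] at h
    simp only [mem_union, mem_insert, mem_singleton] at h
    rcases h with ((h | h | h) | h) | h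
    · rcases fsb_X t v k c i _ (by omega) x h with h | ⟨j', h1, h2⟩
      · exact Or.inl ⟨by omega, h.2⟩
      · exact Or.inr ⟨j', h1, by omega⟩
    · rcases fsb_X t v k c i _ (by omega) x h with h | ⟨j', h1, h2⟩
      · exact Or.inl ⟨by omega, h.2⟩
      · exact Or.inr ⟨j', h1, by omega⟩
    · rcases fsb_X t v k c i _ (by omega) x h with h | ⟨j', h1, h2⟩
      · exact Or.inl ⟨by omega, h.2⟩
      · exact Or.inr ⟨j', h1, by omega⟩
    · split_ifs at h with h3
      · rw [mem_singleton] at h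
        rcases fsb_X t v k c i _ (by omega) x h with h | ⟨j', h1, h2⟩
        · omega
        · exact Or.inr ⟨j', h1, by omega⟩
      · simp at h
    · split_ifs at h with h3
      · rw [mem_singleton] at h
        rcases fsb_X t v k c i _ (by omega) x h with h | ⟨j', h1, h2⟩
        · omega
        · exact Or.inr ⟨j', h1, by omega⟩
      · simp at h
  · rw [if_neg hi] at h
    simp at h

theorem fsb_base {V : Type} [DecidableEq V] (t : ℕ) (v : ℕ → V) (k : ℕ) (g : Fin 2 → Fin 21 → ℕ)
    (b : Fin 3 × Fin 21) (w : FU t) (h : Sum.inr w ∈ fback t v k (Sum.inl b)) :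
    (∃ b', w = Sum.inl b') ∧ fsbR t g w < fsbR t g (Sum.inl b) := by
  obtain ⟨a, i⟩ := b
  have hi := i.2
  simp only [fback] at h
  split_ifs at h with h0 h1 h2 h3 h4
  · simp only [fQ, mem_insert, mem_singleton, reduceCtorEq, false_or, Sum.inr.injEq] at h
    subst h h1
    refine ⟨⟨_, rfl⟩, ?_⟩
    simp only [fsbR, if_true, show ¬ ((0 : Fin 3) = 1) by decide, if_false]
    omega
  · simp only [fQ, mem_insert, mem_singleton, reduceCtorEq, or_false, Sum.inr.injEq] at h
    subst h h2
    refine ⟨⟨_, rfl⟩, ?_⟩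
    simp only [fsbR, if_true, show ¬ ((2 : Fin 3) = 1) by decide, if_false]
    omega
  · have ha : a = 1 := by omega
    simp only [fQ, mem_singleton, Sum.inr.injEq] at h
    subst h ha
    refine ⟨⟨_, rfl⟩, ?_⟩
    simp only [fsbR, if_true, f21]
    omega
  · have ha : a = 1 := by omega
    simp only [fQ, mem_insert, mem_singleton, Sum.inr.injEq] at h
    subst ha
    rcases h with h | h
    · subst h
      refine ⟨⟨_, rfl⟩, ?_⟩
      simp only [fsbR, if_true, f21]
      omega
    · subst h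
      refine ⟨⟨_, rfl⟩, ?_⟩
      simp only [fsbR, if_true, f21]
      split_ifs <;> omega
  · simp at h
  · simp at h

theorem fsb_le {t : ℕ} (g : Fin 2 → Fin 21 → ℕ) (b : Fin 3 × Fin 21) :
    fsbR t g (Sum.inl b) ≤ 3 := by
  obtain ⟨a, i⟩ := b
  simp only [fsbR]
  split_ifs <;> omega

theorem fsb_cb {V : Type} [DecidableEq V] (t : ℕ) (v : ℕ → V) (k : ℕ) (b : Fin 3 × Fin 21) :
    (fback t v k (Sum.inl b)).card ≤ 3 := by
  obtain ⟨a, i⟩ := b
  simp only [fback]
  split_ifs
  · exact (card_le_two).trans (by norm_num)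
  · exact (card_le_two).trans (by norm_num)
  · simp
  · exact (card_le_two).trans (by norm_num)
  · simp
  · simp

theorem fsb_ct {V : Type} [DecidableEq V] (t : ℕ) (v : ℕ → V) (k : ℕ) (c : Fin 2)
    (i : Fin 21) (j : Fin t) : (fback t v k (Sum.inr (c, i, j))).card ≤
      if (j : ℕ) + 3 = t ∨ (j : ℕ) + 1 = t then 4 else 3 := by
  simp only [fback]
  by_cases hi : (i : ℕ) < 3 * k
  · rw [if_pos hi]
    have h3 : ({fX t v k c i (j + 4), fX t v k c i (j + 1), fX t v k c i j} :
        Finset (V ⊕ FU t)).card ≤ 3 := card_le_three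
    refine (card_union_le _ _).trans ((Nat.add_le_add_right (card_union_le _ _) _).trans ?_)
    by_cases h1 : (j : ℕ) + 3 = t
    · rw [if_pos h1, if_neg (by omega), if_pos (Or.inl h1), card_singleton, card_empty]
      omega
    · by_cases h2 : (j : ℕ) + 1 = t
      · rw [if_neg h1, if_pos h2, if_pos (Or.inr h2), card_singleton, card_empty]
        omega
      · rw [if_neg h1, if_neg h2, if_neg (by omega), card_empty]
        omega
  · rw [if_neg hi, card_empty]
    exact Nat.zero_le _

/-- a back edge inside `I` goes down in rank on the left of the cut and up on the right -/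
theorem fsb_edge {V : Type} [DecidableEq V] (t : ℕ) (ht : 10 ≤ t) (v : ℕ → V) (k : ℕ)
    (g : Fin 2 → Fin 21 → ℕ) (I : Finset (FU t))
    (hg : ∀ c i j, Sum.inr (c, i, j) ∈ I → (j : ℕ) < g c i ∨ g c i + 5 ≤ j)
    (u : FU t) (hu : u ∈ I) (w : FU t) (hw : w ∈ I) (h : Sum.inr w ∈ fback t v k u) :
    (fsbR t g w < fsbR t g u ∧ (∀ c i j, u = Sum.inr (c, i, j) → (j : ℕ) < g c i) ∧
      ∀ c i j, w = Sum.inr (c, i, j) → (j : ℕ) < g c i) ∨
    (fsbR t g u < fsbR t g w ∧ ∃ c i j j', u = Sum.inr (c, i, j) ∧ w = Sum.inr (c, i, j') ∧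
      g c i + 5 ≤ j' ∧ ((j' : ℕ) + 1 = j ∨ (j' : ℕ) + 4 = j ∨
        (j' : ℕ) + 5 = j ∨ ((j' : ℕ) + 2 = j ∧ ((j : ℕ) + 3 = t ∨ (j : ℕ) + 1 = t)))) := by
  rcases u with b | ⟨c, i, j⟩
  · obtain ⟨⟨b', rfl⟩, h2⟩ := fsb_base t v k g b w h
    exact Or.inl ⟨h2, by simp, by simp⟩
  · have hj := j.2
    have hu' := hg c i j hu
    rcases fsb_tube t ht v k c i j _ h with ⟨h1, h2⟩ | ⟨j', h1, h2⟩
    · rcases w with b | y
      · have h3 := fsb_le (t := t) g b
        have h4 : (j : ℕ) < g c i := by omega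
        refine Or.inl ⟨?_, ?_, by simp⟩
        · simp only [fsbR, if_pos h4] at h3 ⊢
          omega
        · intro c' i' j' he
          simp only [Sum.inr.injEq, Prod.mk.injEq] at he
          obtain ⟨rfl, rfl, rfl⟩ := he
          exact h4
      · exact absurd rfl (h2 y)
    · simp only [Sum.inr.injEq] at h1
      subst h1
      have hw' := hg c i j' hw
      have hj' := j'.2
      by_cases h4 : (j : ℕ) < g c i
      · have h5 : (j' : ℕ) < g c i := by omega
        refine Or.inl ⟨?_, ?_, ?_⟩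
        · simp only [fsbR, if_pos h4, if_pos h5]
          omega
        · intro c' i' j'' he
          simp only [Sum.inr.injEq, Prod.mk.injEq] at he
          obtain ⟨rfl, rfl, rfl⟩ := he
          exact h4
        · intro c' i' j'' he
          simp only [Sum.inr.injEq, Prod.mk.injEq] at he
          obtain ⟨rfl, rfl, rfl⟩ := he
          exact h5
      · have h5 : ¬ (j' : ℕ) < g c i := by omega
        refine Or.inr ⟨?_, c, i, j, j', rfl, rfl, by omega, h2⟩
        simp only [fsbR, if_neg h4, if_neg h5]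
        omega

theorem fsb_main {V : Type} [Fintype V] [DecidableEq V] (t : ℕ) (ht : 10 ≤ t) (v : ℕ → V) (k : ℕ)
    (g : Fin 2 → Fin 21 → ℕ) (I : Finset (FU t))
    (hg : ∀ c i j, Sum.inr (c, i, j) ∈ I → (j : ℕ) < g c i ∨ g c i + 5 ≤ j) :
    (∀ u ∈ I, ∀ w ∈ I, adjF (fback t v k) u w → fsbR t g u ≠ fsbR t g w) ∧
    ∀ u ∈ I, (rb (fback t v k) u).card
        + cnt I (fun w => adjF (fback t v k) u w ∧ fsbR t g w < fsbR t g u) ≤ 3 ∨
      ((rb (fback t v k) u).card
        + cnt I (fun w => adjF (fback t v k) u w ∧ fsbR t g w < fsbR t g u) ≤ 4 ∧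
        ∃ c i j, u = Sum.inr (c, i, j) ∧ (j : ℕ) < g c i ∧ ((j : ℕ) + 3 = t ∨ (j : ℕ) + 1 = t)) := by
  classical
  refine ⟨fun u hu w hw h => ?_, fun u hu => ?_⟩
  · rcases h with h | h
    · rcases fsb_edge t ht v k g I hg u hu w hw h with h | h
      · exact h.1.ne'
      · exact h.1.ne
    · rcases fsb_edge t ht v k g I hg w hw u hu h with h | h
      · exact h.1.ne
      · exact h.1.ne'
  · by_cases hL : ∀ c i j, u = Sum.inr (c, i, j) → (j : ℕ) < g c i
    · have h1 := fsb_cnt (fback t v k) I u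
        (fun w => adjF (fback t v k) u w ∧ fsbR t g w < fsbR t g u) (by
          rintro w hw ⟨h | h, hr⟩
          · exact h
          · rcases fsb_edge t ht v k g I hg w hw u hu h with h | ⟨-, c, i, j, j', -, h2, h3, -⟩
            · omega
            · have := hL c i j' h2
              omega)
      rcases u with b | ⟨c, i, j⟩
      · exact Or.inl (h1.trans (fsb_cb t v k b))
      · have h2 := fsb_ct t v k c i j
        split_ifs at h2 with h3
        · exact Or.inr ⟨h1.trans h2, c, i, j, rfl, hL c i j rfl, h3⟩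
        · exact Or.inl (h1.trans h2)
    · push Not at hL
      obtain ⟨c, i, j, rfl, hj⟩ := hL
      have hu' := hg c i j hu
      left
      have h0 : rb (fback t v k) (Sum.inr (c, i, j)) = ∅ := by
        rw [eq_empty_iff_forall_notMem]
        intro x hx
        simp only [rb, mem_filter, mem_univ, true_and] at hx
        rcases fsb_tube t ht v k c i j _ hx with ⟨h1, -⟩ | ⟨j', h1, -⟩
        · omega
        · simp at h1
      rw [h0, card_empty, zero_add]
      unfold cnt
      have key : ∀ w ∈ I.filter (fun w => adjF (fback t v k) (Sum.inr (c, i, j)) w ∧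
          fsbR t g w < fsbR t g (Sum.inr (c, i, j))), ∃ j' : Fin t, w = Sum.inr (c, i, j') ∧
          ((j' : ℕ) = j + 1 ∨ (j' : ℕ) = j + 4 ∨
            (j' : ℕ) = if (j : ℕ) + 5 < t then (j : ℕ) + 5 else j + 2) := by
        intro w hw
        rw [mem_filter] at hw
        obtain ⟨hw, h | h, hr⟩ := hw
        · rcases fsb_edge t ht v k g I hg _ hu w hw h with h | h
          · have := h.2.1 c i j rfl
            omega
          · omega
        · rcases fsb_edge t ht v k g I hg w hw _ hu h with h | ⟨-, c', i', j', j'', h1, h2, -, h4⟩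
          · omega
          · simp only [Sum.inr.injEq, Prod.mk.injEq] at h2
            obtain ⟨rfl, rfl, rfl⟩ := h2
            refine ⟨j', h1, ?_⟩
            have := j'.2
            split_ifs <;> omega
      refine (card_le_card_of_injOn (t := ({(j : ℕ) + 1, (j : ℕ) + 4,
          if (j : ℕ) + 5 < t then (j : ℕ) + 5 else j + 2} : Finset ℕ))
        (Sum.elim (fun _ => 0) (fun y : Fin 2 × Fin 21 × Fin t => (y.2.2 : ℕ))) ?_ ?_).trans
        card_le_three
      · intro w hw
        obtain ⟨j', rfl, h⟩ := key w (by simpa using hw)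
        simpa using h
      · intro w hw w' hw' h
        obtain ⟨j', rfl, -⟩ := key w (by simpa using hw)
        obtain ⟨j'', rfl, -⟩ := key w' (by simpa using hw')
        simp only [Sum.elim_inr] at h
        rw [Fin.ext h]

theorem p_FSB :
    S_FSB := by
  intro V _ _ s k v hs _ _ I
  classical
  have ht : 10 ≤ 5 * s := by omega
  by_cases hA : ∀ (c : Fin 2) (i : Fin 21), ∃ g, g + 5 ≤ 5 * s ∧
      ∀ j : Fin (5 * s), Sum.inr (c, i, j) ∈ I → (j : ℕ) < g ∨ g + 5 ≤ j
  · choose g hg1 hg2 using hA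
    obtain ⟨h1, h2⟩ := fsb_main (5 * s) ht v k g I hg2
    refine ⟨fsbR (5 * s) g, ∅, by simp, Or.inl rfl, h1, fun u hu => ?_⟩
    rw [if_neg (notMem_empty u)]
    rcases h2 u hu with h | ⟨-, c, i, j, -, h3, h4⟩
    · exact h
    · have := hg1 c i
      omega
  · push Not at hA
    obtain ⟨c, i, hA⟩ := hA
    have hB : ∀ a : Fin s, ∃ j : Fin (5 * s), Sum.inr (c, i, j) ∈ I ∧ 5 * (a : ℕ) ≤ j ∧
        (j : ℕ) < 5 * a + 5 := fun a => hA (5 * a) (by have := a.2; omega)
    choose f hf1 hf2 hf3 using hB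
    have hc : s ≤ I.card := by
      have := card_le_card_of_injOn (s := (univ : Finset (Fin s))) (t := I)
        (fun a => Sum.inr (c, i, f a)) (fun a _ => hf1 a) (by
          intro a _ a' _ h
          simp only [Sum.inr.injEq, Prod.mk.injEq, true_and] at h
          have h1 := hf2 a
          have h2 := hf3 a
          have h3 := hf2 a'
          have h4 := hf3 a'
          rw [h] at h1 h2
          exact Fin.ext (by omega))
      simpa using this
    obtain ⟨h1, h2⟩ := fsb_main (5 * s) ht v k (fun _ _ => 5 * s) I (fun _ _ j _ => Or.inl j.2)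
    refine ⟨fsbR (5 * s) (fun _ _ => 5 * s), (univ : Finset (Fin 2 × Fin 21 × Fin 2)).image
      (fun y => Sum.inr (y.1, y.2.1, ⟨5 * s - 1 - 2 * y.2.2, by omega⟩)), ?_, Or.inr hc, h1,
      fun u hu => ?_⟩
    · refine card_image_le.trans ?_
      simp
    · rcases h2 u hu with h | ⟨h, c', i', j, rfl, -, h4⟩
      · refine h.trans ?_
        split_ifs <;> omega
      · rw [if_pos]
        · exact h
        · rw [mem_image]
          rcases h4 with h4 | h4
          · refine ⟨(c', i', 1), mem_univ _, ?_⟩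
            simp only [Sum.inr.injEq, Prod.mk.injEq, true_and]
            exact Fin.ext (by simp only [Fin.val_one]; omega)
          · refine ⟨(c', i', 0), mem_univ _, ?_⟩
            simp only [Sum.inr.injEq, Prod.mk.injEq, true_and]
            exact Fin.ext (by simp only [Fin.val_zero]; omega)

end Pool.Agent.P.MP_224820_co.St
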