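import Pool.Agent.P.MP_224820_co.St.IfaceA

/-! Step GN. -/

set_option autoImplicit false

namespace Pool.Agent.P.MP_224820_co.St

open Finset

theorem gn_nodup_sum {U α : Type} [DecidableEq U] (s : Finset U) (f : U → Multiset α)
    (h1 : ∀ u ∈ s, (f u).Nodup) (h2 : ∀ u ∈ s, ∀ w ∈ s, u ≠ w → Disjoint (f u) (f w)) :
    (∑ u ∈ s, f u).Nodup := by
  induction s using Finset.induction_on with
  | empty => simp
  | insert a s ha ih =>
    rw [sum_insert ha, Multiset.nodup_add]
    refine ⟨h1 a (mem_insert_self a s), ih (fun u hu => h1 u (mem_insert_of_mem hu))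
      (fun u hu w hw => h2 u (mem_insert_of_mem hu) w (mem_insert_of_mem hw)), ?_⟩
    rw [Multiset.disjoint_left]
    intro e he he'
    rw [Multiset.mem_sum] at he'
    obtain ⟨w, hw, hew⟩ := he'
    have hne : a ≠ w := fun h => ha (h ▸ hw)
    exact Multiset.disjoint_left.1 (h2 a (mem_insert_self a s) w (mem_insert_of_mem hw) hne) he hew

theorem gn_mem {V U : Type} [Fintype U] (back : U → Finset (V ⊕ U)) (φ : U → V) (e : Sym2 V) :
    e ∈ gE back φ ↔ ∃ u, ∃ x ∈ back u, s(φ u, Sum.elim id φ x) = e := by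
  unfold gE
  rw [Multiset.mem_sum]
  simp only [mem_univ, true_and, Multiset.mem_map, Finset.mem_val]

theorem gn_card {V U : Type} [Fintype U] (back : U → Finset (V ⊕ U)) (φ : U → V) :
    (gE back φ).card = ∑ u, (back u).card := by
  unfold gE
  rw [Multiset.card_sum]
  simp only [Multiset.card_map, Finset.card_val]

section
variable {V U : Type} [Fintype V] [DecidableEq V] [Fintype U] [DecidableEq U]

/-- a back entry with the same image as a free vertex is that vertex -/
theorem gn_eq_inr {back : U → Finset (V ⊕ U)} {φ : U → V} (hφ : Function.Injective φ)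
    (hr : ∀ u, φ u ∉ rts back) {u w : U} {x : V ⊕ U} (hx : x ∈ back u)
    (h : Sum.elim id φ x = φ w) : x = Sum.inr w := by
  cases x with
  | inl a =>
    exfalso
    apply hr w
    have : a = φ w := h
    rw [← this]
    exact mem_filter.2 ⟨mem_univ _, u, hx⟩
  | inr a =>
    have : φ a = φ w := h
    rw [hφ this]

/-- the image map is injective on back entries -/
theorem gn_img_inj {back : U → Finset (V ⊕ U)} {φ : U → V} (hφ : Function.Injective φ)
    (hr : ∀ u, φ u ∉ rts back) {u w : U} {x x' : V ⊕ U} (hx : x ∈ back u) (hx' : x' ∈ back w)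
    (h : Sum.elim id φ x = Sum.elim id φ x') : x = x' := by
  cases x' with
  | inr b => exact gn_eq_inr hφ hr hx h
  | inl b =>
    cases x with
    | inl a =>
      have : a = b := h
      rw [this]
    | inr a => exact (gn_eq_inr hφ hr hx' h.symm).symm

theorem gn_pair {back : U → Finset (V ⊕ U)} {φ : U → V} (hφ : Function.Injective φ)
    (hr : ∀ u, φ u ∉ rts back) {r : U → ℕ} (hac : ∀ u w, Sum.inr w ∈ back u → r w < r u)
    {u w : U} {x x' : V ⊕ U} (hx : x ∈ back u) (hx' : x' ∈ back w)
    (h : s(φ u, Sum.elim id φ x) = s(φ w, Sum.elim id φ x')) : u = w ∧ x = x' := by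
  rcases Sym2.eq_iff.1 h with ⟨h1, h2⟩ | ⟨h1, h2⟩
  · exact ⟨hφ h1, gn_img_inj hφ hr hx hx' h2⟩
  · exfalso
    have e1 := gn_eq_inr hφ hr hx' h1.symm
    have e2 := gn_eq_inr hφ hr hx h2
    rw [e1] at hx'
    rw [e2] at hx
    have := hac _ _ hx
    have := hac _ _ hx'
    omega

end

theorem p_GN :
    S_GN := by
  intro V U _ _ _ _ back wr D1 emax hG φ hφ hr
  obtain ⟨r, hac⟩ := hG.acyc
  refine ⟨?_, ?_, ?_, gn_card back φ, ?_, ?_⟩
  · unfold gE
    apply gn_nodup_sum
    · intro u _
      refine Multiset.Nodup.map_on ?_ (back u).nodup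
      intro x hx x' hx' h
      exact (gn_pair hφ hr hac hx hx' h).2
    · intro u _ w _ huw
      rw [Multiset.disjoint_left]
      intro e he he'
      obtain ⟨x, hx, rfl⟩ := Multiset.mem_map.1 he
      obtain ⟨x', hx', h⟩ := Multiset.mem_map.1 he'
      exact huw (gn_pair hφ hr hac hx hx' h.symm).1
  · intro e he
    obtain ⟨u, x, hx, rfl⟩ := (gn_mem back φ e).1 he
    rw [Sym2.mk_isDiag_iff]
    intro h
    have e1 := gn_eq_inr hφ hr hx h.symm
    rw [e1] at hx
    exact lt_irrefl _ (hac _ _ hx)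
  · rw [gn_card]
    exact hG.tot
  · intro y
    have hA : (univ.filter fun w => ∃ u, φ u = y ∧ ∃ x ∈ back u, Sum.elim id φ x = w).card ≤ D1 := by
      by_cases h : ∃ u, φ u = y
      · obtain ⟨u0, hu0⟩ := h
        refine le_trans (card_le_card ?_) (le_trans (card_image_le (f := Sum.elim id φ)) (hG.out u0))
        intro w hw
        obtain ⟨u, hu, x, hx, hw⟩ := (mem_filter.1 hw).2
        have : u = u0 := hφ (hu.trans hu0.symm)
        rw [this] at hx
        exact mem_image.2 ⟨x, hx, hw⟩
      · rw [filter_eq_empty_iff.2, card_empty]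
        · exact Nat.zero_le _
        · rintro w - ⟨u, hu, -⟩
          exact h ⟨u, hu⟩
    have hB : (univ.filter fun w => ∃ u, φ u = w ∧ ∃ x ∈ back u, Sum.elim id φ x = y).card ≤ D1 := by
      by_cases h : ∃ u, ∃ x ∈ back u, Sum.elim id φ x = y
      · obtain ⟨u0, x0, hx0, hy0⟩ := h
        refine le_trans (card_le_card ?_) (le_trans (card_image_le (f := φ)) (hG.inn x0))
        intro w hw
        obtain ⟨u, hu, x, hx, hy⟩ := (mem_filter.1 hw).2
        have : x = x0 := gn_img_inj hφ hr hx hx0 (hy.trans hy0.symm)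
        rw [this] at hx
        exact mem_image.2 ⟨u, mem_filter.2 ⟨mem_univ _, hx⟩, hu⟩
      · rw [filter_eq_empty_iff.2, card_empty]
        · exact Nat.zero_le _
        · rintro w - ⟨u, -, x, hx, hy⟩
          exact h ⟨u, x, hx, hy⟩
    have hsub : nb (gE back φ).toFinset y ⊆
        (univ.filter fun w => ∃ u, φ u = y ∧ ∃ x ∈ back u, Sum.elim id φ x = w) ∪
        (univ.filter fun w => ∃ u, φ u = w ∧ ∃ x ∈ back u, Sum.elim id φ x = y) := by
      intro w hw
      have hw' : s(y, w) ∈ gE back φ := Multiset.mem_toFinset.1 (mem_filter.1 hw).2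
      obtain ⟨u, x, hx, h⟩ := (gn_mem back φ _).1 hw'
      rcases Sym2.eq_iff.1 h with ⟨h1, h2⟩ | ⟨h1, h2⟩
      · exact mem_union_left _ (mem_filter.2 ⟨mem_univ _, u, h1, x, hx, h2⟩)
      · exact mem_union_right _ (mem_filter.2 ⟨mem_univ _, u, h1, x, hx, h2⟩)
    have := (card_le_card hsub).trans (card_union_le _ _)
    omega
  · intro e he y hy
    obtain ⟨u, x, hx, rfl⟩ := (gn_mem back φ e).1 he
    rcases Sym2.mem_iff.1 hy with rfl | rfl
    · exact mem_union_right _ (mem_image_of_mem _ (mem_univ u))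
    · cases x with
      | inl a => exact mem_union_left _ (mem_filter.2 ⟨mem_univ _, u, hx⟩)
      | inr a => exact mem_union_right _ (mem_image_of_mem _ (mem_univ a))

end Pool.Agent.P.MP_224820_co.St
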