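import Pool.Agent.P.MP_224820_co.St.IfaceM

/-! Step GOODC. -/

set_option autoImplicit false

namespace Pool.Agent.P.MP_224820_co.St

open Finset Filter Topology

section
variable {V : Type} [Fintype V] [DecidableEq V] {r : ℕ}

theorem goodc_mem {ξ : Finset (Fin r × Sym2 V)} {k : Fin r} {e : Sym2 V} :
    e ∈ Cls ξ k ↔ ¬ e.IsDiag ∧ (k, e) ∈ ξ ∧ ∀ k', k' < k → (k', e) ∉ ξ := by
  simp [Cls, KN]

theorem goodc_one {π : Fin r → ℝ} {ξ : Finset (Fin r × Sym2 V)} (hG : Good π ξ) (k : Fin r)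
    (h : (Fintype.card V : ℝ) ^ (1 / 100 : ℝ) ≤ Fintype.card V * π k) (v : V) :
    |((nb (Cls ξ k) v).card : ℝ) - Fintype.card V * π k| ≤ Fintype.card V * π k / 100 := by
  have h1 := hG {(v, k)} (by simp) (by simp) (by simpa using h)
  have h2 : cc ξ {(v, k)} = (nb (Cls ξ k) v).card := by
    unfold cc nb
    congr 1
    ext w
    simp
  rw [h2] at h1
  simpa using h1

theorem goodc_two {π : Fin r → ℝ} {ξ : Finset (Fin r × Sym2 V)} (hG : Good π ξ) (k k' : Fin r)
    (h : (Fintype.card V : ℝ) ^ (1 / 100 : ℝ) ≤ Fintype.card V * (π k * π k')) {u w : V}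
    (huw : u ≠ w) :
    |((nb (Cls ξ k) u ∩ nb (Cls ξ k') w).card : ℝ) - Fintype.card V * (π k * π k')|
      ≤ Fintype.card V * (π k * π k') / 100 := by
  have hne : ((u, k) : V × Fin r) ≠ (w, k') := fun e => huw (congrArg Prod.fst e)
  have hp : ∏ x ∈ ({(u, k), (w, k')} : Finset (V × Fin r)), π x.2 = π k * π k' := by
    rw [prod_pair hne]
  have hinj : Set.InjOn Prod.fst
      ((({(u, k), (w, k')} : Finset (V × Fin r))) : Set (V × Fin r)) := by
    intro x hx y hy hxy
    simp only [coe_insert, coe_singleton, Set.mem_insert_iff, Set.mem_singleton_iff] at hx hy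
    rcases hx with rfl | rfl <;> rcases hy with rfl | rfl
    · rfl
    · exact absurd hxy huw
    · exact absurd hxy.symm huw
    · rfl
  have h1 := hG {(u, k), (w, k')} hinj (by rw [card_pair hne]; norm_num) (by rw [hp]; exact h)
  have h2 : cc ξ {(u, k), (w, k')} = (nb (Cls ξ k) u ∩ nb (Cls ξ k') w).card := by
    unfold cc nb
    congr 1
    ext x
    simp
  rw [h2, hp] at h1
  exact h1

theorem goodc_typ {π : Fin r → ℝ} (hπ : IsP π) {ξ : Finset (Fin r × Sym2 V)} (hG : Good π ξ)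
    (k : Fin r) (h : (Fintype.card V : ℝ) ^ (1 / 100 : ℝ) ≤ Fintype.card V * π k ^ 4) :
    Typ (Cls ξ k) (π k) := by
  intro S _ h4
  have hi : Function.Injective fun v : V => (v, k) := fun a b e => congrArg Prod.fst e
  have hp : ∏ x ∈ S.image (fun v : V => (v, k)), π x.2 = π k ^ S.card := by
    rw [prod_image (fun a _ b _ e => hi e)]
    simp
  have hinj : Set.InjOn Prod.fst
      ((S.image (fun v : V => (v, k)) : Finset (V × Fin r)) : Set (V × Fin r)) := by
    intro x hx y hy hxy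
    obtain ⟨a, _, rfl⟩ := mem_image.1 (mem_coe.1 hx)
    obtain ⟨b, _, rfl⟩ := mem_image.1 (mem_coe.1 hy)
    exact Prod.ext hxy rfl
  have hc : (S.image (fun v : V => (v, k))).card ≤ 4 := card_image_le.trans h4
  have hle : π k ^ 4 ≤ π k ^ S.card := pow_le_pow_of_le_one (hπ k).1 (hπ k).2 h4
  have h1 := hG _ hinj hc (by
    rw [hp]
    exact h.trans (mul_le_mul_of_nonneg_left hle (Nat.cast_nonneg _)))
  have h2 : cc ξ (S.image (fun v : V => (v, k)))
      = (univ.filter fun w => ∀ u ∈ S, s(u, w) ∈ Cls ξ k).card := by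
    unfold cc
    congr 1
    ext x
    simp
  rw [h2, hp] at h1
  exact h1

end

theorem p_GOODC :
    S_GOODC := by
  intro V _ _ r π ξ
  refine ⟨fun k => ⟨fun e he => (goodc_mem.1 he).1, fun e he => ?_, fun e he => ?_⟩, ?_, ?_⟩
  · simpa [sl] using (goodc_mem.1 he).2.1
  · simpa [st] using (goodc_mem.1 he).2.1
  · intro k k' hk
    rw [disjoint_left]
    intro e h1 h2
    rcases lt_or_gt_of_ne hk with h | h
    · exact (goodc_mem.1 h2).2.2 k h (goodc_mem.1 h1).2.1
    · exact (goodc_mem.1 h1).2.2 k' h (goodc_mem.1 h2).2.1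
  · intro hπ hG
    refine ⟨fun k k' h => ⟨fun v => ?_, fun u w huw => ?_⟩, fun k h => goodc_typ hπ hG k h⟩
    · have hn : (0 : ℝ) ≤ Fintype.card V := Nat.cast_nonneg _
      have hle : π k * π k' ≤ π k := mul_le_of_le_one_right (hπ k).1 (hπ k').2
      have h1 := goodc_one hG k (h.trans (mul_le_mul_of_nonneg_left hle hn)) v
      have h0 : 0 ≤ (Fintype.card V : ℝ) * π k := mul_nonneg hn (hπ k).1
      have := (abs_le.1 h1).2
      linarith
    · have hn : (0 : ℝ) ≤ Fintype.card V := Nat.cast_nonneg _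
      have h1 := goodc_two hG k k' h huw
      have h0 : 0 ≤ (Fintype.card V : ℝ) * (π k * π k') :=
        mul_nonneg hn (mul_nonneg (hπ k).1 (hπ k').1)
      have a := (abs_le.1 h1).1
      have b := (abs_le.1 h1).2
      constructor <;> linarith

end Pool.Agent.P.MP_224820_co.St
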