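import Pool.Agent.P.MP_224820_co.St.IfaceM

/-! Step GOODP. -/

set_option autoImplicit false

namespace Pool.Agent.P.MP_224820_co.St

open Finset Filter Topology

theorem goodp_lim {δ : ℝ} (hδ : 0 < δ) : ∃ n0 : ℕ, ∀ n : ℕ, n0 ≤ n →
    5 * (n : ℝ) ^ 8 * (2 * Real.exp (-(n : ℝ) ^ (1 / 100 : ℝ) / 10 ^ 6)) ≤ δ := by
  have h1 : Tendsto (fun n : ℕ => (n : ℝ) ^ (1 / 100 : ℝ)) atTop atTop :=
    (tendsto_rpow_atTop (by norm_num)).comp tendsto_natCast_atTop_atTop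
  have h2 := (tendsto_rpow_mul_exp_neg_mul_atTop_nhds_zero 800 (1 / 10 ^ 6) (by norm_num)).comp h1
  have h3 := h2.eventually (gt_mem_nhds (show (0 : ℝ) < δ / 10 by positivity))
  obtain ⟨n0, hn0⟩ := eventually_atTop.1 h3
  refine ⟨n0, fun n hn => ?_⟩
  have h4 := hn0 n hn
  simp only [Function.comp] at h4
  rw [← Real.rpow_mul (Nat.cast_nonneg n)] at h4
  have h5 : (n : ℝ) ^ ((1 / 100 : ℝ) * 800) = (n : ℝ) ^ 8 := by
    rw [show (1 / 100 : ℝ) * 800 = ((8 : ℕ) : ℝ) by norm_num, Real.rpow_natCast]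
  rw [h5] at h4
  have h6 : -(n : ℝ) ^ (1 / 100 : ℝ) / 10 ^ 6 = -(1 / 10 ^ 6) * (n : ℝ) ^ (1 / 100 : ℝ) := by ring
  rw [h6]
  linarith

theorem goodp_card {α : Type} [Fintype α] [DecidableEq α] {m : ℕ} (hm : 1 ≤ m)
    (h : Fintype.card α ≤ m) :
    (univ.filter fun l : Finset α => l.card ≤ 4).card ≤ 5 * m ^ 4 := by
  have h1 : (univ.filter fun l : Finset α => l.card ≤ 4)
      ⊆ (range 5).biUnion fun k => powersetCard k univ := by
    intro l hl
    rw [mem_biUnion]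
    exact ⟨l.card, mem_range.2 (Nat.lt_succ_of_le (mem_filter.1 hl).2),
      mem_powersetCard.2 ⟨subset_univ _, rfl⟩⟩
  refine (card_le_card h1).trans (card_biUnion_le.trans ?_)
  calc _ ≤ ∑ _k ∈ range 5, m ^ 4 := by
        refine sum_le_sum fun k hk => ?_
        rw [card_powersetCard, card_univ]
        exact (Nat.choose_le_pow _ _).trans ((Nat.pow_le_pow_left h k).trans
          (Nat.pow_le_pow_right hm (Nat.le_of_lt_succ (mem_range.1 hk))))
    _ = _ := by simp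

theorem p_GOODP (hSTYP : S_STYP) :
    S_GOODP := by
  intro δ hδ
  obtain ⟨n0, hn0⟩ := goodp_lim hδ
  refine ⟨max n0 4000, fun V _ _ hn r π hr hπ hs => ?_⟩
  classical
  have hn1 : n0 ≤ Fintype.card V := (le_max_left _ _).trans hn
  have hn2 : 4000 ≤ Fintype.card V := (le_max_right _ _).trans hn
  have hP : IsP (fun x : Fin r × Sym2 V => π x.1) := fun x => hπ x.1
  set J : Finset (Finset (V × Fin r)) := univ.filter fun l => l.card ≤ 4 ∧
    Set.InjOn Prod.fst (l : Set (V × Fin r)) ∧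
    (Fintype.card V : ℝ) ^ (1 / 100 : ℝ) ≤ Fintype.card V * ∏ x ∈ l, π x.2 with hJ
  have hJc : J.card ≤ 5 * (Fintype.card V ^ 2) ^ 4 := by
    refine le_trans (card_le_card fun l hl => ?_)
      (goodp_card (α := V × Fin r) (Nat.one_le_pow _ _ (by omega)) ?_)
    · exact mem_filter.2 ⟨mem_univ _, (mem_filter.1 hl).2.1⟩
    · rw [Fintype.card_prod, Fintype.card_fin, sq]
      exact Nat.mul_le_mul_left _ hr
  have hJr : (J.card : ℝ) ≤ 5 * (Fintype.card V : ℝ) ^ 8 := by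
    rw [← pow_mul] at hJc
    exact_mod_cast hJc
  refine (Pr_mono hP (E' := fun ξ => ∃ l ∈ J, Fintype.card V * (∏ x ∈ l, π x.2) / 100
      < |(cc ξ l : ℝ) - Fintype.card V * ∏ x ∈ l, π x.2|) fun ξ hξ => ?_).trans ?_
  · unfold Good at hξ
    push Not at hξ
    obtain ⟨l, h1, h2, h3, h4⟩ := hξ
    exact ⟨l, mem_filter.2 ⟨mem_univ _, h2, h1, h3⟩, h4⟩
  refine (Pr_exists_le' hP J _
    (δ := 2 * Real.exp (-(Fintype.card V : ℝ) ^ (1 / 100 : ℝ) / 10 ^ 6)) fun l hl => ?_).trans ?_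
  · obtain ⟨h1, h2, h3⟩ := (mem_filter.1 hl).2
    refine (hSTYP V r π hπ hs hn2 l h2 h1).trans ?_
    gcongr
  · exact (mul_le_mul_of_nonneg_right hJr (by positivity)).trans (hn0 _ hn1)

end Pool.Agent.P.MP_224820_co.St
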