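import Pool.Agent.P.MP_224820_co.St.IfaceM

/-! Step HAZ. -/

set_option autoImplicit false

namespace Pool.Agent.P.MP_224820_co.St

open Finset Filter Topology

theorem haz_prod3 {V : Type} [Fintype V] [DecidableEq V] {u v w : V} (huv : u ≠ v) (huw : u ≠ w)
    (hvw : v ≠ w) (f : Sym2 V → ℝ) :
    ∏ e ∈ ed3 ({u, v, w} : Finset V), f e = f s(u, v) * (f s(u, w) * f s(v, w)) := by
  have c : ({u, v, w} : Finset V).card = 3 := card_eq_three.2 ⟨u, v, w, huv, huw, hvw, rfl⟩
  have e1 : s(u, v) ≠ s(u, w) := fun h => hvw (Sym2.congr_right.1 h)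
  have e2 : s(u, v) ≠ s(v, w) := fun h => huw (by
    rw [Sym2.eq_swap (a := u)] at h
    exact Sym2.congr_right.1 h)
  have e3 : s(u, w) ≠ s(v, w) := fun h => huv (Sym2.congr_left.1 h)
  rw [ed3, if_pos c, ed_triple huv huw hvw, prod_insert (by simp only [mem_insert, mem_singleton]; tauto),
    prod_pair e3]

theorem haz_ty {V : Type} [Fintype V] [DecidableEq V] {L R : Finset (Sym2 V)} (hL : NoLoop L)
    (hR : NoLoop R) {t : Finset V} (h : Ty L R t) (f : Sym2 V → ℝ) {a b : ℝ} (ha : 0 ≤ a) (hb : 0 ≤ b)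
    (fL : ∀ e ∈ L, a ≤ f e) (fR : ∀ e ∈ R, b ≤ f e) : a * (b * b) ≤ ∏ e ∈ ed3 t, f e := by
  obtain ⟨u, v, w, rfl, h1, h2, h3⟩ := h
  rw [haz_prod3 (hL.ne h1) (hR.ne h2) (hR.ne h3)]
  have a1 := fL _ h1
  have a2 := fR _ h2
  have a3 := fR _ h3
  exact mul_le_mul a1 (mul_le_mul a2 a3 hb (hb.trans a2)) (mul_nonneg hb hb) (ha.trans a1)

theorem haz_tri {V : Type} [Fintype V] [DecidableEq V] {G : Finset (Sym2 V)} {t : Finset V}
    (h : t ∈ tri G) (f : Sym2 V → ℝ) {a : ℝ} (ha : 0 ≤ a) (fG : ∀ e ∈ G, a ≤ f e) :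
    a ^ 3 ≤ ∏ e ∈ ed3 t, f e := by
  obtain ⟨h1, h2⟩ := mem_tri.1 h
  rw [ed3, if_pos h1, ← card_ed h1, ← prod_const]
  exact prod_le_prod (fun _ _ => ha) fun e he => fG e (h2 he)

theorem p_HAZ (hGOODC : S_GOODC) (hSIG : S_SIG) :
    S_HAZ := by
  intro n J x0 ε hε hJ T ξ
  obtain ⟨s0, -, -, l0⟩ := hSIG n J x0 ε hε T
  obtain ⟨c1, -, -⟩ := hGOODC (Fin n) (2 * J + 2) (piK n J x0 (ε / 260)) ξ
  have lg := T.log1
  have n0 : (0 : ℝ) < n := by
    rcases Nat.eq_zero_or_pos n with h | h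
    · rw [h] at lg
      norm_num at lg
    · exact_mod_cast h
  have p0 : ∀ l t, 0 ≤ lamL n J x0 (ε / 260) l *
      ∏ e ∈ ed3 (t : Finset (Fin n)), sig n J x0 (ε / 260) l (st ξ e) := fun l t =>
    mul_nonneg (l0 l) (prod_nonneg fun e _ => s0 l _)
  have lam0 : 0 ≤ (2 + ε / 2) * Real.log n / n := by positivity
  refine ⟨fun t => (2 + ε / 2) * Real.log n / n +
      lamL n J x0 (ε / 260) none * ∏ e ∈ ed3 t, sig n J x0 (ε / 260) none (st ξ e),
    fun i t => if h : i < J then lamL n J x0 (ε / 260) (some ⟨i, h⟩) *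
      ∏ e ∈ ed3 t, sig n J x0 (ε / 260) (some ⟨i, h⟩) (st ξ e) else 0,
    fun t => add_nonneg lam0 (p0 _ t), fun i t => ?_, fun t => ?_,
    fun t => le_add_of_nonneg_right (p0 _ t), fun G0 hG t ht => ?_, fun i hi A hA => ?_⟩
  · dsimp only
    split_ifs
    exacts [p0 _ t, le_rfl]
  · rw [hzs, Fintype.sum_option, add_assoc, Finset.sum_range]
    refine le_of_eq ?_
    congr 2
    exact Finset.sum_congr rfl fun i _ => dif_pos i.2
  · have e : piK n J x0 (ε / 260) (kA J 0) = Real.exp (-x0) / 200 := by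
      rw [T.piA 0 (Nat.zero_le _), xs, pow_zero, mul_one]
    have e0 : 0 < Real.exp (-x0) / 200 := by positivity
    have k := haz_ty hG (c1 _).1 ht (fun e => sig n J x0 (ε / 260) none (st ξ e)) (a := 1 / 4)
      (b := 1 / (4 * (Real.exp (-x0) / 200))) (by norm_num) (by positivity)
      (fun a _ => by
        simp only [sig, e]
        split_ifs
        · exact le_add_of_nonneg_right (by positivity)
        · exact (add_zero _).ge)
      (fun a ha => by
        simp only [sig, e, if_pos ((c1 _).2.2 a ha)]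
        exact le_add_of_nonneg_left (by norm_num))
    refine le_add_of_nonneg_of_le lam0 (le_trans (le_of_eq ?_) (mul_le_mul_of_nonneg_left k (l0 none)))
    simp only [lamL]
    generalize Real.exp (-x0) / 200 = y at e0 ⊢
    field_simp
    ring
  · have eB := T.piB i hi
    have eA : piK n J x0 (ε / 260) (kA J (i + 1)) = Real.exp (-(7 / 5 * xs x0 i)) / 200 := by
      rw [T.piA (i + 1) hi, xs, xs, pow_succ]
      congr 3
      ring
    have b0 : 0 < Real.exp (-xs x0 i) := Real.exp_pos _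
    have b1 : 0 < Real.exp (-(7 / 5 * xs x0 i)) / 200 := by positivity
    have fL : ∀ a ∈ A ∪ Cls ξ (kB J i),
        1 / (8 * Real.exp (-xs x0 i)) ≤ sig n J x0 (ε / 260) (some ⟨i, hi⟩) (st ξ a) := fun a ha => by
      simp only [sig, eA, eB]
      have q1 : 0 ≤ 1 / (8 * Real.exp (-xs x0 i)) := by positivity
      have q2 : 0 ≤ 1 / (4 * (Real.exp (-(7 / 5 * xs x0 i)) / 200)) := by positivity
      rcases mem_union.1 ha with h | h
      · rw [if_pos ((c1 _).2.2 a (hA h))]
        split_ifs <;> linarith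
      · rw [if_pos ((c1 _).2.2 a h)]
        split_ifs <;> linarith
    have nL : NoLoop (A ∪ Cls ξ (kB J i)) := fun a ha =>
      (mem_union.1 ha).elim (fun h => (c1 _).1 a (hA h)) ((c1 _).1 a)
    refine ⟨fun t ht => ?_, fun t ht => ?_⟩
    · have k := haz_tri ht (fun e => sig n J x0 (ε / 260) (some ⟨i, hi⟩) (st ξ e)) (by positivity) fL
      simp only [dif_pos hi]
      refine le_trans ?_ (mul_le_mul_of_nonneg_left k (l0 _))
      simp only [lamL]
      generalize Real.exp (-xs x0 i) = y at b0 ⊢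
      have : 4 / (n * y ^ 3) = 2048 / n * (1 / (8 * y)) ^ 3 := by
        field_simp
        ring
      rw [this]
      gcongr
      exact le_add_of_nonneg_right (by positivity)
    · have k := haz_ty nL (c1 _).1 ht (fun e => sig n J x0 (ε / 260) (some ⟨i, hi⟩) (st ξ e))
        (b := 1 / (4 * (Real.exp (-(7 / 5 * xs x0 i)) / 200))) (by positivity) (by positivity) fL
        (fun a ha => by
          simp only [sig, eA, eB, if_pos ((c1 _).2.2 a ha)]
          have q1 : 0 ≤ 1 / (8 * Real.exp (-xs x0 i)) := by positivity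
          split_ifs <;> linarith)
      simp only [dif_pos hi]
      refine le_trans ?_ (mul_le_mul_of_nonneg_left k (l0 _))
      simp only [lamL]
      generalize Real.exp (-xs x0 i) = y at b0 ⊢
      generalize Real.exp (-(7 / 5 * xs x0 i)) / 200 = z at b1 ⊢
      have : 1280 * Real.log n / (n * z ^ 2) =
          163840 * Real.log n * y / n * (1 / (8 * y) * (1 / (4 * z) * (1 / (4 * z)))) := by
        field_simp
        ring
      rw [this]
      gcongr
      exact le_add_of_nonneg_left (by norm_num)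

end Pool.Agent.P.MP_224820_co.St
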