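import Pool.Agent.P.MP_224820_co.St.GrA

/-! Regularity boosting through copies of the complete graph on five vertices. -/

set_option autoImplicit false

namespace Pool.Agent.P.MP_224820_co.St

open Finset

section Abs
variable {V : Type} [Fintype V]

/-- ordered count of the five-cliques over a pair -/
noncomputable def bk5 (a : V → V → ℝ) (u v : V) : ℝ :=
  ∑ w, ∑ p, ∑ q, a u w * a v w * (a u p * a v p * a w p) * (a u q * a v q * a w q * a p q)

/-- the defect of a pair, spread over its five-cliques -/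
noncomputable def bkr (a : V → V → ℝ) (o : ℝ) (u v : V) : ℝ :=
  a u v * (1 - o * ∑ w, a u w * a v w) / bk5 a u v

/-- the correction of the weight of a triangle -/
noncomputable def bkW (a r : V → V → ℝ) (u v w : V) : ℝ :=
  ∑ p, ∑ q, (a u p * a v p * a w p) * (a u q * a v q * a w q * a p q) *
    (2 * r u v + 2 * r u w + 2 * r v w - (r u p + r v p + r w p) - (r u q + r v q + r w q)
      + 2 * r p q)

theorem bk5_symm (a : V → V → ℝ) (u v : V) : bk5 a u v = bk5 a v u := by
  unfold bk5
  refine sum_congr rfl fun w _ => sum_congr rfl fun p _ => sum_congr rfl fun q _ => by ring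

theorem bkr_symm {a : V → V → ℝ} (hs : ∀ x y, a x y = a y x) (o : ℝ) (u v : V) :
    bkr a o u v = bkr a o v u := by
  unfold bkr
  rw [bk5_symm a u v, hs u v]
  congr 4
  exact sum_congr rfl fun w _ => by ring

theorem bk_swap12 (F : V → V → V → ℝ) :
    ∑ w, ∑ p, ∑ q, F w p q = ∑ w, ∑ p, ∑ q, F p w q := sum_comm

theorem bk_swap23 (F : V → V → V → ℝ) :
    ∑ w, ∑ p, ∑ q, F w p q = ∑ w, ∑ p, ∑ q, F w q p := sum_congr rfl fun _ _ => sum_comm

theorem bk_swap13 (F : V → V → V → ℝ) :
    ∑ w, ∑ p, ∑ q, F w p q = ∑ w, ∑ p, ∑ q, F q p w := by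
  rw [bk_swap12, bk_swap23, bk_swap12]

/-- the corrections cancel on every pair but the one they are meant for -/
theorem bkW_sum {a r : V → V → ℝ} (hs : ∀ x y, a x y = a y x) (hr : ∀ x y, r x y = r y x)
    (u v : V) : ∑ w, a u w * a v w * bkW a r u v w = 2 * r u v * bk5 a u v := by
  set C : V → V → V → ℝ := fun w p q =>
    a u w * a v w * (a u p * a v p * a w p) * (a u q * a v q * a w q * a p q) with hC
  have c12 : ∀ w p q, C p w q = C w p q := fun w p q => by
    simp only [hC, hs p w]; ring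
  have c23 : ∀ w p q, C w q p = C w p q := fun w p q => by
    simp only [hC, hs q p]; ring
  have c13 : ∀ w p q, C q p w = C w p q := fun w p q => by
    simp only [hC, hs q p, hs q w, hs p w]; ring
  have one : ∀ f : V → ℝ, ∑ w, ∑ p, ∑ q, C w p q * (2 * f w - f p - f q) = 0 := by
    intro f
    have h1 : ∑ w, ∑ p, ∑ q, C w p q * f p = ∑ w, ∑ p, ∑ q, C w p q * f w := by
      rw [bk_swap12]; simp only [c12]
    have h2 : ∑ w, ∑ p, ∑ q, C w p q * f q = ∑ w, ∑ p, ∑ q, C w p q * f w := by
      rw [bk_swap13]; simp only [c13]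
    have h3 : ∀ w p q, C w p q * (2 * f w - f p - f q)
        = 2 * (C w p q * f w) - C w p q * f p - C w p q * f q := fun w p q => by ring
    simp only [h3, sum_sub_distrib, ← mul_sum, h1, h2]
    ring
  have two : ∑ w, ∑ p, ∑ q, C w p q * (2 * r p q - r w p - r w q) = 0 := by
    have h1 : ∑ w, ∑ p, ∑ q, C w p q * r w q = ∑ w, ∑ p, ∑ q, C w p q * r p q := by
      rw [bk_swap12]; simp only [c12]
    have h2 : ∑ w, ∑ p, ∑ q, C w p q * r w p = ∑ w, ∑ p, ∑ q, C w p q * r p q := by
      rw [bk_swap13]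
      refine sum_congr rfl fun w _ => sum_congr rfl fun p _ => sum_congr rfl fun q _ => ?_
      rw [c13, hr q p]
    have h3 : ∀ w p q, C w p q * (2 * r p q - r w p - r w q)
        = 2 * (C w p q * r p q) - C w p q * r w p - C w p q * r w q := fun w p q => by ring
    simp only [h3, sum_sub_distrib, ← mul_sum, h1, h2]
    ring
  have e : ∑ w, a u w * a v w * bkW a r u v w
      = ∑ w, ∑ p, ∑ q, (2 * r u v * C w p q + C w p q * (2 * r u w - r u p - r u q)
          + C w p q * (2 * r v w - r v p - r v q) + C w p q * (2 * r p q - r w p - r w q)) := by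
    refine sum_congr rfl fun w _ => ?_
    unfold bkW
    simp only [mul_sum]
    refine sum_congr rfl fun p _ => sum_congr rfl fun q _ => ?_
    simp only [hC]; ring
  rw [e]
  simp only [sum_add_distrib, one (r u), one (r v), two, ← mul_sum]
  simp [bk5, hC]

variable {a : V → V → ℝ} {N2 N3 N4 : ℝ}

/-- hypotheses on a zero-one matrix -/
structure BkH (a : V → V → ℝ) (N2 N3 N4 : ℝ) : Prop where
  zo : ∀ x y, a x y = 0 ∨ a x y = 1
  p2 : 0 < N2
  p3 : 0 < N3
  p4 : 0 < N4
  h2 : ∀ u v, a u v = 1 → |∑ w, a u w * a v w - N2| ≤ N2 / 100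
  h3 : ∀ u v w, a u v = 1 → a u w = 1 → a v w = 1 → |∑ p, a u p * a v p * a w p - N3| ≤ N3 / 100
  h4 : ∀ u v w p, a u v = 1 → a u w = 1 → a v w = 1 → a u p = 1 → a v p = 1 → a w p = 1 →
    |∑ q, a u q * a v q * a w q * a p q - N4| ≤ N4 / 100

theorem BkH.nn (H : BkH a N2 N3 N4) (x y : V) : 0 ≤ a x y := by
  rcases H.zo x y with h | h <;> simp [h]

theorem BkH.pq (H : BkH a N2 N3 N4) {u v w : V} (h1 : a u v = 1) (h2 : a u w = 1) (h3 : a v w = 1) :
    99 / 100 * N3 * (99 / 100 * N4)
        ≤ ∑ p, ∑ q, (a u p * a v p * a w p) * (a u q * a v q * a w q * a p q) ∧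
      ∑ p, ∑ q, (a u p * a v p * a w p) * (a u q * a v q * a w q * a p q)
        ≤ 101 / 100 * N3 * (101 / 100 * N4) := by
  have key : ∀ p, (a u p * a v p * a w p) * (99 / 100 * N4)
        ≤ ∑ q, (a u p * a v p * a w p) * (a u q * a v q * a w q * a p q) ∧
      ∑ q, (a u p * a v p * a w p) * (a u q * a v q * a w q * a p q)
        ≤ (a u p * a v p * a w p) * (101 / 100 * N4) := by
    intro p
    rw [← mul_sum]
    rcases H.zo u p with e1 | e1
    · simp [e1]
    rcases H.zo v p with e2 | e2
    · simp [e2]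
    rcases H.zo w p with e3 | e3
    · simp [e3]
    have := abs_le.1 (H.h4 u v w p h1 h2 h3 e1 e2 e3)
    rw [e1, e2, e3]
    constructor <;> linarith [this.1, this.2]
  have h := abs_le.1 (H.h3 u v w h1 h2 h3)
  have p4 := H.p4
  constructor
  · refine le_trans ?_ (sum_le_sum fun p _ => (key p).1)
    rw [← sum_mul]
    exact mul_le_mul_of_nonneg_right (by linarith [h.1]) (by positivity)
  · refine le_trans (sum_le_sum fun p _ => (key p).2) ?_
    rw [← sum_mul]
    exact mul_le_mul_of_nonneg_right (by linarith [h.2]) (by positivity)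

theorem BkH.k5 (H : BkH a N2 N3 N4) {u v : V} (h1 : a u v = 1) :
    99 / 100 * N2 * (99 / 100 * N3 * (99 / 100 * N4)) ≤ bk5 a u v := by
  have key : ∀ w, a u w * a v w * (99 / 100 * N3 * (99 / 100 * N4))
      ≤ ∑ p, ∑ q, a u w * a v w * (a u p * a v p * a w p) * (a u q * a v q * a w q * a p q) := by
    intro w
    rcases H.zo u w with e1 | e1
    · simp [e1]
    rcases H.zo v w with e2 | e2
    · simp [e2]
    have := (H.pq h1 e1 e2).1
    simpa [e1, e2] using this
  refine le_trans ?_ (sum_le_sum fun w _ => key w)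
  rw [← sum_mul]
  have h := abs_le.1 (H.h2 u v h1)
  have p3 := H.p3
  have p4 := H.p4
  exact mul_le_mul_of_nonneg_right (by linarith [h.1]) (by positivity)

theorem BkH.r_le (H : BkH a N2 N3 N4) (u v : V) :
    |bkr a (1 / N2) u v| ≤ 1 / (97 * (N2 * N3 * N4)) := by
  have p2 := H.p2
  have p3 := H.p3
  have p4 := H.p4
  unfold bkr
  rcases H.zo u v with e | e
  · rw [e]; simp; positivity
  have hk := H.k5 e
  have hk' : 97 / 100 * (N2 * N3 * N4) ≤ bk5 a u v := by
    have : 0 < N2 * N3 * N4 := by positivity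
    nlinarith
  have k0 : 0 < bk5 a u v := lt_of_lt_of_le (by positivity) hk'
  have hd : |1 - 1 / N2 * ∑ w, a u w * a v w| ≤ 1 / 100 := by
    have h := H.h2 u v e
    have : 1 - 1 / N2 * ∑ w, a u w * a v w = -((∑ w, a u w * a v w - N2) / N2) := by
      field_simp; ring
    rw [this, abs_neg, abs_div, abs_of_pos p2, div_le_iff₀ p2]
    linarith
  rw [e, one_mul, abs_div, abs_of_pos k0, div_le_div_iff₀ k0 (by positivity)]
  have : 0 < N2 * N3 * N4 := by positivity
  nlinarith

theorem BkH.W_le (H : BkH a N2 N3 N4) {u v w : V} (h1 : a u v = 1) (h2 : a u w = 1)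
    (h3 : a v w = 1) : |bkW a (bkr a (1 / N2)) u v w| ≤ 1 / 5 / N2 := by
  have p2 := H.p2
  have p3 := H.p3
  have p4 := H.p4
  set r := bkr a (1 / N2)
  set m := 1 / (97 * (N2 * N3 * N4)) with hm
  have hr : ∀ x y, -m ≤ r x y ∧ r x y ≤ m := fun x y => abs_le.1 (H.r_le x y)
  have key : ∀ p q, |(a u p * a v p * a w p) * (a u q * a v q * a w q * a p q) *
      (2 * r u v + 2 * r u w + 2 * r v w - (r u p + r v p + r w p) - (r u q + r v q + r w q)
        + 2 * r p q)| ≤ (a u p * a v p * a w p) * (a u q * a v q * a w q * a p q) * (14 * m) := by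
    intro p q
    have c0 : 0 ≤ (a u p * a v p * a w p) * (a u q * a v q * a w q * a p q) := by
      have := H.nn
      exact mul_nonneg (mul_nonneg (mul_nonneg (this _ _) (this _ _)) (this _ _))
        (mul_nonneg (mul_nonneg (mul_nonneg (this _ _) (this _ _)) (this _ _)) (this _ _))
    rw [abs_mul, abs_of_nonneg c0]
    refine mul_le_mul_of_nonneg_left ?_ c0
    rw [abs_le]
    constructor <;> linarith [hr u v, hr u w, hr v w, hr u p, hr v p, hr w p, hr u q, hr v q,
      hr w q, hr p q]
  unfold bkW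
  refine (abs_sum_le_sum_abs _ _).trans ?_
  refine (sum_le_sum fun p _ => (abs_sum_le_sum_abs _ _).trans (sum_le_sum fun q _ => key p q)).trans ?_
  simp only [← sum_mul]
  have h := (H.pq h1 h2 h3).2
  have m0 : 0 ≤ 14 * m := by positivity
  refine (mul_le_mul_of_nonneg_right h m0).trans ?_
  rw [hm]
  have : 101 / 100 * N3 * (101 / 100 * N4) * (14 * (1 / (97 * (N2 * N3 * N4))))
      = (101 / 100 * (101 / 100) * 14 / 97) / N2 := by
    field_simp
  rw [this]
  exact div_le_div_of_nonneg_right (by norm_num) p2.le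

end Abs

variable {V : Type} [Fintype V] [DecidableEq V]

/-- boosting with separate targets for the sizes of common neighbourhoods -/
theorem boost_gen {G : Finset (Sym2 V)} (hG : NoLoop G) {N : ℕ → ℝ} (h2 : 0 < N 2) (h3 : 0 < N 3)
    (h4 : 0 < N 4)
    (hT : ∀ S : Finset V, 2 ≤ S.card → S.card ≤ 4 → ed S ⊆ G →
      |((univ.filter fun w => ∀ u ∈ S, s(u, w) ∈ G).card : ℝ) - N S.card| ≤ N S.card / 100) :
    ∃ om : Finset V → ℝ, (∀ t, 9 / 10 / N 2 ≤ om t ∧ om t ≤ 11 / 10 / N 2) ∧
      ∀ u v, s(u, v) ∈ G → wd om G u v = 1 := by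
  classical
  set a : V → V → ℝ := fun x y => if s(x, y) ∈ G then 1 else 0 with ha
  have a1 : ∀ x y, a x y = 1 ↔ s(x, y) ∈ G := fun x y => by
    simp only [ha]; split_ifs with h <;> simp [h]
  have hs : ∀ x y, a x y = a y x := fun x y => by simp only [ha, Sym2.eq_swap (a := x)]
  have ne : ∀ x y, s(x, y) ∈ G → x ≠ y := fun x y h e => hG _ h (by simp [e])
  have sw : ∀ x y, s(x, y) ∈ G → s(y, x) ∈ G := fun x y h => by rwa [Sym2.eq_swap]
  have cnS : ∀ S : Finset V,
      ((univ.filter fun w => ∀ u ∈ S, s(u, w) ∈ G).card : ℝ) = ∑ w, ∏ u ∈ S, a u w := by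
    intro S
    rw [card_filter]
    push_cast
    refine sum_congr rfl fun w _ => ?_
    simp only [ha]
    rw [Finset.prod_ite_zero]
    simp
  have edS : ∀ S : Finset V, (∀ x ∈ S, ∀ y ∈ S, x ≠ y → s(x, y) ∈ G) → ed S ⊆ G := by
    intro S h e he
    induction e using Sym2.ind with
    | _ x y => obtain ⟨h1, h2, h3⟩ := mk_mem_ed.1 he; exact h x h1 y h2 h3
  have H : BkH a (N 2) (N 3) (N 4) := by
    refine ⟨fun x y => ?_, h2, h3, h4, ?_, ?_, ?_⟩
    · simp only [ha]; split_ifs <;> simp
    · intro u v e1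
      rw [a1] at e1
      have n1 := ne _ _ e1
      have c : ({u, v} : Finset V).card = 2 := card_pair n1
      have := hT {u, v} (by omega) (by omega) (edS _ (by
        simp only [mem_insert, mem_singleton]
        rintro x (rfl | rfl) y (rfl | rfl) h <;> first | exact absurd rfl h | assumption | (apply sw; assumption)))
      rw [c, cnS] at this
      simpa [prod_insert, n1] using this
    · intro u v w e1 e2 e3
      rw [a1] at e1 e2 e3
      have n1 := ne _ _ e1
      have n2 := ne _ _ e2
      have n3 := ne _ _ e3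
      have c : ({u, v, w} : Finset V).card = 3 := by
        rw [card_insert_of_notMem (by simp [n1, n2]), card_pair n3]
      have := hT {u, v, w} (by omega) (by omega) (edS _ (by
        simp only [mem_insert, mem_singleton]
        rintro x (rfl | rfl | rfl) y (rfl | rfl | rfl) h <;>
          first | exact absurd rfl h | assumption | (apply sw; assumption)))
      rw [c, cnS] at this
      simpa [prod_insert, n1, n2, n3, mul_assoc] using this
    · intro u v w p e1 e2 e3 e4 e5 e6
      rw [a1] at e1 e2 e3 e4 e5 e6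
      have n1 := ne _ _ e1
      have n2 := ne _ _ e2
      have n3 := ne _ _ e3
      have n4 := ne _ _ e4
      have n5 := ne _ _ e5
      have n6 := ne _ _ e6
      have c : ({u, v, w, p} : Finset V).card = 4 := by
        rw [card_insert_of_notMem (by simp [n1, n2, n4]), card_insert_of_notMem (by simp [n3, n5]),
          card_pair n6]
      have := hT {u, v, w, p} (by omega) (by omega) (edS _ (by
        simp only [mem_insert, mem_singleton]
        rintro x (rfl | rfl | rfl | rfl) y (rfl | rfl | rfl | rfl) h <;>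
          first | exact absurd rfl h | assumption | (apply sw; assumption)))
      rw [c, cnS] at this
      simpa [prod_insert, n1, n2, n3, n4, n5, n6, mul_assoc] using this
  set r := bkr a (1 / N 2) with hr
  have rs : ∀ x y, r x y = r y x := bkr_symm hs _
  have r0 : ∀ x, r x x = 0 := fun x => by
    have : a x x = 0 := by
      simp only [ha]; rw [if_neg]; exact fun h => ne _ _ h rfl
    simp only [hr, bkr, this]; simp
  set Wt : Finset V → ℝ := fun t => ∑ p, ∑ q, (∏ x ∈ t, a x p) * ((∏ x ∈ t, a x q) * a p q) *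
    (∑ x ∈ t, ∑ y ∈ t, r x y - ∑ x ∈ t, r x p - ∑ x ∈ t, r x q + 2 * r p q) with hW
  have hWt : ∀ u v w, u ≠ v → u ≠ w → v ≠ w → Wt {u, v, w} = bkW a r u v w := by
    intro u v w n1 n2 n3
    simp only [hW, bkW]
    refine sum_congr rfl fun p _ => sum_congr rfl fun q _ => ?_
    have m1 : u ∉ ({v, w} : Finset V) := by simp [n1, n2]
    have m2 : v ∉ ({w} : Finset V) := by simp [n3]
    simp only [prod_insert m1, prod_insert m2, prod_singleton, sum_insert m1, sum_insert m2,
      sum_singleton, r0, rs v u, rs w u, rs w v]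
    ring
  refine ⟨fun t => if t ∈ tri G then 1 / N 2 + Wt t / 2 else 1 / N 2, fun t => ?_, fun u v he => ?_⟩
  · have e1 : 9 / 10 / N 2 = 1 / N 2 - 1 / 5 / N 2 / 2 := by field_simp; ring
    have e2 : 11 / 10 / N 2 = 1 / N 2 + 1 / 5 / N 2 / 2 := by field_simp; ring
    have e3 : 0 ≤ 1 / 5 / N 2 := by positivity
    rw [e1, e2]
    beta_reduce
    split_ifs with ht
    · obtain ⟨c, hsub⟩ := mem_tri.1 ht
      obtain ⟨u, v, w, n1, n2, n3, rfl⟩ := card_eq_three.1 c
      have g : ∀ x y, x ∈ ({u, v, w} : Finset V) → y ∈ ({u, v, w} : Finset V) → x ≠ y →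
          a x y = 1 := fun x y hx hy h => (a1 _ _).2 (hsub (mk_mem_ed.2 ⟨hx, hy, h⟩))
      have := abs_le.1 (H.W_le (g u v (by simp) (by simp) n1) (g u w (by simp) (by simp) n2)
        (g v w (by simp) (by simp) n3))
      rw [hWt u v w n1 n2 n3]
      constructor <;> linarith [this.1, this.2]
    · constructor <;> linarith
  · have e : ∀ F : V → ℝ, ∑ w ∈ nb G u ∩ nb G v, F w = ∑ w, a u w * a v w * F w := by
      intro F
      rw [← sum_subset (subset_univ (nb G u ∩ nb G v))]
      · refine sum_congr rfl fun w hw => ?_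
        rw [mem_inter, mem_nb, mem_nb] at hw
        rw [(a1 _ _).2 hw.1, (a1 _ _).2 hw.2]; ring
      · intro w _ hw
        rw [mem_inter, mem_nb, mem_nb, not_and_or] at hw
        rcases hw with h | h <;> simp [ha, h]
    unfold wd
    have e2 : ∑ w ∈ nb G u ∩ nb G v,
        (if ({u, v, w} : Finset V) ∈ tri G then 1 / N 2 + Wt {u, v, w} / 2 else 1 / N 2)
        = ∑ w ∈ nb G u ∩ nb G v, (1 / N 2 + bkW a r u v w / 2) := by
      refine sum_congr rfl fun w hw => ?_
      rw [mem_inter, mem_nb, mem_nb] at hw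
      rw [if_pos (triple_mem_tri hG he hw.1 hw.2), hWt u v w (ne _ _ he) (ne _ _ hw.1) (ne _ _ hw.2)]
    rw [e2, e]
    have e3 := bkW_sum hs rs u v
    have e4 : ∑ w, a u w * a v w * (1 / N 2 + bkW a r u v w / 2)
        = 1 / N 2 * ∑ w, a u w * a v w + (∑ w, a u w * a v w * bkW a r u v w) / 2 := by
      rw [mul_sum, sum_div, ← sum_add_distrib]
      exact sum_congr rfl fun w _ => by ring
    have k0 : 0 < bk5 a u v :=
      lt_of_lt_of_le (by positivity) (H.k5 ((a1 _ _).2 he))
    have e5 : r u v * bk5 a u v = 1 - 1 / N 2 * ∑ w, a u w * a v w := by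
      simp only [hr, bkr]
      rw [(a1 _ _).2 he, one_mul, div_mul_cancel₀ _ k0.ne']
    rw [e4, e3]
    linarith

/-- a typical graph has an almost uniform fractional triangle decomposition -/
theorem boost {G : Finset (Sym2 V)} (hG : NoLoop G) {β : ℝ} (hβ : 0 < β) (hT : Typ G β) :
    ∃ om : Finset V → ℝ,
      (∀ t, 9 / 10 / (Fintype.card V * β ^ 2) ≤ om t ∧ om t ≤ 11 / 10 / (Fintype.card V * β ^ 2)) ∧
      ∀ u v, s(u, v) ∈ G → wd om G u v = 1 := by
  rcases Nat.eq_zero_or_pos (Fintype.card V) with h0 | h0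
  · refine ⟨fun _ => 0, fun t => by simp [h0], fun u v _ => ?_⟩
    exact absurd (Fintype.card_pos_iff.2 ⟨u⟩) (by omega)
  have hn : (0 : ℝ) < Fintype.card V := by exact_mod_cast h0
  exact boost_gen (N := fun k => Fintype.card V * β ^ k) hG (by positivity) (by positivity)
    (by positivity) fun S h2 h4 _ => hT S h2 h4

end Pool.Agent.P.MP_224820_co.St
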