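import Pool.Agent.P.MP_224820_co.St.IfaceN
import Pool.Agent.P.MP_224820_co.St.Boost

/-! Step K5. -/

set_option autoImplicit false

namespace Pool.Agent.P.MP_224820_co.St

open Finset

theorem k5_W_le {V : Type} [Fintype V] {a r : V → V → ℝ} {N2 N3 N4 m : ℝ} (H : BkH a N2 N3 N4)
    (m0 : 0 ≤ m) (hm : ∀ x y, |r x y| ≤ m) {u v w : V} (h1 : a u v = 1) (h2 : a u w = 1)
    (h3 : a v w = 1) : |bkW a r u v w| ≤ 101 / 100 * N3 * (101 / 100 * N4) * (14 * m) := by
  have hr : ∀ x y, -m ≤ r x y ∧ r x y ≤ m := fun x y => abs_le.1 (hm x y)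
  have key : ∀ p q, |(a u p * a v p * a w p) * (a u q * a v q * a w q * a p q) *
      (2 * r u v + 2 * r u w + 2 * r v w - (r u p + r v p + r w p) - (r u q + r v q + r w q)
        + 2 * r p q)| ≤ (a u p * a v p * a w p) * (a u q * a v q * a w q * a p q) * (14 * m) := by
    intro p q
    have c0 : 0 ≤ (a u p * a v p * a w p) * (a u q * a v q * a w q * a p q) := by
      have := H.nn
      exact mul_nonneg (mul_nonneg (mul_nonneg (this _ _) (this _ _)) (this _ _))
        (mul_nonneg (mul_nonneg (mul_nonneg (this _ _) (this _ _)) (this _ _)) (this _ _))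
    rw [abs_mul, abs_of_nonneg c0]
    refine mul_le_mul_of_nonneg_left ?_ c0
    rw [abs_le]
    constructor <;> linarith [hr u v, hr u w, hr v w, hr u p, hr v p, hr w p, hr u q, hr v q,
      hr w q, hr p q]
  unfold bkW
  refine (abs_sum_le_sum_abs _ _).trans ?_
  refine (sum_le_sum fun p _ => (abs_sum_le_sum_abs _ _).trans (sum_le_sum fun q _ => key p q)).trans ?_
  simp only [← sum_mul]
  exact mul_le_mul_of_nonneg_right (H.pq h1 h2 h3).2 (by positivity)

theorem k5_bkH {V : Type} [Fintype V] [DecidableEq V] {G : Finset (Sym2 V)} (hG : NoLoop G)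
    {N : ℕ → ℝ} (h2 : 0 < N 2) (h3 : 0 < N 3) (h4 : 0 < N 4)
    (hT : ∀ S : Finset V, 2 ≤ S.card → S.card ≤ 4 →
      |((univ.filter fun w => ∀ u ∈ S, s(u, w) ∈ G).card : ℝ) - N S.card| ≤ N S.card / 100) :
    BkH (fun x y : V => if s(x, y) ∈ G then (1 : ℝ) else 0) (N 2) (N 3) (N 4) := by
  set a : V → V → ℝ := fun x y => if s(x, y) ∈ G then 1 else 0 with ha
  have a1 : ∀ x y, a x y = 1 ↔ s(x, y) ∈ G := fun x y => by
    simp only [ha]; split_ifs with h <;> simp [h]
  have ne : ∀ x y, s(x, y) ∈ G → x ≠ y := fun x y h e => hG _ h (by simp [e])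
  have cnS : ∀ S : Finset V,
      ((univ.filter fun w => ∀ u ∈ S, s(u, w) ∈ G).card : ℝ) = ∑ w, ∏ u ∈ S, a u w := by
    intro S
    rw [card_filter]
    push_cast
    refine sum_congr rfl fun w _ => ?_
    simp only [ha]
    rw [Finset.prod_ite_zero]
    simp
  refine ⟨fun x y => ?_, h2, h3, h4, ?_, ?_, ?_⟩
  · simp only [ha]; split_ifs <;> simp
  · intro u v e1
    rw [a1] at e1
    have n1 := ne _ _ e1
    have c : ({u, v} : Finset V).card = 2 := card_pair n1
    have := hT {u, v} (by omega) (by omega)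
    rw [c, cnS] at this
    simpa [prod_insert, n1] using this
  · intro u v w e1 e2 e3
    rw [a1] at e1 e2 e3
    have n1 := ne _ _ e1
    have n2 := ne _ _ e2
    have n3 := ne _ _ e3
    have c : ({u, v, w} : Finset V).card = 3 := by
      rw [card_insert_of_notMem (by simp [n1, n2]), card_pair n3]
    have := hT {u, v, w} (by omega) (by omega)
    rw [c, cnS] at this
    simpa [prod_insert, n1, n2, n3, mul_assoc] using this
  · intro u v w p e1 e2 e3 e4 e5 e6
    rw [a1] at e1 e2 e3 e4 e5 e6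
    have n1 := ne _ _ e1
    have n2 := ne _ _ e2
    have n3 := ne _ _ e3
    have n4 := ne _ _ e4
    have n5 := ne _ _ e5
    have n6 := ne _ _ e6
    have c : ({u, v, w, p} : Finset V).card = 4 := by
      rw [card_insert_of_notMem (by simp [n1, n2, n4]), card_insert_of_notMem (by simp [n3, n5]),
        card_pair n6]
    have := hT {u, v, w, p} (by omega) (by omega)
    rw [c, cnS] at this
    simpa [prod_insert, n1, n2, n3, n4, n5, n6, mul_assoc] using this

theorem p_K5 :
    S_K5 := by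
  intro V _ _ G β hG hβ _ hT η hη
  rcases Nat.eq_zero_or_pos (Fintype.card V) with h0 | h0
  · refine ⟨fun _ => 0, fun t => by simp [h0], fun t h => absurd rfl h, fun u v _ => ?_⟩
    exact absurd (Fintype.card_pos_iff.2 ⟨u⟩) (by omega)
  have hn : (0 : ℝ) < Fintype.card V := by exact_mod_cast h0
  have H := k5_bkH (N := fun k => Fintype.card V * β ^ k) hG (by positivity) (by positivity)
    (by positivity) hT
  generalize (Fintype.card V : ℝ) * β ^ 2 = N2 at H ⊢
  generalize (Fintype.card V : ℝ) * β ^ 3 = N3 at H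
  generalize (Fintype.card V : ℝ) * β ^ 4 = N4 at H
  have p2 := H.p2
  have p3 := H.p3
  have p4 := H.p4
  set a : V → V → ℝ := fun x y => if s(x, y) ∈ G then 1 else 0 with ha
  have a1 : ∀ x y, a x y = 1 ↔ s(x, y) ∈ G := fun x y => by
    simp only [ha]; split_ifs with h <;> simp [h]
  have hs : ∀ x y, a x y = a y x := fun x y => by simp only [ha, Sym2.eq_swap (a := x)]
  have ne : ∀ x y, s(x, y) ∈ G → x ≠ y := fun x y h e => hG _ h (by simp [e])
  set r : V → V → ℝ := fun x y => a x y * η s(x, y) / bk5 a x y with hr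
  have rs : ∀ x y, r x y = r y x := fun x y => by
    simp only [hr]; rw [bk5_symm a x y, hs x y, Sym2.eq_swap (a := x)]
  have r0 : ∀ x, r x x = 0 := fun x => by
    have : a x x = 0 := by
      simp only [ha]; rw [if_neg]; exact fun h => ne _ _ h rfl
    simp only [hr, this]; simp
  have pN : 0 < N2 * N3 * N4 := by positivity
  have rle : ∀ x y, |r x y| ≤ 1 / (29 * (N2 * N3 * N4)) := by
    intro x y
    simp only [hr]
    rcases H.zo x y with e | e
    · rw [e]; simp; positivity
    have hk := H.k5 e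
    have hk' : 97 / 100 * (N2 * N3 * N4) ≤ bk5 a x y := by nlinarith
    have k0 : 0 < bk5 a x y := lt_of_lt_of_le (by positivity) hk'
    have hd := hη _ ((a1 _ _).1 e)
    rw [e, one_mul, abs_div, abs_of_pos k0, div_le_div_iff₀ k0 (by positivity)]
    nlinarith
  set Wt : Finset V → ℝ := fun t => ∑ p, ∑ q, (∏ x ∈ t, a x p) * ((∏ x ∈ t, a x q) * a p q) *
    (∑ x ∈ t, ∑ y ∈ t, r x y - ∑ x ∈ t, r x p - ∑ x ∈ t, r x q + 2 * r p q) with hW
  have hWt : ∀ u v w, u ≠ v → u ≠ w → v ≠ w → Wt {u, v, w} = bkW a r u v w := by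
    intro u v w n1 n2 n3
    simp only [hW, bkW]
    refine sum_congr rfl fun p _ => sum_congr rfl fun q _ => ?_
    have m1 : u ∉ ({v, w} : Finset V) := by simp [n1, n2]
    have m2 : v ∉ ({w} : Finset V) := by simp [n3]
    simp only [prod_insert m1, prod_insert m2, prod_singleton, sum_insert m1, sum_insert m2,
      sum_singleton, r0, rs v u, rs w u, rs w v]
    ring
  refine ⟨fun t => if t ∈ tri G then Wt t / 2 else 0, fun t => ?_, fun t h => ?_, fun u v he => ?_⟩
  · beta_reduce
    split_ifs with ht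
    · obtain ⟨c, hsub⟩ := mem_tri.1 ht
      obtain ⟨u, v, w, n1, n2, n3, rfl⟩ := card_eq_three.1 c
      have g : ∀ x y, x ∈ ({u, v, w} : Finset V) → y ∈ ({u, v, w} : Finset V) → x ≠ y →
          a x y = 1 := fun x y hx hy h => (a1 _ _).2 (hsub (mk_mem_ed.2 ⟨hx, hy, h⟩))
      have := k5_W_le H (by positivity) rle (g u v (by simp) (by simp) n1)
        (g u w (by simp) (by simp) n2) (g v w (by simp) (by simp) n3)
      have e : 101 / 100 * N3 * (101 / 100 * N4) * (14 * (1 / (29 * (N2 * N3 * N4))))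
          = (101 / 100 * (101 / 100) * 14 / 29) / N2 := by
        field_simp
      have e2 : (101 / 100 * (101 / 100) * 14 / 29) / N2 ≤ 1 / N2 :=
        div_le_div_of_nonneg_right (by norm_num) p2.le
      have e3 : 1 / (2 * N2) = 1 / N2 / 2 := by field_simp
      rw [hWt u v w n1 n2 n3, abs_div, abs_two, e3]
      linarith
    · simp; positivity
  · by_contra ht
    exact h (if_neg ht)
  · have e : ∀ F : V → ℝ, ∑ w ∈ nb G u ∩ nb G v, F w = ∑ w, a u w * a v w * F w := by
      intro F
      rw [← sum_subset (subset_univ (nb G u ∩ nb G v))]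
      · refine sum_congr rfl fun w hw => ?_
        rw [mem_inter, mem_nb, mem_nb] at hw
        rw [(a1 _ _).2 hw.1, (a1 _ _).2 hw.2]; ring
      · intro w _ hw
        rw [mem_inter, mem_nb, mem_nb, not_and_or] at hw
        rcases hw with h | h <;> simp [ha, h]
    unfold wd
    have e2 : ∑ w ∈ nb G u ∩ nb G v,
        (if ({u, v, w} : Finset V) ∈ tri G then Wt {u, v, w} / 2 else 0)
        = ∑ w ∈ nb G u ∩ nb G v, bkW a r u v w / 2 := by
      refine sum_congr rfl fun w hw => ?_
      rw [mem_inter, mem_nb, mem_nb] at hw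
      rw [if_pos (triple_mem_tri hG he hw.1 hw.2), hWt u v w (ne _ _ he) (ne _ _ hw.1) (ne _ _ hw.2)]
    rw [e2, e]
    have e3 := bkW_sum hs rs u v
    have e4 : ∑ w, a u w * a v w * (bkW a r u v w / 2)
        = (∑ w, a u w * a v w * bkW a r u v w) / 2 := by
      rw [sum_div]
      exact sum_congr rfl fun w _ => by ring
    have k0 : 0 < bk5 a u v :=
      lt_of_lt_of_le (by positivity) (H.k5 ((a1 _ _).2 he))
    have e5 : r u v * bk5 a u v = η s(u, v) := by
      simp only [hr]
      rw [(a1 _ _).2 he, one_mul, div_mul_cancel₀ _ k0.ne']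
    rw [e4, e3]
    linarith

end Pool.Agent.P.MP_224820_co.St
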