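import Pool.Agent.P.MP_224820_co.St.IfaceN
import Pool.Agent.P.MP_224820_co.St.IfaceP

/-! Step LA. -/

set_option autoImplicit false

namespace Pool.Agent.P.MP_224820_co.St

open Finset

section aux
variable {V : Type} [Fintype V] [DecidableEq V]

theorem la_mem_blk {G R : Finset (Sym2 V)} {e : Sym2 V} {t : Finset V} :
    t ∈ blk G R e ↔ Ty G R t ∧ e ∈ ed t := by
  unfold blk
  simp

theorem la_lst (G R : Finset (Sym2 V)) (Q : Finset (Finset V)) (f : Sym2 V) :
    lst G R Q f = (blk G R f ∩ Q).card := by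
  classical
  unfold lst
  rw [cnt_eq]
  congr 1
  ext t
  rw [mem_filter, mem_inter, la_mem_blk]
  tauto

theorem la_card_blk {G R : Finset (Sym2 V)} (hG : NoLoop G) (hR : NoLoop R) (hd : Disjoint G R)
    {dR : ℝ} (h : ∀ v, ((nb R v).card : ℝ) ≤ dR) {f : Sym2 V} (hf : f ∈ R) :
    ((blk G R f).card : ℝ) ≤ 2 * dR := by
  induction f using Sym2.ind with
  | _ u w =>
    have h1 : blk G R s(u, w) ⊆ (nb R w ∪ nb R u).image fun x => ({u, w, x} : Finset V) := by
      intro t ht
      obtain ⟨a, b⟩ := la_mem_blk.1 ht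
      obtain ⟨x, rfl, hx⟩ := Ty_of_right hG hR hd a hf b
      refine mem_image.2 ⟨x, ?_, rfl⟩
      rcases hx with hx | hx
      · exact mem_union_left _ (mem_nb.2 hx.2)
      · exact mem_union_right _ (mem_nb.2 hx.2)
    have h2 : (blk G R s(u, w)).card ≤ (nb R w).card + (nb R u).card :=
      (card_le_card h1).trans (card_image_le.trans (card_union_le _ _))
    have h3 : ((blk G R s(u, w)).card : ℝ) ≤ (nb R w).card + (nb R u).card := by exact_mod_cast h2
    linarith [h w, h u]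

theorem la_nb_exc (G R : Finset (Sym2 V)) (k : ℝ) (Q : Finset (Finset V)) (v : V) :
    (nb (exc G R k Q) v).card ≤ cnt (nb G v) (fun w => s(v, w) ∈ exc G R k Q) := by
  classical
  rw [cnt_eq]
  refine card_le_card fun w hw => ?_
  have h1 := mem_nb.1 hw
  refine mem_filter.2 ⟨mem_nb.2 ?_, h1⟩
  unfold exc at h1
  exact (mem_filter.1 h1).1

end aux

theorem la_e : Real.exp 1 - 1 ≤ 2 := by
  have := Real.exp_one_lt_d9
  linarith

theorem p_LA (hLE : S_LE) (hCH : S_CH) (hCH1 : S_CH1) :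
    S_LA := by
  intro V _ _ G R hG hR hd q N1 dR k ps ds Z hq0 hq1 hN hdR hps
  obtain ⟨hp, hE⟩ := hLE V G R hG hR hd q N1 k hq0 hq1 hN
  have hps0 : 0 ≤ ps := (Real.exp_pos _).le.trans hps
  have hn0 : (0 : ℝ) ≤ Fintype.card V := Nat.cast_nonneg _
  have hA : ∀ v ∈ (univ : Finset V),
      Pr (tyP G R q) (fun Q => ¬ (((nb (exc G R k Q) v).card : ℝ) ≤ ds))
        ≤ Real.exp (2 * Fintype.card V * ps - ds) := by
    intro v _
    have hpd : ((nb G v : Finset V) : Set V).PairwiseDisjoint fun w => blk G R s(v, w) := by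
      intro w hw w' hw' hne
      refine disjoint_left.2 fun t ht ht' => hne ?_
      obtain ⟨a, b⟩ := la_mem_blk.1 ht
      obtain ⟨-, c⟩ := la_mem_blk.1 ht'
      exact gra_inj v (Ty_unique hG hR hd a (mem_nb.1 (mem_coe.1 hw)) (mem_nb.1 (mem_coe.1 hw')) b c)
    have h1 := (hCH (Finset V) V (tyP G R q) hp (nb G v) (fun w => blk G R s(v, w))
      (fun w Q => s(v, w) ∈ exc G R k Q) hpd (fun w _ => (hE s(v, w)).2) 1
      (Fintype.card V * ps) ds zero_le_one).1 (by
        calc ∑ w ∈ nb G v, Pr (tyP G R q) (fun Q => s(v, w) ∈ exc G R k Q)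
            ≤ ∑ _w ∈ nb G v, ps := sum_le_sum fun w _ => (hE s(v, w)).1.trans hps
          _ = (nb G v).card * ps := by simp
          _ ≤ Fintype.card V * ps := by
            refine mul_le_mul_of_nonneg_right ?_ hps0
            exact_mod_cast card_le_univ _)
    refine (Pr_mono hp fun Q hQ => ?_).trans (h1.trans (Real.exp_le_exp.2 ?_))
    · have h2 : ((nb (exc G R k Q) v).card : ℝ)
          ≤ cnt (nb G v) (fun w => s(v, w) ∈ exc G R k Q) := by
        exact_mod_cast la_nb_exc G R k Q v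
      linarith [not_le.1 hQ]
    · have := mul_le_mul_of_nonneg_left la_e (mul_nonneg hn0 hps0)
      linarith
  have hB : ∀ f ∈ R, Pr (tyP G R q) (fun Q => ¬ ((lst G R Q f : ℝ) ≤ Z))
      ≤ Real.exp (4 * q * dR - Z) := by
    intro f hf
    have hc := la_card_blk hG hR hd hdR hf
    have hdR0 : 0 ≤ dR := by
      have : (0 : ℝ) ≤ (blk G R f).card := Nat.cast_nonneg _
      linarith
    have h1 := (hCH1 (Finset V) (tyP G R q) hp (blk G R f) 1 (2 * dR * q) Z zero_le_one).1 (by
      calc ∑ t ∈ blk G R f, tyP G R q t ≤ ∑ _t ∈ blk G R f, q := by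
            refine sum_le_sum fun t _ => ?_
            unfold tyP
            split_ifs
            · exact le_rfl
            · exact hq0
        _ = (blk G R f).card * q := by simp
        _ ≤ 2 * dR * q := mul_le_mul_of_nonneg_right hc hq0)
    refine (Pr_mono hp fun Q hQ => ?_).trans (h1.trans (Real.exp_le_exp.2 ?_))
    · rw [la_lst] at hQ
      exact (not_le.1 hQ).le
    · have := mul_le_mul_of_nonneg_left la_e (show 0 ≤ 2 * dR * q by positivity)
      linarith
  have h1 := Pr_exists_le' hp univ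
    (fun v Q => ¬ (((nb (exc G R k Q) v).card : ℝ) ≤ ds)) hA
  have h2 := Pr_exists_le' hp R (fun f Q => ¬ ((lst G R Q f : ℝ) ≤ Z)) hB
  have h3 : (R.card : ℝ) ≤ (Fintype.card V : ℝ) ^ 2 := by exact_mod_cast card_sym2_le R
  have h4 := mul_le_mul_of_nonneg_right h3 (Real.exp_pos (4 * q * dR - Z)).le
  rw [card_univ] at h1
  refine (Pr_mono hp (E' := fun Q => (∃ v ∈ (univ : Finset V),
    ¬ (((nb (exc G R k Q) v).card : ℝ) ≤ ds)) ∨ ∃ f ∈ R, ¬ ((lst G R Q f : ℝ) ≤ Z))
    fun Q hQ => ?_).trans ((Pr_or_le hp _ _).trans (by linarith))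
  by_contra hc
  rw [not_or] at hc
  refine hQ ⟨fun v => ?_, fun f hf => ?_⟩
  · by_contra h
    exact hc.1 ⟨v, mem_univ v, h⟩
  · by_contra h
    exact hc.2 ⟨f, hf, h⟩

end Pool.Agent.P.MP_224820_co.St
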