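import Pool.Agent.P.MP_224820_co.St.Base

/-! Chernoff bounds for `Pr`. -/

set_option autoImplicit false

namespace Pool.Agent.P.MP_224820_co.St

open Finset

variable {α : Type} [Fintype α] [DecidableEq α]

/-- products of coordinate functions -/
theorem Ex_prod_mem (p : α → ℝ) (S : Finset α) (x y : α → ℝ) :
    Ex p (fun R => ∏ a ∈ S, if a ∈ R then x a else y a) = ∏ a ∈ S, (p a * x a + (1 - p a) * y a) := by
  rw [Ex_prod_loc p S (fun a => {a}) (fun a _ b _ h => by simpa [Function.onFun] using h)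
    (fun a R => if a ∈ R then x a else y a)]
  · refine prod_congr rfl fun a _ => ?_
    rw [Ex_coord p a]
    simp [Ex_const]
  · intro a _ R R' h
    have : a ∈ R ↔ a ∈ R' := by
      constructor
      · intro ha
        have : a ∈ R ∩ {a} := by simp [ha]
        rw [h] at this
        exact (mem_inter.1 this).1
      · intro ha
        have : a ∈ R' ∩ {a} := by simp [ha]
        rw [← h] at this
        exact (mem_inter.1 this).1
    simp [this]

omit [Fintype α] in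
theorem exp_sum_inter (S R : Finset α) (c : α → ℝ) :
    Real.exp (∑ a ∈ R ∩ S, c a) = ∏ a ∈ S, if a ∈ R then Real.exp (c a) else 1 := by
  rw [Real.exp_sum, inter_comm, ← filter_mem_eq_inter, prod_filter]

/-- exponential moment of a weighted count -/
theorem Ex_exp_sum {p : α → ℝ} (hp : IsP p) (S : Finset α) (c : α → ℝ) :
    Ex p (fun R => Real.exp (∑ a ∈ R ∩ S, c a)) ≤ Real.exp (∑ a ∈ S, p a * (Real.exp (c a) - 1)) := by
  rw [Ex_congr (fun R => exp_sum_inter S R c), Ex_prod_mem, Real.exp_sum]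
  refine prod_le_prod (fun a _ => ?_) fun a _ => ?_
  · have := hp a
    have := Real.exp_pos (c a)
    nlinarith [this.le]
  · have := Real.add_one_le_exp (p a * (Real.exp (c a) - 1))
    linarith

theorem Ex_exp_card {p : α → ℝ} (hp : IsP p) (S : Finset α) (θ : ℝ) :
    Ex p (fun R => Real.exp (θ * (R ∩ S).card)) ≤ Real.exp ((Real.exp θ - 1) * ∑ a ∈ S, p a) := by
  have h := Ex_exp_sum hp S fun _ => θ
  simp only [sum_const, nsmul_eq_mul] at h
  rw [← sum_mul, mul_comm] at h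
  refine le_trans (le_of_eq (Ex_congr fun R => by rw [mul_comm])) h

/-- upper tail -/
theorem chern_hi {p : α → ℝ} (hp : IsP p) (S : Finset α) {μ k θ : ℝ} (hμ : ∑ a ∈ S, p a ≤ μ)
    (hθ : 0 ≤ θ) : Pr p (fun R => k ≤ (R ∩ S).card) ≤ Real.exp ((Real.exp θ - 1) * μ - θ * k) := by
  have h1 : Pr p (fun R => k ≤ (R ∩ S).card)
      ≤ Ex p (fun R => Real.exp (-(θ * k)) * Real.exp (θ * (R ∩ S).card)) := by
    refine Pr_le_Ex hp (fun R => by positivity) fun R h => ?_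
    rw [← Real.exp_add]
    exact Real.one_le_exp (by nlinarith)
  rw [Ex_mul] at h1
  have h2 := Ex_exp_card hp S θ
  have h3 : 0 ≤ Real.exp θ - 1 := by linarith [Real.one_le_exp hθ]
  refine h1.trans ?_
  rw [sub_eq_add_neg, add_comm, Real.exp_add]
  refine mul_le_mul_of_nonneg_left (h2.trans (Real.exp_le_exp.2 ?_)) (Real.exp_pos _).le
  exact mul_le_mul_of_nonneg_left hμ h3

/-- lower tail -/
theorem chern_lo {p : α → ℝ} (hp : IsP p) (S : Finset α) {μ k θ : ℝ} (hμ : μ ≤ ∑ a ∈ S, p a)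
    (hθ : 0 ≤ θ) :
    Pr p (fun R => ((R ∩ S).card : ℝ) ≤ k) ≤ Real.exp (θ * k - (1 - Real.exp (-θ)) * μ) := by
  have h1 : Pr p (fun R => ((R ∩ S).card : ℝ) ≤ k)
      ≤ Ex p (fun R => Real.exp (θ * k) * Real.exp (-θ * (R ∩ S).card)) := by
    refine Pr_le_Ex hp (fun R => by positivity) fun R h => ?_
    rw [← Real.exp_add]
    exact Real.one_le_exp (by nlinarith)
  rw [Ex_mul] at h1
  have h2 := Ex_exp_card hp S (-θ)
  have h3 : Real.exp (-θ) ≤ 1 := Real.exp_le_one_iff.2 (by linarith)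
  refine h1.trans ?_
  rw [sub_eq_add_neg, Real.exp_add]
  refine mul_le_mul_of_nonneg_left (h2.trans (Real.exp_le_exp.2 ?_)) (Real.exp_pos _).le
  nlinarith

theorem exp_le_quad {x : ℝ} (h : |x| ≤ 1) : Real.exp x ≤ 1 + x + x ^ 2 := by
  have := Real.abs_exp_sub_one_sub_id_le h
  linarith [le_abs_self (Real.exp x - 1 - x)]

theorem exp_neg_le_quad {x : ℝ} (h : 0 ≤ x) : Real.exp (-x) ≤ 1 - x + x ^ 2 / 2 := by
  have h1 : 1 + x + x ^ 2 / 2 ≤ Real.exp x := Real.quadratic_le_exp_of_nonneg h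
  have h2 : 0 < 1 + x + x ^ 2 / 2 := by positivity
  rw [Real.exp_neg, inv_le_iff_one_le_mul₀ (Real.exp_pos _)]
  have h3 : 0 ≤ 1 - x + x ^ 2 / 2 := by nlinarith [sq_nonneg (x - 1)]
  nlinarith [mul_le_mul_of_nonneg_left h1 h3, sq_nonneg (x ^ 2)]

/-- lower tail, relative form -/
theorem chern_lo_rel {p : α → ℝ} (hp : IsP p) (S : Finset α) {μ x : ℝ} (hμ0 : 0 ≤ μ)
    (hμ : μ ≤ ∑ a ∈ S, p a) (hx : 0 ≤ x) :
    Pr p (fun R => ((R ∩ S).card : ℝ) ≤ (1 - x) * μ) ≤ Real.exp (-(x ^ 2 * μ / 2)) := by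
  refine (chern_lo hp S hμ hx).trans (Real.exp_le_exp.2 ?_)
  have := exp_neg_le_quad hx
  nlinarith [mul_le_mul_of_nonneg_right this hμ0]

/-- upper tail, relative form -/
theorem chern_hi_rel {p : α → ℝ} (hp : IsP p) (S : Finset α) {μ x : ℝ}
    (hμ : ∑ a ∈ S, p a ≤ μ) (hx : 0 ≤ x) (hx2 : x ≤ 2) :
    Pr p (fun R => (1 + x) * μ ≤ (R ∩ S).card) ≤ Real.exp (-(x ^ 2 * μ / 4)) := by
  have hμ0 : 0 ≤ μ := le_trans (sum_nonneg fun a _ => (hp a).1) hμ
  refine (chern_hi hp S (θ := x / 2) hμ (by linarith)).trans (Real.exp_le_exp.2 ?_)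
  have := exp_le_quad (x := x / 2) (by rw [abs_of_nonneg (by linarith)]; linarith)
  nlinarith [mul_le_mul_of_nonneg_right this hμ0]

theorem chern_half {p : α → ℝ} (hp : IsP p) (S : Finset α) {μ : ℝ} (hμ0 : 0 ≤ μ)
    (hμ : μ ≤ ∑ a ∈ S, p a) :
    Pr p (fun R => ((R ∩ S).card : ℝ) ≤ μ / 2) ≤ Real.exp (-(μ / 8)) := by
  have h := chern_lo_rel hp S hμ0 hμ (x := 1 / 2) (by norm_num)
  have e1 : (1 - 1 / 2) * μ = μ / 2 := by ring
  have e2 : (1 / 2) ^ 2 * μ / 2 = μ / 8 := by ring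
  rwa [e1, e2] at h

theorem chern_two {p : α → ℝ} (hp : IsP p) (S : Finset α) {μ : ℝ} (hμ : ∑ a ∈ S, p a ≤ μ) :
    Pr p (fun R => 2 * μ ≤ (R ∩ S).card) ≤ Real.exp (-(μ / 4)) := by
  have h := chern_hi_rel hp S hμ (x := 1) (by norm_num) (by norm_num)
  have e1 : (1 + 1) * μ = 2 * μ := by ring
  have e2 : (1 : ℝ) ^ 2 * μ / 4 = μ / 4 := by ring
  rwa [e1, e2] at h

/-- two-sided relative form -/
theorem chern_rel {p : α → ℝ} (hp : IsP p) (S : Finset α) {μ x : ℝ} (hμ : ∑ a ∈ S, p a = μ)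
    (hx : 0 ≤ x) (hx2 : x ≤ 2) :
    Pr p (fun R => x * μ ≤ |((R ∩ S).card : ℝ) - μ|) ≤ 2 * Real.exp (-(x ^ 2 * μ / 4)) := by
  have hμ0 : 0 ≤ μ := hμ ▸ sum_nonneg fun a _ => (hp a).1
  have h1 := chern_hi_rel hp S hμ.le hx hx2
  have h2 := chern_lo_rel hp S hμ0 hμ.ge hx
  have h3 : Real.exp (-(x ^ 2 * μ / 2)) ≤ Real.exp (-(x ^ 2 * μ / 4)) :=
    Real.exp_le_exp.2 (by nlinarith [mul_nonneg (sq_nonneg x) hμ0])
  have h4 := Pr_or_le hp (fun R => (1 + x) * μ ≤ (R ∩ S).card)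
    (fun R => ((R ∩ S).card : ℝ) ≤ (1 - x) * μ)
  refine le_trans (Pr_mono hp fun R h => ?_) (h4.trans (by linarith))
  rcases le_abs.1 h with h | h
  · left; linarith
  · right; linarith

/-- far upper tail: a count with mean at most `μ` reaches `k ≥ c μ` with probability `(e / c) ^ k` -/
theorem chern_far {p : α → ℝ} (hp : IsP p) (S : Finset α) {μ k c : ℝ} (hμ : ∑ a ∈ S, p a ≤ μ)
    (hc : 1 ≤ c) (hk : c * μ ≤ k) :
    Pr p (fun R => k ≤ (R ∩ S).card) ≤ Real.exp (-((Real.log c - 1) * k)) := by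
  have hμ0 : 0 ≤ μ := le_trans (sum_nonneg fun a _ => (hp a).1) hμ
  refine (chern_hi hp S hμ (Real.log_nonneg hc)).trans (Real.exp_le_exp.2 ?_)
  rw [Real.exp_log (by linarith)]
  nlinarith

/-- far upper tail, power form: at least `k` successes have probability at most `μ ^ k` -/
theorem chern_pow {p : α → ℝ} (hp : IsP p) (S : Finset α) {μ : ℝ} (hμ : ∑ a ∈ S, p a ≤ μ) (k : ℕ) :
    Pr p (fun R => k ≤ (R ∩ S).card) ≤ μ ^ k := by
  have h1 : Pr p (fun R => k ≤ (R ∩ S).card) ≤ ∑ F ∈ powersetCard k S, Pr p (fun R => F ⊆ R) := by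
    refine le_trans (Pr_mono hp fun R h => ?_) (Pr_exists_le hp _ _)
    obtain ⟨F, hF, hc⟩ := exists_subset_card_eq h
    exact ⟨F, mem_powersetCard.2 ⟨hF.trans inter_subset_right, hc⟩, hF.trans inter_subset_left⟩
  refine h1.trans ?_
  simp only [Pr_subset]
  have h0 : ∀ a, 0 ≤ p a := fun a => (hp a).1
  refine le_trans ?_ (pow_le_pow_left₀ (sum_nonneg fun a _ => h0 a) hμ k)
  clear h1 hμ
  induction k generalizing S with
  | zero => simp
  | succ k ih =>
    have key : ∑ F ∈ powersetCard (k + 1) S, ∏ a ∈ F, p a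
        ≤ ∑ a ∈ S, ∑ F ∈ powersetCard k S, p a * ∏ b ∈ F, p b := by
      rw [← sum_product']
      have hne : ∀ F ∈ powersetCard (k + 1) S, F.Nonempty := fun F hF =>
        card_pos.1 (by rw [(mem_powersetCard.1 hF).2]; omega)
      have hsur : powersetCard (k + 1) S ⊆
          ((S ×ˢ powersetCard k S).filter fun x => x.1 ∉ x.2).image fun x => insert x.1 x.2 := by
        intro F hF
        obtain ⟨b, hb⟩ := hne F hF
        rw [mem_powersetCard] at hF
        refine mem_image.2 ⟨(b, F.erase b), mem_filter.2 ⟨mem_product.2 ⟨hF.1 hb,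
          mem_powersetCard.2 ⟨(erase_subset _ _).trans hF.1, ?_⟩⟩, notMem_erase _ _⟩,
          insert_erase hb⟩
        rw [card_erase_of_mem hb, hF.2]; rfl
      calc ∑ F ∈ powersetCard (k + 1) S, ∏ a ∈ F, p a
          ≤ ∑ F ∈ ((S ×ˢ powersetCard k S).filter fun x => x.1 ∉ x.2).image
              (fun x => insert x.1 x.2), ∏ a ∈ F, p a :=
            sum_le_sum_of_subset_of_nonneg hsur fun F _ _ => prod_nonneg fun a _ => h0 a
        _ ≤ ∑ x ∈ (S ×ˢ powersetCard k S).filter fun x => x.1 ∉ x.2, ∏ a ∈ insert x.1 x.2, p a :=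
            sum_image_le_of_nonneg fun F _ => prod_nonneg fun a _ => h0 a
        _ = ∑ x ∈ (S ×ˢ powersetCard k S).filter fun x => x.1 ∉ x.2, p x.1 * ∏ b ∈ x.2, p b :=
            sum_congr rfl fun x hx => prod_insert (mem_filter.1 hx).2
        _ ≤ _ := sum_le_sum_of_subset_of_nonneg (filter_subset _ _) fun x _ _ =>
            mul_nonneg (h0 _) (prod_nonneg fun a _ => h0 a)
    refine key.trans ?_
    rw [pow_succ, mul_comm, sum_mul]
    refine sum_le_sum fun a _ => ?_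
    rw [← mul_sum]
    exact mul_le_mul_of_nonneg_left (ih S) (h0 a)

end Pool.Agent.P.MP_224820_co.St
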