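import Pool.Agent.P.MP_224820_co.St.Cover
import Pool.Agent.P.MP_224820_co.St.Chern

/-! Probabilistic cover-down lemma. -/

set_option autoImplicit false

namespace Pool.Agent.P.MP_224820_co.St

open Finset

variable {V : Type} [Fintype V] [DecidableEq V]

theorem cnt_eq_inter {α : Type} [Fintype α] [DecidableEq α] (T : Finset α) (P : α → Prop)
    [DecidablePred P] : cnt T P = (T ∩ univ.filter P).card := by
  rw [cnt_eq]
  congr 1
  ext t
  simp

open Classical in
/-- the typed triangles on an edge of `L` -/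
theorem typed_left {L R : Finset (Sym2 V)} (hL : NoLoop L) (hR : NoLoop R) (hLR : Disjoint L R)
    {u v : V} (he : s(u, v) ∈ L) :
    (univ.filter fun t => Ty L R t ∧ s(u, v) ∈ ed t)
      = (nb R u ∩ nb R v).image fun w => ({u, v, w} : Finset V) := by
  ext t
  simp only [mem_filter, mem_univ, true_and, mem_image, mem_inter, mem_nb]
  constructor
  · rintro ⟨h1, h2⟩
    obtain ⟨w, rfl, a, b⟩ := Ty_of_left hL hR hLR h1 he h2
    exact ⟨w, ⟨a, b⟩, rfl⟩
  · rintro ⟨w, ⟨a, b⟩, rfl⟩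
    exact ⟨⟨u, v, w, rfl, he, a, b⟩, mk_mem_ed.2 ⟨by simp, by simp, hL.ne he⟩⟩

open Classical in
theorem sum_typed_left {L R : Finset (Sym2 V)} (hL : NoLoop L) (hR : NoLoop R)
    (hLR : Disjoint L R) {u v : V} (he : s(u, v) ∈ L) (f : Finset V → ℝ) :
    ∑ t ∈ univ.filter (fun t => Ty L R t ∧ s(u, v) ∈ ed t), f t
      = ∑ w ∈ nb R u ∩ nb R v, f {u, v, w} := by
  rw [typed_left hL hR hLR he, sum_image]
  intro w hw w' _ h
  rw [mem_coe, mem_inter, mem_nb, mem_nb] at hw
  exact triple_inj (hR.ne hw.1).symm (hR.ne hw.2).symm h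

open Classical in
/-- the typed triangles on an edge of `R` -/
theorem typed_right {L R : Finset (Sym2 V)} (hL : NoLoop L) (hR : NoLoop R) (hLR : Disjoint L R)
    {u w : V} (he : s(u, w) ∈ R) :
    (univ.filter fun t => Ty L R t ∧ s(u, w) ∈ ed t)
      ⊆ ((nb L u ∩ nb R w) ∪ (nb L w ∩ nb R u)).image fun x => ({u, w, x} : Finset V) := by
  intro t
  simp only [mem_filter, mem_univ, true_and, mem_image, mem_inter, mem_nb, mem_union]
  rintro ⟨h1, h2⟩
  obtain ⟨x, rfl, h⟩ := Ty_of_right hL hR hLR h1 he h2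
  exact ⟨x, h, rfl⟩

open Classical in
theorem card_typed_right {L R : Finset (Sym2 V)} (hL : NoLoop L) (hR : NoLoop R)
    (hLR : Disjoint L R) {u w : V} (he : s(u, w) ∈ R) :
    (univ.filter fun t => Ty L R t ∧ s(u, w) ∈ ed t).card
      ≤ (nb L u ∩ nb R w).card + (nb L w ∩ nb R u).card :=
  (card_le_card (typed_right hL hR hLR he)).trans (card_image_le.trans (card_union_le _ _))

open Classical in
/-- cover-down, in terms of expected list sizes and expected loads -/
theorem cover_prob {L R : Finset (Sym2 V)} (hL : NoLoop L) (hR : NoLoop R) (hLR : Disjoint L R)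
    {p : Finset V → ℝ} (hp : IsP p) {D : ℝ} (hD : 0 < D)
    (hlo : ∀ e ∈ L, 2 * D ≤ ∑ t ∈ univ.filter (fun t => Ty L R t ∧ e ∈ ed t), p t)
    (hhi : ∀ f ∈ R, ∑ t ∈ univ.filter (fun t => Ty L R t ∧ f ∈ ed t), p t ≤ D / 40) :
    Pr p (fun T => ¬ ∃ R' ⊆ R, Dec T (L ∪ R'))
      ≤ (Fintype.card V : ℝ) ^ 2 * Real.exp (-(D / 4)) := by
  have h1 : Pr p (fun T => ∃ e ∈ L,
      ((T ∩ univ.filter fun t => Ty L R t ∧ e ∈ ed t).card : ℝ) ≤ 2 * D / 2)
      ≤ L.card * Real.exp (-(D / 4)) := by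
    refine Pr_exists_le' hp L _ fun e he => ?_
    refine (chern_half hp _ (by linarith) (hlo e he)).trans (le_of_eq ?_)
    congr 1; ring
  have h2 : Pr p (fun T => ∃ f ∈ R,
      D / 4 ≤ ((T ∩ univ.filter fun t => Ty L R t ∧ f ∈ ed t).card : ℝ))
      ≤ R.card * Real.exp (-(D / 4)) := by
    refine Pr_exists_le' hp R _ fun f hf => ?_
    refine (chern_far hp _ (hhi f hf) (c := 10) (by norm_num) (by linarith)).trans
      (Real.exp_le_exp.2 ?_)
    have : (2 : ℝ) ≤ Real.log 10 := by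
      rw [Real.le_log_iff_exp_le (by norm_num)]
      have h := Real.exp_one_lt_d9
      have e : Real.exp 2 = Real.exp 1 * Real.exp 1 := by rw [← Real.exp_add]; norm_num
      have := Real.exp_pos 1
      nlinarith
    nlinarith
  have h3 := Pr_or_le hp (fun T => ∃ e ∈ L,
      ((T ∩ univ.filter fun t => Ty L R t ∧ e ∈ ed t).card : ℝ) ≤ 2 * D / 2)
    (fun T => ∃ f ∈ R, D / 4 ≤ ((T ∩ univ.filter fun t => Ty L R t ∧ f ∈ ed t).card : ℝ))
  have h4 : ((L.card : ℝ) + R.card) ≤ (Fintype.card V : ℝ) ^ 2 := by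
    have := card_sym2_le (L ∪ R)
    rw [card_union_of_disjoint hLR] at this
    exact_mod_cast this
  refine le_trans (Pr_mono hp fun T hT => ?_) (h3.trans ?_)
  · by_contra hc
    rw [not_or] at hc
    obtain ⟨c1, c2⟩ := hc
    refine hT (cover_det hL hR hLR (D := D) (d := D / 4) hD (by linarith) (by linarith) ?_ ?_)
    · intro e he
      rw [cnt_eq_inter]
      by_contra h
      exact c1 ⟨e, he, by linarith [not_le.1 h]⟩
    · intro f hf
      rw [cnt_eq_inter]
      by_contra h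
      exact c2 ⟨f, hf, (not_le.1 h).le⟩
  · nlinarith [Real.exp_pos (-(D / 4))]

/-- cover-down, in terms of common neighbourhoods: typed triangles are present with probability in
`[q, q']`, every edge of `L` has `M` typed triangles, the codegree of `L` with `R` is at most `m` -/
theorem cover_nb {L R : Finset (Sym2 V)} (hL : NoLoop L) (hR : NoLoop R) (hLR : Disjoint L R)
    {p : Finset V → ℝ} (hp : IsP p) {q q' M m : ℝ} (hq : 0 < q) (hq' : 0 ≤ q') (hM : 0 < M)
    (hpq : ∀ t, Ty L R t → q ≤ p t ∧ p t ≤ q')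
    (hlo : ∀ u v, s(u, v) ∈ L → M ≤ (nb R u ∩ nb R v).card)
    (hhi : ∀ u w, s(u, w) ∈ R → ((nb L u ∩ nb R w).card : ℝ) ≤ m)
    (hm : 160 * m * q' ≤ M * q) :
    Pr p (fun T => ¬ ∃ R' ⊆ R, Dec T (L ∪ R'))
      ≤ (Fintype.card V : ℝ) ^ 2 * Real.exp (-(M * q / 8)) := by
  classical
  have h := cover_prob hL hR hLR hp (D := M * q / 2) (by positivity) ?_ ?_
  · refine h.trans (le_of_eq ?_)
    congr 2; ring
  · intro e he
    induction e using Sym2.ind with
    | _ u v =>
    refine le_trans ?_ (le_of_eq (sum_typed_left hL hR hLR he p).symm)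
    have : ∑ _w ∈ nb R u ∩ nb R v, q ≤ ∑ w ∈ nb R u ∩ nb R v, p {u, v, w} :=
      sum_le_sum fun w hw => by
        rw [mem_inter, mem_nb, mem_nb] at hw
        exact (hpq _ ⟨u, v, w, rfl, he, hw.1, hw.2⟩).1
    rw [sum_const, nsmul_eq_mul] at this
    nlinarith [hlo u v he]
  · intro f hf
    induction f using Sym2.ind with
    | _ u w =>
    have h1 : ∑ t ∈ univ.filter (fun t => Ty L R t ∧ s(u, w) ∈ ed t), p t
        ≤ ∑ _t ∈ univ.filter (fun t => Ty L R t ∧ s(u, w) ∈ ed t), q' :=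
      sum_le_sum fun t ht => (hpq t (mem_filter.1 ht).2.1).2
    rw [sum_const, nsmul_eq_mul] at h1
    have h2 : ((univ.filter fun t => Ty L R t ∧ s(u, w) ∈ ed t).card : ℝ)
        ≤ (nb L u ∩ nb R w).card + (nb L w ∩ nb R u).card := by
      exact_mod_cast card_typed_right hL hR hLR hf
    have h3 := hhi u w hf
    have h4 := hhi w u (by rwa [Sym2.eq_swap])
    nlinarith

end Pool.Agent.P.MP_224820_co.St
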