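import Pool.Agent.P.MP_224820_co.St.IfaceN
import Pool.Agent.P.MP_224820_co.St.IfaceP
import Pool.Agent.P.MP_224820_co.St.CoverP

/-! Step LD. -/

set_option autoImplicit false

namespace Pool.Agent.P.MP_224820_co.St

open Finset

section aux
variable {V : Type} [Fintype V] [DecidableEq V]

omit [Fintype V] in
theorem ld_ty_mono {L L' R : Finset (Sym2 V)} (h : L ⊆ L') {t : Finset V} (ht : Ty L R t) :
    Ty L' R t := by
  obtain ⟨u, v, w, a, b, c, d⟩ := ht
  exact ⟨u, v, w, a, h b, c, d⟩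

omit [Fintype V] in
theorem ld_ty_edge {G L R : Finset (Sym2 V)} (hG : NoLoop G) (hR : NoLoop R) (hd : Disjoint G R)
    {t : Finset V} (ht : Ty G R t) {e : Sym2 V} (heG : e ∈ G) (he : e ∈ L) (het : e ∈ ed t) :
    Ty L R t := by
  induction e using Sym2.ind with
  | _ u v =>
    obtain ⟨w, a, b, c⟩ := Ty_of_left hG hR hd ht heG het
    exact ⟨u, v, w, a, he, b, c⟩

omit [Fintype V] in
theorem ld_ty_ex {L R : Finset (Sym2 V)} (hL : NoLoop L) {t : Finset V} (ht : Ty L R t) :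
    ∃ e ∈ L, e ∈ ed t := by
  obtain ⟨u, v, w, rfl, b, -, -⟩ := ht
  exact ⟨s(u, v), b, mk_mem_ed.2 ⟨by simp, by simp, hL.ne b⟩⟩

open Classical in
/-- the edges of `G` on a typed triangle of `Q` through `f` -/
noncomputable def ldJ (G R : Finset (Sym2 V)) (Q : Finset (Finset V)) (f : Sym2 V) :
    Finset (Sym2 V) :=
  G.filter fun e => ∃ t ∈ Q, Ty G R t ∧ f ∈ ed t ∧ e ∈ ed t

theorem ld_card_J {G R : Finset (Sym2 V)} (hG : NoLoop G) (hR : NoLoop R) (hd : Disjoint G R)
    (Q : Finset (Finset V)) (f : Sym2 V) : (ldJ G R Q f).card ≤ lst G R Q f := by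
  classical
  unfold lst
  rw [cnt_eq]
  refine card_le_card_of_forall_subsingleton (fun e t => e ∈ ed t) ?_ ?_
  · intro e he
    unfold ldJ at he
    rw [mem_filter] at he
    obtain ⟨-, t, a, b, c, d⟩ := he
    exact ⟨t, mem_filter.2 ⟨a, b, c⟩, d⟩
  · intro t ht e he e' he'
    rw [mem_filter] at ht
    have h1 : e ∈ G := (mem_filter.1 (mem_coe.1 he.1)).1
    have h2 : e' ∈ G := (mem_filter.1 (mem_coe.1 he'.1)).1
    exact Ty_unique hG hR hd ht.2.1 h1 h2 he.2 he'.2

theorem ld_det {G R : Finset (Sym2 V)} (hG : NoLoop G) (hR : NoLoop R) (hd : Disjoint G R)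
    {k : ℝ} (hk : 0 ≤ k) (Q T : Finset (Finset V)) {Λ : Finset (Sym2 V)} (hΛ : Λ ⊆ G)
    (hQ : ∀ e ∈ Λ, e ∉ exc G R k Q)
    (h1 : ∀ f ∈ R, (cnt (ldJ G R Q f) (fun e => e ∈ exc G R k T) : ℝ) ≤ k / 2)
    (h2 : ∀ f ∈ R, (cnt T (fun t => Ty Λ R t ∧ f ∈ ed t) : ℝ) ≤ k / 2) :
    ∃ U ⊆ R, Dec (Q ∪ T) (Λ ∪ U) := by
  classical
  have hL : NoLoop Λ := fun e he => hG e (hΛ he)
  have hLR : Disjoint Λ R := hd.mono_left hΛ
  have hfl : ∀ (S : Finset (Finset V)) (e : Sym2 V), e ∈ G → e ∉ exc G R k S →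
      ⌊4 * k⌋₊ + 1 ≤ lst G R S e := by
    intro S e he hn
    unfold exc at hn
    rw [mem_filter, not_and, not_le] at hn
    exact Nat.succ_le_of_lt ((Nat.floor_lt (by linarith)).2 (hn he))
  obtain ⟨U, hU, hD⟩ := cover_det hL hR hLR
    (T := T ∪ Q.filter (Ty (Λ ∩ exc G R k T) R))
    (D := ((⌊4 * k⌋₊ + 1 : ℕ) : ℝ)) (d := k) (by positivity) hk
    (by push_cast; exact (Nat.lt_floor_add_one _).le)
    (fun e he => by
      rw [Nat.cast_le]
      by_cases hx : e ∈ exc G R k T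
      · refine (hfl Q e (hΛ he) (hQ e he)).trans (cnt_mono fun t ht hp => ⟨?_, ?_, hp.2⟩)
        · exact mem_union_right _ (mem_filter.2
            ⟨ht, ld_ty_edge hG hR hd hp.1 (hΛ he) (mem_inter.2 ⟨he, hx⟩) hp.2⟩)
        · exact ld_ty_edge hG hR hd hp.1 (hΛ he) he hp.2
      · refine (hfl T e (hΛ he) hx).trans (cnt_mono fun t ht hp => ⟨mem_union_left _ ht, ?_, hp.2⟩)
        exact ld_ty_edge hG hR hd hp.1 (hΛ he) he hp.2)
    (fun f hf => by
      have a1 := h1 f hf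
      have a2 := h2 f hf
      have a3 : cnt (T ∪ Q.filter (Ty (Λ ∩ exc G R k T) R)) (fun t => Ty Λ R t ∧ f ∈ ed t)
          ≤ cnt T (fun t => Ty Λ R t ∧ f ∈ ed t)
            + cnt (ldJ G R Q f) (fun e => e ∈ exc G R k T) := by
        rw [cnt_eq, cnt_eq, cnt_eq, filter_union]
        refine (card_union_le _ _).trans (Nat.add_le_add_left ?_ _)
        refine card_le_card_of_forall_subsingleton (fun t e => e ∈ ed t) ?_ ?_
        · intro t ht
          rw [mem_filter, mem_filter] at ht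
          obtain ⟨⟨b1, b2⟩, b3, b4⟩ := ht
          obtain ⟨e, c1, c2⟩ := ld_ty_ex (fun e he => hL e (mem_inter.1 he).1) b2
          refine ⟨e, mem_filter.2 ⟨?_, (mem_inter.1 c1).2⟩, c2⟩
          unfold ldJ
          exact mem_filter.2 ⟨hΛ (mem_inter.1 c1).1, t, b1, ld_ty_mono hΛ b3, b4, c2⟩
        · intro e he t ht t' ht'
          have c1 : e ∈ G := (mem_filter.1 (mem_filter.1 he).1).1
          have c2 := (mem_filter.1 (mem_coe.1 ht.1)).2
          have c3 := (mem_filter.1 (mem_coe.1 ht'.1)).2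
          have hne : e ≠ f := fun h => disjoint_left.1 hd c1 (h ▸ hf)
          exact eq_of_two_edges (Ty_card hL hR c2.1).1 (Ty_card hL hR c3.1).1 hne ht.2 c2.2
            ht'.2 c3.2
      have a4 : ((cnt (T ∪ Q.filter (Ty (Λ ∩ exc G R k T) R))
          (fun t => Ty Λ R t ∧ f ∈ ed t) : ℕ) : ℝ)
          ≤ cnt T (fun t => Ty Λ R t ∧ f ∈ ed t)
            + cnt (ldJ G R Q f) (fun e => e ∈ exc G R k T) := by exact_mod_cast a3
      linarith)
  refine ⟨U, hU, Dec_mono ?_ hD⟩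
  exact union_subset subset_union_right ((filter_subset _ _).trans subset_union_left)

end aux

theorem p_LD (hLE : S_LE) (hCH : S_CH) (hCH1 : S_CH1) (hMONO : S_MONO) :
    S_LD := by
  intro V _ _ G R hG hR hd q N1 N2 k ps Z lam hq hk hlam hN1 hps Q hZ Λ hΛ hQ hN2 p hp hq1 hqp
  classical
  obtain ⟨hp0, hE⟩ := hLE V G R hG hR hd q N1 k hq hq1 hN1
  have hL : NoLoop Λ := fun e he => hG e (hΛ he)
  have hLR : Disjoint Λ R := hd.mono_left hΛ
  have hps0 : 0 ≤ ps := (Real.exp_pos _).le.trans hps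
  have hRc : (R.card : ℝ) ≤ (Fintype.card V : ℝ) ^ 2 := by exact_mod_cast card_sym2_le R
  have hmono := hMONO (Finset V) (tyP G R q) p hp0 hp
    (fun t => by
      unfold tyP
      split_ifs with h
      · exact hqp t h
      · exact (hp t).1)
    (fun T => ∃ U ⊆ R, Dec (Q ∪ T) (Λ ∪ U))
    (fun T T' h ⟨U, a, b⟩ => ⟨U, a, Dec_mono (union_subset_union_right h) b⟩)
  refine hmono.trans ?_
  have b1 : Pr (tyP G R q) (fun T => ∃ f ∈ R,
      k / 2 ≤ (cnt (ldJ G R Q f) (fun e => e ∈ exc G R k T) : ℝ))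
      ≤ R.card * Real.exp (Z * ps * (Real.exp lam - 1) - lam * k / 2) := by
    refine Pr_exists_le' hp0 R _ fun f hf => ?_
    have := (hCH (Finset V) (Sym2 V) (tyP G R q) hp0 (ldJ G R Q f) (blk G R)
      (fun e T => e ∈ exc G R k T) ?_ (fun e _ => (hE e).2) lam (Z * ps) (k / 2) hlam).1 ?_
    · rwa [← mul_div_assoc] at this
    · intro e he e' he' hne
      have h1 : e ∈ G := (mem_filter.1 (mem_coe.1 he)).1
      have h2 : e' ∈ G := (mem_filter.1 (mem_coe.1 he')).1
      refine disjoint_left.2 fun t a b => hne ?_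
      unfold blk at a b
      rw [mem_filter] at a b
      exact Ty_unique hG hR hd a.2.1 h1 h2 a.2.2 b.2.2
    · refine (sum_le_card_nsmul _ _ ps fun e _ => (hE e).1.trans hps).trans ?_
      rw [nsmul_eq_mul]
      refine mul_le_mul_of_nonneg_right (le_trans ?_ (hZ f hf)) hps0
      exact_mod_cast ld_card_J hG hR hd Q f
  have b2 : Pr (tyP G R q) (fun T => ∃ f ∈ R,
      k / 2 ≤ (((univ.filter fun t => Ty Λ R t ∧ f ∈ ed t) ∩ T).card : ℝ))
      ≤ R.card * Real.exp (2 * q * N2 * (Real.exp lam - 1) - lam * k / 2) := by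
    refine Pr_exists_le' hp0 R _ fun f hf => ?_
    have := (hCH1 (Finset V) (tyP G R q) hp0 (univ.filter fun t => Ty Λ R t ∧ f ∈ ed t)
      lam (2 * q * N2) (k / 2) hlam).1 ?_
    · rwa [← mul_div_assoc] at this
    · refine (sum_le_card_nsmul _ _ q fun t _ => ?_).trans ?_
      · unfold tyP
        split_ifs
        · exact le_rfl
        · exact hq
      · rw [nsmul_eq_mul]
        induction f using Sym2.ind with
        | _ u w =>
          have c1 := hN2 u w hf
          have c2 := hN2 w u (Sym2.eq_swap ▸ hf)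
          have c3 : ((univ.filter fun t => Ty Λ R t ∧ s(u, w) ∈ ed t).card : ℝ)
              ≤ (nb Λ u ∩ nb R w).card + (nb Λ w ∩ nb R u).card := by
            have := card_typed_right hL hR hLR hf
            exact_mod_cast (by convert this)
          nlinarith
  refine le_trans (Pr_mono hp0 fun T hT => ?_) ((Pr_or_le hp0 _ _).trans (add_le_add
    (b1.trans (mul_le_mul_of_nonneg_right hRc (Real.exp_pos _).le))
    (b2.trans (mul_le_mul_of_nonneg_right hRc (Real.exp_pos _).le))))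
  by_contra hc
  rw [not_or] at hc
  obtain ⟨c1, c2⟩ := hc
  refine hT (ld_det hG hR hd hk Q T hΛ hQ (fun f hf => ?_) (fun f hf => ?_))
  · by_contra h
    exact c1 ⟨f, hf, (not_le.1 h).le⟩
  · by_contra h
    refine c2 ⟨f, hf, ?_⟩
    rw [cnt_eq_inter, inter_comm] at h
    exact (not_le.1 h).le

end Pool.Agent.P.MP_224820_co.St
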