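import Pool.Agent.P.MP_224820_co.St.IfaceN
import Pool.Agent.P.MP_224820_co.St.IfaceP

/-! Step LE. -/

set_option autoImplicit false

namespace Pool.Agent.P.MP_224820_co.St

open Finset

section
variable {V : Type} [Fintype V] [DecidableEq V]

theorem le_lst (G R : Finset (Sym2 V)) (Q : Finset (Finset V)) (e : Sym2 V) :
    lst G R Q e = (blk G R e ∩ Q).card := by
  classical
  unfold lst blk
  rw [cnt_eq]
  congr 1
  ext t
  simp only [mem_filter, mem_inter, mem_univ, true_and]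
  exact and_comm

theorem le_sum {G R : Finset (Sym2 V)} (hG : NoLoop G) (hR : NoLoop R) {q : ℝ} (q0 : 0 ≤ q)
    {u v : V} (he : s(u, v) ∈ G) :
    q * ((nb R u ∩ nb R v).card : ℝ) ≤ ∑ t ∈ blk G R s(u, v), tyP G R q t := by
  classical
  have h1 : ∀ t ∈ blk G R s(u, v), tyP G R q t = q := by
    intro t ht
    unfold blk at ht
    exact if_pos (mem_filter.1 ht).2.1
  rw [sum_congr rfl h1, sum_const, nsmul_eq_mul, mul_comm]
  refine mul_le_mul_of_nonneg_right (Nat.cast_le.2 ?_) q0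
  refine card_le_card_of_injOn (fun w => ({u, v, w} : Finset V)) ?_ ?_
  · intro w hw
    obtain ⟨a, b⟩ := mem_inter.1 (mem_coe.1 hw)
    refine mem_coe.2 ?_
    unfold blk
    refine mem_filter.2 ⟨mem_univ _, ⟨u, v, w, rfl, he, mem_nb.1 a, mem_nb.1 b⟩, mk_mem_ed.2 ?_⟩
    simp [hG.ne he]
  · intro w hw w' _ h
    obtain ⟨a, b⟩ := mem_inter.1 (mem_coe.1 hw)
    exact triple_inj (hR.ne (mem_nb.1 a)).symm (hR.ne (mem_nb.1 b)).symm h

end

theorem p_LE (hCH1 : S_CH1) :
    S_LE := by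
  intro V _ _ G R hG hR _ q N1 k q0 q1 hN
  have hP : IsP (tyP G R q) := by
    intro t
    unfold tyP
    split_ifs
    · exact ⟨q0, q1⟩
    · exact ⟨le_rfl, zero_le_one⟩
  have hm : ∀ e Q, e ∈ exc G R k Q ↔ e ∈ G ∧ ((blk G R e ∩ Q).card : ℝ) ≤ 4 * k := by
    intro e Q
    unfold exc
    rw [mem_filter, le_lst]
  refine ⟨hP, fun e => ⟨?_, ?_⟩⟩
  · by_cases he : e ∈ G
    · induction e using Sym2.ind with
      | _ u v =>
      have h1 := le_sum hG hR q0 he
      have h2 : q * N1 ≤ q * ((nb R u ∩ nb R v).card : ℝ) :=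
        mul_le_mul_of_nonneg_left (hN u v he) q0
      have h3 : (0 : ℝ) ≤ q * ((nb R u ∩ nb R v).card : ℝ) := by positivity
      have h4 := (hCH1 _ _ hP (blk G R s(u, v)) 1 _ (4 * k) zero_le_one).2 h1
      refine (Pr_mono hP fun Q hQ => ((hm _ Q).1 hQ).2).trans (h4.trans (Real.exp_le_exp.2 ?_))
      have h5 : Real.exp (-1) ≤ 1 / 2 := by
        rw [Real.exp_neg, one_div]
        refine inv_anti₀ two_pos ?_
        have := Real.add_one_le_exp (1 : ℝ)
        linarith
      nlinarith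
    · rw [Pr_false _ fun Q hQ => he ((hm e Q).1 hQ).1]
      exact (Real.exp_pos _).le
  · intro Q Q' h
    have : blk G R e ∩ Q = blk G R e ∩ Q' := by rw [inter_comm, h, inter_comm]
    beta_reduce
    rw [hm, hm, this]

end Pool.Agent.P.MP_224820_co.St
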