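import Pool.Agent.P.MP_224820_co.St.IfaceM
import Pool.Agent.P.MP_224820_co.St.GrA

/-! Step LGC. -/

set_option autoImplicit false

namespace Pool.Agent.P.MP_224820_co.St

open Finset Filter Topology

theorem lgc_AB {J i : ℕ} (hi : i < J) : kA J i ≠ kB J i := by
  intro h
  have := congrArg Fin.val h
  simp only [kA, kB, hi, dif_pos] at this
  omega

theorem lgc_AA {J i : ℕ} (hi : i < J) : kA J i ≠ kA J (i + 1) := by
  intro h
  have := congrArg Fin.val h
  by_cases h1 : i + 1 < J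
  · simp only [kA, hi, h1, dif_pos] at this
    omega
  · simp only [kA, hi, h1, dif_pos, dif_neg, not_false_eq_true] at this
    omega

theorem lgc_BA {J i : ℕ} (hi : i < J) : kB J i ≠ kA J (i + 1) := by
  intro h
  have := congrArg Fin.val h
  by_cases h1 : i + 1 < J
  · simp only [kA, kB, hi, h1, dif_pos] at this
    omega
  · simp only [kA, kB, hi, h1, dif_pos, dif_neg, not_false_eq_true] at this
    omega

theorem p_LGC (hGOODC : S_GOODC) :
    S_LGC := by
  intro n J x0 ε hT ξ hG i hi A hA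
  obtain ⟨h1, h2, h3⟩ := hGOODC (Fin n) (2 * J + 2) (piK n J x0 (ε / 260)) ξ
  obtain ⟨h4, h5⟩ := h3 hT.isP hG
  have hc : (Fintype.card (Fin n) : ℝ) = n := by rw [Fintype.card_fin]
  rw [hc] at h4 h5
  have ha := hT.piA i hi.le
  have hb := hT.piB i hi
  have hr : piK n J x0 (ε / 260) (kA J (i + 1)) = Real.exp (-(7 / 5 * xs x0 i)) / 200 := by
    rw [hT.piA (i + 1) hi]
    have : xs x0 (i + 1) = 7 / 5 * xs x0 i := by
      unfold xs
      ring
    rw [this]
  have hsub : ∀ (u w : Fin n) (H : Finset (Sym2 (Fin n))),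
      ((nb A u ∩ nb H w).card : ℝ) ≤ (nb (Cls ξ (kA J i)) u ∩ nb H w).card := fun u w H => by
    exact_mod_cast card_le_card (inter_subset_inter (nb_mono hA u) subset_rfl)
  refine ⟨fun e he => (h1 _).1 e (hA he), (h1 _).1, (h1 _).1,
    Disjoint.mono_left hA (h2 _ _ (lgc_AB hi)), ?_, ?_, ?_, ?_, ?_⟩
  · exact disjoint_union_left.2 ⟨Disjoint.mono_left hA (h2 _ _ (lgc_AA hi)), h2 _ _ (lgc_BA hi)⟩
  · have := h5 (kB J i) (hT.four i hi)
    rwa [hb] at this
  · intro x w hxw
    have hne : x ≠ w := fun h => (h1 _).1 _ hxw (Sym2.mk_isDiag_iff.2 h)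
    have := ((h4 (kA J i) (kB J i) (hT.two _ _)).2 x w hne).2
    rw [ha, hb] at this
    rw [hc]
    refine (hsub x w _).trans (this.trans (le_of_eq ?_))
    ring
  · intro u v huv
    have := ((h4 (kA J (i + 1)) (kA J (i + 1)) (hT.two _ _)).2 u v huv).1
    rw [hr] at this
    rw [hc]
    refine le_trans (le_of_eq ?_) this
    ring
  · intro u w huw
    have e1 := ((h4 (kA J i) (kA J (i + 1)) (hT.two _ _)).2 u w huw).2
    have e2 := ((h4 (kB J i) (kA J (i + 1)) (hT.two _ _)).2 u w huw).2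
    rw [ha, hr] at e1
    rw [hb, hr] at e2
    have e3 := hsub u w (Cls ξ (kA J (i + 1)))
    have e4 : ((nb (A ∪ Cls ξ (kB J i)) u ∩ nb (Cls ξ (kA J (i + 1))) w).card : ℝ)
        ≤ (nb A u ∩ nb (Cls ξ (kA J (i + 1))) w).card
          + (nb (Cls ξ (kB J i)) u ∩ nb (Cls ξ (kA J (i + 1))) w).card := by
      rw [nb_union, union_inter_distrib_right]
      exact_mod_cast card_union_le _ _
    rw [hc]
    have p1 := Real.exp_pos (-xs x0 i)
    have p2 := Real.exp_pos (-(7 / 5 * xs x0 i))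
    have p3 : (0 : ℝ) ≤ n * (Real.exp (-xs x0 i) * Real.exp (-(7 / 5 * xs x0 i))) := by positivity
    nlinarith

end Pool.Agent.P.MP_224820_co.St
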