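import Pool.Agent.P.MP_224820_co.St.IfaceN

/-! Step LS. -/

set_option autoImplicit false

namespace Pool.Agent.P.MP_224820_co.St

open Finset

theorem p_LS (hLSX : S_LSX) (hNUML : S_NUML) :
    S_LS := by
  obtain ⟨n0, hn⟩ := hNUML
  refine ⟨max n0 3, fun V _ _ hV x h1 h2 A b R hG h h0 h3 h4 => ?_⟩
  obtain ⟨hN, hb⟩ := hn _ (le_of_max_le_left hV) x h1 h2
  have hn3 : (3 : ℝ) ≤ Fintype.card V := by exact_mod_cast le_of_max_le_right hV
  have hl : 1 ≤ Real.log (Fintype.card V) := by
    rw [Real.le_log_iff_exp_le (by linarith)]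
    linarith [Real.exp_one_lt_d9]
  have hx : 0 ≤ x := le_trans (div_nonneg (Real.log_nonneg hl) (by norm_num)) h1
  refine (hLSX V A b R _ _ _ _ hN hG h h0 (fun t ht => le_trans ?_ (h3 t ht))
    (fun t ht => le_trans (le_of_eq ?_) (h4 t ht))).trans hb
  · refine div_le_div_of_nonneg_left (by norm_num) (by positivity) ?_
    rw [pow_succ, ← mul_assoc]
    refine mul_le_mul_of_nonneg_left ?_ (by positivity)
    rw [← Real.exp_nat_mul]
    exact Real.exp_le_exp.2 (by push_cast; linarith)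
  · ring

end Pool.Agent.P.MP_224820_co.St
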