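import Pool.Agent.P.MP_224820_co.St.IfaceN

/-! Step LS0. -/

set_option autoImplicit false

namespace Pool.Agent.P.MP_224820_co.St

open Finset

theorem p_LS0 (hLS0X : S_LS0X) (hNUM0 : S_NUM0) :
    S_LS0 := by
  intro ε η δ e0 e1 h0 h1 d0
  obtain ⟨n0, hn0⟩ := hNUM0 ε η δ e0 e1 h0 h1 d0
  refine ⟨n0, fun V _ _ hn G R hG hR hd β b0 b1 c1 c2 c3 h hh t1 t2 => ?_⟩
  obtain ⟨P, ok, p1, p2, p3⟩ := hn0 (Fintype.card V) hn β b0 b1
  exact le_trans (hLS0X V G R hG hR hd _ β P ok c1 c2 c3 h hh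
    (fun t ht => le_trans p1 (t1 t ht)) (fun t ht => le_trans p2 (t2 t ht))) p3

end Pool.Agent.P.MP_224820_co.St
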