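import Pool.Agent.P.MP_224820_co.St.IfaceN
import Pool.Agent.P.MP_224820_co.St.IfaceP

/-! Step LS0X. -/

set_option autoImplicit false

namespace Pool.Agent.P.MP_224820_co.St

open Finset

section Aux
variable {V : Type} [Fintype V] [DecidableEq V]

theorem ls0x_not_tri {G R : Finset (Sym2 V)} (hR : NoLoop R) (hd : Disjoint G R) {t : Finset V}
    (h : Ty G R t) : t ∉ tri G := by
  obtain ⟨u, v, w, rfl, -, h2, -⟩ := h
  intro ht
  have h3 : s(u, w) ∈ ed ({u, v, w} : Finset V) := mk_mem_ed.2 ⟨by simp, by simp, gra_ne hR h2⟩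
  exact disjoint_left.1 hd ((mem_tri.1 ht).2 h3) h2

theorem ls0x_common (G : Finset (Sym2 V)) (S : Finset V) {d : ℝ}
    (h : ∀ v, ((nn G v).card : ℝ) ≤ d) :
    (Fintype.card V : ℝ) - S.card * d ≤ ((univ.filter fun w => ∀ u ∈ S, s(u, w) ∈ G).card : ℝ) := by
  have h1 : (univ : Finset V) ⊆ (univ.filter fun w => ∀ u ∈ S, s(u, w) ∈ G) ∪ S.biUnion (nn G) := by
    intro w _
    by_cases hw : ∀ u ∈ S, s(u, w) ∈ G
    · exact mem_union_left _ (mem_filter.2 ⟨mem_univ _, hw⟩)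
    · push Not at hw
      obtain ⟨u, hu, hw⟩ := hw
      exact mem_union_right _ (mem_biUnion.2 ⟨u, hu, mem_nn.2 hw⟩)
  have h2 := (card_le_card h1).trans (card_union_le _ _)
  have h3 : ((S.biUnion (nn G)).card : ℝ) ≤ S.card * d := by
    have h4 : ((S.biUnion (nn G)).card : ℝ) ≤ ∑ u ∈ S, ((nn G u).card : ℝ) := by
      exact_mod_cast card_biUnion_le
    refine h4.trans ((sum_le_sum fun u _ => h u).trans (le_of_eq ?_))
    simp
  rw [card_univ] at h2
  have h5 : (Fintype.card V : ℝ) ≤ ((univ.filter fun w => ∀ u ∈ S, s(u, w) ∈ G).card : ℝ)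
      + ((S.biUnion (nn G)).card : ℝ) := by exact_mod_cast h2
  linarith

theorem ls0x_codeg (G : Finset (Sym2 V)) (u v : V) {d : ℝ} (h : ∀ v, ((nn G v).card : ℝ) ≤ d) :
    (Fintype.card V : ℝ) - 2 * d ≤ ((nb G u ∩ nb G v).card : ℝ) := by
  have h1 : (univ : Finset V) ⊆ (nb G u ∩ nb G v) ∪ (nn G u ∪ nn G v) := by
    intro w _
    simp only [mem_union, mem_inter, mem_nb, mem_nn]
    tauto
  have h2 := (card_le_card h1).trans ((card_union_le _ _).trans
    (Nat.add_le_add_left (card_union_le _ _) _))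
  rw [card_univ] at h2
  have h5 : (Fintype.card V : ℝ) ≤ ((nb G u ∩ nb G v).card : ℝ)
      + (((nn G u).card : ℝ) + ((nn G v).card : ℝ)) := by exact_mod_cast h2
  linarith [h u, h v]

theorem ls0x_nn (G H : Finset (Sym2 V)) (v : V) :
    ((nn (G \ H) v).card : ℝ) ≤ (nn G v).card + (nb H v).card := by
  rw [nn_sdiff]
  exact_mod_cast card_union_le _ _

theorem ls0x_nb (G H : Finset (Sym2 V)) (v : V) :
    ((nb (G ∪ H) v).card : ℝ) ≤ (nb G v).card + (nb H v).card := by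
  rw [nb_union]
  exact_mod_cast card_union_le _ _

theorem ls0x_typ (G : Finset (Sym2 V)) {d : ℝ} (h : ∀ v, ((nn G v).card : ℝ) ≤ d) (hd0 : 0 ≤ d)
    (hd : 4 * d ≤ Fintype.card V / 100) : Typ G 1 := by
  intro S _ h4
  have h1 := ls0x_common G S h
  have h2 : ((univ.filter fun w => ∀ u ∈ S, s(u, w) ∈ G).card : ℝ) ≤ Fintype.card V := by
    exact_mod_cast card_le_univ _
  have h3 : (S.card : ℝ) ≤ 4 := by exact_mod_cast h4
  have h5 : (S.card : ℝ) * d ≤ 4 * d := mul_le_mul_of_nonneg_right h3 hd0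
  rw [one_pow, mul_one, abs_le]
  constructor <;> linarith

omit [Fintype V] in
theorem ls0x_glue {G R E U1 Λ U : Finset (Sym2 V)} {T : Finset (Finset V)} (hd : Disjoint G R)
    (hE : E ⊆ G) (hU1 : U1 ⊆ G) (hΛ : Λ ⊆ G \ (E ∪ U1)) (hU : U ⊆ R) (h1 : Dec T (E ∪ U1))
    (h2 : Dec T ((G \ (E ∪ U1)) \ Λ)) (h3 : Dec T (Λ ∪ U)) : Dec T (G ∪ U) := by
  have a : ∀ e, e ∈ E → e ∈ G := fun e he => hE he
  have b : ∀ e, e ∈ U1 → e ∈ G := fun e he => hU1 he
  have c : ∀ e, e ∈ Λ → e ∈ G ∧ ¬ (e ∈ E ∨ e ∈ U1) := fun e he => by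
    simpa only [mem_sdiff, mem_union] using hΛ he
  have d : ∀ e, e ∈ U → e ∉ G := fun e he hg => disjoint_left.1 hd hg (hU he)
  have e1 : G ∪ U = (E ∪ U1) ∪ (((G \ (E ∪ U1)) \ Λ) ∪ (Λ ∪ U)) := by
    ext e
    have := a e; have := b e; have := c e; have := d e
    simp only [mem_union, mem_sdiff]
    tauto
  rw [e1]
  refine Dec_union ?_ h1 (Dec_union ?_ h2 h3)
  · refine disjoint_left.2 fun e => ?_
    have := a e; have := b e; have := c e; have := d e
    simp only [mem_union, mem_sdiff]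
    tauto
  · refine disjoint_left.2 fun e => ?_
    have := a e; have := b e; have := c e; have := d e
    simp only [mem_union, mem_sdiff]
    tauto

end Aux

theorem p_LS0X (hLA : S_LA) (hLD : S_LD) (hCD : S_CD) (hBOOST : S_BOOST) (hNIBS : S_NIBS) (hTWO : S_TWO) :
    S_LS0X := by
  intro V _ _ G R hG hR hd θ β P ok hnn hdR hco h h0 htri hty
  classical
  obtain ⟨q0, q1, k0, ps, qb0, Hb0, qbH, kb0, l10, l20, lam0, ds, th, ell1, mu0, mu1, mue, nW, nN⟩ := ok
  set n : ℝ := (Fintype.card V : ℝ) with hn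
  have n0 : 0 ≤ n := Nat.cast_nonneg _
  have hell : 0 < P.ell := by linarith
  have npos : 0 < n := by
    have h1 : 0 < 2 * 10 ^ 9 * P.ell ^ 7 := by positivity
    rcases n0.lt_or_eq with h2 | h2
    · exact h2
    · rw [← h2] at nW; linarith
  have hθ : 0 ≤ θ * n := by
    obtain ⟨v⟩ : Nonempty V := Fintype.card_pos_iff.1 (Nat.cast_pos.1 (hn ▸ npos))
    exact (Nat.cast_nonneg _).trans (hnn v)
  have c3 : 0 ≤ 4 / (n * P.μ ^ 2) := by positivity
  have hN1 : ∀ u v, s(u, v) ∈ G → n * β ^ 2 / 2 ≤ ((nb R u ∩ nb R v).card : ℝ) :=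
    fun u v he => hco u v (gra_ne hG he)
  set h2 : Finset V → ℝ := fun t => if t ∈ tri G then P.Hb else 0 with hh2
  set h3 : Finset V → ℝ := fun t => if t ∈ tri G then 4 / (n * P.μ ^ 2) else 0 with hh3
  set h4 : Finset V → ℝ := fun t => if Ty G R t then 2 * P.q else 0 with hh4
  have p2 : ∀ t, 0 ≤ h2 t := fun t => by simp only [hh2]; split_ifs <;> linarith
  have p3 : ∀ t, 0 ≤ h3 t := fun t => by simp only [hh3]; split_ifs <;> linarith
  have p4 : ∀ t, 0 ≤ h4 t := fun t => by simp only [hh4]; split_ifs <;> linarith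
  have inc : ∀ Q : Finset (Finset V), Incr fun T => ∃ U ⊆ R, Dec (Q ∪ T) (G ∪ U) := by
    rintro Q T T' hT ⟨U, hU, hD⟩
    exact ⟨U, hU, Dec_mono (union_subset_union_right hT) hD⟩
  have inc0 : Incr fun T : Finset (Finset V) => ∃ U ⊆ R, Dec T (G ∪ U) := by
    rintro T T' hT ⟨U, hU, hD⟩
    exact ⟨U, hU, Dec_mono hT hD⟩
  set d4 : ℝ := n ^ 2 * Real.exp (P.Z * P.ps * (Real.exp P.lam - 1) - P.lam * P.k / 2)
    + n ^ 2 * Real.exp (2 * P.q * (10 * P.μ * n * β) * (Real.exp P.lam - 1) - P.lam * P.k / 2)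
    with hd4
  set d3 : ℝ := 11200 * P.ell ^ 3 / P.μ * n ^ 2 * Real.exp (-P.ell) with hd3
  set d2 : ℝ := n ^ 2 * Real.exp (4 * P.l1 * P.kb - P.qb * (n * (1 - 4 * θ)) * (1 - Real.exp (-P.l1)))
    + n ^ 2 * Real.exp (2 * P.qb * P.ds * (Real.exp P.l2 - 1) - P.l2 * P.kb)
    + n * Real.exp (4 * P.qb * n * P.ds - θ * n) with hd2
  set d1 : ℝ := n * Real.exp (2 * n * P.ps - P.ds) + n ^ 2 * Real.exp (4 * P.q * (2 * n * β) - P.Z)
    with hd1
  have e4 : 0 ≤ d4 := by positivity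
  have e3 : 0 ≤ d3 := by positivity
  have e2 : 0 ≤ d2 := by positivity
  have hbd : P.bd n θ β = d1 + (d2 + (d3 + d4)) := by
    simp only [P0.bd, hd1, hd2, hd3, hd4]; ring
  rw [hbd]
  have hP1 : IsP (tyP G R P.q) := fun t => by
    unfold tyP; split_ifs <;> constructor <;> linarith
  refine (hTWO (Finset V) _ _ inc0 d1 _ (by positivity)).1 (hz h) (tyP G R P.q)
    (hz fun t => h2 t + (h3 t + h4 t)) (hz_isP h0) hP1
    (hz_isP fun t => add_nonneg (p2 t) (add_nonneg (p3 t) (p4 t))) ?_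
    (hLA V G R hG hR hd P.q _ _ P.k P.ps P.ds P.Z q0 (by linarith) hN1 hdR ps) ?_
  · intro t
    simp only [hz, sub_sub_cancel, tyP, hh2, hh3, hh4]
    by_cases ht : Ty G R t
    · have hq := le_hz (h := fun _ : Unit => 2 * P.q) (a := ()) q0 q1 le_rfl
      simp only [hz] at hq
      simp only [if_pos ht, if_neg (ls0x_not_tri hR hd ht), zero_add]
      have h5 : Real.exp (-h t) ≤ Real.exp (-(2 * P.q)) * Real.exp (-(2 * P.q)) := by
        rw [← Real.exp_add]
        exact Real.exp_le_exp.2 (by linarith [hty t ht])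
      exact h5.trans (mul_le_mul_of_nonneg_right (by linarith) (Real.exp_pos _).le)
    · simp only [if_neg ht, sub_zero, one_mul, add_zero]
      refine Real.exp_le_exp.2 (neg_le_neg ?_)
      split_ifs with h5
      · exact htri t h5
      · linarith [h0 t]
  intro Q hQ
  obtain ⟨hQ1, hQ2⟩ := not_not.1 hQ
  set E := exc G R P.k Q with hE
  have hEG : E ⊆ G := filter_subset _ _
  have hnE : ∀ v, ((nn (G \ E) v).card : ℝ) ≤ 2 * (θ * n) := fun v => by
    linarith [ls0x_nn G E v, hnn v, hQ1 v]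
  refine (hTWO (Finset V) _ _ (inc Q) d2 _ (by positivity)).2 _ h2 (fun t => h3 t + h4 t) p2
    (fun t => add_nonneg (p3 t) (p4 t)) (fun _ => le_rfl)
    (hCD V E (G \ E) (fun e he => hG e (hEG he)) (fun e he => hG e (mem_sdiff.1 he).1)
      disjoint_sdiff P.qb (hz h2) qb0 (hz_isP p2) ?_ (n * (1 - 4 * θ)) P.ds P.ds P.kb (θ * n)
      P.l1 P.l2 kb0 l10 l20 ?_ ?_ hQ1) ?_
  · intro t ht
    have h5 := Ty_card (fun e he => hG e (hEG he)) (fun e he => hG e (mem_sdiff.1 he).1) ht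
    have h6 : t ∈ tri G := mem_tri.2 ⟨h5.1, h5.2.trans (union_subset hEG sdiff_subset)⟩
    simp only [hz, hh2, if_pos h6]
    exact qbH
  · intro u v _
    have := ls0x_codeg (G \ E) u v hnE
    linarith
  · intro u w _
    refine le_trans ?_ (hQ1 u)
    exact_mod_cast card_le_card inter_subset_left
  intro T2 hT2
  obtain ⟨U1, hU1, hD1, hU1d⟩ := not_not.1 hT2
  have hU1G : U1 ⊆ G := hU1.trans sdiff_subset
  set G' := G \ (E ∪ U1) with hG'
  have hG'G : G' ⊆ G := sdiff_subset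
  have hG'l : NoLoop G' := fun e he => hG e (hG'G he)
  have hn' : ∀ v, ((nn G' v).card : ℝ) ≤ 4 * (θ * n) := fun v => by
    linarith [ls0x_nn G (E ∪ U1) v, ls0x_nb E U1 v, hnn v, hQ1 v, hU1d v]
  have htyp : Typ G' 1 := ls0x_typ G' hn' (by linarith) (by nlinarith)
  obtain ⟨ω, hω, hw⟩ := hBOOST V ∅ G' 1 (fun e he => absurd he (notMem_empty _)) hG'l
    (disjoint_empty_left _) one_pos le_rfl htyp (fun x w _ => by
      have : nb (∅ : Finset (Sym2 V)) x = ∅ := by ext y; simp [mem_nb]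
      rw [this, empty_inter, card_empty, Nat.cast_zero]
      positivity)
  rw [empty_union] at hw
  simp only [one_pow, mul_one] at hω
  have inc2 : Incr fun T => ∃ U ⊆ R, Dec (Q ∪ (T2 ∪ T)) (G ∪ U) := by
    rintro T T' hT ⟨U, hU, hD⟩
    exact ⟨U, hU, Dec_mono (union_subset_union_right (union_subset_union_right hT)) hD⟩
  refine (hTWO (Finset V) _ _ inc2 d3 d4 e4).2 _ h3 h4 p3 p4 (fun _ => le_rfl)
    (hNIBS V G' R ω (2 / n) (2 * n * β) P.μ P.ell hG'l (hd.mono_left hG'G) (by positivity) hω hw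
      ell1 mu0 mu1 mue ?_ nN ?_ h3 p3 ?_) ?_
  · rw [← mul_div_assoc, div_le_iff₀ npos]
    linarith
  · intro u w _
    refine le_trans ?_ (hdR w)
    exact_mod_cast card_le_card inter_subset_right
  · intro t ht
    simp only [hh3, if_pos (tri_mono hG'G ht)]
    refine le_of_eq ?_
    field_simp
    ring
  intro T3 hT3
  obtain ⟨Λ, hΛ, hD2, hΛd⟩ := not_not.1 hT3
  refine le_trans (Pr_mono (hz_isP p4) ?_)
    (hLD V G R hG hR hd P.q _ (10 * P.μ * n * β) P.k P.ps P.Z P.lam q0 k0 lam0 hN1 ps Q hQ2 Λ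
      (hΛ.trans hG'G) ?_ ?_ (hz h4) (hz_isP p4) (by linarith) ?_)
  · rintro T hT ⟨U, hU, hD3⟩
    refine hT ⟨U, hU, ls0x_glue hd hEG hU1G hΛ hU (Dec_mono ?_ hD1) (Dec_mono ?_ hD2)
      (Dec_mono ?_ hD3)⟩
    · exact subset_union_left.trans subset_union_right
    · exact (subset_union_left.trans subset_union_right).trans subset_union_right
    · exact union_subset_union_right (subset_union_right.trans subset_union_right)
  · intro e he h5
    exact (mem_sdiff.1 (hΛ he)).2 (mem_union_left _ h5)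
  · intro u w _
    have := hΛd u w
    linarith
  · intro t ht
    exact le_hz q0 q1 (by simp only [hh4, if_pos ht]; exact le_rfl)

end Pool.Agent.P.MP_224820_co.St
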