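import Pool.Agent.P.MP_224820_co.St.IfaceN
import Pool.Agent.P.MP_224820_co.St.IfaceP

/-! Step LSX. -/

set_option autoImplicit false

namespace Pool.Agent.P.MP_224820_co.St

open Finset

section Aux
variable {V : Type} [Fintype V] [DecidableEq V]

theorem lsx_not_tri {G R : Finset (Sym2 V)} (hR : NoLoop R) (hd : Disjoint G R) {t : Finset V}
    (h : Ty G R t) : t ∉ tri G := by
  obtain ⟨u, v, w, rfl, -, h2, -⟩ := h
  intro ht
  have h4 : u ≠ w := fun h => hR _ h2 (by simp [h])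
  have h3 : s(u, w) ∈ ed ({u, v, w} : Finset V) := mk_mem_ed.2 ⟨by simp, by simp, h4⟩
  exact disjoint_left.1 hd ((mem_tri.1 ht).2 h3) h2

omit [Fintype V] in
theorem lsx_glue {G R Λ U : Finset (Sym2 V)} {T : Finset (Finset V)} (hd : Disjoint G R)
    (hΛ : Λ ⊆ G) (hU : U ⊆ R) (h2 : Dec T (G \ Λ)) (h3 : Dec T (Λ ∪ U)) : Dec T (G ∪ U) := by
  have c : ∀ e, e ∈ Λ → e ∈ G := fun e he => hΛ he
  have d : ∀ e, e ∈ U → e ∉ G := fun e he hg => disjoint_left.1 hd hg (hU he)
  have e1 : G ∪ U = (G \ Λ) ∪ (Λ ∪ U) := by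
    ext e
    have := c e; have := d e
    simp only [mem_union, mem_sdiff]
    tauto
  rw [e1]
  refine Dec_union ?_ h2 h3
  refine disjoint_left.2 fun e => ?_
  have := c e; have := d e
  simp only [mem_union, mem_sdiff]
  tauto

end Aux

theorem p_LSX (hBOOST : S_BOOST) (hNIBS : S_NIBS) (hCD : S_CD) (hTWO : S_TWO) :
    S_LSX := by
  intro V _ _ A b R β β' μ ell hN hG h h0 htri hty
  classical
  obtain ⟨b0, b1, b'0, ell1, mu0, mu1, mue, nW, nN, cd, nq⟩ := hN
  obtain ⟨nA, nb', nR, dAb, dR, typ, mix, che, trk⟩ := hG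
  set n : ℝ := (Fintype.card V : ℝ) with hn
  have n0 : 0 ≤ n := Nat.cast_nonneg _
  have hell : 0 < ell := by linarith
  have npos : 0 < n := by
    rcases n0.lt_or_eq with h2 | h2
    · exact h2
    · rw [← h2] at nq; linarith
  have n1 : 1 ≤ n := by
    have : 0 < Fintype.card V := Nat.cast_pos.1 (hn ▸ npos)
    rw [hn]; exact_mod_cast this
  have nG : NoLoop (A ∪ b) := fun e he => (mem_union.1 he).elim (nA e) (nb' e)
  obtain ⟨ω, hω, hwd⟩ := hBOOST V A b β nA nb' dAb b0 b1 typ mix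
  have nb2 : 0 < n * β ^ 2 := by positivity
  have nb2' : 0 < n * β' ^ 2 := by positivity
  set h1 : Finset V → ℝ := fun t => if t ∈ tri (A ∪ b) then h t else 0 with hh1
  set h2 : Finset V → ℝ := fun t => if t ∈ tri (A ∪ b) then 0 else h t with hh2
  have p1 : ∀ t, 0 ≤ h1 t := fun t => by
    simp only [hh1]; split_ifs
    · exact h0 t
    · exact le_rfl
  have p2 : ∀ t, 0 ≤ h2 t := fun t => by
    simp only [hh2]; split_ifs
    · exact le_rfl
    · exact h0 t
  have p12 : ∀ t, h1 t + h2 t ≤ h t := fun t => by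
    simp only [hh1, hh2]; split_ifs <;> simp
  have inc0 : Incr fun T : Finset (Finset V) => ∃ U ⊆ R, Dec T (A ∪ b ∪ U) := by
    rintro T T' hT ⟨U, hU, hD⟩
    exact ⟨U, hU, Dec_mono hT hD⟩
  have s1 := hNIBS V (A ∪ b) R ω (2 / (n * β ^ 2)) (4 * n * β * β') μ ell nG dR (by positivity) hω hwd
    ell1 mu0 mu1 mue
    (by rw [← mul_div_assoc, div_le_iff₀ nb2]; nlinarith) nN trk h1 p1
    (fun t ht => by
      have := htri t ht
      simp only [hh1, if_pos ht]
      refine le_trans (le_of_eq ?_) this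
      field_simp
      norm_num)
  set q : ℝ := 64 * ell / (n * β' ^ 2) with hq
  have q0 : 0 ≤ q := by positivity
  have q1 : q ≤ 1 / 2 := by rw [hq, div_le_iff₀ nb2']; linarith
  have ee : Real.exp 1 ≤ 3 := by
    have := Real.exp_one_lt_d9
    linarith
  have ee' : Real.exp (-1) ≤ 1 / 2 := by
    have h3 : (2 : ℝ) ≤ Real.exp 1 := by
      have := Real.add_one_le_exp (1 : ℝ)
      linarith
    rw [Real.exp_neg, ← one_div]
    exact one_div_le_one_div_of_le (by norm_num) h3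
  have x1 : 4 * 1 * (2 * ell) - q * (n * β' ^ 2 / 2) * (1 - Real.exp (-1)) ≤ -ell := by
    have : q * (n * β' ^ 2 / 2) = 32 * ell := by rw [hq]; field_simp; norm_num
    rw [this]; nlinarith
  have x2 : 2 * q * (5 * μ * (4 * n * β * β')) * (Real.exp 1 - 1) - 1 * (2 * ell) ≤ -ell := by
    have e1 : 2 * q * (5 * μ * (4 * n * β * β')) = ell / 2 * (5120 * μ * β / β') := by
      rw [hq]; field_simp; norm_num
    have e2 : 5120 * μ * β / β' ≤ 1 := by rw [div_le_one b'0]; exact cd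
    have e3 : 0 ≤ 5120 * μ * β / β' := by positivity
    have e4 : ell / 2 * (5120 * μ * β / β') ≤ ell / 2 := by nlinarith
    have e5 : 0 ≤ ell / 2 * (5120 * μ * β / β') := by positivity
    rw [e1]
    nlinarith
  have x3 : 4 * q * n * n - 3 * n ^ 2 ≤ -ell := by
    have e1 : ell ≤ ell ^ 7 := by
      calc ell = ell ^ 1 := (pow_one _).symm
        _ ≤ ell ^ 7 := pow_le_pow_right₀ ell1 (by norm_num)
    have e2 : β ^ 2 ≤ 1 := pow_le_one₀ b0.le b1
    have e3 : μ ^ 5 ≤ 1 := pow_le_one₀ mu0.le (by linarith)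
    have e4 : n * β ^ 2 * μ ^ 5 ≤ n := by
      have : β ^ 2 * μ ^ 5 ≤ 1 := mul_le_one₀ e2 (by positivity) e3
      nlinarith
    have e5 : ell ≤ n := by nlinarith
    have e6 : q * (n * n) ≤ 1 / 2 * (n * n) := mul_le_mul_of_nonneg_right q1 (by positivity)
    nlinarith
  have y0 : 0 < Real.exp (-ell) := Real.exp_pos _
  have key := (hTWO (Finset V) (fun T => ∃ U ⊆ R, Dec T (A ∪ b ∪ U)) _ inc0 _
    (3 * n ^ 2 * Real.exp (-ell)) (by positivity)).2 h h1 h2 p1 p2 p12 s1 ?_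
  · refine key.trans ?_
    have e1 : 1 ≤ ell ^ 3 / μ := by
      rw [le_div_iff₀ mu0]
      have : 1 ≤ ell ^ 3 := one_le_pow₀ ell1
      linarith
    have e2 : 0 ≤ n ^ 2 * Real.exp (-ell) := by positivity
    have e3 : 11200 * ell ^ 3 / μ * n ^ 2 * Real.exp (-ell)
        = 11200 * (ell ^ 3 / μ) * (n ^ 2 * Real.exp (-ell)) := by ring
    have e4 : 20000 * ell ^ 3 / μ * n ^ 2 * Real.exp (-ell)
        = 20000 * (ell ^ 3 / μ) * (n ^ 2 * Real.exp (-ell)) := by ring
    have e5 : 1 * (n ^ 2 * Real.exp (-ell)) ≤ ell ^ 3 / μ * (n ^ 2 * Real.exp (-ell)) :=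
      mul_le_mul_of_nonneg_right e1 e2
    rw [e3, e4]
    linarith
  intro Q hQ
  obtain ⟨Λ, hΛ, hD, hc⟩ := not_not.1 hQ
  have nΛ : NoLoop Λ := fun e he => nG e (hΛ he)
  have s2 := hCD V Λ R nΛ nR (dR.mono_left hΛ) q (hz h2) q0 (hz_isP p2)
    (fun t ht => by
      have ht' : Ty (A ∪ b) R t := by
        obtain ⟨u, v, w, e1, e2, e3⟩ := ht
        exact ⟨u, v, w, e1, hΛ e2, e3⟩
      refine le_hz q0 q1 ?_
      simp only [hh2, if_neg (lsx_not_tri nR dR ht')]
      refine le_trans (le_of_eq ?_) (hty t ht')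
      rw [hq]; ring)
    (n * β' ^ 2 / 2) (5 * μ * (4 * n * β * β')) n (2 * ell) (3 * n ^ 2) 1 1 (by positivity)
    zero_le_one zero_le_one
    (fun u v he => che u v fun e => nΛ _ he (by simp [e]))
    (fun u w _ => hc u w)
    (fun v => by rw [hn]; exact_mod_cast card_le_univ _)
  refine le_trans (Pr_mono (hz_isP p2) ?_) (s2.trans ?_)
  · rintro T hT ⟨U, hU, hD', -⟩
    exact hT ⟨U, hU, lsx_glue dR hΛ hU (Dec_mono subset_union_left hD)
      (Dec_mono subset_union_right hD')⟩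
  · have f1 := Real.exp_le_exp.2 x1
    have f2 := Real.exp_le_exp.2 x2
    have f3 := Real.exp_le_exp.2 x3
    have g0 : 0 ≤ n ^ 2 := by positivity
    have g1 := mul_le_mul_of_nonneg_left f1 g0
    have g2 := mul_le_mul_of_nonneg_left f2 g0
    have g3 := mul_le_mul_of_nonneg_left f3 n0
    have g4 : n * Real.exp (-ell) ≤ n ^ 2 * Real.exp (-ell) :=
      mul_le_mul_of_nonneg_right (by nlinarith) y0.le
    linarith

end Pool.Agent.P.MP_224820_co.St
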