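import Pool.Agent.P.MP_224820_co.St.IfaceP

/-! Step MONO. -/

set_option autoImplicit false

namespace Pool.Agent.P.MP_224820_co.St

open Finset

section
variable {α : Type} [Fintype α] [DecidableEq α]

/-- raising one coordinate lowers the expectation of a decreasing function -/
theorem mono_one {p q : α → ℝ} (hp : IsP p) (a : α) (hq : ∀ b, b ≠ a → q b = p b) (ha : p a ≤ q a)
    {f : Finset α → ℝ} (hf : ∀ R R', R ⊆ R' → f R' ≤ f R) : Ex q f ≤ Ex p f := by
  have hloc : Loc (univ.erase a) (fun R : Finset α => q a * f (insert a R) + (1 - q a) * f (R.erase a)) := by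
    intro R R' h
    have h1 : R.erase a = R'.erase a := by
      ext b
      have hb := Finset.ext_iff.1 h b
      simp only [mem_inter, mem_erase, mem_univ, and_true] at hb ⊢
      tauto
    have h2 : insert a R = insert a R' := by
      ext b
      have hb := Finset.ext_iff.1 h1 b
      simp only [mem_insert, mem_erase] at hb ⊢
      tauto
    simp only [h1, h2]
  rw [Ex_coord q a f, Ex_coord p a f,
    Ex_loc (p' := p) hloc (fun b hb => hq b (mem_erase.1 hb).1)]
  refine Ex_mono hp fun R => ?_
  have h3 : f (insert a R) ≤ f (R.erase a) :=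
    hf _ _ ((erase_subset a R).trans (subset_insert a R))
  nlinarith

theorem mono_all {p p' : α → ℝ} (hp : IsP p) (hp' : IsP p') (h : ∀ a, p a ≤ p' a)
    {f : Finset α → ℝ} (hf : ∀ R R', R ⊆ R' → f R' ≤ f R) (s : Finset α) :
    Ex (fun b => if b ∈ s then p' b else p b) f ≤ Ex p f := by
  induction s using Finset.induction_on with
  | empty => simp
  | insert a s ha ih =>
    refine le_trans (mono_one (p := fun b => if b ∈ s then p' b else p b) ?_ a ?_ ?_ hf) ih
    · intro b
      by_cases hb : b ∈ s
      · simpa [hb] using hp' b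
      · simpa [hb] using hp b
    · intro b hb
      simp [hb]
    · simp [ha, h a]

end

theorem p_MONO :
    S_MONO := by
  intro α _ _ p p' hp hp' h E hE
  classical
  have := mono_all hp hp' h (f := fun R => if ¬ E R then (1 : ℝ) else 0) (by
    intro R R' hR
    by_cases h1 : E R
    · simp [h1, hE R R' hR h1]
    · by_cases h2 : E R' <;> simp [h1, h2]) univ
  simp only [mem_univ, if_true] at this
  rw [Pr_eq, Pr_eq]
  exact this

end Pool.Agent.P.MP_224820_co.St
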