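import Pool.Agent.P.MP_224820_co.St.IfaceN
import Pool.Agent.P.MP_224820_co.St.IfaceP

/-! Step NIB. -/

set_option autoImplicit false

namespace Pool.Agent.P.MP_224820_co.St

open Finset

/-- side conditions of one round -/
structure NibStep (W δ ell N devS w Lo Up dev a H Lo' Up' a' H' : ℝ) : Prop where
  lo : 0 < Lo
  lu : Lo ≤ Up
  qh : δ * W / Up ≤ 1 / 2
  d0 : 0 < dev
  d1 : 40 * ell * δ * W * Up ≤ dev ^ 2
  d2 : 6 * ell * W ≤ dev
  nlo : Lo' ≤ (1 - δ) ^ 2 * Lo - dev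
  nup : (1 - δ) ^ 2 * Up * (1 + 2 * (δ * W / Up)) + dev ≤ Up'
  na : (1 - δ) * a + devS ≤ a'
  nw : 4 * N * δ * (1 - Lo / Up) + 400 * ell * δ ^ 2 * N + 43 * ell ^ 2 ≤ w
  nh : 2 * (δ * W / Up) + H' ≤ H
  h0 : 0 ≤ H'

theorem nib_iter (hROUND : S_ROUND) (hTWO : S_TWO) {V : Type} [Fintype V] [DecidableEq V]
    {G : Finset (Sym2 V)} {ω : Finset V → ℝ} {W δ ell N devS w : ℝ} {Lo Up dev a H : ℕ → ℝ} {R : ℕ}
    {𝒮 : Finset (Finset (Sym2 V))} (hG : NoLoop G) (hW : 0 < W) (hω : ∀ t, 0 ≤ ω t ∧ ω t ≤ W)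
    (d0 : 0 < δ) (d1 : δ ≤ 1 / 10) (hl : 1 ≤ ell) (s1 : 16 * ell * δ * N ≤ devS ^ 2)
    (s2 : 6 * ell ≤ devS) (hS : ∀ S ∈ 𝒮, ((S ∩ G).card : ℝ) ≤ N)
    (hi : ∀ i < R, NibStep W δ ell N devS w (Lo i) (Up i) (dev i) (a i) (H i)
      (Lo (i + 1)) (Up (i + 1)) (a (i + 1)) (H (i + 1))) (k : ℕ) :
    ∀ i, i + k = R → ∀ G' ⊆ G, (∀ u v, s(u, v) ∈ G' → Lo i ≤ wd ω G' u v ∧ wd ω G' u v ≤ Up i) →
      (∀ S ∈ 𝒮, ((S ∩ G').card : ℝ) ≤ a i) → ∀ h : Finset V → ℝ, (∀ t, 0 ≤ h t) →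
      (∀ t ∈ tri G', H i ≤ h t) →
      Pr (hz h) (fun T => ¬ ∃ Λ ⊆ G', Dec T (G' \ Λ) ∧
        ∀ S ∈ 𝒮, ((S ∩ Λ).card : ℝ) ≤ a R + k * w)
        ≤ k * ((3 * (Fintype.card V : ℝ) ^ 2 + 4 * 𝒮.card) * Real.exp (-ell)) := by
  induction k with
  | zero =>
    intro i e G' _ _ h2 h _ _
    obtain rfl : i = R := e
    rw [Pr_false]
    · simp
    · intro T hT
      exact hT ⟨G', Subset.refl _, by simpa using Dec_empty T, fun S hS => by simpa using h2 S hS⟩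
  | succ k ih =>
    intro i e G' hG' h1 h2 h h0 h3
    have st := hi i (by omega)
    have up : 0 < Up i := st.lo.trans_le st.lu
    have q0 : 0 ≤ δ * W / Up i := by positivity
    have rh : RH G' ω W (Lo i) (Up i) δ :=
      ⟨fun e he => hG e (hG' he), fun t => (hω t).1, fun t => (hω t).2, st.lo, st.lu, d0, d1, st.qh, h1⟩
    set g : Finset V → ℝ := fun t => if t ∈ tri G' then 2 * (δ * W / Up i) else 0 with hg
    have g0 : ∀ t, 0 ≤ g t := fun t => by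
      simp only [hg]
      split_ifs
      exacts [by linarith, le_rfl]
    have g1 : ∀ t, 0 ≤ h t - g t := fun t => by
      simp only [hg]
      split_ifs with c
      exacts [by linarith [h3 t c, st.nh, st.h0], by linarith [h0 t]]
    have key := hROUND V G' ω W (Lo i) (Up i) δ rh ell N (dev i) devS hl st.d0 st.d1 st.d2 s1 s2 𝒮
      (fun S hs => le_trans (Nat.cast_le.2 (card_le_card (inter_subset_inter_left hG'))) (hS S hs))
      (hz g) (hz_isP g0) (fun t ht => le_hz q0 st.qh (by simp [hg, ht]))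
    have f0 : 0 ≤ (k : ℝ) * ((3 * (Fintype.card V : ℝ) ^ 2 + 4 * 𝒮.card) * Real.exp (-ell)) := by
      positivity
    refine le_trans ((hTWO (Finset V) (fun T => ∃ Λ ⊆ G', Dec T (G' \ Λ) ∧
      ∀ S ∈ 𝒮, ((S ∩ Λ).card : ℝ) ≤ a R + (k + 1 : ℕ) * w) _ ?_ _ _ f0).2 h g (fun t => h t - g t)
      g0 g1 (fun t => by linarith) key ?_) (le_of_eq (by push_cast; ring))
    · rintro T T' hT ⟨Λ, b1, b2, b3⟩
      exact ⟨Λ, b1, Dec_mono hT b2, b3⟩
    · intro Q hQ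
      obtain ⟨G'', c1, Wa, c2, c3, c4, c5, c6⟩ := not_not.1 hQ
      refine le_trans (Pr_mono (hz_isP g1) ?_) (ih (i + 1) (by omega) G'' (c1.trans hG')
        (fun u v he => ⟨st.nlo.trans (c5 u v he).1, (c5 u v he).2.trans st.nup⟩)
        (fun S hs => ?_) (fun t => h t - g t) g1 fun t ht => ?_)
      · rintro T hT ⟨Λ, b1, b2, b3⟩
        refine hT ⟨Λ ∪ Wa, union_subset (b1.trans c1) c2, ?_, fun S hs => ?_⟩
        · have : G' \ (Λ ∪ Wa) = G' \ (G'' ∪ Wa) ∪ G'' \ Λ := by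
            ext x
            have x1 := @b1 x
            have x2 := @c1 x
            have x3 := @disjoint_left.1 c4 x
            simp only [mem_sdiff, mem_union, not_or]
            exact ⟨fun y => (em (x ∈ G'')).elim (fun c => Or.inr ⟨c, y.2.1⟩) fun c => Or.inl ⟨y.1, c, y.2.2⟩,
              fun y => y.elim (fun c => ⟨c.1, fun d => c.2.1 (x1 d), c.2.2⟩)
                fun c => ⟨x2 c.1, c.2, x3 c.1⟩⟩
          rw [this]
          refine Dec_union ?_ (Dec_mono subset_union_left c3) (Dec_mono subset_union_right b2)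
          rw [disjoint_left]
          intro x x1 x2
          exact (mem_sdiff.1 x1).2 (mem_union_left _ (mem_sdiff.1 x2).1)
        · have : (S ∩ (Λ ∪ Wa)).card ≤ (S ∩ Λ).card + (S ∩ Wa).card := by
            rw [inter_union_distrib_left]
            exact card_union_le _ _
          have : ((S ∩ (Λ ∪ Wa)).card : ℝ) ≤ (S ∩ Λ).card + (S ∩ Wa).card := by exact_mod_cast this
          push_cast
          linarith [b3 S hs, (c6 S hs).2, st.nw]
      · have := mul_le_mul_of_nonneg_left (h2 S hs) (show 0 ≤ 1 - δ by linarith)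
        linarith [(c6 S hs).1, st.na]
      · have c := tri_mono c1 ht
        simp only [hg, if_pos c]
        linarith [h3 t c, st.nh]

/-- the numbers of one round; `y` is the current survival probability of a pair of edges and
`z` the accumulated relative error -/
theorem nib_step {W N μ ell δ ζ x z j : ℝ} (hW : 0 < W) (hN : 0 ≤ N) (hl : 1 ≤ ell) (m0 : 0 < μ)
    (m1 : μ ≤ 1 / 2) (hn : 10 ^ 9 * ell ^ 7 * W ≤ μ ^ 5) (hδ : δ = μ / (800 * ell ^ 2))
    (hζ : ζ = μ * δ / (32 * ell ^ 2)) (x0 : μ ≤ x) (z0 : 0 ≤ z) (z1 : z ≤ μ / (16 * ell))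
    (j0 : 0 ≤ j) :
    NibStep W δ ell N (μ * N * δ / (2 * ell))
      (N * δ * μ / (2 * ell) + 400 * ell * δ ^ 2 * N + 43 * ell ^ 2)
      (x ^ 2 * (1 - z)) (x ^ 2 * (1 + z)) (ζ * ((1 - δ) ^ 2 * x ^ 2) / 2)
      (x * N + j * (μ * N * δ / (2 * ell))) (2 * W * (1 / μ ^ 2 - (1 - δ) ^ 2 / x ^ 2))
      ((x * (1 - δ)) ^ 2 * (1 - (z + ζ))) ((x * (1 - δ)) ^ 2 * (1 + (z + ζ)))
      (x * (1 - δ) * N + (j + 1) * (μ * N * δ / (2 * ell)))
      (2 * W * (1 / μ ^ 2 - (1 - δ) ^ 2 / (x * (1 - δ)) ^ 2)) := by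
  have l0 : 0 < ell := by linarith
  have xp : 0 < x := m0.trans_le x0
  have d0 : 0 < δ := by rw [hδ]; positivity
  have l2 : 1 ≤ ell ^ 2 := one_le_pow₀ hl
  have e1 : δ * (800 * ell ^ 2) = μ := by rw [hδ]; field_simp
  have d1 : δ ≤ 1 / 10 := by linarith only [e1, m1, mul_le_mul_of_nonneg_left l2 d0.le]
  have ζ0 : 0 < ζ := by rw [hζ]; positivity
  have e2 : ζ * (32 * ell ^ 2) = μ * δ := by rw [hζ]; field_simp
  have z2 : z ≤ 1 / 32 := z1.trans (by rw [div_le_div_iff₀ (by positivity) (by norm_num)]; linarith)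
  have x2 : μ ^ 2 ≤ x ^ 2 := pow_le_pow_left₀ m0.le x0 2
  have s0 : 0 < 1 - δ := by linarith
  have s2 : 4 / 5 ≤ (1 - δ) ^ 2 := by linarith only [d1, sq_nonneg δ]
  have xz := mul_nonneg (sq_nonneg x) z0
  have up : μ ^ 2 ≤ x ^ 2 * (1 + z) := by linarith only [x2, xz]
  have q1 : δ * W / (x ^ 2 * (1 + z)) ≤ δ * W / μ ^ 2 :=
    div_le_div_of_nonneg_left (by positivity) (by positivity) up
  -- the two consequences of the bound on `W`
  have w1 : 640 * ell * δ * W ≤ ζ ^ 2 * μ ^ 2 := by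
    have : ζ ^ 2 * μ ^ 2 = δ * (μ ^ 5 / (819200 * ell ^ 6)) := by
      rw [hζ, hδ]; field_simp; norm_num
    rw [this, show 640 * ell * δ * W = δ * (640 * ell * W) by ring]
    refine mul_le_mul_of_nonneg_left ?_ d0.le
    rw [le_div_iff₀ (by positivity)]
    linarith only [hn, mul_pos (pow_pos l0 7) hW]
  have ζ1 : ζ ≤ δ := by
    linarith only [e2, ζ0, mul_le_mul_of_nonneg_left l2 ζ0.le, mul_le_mul_of_nonneg_right m1 d0.le, d0]
  have w2 : 640 * ell * W ≤ ζ * μ ^ 2 := by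
    have : δ * (640 * ell * W) ≤ δ * (ζ * μ ^ 2) := by
      linarith only [w1, mul_le_mul_of_nonneg_right ζ1 (show 0 ≤ ζ * μ ^ 2 by positivity)]
    exact le_of_mul_le_mul_left this d0
  have q2 : δ * W / μ ^ 2 ≤ ζ / 8 := by
    rw [div_le_div_iff₀ (by positivity) (by norm_num)]
    linarith only [w2, hW, mul_le_mul_of_nonneg_right hl hW.le, mul_le_mul_of_nonneg_right d1 hW.le]
  have q0 : 0 ≤ δ * W / (x ^ 2 * (1 + z)) := by positivity
  have y0 : 0 < (1 - δ) ^ 2 * x ^ 2 := by positivity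
  refine ⟨mul_pos (pow_pos xp 2) (by linarith only [z2]), by linarith only [xz],
    by linarith only [q1, q2, ζ1, d1], by positivity,
    ?_, ?_, ?_, ?_, ?_, ?_, ?_, ?_⟩
  · have a1 : 40 * ell * δ * W * (x ^ 2 * (1 + z)) ≤ 80 * ell * δ * W * x ^ 2 := by
      have : 0 < ell * δ * W * x ^ 2 := by positivity
      linarith only [this, mul_le_mul_of_nonneg_left z2 this.le]
    have a2 : 80 * ell * δ * W * x ^ 2 ≤ ζ ^ 2 * x ^ 2 / 8 * x ^ 2 :=
      mul_le_mul_of_nonneg_right (by linarith only [w1, mul_le_mul_of_nonneg_left x2 (sq_nonneg ζ)])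
        (sq_nonneg x)
    have a3 : 1 / 2 ≤ ((1 - δ) ^ 2) ^ 2 :=
      le_trans (by norm_num) (pow_le_pow_left₀ (by norm_num) s2 2)
    have a4 := mul_le_mul_of_nonneg_left a3 (show 0 ≤ ζ ^ 2 * x ^ 2 * x ^ 2 by positivity)
    calc _ ≤ ζ ^ 2 * x ^ 2 / 8 * x ^ 2 := a1.trans a2
      _ = ζ ^ 2 * x ^ 2 * x ^ 2 * (1 / 2) / 4 := by ring
      _ ≤ ζ ^ 2 * x ^ 2 * x ^ 2 * ((1 - δ) ^ 2) ^ 2 / 4 := by linarith only [a4]
      _ = _ := by ring
  · have a1 : μ ^ 2 / 2 ≤ (1 - δ) ^ 2 * x ^ 2 := by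
      linarith only [x2, sq_nonneg x, mul_le_mul_of_nonneg_right s2 (sq_nonneg x)]
    have a2 := mul_le_mul_of_nonneg_left a1 ζ0.le
    linarith only [a2, w2, mul_pos l0 hW]
  · linarith only [mul_pos ζ0 y0]
  · generalize δ * W / (x ^ 2 * (1 + z)) = q at q0 q1
    have a1 : (1 + z) * (1 + 2 * q) + ζ / 2 ≤ 1 + (z + ζ) := by
      linarith only [q0, q1, q2, mul_le_mul_of_nonneg_right z2 q0]
    linarith only [mul_le_mul_of_nonneg_left a1 y0.le]
  · have : 0 ≤ δ * (j * (μ * N * δ / (2 * ell))) := by positivity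
    linarith only [this]
  · have a1 : 1 - x ^ 2 * (1 - z) / (x ^ 2 * (1 + z)) ≤ 2 * z := by
      rw [mul_div_mul_left _ _ (by positivity), sub_le_comm, le_div_iff₀ (by positivity)]
      linarith only [sq_nonneg z]
    have a2 : 1 - x ^ 2 * (1 - z) / (x ^ 2 * (1 + z)) ≤ 2 * (μ / (16 * ell)) := by
      linarith only [a1, z1]
    have a3 := mul_le_mul_of_nonneg_left a2 (show 0 ≤ 4 * N * δ by positivity)
    have a4 : 4 * N * δ * (2 * (μ / (16 * ell))) = N * δ * μ / (2 * ell) := by field_simp; ring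
    linarith only [a3, a4]
  · have a1 : δ * W / (x ^ 2 * (1 + z)) ≤ δ * W / x ^ 2 :=
      div_le_div_of_nonneg_left (by positivity) (by positivity) (by linarith only [xz])
    have a2 : (1 - δ) ^ 2 / (x * (1 - δ)) ^ 2 = 1 / x ^ 2 := by field_simp
    have a3 : δ * W / x ^ 2 ≤ W * (1 / x ^ 2 - (1 - δ) ^ 2 / x ^ 2) := by
      rw [← sub_div, ← mul_div_assoc]
      exact div_le_div_of_nonneg_right (by linarith only [mul_pos (mul_pos d0 hW) s0])
        (by positivity)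
    rw [a2]
    linarith only [a1, a3]
  · have a2 : (1 - δ) ^ 2 / (x * (1 - δ)) ^ 2 = 1 / x ^ 2 := by field_simp
    have a3 : 1 / x ^ 2 ≤ 1 / μ ^ 2 := one_div_le_one_div_of_le (by positivity) x2
    rw [a2]
    exact mul_nonneg (by positivity) (by linarith only [a3])

/-- the number of rounds -/
theorem nib_rounds {μ ell δ : ℝ} (hl : 1 ≤ ell) (d0 : 0 < δ) (d1 : δ ≤ 1)
    (he : Real.exp (-ell) ≤ μ) :
    ∃ R : ℕ, (1 - δ) ^ R ≤ μ ∧ (∀ i < R, μ ≤ (1 - δ) ^ i) ∧ R * δ ≤ 2 * ell := by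
  have h : (1 - δ) ^ ⌈ell / δ⌉₊ ≤ μ := by
    refine le_trans ?_ he
    refine (pow_le_pow_left₀ (by linarith) (Real.one_sub_le_exp_neg δ) _).trans ?_
    rw [← Real.exp_nat_mul, Real.exp_le_exp]
    have := (div_le_iff₀ d0).1 (Nat.le_ceil (ell / δ))
    linarith
  classical
  have ex : ∃ R : ℕ, (1 - δ) ^ R ≤ μ := ⟨_, h⟩
  refine ⟨Nat.find ex, Nat.find_spec ex, fun i hi => (not_le.1 (Nat.find_min ex hi)).le, ?_⟩
  have a1 : (Nat.find ex : ℝ) ≤ ⌈ell / δ⌉₊ := Nat.cast_le.2 (Nat.find_min' ex h)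
  have a2 := (Nat.ceil_lt_add_one (show 0 ≤ ell / δ by positivity)).le
  have a3 := mul_le_mul_of_nonneg_right (a1.trans a2) d0.le
  rw [add_mul, div_mul_cancel₀ _ d0.ne'] at a3
  linarith

theorem p_NIB (hROUND : S_ROUND) (hTWO : S_TWO) :
    S_NIB := by
  intro V _ _ G ω W N μ ell hG hW hω hd hl m0 m1 he hn hN 𝒮 hS h h0 hh
  have l0 : 0 < ell := by linarith
  have l2 : 1 ≤ ell ^ 2 := one_le_pow₀ hl
  have N0 : 0 < N := by
    by_contra c
    linarith only [hN, mul_nonneg (neg_nonneg.2 (not_lt.1 c)) (pow_pos m0 3).le, pow_pos l0 5]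
  obtain ⟨δ, hδ⟩ : ∃ δ, δ = μ / (800 * ell ^ 2) := ⟨_, rfl⟩
  obtain ⟨ζ, hζ⟩ : ∃ ζ, ζ = μ * δ / (32 * ell ^ 2) := ⟨_, rfl⟩
  have d0 : 0 < δ := by rw [hδ]; positivity
  have e1 : δ * (800 * ell ^ 2) = μ := by rw [hδ]; field_simp
  have d1 : δ ≤ 1 / 10 := by linarith only [e1, m1, mul_le_mul_of_nonneg_left l2 d0.le]
  have ζ0 : 0 < ζ := by rw [hζ]; positivity
  obtain ⟨R, r1, r2, r3⟩ := nib_rounds hl d0 (by linarith) he
  have R0 : (0 : ℝ) ≤ R := Nat.cast_nonneg R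
  have r4 : (R : ℝ) ≤ 1600 * ell ^ 3 / μ := by
    rw [le_div_iff₀ m0, ← e1]
    linarith only [mul_le_mul_of_nonneg_right r3 (show 0 ≤ 800 * ell ^ 2 by positivity)]
  have r5 : R * ζ ≤ μ / (16 * ell) := by
    have : μ / (16 * ell) = 2 * ell * (μ / (32 * ell ^ 2)) := by field_simp; norm_num
    rw [this, hζ, show R * (μ * δ / (32 * ell ^ 2)) = R * δ * (μ / (32 * ell ^ 2)) by ring]
    exact mul_le_mul_of_nonneg_right r3 (by positivity)
  have n2 : 10 ^ 5 * ell ^ 5 ≤ N * μ ^ 2 := by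
    have := mul_pos N0 (pow_pos m0 2)
    linarith only [hN, this, mul_le_mul_of_nonneg_left m1 this.le]
  have e3 : μ * N * δ / (2 * ell) = N * μ ^ 2 / (1600 * ell ^ 3) := by
    rw [hδ]; field_simp; norm_num
  have s1 : 16 * ell * δ * N ≤ (μ * N * δ / (2 * ell)) ^ 2 := by
    have : (μ * N * δ / (2 * ell)) ^ 2 = δ * N * (N * μ ^ 3 / (3200 * ell ^ 4)) := by
      rw [hδ]; field_simp; norm_num
    rw [this, show 16 * ell * δ * N = δ * N * (16 * ell) by ring]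
    refine mul_le_mul_of_nonneg_left ?_ (by positivity)
    rw [le_div_iff₀ (by positivity)]
    linarith only [hN, pow_pos l0 5]
  have s2 : 6 * ell ≤ μ * N * δ / (2 * ell) := by
    rw [e3, le_div_iff₀ (by positivity)]
    linarith only [n2, pow_pos l0 4, mul_le_mul_of_nonneg_left hl (pow_pos l0 4).le]
  have key := nib_iter hROUND hTWO (R := R) (Lo := fun i => ((1 - δ) ^ i) ^ 2 * (1 - i * ζ))
    (Up := fun i => ((1 - δ) ^ i) ^ 2 * (1 + i * ζ))
    (dev := fun i => ζ * ((1 - δ) ^ 2 * ((1 - δ) ^ i) ^ 2) / 2)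
    (a := fun i => (1 - δ) ^ i * N + i * (μ * N * δ / (2 * ell)))
    (H := fun i => 2 * W * (1 / μ ^ 2 - (1 - δ) ^ 2 / ((1 - δ) ^ i) ^ 2))
    (w := N * δ * μ / (2 * ell) + 400 * ell * δ ^ 2 * N + 43 * ell ^ 2)
    hG hW hω d0 d1 hl s1 s2 hS
    (fun i hi => by
      have := nib_step (j := i) hW N0.le hl m0 m1 hn hδ hζ (r2 i hi)
        (show 0 ≤ i * ζ by positivity)
        ((mul_le_mul_of_nonneg_right (Nat.cast_le.2 hi.le) ζ0.le).trans r5) (Nat.cast_nonneg i)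
      simpa only [pow_succ (1 - δ) i, Nat.cast_succ, add_mul (i : ℝ) 1 ζ, one_mul] using this)
    R 0 (by simp) G (Subset.refl _) (fun u v e => by simp [hd u v e])
    (fun S hs => by simpa using hS S hs) h h0
    (fun t ht => le_trans (by
      have : 0 ≤ 2 * W * (1 - δ) ^ 2 := by positivity
      simp only [pow_zero, one_pow, div_one, mul_sub, mul_one_div]
      linarith) (hh t ht))
  refine le_trans (le_trans (Pr_mono (hz_isP h0) ?_) key)
    (mul_le_mul_of_nonneg_right r4 (by positivity))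
  rintro T hT ⟨Λ, b1, b2, b3⟩
  refine hT ⟨Λ, b1, b2, fun S hs => (b3 S hs).trans ?_⟩
  have a1 := mul_le_mul_of_nonneg_right r1 N0.le
  have a2 : R * (μ * N * δ / (2 * ell)) ≤ μ * N := by
    rw [show R * (μ * N * δ / (2 * ell)) = R * δ * (μ * N) / (2 * ell) by ring,
      div_le_iff₀ (by positivity)]
    linarith only [mul_le_mul_of_nonneg_right r3 (mul_pos m0 N0).le]
  have a3 : R * (400 * ell * δ ^ 2 * N) ≤ μ * N := by
    rw [← e1]
    linarith only [mul_le_mul_of_nonneg_right r3 (show 0 ≤ 400 * ell * δ * N by positivity)]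
  have a4 : R * (43 * ell ^ 2) ≤ μ * N := by
    refine (mul_le_mul_of_nonneg_right r4 (by positivity)).trans ?_
    rw [div_mul_eq_mul_div, div_le_iff₀ m0]
    linarith only [n2, pow_pos l0 5]
  have a5 : N * δ * μ / (2 * ell) = μ * N * δ / (2 * ell) := by ring
  simp only [a5, mul_add]
  linarith only [a1, a2, a3, a4]

end Pool.Agent.P.MP_224820_co.St
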