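import Pool.Agent.P.MP_224820_co.St.IfaceN

/-! Step NIBS. -/

set_option autoImplicit false

namespace Pool.Agent.P.MP_224820_co.St

open Finset

theorem p_NIBS (hNIB : S_NIB) :
    S_NIBS := by
  intro V _ _ G R ω W N μ ell hG hd hW hω hwd hell hμ hμ2 hexp h1 h2 hN h hh0 hh
  have hN0 : 0 ≤ N := by
    by_contra hc
    have hc := not_le.1 hc
    have a1 : N * μ ^ 3 < 0 := mul_neg_of_neg_of_pos hc (by positivity)
    have a2 : (0 : ℝ) ≤ 10 ^ 5 * ell ^ 5 := by positivity
    linarith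
  set 𝒮 : Finset (Finset (Sym2 V)) :=
    (univ : Finset (V × V)).image fun x => (nb R x.2).image fun y => s(x.1, y) with h𝒮
  have hcard : (𝒮.card : ℝ) ≤ (Fintype.card V : ℝ) ^ 2 := by
    have : 𝒮.card ≤ Fintype.card V ^ 2 := by
      refine card_image_le.trans ?_
      rw [card_univ, Fintype.card_prod, sq]
    exact_mod_cast this
  have hS : ∀ S ∈ 𝒮, ((S ∩ G).card : ℝ) ≤ N := by
    intro S hS
    obtain ⟨x, -, rfl⟩ := mem_image.1 hS
    rw [inter_comm, card_inter_star]
    by_cases hx : x.1 = x.2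
    · have : nb G x.1 ∩ nb R x.2 = ∅ := by
        refine eq_empty_of_forall_notMem fun y hy => ?_
        obtain ⟨a, b⟩ := mem_inter.1 hy
        rw [mem_nb] at a b
        rw [← hx] at b
        exact disjoint_left.1 hd a b
      rw [this]
      simpa using hN0
    · exact hN _ _ hx
  have key := hNIB V G ω W N μ ell hG hW hω hwd hell hμ hμ2 hexp h1 h2 𝒮 hS h hh0 hh
  refine le_trans (Pr_mono (hz_isP hh0) fun T hT => ?_) (key.trans ?_)
  · rintro ⟨Λ, a, b, c⟩
    refine hT ⟨Λ, a, b, fun u w => ?_⟩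
    have := c _ (mem_image.2 ⟨(u, w), mem_univ _, rfl⟩)
    rwa [inter_comm, card_inter_star] at this
  · have e0 : 0 < Real.exp (-ell) := Real.exp_pos _
    have c0 : 0 ≤ 1600 * ell ^ 3 / μ := by positivity
    calc 1600 * ell ^ 3 / μ * ((3 * (Fintype.card V : ℝ) ^ 2 + 4 * 𝒮.card) * Real.exp (-ell))
        ≤ 1600 * ell ^ 3 / μ * ((7 * (Fintype.card V : ℝ) ^ 2) * Real.exp (-ell)) := by
          refine mul_le_mul_of_nonneg_left (mul_le_mul_of_nonneg_right (by linarith) e0.le) c0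
      _ = 11200 * ell ^ 3 / μ * (Fintype.card V : ℝ) ^ 2 * Real.exp (-ell) := by ring

end Pool.Agent.P.MP_224820_co.St
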