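import Pool.Agent.P.MP_224820_co.St.IfaceN

/-! Step NUM0. -/

set_option autoImplicit false

namespace Pool.Agent.P.MP_224820_co.St

open Finset

theorem num0_master {c C x : ℝ} (hc : 0 < c) (hx1 : 1 ≤ x) (hx : C * 3628800 / c ^ 10 ≤ x) :
    C * x ^ 90 ≤ Real.exp (c * x ^ 10) := by
  have h1 := Real.pow_div_factorial_le_exp (c * x ^ 10) (by positivity) 10
  have h2 : ((Nat.factorial 10 : ℕ) : ℝ) = 3628800 := by norm_num [Nat.factorial]
  rw [h2] at h1
  refine le_trans ?_ h1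
  rw [div_le_iff₀ (by positivity)] at hx
  rw [le_div_iff₀ (by norm_num)]
  have h3 : x ≤ x ^ 10 := le_self_pow₀ hx1 (by norm_num)
  have h4 : x * c ^ 10 ≤ x ^ 10 * c ^ 10 := mul_le_mul_of_nonneg_right h3 (by positivity)
  have h5 : C * 3628800 * x ^ 90 ≤ x ^ 10 * c ^ 10 * x ^ 90 :=
    mul_le_mul_of_nonneg_right (hx.trans h4) (by positivity)
  calc C * x ^ 90 * 3628800 = C * 3628800 * x ^ 90 := by ring
    _ ≤ x ^ 10 * c ^ 10 * x ^ 90 := h5
    _ = (c * x ^ 10) ^ 10 := by ring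

theorem num0_exp {y : ℝ} (hy : 0 ≤ y) : y - y ^ 2 ≤ 1 - Real.exp (-y) := by
  have h1 : 1 + y ≤ Real.exp y := by linarith [Real.add_one_le_exp y]
  have h2 : Real.exp (-y) * Real.exp y = 1 := by rw [← Real.exp_add]; simp
  have h3 := Real.exp_pos (-y)
  have h4 : Real.exp (-y) * (1 + y) ≤ 1 := by nlinarith
  have h5 : (1 - y + y ^ 2) * (1 + y) = 1 + y ^ 3 := by ring
  have h6 : 0 ≤ y ^ 3 := by positivity
  by_contra hh
  have h7 : 1 - y + y ^ 2 < Real.exp (-y) := by linarith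
  have h8 : (1 - y + y ^ 2) * (1 + y) < Real.exp (-y) * (1 + y) :=
    mul_lt_mul_of_pos_right h7 (by linarith)
  linarith

theorem num0_t1 {L a r : ℝ} (h : L + a ≤ r) : Real.exp L * Real.exp a ≤ Real.exp r := by
  rw [← Real.exp_add]; exact Real.exp_le_exp.2 h

theorem num0_t2 {L a r : ℝ} (h : 2 * L + a ≤ r) : Real.exp L ^ 2 * Real.exp a ≤ Real.exp r := by
  rw [sq, ← Real.exp_add, ← Real.exp_add]; exact Real.exp_le_exp.2 (by linarith)

theorem num0_core {ε η δ x β C : ℝ} (hε : 0 < ε) (hε1 : ε ≤ 1) (hη : 0 < η) (hη1 : η ≤ 1)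
    (hδ : 0 < δ) (hβ : 1 / x ^ 3 ≤ β) (hx : 1600 ≤ x) (hxε : 160 ≤ ε * x)
    (hxl : 5 * Real.exp (1024 / η) ≤ x) (hxδ : 64 ≤ ε * δ * x)
    (hC1 : 2 * 10 ^ 16 ≤ C) (hC2 : 36 ≤ ε * C)
    (hC3 : 30 * Real.exp (96 * Real.log (40 / ε) / ε) ≤ C) (hC4 : 5 * Real.exp (1024 / η) ≤ C)
    (hE : C * x ^ 90 ≤ Real.exp (η / 32 * x ^ 10)) :
    ∃ P : P0, P.ok (Real.exp (x ^ 10)) (1 / x) β ∧
      P.Hb + 4 / (Real.exp (x ^ 10) * P.μ ^ 2) ≤ (2 + ε) * x ^ 10 / Real.exp (x ^ 10) ∧
      4 * P.q ≤ η * x ^ 10 / (Real.exp (x ^ 10) * β ^ 2) ∧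
      P.bd (Real.exp (x ^ 10)) (1 / x) β ≤ δ := by
  have hx0 : 0 < x := by linarith
  have hx1 : 1 ≤ x := by linarith
  have hβ0 : 0 < β := lt_of_lt_of_le (by positivity) hβ
  have hβx : 1 ≤ β * x ^ 3 := by rwa [div_le_iff₀ (by positivity)] at hβ
  have hpw : ∀ a b : ℕ, a ≤ b → x ^ a ≤ x ^ b := fun a b h => pow_le_pow_right₀ hx1 h
  have hC0 : 0 < C := lt_of_lt_of_le (by positivity) hC1
  obtain ⟨L, hL⟩ : ∃ L, L = x ^ 10 := ⟨_, rfl⟩
  have hLx : x ≤ L := by rw [hL]; exact le_self_pow₀ hx1 (by norm_num)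
  have hL0 : 0 < L := by linarith
  rw [← hL] at hE ⊢
  obtain ⟨n, hn⟩ : ∃ n, n = Real.exp L := ⟨_, rfl⟩
  have hn0 : 0 < n := by rw [hn]; positivity
  obtain ⟨ps, hps⟩ : ∃ ps, ps = Real.exp (-(η / 32 * L)) := ⟨_, rfl⟩
  have hps0 : 0 < ps := by rw [hps]; positivity
  have hpE : ps * Real.exp (η / 32 * L) = 1 := by rw [hps, ← Real.exp_add]; simp
  -- polynomial bounds
  have hP : ∀ (D : ℝ) (a : ℕ), 0 ≤ D → D ≤ C → a ≤ 90 → D * x ^ a * ps ≤ 1 := by
    intro D a h0 h1 h2
    have h3 : D * x ^ a ≤ C * x ^ 90 := mul_le_mul h1 (hpw _ _ h2) (by positivity) hC0.le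
    calc D * x ^ a * ps ≤ Real.exp (η / 32 * L) * ps :=
          mul_le_mul_of_nonneg_right (h3.trans hE) hps0.le
      _ = 1 := by rw [mul_comm, hpE]
  have hEn : Real.exp (η / 32 * L) ≤ n * ps := by
    rw [hn, hps, ← Real.exp_add]
    exact Real.exp_le_exp.2 (by nlinarith)
  have hps1 : ps ≤ 1 := by
    rw [hps]; exact Real.exp_le_one_iff.2 (by nlinarith)
  have hN : ∀ (D : ℝ) (a : ℕ), 0 ≤ D → D ≤ C → a ≤ 90 → D * x ^ a ≤ n * ps := by
    intro D a h0 h1 h2
    exact (mul_le_mul h1 (hpw _ _ h2) (by positivity) hC0.le).trans (hE.trans hEn)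
  have hN' : ∀ (D : ℝ) (a : ℕ), 0 ≤ D → D ≤ C → a ≤ 90 → D * x ^ a ≤ n := by
    intro D a h0 h1 h2
    exact (hN D a h0 h1 h2).trans (by nlinarith)
  obtain ⟨l1, hl1⟩ : ∃ l1, l1 = Real.log (40 / ε) := ⟨_, rfl⟩
  have hl10 : 0 < l1 := by
    rw [hl1]; apply Real.log_pos; rw [lt_div_iff₀ hε]; linarith
  have hl1e : Real.exp (-l1) = ε / 40 := by
    rw [hl1, Real.exp_neg, Real.exp_log (by positivity)]; field_simp
  rw [← hl1] at hC3
  obtain ⟨e2, he2⟩ : ∃ e, e = Real.exp (96 * l1 / ε) := ⟨_, rfl⟩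
  obtain ⟨e3, he3⟩ : ∃ e, e = Real.exp (1024 / η) := ⟨_, rfl⟩
  have he20 : 0 < e2 := by rw [he2]; positivity
  have he30 : 0 < e3 := by rw [he3]; positivity
  rw [← he2] at hC3
  rw [← he3] at hC4 hxl
  have hC5 : (12 * 10 ^ 6 : ℝ) ≤ C := le_trans (by norm_num) hC1
  refine ⟨⟨η * L / (4 * n * β ^ 2), η * L / 128, ps, 3 * n * ps,
    8 * (η * L / (4 * n * β ^ 2)) * n * β + 3 * L, (2 + ε / 2) * L / n, (2 + 3 * ε / 4) * L / n,
    ε * L / (32 * l1), l1, 96 * l1 / ε, 1024 / η, 1 / x ^ 4, 10 * L⟩, ?_, ?_, ?_, ?_⟩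
  · rw [← hn]
    constructor <;> try dsimp only
    · positivity
    · rw [div_le_iff₀ (by positivity)]
      have h1 := hN' 1 16 (by norm_num) (by linarith) (by norm_num)
      have h2 : 1 ≤ (β * x ^ 3) ^ 2 := one_le_pow₀ hβx
      have h3 : L ≤ x ^ 16 * β ^ 2 := by
        calc L = L * 1 := by ring
          _ ≤ L * (β * x ^ 3) ^ 2 := mul_le_mul_of_nonneg_left h2 hL0.le
          _ = x ^ 16 * β ^ 2 := by rw [hL]; ring
      have h4 : x ^ 16 * β ^ 2 ≤ n * β ^ 2 := mul_le_mul_of_nonneg_right (by linarith) (by positivity)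
      have h5 : η * L ≤ L := by nlinarith
      have h6 : 0 ≤ n * β ^ 2 := by positivity
      nlinarith
    · positivity
    · rw [hps]
      refine le_of_eq (congrArg _ ?_)
      field_simp
      ring
    · positivity
    · positivity
    · refine le_trans ?_ (num0_exp (by positivity))
      have h1 := hN' C 10 hC0.le le_rfl (by norm_num)
      rw [← hL] at h1
      have h2 : 36 * L ≤ ε * n := by nlinarith
      have h3 : (2 + 3 * ε / 4) * L / n ≤ 3 * L / n :=
        div_le_div_of_nonneg_right (by nlinarith) hn0.le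
      have h4 : ((2 + 3 * ε / 4) * L / n) ^ 2 ≤ (3 * L / n) ^ 2 :=
        pow_le_pow_left₀ (by positivity) h3 2
      have h5 : (3 * L / n) ^ 2 ≤ ε / 4 * L / n := by
        rw [div_pow, div_le_div_iff₀ (by positivity) hn0]
        have : 0 ≤ L * n := by positivity
        nlinarith
      have h6 : (2 + 3 * ε / 4) * L / n = (2 + ε / 2) * L / n + ε / 4 * L / n := by ring
      linarith
    · positivity
    · positivity
    · positivity
    · positivity
    · have h1 := hP 3 1 (by norm_num) (by linarith) (by norm_num)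
      rw [pow_one] at h1
      rw [one_div, inv_mul_eq_div, le_div_iff₀ hx0]
      nlinarith
    · exact one_div_le_one_div_of_le (by norm_num) hx
    · linarith
    · positivity
    · apply one_div_le_one_div_of_le (by norm_num)
      have := hpw 1 4 (by norm_num)
      rw [pow_one] at this
      linarith
    · have h1 := hN' 1 4 (by norm_num) (by linarith) (by norm_num)
      rw [Real.exp_neg, one_div]
      apply inv_anti₀ (by positivity)
      have : Real.exp L ≤ Real.exp (10 * L) := Real.exp_le_exp.2 (by linarith)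
      linarith
    · have h1 := hN' (2 * 10 ^ 16) 90 (by norm_num) hC1 le_rfl
      rw [div_pow, one_pow, mul_one_div, le_div_iff₀ (by positivity), hL]
      calc _ = 2 * 10 ^ 16 * x ^ 90 := by ring
        _ ≤ n := h1
    · have h1 := hN' (10 ^ 10) 65 (by norm_num) (le_trans (by norm_num) hC1) (by norm_num)
      rw [div_pow, one_pow, mul_one_div, le_div_iff₀ (by positivity), hL]
      have h2 : 10 ^ 10 * x ^ 65 * β ≤ n * β := mul_le_mul_of_nonneg_right h1 hβ0.le
      have h3 : 10 ^ 10 * x ^ 62 * 1 ≤ 10 ^ 10 * x ^ 62 * (β * x ^ 3) :=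
        mul_le_mul_of_nonneg_left hβx (by positivity)
      have h4 : 0 ≤ n * β := by positivity
      calc _ = 10 ^ 10 * x ^ 62 * 1 := by ring
        _ ≤ 10 ^ 10 * x ^ 62 * (β * x ^ 3) := h3
        _ = 10 ^ 10 * x ^ 65 * β := by ring
        _ ≤ 2 * n * β := by linarith
  · rw [← hn]
    dsimp only
    have h1 : 4 / (n * (1 / x ^ 4) ^ 2) = 4 * x ^ 8 / n := by field_simp
    rw [h1, ← add_div]
    apply div_le_div_of_nonneg_right _ hn0.le
    have h2 : 160 * x ^ 9 ≤ ε * x * x ^ 9 := mul_le_mul_of_nonneg_right hxε (by positivity)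
    have h3 : ε * x * x ^ 9 = ε * L := by rw [hL]; ring
    have h4 := hpw 8 9 (by norm_num)
    have h5 : 0 ≤ x ^ 9 := by positivity
    nlinarith
  · rw [← hn]
    dsimp only
    exact le_of_eq (by field_simp)
  · have hr : Real.exp (-(ε * L / 8)) ≤ δ / 8 := by
      rw [Real.exp_neg, inv_le_comm₀ (by positivity) (by positivity)]
      have h1 := Real.add_one_le_exp (ε * L / 8)
      have h2 : (δ / 8)⁻¹ ≤ ε * L / 8 := by
        rw [inv_div, div_le_div_iff₀ hδ (by norm_num)]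
        have : ε * δ * x ≤ ε * δ * L := mul_le_mul_of_nonneg_left hLx (by positivity)
        nlinarith
      linarith
    have hεL : ε * L ≤ L := by nlinarith
    have hεL0 : 0 ≤ ε * L := by positivity
    have a1 : Real.exp L * Real.exp (2 * n * ps - 3 * n * ps) ≤ Real.exp (-(ε * L / 8)) := by
      apply num0_t1
      have h1 := hN 2 10 (by norm_num) (by linarith) (by norm_num)
      rw [← hL] at h1
      linarith
    have a2 : Real.exp L ^ 2 * Real.exp (4 * (η * L / (4 * n * β ^ 2)) * (2 * n * β) -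
        (8 * (η * L / (4 * n * β ^ 2)) * n * β + 3 * L)) ≤ Real.exp (-(ε * L / 8)) := by
      apply num0_t2
      linarith
    have a3 : Real.exp L ^ 2 * Real.exp (4 * l1 * (ε * L / (32 * l1)) -
        (2 + ε / 2) * L / n * (n * (1 - 4 * (1 / x))) * (1 - Real.exp (-l1)))
        ≤ Real.exp (-(ε * L / 8)) := by
      apply num0_t2
      have h1 : 4 * l1 * (ε * L / (32 * l1)) = ε * L / 8 := by field_simp; ring
      have h2 : (2 + ε / 2) * L / n * (n * (1 - 4 * (1 / x))) * (1 - ε / 40) =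
          L * ((2 + ε / 2) * (1 - ε / 40) * (1 - 4 * (1 / x))) := by field_simp
      have h3 : 4 * (1 / x) ≤ ε / 40 := by
        rw [mul_one_div, div_le_div_iff₀ hx0 (by norm_num)]; linarith
      have h4 : (2 + ε / 2) * (1 - ε / 40) * (1 - ε / 40) ≤
          (2 + ε / 2) * (1 - ε / 40) * (1 - 4 * (1 / x)) :=
        mul_le_mul_of_nonneg_left (by linarith) (mul_nonneg (by linarith) (by linarith))
      have h5 : 2 + ε / 4 ≤ (2 + ε / 2) * (1 - ε / 40) * (1 - ε / 40) := by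
        nlinarith [mul_nonneg hε.le hε.le, mul_nonneg hε.le (mul_nonneg hε.le hε.le),
          mul_nonneg hε.le (sub_nonneg.2 hε1)]
      have h6 := mul_le_mul_of_nonneg_left (h5.trans h4) hL0.le
      rw [h1, hl1e, h2]
      nlinarith
    have a4 : Real.exp L ^ 2 * Real.exp (2 * ((2 + ε / 2) * L / n) * (3 * n * ps) * (e2 - 1) -
        96 * l1 / ε * (ε * L / (32 * l1))) ≤ Real.exp (-(ε * L / 8)) := by
      apply num0_t2
      have h1 : 96 * l1 / ε * (ε * L / (32 * l1)) = 3 * L := by field_simp; ring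
      have h2 : 2 * ((2 + ε / 2) * L / n) * (3 * n * ps) = (12 + 3 * ε) * (L * ps) := by
        field_simp; ring
      have h3 := hP (30 * e2) 0 (by positivity) hC3 (by norm_num)
      have h4 : 0 ≤ L * ps := by positivity
      have h5 : (12 + 3 * ε) * (L * ps) * (e2 - 1) ≤ 15 * (L * ps) * e2 := by
        have h6 : (12 + 3 * ε) * (L * ps) * e2 ≤ 15 * (L * ps) * e2 :=
          mul_le_mul_of_nonneg_right (by nlinarith) he20.le
        have h7 : 0 ≤ (12 + 3 * ε) * (L * ps) := by positivity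
        linarith
      have h8 : L * (30 * e2 * x ^ 0 * ps) ≤ L * 1 := mul_le_mul_of_nonneg_left h3 hL0.le
      rw [h1, h2]
      nlinarith
    have a5 : Real.exp L * Real.exp (4 * ((2 + ε / 2) * L / n) * n * (3 * n * ps) - 1 / x * n)
        ≤ Real.exp (-(ε * L / 8)) := by
      apply num0_t1
      have h2 : 4 * ((2 + ε / 2) * L / n) * n * (3 * n * ps) = (24 + 6 * ε) * (L * ps * n) := by
        field_simp; ring
      have h3 := hP 60 11 (by norm_num) (by linarith) (by norm_num)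
      have h4 := hN' 4 11 (by norm_num) (by linarith) (by norm_num)
      have h5 : x ^ 11 = L * x := by rw [hL]; ring
      rw [h5] at h3 h4
      have h6 : 4 * L ≤ 1 / x * n := by
        rw [one_div, inv_mul_eq_div, le_div_iff₀ hx0]; linarith
      have h7 : 60 * (L * ps * n) ≤ 1 / x * n := by
        rw [one_div, inv_mul_eq_div, le_div_iff₀ hx0]
        have := mul_le_mul_of_nonneg_right h3 hn0.le
        linarith
      have h8 : 0 ≤ L * ps * n := by positivity
      rw [h2]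
      nlinarith
    have a6 : 11200 * (10 * L) ^ 3 / (1 / x ^ 4) * Real.exp L ^ 2 * Real.exp (-(10 * L))
        ≤ Real.exp (-(ε * L / 8)) := by
      have h1 := hN' (112 * 10 ^ 5) 34 (by norm_num) (by linarith) (by norm_num)
      have h2 : 11200 * (10 * L) ^ 3 / (1 / x ^ 4) = 112 * 10 ^ 5 * x ^ 34 := by
        rw [hL]; field_simp; ring
      have h3 : Real.exp L ^ 2 * Real.exp (-(10 * L)) ≤ Real.exp (-(8 * L)) :=
        num0_t2 (by linarith)
      rw [h2, mul_assoc]
      refine le_trans (mul_le_mul (h1.trans hn.le) h3 (by positivity) (by positivity)) ?_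
      exact num0_t1 (by linarith)
    have hlk : 1024 / η * (η * L / 128) / 2 = 4 * L := by field_simp; ring
    have a7 : Real.exp L ^ 2 * Real.exp ((8 * (η * L / (4 * n * β ^ 2)) * n * β + 3 * L) * ps *
        (e3 - 1) - 1024 / η * (η * L / 128) / 2) ≤ Real.exp (-(ε * L / 8)) := by
      apply num0_t2
      have h1 : 8 * (η * L / (4 * n * β ^ 2)) * n * β = 2 * η * L / β := by field_simp; ring
      have h2 : 2 * η * L / β ≤ 2 * L * x ^ 3 := by
        rw [div_le_iff₀ hβ0]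
        have : 2 * L * 1 ≤ 2 * L * (β * x ^ 3) := mul_le_mul_of_nonneg_left hβx (by positivity)
        nlinarith
      have h3 : 3 * L * 1 ≤ 3 * L * x ^ 3 :=
        mul_le_mul_of_nonneg_left (one_le_pow₀ hx1) (by positivity)
      have h4 := hP (5 * e3) 3 (by positivity) hC4 (by norm_num)
      have h5 : (2 * η * L / β + 3 * L) * ps * e3 ≤ 5 * L * x ^ 3 * ps * e3 :=
        mul_le_mul_of_nonneg_right (mul_le_mul_of_nonneg_right (by linarith) hps0.le) he30.le
      have h6 : 0 ≤ (2 * η * L / β + 3 * L) * ps := by positivity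
      have h7 : L * (5 * e3 * x ^ 3 * ps) ≤ L * 1 := mul_le_mul_of_nonneg_left h4 hL0.le
      rw [h1, hlk]
      nlinarith
    have a8 : Real.exp L ^ 2 * Real.exp (2 * (η * L / (4 * n * β ^ 2)) * (10 * (1 / x ^ 4) * n * β) *
        (e3 - 1) - 1024 / η * (η * L / 128) / 2) ≤ Real.exp (-(ε * L / 8)) := by
      apply num0_t2
      have h1 : 2 * (η * L / (4 * n * β ^ 2)) * (10 * (1 / x ^ 4) * n * β) =
          5 * η * L / (β * x ^ 3 * x) := by field_simp; ring
      have h2 : 5 * η * L / (β * x ^ 3 * x) * e3 ≤ L := by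
        rw [div_mul_eq_mul_div, div_le_iff₀ (by positivity)]
        have h3 : L * x * 1 ≤ L * x * (β * x ^ 3) := mul_le_mul_of_nonneg_left hβx (by positivity)
        have h4 : L * (5 * e3) ≤ L * x := mul_le_mul_of_nonneg_left hxl hL0.le
        have h5 : η * (L * (5 * e3)) ≤ 1 * (L * (5 * e3)) :=
          mul_le_mul_of_nonneg_right hη1 (by positivity)
        nlinarith
      have h6 : 0 ≤ 5 * η * L / (β * x ^ 3 * x) := by positivity
      rw [h1, hlk]
      nlinarith
    rw [← hn] at a1 a2 a3 a4 a5 a6 a7 a8 ⊢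
    unfold P0.bd
    dsimp only
    rw [← he2, ← he3]
    linarith

theorem p_NUM0 :
    S_NUM0 := by
  intro ε η δ hε hε1 hη hη1 hδ
  obtain ⟨C, hC⟩ : ∃ C : ℝ, C = 2 * 10 ^ 16 + 36 / ε + 30 * Real.exp (96 * Real.log (40 / ε) / ε) +
    5 * Real.exp (1024 / η) := ⟨_, rfl⟩
  obtain ⟨X, hX⟩ : ∃ X : ℝ, X = 1600 + 160 / ε + 5 * Real.exp (1024 / η) + 64 / (ε * δ) +
    C * 3628800 / (η / 32) ^ 10 := ⟨_, rfl⟩
  have p1 : 0 < 36 / ε := by positivity
  have p2 := Real.exp_pos (96 * Real.log (40 / ε) / ε)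
  have p3 := Real.exp_pos (1024 / η)
  have p4 : 0 < 160 / ε := by positivity
  have p5 : 0 < 64 / (ε * δ) := by positivity
  have hC0 : 0 < C := by rw [hC]; positivity
  have p6 : 0 < C * 3628800 / (η / 32) ^ 10 := by positivity
  refine ⟨⌈Real.exp (X ^ 10)⌉₊, fun n hn β hβ _ => ?_⟩
  have hn1 : Real.exp (X ^ 10) ≤ n := (Nat.le_ceil _).trans (by exact_mod_cast hn)
  have hn0 : (0 : ℝ) < n := lt_of_lt_of_le (Real.exp_pos _) hn1
  have hX0 : 0 < X := by rw [hX]; positivity
  have hl : X ^ 10 ≤ Real.log n := by rwa [Real.le_log_iff_exp_le hn0]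
  have hl0 : 0 < Real.log n := lt_of_lt_of_le (by positivity) hl
  obtain ⟨x, hx⟩ : ∃ x : ℝ, x = Real.log n ^ (1 / 10 : ℝ) := ⟨_, rfl⟩
  have hx0 : 0 < x := by rw [hx]; positivity
  have h10 : x ^ 10 = Real.log n := by
    rw [hx, ← Real.rpow_natCast, ← Real.rpow_mul hl0.le]; norm_num
  have h1 : Real.log n ^ (-(1 / 10) : ℝ) = 1 / x := by
    rw [Real.rpow_neg hl0.le, hx, one_div (_ ^ _)]
  have h3 : Real.log n ^ (-(3 / 10) : ℝ) = 1 / x ^ 3 := by
    rw [Real.rpow_neg hl0.le, hx, one_div (_ ^ _), ← Real.rpow_natCast, ← Real.rpow_mul hl0.le]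
    norm_num
  have hXx : X ≤ x := by
    rw [← h10] at hl
    exact le_of_pow_le_pow_left₀ (by norm_num) hx0.le hl
  have hen : Real.exp (x ^ 10) = n := by rw [h10, Real.exp_log hn0]
  rw [h3] at hβ
  have q1 : 160 / ε ≤ x := by linarith
  have q2 : 64 / (ε * δ) ≤ x := by linarith
  have q3 : 36 / ε ≤ C := by linarith
  rw [div_le_iff₀ (by positivity)] at q1 q2 q3
  have := num0_core (C := C) hε hε1 hη hη1 hδ hβ (by linarith) (by linarith) (by linarith)
    (by linarith) (by linarith) (by linarith) (by linarith) (by linarith)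
    (num0_master (by positivity) (by linarith) (by linarith))
  rw [hen, h10, ← h1] at this
  exact this

end Pool.Agent.P.MP_224820_co.St
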