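import Pool.Agent.P.MP_224820_co.St.IfaceA

/-! Step NUMA1. -/

set_option autoImplicit false

namespace Pool.Agent.P.MP_224820_co.St

open Finset

theorem numa1_le {x c : ℝ} (hx : 100000 ≤ x) {a b : ℕ} (hab : a + 2 ≤ b) (hc : c ≤ 10000000000) :
    c * x ^ a ≤ x ^ b := by
  have h1 : (1 : ℝ) ≤ x := by linarith
  have h2 : x ^ (a + 2) ≤ x ^ b := pow_le_pow_right₀ h1 hab
  have h3 : c ≤ x ^ 2 := by nlinarith
  have h4 : 0 ≤ x ^ a := by positivity
  calc c * x ^ a ≤ x ^ 2 * x ^ a := mul_le_mul_of_nonneg_right h3 h4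
    _ = x ^ (a + 2) := by ring
    _ ≤ _ := h2

theorem numa1_core {x N L : ℝ} (hx : 100000 ≤ x) (hN : N = x ^ 3000) (L0 : 0 ≤ L)
    (hL : L ≤ 2000 * x ^ 1971) :
    EN N 3 2 2 4 0 4 (N * L) L 0 (x ^ 1003)⁻¹ (x ^ 3) (x ^ 6)⁻¹
        (x ^ 1971 + (10000 : ℕ) * (3 * x ^ 1997)) 1 ∧
      kapR (x ^ 3) (x ^ 6)⁻¹ ^ 10000 * (N * L)
        + (10000 : ℕ) * (N * Real.exp (2 * N * (x ^ 1003)⁻¹ - 3 * x ^ 1997)) ≤ 1 / N := by
  have x1 : (1 : ℝ) ≤ x := by linarith
  have x0 : (0 : ℝ) < x := by linarith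
  have N0 : 0 < N := by rw [hN]; positivity
  constructor
  · refine ⟨by positivity, inv_le_one_of_one_le₀ (one_le_pow₀ x1), by positivity, by norm_num,
      by norm_num, le_rfl, by positivity, L0, le_rfl, ?_, ?_, ?_, ?_⟩
    · have := numa1_le (c := 5) (a := 0) (b := 1003 * 2) hx (by norm_num) (by norm_num)
      rw [inv_pow, ← pow_mul, ← div_eq_mul_inv, div_le_one (by positivity)]
      refine le_trans ?_ this
      norm_num
    · have h1 := numa1_le (c := 90) (a := 0) (b := 3000) hx (by norm_num) (by norm_num)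
      have h2 := numa1_le (c := 24) (a := 1971) (b := 3000) hx (by norm_num) (by norm_num)
      have h3 := numa1_le (c := 720000) (a := 1997) (b := 3000) hx (by norm_num) (by norm_num)
      rw [hN]
      push_cast
      linarith
    · have h1 := numa1_le (c := 2) (a := 4015) (b := 9000) hx (by norm_num) (by norm_num)
      rw [hN, inv_pow, ← pow_mul, ← pow_mul, ← div_eq_mul_inv, le_div_iff₀ (by positivity)]
      have : x ^ 3 * x ^ (1003 * 4) = x ^ 4015 := by rw [← pow_add]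
      rw [this]
      norm_num
      linarith
    · have hB : bigB 3 4 (FF N 3 2 2 (x ^ 1003)⁻¹) 1 = 0 := by unfold bigB; norm_num
      have hF : FF N 3 2 2 (x ^ 1003)⁻¹ = 5 / N + 12 * x ^ 9 := by
        unfold FF
        rw [hN, inv_pow, div_inv_eq_mul, ← pow_mul]
        have : x ^ (1003 * 3) = x ^ 9 * x ^ 3000 := by rw [← pow_add]
        rw [this]
        generalize hy : x ^ 3000 = y at *
        have : y ≠ 0 := by rw [← hN]; exact N0.ne'
        field_simp
        push_cast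
        ring
      have N1 : 1 ≤ N := by rw [hN]; exact one_le_pow₀ x1
      have x9 : 1 ≤ x ^ 9 := one_le_pow₀ x1
      have f1 : 5 / N ≤ 5 := div_le_self (by norm_num) N1
      have f0 : 0 ≤ 5 / N := by positivity
      have f2 : (1 + (5 / N + 12 * x ^ 9)) ^ 3 ≤ (18 * x ^ 9) ^ 3 :=
        pow_le_pow_left₀ (by positivity) (by linarith) 3
      have f3 : (18 * x ^ 9) ^ 3 = 5832 * x ^ 27 := by ring
      have g1 : N * L * ((x ^ 1003)⁻¹ ^ 5 * 5) ≤ 10000 * (x ^ 35)⁻¹ := by
        have a1 : x ^ (3000 + 1971 + 35) ≤ x ^ (1003 * 5) := pow_le_pow_right₀ x1 (by norm_num)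
        rw [pow_add, pow_add, ← hN] at a1
        rw [inv_pow, ← pow_mul, ← div_eq_mul_inv, le_div_iff₀ (by positivity)]
        have a2 : N * L * ((x ^ (1003 * 5))⁻¹ * 5) * x ^ 35
            = (N * L * x ^ 35 * 5) / x ^ (1003 * 5) := by
          rw [div_eq_mul_inv]; generalize (x ^ (1003 * 5))⁻¹ = z; generalize x ^ 35 = w; ring
        rw [a2, div_le_iff₀ (by positivity)]
        have a3 : N * L * x ^ 35 ≤ N * (2000 * x ^ 1971) * x ^ 35 := by gcongr
        generalize x ^ (1003 * 5) = z at *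
        generalize x ^ 35 = w at *
        generalize x ^ 1971 = v at *
        linarith
      have g2 : 5 * L * (x ^ 1003)⁻¹ ^ 2 ≤ 10000 * (x ^ 35)⁻¹ := by
        have a1 : x ^ 1971 * x ^ 35 = x ^ (1003 * 2) := by rw [← pow_add]
        rw [inv_pow, ← pow_mul, ← a1, mul_inv]
        have a2 : L * (x ^ 1971)⁻¹ ≤ 2000 := by
          rw [← div_eq_mul_inv, div_le_iff₀ (by positivity)]; exact hL
        have a3 : 0 ≤ (x ^ 35)⁻¹ := by positivity
        have := mul_le_mul_of_nonneg_right a2 a3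
        generalize (x ^ 1971)⁻¹ = z at *
        generalize (x ^ 35)⁻¹ = w at *
        linarith
      have g0 : 0 ≤ N * L * ((x ^ 1003)⁻¹ ^ 5 * 5) + 5 * L * (x ^ 1003)⁻¹ ^ 2 := by positivity
      have g3 : 24 * (5832 * x ^ 27) * (20000 * (x ^ 35)⁻¹) ≤ (x ^ 6)⁻¹ := by
        have a1 := numa1_le (c := 24 * 5832 * 20000) (a := 33) (b := 35) hx (by norm_num)
          (by norm_num)
        have a2 : 24 * (5832 * x ^ 27) * (20000 * (x ^ 35)⁻¹)
            = (24 * 5832 * 20000 * x ^ 33) / x ^ 35 * (x ^ 6)⁻¹ := by field_simp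
        rw [a2]
        exact mul_le_of_le_one_left (by positivity) ((div_le_one (by positivity)).2 a1)
      rw [hB, hF]
      refine le_trans ?_ g3
      have g4 := mul_le_mul (f2.trans f3.le) (add_le_add g1 g2) g0 (by positivity)
      push_cast
      generalize (1 + (5 / N + 12 * x ^ 9)) ^ 3 = A at *
      generalize (x ^ 1003)⁻¹ = b at *
      generalize (x ^ 35)⁻¹ = w at *
      generalize x ^ 27 = v at *
      norm_num
      linarith
  · have k1 : kapR (x ^ 3) (x ^ 6)⁻¹ ≤ (x ^ 2)⁻¹ := by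
      unfold kapR
      have x3 : 100000 ≤ x ^ 3 := hx.trans (le_self_pow₀ x1 (by norm_num))
      have : 4 * (1 + 2 * x ^ 3 * (x ^ 6)⁻¹) / x ^ 3 + 4 * x ^ 3 * (x ^ 6)⁻¹
          = (8 * x ^ 3 + 8) / x ^ 4 * (x ^ 2)⁻¹ := by field_simp; ring
      rw [this]
      refine mul_le_of_le_one_left (by positivity) ((div_le_one (by positivity)).2 ?_)
      have : x ^ 4 = x * x ^ 3 := by ring
      nlinarith
    have k0 : 0 ≤ kapR (x ^ 3) (x ^ 6)⁻¹ := by unfold kapR; positivity
    have k2 : kapR (x ^ 3) (x ^ 6)⁻¹ ^ 10000 ≤ (x ^ (2 * 10000))⁻¹ := by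
      rw [pow_mul, ← inv_pow (x ^ 2)]; exact pow_le_pow_left₀ k0 k1 _
    have k3 : (x ^ (2 * 10000))⁻¹ * (N * L) ≤ 1 / N / 2 := by
      have a1 := numa1_le (c := 4000) (a := 3000 + 1971 + 3000) (b := 2 * 10000) hx (by omega)
        (by norm_num)
      rw [pow_add, pow_add, ← hN] at a1
      rw [div_div, mul_comm, ← div_eq_mul_inv, div_le_div_iff₀ (by positivity) (by positivity)]
      have a3 : N * L * N ≤ N * (2000 * x ^ 1971) * N := by gcongr
      generalize x ^ (2 * 10000) = z at *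
      generalize x ^ 1971 = v at *
      linarith
    have k4 : (10000 : ℕ) * (N * Real.exp (2 * N * (x ^ 1003)⁻¹ - 3 * x ^ 1997)) ≤ 1 / N / 2 := by
      have a0 : N = x ^ 1997 * x ^ 1003 := by rw [hN, ← pow_add]
      have a1 : 2 * N * (x ^ 1003)⁻¹ - 3 * x ^ 1997 = -x ^ 1997 := by
        have : x ^ 1003 ≠ 0 := by positivity
        rw [a0]
        generalize x ^ 1997 = z
        generalize x ^ 1003 = w at *
        field_simp
        ring
      have a2 := Real.pow_div_factorial_le_exp (x ^ 1997) (by positivity) 4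
      have a3 := numa1_le (c := 480000) (a := 3000 + 3000) (b := 1997 * 4) hx (by omega)
        (by norm_num)
      rw [pow_add, ← hN, pow_mul] at a3
      rw [a1, Real.exp_neg, div_div, ← div_eq_mul_inv, ← mul_div_assoc,
        div_le_div_iff₀ (Real.exp_pos _) (by positivity)]
      have a4 : ((Nat.factorial 4 : ℕ) : ℝ) = 24 := by norm_num [Nat.factorial]
      rw [a4] at a2
      push_cast
      generalize (x ^ 1997) ^ 4 = z at *
      generalize Real.exp (x ^ 1997) = w at *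
      linarith
    have k5 := mul_le_mul_of_nonneg_right k2 (mul_nonneg N0.le L0)
    linarith

theorem p_NUMA1 :
    S_NUMA1 := by
  refine ⟨100000 ^ 3000, fun n hn Lam hL => ?_⟩
  have n0 : (0 : ℝ) ≤ n := by positivity
  set x : ℝ := (n : ℝ) ^ (1 / 3000 : ℝ) with hx
  have hp : ∀ k : ℕ, x ^ k = (n : ℝ) ^ ((k : ℝ) / 3000) := fun k => by
    rw [hx, ← Real.rpow_natCast, ← Real.rpow_mul n0]; congr 1; ring
  have hN : (n : ℝ) = x ^ 3000 := by rw [hp]; norm_num
  have x0 : 0 ≤ x := by positivity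
  have h1 : (100000 : ℝ) ≤ x := by
    refine le_of_pow_le_pow_left₀ (n := 3000) (by norm_num) x0 ?_
    rw [← hN]; exact_mod_cast hn
  have e1 : (n : ℝ) ^ (657 / 1000 : ℝ) = x ^ 1971 := by rw [hp]; norm_num
  have e2 : (n : ℝ) ^ (-(1003 / 3000) : ℝ) = (x ^ 1003)⁻¹ := by
    rw [hp, Real.rpow_neg n0]; norm_num
  have e3 : (n : ℝ) ^ (1 / 1000 : ℝ) = x ^ 3 := by rw [hp]; norm_num
  have e4 : (n : ℝ) ^ (1997 / 3000 : ℝ) = x ^ 1997 := by rw [hp]; norm_num
  rw [e1] at hL
  rw [e1, e2, e3, e4]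
  exact ⟨_, numa1_core h1 hN (by positivity) hL⟩

end Pool.Agent.P.MP_224820_co.St
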