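import Pool.Agent.P.MP_224820_co.St.IfaceN

/-! Step NUML. -/

set_option autoImplicit false

namespace Pool.Agent.P.MP_224820_co.St

open Finset

theorem numl_key (L : ℝ) (hL : 10 ^ 37 ≤ L) : 2 * 10 ^ 16 * L ^ 7 ≤ Real.exp (L / 100) := by
  have h0 : (0 : ℝ) ≤ L := le_trans (by positivity) hL
  have h1 := Real.pow_div_factorial_le_exp (L / 100) (by positivity) 8
  have h2 : ((Nat.factorial 8 : ℕ) : ℝ) = 40320 := by norm_num [Nat.factorial]
  rw [h2] at h1
  have h3 : (L / 100) ^ 8 / 40320 = L ^ 7 * (L / (40320 * 10 ^ 16)) := by ring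
  rw [h3] at h1
  have h4 : (2 * 10 ^ 16 : ℝ) ≤ L / (40320 * 10 ^ 16) := by
    rw [le_div_iff₀ (by positivity)]
    exact le_trans (by norm_num) hL
  have h5 : L ^ 7 * (2 * 10 ^ 16) ≤ L ^ 7 * (L / (40320 * 10 ^ 16)) :=
    mul_le_mul_of_nonneg_left h4 (by positivity)
  linarith

theorem numl_pow (L C y : ℝ) (k : ℕ) (hL : 10 ^ 37 ≤ L) (hk : k ≤ 7) (hC : C ≤ 2 * 10 ^ 16)
    (hy : L / 100 ≤ y) : C * L ^ k ≤ Real.exp y := by
  have h1 : (1 : ℝ) ≤ L := le_trans (by norm_num) hL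
  have h2 : L ^ k ≤ L ^ 7 := pow_le_pow_right₀ h1 hk
  have h3 : (0 : ℝ) ≤ L ^ k := by positivity
  calc C * L ^ k ≤ 2 * 10 ^ 16 * L ^ k := mul_le_mul_of_nonneg_right hC h3
    _ ≤ 2 * 10 ^ 16 * L ^ 7 := mul_le_mul_of_nonneg_left h2 (by positivity)
    _ ≤ Real.exp (L / 100) := numl_key L hL
    _ ≤ Real.exp y := Real.exp_le_exp.2 hy

theorem numl_main (L x : ℝ) (hL : 10 ^ 37 ≤ L) (hx : 3 * 10 ^ 8 ≤ x) (hx' : x ≤ 49 / 200 * L) :
    LN (Real.exp L) (Real.exp (-x)) (Real.exp (-(7 / 5 * x)) / 200) (Real.exp (-(81 / 200 * x)))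
      (10 * L) ∧
    20000 * (10 * L) ^ 3 / Real.exp (-(81 / 200 * x)) * (Real.exp L) ^ 2
      * Real.exp (-(10 * L)) ≤ 1 / (Real.exp L) ^ 2 := by
  have h1 : (1 : ℝ) ≤ L := le_trans (by norm_num) hL
  have hx0 : (0 : ℝ) ≤ x := le_trans (by norm_num) hx
  refine ⟨⟨Real.exp_pos _, ?_, by positivity, by linarith, Real.exp_pos _, ?_, ?_, ?_, ?_, ?_, ?_⟩, ?_⟩
  · exact Real.exp_le_one_iff.2 (by linarith)
  · rw [Real.exp_neg, inv_eq_one_div]
    apply one_div_le_one_div_of_le (by norm_num)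
    have := Real.add_one_le_exp (81 / 200 * x)
    linarith
  · exact Real.exp_le_exp.2 (by linarith)
  · have e : Real.exp L * Real.exp (-x) ^ 2 * Real.exp (-(81 / 200 * x)) ^ 5
        = Real.exp (L - 161 / 40 * x) := by
      rw [← Real.exp_nat_mul, ← Real.exp_nat_mul, ← Real.exp_add, ← Real.exp_add]
      congr 1; push_cast; ring
    rw [e]
    have := numl_pow L (2 * 10 ^ 16) (L - 161 / 40 * x) 7 hL le_rfl le_rfl (by linarith)
    calc 2 * 10 ^ 9 * (10 * L) ^ 7 = 2 * 10 ^ 16 * L ^ 7 := by ring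
      _ ≤ _ := this
  · have e : 4 * Real.exp L * Real.exp (-x) * (Real.exp (-(7 / 5 * x)) / 200)
        * Real.exp (-(81 / 200 * x)) ^ 3 = Real.exp (L - 723 / 200 * x) / 50 := by
      have : Real.exp (L - 723 / 200 * x) = Real.exp L * Real.exp (-x) * Real.exp (-(7 / 5 * x))
          * Real.exp (-(81 / 200 * x)) ^ 3 := by
        rw [← Real.exp_nat_mul, ← Real.exp_add, ← Real.exp_add, ← Real.exp_add]
        congr 1; push_cast; ring
      rw [this]; ring
    rw [e]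
    have := numl_pow L (5 * 10 ^ 11) (L - 723 / 200 * x) 5 hL (by norm_num) (by norm_num)
      (by linarith)
    have e2 : 10 ^ 5 * (10 * L) ^ 5 = 5 * 10 ^ 11 * L ^ 5 / 50 := by ring
    rw [e2]
    linarith
  · have e : Real.exp (-(7 / 5 * x))
        = Real.exp (x / 200) * (Real.exp (-(81 / 200 * x)) * Real.exp (-x)) := by
      rw [← Real.exp_add, ← Real.exp_add]
      congr 1; ring
    have h2 : (1024000 : ℝ) ≤ Real.exp (x / 200) := by
      have := Real.add_one_le_exp (x / 200)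
      linarith
    have h3 : 0 ≤ Real.exp (-(81 / 200 * x)) * Real.exp (-x) := by positivity
    have h4 := mul_le_mul_of_nonneg_right h2 h3
    rw [e]
    linarith
  · have e : Real.exp L * (Real.exp (-(7 / 5 * x)) / 200) ^ 2
        = Real.exp (L - 14 / 5 * x) / 40000 := by
      have : Real.exp (L - 14 / 5 * x) = Real.exp L * Real.exp (-(7 / 5 * x)) ^ 2 := by
        rw [← Real.exp_nat_mul, ← Real.exp_add]
        congr 1; push_cast; ring
      rw [this]; ring
    rw [e]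
    have := numl_pow L (512 * 10 ^ 5) (L - 14 / 5 * x) 1 hL (by norm_num) (by norm_num)
      (by linarith)
    rw [pow_one] at this
    linarith
  · have h2 := numl_pow L (2 * 10 ^ 7) (6 * L - 81 / 200 * x) 3 hL (by norm_num) (by norm_num)
      (by linarith)
    have e : Real.exp (6 * L - 81 / 200 * x) * (Real.exp L ^ 2 * Real.exp (-(10 * L))
        * Real.exp L ^ 2) = Real.exp (-(81 / 200 * x)) := by
      rw [← Real.exp_nat_mul, ← Real.exp_add, ← Real.exp_add, ← Real.exp_add]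
      congr 1; push_cast; ring
    have hp : 0 < Real.exp (-(81 / 200 * x)) := Real.exp_pos _
    have h3 : 0 ≤ Real.exp L ^ 2 * Real.exp (-(10 * L)) * Real.exp L ^ 2 := by positivity
    have h4 := mul_le_mul_of_nonneg_right h2 h3
    rw [e] at h4
    rw [le_div_iff₀ (by positivity)]
    have e2 : 20000 * (10 * L) ^ 3 / Real.exp (-(81 / 200 * x)) * Real.exp L ^ 2
        * Real.exp (-(10 * L)) * Real.exp L ^ 2
        = 2 * 10 ^ 7 * L ^ 3 * (Real.exp L ^ 2 * Real.exp (-(10 * L)) * Real.exp L ^ 2)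
          / Real.exp (-(81 / 200 * x)) := by ring
    rw [e2, div_le_one hp]
    exact h4

theorem p_NUML :
    S_NUML := by
  refine ⟨⌈Real.exp (Real.exp (15 * 10 ^ 8) + 10 ^ 37)⌉₊, fun n hn x hx hx' => ?_⟩
  have h1 : Real.exp (Real.exp (15 * 10 ^ 8) + 10 ^ 37) ≤ n := Nat.ceil_le.1 hn
  have hn0 : (0 : ℝ) < n := lt_of_lt_of_le (Real.exp_pos _) h1
  have h2 : Real.exp (15 * 10 ^ 8) + 10 ^ 37 ≤ Real.log n := (Real.le_log_iff_exp_le hn0).2 h1
  have hp : 0 < Real.exp (15 * 10 ^ 8) := Real.exp_pos _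
  have h3 : (10 : ℝ) ^ 37 ≤ Real.log n := by linarith
  have h4 : Real.exp (15 * 10 ^ 8) ≤ Real.log n := le_trans (le_add_of_nonneg_right (by positivity)) h2
  have h5 : (15 * 10 ^ 8 : ℝ) ≤ Real.log (Real.log n) :=
    (Real.le_log_iff_exp_le (lt_of_lt_of_le hp h4)).2 h4
  have h := numl_main (Real.log n) x h3 (by linarith) hx'
  rw [Real.exp_log hn0] at h
  exact h

end Pool.Agent.P.MP_224820_co.St
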