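import Pool.Agent.P.MP_224820_co.St.IfaceM

/-! Step NUMT. -/

set_option autoImplicit false

namespace Pool.Agent.P.MP_224820_co.St

open Finset Filter Topology

theorem numt_xs_mono {x0 : ℝ} (h : 0 ≤ x0) {i j : ℕ} (hij : i ≤ j) : xs x0 i ≤ xs x0 j := by
  unfold xs
  exact mul_le_mul_of_nonneg_left (pow_le_pow_right₀ (by norm_num) hij) h

theorem numt_xs_zero (x0 : ℝ) : xs x0 0 = x0 := by simp [xs]

theorem numt_xs_succ (x0 : ℝ) (i : ℕ) : xs x0 (i + 1) = 7 / 5 * xs x0 i := by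
  unfold xs; ring

theorem numt_piA (n J : ℕ) (x0 η : ℝ) (i : ℕ) (hi : i ≤ J) :
    piK n J x0 η (kA J i) = Real.exp (-xs x0 i) / 200 := by
  by_cases h : i < J
  · have e : ((kA J i : Fin (2 * J + 2)) : ℕ) = 2 + 2 * i := by simp [kA, h]
    unfold piK
    rw [e, if_neg (by omega), if_neg (by omega), if_pos (by omega)]
    have : (2 + 2 * i - 2) / 2 = i := by omega
    rw [this]
  · have e : ((kA J i : Fin (2 * J + 2)) : ℕ) = 0 := by simp [kA, h]
    have hiJ : i = J := by omega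
    unfold piK
    rw [e, if_pos rfl, hiJ]

theorem numt_piB (n J : ℕ) (x0 η : ℝ) (i : ℕ) (h : i < J) :
    piK n J x0 η (kB J i) = Real.exp (-xs x0 i) := by
  have e : ((kB J i : Fin (2 * J + 2)) : ℕ) = 3 + 2 * i := by simp [kB, h]
  unfold piK
  rw [e, if_neg (by omega), if_neg (by omega), if_neg (by omega)]
  have : (3 + 2 * i - 3) / 2 = i := by omega
  rw [this]

theorem numt_piC (n J : ℕ) (x0 η : ℝ) : piK n J x0 η (kB J J) = rho n η / 8 := by
  have e : ((kB J J : Fin (2 * J + 2)) : ℕ) = 1 := by simp [kB]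
  unfold piK
  rw [e, if_neg (by omega), if_pos rfl]

theorem numt_bounds (n J : ℕ) (x0 η lo hi : ℝ)
    (hx : ∀ i ≤ J, lo ≤ Real.exp (-xs x0 i) / 200 ∧ Real.exp (-xs x0 i) ≤ hi)
    (hr : lo ≤ rho n η / 8 ∧ rho n η / 8 ≤ hi) (k : Fin (2 * J + 2)) :
    lo ≤ piK n J x0 η k ∧ piK n J x0 η k ≤ hi := by
  have hk := k.isLt
  have aux : ∀ i ≤ J, lo ≤ Real.exp (-xs x0 i) ∧ Real.exp (-xs x0 i) / 200 ≤ hi := by
    intro i hi'
    have h1 := hx i hi'
    have h2 := Real.exp_pos (-xs x0 i)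
    constructor <;> linarith [h1.1, h1.2]
  unfold piK
  split_ifs with h0 h1 h2
  · exact ⟨(hx J le_rfl).1, (aux J le_rfl).2⟩
  · exact hr
  · exact ⟨(hx _ (by omega)).1, (aux _ (by omega)).2⟩
  · exact ⟨(aux _ (by omega)).1, (hx _ (by omega)).2⟩

theorem numt_small {l M : ℝ} (hM : 1 ≤ M) (hl : 100 * M ≤ l) :
    (1 + l) * Real.exp (-(l / 10)) ≤ 101 / M := by
  have hl0 : 0 ≤ l := by linarith
  obtain ⟨u, hu⟩ : ∃ u, u = Real.exp (-(l / 100)) := ⟨_, rfl⟩
  have hu0 : 0 < u := by rw [hu]; exact Real.exp_pos _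
  have hy : l / 100 + 1 ≤ Real.exp (l / 100) := Real.add_one_le_exp _
  have huy : u * Real.exp (l / 100) = 1 := by
    rw [hu, ← Real.exp_add]; simp
  have h1 : u * (l / 100 + 1) ≤ 1 := by
    exact (mul_le_mul_of_nonneg_left hy hu0.le).trans huy.le
  have h2 : (1 + l) * u ≤ 101 := by nlinarith
  have h3 : u ≤ 1 / M := by
    rw [le_div_iff₀ (by linarith)]
    nlinarith
  have h4 : Real.exp (-(l / 10)) ≤ u * u := by
    rw [hu, ← Real.exp_add]
    exact Real.exp_le_exp.mpr (by linarith)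
  calc (1 + l) * Real.exp (-(l / 10)) ≤ (1 + l) * (u * u) :=
        mul_le_mul_of_nonneg_left h4 (by linarith)
    _ = ((1 + l) * u) * u := by ring
    _ ≤ 101 * (1 / M) := mul_le_mul h2 h3 hu0.le (by norm_num)
    _ = 101 / M := by ring

theorem numt_main (ε : ℝ) (hε : 0 < ε) (hε1 : ε ≤ 1) (n : ℕ) (hn : 0 < n)
    (hL1 : 1 ≤ Real.log n) (hl : 100 * (10 ^ 9 / ε) ≤ Real.log (Real.log n))
    (J : ℕ) (x0 : ℝ) (hP : ParOK n J x0) : TN n J x0 ε := by
  obtain ⟨hJ1, hJ2, hlo, hhi, htop⟩ := hP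
  obtain ⟨L, hL⟩ : ∃ L, L = Real.log n := ⟨_, rfl⟩
  obtain ⟨l, hll⟩ : ∃ l, l = Real.log L := ⟨_, rfl⟩
  rw [← hL] at hL1 hl hJ2 hlo hhi htop
  rw [← hll] at hl hJ2 hlo hhi
  have hn' : (0 : ℝ) < n := by exact_mod_cast hn
  have hL0 : 0 < L := by linarith
  have hnL : (n : ℝ) = Real.exp L := by rw [hL, Real.exp_log hn']
  have hLl : L = Real.exp l := by rw [hll, Real.exp_log hL0]
  obtain ⟨M, hM⟩ : ∃ M : ℝ, M = 10 ^ 9 / ε := ⟨_, rfl⟩
  rw [← hM] at hl
  have hMε : M * ε = 10 ^ 9 := by rw [hM]; field_simp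
  have hM9 : 10 ^ 9 ≤ M := by
    rw [hM, le_div_iff₀ hε]; nlinarith
  have hM1 : 1 ≤ M := by linarith
  have hl0 : 0 ≤ l := by linarith
  have hsm := numt_small hM1 hl
  have hsm' : 101 / M ≤ ε / 10 ^ 6 := by
    rw [div_le_iff₀ (by linarith)]; nlinarith
  obtain ⟨w, hw⟩ : ∃ w, w = Real.exp (-(l / 10)) := ⟨_, rfl⟩
  rw [← hw] at hsm
  have hw0 : 0 < w := by rw [hw]; exact Real.exp_pos _
  have hw1 : w ≤ 1 := by rw [hw]; exact Real.exp_le_one_iff.mpr (by linarith)
  have hww : Real.exp (-(l / 5)) = w * w := by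
    rw [hw, ← Real.exp_add]; congr 1; ring
  have hsw : (1 + l) * w ≤ ε / 10 ^ 6 := hsm.trans hsm'
  have hwε : w ≤ 1 / 10 ^ 6 := by nlinarith
  have hlL : 2 * l ≤ L := by
    have h1 : l / 2 + 1 ≤ Real.exp (l / 2) := Real.add_one_le_exp _
    have h2 : Real.exp l = Real.exp (l / 2) * Real.exp (l / 2) := by
      rw [← Real.exp_add]; congr 1; ring
    rw [hLl, h2]
    nlinarith
  have hLn : L + 1 ≤ n := by rw [hnL]; exact Real.add_one_le_exp _
  have hx0 : 0 ≤ x0 := by linarith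
  have hxJ : xs x0 J = 343 / 1000 * L := by
    have : J = (J - 1) + 1 := by omega
    rw [this, numt_xs_succ, htop]; ring
  have hxlo : ∀ i, l / 5 ≤ xs x0 i := by
    intro i
    have := numt_xs_mono hx0 (Nat.zero_le i)
    rw [numt_xs_zero] at this; linarith
  have hxhi : ∀ i < J, xs x0 i ≤ 49 / 200 * L := by
    intro i hi
    rw [← htop]; exact numt_xs_mono hx0 (by omega)
  have hxhi' : ∀ i ≤ J, xs x0 i ≤ 343 / 1000 * L := by
    intro i hi
    rw [← hxJ]; exact numt_xs_mono hx0 hi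
  have hexp : ∀ i, Real.exp (-xs x0 i) ≤ w * w := by
    intro i
    rw [← hww]; exact Real.exp_le_exp.mpr (by linarith [hxlo i])
  -- the absorbing density
  have hη : 0 < ε / 260 := by positivity
  have hb : 0 < ε / 260 * Real.log n / n := by rw [← hL]; positivity
  have hrho : rho n (ε / 260) = Real.exp ((Real.log (ε / 260) + l - L) / 3) := by
    unfold rho
    rw [Real.rpow_def_of_pos hb, ← hL, Real.log_div (by positivity) hn'.ne',
      Real.log_mul hη.ne' hL0.ne', ← hll, ← hL]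
    congr 1; ring
  have hlη1 : Real.log (ε / 260) ≤ 0 := Real.log_nonpos hη.le (by linarith)
  have hlη2 : -(260 / ε) ≤ Real.log (ε / 260) := by
    have h1 : Real.log (260 / ε) ≤ 260 / ε - 1 := Real.log_le_sub_one_of_pos (by positivity)
    have h2 : Real.log (ε / 260) = -Real.log (260 / ε) := by
      rw [← Real.log_inv]; congr 1; field_simp
    linarith
  have h260 : 260 / ε ≤ M := by
    rw [hM]; exact div_le_div_of_nonneg_right (by norm_num) hε.le
  have hrho0 : 0 < rho n (ε / 260) := by rw [hrho]; exact Real.exp_pos _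
  have hrhoU : rho n (ε / 260) ≤ w * w := by
    rw [hrho, ← hww]; exact Real.exp_le_exp.mpr (by linarith)
  have hrhoL : Real.exp (-(343 / 1000 * L)) ≤ rho n (ε / 260) := by
    rw [hrho]; exact Real.exp_le_exp.mpr (by linarith)
  have hrho3 : rho n (ε / 260) ^ 3 = ε / 260 * Real.log n / n := by
    unfold rho
    rw [← Real.rpow_natCast, ← Real.rpow_mul hb.le]; norm_num
  obtain ⟨v, hv⟩ : ∃ v, v = Real.exp (-(343 / 1000 * L)) := ⟨_, rfl⟩
  rw [← hv] at hrhoL
  have hv0 : 0 < v := by rw [hv]; exact Real.exp_pos _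
  have hw2 : w * w ≤ w := by nlinarith
  have hbd : ∀ k, v / 200 ≤ piK n J x0 (ε / 260) k ∧ piK n J x0 (ε / 260) k ≤ w * w := by
    refine numt_bounds n J x0 (ε / 260) (v / 200) (w * w) (fun i hi => ⟨?_, hexp i⟩) ⟨?_, ?_⟩
    · have : v ≤ Real.exp (-xs x0 i) := by
        rw [hv]; exact Real.exp_le_exp.mpr (by linarith [hxhi' i hi])
      linarith
    · linarith
    · linarith
  have hsum : ∑ k, piK n J x0 (ε / 260) k ≤ 8 * ((1 + l) * w) * w := by
    calc ∑ k, piK n J x0 (ε / 260) k ≤ ∑ _k : Fin (2 * J + 2), w * w :=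
          Finset.sum_le_sum fun k _ => (hbd k).2
      _ = (2 * J + 2) * (w * w) := by simp
      _ ≤ (8 * (1 + l)) * (w * w) :=
          mul_le_mul_of_nonneg_right (by linarith) (by positivity)
      _ = 8 * ((1 + l) * w) * w := by ring
  have hsum' : ∑ k, piK n J x0 (ε / 260) k ≤ w / 1000 := by
    have : 8 * ((1 + l) * w) * w ≤ 8 * (ε / 10 ^ 6) * w :=
      mul_le_mul_of_nonneg_right (by linarith) hw0.le
    nlinarith
  have hpw : ∀ t : ℝ, (n : ℝ) ^ t = Real.exp (L * t) := by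
    intro t; rw [Real.rpow_def_of_pos hn', ← hL]
  have hpL : ∀ t : ℝ, Real.log n ^ t = Real.exp (l * t) := by
    intro t; rw [← hL, Real.rpow_def_of_pos hL0, ← hll]
  refine ⟨fun k => ⟨by linarith [(hbd k).1], by linarith [(hbd k).2]⟩,
    fun k => by linarith [(hbd k).1], by linarith, ?_, ?_, ?_, fun i hi => numt_piA n J x0 _ i hi,
    fun i hi => numt_piB n J x0 _ i hi, numt_piC n J x0 _, ?_, ?_, hrho0, by linarith, ?_, ?_, ?_,
    fun i hi => ?_, by rw [← hL]; exact hL1⟩
  · -- sum2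
    have e : Real.log n ^ (-(1 / 10) : ℝ) = w := by
      rw [hpL, hw]; congr 1; ring
    rw [e]
    have h1 : 2 ≤ w * n := by
      have h2 : w * n = Real.exp (L - l / 10) := by
        rw [hw, hnL, ← Real.exp_add]; congr 1; ring
      have h3 := Real.add_one_le_exp (L - l / 10)
      rw [h2]; linarith
    have h4 : 2 * n * ∑ k, piK n J x0 (ε / 260) k ≤ 2 * n * (w / 1000) :=
      mul_le_mul_of_nonneg_left hsum' (by positivity)
    nlinarith
  · -- two
    intro k k'
    have h1 : v / 200 * (v / 200) ≤ piK n J x0 (ε / 260) k * piK n J x0 (ε / 260) k' :=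
      mul_le_mul (hbd k).1 (hbd k').1 (by positivity) (by linarith [(hbd k).1])
    have h2 : (n : ℝ) * (v * v) = Real.exp (L * (1 / 100)) * Real.exp (304 / 1000 * L) := by
      rw [hnL, hv, ← Real.exp_add, ← Real.exp_add, ← Real.exp_add]; congr 1; ring
    have h3 := Real.add_one_le_exp (304 / 1000 * L)
    have h4 : 40000 ≤ Real.exp (304 / 1000 * L) := by linarith
    have h5 := Real.exp_pos (L * (1 / 100))
    rw [hpw]
    calc Real.exp (L * (1 / 100)) ≤ Real.exp (L * (1 / 100)) * Real.exp (304 / 1000 * L) / 40000 := by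
          rw [le_div_iff₀ (by norm_num)]
          exact mul_le_mul_of_nonneg_left h4 h5.le
      _ = n * (v / 200 * (v / 200)) := by rw [← h2]; ring
      _ ≤ _ := mul_le_mul_of_nonneg_left h1 hn'.le
  · -- four
    intro i hi
    rw [numt_piB n J x0 _ i hi, hpw, ← Real.exp_nat_mul]
    conv_rhs => rw [hnL]
    rw [← Real.exp_add]
    refine Real.exp_le_exp.mpr ?_
    have := hxhi i hi
    push_cast
    linarith
  · -- a0
    rw [hpL, le_div_iff₀ (by norm_num)]
    have h1 := Real.add_one_le_exp (l / 50)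
    have h2 : 200 ≤ Real.exp (l / 50) := by linarith
    have h3 := Real.exp_pos (l * -(3 / 10))
    calc Real.exp (l * -(3 / 10)) * 200 ≤ Real.exp (l * -(3 / 10)) * Real.exp (l / 50) :=
          mul_le_mul_of_nonneg_left h2 h3.le
      _ ≤ Real.exp (-x0) := by
          rw [← Real.exp_add]; exact Real.exp_le_exp.mpr (by linarith)
  · -- degX
    have h1 : (n : ℝ) * Real.exp (-xs x0 J) = Real.exp (L * (657 / 1000)) := by
      rw [hxJ, hnL, ← Real.exp_add]; congr 1; ring
    have h2 := Real.exp_pos (L * (657 / 1000))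
    rw [hpw]
    nlinarith
  · -- xrho
    rw [hxJ, ← hv]; linarith
  · -- budget
    rw [Fintype.sum_option, hrho3, ← hL]
    have h1 : ∀ i : Fin J, lamL n J x0 (ε / 260) (some i) ≤ 165888 * (L * (w * w)) / n := by
      intro i
      show (2048 + 163840 * Real.log n * Real.exp (-xs x0 i)) / n ≤ _
      rw [← hL]
      refine div_le_div_of_nonneg_right ?_ hn'.le
      have h2 : 1 ≤ L * (w * w) := by
        rw [← hww]
        conv_rhs => rw [hLl]
        rw [← Real.exp_add]
        exact Real.one_le_exp (by linarith)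
      have h3 : L * Real.exp (-xs x0 i) ≤ L * (w * w) :=
        mul_le_mul_of_nonneg_left (hexp i) hL0.le
      linarith
    have h2 : ∑ i : Fin J, lamL n J x0 (ε / 260) (some i) ≤ ε / 4 * L / n := by
      calc ∑ i : Fin J, lamL n J x0 (ε / 260) (some i)
          ≤ ∑ _i : Fin J, 165888 * (L * (w * w)) / n := Finset.sum_le_sum fun i _ => h1 i
        _ = (J * (165888 * (L * (w * w)))) / n := by simp; ring
        _ ≤ ε / 4 * L / n := by
            refine div_le_div_of_nonneg_right ?_ hn'.le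
            have h3 : (J : ℝ) * w ≤ 3 * (ε / 10 ^ 6) := by
              have : (J : ℝ) * w ≤ 3 * (1 + l) * w :=
                mul_le_mul_of_nonneg_right (by linarith) hw0.le
              linarith
            have h4 : (J : ℝ) * w * w ≤ 3 * (ε / 10 ^ 6) * (1 / 10 ^ 6) :=
              mul_le_mul h3 hwε hw0.le (by positivity)
            have h5 : 165888 * ((J : ℝ) * w * w) ≤ ε / 4 := by linarith
            calc (J : ℝ) * (165888 * (L * (w * w))) = 165888 * ((J : ℝ) * w * w) * L := by ring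
              _ ≤ ε / 4 * L := mul_le_mul_of_nonneg_right h5 hL0.le
    have h3 : lamL n J x0 (ε / 260) none = 64 * (ε / 260) * L / n := by
      rw [hL]; rfl
    rw [h3]
    have h4 : (2 + ε / 2) * L / n + (64 * (ε / 260) * L / n + ε / 4 * L / n) + ε / 260 * L / n
        = (2 + ε) * L / n := by ring
    linarith
  · -- cls
    have : (2 * J + 2 : ℝ) ≤ n := by
      have h1 : l / 2 + 1 ≤ Real.exp (l / 2) := Real.add_one_le_exp _
      have h2 : Real.exp l = Real.exp (l / 2) * Real.exp (l / 2) := by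
        rw [← Real.exp_add]; congr 1; ring
      have h3 : (l / 2 + 1) * (l / 2 + 1) ≤ L := by
        rw [hLl, h2]; exact mul_le_mul h1 h1 (by linarith) (Real.exp_pos _).le
      nlinarith
    exact_mod_cast this
  · rw [← hL, ← hll]; exact ⟨hxlo i, hxhi i hi⟩

theorem p_NUMT :
    S_NUMT := by
  intro ε hε hε1
  have t1 : Tendsto (fun n : ℕ => Real.log n) atTop atTop :=
    Real.tendsto_log_atTop.comp tendsto_natCast_atTop_atTop
  have t2 : Tendsto (fun n : ℕ => Real.log (Real.log n)) atTop atTop :=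
    Real.tendsto_log_atTop.comp t1
  have h := ((t1.eventually_ge_atTop 1).and (t2.eventually_ge_atTop (100 * (10 ^ 9 / ε)))).and
    (eventually_gt_atTop 0)
  obtain ⟨n0, hn0⟩ := eventually_atTop.mp h
  exact ⟨n0, fun n hn J x0 hP =>
    numt_main ε hε hε1 n (hn0 n hn).2 (hn0 n hn).1.1 (hn0 n hn).1.2 J x0 hP⟩

end Pool.Agent.P.MP_224820_co.St
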