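import Pool.Agent.P.MP_224820_co.St.IfaceM
import Pool.Agent.P.MP_224820_co.St.IfaceP

/-! Step ONE. -/

set_option autoImplicit false

namespace Pool.Agent.P.MP_224820_co.St

open Finset Filter Topology

theorem one_card {V : Type} [Fintype V] [DecidableEq V] (t : Finset V) : (ed3 t).card ≤ 3 := by
  unfold ed3
  split_ifs with h
  · exact (card_ed h).le
  · simp

theorem one_ev {V : Type} [Fintype V] [DecidableEq V] (G : Finset (Sym2 V)) (e : Sym2 V)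
    (T : Finset (Finset V)) (h : Dec T G) :
    Dec (T.filter fun y => e ∉ ed3 y) G ∨
      ∃ y ∈ T, e ∈ ed3 y ∧ Dec (insert y (T.filter fun y => e ∉ ed3 y)) G := by
  obtain ⟨K, hK, h3, hu⟩ := h
  by_cases hy : ∃ y ∈ K, e ∈ ed3 y
  · obtain ⟨y, hyK, hy⟩ := hy
    refine Or.inr ⟨y, hK hyK, hy, K, fun t ht => ?_, h3, hu⟩
    by_cases het : e ∈ ed3 t
    · have e1 : e ∈ ed t := by simpa [ed3, (h3 t ht).1] using het
      have e2 : e ∈ ed y := by simpa [ed3, (h3 y hyK).1] using hy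
      have := (hu e ((h3 t ht).2 e1)).unique ⟨ht, e1⟩ ⟨hyK, e2⟩
      rw [this]
      exact mem_insert_self _ _
    · exact mem_insert_of_mem (mem_filter.2 ⟨hK ht, het⟩)
  · exact Or.inl ⟨K, fun t ht => mem_filter.2 ⟨hK ht, fun h => hy ⟨t, ht, h⟩⟩, h3, hu⟩

theorem one_exp {a r p : ℝ} (hr0 : 0 ≤ r) (hr1 : r ≤ 1) (ha : 0 ≤ a) (h : a + r ≤ p) :
    1 - p ≤ Real.exp (-a) * (1 - r) := by
  have h1 : 1 - a ≤ Real.exp (-a) := by linarith [Real.add_one_le_exp (-a)]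
  have h2 : (1 - a) * (1 - r) ≤ Real.exp (-a) * (1 - r) :=
    mul_le_mul_of_nonneg_right h1 (by linarith)
  nlinarith [mul_nonneg ha hr0]

theorem one_main (hTRANS : S_TRANS) (hTOPG : S_TOPG) (hABSX : S_ABSX) (hGOODP : S_GOODP)
    (hPAR : S_PAR) (hNUMT : S_NUMT) (hSIG : S_SIG) (ε δ : ℝ) (hε : 0 < ε) (hε1 : ε ≤ 1)
    (hδ : 0 < δ) : ∃ n0 : ℕ, ∀ n : ℕ, n0 ≤ n → (n % 6 = 1 ∨ n % 6 = 3) →
    ∀ p : ℝ, (2 + ε) * Real.log n / n ≤ p → p ≤ 1 →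
    Pr (fun _ : Finset (Fin n) => p) (fun T => ¬ Dec T (KN (Fin n))) ≤ δ := by
  have hδ3 : 0 < δ / 3 := by linarith
  obtain ⟨n1, h1⟩ := hTOPG ε (δ / 3) hε hε1 hδ3
  obtain ⟨n2, h2⟩ := hABSX ε (δ / 3) hε hε1 hδ3
  obtain ⟨n3, h3⟩ := hGOODP (δ / 3) hδ3
  obtain ⟨n4, h4⟩ := hPAR
  obtain ⟨n5, h5⟩ := hNUMT ε hε hε1
  refine ⟨n1 + n2 + n3 + n4 + n5, fun n hn h6 p hp hp1 => ?_⟩
  obtain ⟨J, x0, hP⟩ := h4 n (by omega)
  have hT := h5 n (by omega) J x0 hP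
  obtain ⟨s0, s1, s2, s3⟩ := hSIG n J x0 ε hε hT
  have hlog : 0 ≤ Real.log n := by linarith [hT.log1]
  have hn0 : (0 : ℝ) ≤ n := Nat.cast_nonneg n
  have hl0 : 0 ≤ (2 + ε / 2) * Real.log n / n := by positivity
  have hp0 : 0 ≤ p := le_trans (by positivity) hp
  have hsum : 0 ≤ ∑ l, lamL n J x0 (ε / 260) l := sum_nonneg fun l _ => s3 l
  have hIs : IsP (fun x : Fin (2 * J + 2) × Sym2 (Fin n) => piK n J x0 (ε / 260) x.1) :=
    fun x => hT.isP x.1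
  have key := hTRANS (Fin (2 * J + 2)) (Sym2 (Fin n)) (Finset (Fin n)) (Option (Fin J))
    (piK n J x0 (ε / 260)) hT.isP (sig n J x0 (ε / 260)) s0 s1 (LsK J) (rho n (ε / 260))
    hT.rho0 hT.rho1 s2 ed3 one_card ((2 + ε / 2) * Real.log n / n) (lamL n J x0 (ε / 260))
    hl0 s3 (fun T => Dec T (KN (Fin n))) (fun R R' h hD => Dec_mono h hD)
    (fun e T h => one_ev _ e T h) (fun _ => p) (fun _ => ⟨hp0, hp1⟩)
    (fun _ => one_exp (pow_nonneg hT.rho0.le 3) (pow_le_one₀ hT.rho0.le hT.rho1)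
      (add_nonneg hl0 hsum) (hT.budget.trans hp))
  refine key.trans ?_
  have hz0 : ∀ ξ : Finset (Fin (2 * J + 2) × Sym2 (Fin n)),
      IsP (hz (hzs ((2 + ε / 2) * Real.log n / n) (lamL n J x0 (ε / 260))
        (sig n J x0 (ε / 260)) ed3 ξ)) := fun ξ => hz_isP fun t =>
    add_nonneg hl0 (sum_nonneg fun l _ => mul_nonneg (s3 l) (prod_nonneg fun e _ => s0 l _))
  refine (Ex_le_bad hIs (fun ξ => ¬ Good (piK n J x0 (ε / 260)) ξ ∨
      ¬ ∃ A ⊆ sl ξ (kB J J), Absorbs A (KN (Fin n) ∩ sl ξ (kA J J))) hδ3.le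
    (fun ξ => Pr_le_one (hz0 ξ) _) (fun ξ hξ => ?_)).trans ?_
  · rw [not_or, not_not, not_not] at hξ
    exact h1 n (by omega) h6 J x0 hP ξ hξ.1 hξ.2
  · have a1 := h3 (Fin n) (by rw [Fintype.card_fin]; omega) (2 * J + 2) (piK n J x0 (ε / 260))
      (by rw [Fintype.card_fin]; exact hT.cls) hT.isP hT.sum1
    have a2 := h2 n (by omega) J x0 hP
    have a3 := Pr_or_le hIs (fun ξ => ¬ Good (piK n J x0 (ε / 260)) ξ)
      (fun ξ => ¬ ∃ A ⊆ sl ξ (kB J J), Absorbs A (KN (Fin n) ∩ sl ξ (kA J J)))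
    linarith

theorem p_ONE (hTRANS : S_TRANS) (hTOPG : S_TOPG) (hABSX : S_ABSX) (hGOODP : S_GOODP) (hPAR : S_PAR) (hNUMT : S_NUMT) (hSIG : S_SIG) :
    S_ONE := by
  intro ε δ hε hδ
  obtain ⟨n0, h⟩ := one_main hTRANS hTOPG hABSX hGOODP hPAR hNUMT hSIG (min ε 1) δ
    (lt_min hε one_pos) (min_le_right _ _) hδ
  refine ⟨n0, fun n hn h6 p hp hp1 => h n hn h6 p (le_trans ?_ hp) hp1⟩
  have hlog : 0 ≤ Real.log n := Real.log_natCast_nonneg n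
  have hn0 : (0 : ℝ) ≤ n := Nat.cast_nonneg n
  have := min_le_left ε 1
  gcongr

end Pool.Agent.P.MP_224820_co.St
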