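import Pool.Agent.P.MP_224820_co.St.EmA

/-! Sequential counting of maps with prescribed edges. -/

set_option autoImplicit false

namespace Pool.Agent.P.MP_224820_co.St

open Finset

section Seq
variable {P V : Type} [Fintype P] [DecidableEq P] [Fintype V] [DecidableEq V]

omit [Fintype P] [DecidableEq V] in
theorem emb_step (A : Finset (P → V)) (a : P) (hA : ∀ y ∈ A, ∀ v, Function.update y a v ∈ A)
    (T : (P → V) → Prop) [DecidablePred T] {k : ℕ}
    (hk : ∀ y, (univ.filter fun v => T (Function.update y a v)).card ≤ k) :
    (A.filter T).card * Fintype.card V ≤ A.card * k := by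
  have h1 : ((A.filter T) ×ˢ (univ : Finset V)).card
      ≤ (A.sigma fun y => univ.filter fun v => T (Function.update y a v)).card := by
    refine card_le_card_of_injOn (fun z => ⟨Function.update z.1 a z.2, z.1 a⟩) ?_ ?_
    · intro z hz
      simp only [coe_product, Set.mem_prod, mem_coe, mem_filter] at hz
      simp only [mem_coe, mem_sigma, mem_filter, mem_univ, true_and]
      refine ⟨hA _ hz.1.1 _, ?_⟩
      simpa using hz.1.2
    · intro z _ z' _ h
      simp only [Sigma.mk.injEq, heq_eq_eq] at h
      obtain ⟨h1, h2⟩ := h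
      have h3 : z.2 = z'.2 := by simpa using congrFun h1 a
      refine Prod.ext ?_ h3
      funext j
      by_cases hj : j = a
      · rw [hj, h2]
      · simpa [Function.update_of_ne hj] using congrFun h1 j
  rw [card_product, card_univ, card_sigma] at h1
  refine h1.trans ?_
  calc _ ≤ ∑ _y ∈ A, k := sum_le_sum fun y _ => hk y
    _ = A.card * k := by simp

omit [DecidableEq V] in
/-- maps chosen in the order of `rk`, with at most `k j` choices at the positions of `s` -/
theorem emb_seq (rk : P → ℕ) (T : P → (P → V) → Prop) [∀ j, DecidablePred (T j)] (k : P → ℕ)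
    (hloc : ∀ j a, a ≠ j → rk j ≤ rk a → ∀ y v, T j y → T j (Function.update y a v))
    (hk : ∀ j y, (univ.filter fun v => T j (Function.update y j v)).card ≤ k j) (s : Finset P) :
    (univ.filter fun y : P → V => ∀ j ∈ s, T j y).card * Fintype.card V ^ s.card
      ≤ Fintype.card V ^ Fintype.card P * ∏ j ∈ s, k j := by
  induction s using Finset.induction_on_max_value rk with
  | empty => simp
  | insert a s ha hmax ih =>
    have h1 := emb_step (univ.filter fun y : P → V => ∀ j ∈ s, T j y) a (fun y hy v => by
      simp only [mem_filter, mem_univ, true_and] at hy ⊢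
      exact fun j hj => hloc j a (fun h => ha (h ▸ hj)) (hmax j hj) y v (hy j hj)) (T a) (hk a)
    have h2 : (univ.filter fun y : P → V => ∀ j ∈ insert a s, T j y)
        = (univ.filter fun y : P → V => ∀ j ∈ s, T j y).filter (T a) := by
      ext y
      simp only [mem_filter, mem_univ, true_and, forall_mem_insert]
      tauto
    rw [h2, card_insert_of_notMem ha, prod_insert ha, pow_succ]
    calc _ = ((univ.filter fun y : P → V => ∀ j ∈ s, T j y).filter (T a)).card * Fintype.card V
          * Fintype.card V ^ s.card := by ring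
      _ ≤ (univ.filter fun y : P → V => ∀ j ∈ s, T j y).card * k a * Fintype.card V ^ s.card :=
          Nat.mul_le_mul_right _ h1
      _ = (univ.filter fun y : P → V => ∀ j ∈ s, T j y).card * Fintype.card V ^ s.card * k a := by ring
      _ ≤ Fintype.card V ^ Fintype.card P * (∏ j ∈ s, k j) * k a := Nat.mul_le_mul_right _ ih
      _ = _ := by ring

end Seq

section Tmpl
variable {P Q V : Type} [Fintype P] [DecidableEq P] [Fintype Q] [DecidableEq Q]
  [Fintype V] [DecidableEq V]

/-- the pair realising a template edge: `φ` places the roots, `y` the free positions -/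
def emE {P Q V : Type} (φ : Q → V) (y : P → V) (e : P × (P ⊕ Q)) : Sym2 V :=
  s(y e.1, Sum.elim y φ e.2)

/-- the free positions touched by a set of template edges -/
def emZ (B : Finset (P × (P ⊕ Q))) : Finset P :=
  univ.filter fun j => ∃ e ∈ B, e.1 = j ∨ e.2 = Sum.inl j

/-- the root slots touched by a set of template edges -/
def emR (B : Finset (P × (P ⊕ Q))) : Finset Q := univ.filter fun q => ∃ e ∈ B, e.2 = Sum.inr q

/-- template edges point to earlier positions or to roots -/
def EmOrd {P Q : Type} (rk : P → ℕ) (E : Finset (P × (P ⊕ Q))) : Prop :=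
  ∀ e ∈ E, ∀ j, e.2 = Sum.inl j → rk j < rk e.1

omit [Fintype Q] in
theorem emb_head_sub (B : Finset (P × (P ⊕ Q))) : B.image Prod.fst ⊆ emZ B := by
  intro j hj
  obtain ⟨e, he, rfl⟩ := mem_image.1 hj
  exact mem_filter.2 ⟨mem_univ _, e, he, Or.inl rfl⟩

omit [Fintype P] [Fintype Q] [DecidableEq Q] [Fintype V] [DecidableEq V] in
theorem emb_elim_update {φ : Q → V} {y : P → V} {a : P} {v : V} {b : P ⊕ Q} (h : b ≠ Sum.inl a) :
    Sum.elim (Function.update y a v) φ b = Sum.elim y φ b := by
  cases b with
  | inl j =>
    have : j ≠ a := fun h' => h (by rw [h'])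
    simp [Function.update_of_ne this]
  | inr q => rfl

/-- the number of placements sending all edges of `B` into `K` -/
theorem emb_count {rk : P → ℕ} {B : Finset (P × (P ⊕ Q))} (hB : EmOrd rk B) (φ : Q → V)
    (K : Finset (Sym2 V)) (W : Finset V) {Δ M : ℕ} (hΔ : ∀ v, (nb K v).card ≤ Δ)
    (hW : ∀ u v, s(u, v) ∈ K → u ∈ W) (hM : W.card ≤ M) :
    (univ.filter fun y : P → V => ∀ e ∈ B, emE φ y e ∈ K).card * Fintype.card V ^ (emZ B).card
      ≤ Fintype.card V ^ Fintype.card P
        * (Δ ^ (B.image Prod.fst).card * M ^ (emZ B \ B.image Prod.fst).card) := by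
  have h1 := emb_seq (V := V) rk (fun j y => (∀ e ∈ B, e.1 = j → emE φ y e ∈ K) ∧ y j ∈ W)
    (fun j => if j ∈ B.image Prod.fst then Δ else M) ?_ ?_ (emZ B)
  · refine le_trans (Nat.mul_le_mul_right _ (card_le_card ?_)) (h1.trans (le_of_eq ?_))
    · intro y hy
      simp only [mem_filter, mem_univ, true_and] at hy ⊢
      intro j hj
      refine ⟨fun e he _ => hy e he, ?_⟩
      obtain ⟨e, he, h | h⟩ := (mem_filter.1 hj).2
      · rw [← h]
        exact hW _ _ (hy e he)
      · have h2 := hy e he
        rw [emE, h, Sym2.eq_swap] at h2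
        exact hW _ _ h2
    · congr 1
      rw [prod_ite, prod_const, prod_const]
      congr 2
      · rw [filter_mem_eq_inter, inter_eq_right.2 (emb_head_sub B)]
      · rw [sdiff_eq_filter]
  · intro j a haj hr y v ⟨h2, h3⟩
    refine ⟨fun e he hej => ?_, by rwa [Function.update_of_ne haj.symm]⟩
    have h4 : e.2 ≠ Sum.inl a := fun h => by
      have := hB e he a h
      rw [hej] at this
      omega
    have h5 := h2 e he hej
    rw [emE] at h5 ⊢
    rwa [emb_elim_update h4, hej, Function.update_of_ne haj.symm, ← hej]
  · intro j y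
    split_ifs with hj
    · obtain ⟨e, he, hej⟩ := mem_image.1 hj
      refine le_trans (card_le_card ?_) (hΔ (Sum.elim y φ e.2))
      intro v hv
      have h2 := (mem_filter.1 hv).2.1 e he hej
      have h4 : e.2 ≠ Sum.inl j := fun h => by
        have := hB e he j h
        rw [hej] at this
        omega
      rw [emE, emb_elim_update h4, hej, Function.update_self, Sym2.eq_swap] at h2
      exact mem_nb.2 h2
    · refine le_trans (card_le_card ?_) hM
      intro v hv
      have h2 := (mem_filter.1 hv).2.2
      rwa [Function.update_self] at h2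

end Tmpl

end Pool.Agent.P.MP_224820_co.St
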