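import Pool.Agent.P.MP_224820_co.St.IfaceA
import Pool.Agent.P.MP_224820_co.St.EmB

/-! Step OPT. -/

set_option autoImplicit false

namespace Pool.Agent.P.MP_224820_co.St

open Finset

theorem opt_elim {V U : Type} [DecidableEq U] (φ : U → V) {u : U} (v : V) {x : V ⊕ U}
    (h : x ≠ Sum.inr u) : Sum.elim id (Function.update φ u v) x = Sum.elim id φ x := by
  rcases x with x | w
  · rfl
  · have : w ≠ u := fun hw => h (by rw [hw])
    simp [Function.update_of_ne this]

theorem p_OPT :
    S_OPT := by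
  intro V U _ _ _ _ back wr D1 emax hG Fb Δ hFb hΔ hn
  classical
  rw [cnt_eq]
  set n := Fintype.card V with hnV
  set T := Fintype.card U with hT
  rcases Nat.eq_zero_or_pos T with hT0 | hT0
  · have : IsEmpty U := Fintype.card_eq_zero_iff.1 hT0
    have h1 : 1 ≤ (univ.filter (Opt back Fb)).card := by
      refine card_pos.2 ⟨fun u => isEmptyElim u, mem_filter.2 ⟨mem_univ _, ?_, ?_, ?_⟩⟩
      · intro u; exact isEmptyElim u
      · intro u; exact isEmptyElim u
      · intro e he; simp [gE] at he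
    have h2 : (1 : ℝ) ≤ (univ.filter (Opt back Fb)).card := by exact_mod_cast h1
    rw [hT0, pow_zero]; linarith
  have hT1 : (1 : ℝ) ≤ T := by exact_mod_cast hT0
  have hn0 : (0 : ℝ) < n := by
    have : (0 : ℝ) ≤ T * wr + emax * Δ := by positivity
    nlinarith
  set N := n ^ T with hN
  have hcard : (univ : Finset (U → V)).card = N := by simp [hN, hnV, hT]
  obtain ⟨r, hr⟩ := hG.acyc
  set A : U × U → Finset (U → V) := fun z => univ.filter fun y => z.2 ≠ z.1 ∧ y z.1 = y z.2
  set B : U × V → Finset (U → V) := fun z => univ.filter fun y => y z.1 = z.2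
  set C : (Σ _ : U, V ⊕ U) → Finset (U → V) := fun z =>
    univ.filter fun y => s(y z.1, Sum.elim id y z.2) ∈ Fb
  have hA : ∀ z, (A z).card * n ≤ N * 1 := by
    intro z
    rw [← hcard]
    refine emb_step univ z.1 (fun _ _ _ => mem_univ _) _ fun y => ?_
    refine card_le_one.2 fun v hv w hw => ?_
    obtain ⟨h1, h2⟩ := (mem_filter.1 hv).2
    obtain ⟨-, h3⟩ := (mem_filter.1 hw).2
    rw [Function.update_of_ne h1, Function.update_self] at h2 h3
    rw [h2, h3]
  have hB : ∀ z, (B z).card * n ≤ N * 1 := by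
    intro z
    rw [← hcard]
    refine emb_step univ z.1 (fun _ _ _ => mem_univ _) _ fun y => ?_
    refine card_le_one.2 fun v hv w hw => ?_
    have h2 := (mem_filter.1 hv).2
    have h3 := (mem_filter.1 hw).2
    rw [Function.update_self] at h2 h3
    rw [h2, h3]
  have hC : ∀ z ∈ univ.sigma back, (C z).card * n ≤ N * ⌊Δ⌋₊ := by
    intro z hz
    rw [← hcard]
    refine emb_step univ z.1 (fun _ _ _ => mem_univ _) _ fun y => ?_
    refine le_trans (card_le_card fun v hv => ?_) (Nat.le_floor (hFb (Sum.elim id y z.2)))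
    have h1 := (mem_filter.1 hv).2
    have h4 : z.2 ≠ Sum.inr z.1 := fun h => by
      have := hr z.1 z.1 (h ▸ (mem_sigma.1 hz).2)
      omega
    rw [opt_elim y v h4, Function.update_self, Sym2.eq_swap] at h1
    exact mem_nb.2 h1
  have hsub : (univ : Finset (U → V)) ⊆ univ.filter (Opt back Fb) ∪ (univ.biUnion A ∪
      ((univ ×ˢ rts back).biUnion B ∪ (univ.sigma back).biUnion C)) := by
    intro y _
    by_contra hy
    simp only [mem_union, mem_biUnion, not_or, not_exists, not_and, mem_univ, true_and, A, B, C,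
      mem_filter, mem_product, mem_sigma] at hy
    obtain ⟨h1, h2, h3, h4⟩ := hy
    refine h1 ⟨fun j j' h => ?_, fun u hu => h3 (u, y u) hu rfl, fun e he => ?_⟩
    · by_contra hne
      exact h2 (j, j') (fun h' => hne h'.symm) h
    · simp only [gE, Multiset.mem_sum, mem_univ, true_and, Multiset.mem_map, mem_val] at he
      obtain ⟨u, x, hx, rfl⟩ := he
      exact h4 ⟨u, x⟩ hx
  have h1 : N ≤ (univ.filter (Opt back Fb)).card + (∑ z, (A z).card +
      (∑ z ∈ univ ×ˢ rts back, (B z).card + ∑ z ∈ univ.sigma back, (C z).card)) := by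
    rw [← hcard]
    refine (card_le_card hsub).trans ((card_union_le _ _).trans (Nat.add_le_add_left ?_ _))
    refine (card_union_le _ _).trans (Nat.add_le_add card_biUnion_le ?_)
    exact (card_union_le _ _).trans (Nat.add_le_add card_biUnion_le card_biUnion_le)
  have h2 : (∑ z, (A z).card) * n ≤ T * T * N := by
    rw [sum_mul]
    refine (sum_le_sum fun z _ => hA z).trans (le_of_eq ?_)
    simp [hT]
  have h3 : (∑ z ∈ univ ×ˢ rts back, (B z).card) * n ≤ T * wr * N := by
    rw [sum_mul]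
    refine (sum_le_sum fun z _ => hB z).trans ?_
    simp only [sum_const, smul_eq_mul, card_product, card_univ, mul_one]
    exact Nat.mul_le_mul_right _ (Nat.mul_le_mul_left _ hG.roots)
  have h4 : (∑ z ∈ univ.sigma back, (C z).card) * n ≤ emax * ⌊Δ⌋₊ * N := by
    rw [sum_mul]
    refine (sum_le_sum hC).trans ?_
    simp only [sum_const, smul_eq_mul, card_sigma]
    calc _ = (∑ u, (back u).card) * ⌊Δ⌋₊ * N := by ring
      _ ≤ _ := Nat.mul_le_mul_right _ (Nat.mul_le_mul_right _ hG.tot)
  have hfl : (⌊Δ⌋₊ : ℝ) ≤ Δ := Nat.floor_le hΔ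
  have hN' : (n : ℝ) ^ T = N := by simp [hN]
  rw [hN']
  generalize (univ.filter (Opt back Fb)).card = g at h1 ⊢
  generalize ∑ z, (A z).card = a at h1 h2
  generalize ∑ z ∈ univ ×ˢ rts back, (B z).card = b at h1 h3
  generalize ∑ z ∈ univ.sigma back, (C z).card = c at h1 h4
  have k1 : (N : ℝ) ≤ g + (a + (b + c)) := by exact_mod_cast h1
  have k2 : (a : ℝ) * n ≤ T * T * N := by exact_mod_cast h2
  have k3 : (b : ℝ) * n ≤ T * wr * N := by exact_mod_cast h3
  have k4 : (c : ℝ) * n ≤ emax * ⌊Δ⌋₊ * N := by exact_mod_cast h4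
  have hN0 : (0 : ℝ) ≤ N := Nat.cast_nonneg _
  have k5 : (emax : ℝ) * ⌊Δ⌋₊ * N ≤ emax * Δ * N := by gcongr
  have k6 : ((T : ℝ) ^ 2 + T * wr + emax * Δ) * N ≤ n / 2 * N := mul_le_mul_of_nonneg_right hn hN0
  have k7 : ((a : ℝ) + (b + c)) * n ≤ N / 2 * n := by nlinarith
  have k8 := le_of_mul_le_mul_right k7 hn0
  linarith

end Pool.Agent.P.MP_224820_co.St
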