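import Pool.Agent.P.MP_224820_co.St.IfaceM

/-! Step PAR. -/

set_option autoImplicit false

namespace Pool.Agent.P.MP_224820_co.St

open Finset Filter Topology

theorem par_log : (1 / 3 : ℝ) ≤ Real.log (7 / 5) := by
  rw [Real.le_log_iff_exp_le (by norm_num)]
  have h1 : Real.exp (1 / 3) ^ 3 = Real.exp 1 := by
    rw [← Real.exp_nat_mul]; norm_num
  have h2 : Real.exp (1 / 3) ^ 3 ≤ (7 / 5 : ℝ) ^ 3 := by
    rw [h1]
    have := Real.exp_one_lt_d9
    norm_num at this ⊢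
    linarith
  exact le_of_pow_le_pow_left₀ (by norm_num) (by norm_num) h2

theorem par_main (L M : ℝ) (hL : 0 < L) (hM : M = Real.log L) (h1 : 1 ≤ M) :
    ∃ (j : ℕ) (x0 : ℝ), ((j + 1 : ℕ) : ℝ) ≤ 3 + 3 * M ∧ M / 5 ≤ x0 ∧ x0 ≤ 7 / 25 * M ∧
      x0 * (7 / 5) ^ j = 49 / 200 * L := by
  classical
  have hex : ∃ j : ℕ, 49 / 200 * L ≤ 7 / 25 * M * (7 / 5) ^ j := by
    obtain ⟨j, hj⟩ := pow_unbounded_of_one_lt (R := ℝ) L (show (1 : ℝ) < 7 / 5 by norm_num)
    refine ⟨j, ?_⟩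
    have hp : (0 : ℝ) < (7 / 5) ^ j := by positivity
    nlinarith
  have hML : M ≤ L := by
    rw [hM]; have := Real.log_le_sub_one_of_pos hL; linarith
  set j := Nat.find hex with hj
  have hspec : 49 / 200 * L ≤ 7 / 25 * M * (7 / 5) ^ j := Nat.find_spec hex
  have hp : (0 : ℝ) < (7 / 5) ^ j := by positivity
  refine ⟨j, 49 / 200 * L / (7 / 5) ^ j, ?_, ?_, ?_, ?_⟩
  · rcases Nat.eq_zero_or_pos j with h0 | h0
    · rw [h0]; push_cast; linarith
    · obtain ⟨k, hk⟩ : ∃ k, j = k + 1 := ⟨j - 1, by omega⟩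
      have hmin : ¬ (49 / 200 * L ≤ 7 / 25 * M * (7 / 5) ^ k) := Nat.find_min hex (by omega)
      have hq : (0 : ℝ) < (7 / 5) ^ k := by positivity
      have h2 : (7 / 5 : ℝ) ^ k ≤ L := by
        push Not at hmin
        nlinarith
      have h3 : (k : ℝ) * Real.log (7 / 5) ≤ M := by
        rw [hM, ← Real.log_pow]
        exact Real.log_le_log hq h2
      have h4 : (k : ℝ) * (1 / 3) ≤ (k : ℝ) * Real.log (7 / 5) :=
        mul_le_mul_of_nonneg_left par_log (Nat.cast_nonneg k)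
      rw [hk]; push_cast; linarith
  · rw [le_div_iff₀ hp]
    rcases Nat.eq_zero_or_pos j with h0 | h0
    · rw [h0]; simp only [pow_zero]; linarith
    · obtain ⟨k, hk⟩ : ∃ k, j = k + 1 := ⟨j - 1, by omega⟩
      have hmin : ¬ (49 / 200 * L ≤ 7 / 25 * M * (7 / 5) ^ k) := Nat.find_min hex (by omega)
      push Not at hmin
      rw [hk, pow_succ]
      nlinarith
  · rw [div_le_iff₀ hp]; exact hspec
  · field_simp

theorem p_PAR :
    S_PAR := by
  have ht : Tendsto (fun n : ℕ => Real.log (Real.log (n : ℝ))) atTop atTop :=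
    Real.tendsto_log_atTop.comp (Real.tendsto_log_atTop.comp tendsto_natCast_atTop_atTop)
  have ht' : Tendsto (fun n : ℕ => Real.log (n : ℝ)) atTop atTop :=
    Real.tendsto_log_atTop.comp tendsto_natCast_atTop_atTop
  obtain ⟨n0, hn0⟩ := eventually_atTop.1 ((ht.eventually_ge_atTop 1).and (ht'.eventually_gt_atTop 0))
  refine ⟨n0, fun n hn => ?_⟩
  obtain ⟨j, x0, a1, a2, a3, a4⟩ := par_main (Real.log n) _ (hn0 n hn).2 rfl (hn0 n hn).1
  exact ⟨j + 1, x0, by omega, a1, a2, a3, by simpa [xs] using a4⟩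

end Pool.Agent.P.MP_224820_co.St
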