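import Pool.Agent.P.MP_224820_co.St.IfaceA

/-! Step PAT. -/

set_option autoImplicit false

namespace Pool.Agent.P.MP_224820_co.St

open Finset

theorem pat_sum (U : Type) [Fintype U] [DecidableEq U] (F : ℝ) :
    ∑ I : Finset U, F ^ I.card = (1 + F) ^ Fintype.card U := by
  have h := Fintype.sum_pow_mul_eq_add_pow U F 1
  simp only [one_pow, mul_one] at h
  rw [h, add_comm]

theorem pat_big (U : Type) [Fintype U] [DecidableEq U] (s0 : ℕ) {F y : ℝ} (hF : 0 ≤ F) (hy : 0 < y) :
    ∑ I : Finset U, (if s0 ≤ I.card then y ^ s0 * (F / y) ^ I.card else 0)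
      ≤ bigB (Fintype.card U) s0 F y := by
  unfold bigB
  split_ifs with h
  · refine le_of_eq (Finset.sum_eq_zero fun I _ => if_neg ?_)
    have := Finset.card_le_univ I
    omega
  · rw [← pat_sum U (F / y), Finset.mul_sum]
    refine Finset.sum_le_sum fun I _ => ?_
    split_ifs
    · exact le_rfl
    · positivity

theorem p_PAT (hPATI : S_PATI) :
    S_PAT := by
  intro V U _ _ _ _ back z0 s0 hrb hord E0 W0 w0 D0 β F y hE hW hD hD1 hβ hβ1 hw hF hnF hy hy1
  have hw0 : 0 ≤ w0 := le_trans (Nat.cast_nonneg _) hW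
  have hg : 0 ≤ gain back W0 β w0 := by
    unfold gain
    split_ifs <;> positivity
  have h2 : 1 ≤ 2 / β := by
    rw [le_div_iff₀ hβ]; linarith
  rw [← Finset.sum_fiberwise (univ.filter fun φ : U → V => ¬ Disjoint (gE back φ).toFinset E0)
    (fun φ : U → V => univ.filter fun u => φ u ∈ W0)]
  have key : ∀ I : Finset U,
      ∑ φ ∈ (univ.filter fun φ : U → V => ¬ Disjoint (gE back φ).toFinset E0).filter
        (fun φ : U → V => (univ.filter fun u => φ u ∈ W0) = I),
        (1 / β) ^ ((gE back φ).toFinset ∩ E0).card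
      ≤ (Fintype.card V : ℝ) ^ Fintype.card U *
        (8 * Fintype.card U * gain back W0 β w0 * F ^ I.card + (2 / β) ^ z0 *
          (if s0 ≤ I.card then y ^ s0 * (F / y) ^ I.card else 0)) := by
    intro I
    obtain ⟨r, Z, hZ, hZ', hr, hdeg⟩ := hord I
    have h := hPATI V U back hrb E0 W0 w0 D0 β F hE hW hD hD1 hβ hβ1 hw hnF I r Z hr hdeg
    rw [Finset.filter_filter]
    simp only [and_comm (a := ¬ Disjoint _ E0)]
    refine h.trans ?_
    rw [mul_assoc]
    refine mul_le_mul_of_nonneg_left ?_ (by positivity)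
    by_cases hz : Z = ∅
    · rw [if_pos hz]
      have : 0 ≤ (2 / β) ^ z0 * (if s0 ≤ I.card then y ^ s0 * (F / y) ^ I.card else 0) := by
        split_ifs <;> positivity
      linarith [mul_comm (F ^ I.card) (8 * Fintype.card U * gain back W0 β w0)]
    · have hs : s0 ≤ I.card := hZ'.resolve_left hz
      rw [if_neg hz, if_pos hs]
      have a1 : (2 / β) ^ Z.card ≤ (2 / β) ^ z0 := pow_le_pow_right₀ h2 hZ
      have a2 : F ^ I.card ≤ y ^ s0 * (F / y) ^ I.card := by
        have : F ^ I.card = y ^ I.card * (F / y) ^ I.card := by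
          rw [← mul_pow, mul_div_cancel₀ _ hy.ne']
        rw [this]
        exact mul_le_mul_of_nonneg_right (pow_le_pow_of_le_one hy.le hy1 hs) (by positivity)
      have a3 : 0 ≤ 8 * Fintype.card U * gain back W0 β w0 * F ^ I.card := by positivity
      have a4 : F ^ I.card * (2 / β) ^ Z.card ≤ y ^ s0 * (F / y) ^ I.card * (2 / β) ^ z0 :=
        mul_le_mul a2 a1 (by positivity) (by positivity)
      linarith [mul_comm ((2 / β) ^ z0) (y ^ s0 * (F / y) ^ I.card)]
  refine (Finset.sum_le_sum fun I _ => key I).trans ?_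
  rw [← Finset.mul_sum, Finset.sum_add_distrib, ← Finset.mul_sum, ← Finset.mul_sum, pat_sum]
  refine mul_le_mul_of_nonneg_left ?_ (by positivity)
  have := mul_le_mul_of_nonneg_left (pat_big U s0 hF hy) (show 0 ≤ (2 / β) ^ z0 by positivity)
  linarith [mul_right_comm (8 * (Fintype.card U : ℝ)) (gain back W0 β w0) ((1 + F) ^ Fintype.card U)]

end Pool.Agent.P.MP_224820_co.St
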