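import Pool.Agent.P.MP_224820_co.St.IfaceA

/-! Step PATH. -/

set_option autoImplicit false

namespace Pool.Agent.P.MP_224820_co.St

open Finset

section
variable {V : Type} [Fintype V] [DecidableEq V]

omit [Fintype V] in
theorem path_inr {u v : V} {l : ℕ} {i w : Fin 3} (h : Sum.inr w ∈ pback u v l i) :
    (w : ℕ) + 1 = i := by
  unfold pback at h
  fin_cases i <;> by_cases hl : l = 4 <;> simp [hl] at h <;> simp [h]

omit [Fintype V] in
theorem path_inl {u v x : V} {l : ℕ} {i : Fin 3} (h : Sum.inl x ∈ pback u v l i) :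
    x = if i = 0 then u else v := by
  unfold pback at h
  fin_cases i <;> by_cases hl : l = 4 <;> simp [hl] at h <;> simp [h]

theorem path_rb (u v : V) (l : ℕ) (w : Fin 3) : (rb (pback u v l) w).card ≤ 1 := by
  refine card_le_one.2 fun a ha b hb => ?_
  rw [rb, mem_filter] at ha hb
  rw [path_inl ha.2, path_inl hb.2]

theorem path_rts {u v : V} {l : ℕ} {x : V} (h : x ∈ rts (pback u v l)) : x = u ∨ x = v := by
  simp only [rts, mem_filter] at h
  obtain ⟨i, hi⟩ := h.2
  have := path_inl hi
  split_ifs at this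
  · exact Or.inl this
  · exact Or.inr this

omit [Fintype V] in
theorem path_card (u v : V) (l : ℕ) (i : Fin 3) :
    (pback u v l i).card = if i = 0 then 1 else if i = 1 then (if l = 4 then 1 else 2)
      else (if l = 4 then 2 else 0) := by
  unfold pback
  fin_cases i <;> by_cases hl : l = 4 <;> simp [hl]

theorem path_gs (u v : V) (l : ℕ) : GS (pback u v l) 2 2 4 where
  acyc := ⟨fun i => (i : ℕ), fun a w h => by
    have := path_inr h
    show (w : ℕ) < a
    omega⟩
  roots := by
    refine le_trans (card_le_card (t := {u, v}) fun x hx => ?_) card_le_two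
    rcases path_rts hx with h | h <;> simp [h]
  out := fun i => by
    rw [path_card]; split_ifs <;> omega
  inn := fun x => by
    have h : ∃ w : Fin 3, x ∉ pback u v l w := by
      rcases x with x | x
      · by_cases hl : l = 4
        · exact ⟨1, by simp [pback, hl]⟩
        · exact ⟨2, by simp [pback, hl]⟩
      · exact ⟨0, by simp [pback]⟩
    obtain ⟨w, hw⟩ := h
    have h1 : (univ.filter fun i => x ∈ pback u v l i) ⊆ univ.erase w := by
      intro i hi
      rw [mem_filter] at hi
      refine mem_erase.2 ⟨?_, mem_univ _⟩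
      rintro rfl
      exact hw hi.2
    refine le_trans (card_le_card h1) ?_
    rw [card_erase_of_mem (mem_univ _)]
    simp
  rdeg := fun i => le_trans (path_rb u v l i) (by norm_num)
  tot := by
    simp only [path_card, Fin.sum_univ_three]
    by_cases hl : l = 4 <;> simp [hl]

theorem path_ord (u v : V) (l : ℕ) : GOrd (pback u v l) 0 4 := by
  intro I
  refine ⟨fun i => (i : ℕ), ∅, by simp, Or.inl rfl, ?_, ?_⟩
  · intro a _ w _ h
    show (a : ℕ) ≠ w
    rcases h with h | h <;> have := path_inr h <;> omega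
  · intro a _
    have h1 := path_rb u v l a
    have h2 : cnt I (fun w => adjF (pback u v l) a w ∧ (w : ℕ) < a) ≤ cnt (univ.erase a) fun _ => True := by
      refine cnt_mono fun i _ hi => ⟨mem_erase.2 ⟨?_, mem_univ _⟩, trivial⟩
      rintro rfl
      exact lt_irrefl _ hi.2
    have h3 := cnt_le (univ.erase a) fun _ => True
    rw [card_erase_of_mem (mem_univ _)] at h3
    simp only [card_univ, Fintype.card_fin] at h3
    simp only [notMem_empty, if_false]
    omega

omit [Fintype V] in
theorem path_wk (u v : V) (l : ℕ) (hl : l = 3 ∨ l = 4) (φ : Fin 3 → V) :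
    Wk u v l (gE (pback u v l) φ) := by
  rcases hl with rfl | rfl
  · have h := Wk_append (Wk_append (Wk_edge u (φ 0)) (Wk_edge (φ 0) (φ 1))) (Wk_edge (φ 1) v)
    have e : gE (pback u v 3) φ = {s(u, φ 0)} + {s(φ 0, φ 1)} + {s(φ 1, v)} := by
      simp [gE, pback, Fin.sum_univ_three, Sym2.eq_swap]
      exact Multiset.cons_swap _ _ _
    rw [e]; exact h
  · have h := Wk_append (Wk_append (Wk_append (Wk_edge u (φ 0)) (Wk_edge (φ 0) (φ 1)))
      (Wk_edge (φ 1) (φ 2))) (Wk_edge (φ 2) v)
    have e : gE (pback u v 4) φ = {s(u, φ 0)} + {s(φ 0, φ 1)} + {s(φ 1, φ 2)} + {s(φ 2, v)} := by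
      simp [gE, pback, Fin.sum_univ_three, Sym2.eq_swap]
      rw [Multiset.cons_swap, Multiset.cons_swap (s(φ 1, φ 2))]
    rw [e]; exact h

end

theorem p_PATH :
    S_PATH := by
  intro V _ _ u v l
  exact ⟨path_gs u v l, path_ord u v l, fun x hx => path_rts hx, path_rb u v l, path_wk u v l⟩

end Pool.Agent.P.MP_224820_co.St
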