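import Pool.Agent.P.MP_224820_co.St.IfaceA

/-! Step PATI. -/

set_option autoImplicit false

namespace Pool.Agent.P.MP_224820_co.St

open Finset

section
variable {V U : Type} [Fintype V] [DecidableEq V] [Fintype U] [DecidableEq U]

/-- root in-neighbours joined by an edge of `E0` -/
def patiA (R : U → Finset V) (E0 : Finset (Sym2 V)) (u : U) (φ : U → V) : Finset V :=
  (R u).filter fun v => s(φ u, v) ∈ E0

/-- free in-neighbours joined by an edge of `E0` -/
def patiB (N : U → Finset U) (E0 : Finset (Sym2 V)) (u : U) (φ : U → V) : Finset U :=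
  (N u).filter fun w => s(φ u, φ w) ∈ E0

/-- number of in-edges lying in `E0` -/
def patiR (R : U → Finset V) (N : U → Finset U) (E0 : Finset (Sym2 V)) (u : U) (φ : U → V) : ℕ :=
  (patiA R E0 u φ).card + (patiB N E0 u φ).card

/-- positions creating an in-edge in `E0` -/
def patiH (R : U → Finset V) (N : U → Finset U) (E0 : Finset (Sym2 V)) (u : U) (φ : U → V) :
    Finset V :=
  (R u).biUnion (nb E0) ∪ (N u).biUnion fun w => nb E0 (φ w)

omit [Fintype V] [Fintype U] [DecidableEq U] in
theorem pati_locA (R : U → Finset V) (E0 : Finset (Sym2 V)) (u : U) (φ ψ : U → V)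
    (h : φ u = ψ u) : patiA R E0 u φ = patiA R E0 u ψ := by
  unfold patiA
  rw [h]

omit [Fintype V] [Fintype U] [DecidableEq U] in
theorem pati_locB (N : U → Finset U) (E0 : Finset (Sym2 V)) (r : U → ℕ) (u : U)
    (hN : ∀ w ∈ N u, r w < r u) (φ ψ : U → V) (h : ∀ w, w = u ∨ r w < r u → φ w = ψ w) :
    patiB N E0 u φ = patiB N E0 u ψ := by
  unfold patiB
  refine filter_congr fun w hw => ?_
  rw [h u (Or.inl rfl), h w (Or.inr (hN w hw))]

omit [Fintype V] [Fintype U] [DecidableEq U] in
theorem pati_locR (R : U → Finset V) (N : U → Finset U) (E0 : Finset (Sym2 V)) (r : U → ℕ) (u : U)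
    (hN : ∀ w ∈ N u, r w < r u) (φ ψ : U → V) (h : ∀ w, w = u ∨ r w < r u → φ w = ψ w) :
    patiR R N E0 u φ = patiR R N E0 u ψ := by
  unfold patiR
  rw [pati_locA R E0 u φ ψ (h u (Or.inl rfl)), pati_locB N E0 r u hN φ ψ h]

omit [Fintype U] in
theorem pati_hit (R : U → Finset V) (N : U → Finset U) (E0 : Finset (Sym2 V)) (u : U)
    (hu : u ∉ N u) (φ : U → V) (x : V) (h : patiR R N E0 u (Function.update φ u x) ≠ 0) :
    x ∈ patiH R N E0 u φ := by
  unfold patiR at h
  unfold patiH
  rw [mem_union, mem_biUnion, mem_biUnion]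
  by_cases hA : (patiA R E0 u (Function.update φ u x)).card = 0
  · have hB : (patiB N E0 u (Function.update φ u x)).card ≠ 0 := by omega
    obtain ⟨w, hw⟩ := card_ne_zero.1 hB
    unfold patiB at hw
    rw [mem_filter] at hw
    have hwu : w ≠ u := fun e => hu (e ▸ hw.1)
    refine Or.inr ⟨w, hw.1, ?_⟩
    have h2 := hw.2
    rw [Function.update_self, Function.update_of_ne hwu] at h2
    rw [mem_nb, Sym2.eq_swap]
    exact h2
  · obtain ⟨v, hv⟩ := card_ne_zero.1 hA
    unfold patiA at hv
    rw [mem_filter] at hv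
    refine Or.inl ⟨v, hv.1, ?_⟩
    have h2 := hv.2
    rw [Function.update_self] at h2
    rw [mem_nb, Sym2.eq_swap]
    exact h2

omit [Fintype U] [DecidableEq U] in
theorem pati_Hcard (R : U → Finset V) (N : U → Finset U) (E0 : Finset (Sym2 V)) (D0 : ℝ)
    (hD : ∀ y, ((nb E0 y).card : ℝ) ≤ D0) (hD0 : 0 ≤ D0) (u : U) (φ : U → V) (d : ℕ)
    (hd : (R u).card + (N u).card ≤ d) : ((patiH R N E0 u φ).card : ℝ) ≤ d * D0 := by
  have h1 : (((R u).biUnion (nb E0)).card : ℝ) ≤ (R u).card * D0 := by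
    calc (((R u).biUnion (nb E0)).card : ℝ) ≤ ((∑ v ∈ R u, (nb E0 v).card : ℕ) : ℝ) := by
          exact_mod_cast card_biUnion_le
      _ = ∑ v ∈ R u, ((nb E0 v).card : ℝ) := by push_cast; rfl
      _ ≤ ∑ _v ∈ R u, D0 := sum_le_sum fun v _ => hD v
      _ = (R u).card * D0 := by rw [sum_const, nsmul_eq_mul]
  have h2 : (((N u).biUnion fun w => nb E0 (φ w)).card : ℝ) ≤ (N u).card * D0 := by
    calc (((N u).biUnion fun w => nb E0 (φ w)).card : ℝ)
        ≤ ((∑ w ∈ N u, (nb E0 (φ w)).card : ℕ) : ℝ) := by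
          exact_mod_cast card_biUnion_le
      _ = ∑ w ∈ N u, ((nb E0 (φ w)).card : ℝ) := by push_cast; rfl
      _ ≤ ∑ _w ∈ N u, D0 := sum_le_sum fun w _ => hD (φ w)
      _ = (N u).card * D0 := by rw [sum_const, nsmul_eq_mul]
  have h3 : ((patiH R N E0 u φ).card : ℝ) ≤ (((R u).biUnion (nb E0)).card : ℝ)
      + (((N u).biUnion fun w => nb E0 (φ w)).card : ℝ) := by
    unfold patiH
    exact_mod_cast card_union_le _ _
  have h4 : ((R u).card : ℝ) + (N u).card ≤ d := by exact_mod_cast hd
  nlinarith [mul_le_mul_of_nonneg_right h4 hD0]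

omit [Fintype V] [Fintype U] [DecidableEq U] in
theorem pati_Rle (R : U → Finset V) (N : U → Finset U) (E0 : Finset (Sym2 V)) (u : U) (φ : U → V) :
    patiR R N E0 u φ ≤ (R u).card + (N u).card := by
  unfold patiR patiA patiB
  exact add_le_add (card_filter_le _ _) (card_filter_le _ _)

omit [Fintype V] [Fintype U] [DecidableEq U] in
theorem pati_Rle2 (R : U → Finset V) (N : U → Finset U) (E0 : Finset (Sym2 V)) (W0 : Finset V)
    (hW : ∀ e ∈ E0, ∀ y ∈ e, y ∈ W0) (u : U) (φ : U → V) :
    patiR R N E0 u φ ≤ (R u ∩ W0).card + (patiB N E0 u φ).card := by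
  unfold patiR
  refine add_le_add (card_le_card fun v hv => ?_) le_rfl
  unfold patiA at hv
  rw [mem_filter] at hv
  exact mem_inter.2 ⟨hv.1, hW _ hv.2 v (Sym2.mem_mk_right _ _)⟩

omit [Fintype U] [DecidableEq U] in
theorem pati_sum_ind (S : Finset V) (c : ℝ) : ∑ x : V, (if x ∈ S then c else 0) = S.card * c := by
  rw [Finset.sum_ite_mem, univ_inter, sum_const, nsmul_eq_mul]

/-- the weight of a vertex placed in `W0` -/
noncomputable def patiF (R : U → Finset V) (N : U → Finset U) (E0 : Finset (Sym2 V)) (W0 : Finset V)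
    (β : ℝ) (u : U) (φ : U → V) : ℝ :=
  if φ u ∈ W0 then (1 / β) ^ patiR R N E0 u φ else 0

/-- the weight of the first vertex with an in-edge in `E0` -/
noncomputable def patiG (R : U → Finset V) (N : U → Finset U) (E0 : Finset (Sym2 V))
    (β : ℝ) (B : Finset U) (u : U) (φ : U → V) : ℝ :=
  if patiB N E0 u φ = B ∧ patiR R N E0 u φ ≠ 0 then (1 / β) ^ patiR R N E0 u φ else 0

omit [Fintype U] in
theorem pati_sumF (R : U → Finset V) (N : U → Finset U) (E0 : Finset (Sym2 V)) (W0 : Finset V)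
    (w0 D0 β : ℝ) (hw : (W0.card : ℝ) ≤ w0) (hD : ∀ y, ((nb E0 y).card : ℝ) ≤ D0) (hD0 : 0 ≤ D0)
    (hb0 : 0 < β) (hb1 : β ≤ 1) (u : U) (hu : u ∉ N u) (d : ℕ)
    (hd : (R u).card + (N u).card ≤ d) (φ : U → V) :
    ∑ x, patiF R N E0 W0 β u (Function.update φ u x) ≤ w0 + d * D0 * (1 / β) ^ d := by
  have hb : (1 : ℝ) ≤ 1 / β := by rw [le_div_iff₀ hb0]; linarith
  have hp : (0 : ℝ) ≤ (1 / β) ^ d := by positivity
  calc ∑ x, patiF R N E0 W0 β u (Function.update φ u x)
      ≤ ∑ x, ((if x ∈ W0 then (1 : ℝ) else 0)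
          + (if x ∈ patiH R N E0 u φ then (1 / β) ^ d else 0)) := by
        refine sum_le_sum fun x _ => ?_
        unfold patiF
        rw [Function.update_self]
        by_cases hx : x ∈ W0
        · rw [if_pos hx, if_pos hx]
          by_cases h0 : patiR R N E0 u (Function.update φ u x) = 0
          · rw [h0, pow_zero]
            have : (0 : ℝ) ≤ if x ∈ patiH R N E0 u φ then (1 / β) ^ d else 0 := by
              split_ifs
              · exact hp
              · exact le_rfl
            linarith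
          · rw [if_pos (pati_hit R N E0 u hu φ x h0)]
            have := pow_le_pow_right₀ hb ((pati_Rle R N E0 u (Function.update φ u x)).trans hd)
            linarith
        · rw [if_neg hx, if_neg hx]
          split_ifs
          · linarith
          · linarith
    _ = W0.card * 1 + (patiH R N E0 u φ).card * (1 / β) ^ d := by
        rw [sum_add_distrib, pati_sum_ind, pati_sum_ind]
    _ ≤ w0 + d * D0 * (1 / β) ^ d := by
        have := mul_le_mul_of_nonneg_right (pati_Hcard R N E0 D0 hD hD0 u φ d hd) hp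
        linarith

omit [Fintype U] in
theorem pati_sumG (R : U → Finset V) (N : U → Finset U) (E0 : Finset (Sym2 V)) (W0 : Finset V)
    (hW : ∀ e ∈ E0, ∀ y ∈ e, y ∈ W0)
    (D0 β : ℝ) (hD : ∀ y, ((nb E0 y).card : ℝ) ≤ D0) (hD0 : 0 ≤ D0)
    (hb0 : 0 < β) (hb1 : β ≤ 1) (u : U) (hu : u ∉ N u)
    (hd : (R u).card + (N u).card ≤ 3) (B : Finset U) (φ : U → V) :
    ∑ x, patiG R N E0 β B u (Function.update φ u x)
      ≤ 3 * D0 * (if (R u ∩ W0).card + B.card = 0 then 0
          else (1 / β) ^ ((R u ∩ W0).card + B.card)) := by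
  have hb : (1 : ℝ) ≤ 1 / β := by rw [le_div_iff₀ hb0]; linarith
  set c : ℝ := if (R u ∩ W0).card + B.card = 0 then 0
          else (1 / β) ^ ((R u ∩ W0).card + B.card) with hc
  have hc0 : 0 ≤ c := by
    rw [hc]
    split_ifs
    · exact le_rfl
    · positivity
  calc ∑ x, patiG R N E0 β B u (Function.update φ u x)
      ≤ ∑ x, (if x ∈ patiH R N E0 u φ then c else 0) := by
        refine sum_le_sum fun x _ => ?_
        unfold patiG
        by_cases h : patiB N E0 u (Function.update φ u x) = B ∧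
            patiR R N E0 u (Function.update φ u x) ≠ 0
        · rw [if_pos h, if_pos (pati_hit R N E0 u hu φ x h.2)]
          have h2 := pati_Rle2 R N E0 W0 hW u (Function.update φ u x)
          rw [h.1] at h2
          have h3 : (R u ∩ W0).card + B.card ≠ 0 := by have := h.2; omega
          rw [hc, if_neg h3]
          exact pow_le_pow_right₀ hb h2
        · rw [if_neg h]
          split_ifs
          · exact hc0
          · exact le_rfl
    _ = (patiH R N E0 u φ).card * c := pati_sum_ind _ _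
    _ ≤ 3 * D0 * c := by
        have := pati_Hcard R N E0 D0 hD hD0 u φ 3 hd
        push_cast at this
        exact mul_le_mul_of_nonneg_right this hc0

omit [Fintype V] [DecidableEq V] in
theorem pati_prod_ind (S : Finset U) (c : ℝ) : ∏ u : U, (if u ∈ S then c else 1) = c ^ S.card := by
  rw [Finset.prod_ite_mem, univ_inter, prod_const]

open Classical in
/-- free in-neighbours inside `I` -/
noncomputable def patiN (back : U → Finset (V ⊕ U)) (I : Finset U) (r : U → ℕ) (u : U) : Finset U :=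
  I.filter fun w => adjF back u w ∧ r w < r u

omit [Fintype V] [DecidableEq V] [Fintype U] [DecidableEq U] in
theorem pati_memN {back : U → Finset (V ⊕ U)} {I : Finset U} {r : U → ℕ} {u w : U} :
    w ∈ patiN back I r u ↔ w ∈ I ∧ adjF back u w ∧ r w < r u := by
  classical
  unfold patiN
  rw [mem_filter]

omit [Fintype V] [DecidableEq V] [Fintype U] [DecidableEq U] in
theorem pati_cardN (back : U → Finset (V ⊕ U)) (I : Finset U) (r : U → ℕ) (u : U) :
    cnt I (fun w => adjF back u w ∧ r w < r u) = (patiN back I r u).card := by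
  classical
  rw [cnt_eq]
  unfold patiN
  congr

theorem pati_cover (back : U → Finset (V ⊕ U)) (E0 : Finset (Sym2 V)) (W0 : Finset V)
    (hW : ∀ e ∈ E0, ∀ y ∈ e, y ∈ W0) (I : Finset U) (r : U → ℕ)
    (hr : ∀ u ∈ I, ∀ w ∈ I, adjF back u w → r u ≠ r w) (φ : U → V)
    (hI : (univ.filter fun u => φ u ∈ W0) = I) :
    ((gE back φ).toFinset ∩ E0).card ≤ ∑ u ∈ I, patiR (rb back) (patiN back I r) E0 u φ := by
  have hmem : ∀ u, φ u ∈ W0 → u ∈ I := fun u hu => by
    rw [← hI, mem_filter]
    exact ⟨mem_univ _, hu⟩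
  have hsub : (gE back φ).toFinset ∩ E0 ⊆ I.biUnion fun u =>
      (patiA (rb back) E0 u φ).image (fun v => s(φ u, v)) ∪
        (patiB (patiN back I r) E0 u φ).image (fun w => s(φ u, φ w)) := by
    intro e he
    rw [mem_inter, Multiset.mem_toFinset] at he
    obtain ⟨h1, h2⟩ := he
    unfold gE at h1
    rw [Multiset.mem_sum] at h1
    obtain ⟨u, -, h1⟩ := h1
    rw [Multiset.mem_map] at h1
    obtain ⟨x, hx, rfl⟩ := h1
    have hx' : x ∈ back u := hx
    have huI : u ∈ I := hmem u (hW _ h2 _ (Sym2.mem_mk_left _ _))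
    rw [mem_biUnion]
    cases x with
    | inl v =>
      refine ⟨u, huI, mem_union_left _ (mem_image.2 ⟨v, ?_, rfl⟩)⟩
      unfold patiA rb
      rw [mem_filter, mem_filter]
      exact ⟨⟨mem_univ _, hx'⟩, h2⟩
    | inr w =>
      have h2' : s(φ u, φ w) ∈ E0 := h2
      have hwI : w ∈ I := hmem w (hW _ h2' _ (Sym2.mem_mk_right _ _))
      have hadj : adjF back u w := Or.inl hx'
      have hadj' : adjF back w u := Or.inr hx'
      rcases lt_or_gt_of_ne (hr u huI w hwI hadj) with hlt | hlt
      · refine ⟨w, hwI, mem_union_right _ (mem_image.2 ⟨u, ?_, Sym2.eq_swap⟩)⟩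
        unfold patiB
        rw [mem_filter, pati_memN, Sym2.eq_swap]
        exact ⟨⟨huI, hadj', hlt⟩, h2'⟩
      · refine ⟨u, huI, mem_union_right _ (mem_image.2 ⟨w, ?_, rfl⟩)⟩
        unfold patiB
        rw [mem_filter, pati_memN]
        exact ⟨⟨hwI, hadj, hlt⟩, h2'⟩
  refine (card_le_card hsub).trans (card_biUnion_le.trans (sum_le_sum fun u _ => ?_))
  unfold patiR
  exact (card_union_le _ _).trans (add_le_add card_image_le card_image_le)

omit [Fintype V] [Fintype U] [DecidableEq U] in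
theorem pati_F0 (R : U → Finset V) (N : U → Finset U) (E0 : Finset (Sym2 V)) (W0 : Finset V)
    (β : ℝ) (hb0 : 0 < β) (u : U) (φ : U → V) : 0 ≤ patiF R N E0 W0 β u φ := by
  unfold patiF
  split_ifs
  · positivity
  · exact le_rfl

omit [Fintype V] [Fintype U] in
theorem pati_G0 (R : U → Finset V) (N : U → Finset U) (E0 : Finset (Sym2 V))
    (β : ℝ) (hb0 : 0 < β) (B : Finset U) (u : U) (φ : U → V) : 0 ≤ patiG R N E0 β B u φ := by
  unfold patiG
  split_ifs
  · positivity
  · exact le_rfl

omit [Fintype V] [Fintype U] [DecidableEq U] in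
theorem pati_locF (R : U → Finset V) (N : U → Finset U) (E0 : Finset (Sym2 V)) (W0 : Finset V)
    (β : ℝ) (r : U → ℕ) (u : U) (hN : ∀ w ∈ N u, r w < r u) (φ ψ : U → V)
    (h : ∀ w, w = u ∨ r w < r u → φ w = ψ w) : patiF R N E0 W0 β u φ = patiF R N E0 W0 β u ψ := by
  unfold patiF
  rw [pati_locR R N E0 r u hN φ ψ h, h u (Or.inl rfl)]

omit [Fintype V] [Fintype U] in
theorem pati_locG (R : U → Finset V) (N : U → Finset U) (E0 : Finset (Sym2 V))
    (β : ℝ) (B : Finset U) (r : U → ℕ) (u : U) (hN : ∀ w ∈ N u, r w < r u) (φ ψ : U → V)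
    (h : ∀ w, w = u ∨ r w < r u → φ w = ψ w) : patiG R N E0 β B u φ = patiG R N E0 β B u ψ := by
  unfold patiG
  rw [pati_locR R N E0 r u hN φ ψ h, pati_locB N E0 r u hN φ ψ h]

/-- the plain bound -/
theorem pati_plain (hSEQ : S_SEQ) (R : U → Finset V) (N : U → Finset U) (E0 : Finset (Sym2 V))
    (W0 : Finset V) (w0 D0 β F : ℝ) (hw : (W0.card : ℝ) ≤ w0)
    (hD : ∀ y, ((nb E0 y).card : ℝ) ≤ D0) (hD1 : 1 ≤ D0) (hb0 : 0 < β) (hb1 : β ≤ 1)
    (hF : w0 + 3 * D0 / β ^ 3 ≤ Fintype.card V * F) (I : Finset U) (r : U → ℕ) (Z : Finset U)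
    (hN : ∀ u, ∀ w ∈ N u, r w < r u)
    (hd : ∀ u ∈ I, (R u).card + (N u).card ≤ if u ∈ Z then 4 else 3) :
    ∑ φ : U → V, ∏ u, (if u ∈ I then patiF R N E0 W0 β u φ else 1)
      ≤ (Fintype.card V : ℝ) ^ Fintype.card U * F ^ I.card * (2 / β) ^ Z.card := by
  have hw0 : 0 ≤ w0 := (Nat.cast_nonneg _).trans hw
  have hn : (0 : ℝ) ≤ Fintype.card V := Nat.cast_nonneg _
  have hq : 0 < 3 * D0 / β ^ 3 := by positivity
  have hF0 : 0 ≤ F := by
    by_contra h
    push Not at h
    nlinarith [mul_nonneg hn (neg_nonneg.2 h.le)]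
  have hb2 : (1 : ℝ) ≤ 2 / β := by rw [le_div_iff₀ hb0]; linarith
  have key := hSEQ V U (fun u φ => if u ∈ I then patiF R N E0 W0 β u φ else 1) r
    (fun u => Fintype.card V * (if u ∈ I then F else 1) * (if u ∈ Z then 2 / β else 1))
    (fun u φ => by
      split_ifs
      · exact pati_F0 R N E0 W0 β hb0 u φ
      · exact zero_le_one)
    (fun u => by
      split_ifs <;> positivity)
    (fun u φ ψ h => by
      rw [pati_locF R N E0 W0 β r u (hN u) φ ψ h])
    (fun u φ => by
      have hu : u ∉ N u := fun h => lt_irrefl _ (hN u u h)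
      by_cases huI : u ∈ I
      · simp only [if_pos huI]
        have h1 := hd u huI
        by_cases huZ : u ∈ Z
        · rw [if_pos huZ] at h1
          rw [if_pos huZ]
          refine (pati_sumF R N E0 W0 w0 D0 β hw hD (by linarith) hb0 hb1 u hu 4 h1 φ).trans ?_
          refine le_trans ?_ (mul_le_mul_of_nonneg_right hF (by positivity))
          have e1 : (w0 + 3 * D0 / β ^ 3) * (2 / β) = w0 * (2 / β) + 6 * D0 * (1 / β) ^ 4 := by
            field_simp
            ring
          rw [e1]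
          push_cast
          have h2 : w0 * 1 ≤ w0 * (2 / β) := mul_le_mul_of_nonneg_left hb2 hw0
          have h3 : 0 ≤ D0 * (1 / β) ^ 4 := by positivity
          linarith
        · rw [if_neg huZ] at h1
          rw [if_neg huZ, mul_one]
          refine (pati_sumF R N E0 W0 w0 D0 β hw hD (by linarith) hb0 hb1 u hu 3 h1 φ).trans ?_
          refine le_trans (le_of_eq ?_) hF
          push_cast
          field_simp
      · simp only [if_neg huI]
        rw [sum_const, card_univ, nsmul_eq_mul, mul_one]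
        split_ifs
        · nlinarith
        · rw [mul_one])
  refine key.trans (le_of_eq ?_)
  rw [prod_mul_distrib, prod_mul_distrib, pati_prod_ind, pati_prod_ind, prod_const, card_univ]

/-- weights when `i` is the first vertex with an in-edge in `E0` -/
noncomputable def patiW (R : U → Finset V) (N : U → Finset U) (E0 : Finset (Sym2 V)) (W0 : Finset V)
    (β : ℝ) (I : Finset U) (i : U) (B : Finset U) (u : U) (φ : U → V) : ℝ :=
  if u = i then patiG R N E0 β B u φ
  else if u ∈ B then (if φ u ∈ W0 then 1 else 0)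
  else if u ∈ I then patiF R N E0 W0 β u φ else 1

omit [Fintype V] [Fintype U] in
theorem pati_W0 (R : U → Finset V) (N : U → Finset U) (E0 : Finset (Sym2 V)) (W0 : Finset V)
    (β : ℝ) (hb0 : 0 < β) (I : Finset U) (i : U) (B : Finset U) (u : U) (φ : U → V) :
    0 ≤ patiW R N E0 W0 β I i B u φ := by
  unfold patiW
  split_ifs
  · exact pati_G0 R N E0 β hb0 B u φ
  · exact zero_le_one
  · exact le_rfl
  · exact pati_F0 R N E0 W0 β hb0 u φ
  · exact zero_le_one

/-- the bound with the gain of the first shared edge -/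
theorem pati_first (hSEQ : S_SEQ) (R : U → Finset V) (N : U → Finset U) (E0 : Finset (Sym2 V))
    (W0 : Finset V) (hW : ∀ e ∈ E0, ∀ y ∈ e, y ∈ W0) (w0 D0 β F : ℝ) (hw : (W0.card : ℝ) ≤ w0)
    (hD : ∀ y, ((nb E0 y).card : ℝ) ≤ D0) (hD1 : 1 ≤ D0) (hb0 : 0 < β) (hb1 : β ≤ 1)
    (hF : w0 + 3 * D0 / β ^ 3 ≤ Fintype.card V * F) (I : Finset U) (r : U → ℕ)
    (hN : ∀ u, ∀ w ∈ N u, r w < r u) (hd : ∀ u ∈ I, (R u).card + (N u).card ≤ 3)
    (i : U) (hi : i ∈ I) (B : Finset U) (hBI : B ⊆ I) (hiB : i ∉ B) :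
    ∑ φ : U → V, ∏ u, patiW R N E0 W0 β I i B u φ
      ≤ (Fintype.card V : ℝ) ^ Fintype.card U * F ^ I.card *
        ((if (R i ∩ W0).card + B.card = 0 then 0
          else β ^ 3 * (1 / β) ^ ((R i ∩ W0).card + B.card)) * (w0 * β ^ 3) ^ B.card) := by
  have hw0 : 0 ≤ w0 := (Nat.cast_nonneg _).trans hw
  have hn : (0 : ℝ) ≤ Fintype.card V := Nat.cast_nonneg _
  have hq : 0 < 3 * D0 / β ^ 3 := by positivity
  have hF0 : 0 ≤ F := by
    by_contra h
    push Not at h
    nlinarith [mul_nonneg hn (neg_nonneg.2 h.le)]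
  have hb3 : 0 < β ^ 3 := by positivity
  have h3D : 3 * D0 ≤ Fintype.card V * F * β ^ 3 := by
    have : 3 * D0 / β ^ 3 ≤ Fintype.card V * F := by linarith
    rwa [div_le_iff₀ hb3] at this
  set c : ℝ := if (R i ∩ W0).card + B.card = 0 then 0
          else β ^ 3 * (1 / β) ^ ((R i ∩ W0).card + B.card) with hc
  have hc0 : 0 ≤ c := by
    rw [hc]
    split_ifs
    · exact le_rfl
    · positivity
  have key := hSEQ V U (patiW R N E0 W0 β I i B) r
    (fun u => Fintype.card V * (if u ∈ I then F else 1) *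
      ((if u ∈ ({i} : Finset U) then c else 1) * (if u ∈ B then w0 * β ^ 3 else 1)))
    (pati_W0 R N E0 W0 β hb0 I i B)
    (fun u => by
      split_ifs <;> positivity)
    (fun u φ ψ h => by
      unfold patiW
      rw [pati_locF R N E0 W0 β r u (hN u) φ ψ h, pati_locG R N E0 β B r u (hN u) φ ψ h,
        h u (Or.inl rfl)])
    (fun u φ => by
      have hu : u ∉ N u := fun h => lt_irrefl _ (hN u u h)
      unfold patiW
      by_cases hui : u = i
      · subst hui
        simp only [if_pos hi, if_neg hiB, mem_singleton, if_true, mul_one]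
        refine (pati_sumG R N E0 W0 hW D0 β hD (by linarith) hb0 hb1 u hu (hd u hi) B φ).trans ?_
        rw [hc]
        split_ifs
        · simp
        · rw [← mul_assoc]
          exact mul_le_mul_of_nonneg_right h3D (by positivity)
      · simp only [if_neg hui, mem_singleton, one_mul]
        by_cases huB : u ∈ B
        · simp only [if_pos huB, if_pos (hBI huB), Function.update_self]
          rw [pati_sum_ind, mul_one]
          have h1 : w0 * 1 ≤ w0 * (Fintype.card V * F * β ^ 3) :=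
            mul_le_mul_of_nonneg_left (by linarith) hw0
          linarith
        · simp only [if_neg huB, mul_one]
          by_cases huI : u ∈ I
          · simp only [if_pos huI]
            refine (pati_sumF R N E0 W0 w0 D0 β hw hD (by linarith) hb0 hb1 u hu 3
              (hd u huI) φ).trans ?_
            refine le_trans (le_of_eq ?_) hF
            push_cast
            field_simp
          · simp only [if_neg huI]
            rw [sum_const, card_univ, nsmul_eq_mul])
  refine key.trans (le_of_eq ?_)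
  rw [prod_mul_distrib, prod_mul_distrib, prod_mul_distrib, pati_prod_ind, pati_prod_ind,
    pati_prod_ind, prod_const, card_univ, card_singleton, pow_one]

theorem pati_gain (back : U → Finset (V ⊕ U)) (h2 : ∀ u, (rb back u).card ≤ 2) (W0 : Finset V)
    (w0 β : ℝ) (hw0 : 0 ≤ w0) (hb0 : 0 < β) (hb1 : β ≤ 1) (hwb : w0 * β ^ 2 ≤ 1) (i : U) (b : ℕ) :
    (if (rb back i ∩ W0).card + b = 0 then 0
      else β ^ 3 * (1 / β) ^ ((rb back i ∩ W0).card + b)) * (w0 * β ^ 3) ^ b
      ≤ gain back W0 β w0 := by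
  have hg0 : 0 ≤ gain back W0 β w0 := by
    unfold gain
    split_ifs <;> positivity
  by_cases h0 : (rb back i ∩ W0).card + b = 0
  · rw [if_pos h0, zero_mul]
    exact hg0
  rw [if_neg h0]
  set a := (rb back i ∩ W0).card with ha
  have ha2 : a ≤ 2 := (card_le_card inter_subset_left).trans (h2 i)
  have e1 : β ^ 3 * (1 / β) ^ (a + b) * (w0 * β ^ 3) ^ b
      = β ^ 3 * (1 / β) ^ a * (w0 * β ^ 2) ^ b := by
    have e2 : w0 * β ^ 2 = 1 / β * (w0 * β ^ 3) := by field_simp
    rw [e2, mul_pow (1 / β), pow_add]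
    ring
  rw [e1]
  have hp1 : (w0 * β ^ 2) ^ b ≤ 1 := pow_le_one₀ (by positivity) hwb
  have hb : (1 : ℝ) ≤ 1 / β := by rw [le_div_iff₀ hb0]; linarith
  unfold gain
  split_ifs with c1 c2
  · calc β ^ 3 * (1 / β) ^ a * (w0 * β ^ 2) ^ b ≤ β ^ 3 * (1 / β) ^ 2 * 1 := by
          gcongr
      _ = β := by field_simp
  · have ha1 : a ≤ 1 := by
      by_contra h
      exact c1 ⟨i, by omega⟩
    calc β ^ 3 * (1 / β) ^ a * (w0 * β ^ 2) ^ b ≤ β ^ 3 * (1 / β) ^ 1 * 1 := by
          gcongr
      _ = β ^ 2 := by field_simp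
  · have ha0 : a = 0 := by
      rw [ha, card_eq_zero, eq_empty_iff_forall_notMem]
      intro x hx
      rw [mem_inter] at hx
      refine c2 ⟨x, ?_, hx.2⟩
      have h1 := hx.1
      unfold rb at h1
      rw [mem_filter] at h1
      unfold rts
      rw [mem_filter]
      exact ⟨mem_univ _, i, h1.2⟩
    have hb' : b ≠ 0 := by omega
    rw [ha0, pow_zero, mul_one]
    calc β ^ 3 * (w0 * β ^ 2) ^ b ≤ β ^ 3 * (w0 * β ^ 2) :=
          mul_le_mul_of_nonneg_left (pow_le_of_le_one (by positivity) hwb hb') (by positivity)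
      _ = β ^ 5 * w0 := by ring

omit [Fintype V] in
theorem pati_split (R : U → Finset V) (N : U → Finset U) (E0 : Finset (Sym2 V)) (W0 : Finset V)
    (β : ℝ) (hb0 : 0 < β) (I : Finset U) (r : U → ℕ) (hN : ∀ u, ∀ w ∈ N u, r w < r u)
    (hNI : ∀ u, N u ⊆ I) (φ : U → V) (hI : ∀ u ∈ I, φ u ∈ W0)
    (hne : ∑ u ∈ I, patiR R N E0 u φ ≠ 0) :
    ∏ u, (if u ∈ I then patiF R N E0 W0 β u φ else 1)
      ≤ ∑ i ∈ I, ∑ B ∈ (N i).powerset, ∏ u, patiW R N E0 W0 β I i B u φ := by
  have hne' : (I.filter fun u => patiR R N E0 u φ ≠ 0).Nonempty := by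
    obtain ⟨u, hu, h⟩ := exists_ne_zero_of_sum_ne_zero hne
    exact ⟨u, mem_filter.2 ⟨hu, h⟩⟩
  obtain ⟨i, hi, hmin⟩ := exists_min_image _ r hne'
  rw [mem_filter] at hi
  have hBN : patiB N E0 i φ ⊆ N i := filter_subset _ _
  have e1 : ∏ u, (if u ∈ I then patiF R N E0 W0 β u φ else 1)
      = ∏ u, patiW R N E0 W0 β I i (patiB N E0 i φ) u φ := by
    refine prod_congr rfl fun u _ => ?_
    unfold patiW
    by_cases hui : u = i
    · subst hui
      rw [if_pos rfl, if_pos hi.1]
      unfold patiF patiG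
      rw [if_pos (hI u hi.1), if_pos ⟨rfl, hi.2⟩]
    · rw [if_neg hui]
      by_cases huB : u ∈ patiB N E0 i φ
      · have huI : u ∈ I := hNI i (hBN huB)
        rw [if_pos huB, if_pos huI]
        unfold patiF
        have h0 : patiR R N E0 u φ = 0 := by
          by_contra h
          have h1 := hmin u (mem_filter.2 ⟨huI, h⟩)
          have h2 := hN i u (hBN huB)
          omega
        rw [h0, pow_zero]
      · rw [if_neg huB]
  rw [e1]
  have hpos : ∀ i B, 0 ≤ ∏ u, patiW R N E0 W0 β I i B u φ := fun i B =>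
    prod_nonneg fun u _ => pati_W0 R N E0 W0 β hb0 I i B u φ
  refine le_trans ?_ (single_le_sum (f := fun i => ∑ B ∈ (N i).powerset,
    ∏ u, patiW R N E0 W0 β I i B u φ) (fun j _ => sum_nonneg fun B _ => hpos j B) hi.1)
  exact single_le_sum (f := fun B => ∏ u, patiW R N E0 W0 β I i B u φ) (fun B _ => hpos i B)
    (mem_powerset.2 hBN)

end

theorem p_PATI (hSEQ : S_SEQ) :
    S_PATI := by
  intro V U _ _ _ _ back h2 E0 W0 w0 D0 β F hW hw hD hD1 hb0 hb1 hwb hF I r Z hr hd
  have hw0 : 0 ≤ w0 := (Nat.cast_nonneg _).trans hw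
  have hb : (1 : ℝ) ≤ 1 / β := by rw [le_div_iff₀ hb0]; linarith
  have hn : (0 : ℝ) ≤ Fintype.card V := Nat.cast_nonneg _
  have hq : 0 < 3 * D0 / β ^ 3 := by positivity
  have hF0 : 0 ≤ F := by
    by_contra h
    push Not at h
    nlinarith [mul_nonneg hn (neg_nonneg.2 h.le)]
  set N := patiN back I r with hNdef
  have hN : ∀ u, ∀ w ∈ N u, r w < r u := fun u w hw => (pati_memN.1 hw).2.2
  have hNI : ∀ u, N u ⊆ I := fun u w hw => (pati_memN.1 hw).1
  have hd' : ∀ u ∈ I, (rb back u).card + (N u).card ≤ if u ∈ Z then 4 else 3 := fun u hu => by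
    rw [hNdef, ← pati_cardN]
    exact hd u hu
  have hpt : ∀ φ : U → V, (univ.filter fun u => φ u ∈ W0) = I →
      (1 / β) ^ ((gE back φ).toFinset ∩ E0).card
        ≤ ∏ u, (if u ∈ I then patiF (rb back) N E0 W0 β u φ else 1) := fun φ hI => by
    have hI' : ∀ u ∈ I, φ u ∈ W0 := fun u hu => by
      rw [← hI, mem_filter] at hu
      exact hu.2
    refine (pow_le_pow_right₀ hb (pati_cover back E0 W0 hW I r hr φ hI)).trans (le_of_eq ?_)
    rw [Finset.prod_ite_mem, univ_inter, ← prod_pow_eq_pow_sum]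
    refine prod_congr rfl fun u hu => ?_
    unfold patiF
    rw [if_pos (hI' u hu)]
  by_cases hZ : Z = ∅
  · rw [if_pos hZ]
    have hd3 : ∀ u ∈ I, (rb back u).card + (N u).card ≤ 3 := fun u hu => by
      have := hd' u hu
      rw [hZ, if_neg (notMem_empty u)] at this
      exact this
    have hg0 : 0 ≤ gain back W0 β w0 := by
      unfold gain
      split_ifs <;> positivity
    have hpos : ∀ (φ : U → V) i B, 0 ≤ ∏ u, patiW (rb back) N E0 W0 β I i B u φ := fun φ i B =>
      prod_nonneg fun u _ => pati_W0 _ N E0 W0 β hb0 I i B u φ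
    calc _ ≤ ∑ φ ∈ univ.filter (fun φ : U → V => (univ.filter fun u => φ u ∈ W0) = I ∧
            ¬ Disjoint (gE back φ).toFinset E0),
            ∑ i ∈ I, ∑ B ∈ (N i).powerset, ∏ u, patiW (rb back) N E0 W0 β I i B u φ := by
          refine sum_le_sum fun φ hφ => ?_
          rw [mem_filter] at hφ
          obtain ⟨-, hI, hdis⟩ := hφ
          have hI' : ∀ u ∈ I, φ u ∈ W0 := fun u hu => by
            rw [← hI, mem_filter] at hu
            exact hu.2
          refine (hpt φ hI).trans (pati_split _ N E0 W0 β hb0 I r hN hNI φ hI' ?_)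
          have h1 := pati_cover back E0 W0 hW I r hr φ hI
          have h3 : ((gE back φ).toFinset ∩ E0).card ≠ 0 := by
            rw [card_ne_zero, ← not_disjoint_iff_nonempty_inter]
            exact hdis
          rw [hNdef]
          omega
      _ ≤ ∑ φ : U → V,
            ∑ i ∈ I, ∑ B ∈ (N i).powerset, ∏ u, patiW (rb back) N E0 W0 β I i B u φ :=
          sum_le_sum_of_subset_of_nonneg (filter_subset _ _) fun φ _ _ =>
            sum_nonneg fun i _ => sum_nonneg fun B _ => hpos φ i B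
      _ = ∑ i ∈ I, ∑ B ∈ (N i).powerset,
            ∑ φ : U → V, ∏ u, patiW (rb back) N E0 W0 β I i B u φ := by
          rw [sum_comm]
          exact sum_congr rfl fun i _ => sum_comm
      _ ≤ ∑ i ∈ I, ∑ _B ∈ (N i).powerset,
            (Fintype.card V : ℝ) ^ Fintype.card U * F ^ I.card * gain back W0 β w0 := by
          refine sum_le_sum fun i hi => sum_le_sum fun B hB => ?_
          rw [mem_powerset] at hB
          have hiB : i ∉ B := fun h => lt_irrefl _ (hN i i (hB h))
          refine (pati_first hSEQ (rb back) N E0 W0 hW w0 D0 β F hw hD hD1 hb0 hb1 hF I r hN hd3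
            i hi B (hB.trans (hNI i)) hiB).trans ?_
          exact mul_le_mul_of_nonneg_left
            (pati_gain back h2 W0 w0 β hw0 hb0 hb1 hwb i B.card) (by positivity)
      _ ≤ ∑ _i ∈ I, 8 *
            ((Fintype.card V : ℝ) ^ Fintype.card U * F ^ I.card * gain back W0 β w0) := by
          refine sum_le_sum fun i hi => ?_
          rw [sum_const, card_powerset, nsmul_eq_mul]
          refine mul_le_mul_of_nonneg_right ?_ (by positivity)
          have h3 : (N i).card ≤ 3 := by have := hd3 i hi; omega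
          have h4 : 2 ^ (N i).card ≤ 2 ^ 3 := Nat.pow_le_pow_right (by norm_num) h3
          exact_mod_cast h4
      _ ≤ _ := by
          rw [sum_const, nsmul_eq_mul]
          have h3 : (I.card : ℝ) ≤ Fintype.card U := by exact_mod_cast card_le_univ I
          have h4 : 0 ≤ 8 *
            ((Fintype.card V : ℝ) ^ Fintype.card U * F ^ I.card * gain back W0 β w0) := by
            positivity
          refine (mul_le_mul_of_nonneg_right h3 h4).trans (le_of_eq ?_)
          ring
  · rw [if_neg hZ]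
    refine le_trans ?_ (pati_plain hSEQ (rb back) N E0 W0 w0 D0 β F hw hD hD1 hb0 hb1 hF I r Z hN hd')
    refine le_trans (sum_le_sum fun φ hφ => hpt φ (mem_filter.1 hφ).2.1) ?_
    refine sum_le_sum_of_subset_of_nonneg (filter_subset _ _) fun φ _ _ =>
      prod_nonneg fun u _ => ?_
    split_ifs
    · exact pati_F0 _ N E0 W0 β hb0 u φ
    · exact zero_le_one

end Pool.Agent.P.MP_224820_co.St
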