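import Pool.Agent.P.MP_224820_co.St.IfaceA
import Pool.Agent.P.MP_224820_co.St.Base

/-! Step PHASE. -/

set_option autoImplicit false

namespace Pool.Agent.P.MP_224820_co.St

open Finset

section Order
variable {Ev V : Type} (own : Ev → V) (key : Ev → ℕ)

/-- `w` is the event following `p` -/
def phaseR (p w : Ev) : Prop :=
  own p = own w ∧ key w < key p ∧ ∀ x, own x = own w → key x < key p → key x ≤ key w

variable {own key}

theorem phaseR_fun (hk : Function.Injective key) {p w w' : Ev} (h : phaseR own key p w)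
    (h' : phaseR own key p w') : w = w' := by
  apply hk
  have a := h.2.2 w' (h'.1.symm.trans h.1) h'.2.1
  have b := h'.2.2 w (h.1.symm.trans h'.1) h.2.1
  omega

theorem phaseR_inj (hk : Function.Injective key) {p p' w : Ev} (h : phaseR own key p w)
    (h' : phaseR own key p' w) : p = p' := by
  apply hk
  have a := h.2.2 p' h'.1
  have b := h'.2.2 p h.1
  have c := h.2.1
  have d := h'.2.1
  omega

theorem phaseR_next [Fintype Ev] {p x : Ev} (h1 : own x = own p) (h2 : key x < key p) :
    ∃ w, phaseR own key p w ∧ key x ≤ key w := by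
  classical
  obtain ⟨w, hw, hm⟩ := exists_max_image (univ.filter fun y => own y = own p ∧ key y < key p) key
    ⟨x, by simp [h1, h2]⟩
  simp only [mem_filter, mem_univ, true_and] at hw hm
  exact ⟨w, ⟨hw.1.symm, hw.2, fun y hy hy' => hm y ⟨hy.trans hw.1, hy'⟩⟩, hm x ⟨h1, h2⟩⟩

theorem phaseR_prev [Fintype Ev] {w x : Ev} (h1 : own x = own w) (h2 : key w < key x) :
    ∃ p, phaseR own key p w := by
  classical
  obtain ⟨p, hp, hm⟩ := exists_min_image (univ.filter fun y => own y = own w ∧ key w < key y) key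
    ⟨x, by simp [h1, h2]⟩
  simp only [mem_filter, mem_univ, true_and] at hp hm
  refine ⟨p, hp.1, hp.2, fun y hy hy' => ?_⟩
  by_contra hc
  have := hm y ⟨hy, by omega⟩
  omega

variable (own key)

open Classical in
/-- position of the following event -/
noncomputable def phasePn (pos : Ev → V) (p : Ev) : V :=
  if h : ∃ w, phaseR own key p w then pos h.choose else own p

open Classical in
/-- the preceding event -/
noncomputable def phasePv (w : Ev) : Ev := if h : ∃ p, phaseR own key p w then h.choose else w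

/-- the carry bit -/
def phaseC [Fintype Ev] (A : Ev → Prop) (w : Ev) : Prop :=
  Odd (cnt univ fun x => A x ∧ own x = own w ∧ key w ≤ key x)

variable {own key}

theorem phasePn_of (hk : Function.Injective key) (pos : Ev → V) {p w : Ev}
    (h : phaseR own key p w) : phasePn own key pos p = pos w := by
  have e : ∃ w, phaseR own key p w := ⟨w, h⟩
  rw [phasePn, dif_pos e, phaseR_fun hk e.choose_spec h]

theorem phasePn_last (pos : Ev → V) {p : Ev} (h : ¬ ∃ w, phaseR own key p w) :
    phasePn own key pos p = own p := by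
  rw [phasePn, dif_neg h]

theorem phasePv_of (hk : Function.Injective key) {p w : Ev} (h : phaseR own key p w) :
    phasePv own key w = p := by
  have e : ∃ p, phaseR own key p w := ⟨p, h⟩
  rw [phasePv, dif_pos e, phaseR_inj hk e.choose_spec h]

theorem phase_cnt {ι : Type} (J : Finset ι) (P : ι → Prop) [DecidablePred P] :
    cnt J P = ∑ i ∈ J, if P i then 1 else 0 := by
  rw [cnt_eq, card_filter]

theorem phase_cnt_or {ι : Type} (J : Finset ι) (P Q : ι → Prop) :
    cnt J (fun i => P i ∨ Q i) ≤ cnt J P + cnt J Q := by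
  classical
  rw [cnt_eq, cnt_eq, cnt_eq, filter_or]
  exact card_union_le _ _

theorem phase_cnt_inj {ι κ : Type} [Fintype ι] [Fintype κ] (P : ι → Prop) (Q : κ → Prop) (f : ι → κ)
    (h1 : ∀ i, P i → Q (f i)) (h2 : ∀ i j, P i → P j → f i = f j → i = j) :
    cnt univ P ≤ cnt univ Q := by
  classical
  rw [cnt_eq, cnt_eq]
  refine card_le_card_of_injOn f (fun i hi => ?_) (fun i hi j hj => ?_)
  · simp only [coe_filter, mem_univ, true_and, Set.mem_ofPred_eq] at hi ⊢
    exact h1 i hi
  · simp only [coe_filter, mem_univ, true_and, Set.mem_ofPred_eq] at hi hj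
    exact h2 i j hi hj

theorem phaseC_iff [Fintype Ev] (hk : Function.Injective key) (A : Ev → Prop) (w : Ev) :
    phaseC own key A w ↔ ¬ ((∃ p, phaseR own key p w ∧ phaseC own key A p) ↔ A w) := by
  classical
  by_cases h : ∃ p, phaseR own key p w
  · obtain ⟨p, hp⟩ := h
    have e : (∃ p, phaseR own key p w ∧ phaseC own key A p) ↔ phaseC own key A p :=
      ⟨fun ⟨q, h1, h2⟩ => phaseR_inj hk h1 hp ▸ h2, fun h => ⟨p, hp, h⟩⟩
    rw [e]
    have e2 : cnt univ (fun x => A x ∧ own x = own w ∧ key w ≤ key x)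
        = cnt univ (fun x => A x ∧ own x = own p ∧ key p ≤ key x) + if A w then 1 else 0 := by
      rw [phase_cnt, phase_cnt, ← Finset.sum_ite_eq_of_mem' univ w (fun x => if A x then 1 else 0)
        (mem_univ _), ← sum_add_distrib]
      refine sum_congr rfl fun x _ => ?_
      have k1 := hp.2.1
      by_cases hx : x = w
      · subst hx
        have : ¬ key p ≤ key x := by omega
        simp [this]
      · have k2 : key x ≠ key w := fun h => hx (hk h)
        have k3 := hp.2.2 x
        rw [if_neg hx, add_zero, hp.1]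
        refine if_congr (and_congr_right fun _ => and_congr_right fun ho => ?_) rfl rfl
        have := k3 ho
        omega
    unfold phaseC
    rw [e2]
    by_cases hA : A w <;> simp [hA, Nat.odd_add_one]
  · have e : ¬ ∃ p, phaseR own key p w ∧ phaseC own key A p := fun ⟨p, h1, _⟩ => h ⟨p, h1⟩
    have e2 : cnt univ (fun x => A x ∧ own x = own w ∧ key w ≤ key x) = if A w then 1 else 0 := by
      rw [phase_cnt, ← Finset.sum_ite_eq_of_mem' univ w (fun x => if A x then 1 else 0) (mem_univ _)]
      refine sum_congr rfl fun x _ => ?_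
      by_cases hx : x = w
      · subst hx
        simp
      · have k2 : key x ≠ key w := fun h => hx (hk h)
        rw [if_neg hx, if_neg]
        rintro ⟨_, ho, hl⟩
        exact h (phaseR_prev ho (by omega))
    unfold phaseC at e ⊢
    rw [e2]
    by_cases hA : A w <;> simp [hA, e]

theorem phase_zb {In : Type} [DecidableEq V] (iu iv : In → V) (S : Finset In) :
    Zb iu iv S ↔ ∀ v, ∑ w ∈ S, ((if iu w = v then 1 else 0) + (if iv w = v then 1 else 0) : ZMod 2) = 0 := by
  refine forall_congr' fun v => ?_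
  rw [← ZMod.natCast_eq_zero_iff_even, phase_cnt, phase_cnt, sum_add_distrib]
  push_cast
  rfl

end Order

section Core
variable {V In D : Type} (own pos : In ⊕ D → V) (key : In ⊕ D → ℕ)

/-- sources of the items -/
noncomputable def phaseSrc (x : (In ⊕ D) × Fin 4) : V :=
  ![own x.1, own x.1, phasePn own key pos x.1, phasePn own key pos x.1] x.2

/-- targets of the items -/
noncomputable def phaseTgt (x : (In ⊕ D) × Fin 4) : V :=
  ![phasePn own key pos x.1, phasePn own key pos x.1, pos x.1, pos x.1] x.2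

/-- the default cell -/
def phaseD (w : In ⊕ D) : Multiset (In ⊕ (In ⊕ D) × Fin 4) := {Sum.inr (w, 0)} + {Sum.inr (w, 1)}

open Classical in
/-- the gate for an incoming carry and an active input -/
noncomputable def phaseG0 : In ⊕ D → Multiset (In ⊕ (In ⊕ D) × Fin 4)
  | Sum.inl a => if ∃ p, phaseR own key p (Sum.inl a) then
      {Sum.inr (phasePv own key (Sum.inl a), 1)} + {Sum.inl a} else phaseD (Sum.inl a)
  | Sum.inr x => phaseD (Sum.inr x)

open Classical in
/-- the gate for an incoming carry alone -/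
noncomputable def phaseG1 (w : In ⊕ D) : Multiset (In ⊕ (In ⊕ D) × Fin 4) :=
  if ∃ p, phaseR own key p w then
    {Sum.inr (phasePv own key w, 1)} + {Sum.inr (w, 2)} + {Sum.inr (w, 0)} else phaseD w

/-- the gate for an active input alone -/
def phaseG2 : In ⊕ D → Multiset (In ⊕ (In ⊕ D) × Fin 4)
  | Sum.inl a => {Sum.inl a} + {Sum.inr (Sum.inl a, 2)} + {Sum.inr (Sum.inl a, 0)}
  | Sum.inr x => phaseD (Sum.inr x)

open Classical in
/-- the final cell -/
noncomputable def phaseG5 (w : In ⊕ D) : Multiset (In ⊕ (In ⊕ D) × Fin 4) :=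
  if ∃ x, phaseR own key w x then phaseD w else {Sum.inr (w, 1)}

/-- all cells -/
noncomputable def phaseCell (c : (In ⊕ D) × Fin 6) : Multiset (In ⊕ (In ⊕ D) × Fin 4) :=
  ![phaseG0 own key c.1, phaseG1 own key c.1, phaseG2 c.1, phaseD c.1,
    {Sum.inr (c.1, 2)} + {Sum.inr (c.1, 3)}, phaseG5 own key c.1] c.2

variable {own key}

/-- a principle for all cells -/
theorem phase_cells (hk : Function.Injective key) (P : In ⊕ D → Multiset (In ⊕ (In ⊕ D) × Fin 4) → Prop)
    (hD : ∀ w, P w ({Sum.inr (w, 0)} + {Sum.inr (w, 1)}))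
    (h0 : ∀ p a, phaseR own key p (Sum.inl a) → P (Sum.inl a) ({Sum.inr (p, 1)} + {Sum.inl a}))
    (h1 : ∀ p w, phaseR own key p w → P w ({Sum.inr (p, 1)} + {Sum.inr (w, 2)} + {Sum.inr (w, 0)}))
    (h2 : ∀ a, P (Sum.inl a) ({Sum.inl a} + {Sum.inr (Sum.inl a, 2)} + {Sum.inr (Sum.inl a, 0)}))
    (h4 : ∀ w, P w ({Sum.inr (w, 2)} + {Sum.inr (w, 3)}))
    (h5 : ∀ w, (¬ ∃ x, phaseR own key w x) → P w {Sum.inr (w, 1)})
    (c : (In ⊕ D) × Fin 6) : P c.1 (phaseCell own key c) := by
  obtain ⟨w, j⟩ := c
  fin_cases j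
  · show P w (phaseG0 own key w)
    rcases w with a | x
    · unfold phaseG0
      simp only
      split_ifs with h
      · obtain ⟨p, hp⟩ := h
        rw [phasePv_of hk hp]
        exact h0 p a hp
      · exact hD _
    · exact hD _
  · show P w (phaseG1 own key w)
    unfold phaseG1
    split_ifs with h
    · obtain ⟨p, hp⟩ := h
      rw [phasePv_of hk hp]
      exact h1 p w hp
    · exact hD _
  · show P w (phaseG2 w)
    rcases w with a | x
    · exact h2 a
    · exact hD _
  · exact hD _
  · exact h4 _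
  · show P w (phaseG5 own key w)
    unfold phaseG5
    split_ifs with h
    · exact hD _
    · exact h5 w h

theorem phase_closed (hk : Function.Injective key) (PI : In → Multiset (Sym2 V))
    (PE : (In ⊕ D) × Fin 4 → Multiset (Sym2 V))
    (hI : ∀ a, Wk (own (Sum.inl a)) (pos (Sum.inl a)) 3 (PI a))
    (hE : ∀ i, Wk (phaseSrc own pos key i) (phaseTgt own pos key i) 3 (PE i))
    (c : (In ⊕ D) × Fin 6) :
    ∃ u k, 1 ≤ k ∧ k ≤ 7 ∧ Wk u u (3 * k) ((phaseCell own key c).bind (Sum.elim PI PE)) := by
  have e0 : ∀ w, Wk (own w) (phasePn own key pos w) 3 (PE (w, 0)) := fun w => hE (w, 0)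
  have e1 : ∀ w, Wk (own w) (phasePn own key pos w) 3 (PE (w, 1)) := fun w => hE (w, 1)
  have e2 : ∀ w, Wk (phasePn own key pos w) (pos w) 3 (PE (w, 2)) := fun w => hE (w, 2)
  have e3 : ∀ w, Wk (phasePn own key pos w) (pos w) 3 (PE (w, 3)) := fun w => hE (w, 3)
  refine phase_cells hk
    (fun _ m => ∃ u k, 1 ≤ k ∧ k ≤ 7 ∧ Wk u u (3 * k) (m.bind (Sum.elim PI PE))) ?_ ?_ ?_ ?_ ?_ ?_ c
  all_goals simp only [Multiset.add_bind, Multiset.singleton_bind, Sum.elim_inl, Sum.elim_inr]
  · exact fun w => ⟨_, 2, by norm_num, by norm_num, Wk_append (e0 w) (Wk_rev (e1 w))⟩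
  · intro p a h
    have a1 := e1 p
    rw [phasePn_of hk pos h, h.1] at a1
    exact ⟨_, 2, by norm_num, by norm_num, Wk_append a1 (Wk_rev (hI a))⟩
  · intro p w h
    have a1 := e1 p
    rw [phasePn_of hk pos h, h.1] at a1
    exact ⟨_, 3, by norm_num, by norm_num, Wk_append (Wk_append a1 (Wk_rev (e2 w))) (Wk_rev (e0 w))⟩
  · exact fun a => ⟨_, 3, by norm_num, by norm_num,
      Wk_append (Wk_append (hI a) (Wk_rev (e2 _))) (Wk_rev (e0 _))⟩
  · exact fun w => ⟨_, 2, by norm_num, by norm_num, Wk_append (e2 w) (Wk_rev (e3 w))⟩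
  · intro w h
    have a1 := e1 w
    rw [phasePn_last pos h] at a1
    exact ⟨_, 1, by norm_num, by norm_num, a1⟩

/-- the boundary modulo two, tested against `F` -/
noncomputable def phaseBd (own pos : In ⊕ D → V) (key : In ⊕ D → ℕ) (F : V → ZMod 2) :
    In ⊕ (In ⊕ D) × Fin 4 → ZMod 2 :=
  Sum.elim (fun a => F (own (Sum.inl a)) + F (pos (Sum.inl a)))
    (fun i => F (phaseSrc own pos key i) + F (phaseTgt own pos key i))

theorem phase_bd (hk : Function.Injective key) (F : V → ZMod 2) (c : (In ⊕ D) × Fin 6) :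
    ((phaseCell own key c).map (phaseBd own pos key F)).sum = 0 := by
  have e0 : ∀ w, phaseBd own pos key F (Sum.inr (w, 0)) = F (own w) + F (phasePn own key pos w) :=
    fun _ => rfl
  have e1 : ∀ w, phaseBd own pos key F (Sum.inr (w, 1)) = F (own w) + F (phasePn own key pos w) :=
    fun _ => rfl
  have e2 : ∀ w, phaseBd own pos key F (Sum.inr (w, 2)) = F (phasePn own key pos w) + F (pos w) :=
    fun _ => rfl
  have e3 : ∀ w, phaseBd own pos key F (Sum.inr (w, 3)) = F (phasePn own key pos w) + F (pos w) :=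
    fun _ => rfl
  have e4 : ∀ a, phaseBd own pos key F (Sum.inl a) = F (own (Sum.inl a)) + F (pos (Sum.inl a)) :=
    fun _ => rfl
  have z : ∀ x y z : ZMod 2, x + y + (z + y) + (x + z) = 0 := by decide
  refine phase_cells hk (fun _ m => (m.map (phaseBd own pos key F)).sum = 0) ?_ ?_ ?_ ?_ ?_ ?_ c
  all_goals simp only [Multiset.map_add, Multiset.sum_add, Multiset.map_singleton,
    Multiset.sum_singleton, e0, e1, e2, e3, e4]
  · exact fun w => CharTwo.add_self_eq_zero _
  · intro p a h
    rw [phasePn_of hk pos h, h.1]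
    exact CharTwo.add_self_eq_zero _
  · intro p w h
    rw [phasePn_of hk pos h, h.1]
    exact z _ _ _
  · exact fun a => z _ _ _
  · exact fun w => CharTwo.add_self_eq_zero _
  · intro w h
    rw [phasePn_last pos h]
    exact CharTwo.add_self_eq_zero _

theorem phase_mult [Fintype In] [Fintype D] (hk : Function.Injective key)
    (a : In ⊕ (In ⊕ D) × Fin 4) : cnt univ (fun c => a ∈ phaseCell own key c) ≤ 12 := by
  classical
  let b : In ⊕ D := Sum.elim Sum.inl Prod.fst a
  have h1 : ∀ c : (In ⊕ D) × Fin 6, a ∈ phaseCell own key c → c.1 = b ∨ phaseR own key b c.1 := by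
    intro c
    refine phase_cells hk (fun w m => a ∈ m → w = b ∨ phaseR own key b w) ?_ ?_ ?_ ?_ ?_ ?_ c
    all_goals simp only [Multiset.mem_add, Multiset.mem_singleton]
    · rintro w (rfl | rfl) <;> exact Or.inl rfl
    · rintro p x h (rfl | rfl)
      · exact Or.inr h
      · exact Or.inl rfl
    · rintro p w h ((rfl | rfl) | rfl)
      · exact Or.inr h
      · exact Or.inl rfl
      · exact Or.inl rfl
    · rintro x ((rfl | rfl) | rfl) <;> exact Or.inl rfl
    · rintro w (rfl | rfl) <;> exact Or.inl rfl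
    · rintro w h rfl
      exact Or.inl rfl
  have h2 : cnt univ (fun c : (In ⊕ D) × Fin 6 => c.1 = b) ≤ cnt univ (fun _ : Fin 6 => True) :=
    phase_cnt_inj _ _ Prod.snd (fun _ _ => trivial) fun i j hi hj h => Prod.ext (hi.trans hj.symm) h
  have h3 : cnt univ (fun c : (In ⊕ D) × Fin 6 => phaseR own key b c.1)
      ≤ cnt univ (fun _ : Fin 6 => True) :=
    phase_cnt_inj _ _ Prod.snd (fun _ _ => trivial) fun i j hi hj h => Prod.ext (phaseR_fun hk hi hj) h
  have h4 : cnt univ (fun _ : Fin 6 => True) ≤ 6 := by simpa using cnt_le univ (fun _ : Fin 6 => True)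
  have h5 := phase_cnt_or univ (fun c : (In ⊕ D) × Fin 6 => c.1 = b) (fun c => phaseR own key b c.1)
  have h6 : cnt univ (fun c => a ∈ phaseCell own key c)
      ≤ cnt univ (fun c : (In ⊕ D) × Fin 6 => c.1 = b ∨ phaseR own key b c.1) :=
    cnt_mono fun c _ hc => ⟨mem_univ _, h1 c hc⟩
  omega

theorem phase_load [Fintype In] [Fintype D] {L : ℕ} (v : V)
    (h1 : cnt univ (fun w => own w = v) ≤ L) (h2 : cnt univ (fun w => pos w = v) ≤ L)
    (h3 : cnt univ (fun w => phasePn own key pos w = v) ≤ L) :
    cnt univ (fun i => phaseSrc own pos key i = v ∨ phaseTgt own pos key i = v) ≤ 8 * L := by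
  classical
  have a := phase_cnt_or univ (fun w => own w = v) (fun w => phasePn own key pos w = v)
  have b := phase_cnt_or univ (fun w => phasePn own key pos w = v) (fun w => pos w = v)
  rw [phase_cnt, Fintype.sum_prod_type_right, Fin.sum_univ_four]
  rw [phase_cnt] at a b
  have e0 : ∀ w, (phaseSrc own pos key (w, 0) = v ∨ phaseTgt own pos key (w, 0) = v)
    = (own w = v ∨ phasePn own key pos w = v) := fun _ => rfl
  have e1 : ∀ w, (phaseSrc own pos key (w, 1) = v ∨ phaseTgt own pos key (w, 1) = v)
    = (own w = v ∨ phasePn own key pos w = v) := fun _ => rfl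
  have e2 : ∀ w, (phaseSrc own pos key (w, 2) = v ∨ phaseTgt own pos key (w, 2) = v)
    = (phasePn own key pos w = v ∨ pos w = v) := fun _ => rfl
  have e3 : ∀ w, (phaseSrc own pos key (w, 3) = v ∨ phaseTgt own pos key (w, 3) = v)
    = (phasePn own key pos w = v ∨ pos w = v) := fun _ => rfl
  simp only [e0, e1, e2, e3]
  omega

/-- the chosen cells -/
def phaseCh [Fintype In] [Fintype D] (own : In ⊕ D → V) (key : In ⊕ D → ℕ) (A : In ⊕ D → Prop)
    (c : (In ⊕ D) × Fin 6) : Prop :=
  ![(∃ p, phaseR own key p c.1 ∧ phaseC own key A p) ∧ A c.1,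
    (∃ p, phaseR own key p c.1 ∧ phaseC own key A p) ∧ ¬ A c.1,
    (¬ ∃ p, phaseR own key p c.1 ∧ phaseC own key A p) ∧ A c.1,
    ¬ phaseC own key A c.1, ¬ phaseC own key A c.1,
    phaseC own key A c.1 ∧ ¬ ∃ x, phaseR own key c.1 x] c.2

open Classical in
theorem phase_local [Fintype In] [Fintype D] (hk : Function.Injective key) (S : Finset In)
    (w : In ⊕ D) :
    (∑ j, if phaseCh own key (fun x => ∃ a ∈ S, x = Sum.inl a) (w, j) then phaseCell own key (w, j)
        else 0)
      + (if phaseC own key (fun x => ∃ a ∈ S, x = Sum.inl a) w then {Sum.inr (w, 3)} else 0)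
      + (∑ x, if phaseR own key w x ∧ phaseC own key (fun x => ∃ a ∈ S, x = Sum.inl a) w then
          {Sum.inr (w, 1)} else 0)
    = Sum.elim (fun a => if a ∈ S then {Sum.inl a} else 0) (fun _ => 0) w
      + (∑ j : Fin 4, {Sum.inr (w, j)})
      + (∑ p, if phaseR own key p w ∧ phaseC own key (fun x => ∃ a ∈ S, x = Sum.inl a) p then
          {Sum.inr (p, 1)} else 0) := by
  set A : In ⊕ D → Prop := fun x => ∃ a ∈ S, x = Sum.inl a with hA
  have hc := phaseC_iff (own := own) hk A w
  have s1 : (∑ x, if phaseR own key w x ∧ phaseC own key A w then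
      ({Sum.inr (w, 1)} : Multiset (In ⊕ (In ⊕ D) × Fin 4)) else 0)
      = if (∃ x, phaseR own key w x) ∧ phaseC own key A w then {Sum.inr (w, 1)} else 0 := by
    split_ifs with h
    · obtain ⟨⟨x, hx⟩, h⟩ := h
      rw [sum_eq_single x (fun y _ hy => if_neg fun h' => hy (phaseR_fun hk h'.1 hx)) (by simp),
        if_pos ⟨hx, h⟩]
    · exact sum_eq_zero fun x _ => if_neg fun h' => h ⟨⟨x, h'.1⟩, h'.2⟩
  have s2 : (∑ p, if phaseR own key p w ∧ phaseC own key A p then
      ({Sum.inr (p, 1)} : Multiset (In ⊕ (In ⊕ D) × Fin 4)) else 0)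
      = if ∃ p, phaseR own key p w ∧ phaseC own key A p then {Sum.inr (phasePv own key w, 1)} else 0 := by
    split_ifs with h
    · obtain ⟨p, hp⟩ := h
      rw [sum_eq_single p (fun y _ hy => if_neg fun h' => hy (phaseR_inj hk h'.1 hp.1)) (by simp),
        if_pos hp, phasePv_of hk hp.1]
    · exact sum_eq_zero fun x _ => if_neg fun h' => h ⟨x, h'⟩
  have s3 : Sum.elim (fun a => if a ∈ S then ({Sum.inl a} : Multiset (In ⊕ (In ⊕ D) × Fin 4)) else 0)
      (fun _ => 0) w = if A w then Sum.elim (fun a => {Sum.inl a}) (fun _ => 0) w else 0 := by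
    rcases w with a | x <;> simp [hA]
  rw [s1, s2, s3, Fin.sum_univ_six, Fin.sum_univ_four]
  have c0 : phaseCh own key A (w, 0) = ((∃ p, phaseR own key p w ∧ phaseC own key A p) ∧ A w) := rfl
  have c1 : phaseCh own key A (w, 1) = ((∃ p, phaseR own key p w ∧ phaseC own key A p) ∧ ¬ A w) := rfl
  have c2 : phaseCh own key A (w, 2) = ((¬ ∃ p, phaseR own key p w ∧ phaseC own key A p) ∧ A w) := rfl
  have c3 : phaseCh own key A (w, 3) = ¬ phaseC own key A w := rfl
  have c4 : phaseCh own key A (w, 4) = ¬ phaseC own key A w := rfl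
  have c5 : phaseCh own key A (w, 5) = (phaseC own key A w ∧ ¬ ∃ x, phaseR own key w x) := rfl
  have d0 : phaseCell own key (w, 0) = phaseG0 own key w := rfl
  have d1 : phaseCell own key (w, 1) = phaseG1 own key w := rfl
  have d2 : phaseCell own key (w, 2) = phaseG2 w := rfl
  have d3 : phaseCell own key (w, 3) = {Sum.inr (w, 0)} + {Sum.inr (w, 1)} := rfl
  have d4 : phaseCell own key (w, 4) = {Sum.inr (w, 2)} + {Sum.inr (w, 3)} := rfl
  have d5 : phaseCell own key (w, 5) = phaseG5 own key w := rfl
  simp only [c0, c1, c2, c3, c4, c5, d0, d1, d2, d3, d4, d5]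
  have g5 : (if phaseC own key A w ∧ ¬ ∃ x, phaseR own key w x then phaseG5 own key w else 0)
      + (if (∃ x, phaseR own key w x) ∧ phaseC own key A w then {Sum.inr (w, 1)} else 0)
      = if phaseC own key A w then {Sum.inr (w, 1)} else 0 := by
    unfold phaseG5
    by_cases h1 : phaseC own key A w <;> by_cases h2 : ∃ x, phaseR own key w x <;> simp [h1, h2]
  have key1 : ∀ a b c d e f g h r : Multiset (In ⊕ (In ⊕ D) × Fin 4),
      a + b + c + d + e + g + (f + h) = r → a + b + c + d + e + f + g + h = r := by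
    intro a b c d e f g h r H
    rw [← H]
    abel
  refine key1 _ _ _ _ _ _ _ _ _ ?_
  rw [g5]
  by_cases h1 : ∃ p, phaseR own key p w ∧ phaseC own key A p <;> by_cases h2 : A w
  · have h3 : ¬ phaseC own key A w := by rw [hc]; simp [h1, h2]
    have h4 : ∃ p, phaseR own key p w := let ⟨p, h, _⟩ := h1; ⟨p, h⟩
    simp only [h1, h2, h3, and_self, not_true, not_false_iff, and_false, false_and, if_true, if_false]
    obtain ⟨a, _, rfl⟩ := h2
    simp only [phaseG0, h4, if_true, Sum.elim_inl]
    abel
  · have h3 : phaseC own key A w := by rw [hc]; simp [h1, h2]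
    have h4 : ∃ p, phaseR own key p w := let ⟨p, h, _⟩ := h1; ⟨p, h⟩
    simp only [h1, h2, h3, and_self, not_true, not_false_iff, and_false, if_true, if_false, phaseG1, h4]
    abel
  · have h3 : phaseC own key A w := by rw [hc]; simp only [h1, h2]; simp
    simp only [h1, h2, h3, and_self, not_true, not_false_iff, false_and, if_true, if_false]
    obtain ⟨a, _, rfl⟩ := h2
    simp only [phaseG2, Sum.elim_inl]
    abel
  · have h3 : ¬ phaseC own key A w := by rw [hc]; simp only [h1, h2]; simp
    simp only [h1, h2, h3, and_self, not_false_iff, and_false, false_and, if_true, if_false]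
    abel

open Classical in
theorem phase_cover [Fintype In] [Fintype D] (hk : Function.Injective key) (S : Finset In) :
    ∑ c ∈ univ.filter (phaseCh own key fun x => ∃ a ∈ S, x = Sum.inl a), phaseCell own key c
      + (univ.filter (phaseC own key fun x => ∃ a ∈ S, x = Sum.inl a)).val.map
          (fun o => Sum.inr (o, 3))
      = S.val.map Sum.inl + (univ : Finset ((In ⊕ D) × Fin 4)).val.map Sum.inr := by
  have h := sum_congr (rfl : (univ : Finset (In ⊕ D)) = univ)
    fun w _ => phase_local (own := own) hk S w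
  simp only [sum_add_distrib] at h
  rw [sum_comm (f := fun w p => if phaseR own key p w ∧ phaseC own key _ p then _ else _)] at h
  have h' := add_right_cancel h
  have m : ∀ {ι κ : Type} (J : Finset ι) (f : ι → κ), J.val.map f = ∑ i ∈ J, {f i} := by
    intro ι κ J f
    rw [Finset.sum_eq_multiset_sum, ← Multiset.bind_singleton, Multiset.bind, Multiset.join]
  rw [m, m, m, sum_filter, sum_filter, Fintype.sum_prod_type, Fintype.sum_prod_type, h',
    Fintype.sum_sum_type]
  simp [sum_ite_mem]

theorem phase_core [Fintype In] [Fintype D] (hk : Function.Injective key) {L : ℕ}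
    (h1 : ∀ v, cnt univ (fun w => own w = v) ≤ L) (h2 : ∀ v, cnt univ (fun w => pos w = v) ≤ L)
    (h3 : ∀ v, cnt univ (fun w => phasePn own key pos w = v) ≤ L) :
    HasMod (fun a => own (Sum.inl a)) (fun a => pos (Sum.inl a)) (fun _ => 3)
      (Zb (fun a => own (Sum.inl a)) (fun a => pos (Sum.inl a))) (phasePn own key pos) pos
      (Zb (phasePn own key pos) pos) (8 * L) 12 := by
  classical
  refine ⟨(In ⊕ D) × Fin 4, (In ⊕ D) × Fin 6, inferInstance, inferInstance, phaseSrc own pos key,
    phaseTgt own pos key, fun _ => 3, phaseCell own key, fun o => (o, 3),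
    ⟨fun _ => Or.inl rfl, fun a b h => (Prod.ext_iff.1 h).1, phase_closed pos hk, fun S hS => ?_,
      fun v => phase_load pos v (h1 v) (h2 v) (h3 v), phase_mult hk⟩, fun o => ⟨rfl, rfl, rfl⟩⟩
  refine ⟨_, _, ?_, phase_cover hk S⟩
  rw [phase_zb] at hS ⊢
  intro v
  have h := congrArg
    (fun m => (m.map (phaseBd own pos key fun x => if x = v then 1 else 0)).sum) (phase_cover (own := own) hk S)
  simp only [Multiset.map_add, Multiset.sum_add, Multiset.map_map] at h
  have z1 : ((∑ c ∈ univ.filter (phaseCh own key fun x => ∃ a ∈ S, x = Sum.inl a),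
      phaseCell own key c).map (phaseBd own pos key fun x => if x = v then 1 else 0)).sum = 0 := by
    refine Finset.sum_induction _ (fun m : Multiset (In ⊕ (In ⊕ D) × Fin 4) =>
      (m.map (phaseBd own pos key fun x => if x = v then 1 else 0)).sum = 0) ?_ rfl
      fun c _ => phase_bd pos hk _ c
    intro a b ha hb
    rw [Multiset.map_add, Multiset.sum_add, ha, hb, add_zero]
  have z2 : ((univ : Finset ((In ⊕ D) × Fin 4)).val.map
      ((phaseBd own pos key fun x => if x = v then 1 else 0) ∘ Sum.inr)).sum = 0 := by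
    rw [← Finset.sum_eq_multiset_sum, Fintype.sum_prod_type]
    refine sum_eq_zero fun w _ => ?_
    rw [Fin.sum_univ_four]
    have z : ∀ x y : ZMod 2, x + x + y + y = 0 := by decide
    exact z _ _
  rw [z1, z2, zero_add, add_zero] at h
  exact h.trans (hS v)

end Core

theorem phase_cnt_sum {ι κ : Type} [Fintype ι] [Fintype κ] (P : ι ⊕ κ → Prop) :
    cnt univ P = cnt univ (fun i => P (Sum.inl i)) + cnt univ (fun i => P (Sum.inr i)) := by
  classical
  rw [phase_cnt, phase_cnt, phase_cnt, Fintype.sum_sum_type]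

theorem p_PHASE :
    S_PHASE := by
  classical
  intro n In _ own pos s m d hs hop hld
  let own' : In ⊕ (Fin n × Fin (m + 1)) → Fin n := Sum.elim own Prod.fst
  let pos' : In ⊕ (Fin n × Fin (m + 1)) → Fin n := Sum.elim pos
    fun x => if h : (x.1 : ℕ) + s * x.2 < n then ⟨x.1 + s * x.2, h⟩ else x.1
  let N := Fintype.card (In ⊕ (Fin n × Fin (m + 1)))
  let ix := Fintype.equivFin (In ⊕ (Fin n × Fin (m + 1)))
  let key : In ⊕ (Fin n × Fin (m + 1)) → ℕ := fun w => N * pos' w + ix w
  have hlt : ∀ x w, (pos' x : ℕ) < pos' w → key x < key w := by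
    intro x w h
    have h1 : (ix x : ℕ) < N := (ix x).2
    have h2 : N * (pos' x + 1) ≤ N * pos' w := Nat.mul_le_mul_left _ h
    show N * pos' x + ix x < N * pos' w + ix w
    rw [mul_add] at h2
    omega
  have hle : ∀ x w, key x ≤ key w → (pos' x : ℕ) ≤ pos' w := by
    intro x w h
    by_contra hc
    have := hlt w x (by omega)
    omega
  have hk : Function.Injective key := by
    intro x w h
    have h1 := hle x w h.le
    have h2 := hle w x h.ge
    have h3 : (pos' x : ℕ) = pos' w := by omega
    have h4 : N * pos' x + ix x = N * pos' w + ix w := h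
    rw [h3] at h4
    exact ix.injective (Fin.ext (by omega))
  have hop' : ∀ w, (own' w : ℕ) ≤ pos' w ∧ (pos' w : ℕ) ≤ own' w + s * m := by
    rintro (a | ⟨u, i⟩)
    · exact hop a
    · have h1 : s * i ≤ s * m := Nat.mul_le_mul_left _ (by omega)
      simp only [own', pos', Sum.elim_inr]
      split_ifs with h
      · simp only
        omega
      · omega
  have hpn : ∀ w, (own' w).val ≤ (phasePn own' key pos' w).val ∧
      (phasePn own' key pos' w).val ≤ (pos' w).val := by
    intro w
    by_cases h : ∃ x, phaseR own' key w x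
    · obtain ⟨x, hx⟩ := h
      rw [phasePn_of hk pos' hx, hx.1]
      exact ⟨(hop' x).1, hle _ _ hx.2.1.le⟩
    · rw [phasePn_last pos' h]
      exact ⟨le_rfl, (hop' w).1⟩
  have hnx : ∀ w x, own' x = own' w → key x < key w →
      (pos' x).val ≤ (phasePn own' key pos' w).val := by
    intro w x h1 h2
    obtain ⟨y, hy, hy'⟩ := phaseR_next h1 h2
    rw [phasePn_of hk pos' hy]
    exact hle _ _ hy'
  have hm : cnt univ (fun _ : Fin (m + 1) => True) ≤ m + 1 := by
    simpa using cnt_le univ (fun _ : Fin (m + 1) => True)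
  have hfst : ∀ v, cnt univ (fun x : Fin n × Fin (m + 1) => x.1 = v) ≤ m + 1 := fun v =>
    (phase_cnt_inj _ _ Prod.snd (fun _ _ => trivial)
      fun i j hi hj h => Prod.ext (hi.trans hj.symm) h).trans hm
  have l1 : ∀ v, cnt univ (fun w => own' w = v) ≤ d + 2 * m + 3 := by
    intro v
    rw [phase_cnt_sum]
    have a : cnt univ (fun a => own' (Sum.inl a) = v) ≤ d :=
      (cnt_mono fun a _ h => ⟨mem_univ _, Or.inl h⟩).trans (hld v)
    have b : cnt univ (fun x => own' (Sum.inr x) = v) ≤ m + 1 := hfst v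
    omega
  have l2 : ∀ v, cnt univ (fun w => pos' w = v) ≤ d + 2 * m + 2 := by
    intro v
    rw [phase_cnt_sum]
    have a : cnt univ (fun a => pos' (Sum.inl a) = v) ≤ d :=
      (cnt_mono fun a _ h => ⟨mem_univ _, Or.inr h⟩).trans (hld v)
    have b := hfst v
    have c : cnt univ (fun x : Fin n × Fin (m + 1) => (x.1 : ℕ) + s * x.2 = v) ≤ m + 1 := by
      refine (phase_cnt_inj _ _ Prod.snd (fun _ _ => trivial) fun i j hi hj h => ?_).trans hm
      refine Prod.ext (Fin.ext ?_) h
      rw [h] at hi
      omega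
    have e := phase_cnt_or univ (fun x : Fin n × Fin (m + 1) => x.1 = v)
      (fun x => (x.1 : ℕ) + s * x.2 = v)
    have f : cnt univ (fun x => pos' (Sum.inr x) = v)
        ≤ cnt univ (fun x : Fin n × Fin (m + 1) => x.1 = v ∨ (x.1 : ℕ) + s * x.2 = v) := by
      refine cnt_mono fun x _ h => ⟨mem_univ _, ?_⟩
      simp only [pos', Sum.elim_inr] at h
      split_ifs at h with h'
      · exact Or.inr (congrArg Fin.val h)
      · exact Or.inl h
    omega
  have l3 : ∀ v, cnt univ (fun w => phasePn own' key pos' w = v) ≤ d + 2 * m + 3 := by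
    intro v
    have a : cnt univ (fun w => ∃ x, phaseR own' key w x ∧ pos' x = v)
        ≤ cnt univ (fun w => pos' w = v) := by
      refine phase_cnt_inj _ _
        (fun w => if h : ∃ x, phaseR own' key w x ∧ pos' x = v then h.choose else w)
        (fun w h => ?_) (fun w w' h h' e => ?_)
      · rw [dif_pos h]
        exact h.choose_spec.2
      · rw [dif_pos h, dif_pos h'] at e
        exact phaseR_inj hk h.choose_spec.1 (e ▸ h'.choose_spec.1)
    have b : cnt univ (fun w => (¬ ∃ x, phaseR own' key w x) ∧ own' w = v)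
        ≤ cnt univ (fun _ : Fin 1 => True) := by
      refine phase_cnt_inj _ _ (fun _ => 0) (fun _ _ => trivial) (fun w w' h h' _ => hk ?_)
      by_contra hc
      rcases Nat.lt_or_gt_of_ne hc with c | c
      · obtain ⟨y, hy, _⟩ := phaseR_next (h.2.trans h'.2.symm) c
        exact h'.1 ⟨y, hy⟩
      · obtain ⟨y, hy, _⟩ := phaseR_next (h'.2.trans h.2.symm) c
        exact h.1 ⟨y, hy⟩
    have c : cnt univ (fun _ : Fin 1 => True) ≤ 1 := by simpa using cnt_le univ (fun _ : Fin 1 => True)
    have e := phase_cnt_or univ (fun w => ∃ x, phaseR own' key w x ∧ pos' x = v)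
      (fun w => (¬ ∃ x, phaseR own' key w x) ∧ own' w = v)
    have f : cnt univ (fun w => phasePn own' key pos' w = v) ≤ cnt univ
        (fun w => (∃ x, phaseR own' key w x ∧ pos' x = v) ∨
          ((¬ ∃ x, phaseR own' key w x) ∧ own' w = v)) := by
      refine cnt_mono fun w _ h => ⟨mem_univ _, ?_⟩
      by_cases h' : ∃ x, phaseR own' key w x
      · obtain ⟨x, hx⟩ := h'
        rw [phasePn_of hk pos' hx] at h
        exact Or.inl ⟨x, hx, h⟩
      · rw [phasePn_last pos' h'] at h
        exact Or.inr ⟨h', h⟩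
    have g := l2 v
    omega
  refine ⟨In ⊕ (Fin n × Fin (m + 1)), inferInstance, phasePn own' key pos', pos',
    phase_core pos' hk l1 (fun v => (l2 v).trans (by omega)) l3, fun w => ⟨(hpn w).2, ?_⟩,
    fun v => ?_, fun h o o' e h1 h2 => ?_⟩
  · have a := hpn w
    have b := hop' w
    by_cases h : (pos' w : ℕ) ≤ own' w
    · omega
    · have c := Nat.div_add_mod ((pos' w : ℕ) - own' w - 1) s
      have e := Nat.mod_lt ((pos' w : ℕ) - own' w - 1) hs
      generalize ((pos' w : ℕ) - own' w - 1) / s = i at c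
      have f : i < m + 1 := by
        by_contra hc
        have : s * m ≤ s * i := Nat.mul_le_mul_left _ (by omega)
        omega
      have g : (own' w : ℕ) + s * i < n := by
        have := (pos' w).2
        omega
      have k : (pos' (Sum.inr (own' w, ⟨i, f⟩)) : ℕ) = own' w + s * i := by
        simp only [pos', Sum.elim_inr]
        rw [dif_pos g]
      have := hnx w (Sum.inr (own' w, ⟨i, f⟩)) rfl (hlt _ _ (by omega))
      omega
  · have a := phase_cnt_or univ (fun w => phasePn own' key pos' w = v) (fun w => pos' w = v)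
    have b := l2 v
    have c := l3 v
    omega
  · have a := hpn o
    have a' := hpn o'
    have b := hop' o
    have b' := hop' o'
    have e' := congrArg Fin.val e
    have k1 : (phasePn own' key pos' o).val ≠ (pos' o).val := fun h => h1 (Fin.ext h)
    have k2 : (phasePn own' key pos' o').val ≠ (pos' o').val := fun h => h2 (Fin.ext h)
    have eo : own' o = own' o' := Fin.ext (by omega)
    apply hk
    by_contra hc
    rcases Nat.lt_or_gt_of_ne hc with c | c
    · have := hnx o' o eo c
      omega
    · have := hnx o o' eo.symm c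
      omega

end Pool.Agent.P.MP_224820_co.St
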