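import Pool.Agent.P.MP_224820_co.St.IfaceN

/-! Step RA. -/

set_option autoImplicit false

namespace Pool.Agent.P.MP_224820_co.St

open Finset

theorem ra_prod_ge {ι : Type} (s : Finset ι) (f : ι → ℝ) (h0 : ∀ i, 0 ≤ f i) (h1 : ∀ i, f i ≤ 1) :
    1 - ∑ i ∈ s, f i ≤ ∏ i ∈ s, (1 - f i) := by
  classical
  induction s using Finset.induction_on with
  | empty => simp
  | insert a s ha ih =>
    rw [sum_insert ha, prod_insert ha]
    have h2 : 0 ≤ ∑ i ∈ s, f i := sum_nonneg fun i _ => h0 i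
    have h3 := mul_le_mul_of_nonneg_left ih (sub_nonneg.2 (h1 a))
    nlinarith [mul_nonneg (h0 a) h2]

theorem ra_prod_le {ι : Type} (s : Finset ι) (f : ι → ℝ) (h1 : ∀ i, f i ≤ 1) :
    ∏ i ∈ s, (1 - f i) ≤ Real.exp (-∑ i ∈ s, f i) := by
  rw [← sum_neg_distrib, Real.exp_sum]
  refine prod_le_prod (fun i _ => sub_nonneg.2 (h1 i)) fun i _ => ?_
  linarith [Real.add_one_le_exp (-f i)]

theorem ra_exp {x : ℝ} (h : 0 ≤ x) : Real.exp (-x) ≤ 1 - x + x ^ 2 := by
  have h1 : 1 + x ≤ Real.exp x := by linarith [Real.add_one_le_exp x]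
  have h2 : Real.exp (-x) * Real.exp x = 1 := by rw [← Real.exp_add]; simp
  have h3 := Real.exp_pos (-x)
  have h4 : Real.exp (-x) * (1 + x) ≤ 1 := by nlinarith
  have h5 : 1 ≤ (1 - x + x ^ 2) * (1 + x) := by nlinarith [pow_nonneg h 3]
  exact le_of_mul_le_mul_right (h4.trans h5) (by linarith)

section
variable {V : Type} [Fintype V] [DecidableEq V]

/-- the coordinates that can delete the edge `e` -/
def ra_F (G : Finset (Sym2 V)) (e : Sym2 V) : Finset (Finset V ⊕ Sym2 V) :=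
  insert (Sum.inr e) (((tri G).filter fun t => e ∈ ed t).image Sum.inl)

theorem ra_surv {G : Finset (Sym2 V)} {e : Sym2 V} (he : e ∈ G) (X : Finset (Finset V ⊕ Sym2 V)) :
    e ∈ surv G X ↔ Disjoint (ra_F G e) X := by
  unfold surv ra_F act
  rw [disjoint_insert_left, disjoint_left, mem_filter]
  constructor
  · rintro ⟨-, h1, h2⟩
    refine ⟨h1, fun a ha hX => ?_⟩
    obtain ⟨t, ht, rfl⟩ := mem_image.1 ha
    exact h2 t (mem_filter.2 ⟨(mem_filter.1 ht).1, hX⟩) (mem_filter.1 ht).2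
  · rintro ⟨h1, h2⟩
    refine ⟨he, h1, fun t ht het => ?_⟩
    exact h2 (mem_image.2 ⟨t, mem_filter.2 ⟨(mem_filter.1 ht).1, het⟩, rfl⟩) (mem_filter.1 ht).2

theorem ra_prodF (G : Finset (Sym2 V)) (ω : Finset V → ℝ) (Up δ : ℝ) (e : Sym2 V) :
    ∏ a ∈ ra_F G e, (1 - rp G ω Up δ a)
      = (1 - rk G ω Up δ e) * ∏ t ∈ (tri G).filter (fun t => e ∈ ed t), (1 - rq G ω Up δ t) := by
  unfold ra_F
  rw [prod_insert (by simp), prod_image (fun _ _ _ _ h => Sum.inl_injective h)]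
  rfl

theorem ra_inter {G : Finset (Sym2 V)} (hG : NoLoop G) {u v w : V} (h1 : s(u, v) ∈ G)
    (h2 : s(u, w) ∈ G) (h3 : s(v, w) ∈ G) :
    ra_F G s(u, w) ∩ ra_F G s(v, w) = {Sum.inl {u, v, w}} := by
  have huv := gra_ne hG h1
  have huw := gra_ne hG h2
  have hvw := gra_ne hG h3
  have hne : s(u, w) ≠ s(v, w) := fun h => huv (Sym2.congr_left.1 h)
  have ht := triple_mem_tri hG h1 h2 h3
  have e1 : s(u, w) ∈ ed ({u, v, w} : Finset V) := mk_mem_ed.2 ⟨by simp, by simp, huw⟩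
  have e2 : s(v, w) ∈ ed ({u, v, w} : Finset V) := mk_mem_ed.2 ⟨by simp, by simp, hvw⟩
  ext a
  unfold ra_F
  rw [mem_inter, mem_insert, mem_insert, mem_singleton]
  constructor
  · rintro ⟨ha | ha, hb | hb⟩
    · exact absurd (Sum.inr_injective (ha.symm.trans hb)) hne
    · obtain ⟨t, -, h⟩ := mem_image.1 hb
      exact absurd (h.trans ha) Sum.inl_ne_inr
    · obtain ⟨t, -, h⟩ := mem_image.1 ha
      exact absurd (h.trans hb) Sum.inl_ne_inr
    · obtain ⟨t, k1, rfl⟩ := mem_image.1 ha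
      obtain ⟨t', k2, h⟩ := mem_image.1 hb
      obtain rfl := Sum.inl_injective h
      rw [eq_of_two_edges (mem_tri.1 (mem_filter.1 k1).1).1 (mem_tri.1 ht).1 hne
        (mem_filter.1 k1).2 (mem_filter.1 k2).2 e1 e2]
  · rintro rfl
    exact ⟨Or.inr (mem_image.2 ⟨_, mem_filter.2 ⟨ht, e1⟩, rfl⟩),
      Or.inr (mem_image.2 ⟨_, mem_filter.2 ⟨ht, e2⟩, rfl⟩)⟩

theorem ra_sum {G : Finset (Sym2 V)} (hG : NoLoop G) (ω : Finset V → ℝ) (Up δ : ℝ) {u v : V}
    (he : s(u, v) ∈ G) :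
    ∑ t ∈ (tri G).filter (fun t => s(u, v) ∈ ed t), rq G ω Up δ t = δ * wd ω G u v / Up := by
  have h1 : ∑ t ∈ (tri G).filter (fun t => s(u, v) ∈ ed t), rq G ω Up δ t
      = ∑ t ∈ (tri G).filter (fun t => s(u, v) ∈ ed t), δ * ω t / Up :=
    sum_congr rfl fun t ht => by unfold rq; rw [if_pos (mem_filter.1 ht).1]
  rw [h1, sum_tri_edge hG he (fun t => δ * ω t / Up), wd, mul_sum, sum_div]

end

theorem p_RA :
    S_RA := by
  intro V _ _ G ω W Lo Up δ H
  have hLo := H.lo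
  have hUp : 0 < Up := H.lo.trans_le H.lu
  have hd0 := H.d0
  have hd1 := H.d1
  have hW : 0 ≤ W := (H.w0 ∅).trans (H.wW ∅)
  have hc0 : 0 ≤ δ * W / Up := by positivity
  have q0 : ∀ t, 0 ≤ rq G ω Up δ t := fun t => by
    unfold rq
    split_ifs
    · exact div_nonneg (mul_nonneg hd0.le (H.w0 t)) hUp.le
    · exact le_rfl
  have q1 : ∀ t, rq G ω Up δ t ≤ δ * W / Up := fun t => by
    unfold rq
    split_ifs
    · exact div_le_div_of_nonneg_right (mul_le_mul_of_nonneg_left (H.wW t) hd0.le) hUp.le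
    · exact hc0
  have q2 : ∀ t, rq G ω Up δ t ≤ 1 := fun t => by linarith [q1 t, H.qh]
  have s1 : ∀ e, ∑ t ∈ (tri G).filter (fun t => e ∈ ed t), rq G ω Up δ t ≤ δ := fun e => by
    by_cases he : e ∈ G
    · induction e using Sym2.ind with
      | _ u v =>
        rw [ra_sum H.nl ω Up δ he, div_le_iff₀ hUp]
        exact mul_le_mul_of_nonneg_left (H.deg u v he).2 hd0.le
    · rw [sum_eq_zero fun t ht => absurd ((mem_tri.1 (mem_filter.1 ht).1).2 (mem_filter.1 ht).2) he]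
      exact hd0.le
  have s2 : ∀ e ∈ G, δ * (Lo / Up) ≤ ∑ t ∈ (tri G).filter (fun t => e ∈ ed t), rq G ω Up δ t :=
    fun e he => by
    induction e using Sym2.ind with
    | _ u v =>
      rw [ra_sum H.nl ω Up δ he, mul_div_assoc]
      exact mul_le_mul_of_nonneg_left (div_le_div_of_nonneg_right (H.deg u v he).1 hUp.le) hd0.le
  have r0 : 0 ≤ Lo / Up := by positivity
  have r1 : Lo / Up ≤ 1 := (div_le_one hUp).2 H.lu
  have a1 : ∀ e, 1 - δ ≤ ∏ t ∈ (tri G).filter (fun t => e ∈ ed t), (1 - rq G ω Up δ t) := fun e => by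
    linarith [ra_prod_ge ((tri G).filter (fun t => e ∈ ed t)) _ q0 q2, s1 e]
  have a2 : ∀ e ∈ G, ∏ t ∈ (tri G).filter (fun t => e ∈ ed t), (1 - rq G ω Up δ t)
      ≤ 1 - δ * (Lo / Up) + δ ^ 2 := fun e he => by
    have k1 := ra_prod_le ((tri G).filter (fun t => e ∈ ed t)) _ q2
    have k2 := Real.exp_le_exp.2 (neg_le_neg (s2 e he))
    have k0 : 0 ≤ δ * (Lo / Up) := by positivity
    have k3 := ra_exp k0
    have k4 : δ * (Lo / Up) ≤ δ := by nlinarith
    have k5 : (δ * (Lo / Up)) ^ 2 ≤ δ ^ 2 := pow_le_pow_left₀ k0 k4 2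
    linarith
  have a3 : ∀ e, ∏ t ∈ (tri G).filter (fun t => e ∈ ed t), (1 - rq G ω Up δ t) ≤ 1 := fun e =>
    prod_le_one (fun t _ => sub_nonneg.2 (q2 t)) fun t _ => by linarith [q0 t]
  have kk : ∀ e, 0 ≤ rk G ω Up δ e ∧ rk G ω Up δ e ≤ δ ∧
      rk G ω Up δ e ≤ 2 * (δ * (1 - Lo / Up) + δ ^ 2) := fun e => by
    have z : 0 ≤ δ * (1 - Lo / Up) := mul_nonneg hd0.le (by linarith)
    unfold rk
    split_ifs with he
    · have b1 := a1 e
      have b2 := a2 e he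
      have b3 := a3 e
      generalize ∏ t ∈ (tri G).filter (fun t => e ∈ ed t), (1 - rq G ω Up δ t) = a at b1 b2 b3
      have ha : 0 < a := by linarith
      refine ⟨?_, ?_, ?_⟩
      · have := (div_le_one ha).2 b1
        linarith
      · have : 1 - δ ≤ (1 - δ) / a := by
          rw [le_div_iff₀ ha]
          nlinarith
        linarith
      · have : 1 - 2 * (δ * (1 - Lo / Up) + δ ^ 2) ≤ (1 - δ) / a := by
          rw [le_div_iff₀ ha]
          have z2 : 0 ≤ δ * (1 - Lo / Up) + δ ^ 2 := by positivity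
          have z3 : 0 ≤ (δ * (1 - Lo / Up) + δ ^ 2) * (2 * a - 1) := mul_nonneg z2 (by linarith)
          nlinarith
        linarith
    · exact ⟨le_rfl, hd0.le, by positivity⟩
  have pF : ∀ e ∈ G, ∏ a ∈ ra_F G e, (1 - rp G ω Up δ a) = 1 - δ := fun e he => by
    rw [ra_prodF]
    unfold rk
    rw [if_pos he]
    have b1 := a1 e
    have ha : ∏ t ∈ (tri G).filter (fun t => e ∈ ed t), (1 - rq G ω Up δ t) ≠ 0 := by
      intro h
      rw [h] at b1
      linarith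
    rw [sub_sub_cancel, div_mul_cancel₀ _ ha]
  refine ⟨?_, q1, s1, fun e => (kk e).2, fun e he => ?_, fun u v w h1 h2 h3 => ?_⟩
  · rintro (t | e)
    · exact ⟨q0 t, q2 t⟩
    · exact ⟨(kk e).1, by
        have := (kk e).2.1
        show rk G ω Up δ e ≤ 1
        linarith⟩
  · rw [Pr_congr (ra_surv he), Pr_disjoint, pF e he]
  · have e1 : Pr (rp G ω Up δ) (fun X => s(u, w) ∈ surv G X ∧ s(v, w) ∈ surv G X)
        = ∏ a ∈ ra_F G s(u, w) ∪ ra_F G s(v, w), (1 - rp G ω Up δ a) := by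
      rw [← Pr_disjoint]
      exact Pr_congr fun X => by rw [ra_surv h2, ra_surv h3, disjoint_union_left]
    have e2 := prod_union_inter (s₁ := ra_F G s(u, w)) (s₂ := ra_F G s(v, w))
      (f := fun a => 1 - rp G ω Up δ a)
    rw [pF _ h2, pF _ h3, ra_inter H.nl h1 h2 h3, prod_singleton, ← e1] at e2
    have x0 : 0 ≤ rp G ω Up δ (Sum.inl {u, v, w}) := q0 _
    have x1 : rp G ω Up δ (Sum.inl {u, v, w}) ≤ δ * W / Up := q1 _
    have x2 := H.qh
    generalize rp G ω Up δ (Sum.inl {u, v, w}) = x at e2 x0 x1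
    generalize Pr (rp G ω Up δ) (fun X => s(u, w) ∈ surv G X ∧ s(v, w) ∈ surv G X) = P at e2
    generalize δ * W / Up = c at x1 x2 hc0
    have hx : 0 < 1 - x := by linarith
    have hP : P = (1 - δ) ^ 2 / (1 - x) := by
      rw [eq_div_iff hx.ne', e2, sq]
    have hs : 0 ≤ (1 - δ) ^ 2 := sq_nonneg _
    rw [hP]
    constructor
    · rw [le_div_iff₀ hx]
      nlinarith [mul_nonneg hs x0]
    · rw [div_le_iff₀ hx, mul_assoc]
      have : 1 ≤ (1 + 2 * c) * (1 - x) := by nlinarith [mul_nonneg hc0 (sub_nonneg.2 x2)]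
      nlinarith [mul_le_mul_of_nonneg_left this hs]

end Pool.Agent.P.MP_224820_co.St
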