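import Pool.Agent.P.MP_224820_co.St.IfaceN
import Pool.Agent.P.MP_224820_co.St.IfaceP
import Pool.Agent.P.MP_224820_co.St.BaseB
import Pool.Agent.P.MP_224820_co.St.GrA

/-! Step RB. -/

set_option autoImplicit false

namespace Pool.Agent.P.MP_224820_co.St

open Finset

section
variable {V : Type} [Fintype V] [DecidableEq V]

/-- the coordinates that delete an edge -/
def rbT (G : Finset (Sym2 V)) (a : Finset V ⊕ Sym2 V) (e : Sym2 V) : Prop :=
  Sum.elim (fun t => t ∈ tri G ∧ e ∈ ed t) (fun e' => e' = e) a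

theorem rb_mem {G : Finset (Sym2 V)} {X : Finset (Finset V ⊕ Sym2 V)} {e : Sym2 V} :
    e ∈ surv G X ↔ e ∈ G ∧ ∀ a, rbT G a e → a ∉ X := by
  simp only [surv, act, mem_filter, Sum.forall, rbT, Sum.elim_inl, Sum.elim_inr]
  refine and_congr_right fun _ => ⟨fun h => ⟨fun t ht m => h.2 t ⟨ht.1, m⟩ ht.2, ?_⟩,
    fun h => ⟨h.2 e rfl, fun t ht m => h.1 t ⟨ht.1, m⟩ ht.2⟩⟩
  rintro _ rfl
  exact h.1

theorem rb_tog {G : Finset (Sym2 V)} {R : Finset (Finset V ⊕ Sym2 V)} {a : Finset V ⊕ Sym2 V}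
    {e : Sym2 V} (h : ¬ rbT G a e) : e ∈ surv G (insert a R) ↔ e ∈ surv G (R.erase a) := by
  simp only [rb_mem, mem_insert, mem_erase]
  refine and_congr_right fun _ => forall₂_congr fun b hb => ?_
  have : b ≠ a := fun q => h (q ▸ hb)
  tauto

omit [Fintype V] [DecidableEq V] in
theorem rb_le {C : Finset V} {om : V → ℝ} {W : ℝ} (W0 : 0 ≤ W) (hW : ∀ w, om w ≤ W) (I : V → Prop)
    [DecidablePred I] {K : ℕ} (hK : (C.filter I).card ≤ K) : ∑ w ∈ C, (if I w then om w else 0) ≤ K * W := by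
  rw [← sum_filter]
  refine (sum_le_card_nsmul _ _ W fun w _ => hW w).trans ?_
  rw [nsmul_eq_mul]
  exact mul_le_mul_of_nonneg_right (by exact_mod_cast hK) W0

omit [Fintype V] [DecidableEq V] in
theorem rb_var {β : Type} [Fintype β] {C : Finset V} {om : V → ℝ} {p : β → ℝ} {B D Up : ℝ}
    (B0 : 0 ≤ B) (D0 : 0 ≤ D) (o0 : ∀ w, 0 ≤ om w) (p0 : ∀ b, 0 ≤ p b) (I : β → V → Prop)
    [∀ b w, Decidable (I b w)] (hB : ∀ b, ∑ w ∈ C, (if I b w then om w else 0) ≤ B)
    (hD : ∀ w, ∑ b, (if I b w then p b else 0) ≤ D) (hU : ∑ w ∈ C, om w ≤ Up) :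
    ∑ b, p b * (∑ w ∈ C, if I b w then om w else 0) ^ 2 ≤ B * (D * Up) := by
  have c0 : ∀ b, 0 ≤ ∑ w ∈ C, (if I b w then om w else 0) := fun b =>
    sum_nonneg fun w _ => by split_ifs <;> simp [o0]
  calc _ ≤ ∑ b, B * ∑ w ∈ C, om w * (if I b w then p b else 0) := sum_le_sum fun b _ => by
        have e : ∑ w ∈ C, om w * (if I b w then p b else 0)
            = p b * ∑ w ∈ C, (if I b w then om w else 0) := by
          rw [mul_sum]
          exact sum_congr rfl fun w _ => by split_ifs <;> ring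
        rw [e]
        nlinarith [mul_le_mul_of_nonneg_left (hB b) (mul_nonneg (p0 b) (c0 b))]
    _ = B * ∑ w ∈ C, om w * ∑ b, (if I b w then p b else 0) := by
        rw [← mul_sum, sum_comm]
        simp only [mul_sum]
    _ ≤ B * ∑ w ∈ C, D * om w := mul_le_mul_of_nonneg_left (sum_le_sum fun w _ => by
        rw [mul_comm D]
        exact mul_le_mul_of_nonneg_left (hD w) (o0 w)) B0
    _ ≤ _ := by
        rw [← mul_sum]
        exact mul_le_mul_of_nonneg_left (mul_le_mul_of_nonneg_left hU D0) B0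

theorem rb_or {β : Type} [Fintype β] {p : β → ℝ} (p0 : ∀ b, 0 ≤ p b) (P Q : β → Prop) {d : ℝ}
    [DecidablePred P] [DecidablePred Q]
    (h1 : ∑ b, (if P b then p b else 0) ≤ d) (h2 : ∑ b, (if Q b then p b else 0) ≤ d) :
    ∑ b, (if P b ∨ Q b then p b else 0) ≤ 2 * d := by
  have : ∑ b, (if P b ∨ Q b then p b else 0)
      ≤ ∑ b, ((if P b then p b else 0) + if Q b then p b else 0) := sum_le_sum fun b _ => by
    by_cases a : P b <;> by_cases c : Q b <;> simp [a, c, p0]
  rw [sum_add_distrib] at this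
  linarith

end

theorem p_RB (hRA : S_RA) (hBD : S_BD) :
    S_RB := by
  classical
  intro V _ _ G ω W Lo Up δ h ell dev e1 d0 hv hw u v huv
  obtain ⟨hp, -, h3, h4, -, h6⟩ := hRA V G ω W Lo Up δ h
  have W0 : 0 ≤ W := (h.w0 ∅).trans (h.wW ∅)
  have δ0 := h.d0
  have U0 : 0 < Up := h.lo.trans_le h.lu
  obtain ⟨g1, g2⟩ := h.deg u v huv
  set C := nb G u ∩ nb G v with hC
  let I : Finset V ⊕ Sym2 V → V → Prop := fun a w => rbT G a s(u, w) ∨ rbT G a s(v, w)
  have fe : ∀ X, wd ω (surv G X) u v = ∑ w ∈ C, ω {u, v, w} *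
      (if s(u, w) ∈ surv G X ∧ s(v, w) ∈ surv G X then 1 else 0) := fun X => by
    simp only [mul_ite, mul_one, mul_zero]
    rw [← sum_filter, wd]
    congr 1
    ext w
    simp only [hC, mem_filter, mem_inter, mem_nb]
    exact ⟨fun q => ⟨⟨(rb_mem.1 q.1).1, (rb_mem.1 q.2).1⟩, q⟩, fun q => q.2⟩
  have ex : Ex (rp G ω Up δ) (fun X => wd ω (surv G X) u v) = ∑ w ∈ C, ω {u, v, w} *
      Pr (rp G ω Up δ) (fun X => s(u, w) ∈ surv G X ∧ s(v, w) ∈ surv G X) := by
    rw [Ex_congr fe, Ex_sum]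
    exact sum_congr rfl fun w _ => by rw [Ex_mul, Pr_eq]
  have mC : ∀ w ∈ C, s(u, w) ∈ G ∧ s(v, w) ∈ G := fun w m => by
    simpa only [hC, mem_inter, mem_nb] using m
  have lo : (1 - δ) ^ 2 * Lo ≤ Ex (rp G ω Up δ) (fun X => wd ω (surv G X) u v) := by
    rw [ex]
    refine (mul_le_mul_of_nonneg_left g1 (sq_nonneg _)).trans ?_
    rw [wd, mul_sum]
    exact sum_le_sum fun w m => by
      rw [mul_comm]
      exact mul_le_mul_of_nonneg_left (h6 u v w huv (mC w m).1 (mC w m).2).1 (h.w0 _)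
  have up : Ex (rp G ω Up δ) (fun X => wd ω (surv G X) u v)
      ≤ (1 - δ) ^ 2 * Up * (1 + 2 * (δ * W / Up)) := by
    rw [ex, mul_right_comm]
    refine le_trans ?_ (mul_le_mul_of_nonneg_left g2 (by positivity))
    rw [wd, mul_sum]
    exact sum_le_sum fun w m => by
      rw [mul_comm]
      exact mul_le_mul_of_nonneg_right (h6 u v w huv (mC w m).1 (mC w m).2).2 (h.w0 _)
  have c3 : ∀ t, ∑ w ∈ C, (if I (Sum.inl t) w then ω {u, v, w} else 0) ≤ (3 : ℕ) * W := fun t => by
    refine rb_le W0 (fun _ => h.wW _) _ ?_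
    by_cases ht : t ∈ tri G
    · refine (card_le_card fun w m => ?_).trans (mem_tri.1 ht).1.le
      exact (mem_filter.1 m).2.elim (fun q => (mk_mem_ed.1 q.2).2.1) fun q => (mk_mem_ed.1 q.2).2.1
    · rw [filter_eq_empty_iff.2 fun w _ q => ht (q.elim And.left And.left)]
      simp
  have c2 : ∀ e, ∑ w ∈ C, (if I (Sum.inr e) w then ω {u, v, w} else 0) ≤ (2 : ℕ) * W := fun e => by
    refine rb_le W0 (fun _ => h.wW _) _ ((card_le_card (t := e.toFinset) fun w m => ?_).trans ?_)
    · rw [Sym2.mem_toFinset]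
      rcases (mem_filter.1 m).2 with q | q <;> exact (show e = _ from q) ▸ Sym2.mem_mk_right _ _
    · rw [Sym2.card_toFinset]
      split_ifs <;> simp
  have sq : ∀ e, ∑ t, (if rbT G (Sum.inl t) e then rq G ω Up δ t else 0) ≤ δ := fun e => by
    refine le_trans (le_of_eq ?_) (h3 e)
    rw [← sum_filter]
    congr 1
    ext t
    simp [rbT]
  have sk : ∀ e, ∑ e', (if rbT G (Sum.inr e') e then rk G ω Up δ e' else 0) ≤ δ := fun e => by
    refine le_trans (le_of_eq ?_) (h4 e).1
    exact (sum_eq_single e (fun b _ n => if_neg n) (by simp)).trans (if_pos rfl)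
  obtain ⟨b1, b2⟩ := hBD _ _ hp (fun X => wd ω (surv G X) u v)
    (fun a => ∑ w ∈ C, if I a w then ω {u, v, w} else 0)
    (fun a R => by
      rw [fe, fe, ← sum_sub_distrib]
      refine (abs_sum_le_sum_abs _ _).trans (sum_le_sum fun w _ => ?_)
      have := h.w0 {u, v, w}
      by_cases q : I a w
      · rw [if_pos q, abs_le]
        constructor <;> split_ifs <;> linarith
      · rw [if_neg q]
        simp only [rb_tog fun r => q (Or.inl r), rb_tog fun r => q (Or.inr r), sub_self, abs_zero,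
          le_refl])
    (2 * ell / dev) (10 * δ * W * Up) dev (by positivity)
    (fun a => by
      have : ∑ w ∈ C, (if I a w then ω {u, v, w} else 0) ≤ 3 * W := by
        rcases a with t | e
        · exact_mod_cast c3 t
        · have := c2 e
          push_cast at this
          linarith
      rw [div_mul_eq_mul_div, div_le_one d0]
      nlinarith)
    (by
      rw [Fintype.sum_sum_type]
      have v1 := rb_var (D := 2 * δ) (by positivity) (by positivity) (fun w => h.w0 {u, v, w})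
        (fun t => (hp (Sum.inl t)).1) (fun t => I (Sum.inl t)) c3
        (fun w => rb_or (fun t => (hp (Sum.inl t)).1) _ _ (sq _) (sq _)) g2
      have v2 := rb_var (D := 2 * δ) (by positivity) (by positivity) (fun w => h.w0 {u, v, w})
        (fun t => (hp (Sum.inr t)).1) (fun t => I (Sum.inr t)) c2
        (fun w => rb_or (fun t => (hp (Sum.inr t)).1) _ _ (sk _) (sk _)) g2
      push_cast at v1 v2
      linarith)
  have ee : Real.exp ((2 * ell / dev) ^ 2 * (10 * δ * W * Up) - 2 * ell / dev * dev)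
      ≤ Real.exp (-ell) := by
    rw [Real.exp_le_exp, div_mul_cancel₀ _ d0.ne', div_pow, div_mul_eq_mul_div]
    have : (2 * ell) ^ 2 * (10 * δ * W * Up) / dev ^ 2 ≤ ell := by
      rw [div_le_iff₀ (by positivity)]
      nlinarith
    linarith
  refine (Pr_mono hp fun X q => ?_).trans ((Pr_or_le hp _ _).trans
    ((add_le_add (b1.trans ee) (b2.trans ee)).trans (le_of_eq (two_mul _).symm)))
  by_contra n
  rw [not_or, not_le, not_le] at n
  exact q ⟨by linarith [n.2], by linarith [n.1]⟩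

end Pool.Agent.P.MP_224820_co.St
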