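import Pool.Agent.P.MP_224820_co.St.IfaceN
import Pool.Agent.P.MP_224820_co.St.IfaceP

/-! Step RC. -/

set_option autoImplicit false

namespace Pool.Agent.P.MP_224820_co.St

open Finset

section
variable {V : Type} [Fintype V] [DecidableEq V]

/-- the edges whose survival depends on the coordinate `a` -/
def rc_D (G : Finset (Sym2 V)) (a : Finset V ⊕ Sym2 V) : Finset (Sym2 V) :=
  match a with
  | Sum.inl t => if t ∈ tri G then ed t else ∅
  | Sum.inr e => {e}

theorem rc_mem_surv {G : Finset (Sym2 V)} {X : Finset (Finset V ⊕ Sym2 V)} {e : Sym2 V} :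
    e ∈ surv G X ↔ e ∈ G ∧ ∀ a ∈ X, e ∉ rc_D G a := by
  unfold surv act
  simp only [mem_filter]
  refine and_congr_right fun _ => ⟨fun h a ha => ?_, fun h => ⟨fun h1 => ?_, fun t ht => ?_⟩⟩
  · rcases a with t | f
    · unfold rc_D
      by_cases ht : t ∈ tri G
      · simp only [ht, if_true]
        exact h.2 t ⟨ht, ha⟩
      · simp [ht]
    · unfold rc_D
      simp only [mem_singleton]
      rintro rfl
      exact h.1 ha
  · exact h _ h1 (by simp [rc_D])
  · have := h _ ht.2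
    simpa [rc_D, ht.1] using this

theorem rc_diff (G S : Finset (Sym2 V)) (a : Finset V ⊕ Sym2 V) (R : Finset (Finset V ⊕ Sym2 V)) :
    |((S ∩ surv G (insert a R)).card : ℝ) - (S ∩ surv G (R.erase a)).card|
      ≤ ((S ∩ G ∩ rc_D G a).card : ℝ) := by
  have h1 : S ∩ surv G (insert a R) ⊆ S ∩ surv G (R.erase a) := by
    intro e he
    rw [mem_inter, rc_mem_surv] at he ⊢
    exact ⟨he.1, he.2.1, fun b hb => he.2.2 b (mem_insert_of_mem (mem_of_mem_erase hb))⟩
  have h2 : S ∩ surv G (R.erase a) ⊆ (S ∩ surv G (insert a R)) ∪ (S ∩ G ∩ rc_D G a) := by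
    intro e he
    rw [mem_inter, rc_mem_surv] at he
    by_cases hd : e ∈ rc_D G a
    · exact mem_union_right _ (mem_inter.2 ⟨mem_inter.2 ⟨he.1, he.2.1⟩, hd⟩)
    · refine mem_union_left _ (mem_inter.2 ⟨he.1, rc_mem_surv.2 ⟨he.2.1, fun b hb => ?_⟩⟩)
      by_cases hba : b = a
      · rw [hba]
        exact hd
      · exact he.2.2 b (mem_erase.2 ⟨hba, (mem_insert.1 hb).resolve_left hba⟩)
  have h3 : ((S ∩ surv G (insert a R)).card : ℝ) ≤ (S ∩ surv G (R.erase a)).card := by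
    exact_mod_cast card_le_card h1
  have h4 : ((S ∩ surv G (R.erase a)).card : ℝ)
      ≤ (S ∩ surv G (insert a R)).card + ((S ∩ G ∩ rc_D G a).card : ℝ) := by
    exact_mod_cast (card_le_card h2).trans (card_union_le _ _)
  rw [abs_le]
  constructor <;> linarith [Nat.cast_nonneg (α := ℝ) (S ∩ G ∩ rc_D G a).card]

theorem rc_le3 (G S : Finset (Sym2 V)) (a : Finset V ⊕ Sym2 V) :
    ((S ∩ G ∩ rc_D G a).card : ℝ) ≤ 3 := by
  have h : (rc_D G a).card ≤ 3 := by
    rcases a with t | f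
    · unfold rc_D
      by_cases ht : t ∈ tri G
      · simp only [ht, if_true]
        exact (card_ed (mem_tri.1 ht).1).le
      · simp [ht]
    · simp [rc_D]
  exact_mod_cast (card_le_card inter_subset_right).trans h

theorem rc_card (G S : Finset (Sym2 V)) (X : Finset (Finset V ⊕ Sym2 V)) :
    ((S ∩ surv G X).card : ℝ) = ∑ e ∈ S ∩ G, if e ∈ surv G X then (1 : ℝ) else 0 := by
  rw [sum_boole]
  congr 2
  ext e
  simp only [mem_inter, mem_filter]
  exact ⟨fun h => ⟨⟨h.1, (rc_mem_surv.1 h.2).1⟩, h.2⟩, fun h => ⟨h.1.1, h.2⟩⟩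

theorem rc_var (G S : Finset (Sym2 V)) (q : Finset V → ℝ) (k : Sym2 V → ℝ) (δ : ℝ)
    (hq0 : ∀ t, 0 ≤ q t)
    (hq : ∀ e, ∑ t ∈ (tri G).filter (fun t => e ∈ ed t), q t ≤ δ) (hk : ∀ e, k e ≤ δ) :
    ∑ a, Sum.elim q k a * ((S ∩ G ∩ rc_D G a).card : ℝ) ^ 2 ≤ 4 * δ * (S ∩ G).card := by
  rw [Fintype.sum_sum_type]
  have h1 : ∑ t : Finset V, Sum.elim q k (Sum.inl t) * ((S ∩ G ∩ rc_D G (Sum.inl t)).card : ℝ) ^ 2
      ≤ 3 * δ * (S ∩ G).card := by
    have h2 : ∀ t : Finset V, Sum.elim q k (Sum.inl t) * ((S ∩ G ∩ rc_D G (Sum.inl t)).card : ℝ) ^ 2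
        ≤ 3 * ∑ e ∈ S ∩ G, if t ∈ tri G ∧ e ∈ ed t then q t else 0 := by
      intro t
      have h3 := rc_le3 G S (Sum.inl t)
      have h4 : ∑ e ∈ S ∩ G, (if t ∈ tri G ∧ e ∈ ed t then q t else 0)
          = q t * ((S ∩ G ∩ rc_D G (Sum.inl t)).card : ℝ) := by
        rw [← sum_filter, sum_const, nsmul_eq_mul, mul_comm]
        congr 3
        ext e
        by_cases ht : t ∈ tri G <;> simp [rc_D, ht, and_assoc]
      rw [h4, Sum.elim_inl]
      have h5 := Nat.cast_nonneg (α := ℝ) (S ∩ G ∩ rc_D G (Sum.inl t)).card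
      have h6 := mul_nonneg (hq0 t) h5
      nlinarith
    refine (sum_le_sum fun t _ => h2 t).trans ?_
    rw [← mul_sum, sum_comm, mul_assoc]
    refine mul_le_mul_of_nonneg_left ?_ (by norm_num)
    rw [mul_comm, ← nsmul_eq_mul]
    refine sum_le_card_nsmul _ _ _ fun e _ => le_of_eq_of_le ?_ (hq e)
    rw [← sum_filter]
    congr 1
    ext t
    simp
  have h7 : ∑ e : Sym2 V, Sum.elim q k (Sum.inr e) * ((S ∩ G ∩ rc_D G (Sum.inr e)).card : ℝ) ^ 2
      ≤ δ * (S ∩ G).card := by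
    have h8 : ∀ e : Sym2 V, Sum.elim q k (Sum.inr e) * ((S ∩ G ∩ rc_D G (Sum.inr e)).card : ℝ) ^ 2
        ≤ if e ∈ S ∩ G then δ else 0 := by
      intro e
      by_cases he : e ∈ S ∩ G
      · have : S ∩ G ∩ rc_D G (Sum.inr e) = {e} := by
          unfold rc_D
          exact inter_singleton_of_mem he
        rw [this, if_pos he]
        simpa using hk e
      · have : S ∩ G ∩ rc_D G (Sum.inr e) = ∅ := by
          unfold rc_D
          exact inter_singleton_of_notMem he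
        rw [this, if_neg he]
        simp
    refine (sum_le_sum fun e _ => h8 e).trans (le_of_eq ?_)
    rw [← sum_filter, sum_const, nsmul_eq_mul, mul_comm]
    congr 3
    ext e
    simp
  linarith

end

theorem p_RC (hRA : S_RA) (hBD : S_BD) :
    S_RC := by
  intro V _ _ G ω W Lo Up δ H ell N dev hell h16 h6 S hN
  obtain ⟨hp, -, hq, hk, hs, -⟩ := hRA V G ω W Lo Up δ H
  have hdev : 0 < dev := by linarith
  have hδ := H.d0
  have hEx : Ex (rp G ω Up δ) (fun X => ((S ∩ surv G X).card : ℝ)) = (1 - δ) * (S ∩ G).card := by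
    rw [Ex_congr (rc_card G S), Ex_sum, mul_comm, ← nsmul_eq_mul, ← sum_const]
    refine sum_congr rfl fun e he => ?_
    rw [← Pr_eq]
    exact hs e (mem_inter.1 he).2
  have hvar : ∑ a, rp G ω Up δ a * ((S ∩ G ∩ rc_D G a).card : ℝ) ^ 2 ≤ 4 * δ * N := by
    refine (rc_var G S _ _ δ (fun t => (hp (Sum.inl t)).1) hq fun e => (hk e).1).trans ?_
    exact mul_le_mul_of_nonneg_left hN (by linarith)
  have hlam : ∀ a, 2 * ell / dev * ((S ∩ G ∩ rc_D G a).card : ℝ) ≤ 1 := by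
    intro a
    have h3 := rc_le3 G S a
    have h0 : 0 ≤ 2 * ell / dev := by positivity
    refine (mul_le_mul_of_nonneg_left h3 h0).trans ?_
    rw [div_mul_eq_mul_div, div_le_one hdev]
    linarith
  have hB := (hBD _ (rp G ω Up δ) hp (fun X => ((S ∩ surv G X).card : ℝ))
    (fun a => ((S ∩ G ∩ rc_D G a).card : ℝ)) (fun a R => rc_diff G S a R) (2 * ell / dev) (4 * δ * N) dev
    (by positivity) hlam hvar).1
  refine (Pr_mono hp fun X hX => ?_).trans (hB.trans (Real.exp_le_exp.2 ?_))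
  · rw [hEx]
    linarith [not_le.1 hX]
  · have e1 : 2 * ell / dev * dev = 2 * ell := by field_simp
    have e2 : (2 * ell / dev) ^ 2 * (4 * δ * N) ≤ ell := by
      rw [div_pow, div_mul_eq_mul_div, div_le_iff₀ (by positivity)]
      nlinarith
    linarith

end Pool.Agent.P.MP_224820_co.St
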