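import Pool.Agent.P.MP_224820_co.St.IfaceN
import Pool.Agent.P.MP_224820_co.St.IfaceP

/-! Step RD. -/

set_option autoImplicit false

namespace Pool.Agent.P.MP_224820_co.St

open Finset

theorem rd_sum_biUnion_le {ι β : Type} [DecidableEq β] (J : Finset ι) (s : ι → Finset β) (f : β → ℝ)
    (hf : ∀ b, 0 ≤ f b) : ∑ b ∈ J.biUnion s, f b ≤ ∑ i ∈ J, ∑ b ∈ s i, f b := by
  classical
  induction J using Finset.induction_on with
  | empty => simp
  | insert a J ha ih =>
    rw [biUnion_insert, sum_insert ha]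
    have h1 := sum_union_inter (s₁ := s a) (s₂ := J.biUnion s) (f := f)
    have h2 : 0 ≤ ∑ b ∈ s a ∩ J.biUnion s, f b := sum_nonneg fun b _ => hf b
    linarith

theorem rd_card_biUnion_le {ι β : Type} [DecidableEq β] (J : Finset ι) (s : ι → Finset β) (c : ℝ)
    (h : ∀ i ∈ J, ((s i).card : ℝ) ≤ c) : ((J.biUnion s).card : ℝ) ≤ J.card * c := by
  have h1 : ((J.biUnion s).card : ℝ) ≤ ∑ i ∈ J, ((s i).card : ℝ) := by
    exact_mod_cast card_biUnion_le
  have h2 := sum_le_card_nsmul J (fun i => ((s i).card : ℝ)) c h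
  rw [nsmul_eq_mul] at h2
  linarith

theorem rd_max {ι β : Type} [DecidableEq β] (J : Finset ι) (F : ι → Finset β)
    (hF : ∀ j ∈ J, (F j).Nonempty) :
    ∃ I ⊆ J, (I : Set ι).PairwiseDisjoint F ∧ ∀ j ∈ J, ∃ i ∈ I, ¬ Disjoint (F j) (F i) := by
  classical
  obtain ⟨I, hI, hmax⟩ := exists_max_image
    (J.powerset.filter fun I : Finset ι => (I : Set ι).PairwiseDisjoint F) card
    ⟨∅, by simp⟩
  rw [mem_filter, mem_powerset] at hI
  refine ⟨I, hI.1, hI.2, fun j hj => ?_⟩
  by_contra hc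
  push Not at hc
  have hjI : j ∉ I := fun h => by
    have := hc j h
    rw [disjoint_self] at this
    exact (hF j hj).ne_empty this
  have h2 : ((insert j I : Finset ι) : Set ι).PairwiseDisjoint F := by
    rw [coe_insert]
    exact hI.2.insert fun i hi _ => hc i hi
  have h3 := hmax (insert j I) (by
    rw [mem_filter, mem_powerset]
    exact ⟨insert_subset hj hI.1, h2⟩)
  rw [card_insert_of_notMem hjI] at h3
  omega

theorem p_RD (hRA : S_RA) (hET : S_ET) :
    S_RD := by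
  classical
  intro V _ _ G ω W Lo Up δ hH ell N hell S hS
  obtain ⟨hP, -, h3, -⟩ := hRA V G ω W Lo Up δ hH
  have hq0 : ∀ t, 0 ≤ rq G ω Up δ t := fun t => (hP (Sum.inl t)).1
  have hδ := hH.d0
  have hN : 0 ≤ N := le_trans (Nat.cast_nonneg _) hS
  set A : Finset (Finset V) := (S ∩ G).biUnion fun e => (tri G).filter fun t => e ∈ ed t with hA
  set B : Finset V → Finset (Finset V) :=
    fun t => (ed t).biUnion fun f => (tri G).filter fun t' => f ∈ ed t' with hB
  set J : Finset (Finset V × Finset V) :=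
    (A ×ˢ tri G).filter fun x => x.2 ∈ B x.1 ∧ x.2 ≠ x.1 with hJ
  set F : Finset V × Finset V → Finset (Finset V ⊕ Sym2 V) :=
    fun x => {Sum.inl x.1, Sum.inl x.2} with hF
  have hAt : ∀ t ∈ A, t ∈ tri G := fun t ht => by
    obtain ⟨e, -, he⟩ := mem_biUnion.1 ht
    exact (mem_filter.1 he).1
  have hAs : ∑ t ∈ A, rq G ω Up δ t ≤ N * δ := by
    refine (rd_sum_biUnion_le _ _ _ hq0).trans ?_
    have := sum_le_card_nsmul (S ∩ G) _ δ (fun e _ => h3 e)
    rw [nsmul_eq_mul] at this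
    nlinarith
  have hBs : ∀ t ∈ A, ∑ t' ∈ B t, rq G ω Up δ t' ≤ 3 * δ := fun t ht => by
    refine (rd_sum_biUnion_le _ _ _ hq0).trans ?_
    have := sum_le_card_nsmul (ed t) _ δ (fun e _ => h3 e)
    rw [nsmul_eq_mul, card_ed (mem_tri.1 (hAt t ht)).1] at this
    exact_mod_cast this
  have hμ : ∑ i ∈ J, ∏ a ∈ F i, rp G ω Up δ a ≤ 3 * δ ^ 2 * N := by
    have e1 : ∑ i ∈ J, ∏ a ∈ F i, rp G ω Up δ a
        = ∑ i ∈ J, rq G ω Up δ i.1 * rq G ω Up δ i.2 := by
      refine sum_congr rfl fun i hi => ?_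
      have hne : (Sum.inl i.1 : Finset V ⊕ Sym2 V) ≠ Sum.inl i.2 := fun h =>
        (mem_filter.1 hi).2.2 (Sum.inl_injective h).symm
      rw [hF]
      simp only
      rw [prod_pair hne]
      rfl
    rw [e1, hJ, sum_filter, sum_product]
    have e2 : ∀ t ∈ A, (∑ t' ∈ tri G, if t' ∈ B t ∧ t' ≠ t then
        rq G ω Up δ t * rq G ω Up δ t' else 0) ≤ rq G ω Up δ t * (3 * δ) := fun t ht => by
      rw [← sum_filter, ← mul_sum]
      refine mul_le_mul_of_nonneg_left (le_trans ?_ (hBs t ht)) (hq0 t)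
      exact sum_le_sum_of_subset_of_nonneg (fun t' h => (mem_filter.1 h).2.1) fun _ _ _ => hq0 _
    refine (sum_le_sum e2).trans ?_
    rw [← sum_mul]
    nlinarith
  have hE := hET _ _ (rp G ω Up δ) hP J F ⌈9 * δ ^ 2 * N + ell⌉₊ _ hμ
  refine le_trans (Pr_mono hP ?_) (hE.trans ?_)
  · rintro X ⟨hX, hbad⟩
    obtain ⟨I, hIJ, hId, hmax⟩ := rd_max (J.filter fun i => F i ⊆ X) F
      (fun j _ => by rw [hF]; exact insert_nonempty _ _)
    refine ⟨I, hIJ.trans (filter_subset _ _), ?_, hId, fun i hi => (mem_filter.1 (hIJ hi)).2⟩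
    by_contra hk
    push Not at hk
    rw [Nat.lt_ceil] at hk
    apply hbad
    set Z : Finset (Finset V) := I.image Prod.fst ∪ I.image Prod.snd with hZ
    have hZc : (Z.card : ℝ) ≤ 2 * I.card := by
      have h1 := card_union_le (I.image Prod.fst) (I.image Prod.snd)
      have h2 := card_image_le (s := I) (f := Prod.fst)
      have h4 := card_image_le (s := I) (f := Prod.snd)
      have : Z.card ≤ 2 * I.card := by rw [hZ]; omega
      exact_mod_cast this
    have hZt : ∀ z ∈ Z, z.card = 3 := fun z hz => by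
      rcases mem_union.1 hz with h | h
      · obtain ⟨i, hi, rfl⟩ := mem_image.1 h
        exact (mem_tri.1 (hAt _ (mem_product.1 (mem_filter.1 (mem_filter.1 (hIJ hi)).1).1).1)).1
      · obtain ⟨i, hi, rfl⟩ := mem_image.1 h
        exact (mem_tri.1 (mem_product.1 (mem_filter.1 (mem_filter.1 (hIJ hi)).1).1).2).1
    have hsub : S ∩ conf G X ⊆ Z.biUnion fun z => (ed z).biUnion fun f =>
        ((act G X).filter fun t => f ∈ ed t).biUnion ed := by
      intro e he
      obtain ⟨heS, hec⟩ := mem_inter.1 he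
      obtain ⟨heG, t, ht, het, t', ht', hne, hnd⟩ := mem_filter.1 hec
      obtain ⟨f, hf1, hf2⟩ := not_disjoint_iff.1 hnd
      have htt := (mem_filter.1 ht).1
      have htt' := (mem_filter.1 ht').1
      have hj : (t, t') ∈ J.filter fun i => F i ⊆ X := by
        refine mem_filter.2 ⟨mem_filter.2 ⟨mem_product.2 ⟨?_, htt'⟩, ?_, hne⟩, ?_⟩
        · exact mem_biUnion.2 ⟨e, mem_inter.2 ⟨heS, heG⟩, mem_filter.2 ⟨htt, het⟩⟩
        · exact mem_biUnion.2 ⟨f, hf1, mem_filter.2 ⟨htt', hf2⟩⟩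
        · exact insert_subset (mem_filter.1 ht).2 (singleton_subset_iff.2 (mem_filter.1 ht').2)
      obtain ⟨i, hi, hnd'⟩ := hmax _ hj
      obtain ⟨a, ha1, ha2⟩ := not_disjoint_iff.1 hnd'
      have h1 : i.1 ∈ Z := mem_union_left _ (mem_image_of_mem _ hi)
      have h2 : i.2 ∈ Z := mem_union_right _ (mem_image_of_mem _ hi)
      have hor : t ∈ Z ∨ t' ∈ Z := by
        simp only [hF, mem_insert, mem_singleton] at ha1 ha2
        rcases ha1 with rfl | rfl <;> rcases ha2 with h | h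
        · left; rw [Sum.inl_injective h]; exact h1
        · left; rw [Sum.inl_injective h]; exact h2
        · right; rw [Sum.inl_injective h]; exact h1
        · right; rw [Sum.inl_injective h]; exact h2
      rcases hor with h | h
      · exact mem_biUnion.2 ⟨t, h, mem_biUnion.2 ⟨e, het, mem_biUnion.2
          ⟨t, mem_filter.2 ⟨ht, het⟩, het⟩⟩⟩
      · exact mem_biUnion.2 ⟨t', h, mem_biUnion.2 ⟨f, hf2, mem_biUnion.2
          ⟨t, mem_filter.2 ⟨ht, hf1⟩, het⟩⟩⟩
    have hc1 : ∀ f, ((((act G X).filter fun t => f ∈ ed t).biUnion ed).card : ℝ) ≤ 2 * ell * 3 :=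
      fun f => by
        refine (rd_card_biUnion_le _ _ 3 fun t ht => ?_).trans ?_
        · rw [card_ed (mem_tri.1 (mem_filter.1 (mem_filter.1 ht).1).1).1]; norm_num
        · have := hX f
          linarith
    have hc2 : ∀ z ∈ Z, (((ed z).biUnion fun f =>
        ((act G X).filter fun t => f ∈ ed t).biUnion ed).card : ℝ) ≤ 3 * (2 * ell * 3) :=
      fun z hz => by
        refine (rd_card_biUnion_le _ _ _ fun f _ => hc1 f).trans ?_
        rw [card_ed (hZt z hz)]; norm_num
    have hc3 := rd_card_biUnion_le _ _ _ hc2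
    have hc4 : ((S ∩ conf G X).card : ℝ) ≤ _ := Nat.cast_le.2 (card_le_card hsub)
    have hI0 : (0 : ℝ) ≤ I.card := Nat.cast_nonneg _
    nlinarith
  · refine Real.exp_le_exp.2 ?_
    have := Nat.le_ceil (9 * δ ^ 2 * N + ell)
    linarith

end Pool.Agent.P.MP_224820_co.St
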