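import Pool.Agent.P.MP_224820_co.St.IfaceN
import Pool.Agent.P.MP_224820_co.St.IfaceP

/-! Step ROUND. -/

set_option autoImplicit false

namespace Pool.Agent.P.MP_224820_co.St

open Finset

theorem round_left {α β : Type} [Fintype α] [DecidableEq α] [Fintype β] [DecidableEq β]
    (p : α → ℝ) (q : β → ℝ) (E : Finset α → Prop) :
    Pr p E = Pr (Sum.elim p q) (fun X => E X.toLeft) := by
  classical
  rw [Pr_eq, Pr_eq, Ex_disjSum]
  refine Ex_congr fun R => ?_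
  simp only [toLeft_disjSum]
  rw [Ex_const]

theorem round_card_inl {α β : Type} [DecidableEq α] [DecidableEq β] (F : Finset α)
    (X : Finset (α ⊕ β)) :
    (F.map Function.Embedding.inl ∩ X).card = (F.filter fun a => Sum.inl a ∈ X).card := by
  rw [← card_map (s := F.filter fun a => Sum.inl a ∈ X) (Function.Embedding.inl (β := β))]
  congr 1
  ext x
  simp only [mem_inter, mem_map, mem_filter, Function.Embedding.inl_apply]
  constructor
  · rintro ⟨⟨a, ha, rfl⟩, hx⟩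
    exact ⟨a, ⟨ha, hx⟩, rfl⟩
  · rintro ⟨a, ⟨ha, hx⟩, rfl⟩
    exact ⟨⟨a, ha, rfl⟩, hx⟩

theorem round_card_inr {α β : Type} [DecidableEq α] [DecidableEq β] (F : Finset β)
    (X : Finset (α ⊕ β)) :
    (F.map Function.Embedding.inr ∩ X).card = (F.filter fun a => Sum.inr a ∈ X).card := by
  rw [← card_map (s := F.filter fun a => Sum.inr a ∈ X) (Function.Embedding.inr (α := α))]
  congr 1
  ext x
  simp only [mem_inter, mem_map, mem_filter, Function.Embedding.inr_apply]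
  constructor
  · rintro ⟨⟨a, ha, rfl⟩, hx⟩
    exact ⟨a, ⟨ha, hx⟩, rfl⟩
  · rintro ⟨a, ⟨ha, hx⟩, rfl⟩
    exact ⟨⟨a, ha, rfl⟩, hx⟩

/-- the deterministic part -/
theorem round_det {V : Type} [Fintype V] [DecidableEq V] (G : Finset (Sym2 V))
    (X : Finset (Finset V ⊕ Sym2 V)) :
    ∃ Wa ⊆ G, Dec X.toLeft (G \ (surv G X ∪ Wa)) ∧ Disjoint (surv G X) Wa ∧
      ∀ S : Finset (Sym2 V), (S ∩ Wa).card ≤
        ((S ∩ G).filter fun e => Sum.inr e ∈ X).card + (S ∩ conf G X).card := by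
  classical
  set K := (act G X).filter fun t => ∀ t' ∈ act G X, t' ≠ t → Disjoint (ed t) (ed t') with hK
  have hKa : ∀ t ∈ K, t ∈ act G X := fun t ht => (mem_filter.1 ht).1
  have hKt : ∀ t ∈ K, t.card = 3 ∧ ed t ⊆ G := fun t ht =>
    mem_tri.1 (mem_filter.1 (hKa t ht)).1
  refine ⟨G \ (surv G X ∪ K.biUnion ed), sdiff_subset, ?_, ?_, ?_⟩
  · have : G \ (surv G X ∪ G \ (surv G X ∪ K.biUnion ed)) = K.biUnion ed := by
      ext e
      simp only [mem_sdiff, mem_union, not_or, not_and, not_not]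
      constructor
      · rintro ⟨h1, h2, h3⟩
        exact h3 h1 h2
      · intro h
        obtain ⟨t, ht, he⟩ := mem_biUnion.1 h
        refine ⟨(hKt t ht).2 he, fun hs => ?_, fun _ _ => h⟩
        exact (mem_filter.1 hs).2.2 t (hKa t ht) he
    rw [this]
    refine Dec_biUnion (fun t ht => ?_) (fun t ht => (hKt t ht).1) (fun t ht t' ht' hne => ?_)
    · exact mem_toLeft.2 (mem_filter.1 (hKa t ht)).2
    · exact (mem_filter.1 ht).2 t' (hKa t' ht') hne.symm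
  · rw [disjoint_left]
    intro e he h
    exact (mem_sdiff.1 h).2 (mem_union_left _ he)
  · intro S
    refine le_trans (card_le_card ?_) (card_union_le _ _)
    intro e he
    obtain ⟨hS, he⟩ := mem_inter.1 he
    obtain ⟨hG, he⟩ := mem_sdiff.1 he
    rw [mem_union, not_or] at he
    by_cases hx : Sum.inr e ∈ X
    · exact mem_union_left _ (mem_filter.2 ⟨mem_inter.2 ⟨hS, hG⟩, hx⟩)
    · refine mem_union_right _ (mem_inter.2 ⟨hS, mem_filter.2 ⟨hG, ?_⟩⟩)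
      have h1 : ∃ t ∈ act G X, e ∈ ed t := by
        by_contra hc
        push Not at hc
        exact he.1 (mem_filter.2 ⟨hG, hx, hc⟩)
      obtain ⟨t, ht, het⟩ := h1
      refine ⟨t, ht, het, ?_⟩
      by_contra hc
      push Not at hc
      exact he.2 (mem_biUnion.2 ⟨t, mem_filter.2 ⟨ht, hc⟩, het⟩)

theorem p_ROUND (hRA : S_RA) (hRB : S_RB) (hRC : S_RC) (hRD : S_RD) (hCH1 : S_CH1) (hMONO : S_MONO) :
    S_ROUND := by
  intro V _ _ G ω W Lo Up δ hR ell N dev devS hell hdev h40 h6 h16 h6S 𝒮 h𝒮 p hp hpq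
  classical
  obtain ⟨hP, hq, hsum, hk, -, -⟩ := hRA V G ω W Lo Up δ hR
  have hPq : IsP (rq G ω Up δ) := fun t => hP (Sum.inl t)
  have he1 : Real.exp 1 - 1 ≤ 2 := by
    have := Real.exp_one_lt_d9
    linarith
  have he0 : 0 ≤ Real.exp 1 - 1 := by
    have := Real.add_one_le_exp 1
    linarith
  have hd0 := hR.d0
  have hd1 := hR.d1
  have hUp : 0 < Up := lt_of_lt_of_le hR.lo hR.lu
  have hLU : 0 ≤ 1 - Lo / Up := by
    have := (div_le_one hUp).2 hR.lu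
    linarith
  set kb : ℝ := 2 * (δ * (1 - Lo / Up) + δ ^ 2) with hkb
  have hkb0 : 0 ≤ kb := by positivity
  have hex : 0 < Real.exp (-ell) := Real.exp_pos _
  refine le_trans (hMONO _ (rq G ω Up δ) p hPq hp (fun t => ?_) _ ?_) ?_
  · by_cases ht : t ∈ tri G
    · exact le_trans (hq t) (hpq t ht)
    · rw [rq, if_neg ht]
      exact (hp t).1
  · rintro T T' hT ⟨G', h1, Wa, h2, h3, h4⟩
    exact ⟨G', h1, Wa, h2, Dec_mono hT h3, h4⟩
  rw [round_left (rq G ω Up δ) (rk G ω Up δ)]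
  change Pr (rp G ω Up δ) _ ≤ _
  -- the five bad events
  let J : Finset (V × V) := univ.filter fun x => s(x.1, x.2) ∈ G
  let B1 : V × V → Finset (Finset V ⊕ Sym2 V) → Prop := fun x X =>
    ¬ ((1 - δ) ^ 2 * Lo - dev ≤ wd ω (surv G X) x.1 x.2 ∧
      wd ω (surv G X) x.1 x.2 ≤ (1 - δ) ^ 2 * Up * (1 + 2 * (δ * W / Up)) + dev)
  let B2 : Finset (Sym2 V) → Finset (Finset V ⊕ Sym2 V) → Prop := fun S X =>
    ¬ (((S ∩ surv G X).card : ℝ) ≤ (1 - δ) * (S ∩ G).card + devS)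
  let B3 : Finset (Sym2 V) → Finset (Finset V ⊕ Sym2 V) → Prop := fun S X =>
    (∀ e, (((act G X).filter fun t => e ∈ ed t).card : ℝ) ≤ 2 * ell) ∧
      ¬ (((S ∩ conf G X).card : ℝ) ≤ 42 * ell * (9 * δ ^ 2 * N + ell))
  let B4 : Sym2 V → Finset (Finset V ⊕ Sym2 V) → Prop := fun e X =>
    ell + 1 ≤ (((((tri G).filter fun t => e ∈ ed t).map Function.Embedding.inl) ∩ X).card : ℝ)
  let B5 : Finset (Sym2 V) → Finset (Finset V ⊕ Sym2 V) → Prop := fun S X =>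
    2 * (N * kb) + ell ≤ ((((S ∩ G).map Function.Embedding.inr) ∩ X).card : ℝ)
  have p1 : Pr (rp G ω Up δ) (fun X => ∃ x ∈ J, B1 x X)
      ≤ (Fintype.card V : ℝ) ^ 2 * (2 * Real.exp (-ell)) := by
    refine le_trans (Pr_exists_le' hP J B1 (δ := 2 * Real.exp (-ell)) fun x hx => ?_) ?_
    · exact hRB V G ω W Lo Up δ hR ell dev hell hdev h40 h6 x.1 x.2 (mem_filter.1 hx).2
    · refine mul_le_mul_of_nonneg_right ?_ (by positivity)
      have : J.card ≤ Fintype.card V ^ 2 := by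
        refine le_trans (card_le_univ J) ?_
        rw [Fintype.card_prod, sq]
      exact_mod_cast this
  have p2 : Pr (rp G ω Up δ) (fun X => ∃ S ∈ 𝒮, B2 S X) ≤ 𝒮.card * Real.exp (-ell) :=
    Pr_exists_le' hP 𝒮 B2 fun S hS =>
      hRC V G ω W Lo Up δ hR ell N devS hell h16 h6S S (h𝒮 S hS)
  have p3 : Pr (rp G ω Up δ) (fun X => ∃ S ∈ 𝒮, B3 S X) ≤ 𝒮.card * Real.exp (-ell) :=
    Pr_exists_le' hP 𝒮 B3 fun S hS => hRD V G ω W Lo Up δ hR ell N hell S (h𝒮 S hS)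
  have p4 : Pr (rp G ω Up δ) (fun X => ∃ e ∈ (univ : Finset (Sym2 V)), B4 e X)
      ≤ (Fintype.card V : ℝ) ^ 2 * Real.exp (-ell) := by
    refine le_trans (Pr_exists_le' hP univ B4 (δ := Real.exp (-ell)) fun e _ => ?_) ?_
    · refine le_trans ((hCH1 _ (rp G ω Up δ) hP _ 1 δ (ell + 1) zero_le_one).1 ?_) ?_
      · rw [sum_map]
        exact hsum e
      · refine Real.exp_le_exp.2 ?_
        nlinarith
    · refine mul_le_mul_of_nonneg_right ?_ hex.le
      exact_mod_cast card_sym2_le (univ : Finset (Sym2 V))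
  have p5 : Pr (rp G ω Up δ) (fun X => ∃ S ∈ 𝒮, B5 S X) ≤ 𝒮.card * Real.exp (-ell) := by
    refine Pr_exists_le' hP 𝒮 B5 fun S hS => ?_
    have hN : 0 ≤ N := le_trans (Nat.cast_nonneg _) (h𝒮 S hS)
    refine le_trans ((hCH1 _ (rp G ω Up δ) hP _ 1 (N * kb) (2 * (N * kb) + ell) zero_le_one).1 ?_) ?_
    · rw [sum_map]
      refine le_trans (sum_le_card_nsmul _ _ kb fun e _ => (hk e).2) ?_
      rw [nsmul_eq_mul]
      exact mul_le_mul_of_nonneg_right (h𝒮 S hS) hkb0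
    · refine Real.exp_le_exp.2 ?_
      have : 0 ≤ N * kb := mul_nonneg hN hkb0
      nlinarith
  refine le_trans (Pr_mono hP (E' := fun X => (∃ x ∈ J, B1 x X) ∨ (∃ S ∈ 𝒮, B2 S X) ∨
    (∃ S ∈ 𝒮, B3 S X) ∨ (∃ e ∈ (univ : Finset (Sym2 V)), B4 e X) ∨ (∃ S ∈ 𝒮, B5 S X))
    fun X hX => ?_) ?_
  · by_contra hc
    rw [not_or, not_or, not_or, not_or] at hc
    obtain ⟨c1, c2, c3, c4, c5⟩ := hc
    obtain ⟨Wa, hWa, hD, hdis, hc⟩ := round_det G X
    have hs : surv G X ⊆ G := filter_subset _ _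
    refine hX ⟨surv G X, hs, Wa, hWa, hD, hdis, fun u v huv => ?_, fun S hS => ⟨?_, ?_⟩⟩
    · by_contra h
      exact c1 ⟨(u, v), mem_filter.2 ⟨mem_univ _, hs huv⟩, h⟩
    · by_contra h
      exact c2 ⟨S, hS, h⟩
    · have hN : 0 ≤ N := le_trans (Nat.cast_nonneg _) (h𝒮 S hS)
      have a4 : ∀ e, (((act G X).filter fun t => e ∈ ed t).card : ℝ) ≤ 2 * ell := by
        intro e
        have h : ¬ B4 e X := fun h => c4 ⟨e, mem_univ _, h⟩
        have h' := lt_of_not_ge h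
        rw [round_card_inl, filter_comm] at h'
        have h'' : (((act G X).filter fun t => e ∈ ed t).card : ℝ) < ell + 1 := h'
        linarith
      have a3 : ((S ∩ conf G X).card : ℝ) ≤ 42 * ell * (9 * δ ^ 2 * N + ell) := by
        by_contra h
        exact c3 ⟨S, hS, a4, h⟩
      have a5 : ((((S ∩ G).filter fun e => Sum.inr e ∈ X).card : ℕ) : ℝ) < 2 * (N * kb) + ell := by
        have h : ¬ B5 S X := fun h => c5 ⟨S, hS, h⟩
        have h' := lt_of_not_ge h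
        rwa [round_card_inr] at h'
      have a6 : ((S ∩ Wa).card : ℝ) ≤
          (((S ∩ G).filter fun e => Sum.inr e ∈ X).card : ℝ) + ((S ∩ conf G X).card : ℝ) := by
        exact_mod_cast hc S
      have a7 : 0 ≤ δ ^ 2 * N := by positivity
      have a8 : δ ^ 2 * N ≤ ell * (δ ^ 2 * N) := le_mul_of_one_le_left a7 hell
      have a9 : ell ≤ ell ^ 2 := by nlinarith
      rw [hkb] at a5
      nlinarith
  · have o1 := Pr_or_le hP (fun X => ∃ x ∈ J, B1 x X) (fun X => (∃ S ∈ 𝒮, B2 S X) ∨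
      (∃ S ∈ 𝒮, B3 S X) ∨ (∃ e ∈ (univ : Finset (Sym2 V)), B4 e X) ∨ (∃ S ∈ 𝒮, B5 S X))
    have o2 := Pr_or_le hP (fun X => ∃ S ∈ 𝒮, B2 S X) (fun X =>
      (∃ S ∈ 𝒮, B3 S X) ∨ (∃ e ∈ (univ : Finset (Sym2 V)), B4 e X) ∨ (∃ S ∈ 𝒮, B5 S X))
    have o3 := Pr_or_le hP (fun X => ∃ S ∈ 𝒮, B3 S X) (fun X =>
      (∃ e ∈ (univ : Finset (Sym2 V)), B4 e X) ∨ (∃ S ∈ 𝒮, B5 S X))
    have o4 := Pr_or_le hP (fun X => ∃ e ∈ (univ : Finset (Sym2 V)), B4 e X)
      (fun X => ∃ S ∈ 𝒮, B5 S X)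
    have o5 : 0 ≤ (𝒮.card : ℝ) * Real.exp (-ell) := by positivity
    nlinarith

end Pool.Agent.P.MP_224820_co.St
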