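import Pool.Agent.P.MP_224820_co.St.IfaceA

/-! Step SEQ. -/

set_option autoImplicit false

namespace Pool.Agent.P.MP_224820_co.St

open Finset

lemma seq_update {V U : Type} [Fintype V] [Fintype U] [DecidableEq U] (F : (U → V) → ℝ) (u : U) :
    ∑ φ : U → V, ∑ x, F (Function.update φ u x) = Fintype.card V * ∑ φ, F φ := by
  have hinv : Function.Involutive
      (fun p : (U → V) × V => ((Function.update p.1 u p.2, p.1 u) : (U → V) × V)) := by
    rintro ⟨φ, x⟩
    simp
  have h := Equiv.sum_comp hinv.toPerm (fun p : (U → V) × V => F p.1)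
  rw [Fintype.sum_prod_type, Fintype.sum_prod_type] at h
  simp only [Function.Involutive.coe_toPerm, sum_const, card_univ, nsmul_eq_mul] at h
  rw [h, mul_sum]

lemma seq_step {V U : Type} [Fintype V] [Fintype U] [DecidableEq U]
    (f : U → (U → V) → ℝ) (r : U → ℕ) (M : U → ℝ) (h0 : ∀ u φ, 0 ≤ f u φ) (hM : ∀ u, 0 ≤ M u)
    (hd : ∀ u φ ψ, (∀ w, w = u ∨ r w < r u → φ w = ψ w) → f u φ = f u ψ)
    (hs : ∀ u φ, ∑ x, f u (Function.update φ u x) ≤ M u) (s : Finset U) :
    (Fintype.card V : ℝ) ^ s.card * ∑ φ : U → V, ∏ u ∈ s, f u φ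
      ≤ (∏ u ∈ s, M u) * Fintype.card (U → V) := by
  induction s using Finset.induction_on_max_value r with
  | empty => simp
  | insert a s ha hmax ih =>
    have key : (Fintype.card V : ℝ) * ∑ φ : U → V, ∏ u ∈ insert a s, f u φ
        ≤ M a * ∑ φ : U → V, ∏ u ∈ s, f u φ := by
      rw [← seq_update _ a, mul_sum]
      refine sum_le_sum fun φ _ => ?_
      have e : ∀ x, ∏ u ∈ insert a s, f u (Function.update φ a x)
          = f a (Function.update φ a x) * ∏ u ∈ s, f u φ := fun x => by
        rw [prod_insert ha]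
        congr 1
        refine prod_congr rfl fun u hu => hd u _ _ fun w hw => ?_
        have hne : w ≠ a := by
          rintro rfl
          rcases hw with rfl | hw
          · exact ha hu
          · exact absurd (hmax u hu) (by omega)
        simp [hne]
      simp_rw [e]
      rw [← sum_mul]
      exact mul_le_mul_of_nonneg_right (hs a φ) (prod_nonneg fun u _ => h0 u φ)
    rw [card_insert_of_notMem ha, prod_insert ha, pow_succ, mul_assoc, mul_assoc]
    calc (Fintype.card V : ℝ) ^ s.card * (Fintype.card V * ∑ φ : U → V, ∏ u ∈ insert a s, f u φ)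
        ≤ (Fintype.card V : ℝ) ^ s.card * (M a * ∑ φ : U → V, ∏ u ∈ s, f u φ) :=
          mul_le_mul_of_nonneg_left key (by positivity)
      _ = M a * ((Fintype.card V : ℝ) ^ s.card * ∑ φ : U → V, ∏ u ∈ s, f u φ) := by ring
      _ ≤ _ := mul_le_mul_of_nonneg_left ih (hM a)

theorem p_SEQ :
    S_SEQ := by
  intro V U _ _ _ f r M h0 hM hd hs
  have h := seq_step f r M h0 hM hd hs univ
  rw [card_univ, Fintype.card_fun, Nat.cast_pow, mul_comm] at h
  rcases Nat.eq_zero_or_pos (Fintype.card (U → V)) with hz | hp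
  · have := Fintype.card_eq_zero_iff.1 hz
    rw [univ_eq_empty, sum_empty]
    exact prod_nonneg fun u _ => hM u
  · rw [Fintype.card_fun] at hp
    have hp' : (0 : ℝ) < (Fintype.card V : ℝ) ^ Fintype.card U := by exact_mod_cast hp
    exact le_of_mul_le_mul_right h hp'

end Pool.Agent.P.MP_224820_co.St
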