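import Pool.Agent.P.MP_224820_co.St.IfaceM

/-! Step SIG. -/

set_option autoImplicit false

namespace Pool.Agent.P.MP_224820_co.St

open Finset Filter Topology

theorem p_SIG :
    S_SIG := by
  intro n J x0 ε hε h
  have hpos := h.pos
  refine ⟨?_, ?_, ?_, ?_⟩
  · intro l s
    cases l with
    | none =>
      have := hpos (kA J 0)
      simp only [sig]
      split_ifs <;> positivity
    | some i =>
      have h1 := hpos (kB J i)
      have h2 := hpos (kA J (i + 1))
      simp only [sig]
      split_ifs <;> positivity
  · intro l
    cases l with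
    | none =>
      have h1 := hpos (kA J 0)
      have e : sig n J x0 (ε / 260) none = fun s => 1 / 4 +
          (if kA J 0 ∈ s then 1 / (4 * piK n J x0 (ε / 260) (kA J 0)) else 0) := by
        funext s; rfl
      rw [e, Ex_add, Ex_const, basea_mem]
      have : piK n J x0 (ε / 260) (kA J 0) * (1 / (4 * piK n J x0 (ε / 260) (kA J 0))) = 1 / 4 := by
        field_simp
      rw [this]
      norm_num
    | some i =>
      have h1 := hpos (kB J i)
      have h2 := hpos (kA J (i + 1))
      have e : sig n J x0 (ε / 260) (some i) = fun s =>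
          ((if kA J i ∈ s then 1 / (8 * piK n J x0 (ε / 260) (kB J i)) else 0)
          + (if kB J i ∈ s then 1 / (8 * piK n J x0 (ε / 260) (kB J i)) else 0))
          + (if kA J (i + 1) ∈ s then 1 / (4 * piK n J x0 (ε / 260) (kA J (i + 1))) else 0) := by
        funext s; rfl
      rw [e, Ex_add, Ex_add, basea_mem, basea_mem, basea_mem]
      have a1 : piK n J x0 (ε / 260) (kA J (i + 1)) *
          (1 / (4 * piK n J x0 (ε / 260) (kA J (i + 1)))) = 1 / 4 := by
        field_simp
      have a2 : piK n J x0 (ε / 260) (kB J i) * (1 / (8 * piK n J x0 (ε / 260) (kB J i))) = 1 / 8 := by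
        field_simp
      have a3 : piK n J x0 (ε / 260) (kA J i) * (1 / (8 * piK n J x0 (ε / 260) (kB J i))) =
          1 / 1600 := by
        rw [h.piA i i.2.le, h.piB i i.2]
        have := Real.exp_pos (-xs x0 i)
        field_simp
        norm_num
      rw [a1, a2, a3]
      norm_num
  · have h1 := Pr_or_le h.isP (fun s => kA J J ∈ s) (fun s => kB J J ∈ s)
    rw [Pr_mem, Pr_mem, h.piA J le_rfl, h.piC] at h1
    have h2 := h.xrho
    have e : Pr (piK n J x0 (ε / 260)) (LsK J) =
        Pr (piK n J x0 (ε / 260)) (fun s => kA J J ∈ s ∨ kB J J ∈ s) := rfl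
    rw [e]
    linarith
  · intro l
    have h1 := h.log1
    have h2 : 0 ≤ Real.log n := by linarith
    cases l with
    | none =>
      simp only [lamL]
      positivity
    | some i =>
      simp only [lamL]
      positivity

end Pool.Agent.P.MP_224820_co.St
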