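import Pool.Agent.P.MP_224820_co.St.IfaceP

/-! Step SLICE. -/

set_option autoImplicit false

namespace Pool.Agent.P.MP_224820_co.St

open Finset

theorem slice_one {K E : Type} [Fintype K] [DecidableEq K] [Fintype E] [DecidableEq E]
    (π : K → ℝ) (k : K) (g : Finset E → ℝ) :
    Ex (fun x : K × E => π x.1) (fun ξ => g (sl ξ k)) = Ex (fun _ : E => π k) g :=
  Ex_emb (⟨fun e => (k, e), fun _ _ h => (Prod.mk.inj h).2⟩ : E ↪ K × E)
    (fun x : K × E => π x.1) g

theorem p_SLICE :
    S_SLICE := by
  intro K E _ _ _ _ π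
  refine ⟨fun k k' hk F => ?_, fun e g => ?_⟩
  · rw [Ex_split _ (univ.filter fun x : K × E => x.1 = k),
      ← slice_one π k (fun A => Ex (fun _ : E => π k') (fun B => F A B))]
    refine Ex_congr fun Q => ?_
    rw [← slice_one π k' (fun B => F (sl Q k) B)]
    refine Ex_congr fun R => ?_
    have h1 : sl (Q ∩ (univ.filter fun x : K × E => x.1 = k) ∪
        R \ (univ.filter fun x : K × E => x.1 = k)) k = sl Q k := by
      ext e
      simp [sl]
    have h2 : sl (Q ∩ (univ.filter fun x : K × E => x.1 = k) ∪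
        R \ (univ.filter fun x : K × E => x.1 = k)) k' = sl R k' := by
      ext e
      simp [sl, hk.symm]
    rw [h1, h2]
  · exact Ex_emb (⟨fun k => (k, e), fun _ _ h => (Prod.mk.inj h).1⟩ : K ↪ K × E)
      (fun x : K × E => π x.1) g

end Pool.Agent.P.MP_224820_co.St
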