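import Pool.Agent.P.MP_224820_co.St.IfaceP

/-! Step SPR. -/

set_option autoImplicit false

namespace Pool.Agent.P.MP_224820_co.St

open Finset

section
variable {α : Type} [Fintype α] [DecidableEq α]

theorem spr_prod (p x y : α → ℝ) :
    Ex p (fun R => ∏ b, if b ∈ R then x b else y b) = ∏ b, (p b * x b + (1 - p b) * y b) := by
  rw [← basea_prod]
  refine sum_congr rfl fun R _ => ?_
  beta_reduce
  rw [← prod_mul_distrib]
  refine prod_congr rfl fun b _ => ?_
  by_cases hb : b ∈ R <;> simp [hb]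

theorem spr_ind (f : Finset α → ℝ) (T : Finset α) :
    f T = ∑ S : Finset α, f S * ∏ b, (if b ∈ T then (if b ∈ S then (1 : ℝ) else 0)
      else (if b ∈ S then 0 else 1)) := by
  rw [sum_eq_single T]
  · rw [prod_eq_one, mul_one]
    intro b _
    by_cases hb : b ∈ T <;> simp [hb]
  · intro S _ hS
    have : ∃ b, ¬ (b ∈ S ↔ b ∈ T) := by
      by_contra h
      push Not at h
      exact hS (by ext b; exact h b)
    obtain ⟨b, hb⟩ := this
    rw [prod_eq_zero (mem_univ b), mul_zero]
    by_cases h2 : b ∈ T <;> simp_all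
  · simp

/-- the law of the union of two independent random subsets -/
theorem spr_union (p1 p2 : α → ℝ) (f : Finset α → ℝ) :
    Ex p1 (fun Q => Ex p2 (fun R => f (Q ∪ R))) =
      Ex (fun a => 1 - (1 - p1 a) * (1 - p2 a)) f := by
  have h1 : ∀ Q : Finset α, Ex p2 (fun R => f (Q ∪ R)) =
      ∑ S : Finset α, f S * ∏ b, (if b ∈ Q then (if b ∈ S then (1 : ℝ) else 0)
        else (if b ∈ S then p2 b else 1 - p2 b)) := by
    intro Q
    rw [Ex_congr (fun R => spr_ind f (Q ∪ R)), Ex_sum]
    refine sum_congr rfl fun S _ => ?_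
    rw [Ex_mul]
    congr 1
    have h2 := spr_prod p2 (fun b => if b ∈ S then (1 : ℝ) else 0)
      (fun b => if b ∈ Q then (if b ∈ S then (1 : ℝ) else 0) else (if b ∈ S then 0 else 1))
    refine Eq.trans (Ex_congr fun R => prod_congr rfl fun b _ => ?_)
      (h2.trans (prod_congr rfl fun b _ => ?_))
    · by_cases hq : b ∈ Q <;> by_cases hr : b ∈ R <;> simp [hq, hr]
    · by_cases hq : b ∈ Q <;> by_cases hs : b ∈ S <;> simp [hq, hs]
  rw [Ex_congr h1, Ex_sum]
  refine sum_congr rfl fun S _ => ?_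
  rw [Ex_mul, mul_comm, spr_prod]
  congr 1
  refine prod_congr rfl fun b _ => ?_
  by_cases hs : b ∈ S
  · simp only [hs, if_true]
    ring
  · simp only [hs, if_false]
    ring

end

theorem p_SPR (hMONO : S_MONO) :
    S_SPR := by
  intro α _ _ p p1 p2 hp hp1 hp2 h E hE
  have h3 : IsP (fun a => 1 - (1 - p1 a) * (1 - p2 a)) := by
    intro a
    have a1 := hp1 a
    have a2 := hp2 a
    constructor
    · nlinarith [mul_nonneg a1.1 (sub_nonneg.2 a2.2)]
    · nlinarith [mul_nonneg (sub_nonneg.2 a1.2) (sub_nonneg.2 a2.2)]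
  refine (hMONO α _ p h3 hp (fun a => by linarith [h a]) E hE).trans (le_of_eq ?_)
  unfold Pr
  rw [← spr_union]

end Pool.Agent.P.MP_224820_co.St
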