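import Pool.Agent.P.MP_224820_co.St.IfaceM
import Pool.Agent.P.MP_224820_co.St.IfaceP
import Pool.Agent.P.MP_224820_co.St.BaseB

/-! Step STYP. -/

set_option autoImplicit false

namespace Pool.Agent.P.MP_224820_co.St

open Finset Filter Topology

theorem styp_one_sub {β : Type} [DecidableEq β] (p : β → ℝ) (hp : IsP p) (G : Finset β) :
    1 - ∑ a ∈ G, p a ≤ ∏ a ∈ G, (1 - p a) := by
  induction G using Finset.induction_on with
  | empty => simp
  | insert a G ha ih =>
    rw [sum_insert ha, prod_insert ha]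
    have h1 := (hp a).1
    have h2 := (hp a).2
    have h3 : 0 ≤ ∑ b ∈ G, p b := sum_nonneg fun b _ => (hp b).1
    nlinarith [mul_le_mul_of_nonneg_left ih (sub_nonneg.2 h2), mul_nonneg h1 h3]

theorem styp_sum_image {β γ : Type} [DecidableEq β] [DecidableEq γ] (f : β → γ) (g : γ → ℝ)
    (hg : ∀ c, 0 ≤ g c) (S : Finset β) : ∑ c ∈ S.image f, g c ≤ ∑ b ∈ S, g (f b) := by
  induction S using Finset.induction_on with
  | empty => simp
  | insert a S ha ih =>
    rw [image_insert, sum_insert ha]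
    by_cases h : f a ∈ S.image f
    · rw [insert_eq_of_mem h]
      linarith [hg (f a)]
    · rw [sum_insert h]
      linarith

theorem styp_exp_le (x : ℝ) (h0 : 0 ≤ x) (h1 : x ≤ 1) : Real.exp x ≤ 1 + x + x ^ 2 := by
  have h := Real.abs_exp_sub_one_sub_id_le (x := x) (by rw [abs_of_nonneg h0]; exact h1)
  have := (abs_le.1 h).2
  linarith

theorem styp_exp_neg_le (x : ℝ) (h0 : 0 ≤ x) (h1 : x ≤ 1) : Real.exp (-x) ≤ 1 - x + x ^ 2 := by
  have h := Real.abs_exp_sub_one_sub_id_le (x := -x) (by rw [abs_neg, abs_of_nonneg h0]; exact h1)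
  have := (abs_le.1 h).2
  nlinarith

theorem styp_pr {V : Type} [Fintype V] [DecidableEq V] {r : ℕ} (π : Fin r → ℝ) (hπ : IsP π)
    (hs : ∑ k, π k ≤ 1 / 1000) (l : Finset (V × Fin r))
    (hl : Set.InjOn Prod.fst (l : Set (V × Fin r))) (h4 : l.card ≤ 4) (w : V)
    (hw : w ∉ l.image Prod.fst) :
    996 / 1000 * ∏ x ∈ l, π x.2 ≤
      Pr (fun x : Fin r × Sym2 V => π x.1) (fun ξ => ∀ x ∈ l, s(x.1, w) ∈ Cls ξ x.2) ∧
    Pr (fun x : Fin r × Sym2 V => π x.1) (fun ξ => ∀ x ∈ l, s(x.1, w) ∈ Cls ξ x.2)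
      ≤ ∏ x ∈ l, π x.2 := by
  have hp : IsP (fun x : Fin r × Sym2 V => π x.1) := fun a => hπ a.1
  set F : Finset (Fin r × Sym2 V) := l.image (fun x => (x.2, s(x.1, w))) with hF
  set G : Finset (Fin r × Sym2 V) :=
    ((l ×ˢ (univ : Finset (Fin r))).filter fun y => y.2 < y.1.2).image
      (fun y => (y.2, s(y.1.1, w))) with hG
  have hne : ∀ x ∈ l, x.1 ≠ w := fun x hx h => hw (mem_image.2 ⟨x, hx, h⟩)
  have hiff : ∀ ξ : Finset (Fin r × Sym2 V),
      (∀ x ∈ l, s(x.1, w) ∈ Cls ξ x.2) ↔ (F ⊆ ξ ∧ Disjoint G ξ) := by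
    intro ξ
    constructor
    · intro h
      refine ⟨?_, ?_⟩
      · intro a ha
        obtain ⟨x, hx, rfl⟩ := mem_image.1 ha
        have := h x hx
        unfold Cls at this
        exact (mem_filter.1 this).2.1
      · rw [disjoint_left]
        intro a ha hb
        obtain ⟨y, hy, rfl⟩ := mem_image.1 ha
        obtain ⟨hy1, hy2⟩ := mem_filter.1 hy
        have := h y.1 (mem_product.1 hy1).1
        unfold Cls at this
        exact (mem_filter.1 this).2.2 y.2 hy2 hb
    · rintro ⟨h1, h2⟩ x hx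
      unfold Cls
      refine mem_filter.2 ⟨?_, ?_, ?_⟩
      · unfold KN
        refine mem_filter.2 ⟨mem_univ _, ?_⟩
        rw [Sym2.mk_isDiag_iff]
        exact hne x hx
      · exact h1 (mem_image.2 ⟨x, hx, rfl⟩)
      · intro k' hk' hm
        refine disjoint_left.1 h2 ?_ hm
        exact mem_image.2 ⟨(x, k'), mem_filter.2 ⟨mem_product.2 ⟨hx, mem_univ _⟩, hk'⟩, rfl⟩
  have hdis : Disjoint F G := by
    rw [disjoint_left]
    intro a ha hb
    obtain ⟨x, hx, rfl⟩ := mem_image.1 ha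
    obtain ⟨y, hy, hxy⟩ := mem_image.1 hb
    obtain ⟨hy1, hy2⟩ := mem_filter.1 hy
    have e1 : y.2 = x.2 := congrArg Prod.fst hxy
    have e2 : s(y.1.1, w) = s(x.1, w) := congrArg Prod.snd hxy
    have e3 : y.1 = x := hl (mem_coe.2 (mem_product.1 hy1).1) (mem_coe.2 hx) (Sym2.congr_left.1 e2)
    rw [e1, e3] at hy2
    exact lt_irrefl _ hy2
  have hPF : ∏ a ∈ F, π a.1 = ∏ x ∈ l, π x.2 := by
    rw [hF, prod_image]
    intro x hx y hy hxy
    have e2 : s(x.1, w) = s(y.1, w) := congrArg Prod.snd hxy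
    exact hl hx hy (Sym2.congr_left.1 e2)
  have hsum : ∑ a ∈ G, π a.1 ≤ 4 / 1000 := by
    have h1 := styp_sum_image (fun y : (V × Fin r) × Fin r => (y.2, s(y.1.1, w)))
      (fun a : Fin r × Sym2 V => π a.1) (fun c => (hπ c.1).1)
      ((l ×ˢ (univ : Finset (Fin r))).filter fun y => y.2 < y.1.2)
    have h2 : ∑ y ∈ ((l ×ˢ (univ : Finset (Fin r))).filter fun y => y.2 < y.1.2), π y.2
        ≤ ∑ y ∈ (l ×ˢ (univ : Finset (Fin r))), π y.2 :=
      sum_le_sum_of_subset_of_nonneg (filter_subset _ _) fun y _ _ => (hπ y.2).1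
    have h3 : ∑ y ∈ (l ×ˢ (univ : Finset (Fin r))), π y.2 = l.card * ∑ k, π k := by
      rw [sum_product]
      simp
    have h5 : (l.card : ℝ) ≤ 4 := by exact_mod_cast h4
    have h6 : 0 ≤ ∑ k, π k := sum_nonneg fun k _ => (hπ k).1
    have h7 : (l.card : ℝ) * ∑ k, π k ≤ 4 * (1 / 1000) :=
      mul_le_mul h5 hs h6 (by norm_num)
    have h8 : ∑ a ∈ G, π a.1 ≤
      ∑ y ∈ ((l ×ˢ (univ : Finset (Fin r))).filter fun y => y.2 < y.1.2), π y.2 := h1
    linarith
  have hPr := Pr_subset_disjoint (fun x : Fin r × Sym2 V => π x.1) hdis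
  rw [Pr_congr hiff, hPr, hPF]
  have hl0 : 0 ≤ ∏ x ∈ l, π x.2 := prod_nonneg fun x _ => (hπ x.2).1
  have hlo := styp_one_sub (fun x : Fin r × Sym2 V => π x.1) hp G
  have hhi : ∏ a ∈ G, (1 - π a.1) ≤ 1 :=
    prod_le_one (fun a _ => sub_nonneg.2 (hπ a.1).2) (fun a _ => by linarith [(hπ a.1).1])
  constructor
  · have : (996 / 1000 : ℝ) ≤ ∏ a ∈ G, (1 - π a.1) := by linarith
    nlinarith
  · nlinarith

theorem p_STYP (hCH : S_CH) (hSLICE : S_SLICE) :
    S_STYP := by
  intro V _ _ r π hπ hs hn l hl h4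
  classical
  have hp : IsP (fun x : Fin r × Sym2 V => π x.1) := fun a => hπ a.1
  set J : Finset V := univ \ l.image Prod.fst with hJ
  set E : V → Finset (Fin r × Sym2 V) → Prop := fun w ξ => ∀ x ∈ l, s(x.1, w) ∈ Cls ξ x.2 with hE
  set s : V → Finset (Fin r × Sym2 V) := fun w => univ.filter fun a => ∃ x ∈ l, a.2 = s(x.1, w)
    with hsdef
  have hJm : ∀ w ∈ J, w ∉ l.image Prod.fst := fun w hw => (mem_sdiff.1 hw).2
  have hdis : (J : Set V).PairwiseDisjoint s := by
    intro w hw w' hw' hne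
    show Disjoint (s w) (s w')
    rw [disjoint_left]
    intro a ha hb
    obtain ⟨x, hx, e1⟩ := (mem_filter.1 ha).2
    obtain ⟨y, hy, e2⟩ := (mem_filter.1 hb).2
    rw [e1] at e2
    rcases Sym2.eq_iff.1 e2 with ⟨_, h⟩ | ⟨h, _⟩
    · exact hne h
    · exact hJm w' (mem_coe.1 hw') (mem_image.2 ⟨x, hx, h⟩)
  have hloc : ∀ w ∈ J, Loc (s w) (E w) := by
    intro w _ R R' hR
    have key : ∀ x ∈ l, ∀ k : Fin r, (k, s(x.1, w)) ∈ R ↔ (k, s(x.1, w)) ∈ R' := by
      intro x hx k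
      have hm : (k, s(x.1, w)) ∈ s w := mem_filter.2 ⟨mem_univ _, x, hx, rfl⟩
      constructor
      · intro h
        have : (k, s(x.1, w)) ∈ R ∩ s w := mem_inter.2 ⟨h, hm⟩
        rw [hR] at this
        exact (mem_inter.1 this).1
      · intro h
        have : (k, s(x.1, w)) ∈ R' ∩ s w := mem_inter.2 ⟨h, hm⟩
        rw [← hR] at this
        exact (mem_inter.1 this).1
    apply propext
    refine forall_congr' fun x => forall_congr' fun hx => ?_
    unfold Cls
    rw [mem_filter, mem_filter, key x hx]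
    refine and_congr_right fun _ => and_congr_right fun _ => ?_
    refine forall_congr' fun k' => forall_congr' fun _ => ?_
    rw [key x hx]
  have hcc : ∀ ξ : Finset (Fin r × Sym2 V), cc ξ l = cnt J (fun w => E w ξ) := by
    intro ξ
    unfold cc cnt
    congr 1
    ext w
    simp only [mem_filter, mem_univ, true_and]
    constructor
    · intro h
      refine ⟨mem_sdiff.2 ⟨mem_univ _, ?_⟩, h⟩
      intro hw
      obtain ⟨x, hx, e⟩ := mem_image.1 hw
      have := h x hx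
      unfold Cls KN at this
      have h2 := (mem_filter.1 (mem_filter.1 this).1).2
      rw [Sym2.mk_isDiag_iff] at h2
      exact h2 e
    · exact fun h => h.2
  set P : ℝ := ∏ x ∈ l, π x.2 with hP
  have hP0 : 0 ≤ P := prod_nonneg fun x _ => (hπ x.2).1
  set n : ℝ := (Fintype.card V : ℝ) with hndef
  have hn' : (4000 : ℝ) ≤ n := by rw [hndef]; exact_mod_cast hn
  have hJ1 : (J.card : ℝ) ≤ n := by
    rw [hndef]
    exact_mod_cast card_le_univ J
  have hJ2 : n - 4 ≤ (J.card : ℝ) := by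
    have h1 : Fintype.card V ≤ J.card + 4 := by
      have h2 : (univ : Finset V).card ≤ J.card + (l.image Prod.fst).card :=
        card_le_card_sdiff_add_card
      have h3 : (l.image Prod.fst).card ≤ l.card := card_image_le
      rw [card_univ] at h2
      omega
    have h2 : n ≤ (J.card : ℝ) + 4 := by rw [hndef]; exact_mod_cast h1
    linarith
  have hup : ∑ w ∈ J, Pr (fun x : Fin r × Sym2 V => π x.1) (E w) ≤ n * P := by
    calc ∑ w ∈ J, Pr (fun x : Fin r × Sym2 V => π x.1) (E w) ≤ ∑ _w ∈ J, P :=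
          sum_le_sum fun w hw => (styp_pr π hπ hs l hl h4 w (hJm w hw)).2
      _ = J.card * P := by rw [sum_const, nsmul_eq_mul]
      _ ≤ n * P := mul_le_mul_of_nonneg_right hJ1 hP0
  have hlo : 995 / 1000 * (n * P) ≤ ∑ w ∈ J, Pr (fun x : Fin r × Sym2 V => π x.1) (E w) := by
    calc 995 / 1000 * (n * P) ≤ J.card * (996 / 1000 * P) := by
          have : 995 / 1000 * n ≤ 996 / 1000 * (J.card : ℝ) := by linarith
          nlinarith
      _ = ∑ _w ∈ J, 996 / 1000 * P := by rw [sum_const, nsmul_eq_mul]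
      _ ≤ _ := sum_le_sum fun w hw => (styp_pr π hπ hs l hl h4 w (hJm w hw)).1
  set M : ℝ := n * P with hM
  have hM0 : 0 ≤ M := mul_nonneg (by linarith) hP0
  have hA := (hCH _ V _ hp J s E hdis hloc (1 / 200) M (101 / 100 * M) (by norm_num)).1 hup
  have hB := (hCH _ V _ hp J s E hdis hloc (1 / 400) (995 / 1000 * M) (99 / 100 * M)
    (by norm_num)).2 hlo
  have eA : M * (Real.exp (1 / 200) - 1) - 1 / 200 * (101 / 100 * M) ≤ -M / 10 ^ 6 := by
    have h := styp_exp_le (1 / 200) (by norm_num) (by norm_num)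
    have h2 : M * (Real.exp (1 / 200) - 1) ≤ M * (1 / 200 + (1 / 200) ^ 2) :=
      mul_le_mul_of_nonneg_left (by linarith) hM0
    nlinarith
  have eB : 1 / 400 * (99 / 100 * M) - 995 / 1000 * M * (1 - Real.exp (-(1 / 400))) ≤ -M / 10 ^ 6 := by
    have h := styp_exp_neg_le (1 / 400) (by norm_num) (by norm_num)
    have h2 : M * (1 / 400 - (1 / 400) ^ 2) ≤ M * (1 - Real.exp (-(1 / 400))) :=
      mul_le_mul_of_nonneg_left (by linarith) hM0
    nlinarith
  have hA' := hA.trans (Real.exp_le_exp.2 eA)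
  have hB' := hB.trans (Real.exp_le_exp.2 eB)
  have hor := Pr_or_le hp (fun R => 101 / 100 * M ≤ (cnt J (fun w => E w R) : ℝ))
    (fun R => (cnt J (fun w => E w R) : ℝ) ≤ 99 / 100 * M)
  have hmono := Pr_mono hp (E := fun ξ => M / 100 < |(cc ξ l : ℝ) - M|)
    (E' := fun R => 101 / 100 * M ≤ (cnt J (fun w => E w R) : ℝ) ∨
      (cnt J (fun w => E w R) : ℝ) ≤ 99 / 100 * M) (by
      intro R h
      rw [hcc R] at h
      rcases lt_abs.1 h with h | h
      · left; linarith
      · right; linarith)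
  linarith

end Pool.Agent.P.MP_224820_co.St
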