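import Pool.Agent.P.MP_224820_co.St.IfaceA

/-! Step TERM. -/

set_option autoImplicit false

namespace Pool.Agent.P.MP_224820_co.St

open Finset

theorem term_loops {n : ℕ} {In : Type} (own pos : In → Fin n)
    (h1 : ∀ w, own w ≤ pos w ∧ (pos w : ℕ) ≤ own w + 1)
    (h2 : ∀ o o', own o = own o' → own o ≠ pos o → own o' ≠ pos o' → o = o')
    (S : Finset In) (hS : Zb own pos S) : ∀ w ∈ S, own w = pos w := by
  classical
  by_contra hc
  push Not at hc
  have hne : (S.filter fun w => own w ≠ pos w).Nonempty := by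
    obtain ⟨w, hw, hw'⟩ := hc
    exact ⟨w, mem_filter.2 ⟨hw, hw'⟩⟩
  obtain ⟨w0, hw0, hmin⟩ := exists_min_image _ own hne
  obtain ⟨hw0S, hw0n⟩ := mem_filter.1 hw0
  have hv := hS (own w0)
  rw [cnt_eq, cnt_eq] at hv
  have hA : S.filter (fun w => own w = own w0)
      = insert w0 (S.filter fun w => pos w = own w0) := by
    ext w
    simp only [mem_filter, mem_insert]
    constructor
    · rintro ⟨hw, he⟩
      by_cases hl : own w = pos w
      · exact Or.inr ⟨hw, by rw [← hl, he]⟩
      · exact Or.inl (h2 _ _ he hl hw0n)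
    · rintro (rfl | ⟨hw, he⟩)
      · exact ⟨hw0S, rfl⟩
      · refine ⟨hw, ?_⟩
        by_cases hl : own w = pos w
        · rw [hl, he]
        · have h3 := hmin w (mem_filter.2 ⟨hw, hl⟩)
          have h4 := (h1 w).1
          rw [he] at h4
          exact le_antisymm h4 h3
  have hn : w0 ∉ S.filter fun w => pos w = own w0 := by
    intro h
    exact hw0n (mem_filter.1 h).2.symm
  rw [hA, card_insert_of_notMem hn] at hv
  obtain ⟨r, hr⟩ := hv
  omega

theorem p_TERM :
    S_TERM := by
  classical
  intro n In _ own pos h1 h2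
  refine ⟨Empty, {w // own w = pos w}, inferInstance, inferInstance, Empty.elim, Empty.elim, Empty.elim,
    fun c => {Sum.inl c.1}, Empty.elim, ⟨fun i => i.elim, fun i => i.elim, ?_, ?_, ?_, ?_⟩,
    fun o => o.elim⟩
  · intro PI PE hI _ c
    refine ⟨own c.1, 1, le_rfl, by norm_num, ?_⟩
    have h := hI c.1
    rw [← c.2] at h
    simpa using h
  · intro S hS
    have hl := term_loops own pos h1 h2 S hS
    refine ⟨S.subtype fun w => own w = pos w, ∅, trivial, ?_⟩
    have h3 : ∑ c ∈ S.subtype (fun w => own w = pos w), ({Sum.inl c.1} : Multiset (In ⊕ Empty))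
        = ∑ w ∈ S, ({Sum.inl w} : Multiset (In ⊕ Empty)) :=
      sum_subtype_of_mem (fun w => ({Sum.inl w} : Multiset (In ⊕ Empty))) hl
    have h4 : ∑ w ∈ S, ({Sum.inl w} : Multiset (In ⊕ Empty)) = S.val.map Sum.inl := by
      rw [Finset.sum_eq_multiset_sum, ← Multiset.sum_map_singleton (S.val.map Sum.inl),
        Multiset.map_map]
      rfl
    rw [h3, h4]
    simp
  · intro v
    rw [cnt_eq]
    simp
  · intro a
    rw [cnt_eq, card_le_one]
    intro c hc c' hc'
    have e1 := Multiset.mem_singleton.1 (mem_filter.1 hc).2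
    have e2 := Multiset.mem_singleton.1 (mem_filter.1 hc').2
    rw [e1] at e2
    exact Subtype.ext (Sum.inl_injective e2)

end Pool.Agent.P.MP_224820_co.St
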