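import Pool.Agent.P.MP_224820_co.St.IfaceA

/-! Step TOK. -/

set_option autoImplicit false

namespace Pool.Agent.P.MP_224820_co.St

open Finset

section Tok
variable {E : Type}

/-- one item -/
def tokI (e : E) (j : Fin 8) : Multiset (E ⊕ E × Fin 8) := {Sum.inr (e, j)}

/-- the first `c` tokens -/
def tokL (e : E) (c : ℕ) : Multiset (E ⊕ E × Fin 8) :=
  (if 0 < c then tokI e 2 + tokI e 5 else 0) + (if 1 < c then tokI e 3 + tokI e 6 else 0)
    + if 2 < c then tokI e 4 + tokI e 7 else 0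

/-- the tokens from `c` on -/
def tokR (e : E) (c : ℕ) : Multiset (E ⊕ E × Fin 8) :=
  (if 0 < c then 0 else tokI e 2 + tokI e 5) + (if 1 < c then 0 else tokI e 3 + tokI e 6)
    + if 2 < c then 0 else tokI e 4 + tokI e 7

/-- the token of the input -/
def tokT (e : E) (b : ℕ) : Multiset (E ⊕ E × Fin 8) :=
  if b = 1 then {Sum.inl e} + tokI e 0 else 0

/-- the cells -/
def tokC (σ : E ≃ E) (p : E × Fin 7) : Multiset (E ⊕ E × Fin 8) :=
  if (p.2 : ℕ) = 6 then tokI p.1 0 + tokI p.1 1
  else tokL (σ.symm p.1) (p.2 / 2) + tokT p.1 (p.2 % 2) + tokR p.1 (p.2 / 2 + p.2 % 2)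

/-- the choice of cells -/
def tokS (c b : ℕ) (k : Fin 7) : Prop :=
  (k : ℕ) = 2 * c + b ∨ ((k : ℕ) = 0 ∧ c + b = 3) ∨ ((k : ℕ) = 6 ∧ b = 0)

instance (c b : ℕ) : DecidablePred (tokS c b) := fun k => by unfold tokS; infer_instance

lemma tok_LR (e : E) (c : ℕ) : tokI e 0 + tokI e 1 + tokL e c + tokR e c = ∑ j, tokI e j := by
  rw [Fin.sum_univ_eight]
  unfold tokL tokR
  split_ifs <;> abel

lemma tok_sel (σ : E ≃ E) (e : E) {c b : ℕ} (hc : c < 3) (hb : b < 2) :
    (∑ k, if tokS c b k then tokC σ (e, k) else 0) + (if b = 1 then tokI e 1 else 0)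
      = tokL (σ.symm e) c + ((if b = 1 then {Sum.inl e} else 0)
        + (tokI e 0 + tokI e 1 + tokR e ((c + b) % 3))) := by
  rw [Fin.sum_univ_seven]
  interval_cases c <;> interval_cases b <;>
    simp [tokS, tokC, tokL, tokR, tokT, -Multiset.singleton_add] <;> abel

lemma tok_own (σ : E ≃ E) (p : E × Fin 7) (a : E ⊕ E × Fin 8) (h : a ∈ tokC σ p) :
    p.1 = Sum.elim id Prod.fst a ∨ p.1 = σ (Sum.elim id Prod.fst a) := by
  have hI : ∀ e j, a ∈ tokI e j → e = Sum.elim id Prod.fst a := by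
    intro e j h
    rw [Multiset.mem_singleton.1 h]
    rfl
  have h2 : ∀ e j j', a ∈ tokI e j + tokI e j' → e = Sum.elim id Prod.fst a := by
    intro e j j' h
    rcases Multiset.mem_add.1 h with h | h <;> exact hI _ _ h
  have h3 : ∀ e j j' (q : Prop) [Decidable q], a ∈ (if q then tokI e j + tokI e j' else 0) →
      e = Sum.elim id Prod.fst a := by
    intro e j j' q _ h
    split_ifs at h
    · exact h2 _ _ _ h
    · exact absurd h (Multiset.notMem_zero _)
  have h4 : ∀ e j j' (q : Prop) [Decidable q], a ∈ (if q then 0 else tokI e j + tokI e j') →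
      e = Sum.elim id Prod.fst a := by
    intro e j j' q _ h
    split_ifs at h
    · exact absurd h (Multiset.notMem_zero _)
    · exact h2 _ _ _ h
  unfold tokC at h
  split_ifs at h
  · exact Or.inl (h2 _ _ _ h)
  · rcases Multiset.mem_add.1 h with h | h
    · rcases Multiset.mem_add.1 h with h | h
      · right
        have : σ.symm p.1 = Sum.elim id Prod.fst a := by
          rcases Multiset.mem_add.1 h with h | h
          · rcases Multiset.mem_add.1 h with h | h <;> exact h3 _ _ _ _ h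
          · exact h3 _ _ _ _ h
        rw [← this, Equiv.apply_symm_apply]
      · left
        unfold tokT at h
        split_ifs at h
        · rcases Multiset.mem_add.1 h with h | h
          · rw [Multiset.mem_singleton.1 h]
            rfl
          · exact hI _ _ h
        · exact absurd h (Multiset.notMem_zero _)
    · left
      rcases Multiset.mem_add.1 h with h | h
      · rcases Multiset.mem_add.1 h with h | h <;> exact h4 _ _ _ _ h
      · exact h4 _ _ _ _ h

lemma tok_zero {V : Type} (u : V) : Wk u u 0 0 := ⟨fun _ => u, rfl, rfl, by simp⟩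

lemma tok_cast {V : Type} {u v : V} {k l : ℕ} {m : Multiset (Sym2 V)} (h : Wk u v k m) (e : k = l) :
    Wk u v l m := e ▸ h

lemma tok_closed {V : Type} (iu iv : E → V) (σ : E ≃ E) (PI : E → Multiset (Sym2 V))
    (PE : E × Fin 8 → Multiset (Sym2 V)) (h1 : ∀ w, Wk (iu w) (iv w) 1 (PI w))
    (h2 : ∀ i : E × Fin 8, Wk (iu i.1) (if (i.2 : ℕ) < 2 then iv i.1 else iu (σ i.1))
      (if (i.2 : ℕ) < 5 then 3 else 4) (PE i)) (p : E × Fin 7) :
    ∃ u k, 1 ≤ k ∧ k ≤ 7 ∧ Wk u u (3 * k) ((tokC σ p).bind (Sum.elim PI PE)) := by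
  obtain ⟨e, k⟩ := p
  have hI : ∀ e j, (tokI e j).bind (Sum.elim PI PE) = PE (e, j) := fun e j =>
    Multiset.singleton_bind _ _
  have a0 : ∀ e, Wk (iu e) (iv e) 3 (PE (e, 0)) := fun e => h2 (e, 0)
  have a1 : ∀ e, Wk (iu e) (iv e) 3 (PE (e, 1)) := fun e => h2 (e, 1)
  have a2 : ∀ e, Wk (iu e) (iu (σ e)) 3 (PE (e, 2)) := fun e => h2 (e, 2)
  have a3 : ∀ e, Wk (iu e) (iu (σ e)) 3 (PE (e, 3)) := fun e => h2 (e, 3)
  have a4 : ∀ e, Wk (iu e) (iu (σ e)) 3 (PE (e, 4)) := fun e => h2 (e, 4)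
  have a5 : ∀ e, Wk (iu e) (iu (σ e)) 4 (PE (e, 5)) := fun e => h2 (e, 5)
  have a6 : ∀ e, Wk (iu e) (iu (σ e)) 4 (PE (e, 6)) := fun e => h2 (e, 6)
  have a7 : ∀ e, Wk (iu e) (iu (σ e)) 4 (PE (e, 7)) := fun e => h2 (e, 7)
  have q1 : ∀ (u : V) (m : Multiset (E ⊕ E × Fin 8)) (q : Prop) [Decidable q],
      Wk u u 7 (m.bind (Sum.elim PI PE)) →
      Wk u u (if q then 7 else 0) ((if q then m else 0).bind (Sum.elim PI PE)) := by
    intro u m q _ h
    split_ifs
    · exact h
    · exact tok_zero u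
  have q2 : ∀ (u : V) (m : Multiset (E ⊕ E × Fin 8)) (q : Prop) [Decidable q],
      Wk u u 7 (m.bind (Sum.elim PI PE)) →
      Wk u u (if q then 0 else 7) ((if q then 0 else m).bind (Sum.elim PI PE)) := by
    intro u m q _ h
    split_ifs
    · exact tok_zero u
    · exact h
  have b1 : ∀ e j j', Wk (iu e) (iu (σ e)) 3 (PE (e, j)) → Wk (iu e) (iu (σ e)) 4 (PE (e, j')) →
      Wk (iu e) (iu e) 7 ((tokI e j + tokI e j').bind (Sum.elim PI PE)) := by
    intro e j j' h h'
    rw [Multiset.add_bind, hI, hI]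
    exact Wk_append h (Wk_rev h')
  have b2 : ∀ e j j', Wk (iu e) (iu (σ e)) 3 (PE (e, j)) → Wk (iu e) (iu (σ e)) 4 (PE (e, j')) →
      Wk (iu (σ e)) (iu (σ e)) 7 ((tokI e j + tokI e j').bind (Sum.elim PI PE)) := by
    intro e j j' h h'
    rw [Multiset.add_bind, hI, hI]
    exact Wk_append (Wk_rev h) h'
  have hL : ∀ e c, Wk (iu (σ e)) (iu (σ e))
      ((if 0 < c then 7 else 0) + (if 1 < c then 7 else 0) + if 2 < c then 7 else 0)
      ((tokL e c).bind (Sum.elim PI PE)) := by
    intro e c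
    unfold tokL
    rw [Multiset.add_bind, Multiset.add_bind]
    exact Wk_append (Wk_append (q1 _ _ _ (b2 _ _ _ (a2 e) (a5 e))) (q1 _ _ _ (b2 _ _ _ (a3 e) (a6 e))))
      (q1 _ _ _ (b2 _ _ _ (a4 e) (a7 e)))
  have hR : ∀ e c, Wk (iu e) (iu e)
      ((if 0 < c then 0 else 7) + (if 1 < c then 0 else 7) + if 2 < c then 0 else 7)
      ((tokR e c).bind (Sum.elim PI PE)) := by
    intro e c
    unfold tokR
    rw [Multiset.add_bind, Multiset.add_bind]
    exact Wk_append (Wk_append (q2 _ _ _ (b1 _ _ _ (a2 e) (a5 e))) (q2 _ _ _ (b1 _ _ _ (a3 e) (a6 e))))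
      (q2 _ _ _ (b1 _ _ _ (a4 e) (a7 e)))
  have hT : ∀ e b, Wk (iu e) (iu e) (if b = 1 then 4 else 0) ((tokT e b).bind (Sum.elim PI PE)) := by
    intro e b
    unfold tokT
    split_ifs
    · rw [Multiset.add_bind, hI, Multiset.singleton_bind]
      exact Wk_append (h1 e) (Wk_rev (a0 e))
    · exact tok_zero _
  unfold tokC
  split_ifs with hk
  · refine ⟨iu e, 2, by omega, by omega, ?_⟩
    rw [Multiset.add_bind, hI, hI]
    exact Wk_append (a0 e) (Wk_rev (a1 e))
  · refine ⟨iu e, 7 - k % 2, by omega, by omega, ?_⟩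
    rw [Multiset.add_bind, Multiset.add_bind]
    have h := hL (σ.symm e) (k / 2)
    rw [Equiv.apply_symm_apply] at h
    refine tok_cast (Wk_append (Wk_append h (hT e _)) (hR e _)) ?_
    have := k.2
    dsimp only at hk ⊢
    split_ifs <;> omega

lemma tok_sing {α β : Type} (s : Finset α) (f : α → β) :
    ∑ a ∈ s, ({f a} : Multiset β) = s.val.map f := by
  rw [← Multiset.sum_map_singleton (s.val.map f), Multiset.map_map]
  rfl

lemma tok_cover [Fintype E] [DecidableEq E] (σ : E ≃ E) (S : Finset E) (cin : E → ℕ)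
    (h3 : ∀ e, cin e < 3) (hc : ∀ e, cin (σ e) = (cin e + if e ∈ S then 1 else 0) % 3) :
    ∑ c ∈ univ.filter (fun p : E × Fin 7 => tokS (cin p.1) (if p.1 ∈ S then 1 else 0) p.2), tokC σ c
        + S.val.map (fun o => Sum.inr (o, 1))
      = S.val.map Sum.inl + (univ : Finset (E × Fin 8)).val.map Sum.inr := by
  have hS : ∀ f : E → E ⊕ E × Fin 8, S.val.map f =
      ∑ e, if (if e ∈ S then 1 else 0) = 1 then ({f e} : Multiset _) else 0 := by
    intro f
    rw [← tok_sing, ← sum_filter]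
    congr 1
    ext e
    simp
  rw [sum_filter, Fintype.sum_prod_type, hS, hS, ← sum_add_distrib, ← tok_sing,
    Fintype.sum_prod_type]
  have h1 : ∀ e : E, ((∑ k, if tokS (cin e) (if e ∈ S then 1 else 0) k then tokC σ (e, k) else 0)
      + if (if e ∈ S then 1 else 0) = 1 then ({Sum.inr (e, 1)} : Multiset (E ⊕ E × Fin 8)) else 0)
      = tokL (σ.symm e) (cin e) + ((if (if e ∈ S then 1 else 0) = 1 then {Sum.inl e} else 0)
        + (tokI e 0 + tokI e 1 + tokR e (cin (σ e)))) := by
    intro e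
    rw [hc]
    exact tok_sel σ e (h3 e) (by split_ifs <;> omega)
  rw [sum_congr rfl fun e _ => h1 e, sum_add_distrib, sum_add_distrib,
    ← Equiv.sum_comp σ fun e => tokL (σ.symm e) (cin e), add_left_comm, ← sum_add_distrib]
  congr 1
  refine sum_congr rfl fun e _ => ?_
  rw [Equiv.symm_apply_apply]
  refine Eq.trans ?_ (tok_LR e (cin (σ e)))
  abel

theorem tok_gen {V : Type} [Fintype E] [DecidableEq E] (iu iv : E → V) (σ : E ≃ E)
    (ok okO : Finset E → Prop) (d : ℕ) (hd : ∀ v, cnt univ (fun e => iu e = v ∨ iv e = v) ≤ d)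
    (hok : ∀ S, ok S → okO S ∧ ∃ cin : E → ℕ, (∀ e, cin e < 3) ∧
      ∀ e, cin (σ e) = (cin e + if e ∈ S then 1 else 0) % 3) :
    HasMod iu iv (fun _ => 1) ok iu iv okO (14 * d) 16 := by
  classical
  refine ⟨E × Fin 8, E × Fin 7, inferInstance, inferInstance, fun i => iu i.1,
    fun i => if (i.2 : ℕ) < 2 then iv i.1 else iu (σ i.1), fun i => if (i.2 : ℕ) < 5 then 3 else 4,
    tokC σ, fun e => (e, 1), ⟨?_, ?_, ?_, ?_, ?_, ?_⟩, fun o => ⟨rfl, rfl, rfl⟩⟩
  · intro i
    split_ifs <;> simp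
  · intro a b h
    exact congrArg Prod.fst h
  · exact fun PI PE h1 h2 => tok_closed iu iv σ PI PE h1 h2
  · intro S hS
    obtain ⟨h1, cin, h2, h3⟩ := hok S hS
    exact ⟨_, S, h1, tok_cover σ S cin h2 h3⟩
  · intro v
    have h1 := hd v
    rw [cnt_eq] at h1
    have h2 : (univ.filter fun e => iu e = v).card ≤ d :=
      (card_le_card (monotone_filter_right _ fun _ _ h => Or.inl h)).trans h1
    have h3 : (univ.filter fun e => iu (σ e) = v).card ≤ d := by
      refine le_trans (card_le_card_of_injOn σ ?_ σ.injective.injOn) h2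
      intro e he
      simpa using he
    have h4 : (univ.filter fun e => iu e = v ∨ iu (σ e) = v).card ≤ 2 * d := by
      rw [filter_or]
      exact (card_union_le _ _).trans (by omega)
    rw [cnt_eq, card_filter, Fintype.sum_prod_type_right]
    have h5 : ∀ j : Fin 8, (∑ e : E, if iu e = v ∨ (if (j : ℕ) < 2 then iv e else iu (σ e)) = v
        then 1 else 0) ≤ if (j : ℕ) < 2 then d else 2 * d := by
      intro j
      rw [← card_filter]
      split_ifs
      · exact h1
      · exact h4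
    refine (sum_le_sum fun j _ => h5 j).trans ?_
    rw [Fin.sum_univ_eight]
    simp
    omega
  · intro a
    rw [cnt_eq]
    have h1 : univ.filter (fun c => a ∈ tokC σ c) ⊆
        ({Sum.elim id Prod.fst a, σ (Sum.elim id Prod.fst a)} : Finset E) ×ˢ univ := by
      intro p hp
      refine mem_product.2 ⟨?_, mem_univ _⟩
      rcases tok_own σ p a (mem_filter.1 hp).2 with h | h
      · exact mem_insert.2 (Or.inl h)
      · exact mem_insert.2 (Or.inr (mem_singleton.2 h))
    refine (card_le_card h1).trans ?_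
    rw [card_product, card_univ, Fintype.card_fin]
    have := card_le_two (a := Sum.elim id Prod.fst a) (b := σ (Sum.elim id Prod.fst a))
    omega

lemma tok_fin (m : ℕ) : ∃ σ : Fin m ≃ Fin m, ∀ S : Finset (Fin m), 3 ∣ S.card →
    ∃ cin : Fin m → ℕ, (∀ e, cin e < 3) ∧ ∀ e, cin (σ e) = (cin e + if e ∈ S then 1 else 0) % 3 := by
  cases m with
  | zero => exact ⟨Equiv.refl _, fun _ _ => ⟨fun _ => 0, fun e => e.elim0, fun e => e.elim0⟩⟩
  | succ m =>
    refine ⟨finRotate (m + 1), fun S hS => ?_⟩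
    let g : ℕ → ℕ := fun t => (S.filter fun j => j.val < t).card
    have hg : ∀ e : Fin (m + 1), g (e + 1) = g e + if e ∈ S then 1 else 0 := by
      intro e
      split_ifs with h
      · have : (S.filter fun j => j.val < e.val + 1) = insert e (S.filter fun j => j.val < e.val) := by
          ext j
          simp only [mem_filter, mem_insert, Fin.ext_iff]
          constructor
          · rintro ⟨a, b⟩
            by_cases c : (j : ℕ) = e
            · exact Or.inl c
            · exact Or.inr ⟨a, by omega⟩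
          · rintro (a | ⟨a, b⟩)
            · exact ⟨Fin.ext a ▸ h, by omega⟩
            · exact ⟨a, by omega⟩
        simp only [g]
        rw [this, card_insert_of_notMem (by simp)]
      · simp only [g, add_zero]
        congr 1
        refine filter_congr fun j hj => ?_
        have : (j : ℕ) ≠ e := fun c => h (Fin.ext c ▸ hj)
        omega
    refine ⟨fun e => g e % 3, fun e => Nat.mod_lt _ (by omega), fun e => ?_⟩
    have h1 := hg e
    rw [Nat.mod_add_mod, ← h1, finRotate_apply]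
    beta_reduce
    by_cases he : e = Fin.last m
    · have h2 : g (m + 1) = S.card := by
        simp only [g]
        rw [filter_true_of_mem fun j _ => j.2]
      have h3 : g 0 = 0 := by simp [g]
      subst he
      simp only [Fin.last_add_one, Fin.val_zero, Fin.val_last, h2, h3]
      omega
    · rw [Fin.val_add_one_of_lt (lt_of_le_of_ne (Fin.le_last e) he)]

lemma tok_cyc (E : Type) [Fintype E] [DecidableEq E] : ∃ σ : E ≃ E, ∀ S : Finset E, 3 ∣ S.card →
    ∃ cin : E → ℕ, (∀ e, cin e < 3) ∧ ∀ e, cin (σ e) = (cin e + if e ∈ S then 1 else 0) % 3 := by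
  obtain ⟨σ, h⟩ := tok_fin (Fintype.card E)
  let φ := Fintype.equivFin E
  refine ⟨(φ.trans σ).trans φ.symm, fun S hS => ?_⟩
  obtain ⟨cin, h1, h2⟩ := h (S.map φ.toEmbedding) (by rwa [card_map])
  refine ⟨fun e => cin (φ e), fun e => h1 _, fun e => ?_⟩
  have := h2 (φ e)
  simpa using this

end Tok

lemma tok_mem {n : ℕ} (e : Sym2 (Fin n)) (v : Fin n) : v ∈ e ↔ e.inf = v ∨ e.sup = v := by
  induction e using Sym2.ind with
  | _ x y =>
    rw [Sym2.mem_iff, Sym2.inf_mk, Sym2.sup_mk]
    rcases le_total x y with h | h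
    · rw [inf_eq_left.2 h, sup_eq_right.2 h, eq_comm, eq_comm (a := v)]
    · rw [inf_eq_right.2 h, sup_eq_left.2 h, eq_comm, eq_comm (a := v), or_comm]

lemma tok_ne {n : ℕ} (e : Sym2 (Fin n)) (h : ¬ e.IsDiag) : e.inf ≠ e.sup := by
  induction e using Sym2.ind with
  | _ x y =>
    rw [Sym2.inf_mk, Sym2.sup_mk]
    exact fun c => h (Sym2.mk_isDiag_iff.2 (inf_eq_sup.1 c))

lemma tok_card {n : ℕ} (X : Finset (Sym2 (Fin n))) (S : Finset {e // e ∈ X}) (v : Fin n) :
    (nb (S.map (Function.Embedding.subtype _)) v).card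
      = (S.filter fun e => e.1.inf = v ∨ e.1.sup = v).card := by
  rw [card_nb_eq, filter_map, card_map]
  congr 1
  exact filter_congr fun e _ => tok_mem e.1 v

theorem p_TOK :
    S_TOK := by
  intro n X d hX hd
  obtain ⟨σ, hσ⟩ := tok_cyc {e // e ∈ X}
  refine tok_gen _ _ σ _ _ d (fun v => ?_) fun S hS => ⟨fun v => ?_, hσ S ?_⟩
  · rw [cnt_eq, ← tok_card]
    refine le_trans (card_le_card (nb_mono ?_ v)) (hd v)
    intro e he
    obtain ⟨a, -, rfl⟩ := mem_map.1 he
    exact a.2
  · have h := hS.1 v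
    rw [tok_card, filter_or, card_union_of_disjoint] at h
    · rw [cnt_eq, cnt_eq]
      exact h
    · refine disjoint_filter.2 fun e _ h1 h2 => tok_ne e.1 (hX _ e.2) (h1.trans h2.symm)
  · have h := hS.2
    rwa [card_map] at h

end Pool.Agent.P.MP_224820_co.St
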