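import Pool.Agent.P.MP_224820_co.St.BaseB

/-! The transport lemma: clustering the hazards pair by pair can only increase the failure
probability of an increasing event that uses one element of each block. -/

set_option autoImplicit false

namespace Pool.Agent.P.MP_224820_co.St

open Finset

variable {α : Type} [Fintype α] [DecidableEq α]

/-- the event needs at most one element of `S` -/
def Once {γ : Type} [DecidableEq γ] (S : Finset γ) (E : Finset γ → Prop) : Prop :=
  ∀ R, E R → E (R \ S) ∨ ∃ t ∈ R ∩ S, E (insert t (R \ S))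

/-- expectations of increasing functions are increasing in the probabilities -/
theorem Ex_mono_p {p p' : α → ℝ} (hp : IsP p) (hp' : IsP p') (h : ∀ a, p a ≤ p' a)
    {f : Finset α → ℝ} (hf : ∀ R R', R ⊆ R' → f R ≤ f R') : Ex p f ≤ Ex p' f := by
  have key : ∀ A : Finset α, Ex p f ≤ Ex (fun a => if a ∈ A then p' a else p a) f := by
    intro A
    induction A using Finset.induction_on with
    | empty => simp
    | insert a A ha ih =>
      refine ih.trans ?_
      have hP : IsP (fun x => if x ∈ A then p' x else p x) := fun x => by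
        by_cases hx : x ∈ A
        · simpa [hx] using hp' x
        · simpa [hx] using hp x
      rw [Ex_coord _ a, Ex_coord (fun x => if x ∈ insert a A then p' x else p x) a]
      rw [Ex_loc (p := fun x => if x ∈ insert a A then p' x else p x)
        (p' := fun x => if x ∈ A then p' x else p x) (s := {a}ᶜ)]
      · refine Ex_mono hP fun R => ?_
        simp only [if_neg ha, mem_insert_self, if_true]
        have h1 := hf (R.erase a) (insert a R) ((erase_subset a R).trans (subset_insert a R))
        have h2 := h a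
        nlinarith
      · intro R R' hR
        have e : ∀ x, x ≠ a → (x ∈ R ↔ x ∈ R') := fun x hx => by
          have := congrArg (fun Z => x ∈ Z) hR
          simpa [hx] using this
        have e1 : insert a R = insert a R' := by
          ext x; by_cases hx : x = a
          · simp [hx]
          · simp [hx, e x hx]
        have e2 : R.erase a = R'.erase a := by
          ext x; by_cases hx : x = a
          · simp [hx]
          · simp [hx, e x hx]
        simp only [e1, e2]
      · intro x hx
        have : x ≠ a := by simpa using hx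
        simp [this]
  simpa using key univ

theorem Pr_mono_p {p p' : α → ℝ} (hp : IsP p) (hp' : IsP p') (h : ∀ a, p a ≤ p' a)
    {E : Finset α → Prop} (hE : Incr E) : Pr p E ≤ Pr p' E := by
  classical
  rw [Pr_eq, Pr_eq]
  refine Ex_mono_p hp hp' h fun R R' hR => ?_
  by_cases h1 : E R
  · simp [h1, hE R R' hR h1]
  · rw [if_neg h1]; split_ifs <;> norm_num

theorem Pr_not_mono_p {p p' : α → ℝ} (hp : IsP p) (hp' : IsP p') (h : ∀ a, p a ≤ p' a)
    {E : Finset α → Prop} (hE : Incr E) : Pr p' (fun R => ¬ E R) ≤ Pr p (fun R => ¬ E R) := by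
  rw [Pr_not, Pr_not]
  linarith [Pr_mono_p hp hp' h hE]

theorem hz_mono {β : Type} {h h' : β → ℝ} (hh : ∀ a, h a ≤ h' a) (a : β) : hz h a ≤ hz h' a := by
  have := Real.exp_le_exp.2 (neg_le_neg (hh a))
  simp only [hz]; linarith

open Classical in
/-- conditional failure probability given the coordinates outside `S` -/
noncomputable def jfail (S : Finset α) (E : Finset α → Prop) (p : α → ℝ) (Q : Finset α) : ℝ :=
  (if E (Q \ S) then 0 else 1) * ∏ t ∈ S.filter (fun t => E (insert t (Q \ S))), (1 - p t)

theorem jfail_loc (S : Finset α) (E : Finset α → Prop) (p : α → ℝ) : Loc Sᶜ (jfail S E p) := by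
  intro R R' h
  have : R \ S = R' \ S := by rw [sdiff_eq_inter_compl, sdiff_eq_inter_compl, h]
  unfold jfail
  rw [this]

theorem Pr_not_eq_jfail {S : Finset α} {E : Finset α → Prop} (hE : Incr E) (hS : Once S E)
    (p : α → ℝ) : Pr p (fun R => ¬ E R) = Ex p (jfail S E p) := by
  classical
  rw [Pr_eq, Ex_split p Sᶜ]
  refine Ex_congr fun Q => ?_
  rw [jfail, ← Pr_disjoint, Pr_eq, ← Ex_mul]
  refine Ex_congr fun R => ?_
  have e0 : Q ∩ Sᶜ ∪ R \ Sᶜ = Q \ S ∪ R ∩ S := by
    ext x; simp
  have e1 : (Q \ S ∪ R ∩ S) \ S = Q \ S := by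
    ext x; simp only [mem_sdiff, mem_union, mem_inter]; tauto
  rw [e0]
  by_cases h0 : E (Q \ S)
  · have : E (Q \ S ∪ R ∩ S) := hE _ _ subset_union_left h0
    simp [h0, this]
  · by_cases h1 : Disjoint (S.filter fun t => E (insert t (Q \ S))) R
    · have : ¬ E (Q \ S ∪ R ∩ S) := by
        intro h
        rcases hS _ h with h2 | ⟨t, ht, h2⟩
        · rw [e1] at h2; exact h0 h2
        · rw [e1] at h2
          have ht' : t ∈ R ∧ t ∈ S := by
            simp only [mem_inter, mem_union, mem_sdiff] at ht; tauto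
          exact disjoint_left.1 h1 (mem_filter.2 ⟨ht'.2, h2⟩) ht'.1
      simp [h0, h1, this]
    · have : E (Q \ S ∪ R ∩ S) := by
        obtain ⟨t, ht, htR⟩ := not_disjoint_iff.1 h1
        refine hE _ _ ?_ (mem_filter.1 ht).2
        refine insert_subset (mem_union_right _ (mem_inter.2 ⟨htR, (mem_filter.1 ht).1⟩))
          subset_union_left
      simp [h0, h1, this]

/-- two-point Jensen step -/
theorem mix_step {S : Finset α} {E : Finset α → Prop} (hE : Incr E) (hS : Once S E)
    {pm p0 p1 : α → ℝ} (hp : IsP pm) (h0 : ∀ t, t ∉ S → p0 t = pm t) (h1 : ∀ t, t ∉ S → p1 t = pm t)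
    (l : ℝ) (hc : ∀ G : Finset α, ∏ t ∈ G, (1 - pm t) ≤
      l * ∏ t ∈ G, (1 - p1 t) + (1 - l) * ∏ t ∈ G, (1 - p0 t)) :
    Pr pm (fun R => ¬ E R) ≤ l * Pr p1 (fun R => ¬ E R) + (1 - l) * Pr p0 (fun R => ¬ E R) := by
  classical
  rw [Pr_not_eq_jfail hE hS, Pr_not_eq_jfail hE hS, Pr_not_eq_jfail hE hS,
    Ex_loc (p := p1) (p' := pm) (jfail_loc S E p1) (fun a ha => h1 a (by simpa using ha)),
    Ex_loc (p := p0) (p' := pm) (jfail_loc S E p0) (fun a ha => h0 a (by simpa using ha)),
    ← Ex_mul, ← Ex_mul, ← Ex_add]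
  refine Ex_mono hp fun Q => ?_
  simp only [jfail]
  split_ifs
  · simp
  · simpa using hc _

variable {β : Type} [Fintype β] [DecidableEq β]

/-- averaging out the status bit `y` -/
def javg (q : β → ℝ) (y : β) (H : Finset β → α → ℝ) : Finset β → α → ℝ :=
  fun s t => q y * H (insert y s) t + (1 - q y) * H (s.erase y) t

/-- the hybrid argument, one status bit at a time -/
theorem hybrid {q : β → ℝ} (hq : IsP q) (S : β → Finset α) {E : Finset α → Prop} (hE : Incr E)
    (hS : ∀ y, Once (S y) E) (φ : ℝ → ℝ) (Adm : (Finset β → α → ℝ) → Prop)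
    (hP : ∀ H, Adm H → ∀ s, IsP fun t => φ (H s t))
    (havg : ∀ H y, Adm H → Adm (javg q y H))
    (hconv : ∀ H y s (G : Finset α), Adm H → ∏ t ∈ G, (1 - φ (javg q y H s t)) ≤
      q y * ∏ t ∈ G, (1 - φ (H (insert y s) t)) + (1 - q y) * ∏ t ∈ G, (1 - φ (H (s.erase y) t)))
    (A : Finset β) : ∀ H, Adm H → (∀ t, Loc (A.filter fun y => t ∈ S y) fun s => H s t) →
      Pr (fun t => φ (Ex q fun s => H s t)) (fun R => ¬ E R) ≤
        Ex q fun s => Pr (fun t => φ (H s t)) (fun R => ¬ E R) := by
  induction A using Finset.induction_on with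
  | empty =>
    intro H _ hL
    have e : ∀ s t, H s t = H ∅ t := fun s t => hL t s ∅ (by simp)
    simp only [e, Ex_const, le_refl]
  | insert y A hy ih =>
    intro H hH hL
    have hL' : ∀ t, Loc (A.filter fun y => t ∈ S y) fun s => javg q y H s t := by
      intro t R R' h
      have e : ∀ x, x ∈ A → t ∈ S x → (x ∈ R ↔ x ∈ R') := fun x hx ht => by
        have := congrArg (fun Z => x ∈ Z) h
        simpa [hx, ht] using this
      have e1 : H (insert y R) t = H (insert y R') t := hL t _ _ (by
        ext x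
        simp only [mem_inter, mem_insert, mem_filter]
        have := e x
        tauto)
      have e2 : H (R.erase y) t = H (R'.erase y) t := hL t _ _ (by
        ext x
        simp only [mem_inter, mem_insert, mem_filter, mem_erase]
        have := e x
        tauto)
      simp only [javg, e1, e2]
    have e3 : (fun t => φ (Ex q fun s => H s t)) = fun t => φ (Ex q fun s => javg q y H s t) := by
      funext t
      rw [Ex_coord q y]; rfl
    rw [e3, Ex_coord q y fun s => Pr (fun t => φ (H s t)) (fun R => ¬ E R)]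
    refine (ih _ (havg H y hH) hL').trans (Ex_mono hq fun s => ?_)
    have e4 : ∀ t, t ∉ S y → H (s.erase y) t = H (insert y s) t := fun t ht => hL t _ _ (by
      ext x
      simp only [mem_inter, mem_insert, mem_filter, mem_erase]
      by_cases hx : x = y
      · subst hx; tauto
      · tauto)
    refine mix_step hE (hS y) (hP _ (havg H y hH) s) (fun t ht => ?_) (fun t ht => ?_) (q y)
      (fun G => hconv H y s G hH)
    · simp only [javg, e4 t ht]; congr 1; ring
    · simp only [javg, e4 t ht]; congr 1; ring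

/-- **Transport lemma**, hazard form. -/
theorem transport_hz {q : β → ℝ} (hq : IsP q) (S : β → Finset α) {E : Finset α → Prop}
    (hE : Incr E) (hS : ∀ y, Once (S y) E) (H : Finset β → α → ℝ) (h0 : ∀ s t, 0 ≤ H s t)
    (hL : ∀ t, Loc (univ.filter fun y => t ∈ S y) fun s => H s t) {h : α → ℝ}
    (hh : ∀ t, Ex q (fun s => H s t) ≤ h t) :
    Pr (hz h) (fun R => ¬ E R) ≤ Ex q fun s => Pr (hz (H s)) (fun R => ¬ E R) := by
  have hm : ∀ t, 0 ≤ Ex q fun s => H s t := fun t => Ex_nonneg hq fun s => h0 s t
  refine (Pr_not_mono_p (hz_isP hm) (hz_isP fun t => (hm t).trans (hh t)) (hz_mono hh) hE).trans ?_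
  refine hybrid hq S hE hS (fun x => 1 - Real.exp (-x)) (fun H => ∀ s t, 0 ≤ H s t)
    (fun H hH s => hz_isP (hH s)) (fun H y hH s t => ?_) (fun H y s G _ => ?_) univ H h0 hL
  · have := (hq y).1
    have := sub_nonneg.2 (hq y).2
    have := hH (insert y s) t
    have := hH (s.erase y) t
    simp only [javg]; positivity
  · simp only [sub_sub_cancel, ← Real.exp_sum]
    have := convexOn_exp.2 (Set.mem_univ (∑ t ∈ G, -H (insert y s) t))
      (Set.mem_univ (∑ t ∈ G, -H (s.erase y) t)) (hq y).1 (sub_nonneg.2 (hq y).2) (by ring)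
    simp only [smul_eq_mul] at this
    refine le_trans (le_of_eq ?_) this
    congr 1
    rw [mul_sum, mul_sum, ← sum_add_distrib]
    exact sum_congr rfl fun t _ => by simp only [javg]; ring

theorem prod_mix_le {ι : Type} (G : Finset ι) (a b : ι → ℝ) {l : ℝ} (l0 : 0 ≤ l) (l1 : l ≤ 1)
    (ha : ∀ i, 0 ≤ a i) (hab : ∀ i, a i ≤ b i) :
    ∏ i ∈ G, (l * a i + (1 - l) * b i) ≤ l * ∏ i ∈ G, a i + (1 - l) * ∏ i ∈ G, b i := by
  classical
  induction G using Finset.induction_on with
  | empty => simp
  | insert i G hi ih =>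
    rw [prod_insert hi, prod_insert hi, prod_insert hi]
    have h1 : ∏ i ∈ G, a i ≤ ∏ i ∈ G, b i := prod_le_prod (fun i _ => ha i) fun i _ => hab i
    have h2 : 0 ≤ l * a i + (1 - l) * b i := by
      have := ha i
      have := (ha i).trans (hab i)
      have := sub_nonneg.2 l1
      positivity
    refine (mul_le_mul_of_nonneg_left ih h2).trans ?_
    have h3 : 0 ≤ l * (1 - l) * ((b i - a i) * (∏ i ∈ G, b i - ∏ i ∈ G, a i)) :=
      mul_nonneg (mul_nonneg l0 (sub_nonneg.2 l1))
        (mul_nonneg (sub_nonneg.2 (hab i)) (sub_nonneg.2 h1))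
    nlinarith

/-- **Transport lemma**, probability form for monotone dependence on the statuses. -/
theorem transport_p {q : β → ℝ} (hq : IsP q) (S : β → Finset α) {E : Finset α → Prop}
    (hE : Incr E) (hS : ∀ y, Once (S y) E) (P : Finset β → α → ℝ) (hP : ∀ s, IsP (P s))
    (hm : ∀ s s', s ⊆ s' → ∀ t, P s t ≤ P s' t)
    (hL : ∀ t, Loc (univ.filter fun y => t ∈ S y) fun s => P s t) {p : α → ℝ} (hp : IsP p)
    (hh : ∀ t, Ex q (fun s => P s t) ≤ p t) :
    Pr p (fun R => ¬ E R) ≤ Ex q fun s => Pr (P s) (fun R => ¬ E R) := by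
  have hI : IsP fun t => Ex q fun s => P s t :=
    fun t => ⟨Ex_nonneg hq fun s => (hP s t).1, (hh t).trans (hp t).2⟩
  refine (Pr_not_mono_p hI hp hh hE).trans ?_
  refine hybrid hq S hE hS id (fun H => (∀ s, IsP (H s)) ∧ ∀ s s', s ⊆ s' → ∀ t, H s t ≤ H s' t)
    (fun H hH s => hH.1 s) (fun H y hH => ⟨fun s t => ?_, fun s s' hs t => ?_⟩)
    (fun H y s G hH => ?_) univ P ⟨hP, hm⟩ hL
  · obtain ⟨q0, q1⟩ := hq y
    obtain ⟨a0, a1⟩ := hH.1 (insert y s) t
    obtain ⟨b0, b1⟩ := hH.1 (s.erase y) t
    simp only [javg]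
    constructor <;> nlinarith
  · obtain ⟨q0, q1⟩ := hq y
    have h1 := hH.2 _ _ (insert_subset_insert y hs) t
    have h2 := hH.2 _ _ (erase_subset_erase y hs) t
    simp only [javg]
    nlinarith
  · refine le_trans (le_of_eq ?_) (prod_mix_le G (fun t => 1 - H (insert y s) t)
      (fun t => 1 - H (s.erase y) t) (hq y).1 (hq y).2 (fun t => sub_nonneg.2 (hH.1 _ t).2)
      fun t => sub_le_sub_left (hH.2 _ _ ((erase_subset y s).trans (subset_insert y s)) t) 1)
    exact prod_congr rfl fun t _ => by simp only [javg, id]; ring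

/-- the image of a random set has independent coordinates -/
theorem Ex_image (tr : β → α) (q : β → ℝ) (f : Finset α → ℝ) :
    Ex q (fun R => f (R.image tr)) =
      Ex (fun a => 1 - ∏ i ∈ univ.filter (fun i => tr i = a), (1 - q i)) f := by
  classical
  have e : ∀ R : Finset β, f (R.image tr) = ∑ B : Finset α, f B * ∏ a : α,
      (if a ∈ B then 1 - (if Disjoint (univ.filter fun i => tr i = a) R then 1 else 0)
        else (if Disjoint (univ.filter fun i => tr i = a) R then (1 : ℝ) else 0)) := by
    intro R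
    have hd : ∀ a, Disjoint (univ.filter fun i => tr i = a) R ↔ a ∉ R.image tr := fun a => by
      simp only [disjoint_left, mem_filter, mem_univ, true_and, mem_image, not_exists, not_and]
      exact ⟨fun h x hx hxa => h hxa hx, fun h x hxa hx => h x hx hxa⟩
    simp only [hd]
    rw [sum_eq_single (R.image tr)]
    · rw [prod_eq_one, mul_one]
      intro a _
      by_cases ha : a ∈ R.image tr
      · rw [if_pos ha, if_neg (not_not.2 ha)]; ring
      · rw [if_neg ha, if_pos ha]
    · intro B _ hB
      obtain ⟨a, ha⟩ : ∃ a, ¬ (a ∈ B ↔ a ∈ R.image tr) := by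
        by_contra hc
        push Not at hc
        exact hB (Finset.ext hc)
      rw [prod_eq_zero (mem_univ a), mul_zero]
      by_cases h1 : a ∈ B
      · have h2 : a ∉ R.image tr := fun h => ha ⟨fun _ => h, fun _ => h1⟩
        rw [if_pos h1, if_pos h2]; ring
      · have h2 : a ∈ R.image tr := by
          by_contra h; exact ha ⟨fun h3 => absurd h3 h1, fun h3 => absurd h3 h⟩
        rw [if_neg h1, if_neg (not_not.2 h2)]
    · simp
  rw [Ex_congr e, Ex_sum]
  conv_rhs => rw [Ex]
  refine sum_congr rfl fun B _ => ?_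
  rw [Ex_mul, mul_comm, Ex_prod_loc q univ (fun a => univ.filter fun i => tr i = a)]
  · congr 1
    refine prod_congr rfl fun a _ => ?_
    have h := Pr_disjoint q (univ.filter fun i => tr i = a)
    rw [Pr_eq] at h
    by_cases ha : a ∈ B
    · simp only [if_pos ha]
      rw [Ex_sub, Ex_const, h]
    · simp only [if_neg ha]
      rw [h]; ring
  · intro a _ b _ hab
    refine disjoint_left.2 fun i hi hj => hab ?_
    rw [← (mem_filter.1 hi).2, (mem_filter.1 hj).2]
  · intro a _ R R' h
    have : Disjoint (univ.filter fun i => tr i = a) R ↔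
        Disjoint (univ.filter fun i => tr i = a) R' := by
      rw [disjoint_iff_inter_eq_empty, disjoint_iff_inter_eq_empty, inter_comm, h, inter_comm]
    simp only [this]

/-- hazards add up under images -/
theorem Ex_image_hz (tr : β → α) (h : β → ℝ) (f : Finset α → ℝ) :
    Ex (hz h) (fun R => f (R.image tr)) =
      Ex (hz fun a => ∑ i ∈ univ.filter (fun i => tr i = a), h i) f := by
  rw [Ex_image]
  congr 1
  funext a
  simp only [hz, sub_sub_cancel, ← Real.exp_sum, sum_neg_distrib]

/-- the union of two independent random sets -/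
theorem Ex_union (p q : α → ℝ) (f : Finset α → ℝ) :
    Ex p (fun Q => Ex q fun R => f (Q ∪ R)) = Ex (fun a => 1 - (1 - p a) * (1 - q a)) f := by
  have h := Ex_image (Sum.elim id id : α ⊕ α → α) (Sum.elim p q) f
  rw [Ex_disjSum] at h
  have e1 : ∀ Q R : Finset α, (Q.disjSum R).image (Sum.elim id id : α ⊕ α → α) = Q ∪ R := by
    intro Q R; ext x; simp
  have e2 : ∀ a : α, (univ.filter fun i : α ⊕ α => Sum.elim id id i = a) =
      {Sum.inl a, Sum.inr a} := by
    intro a; ext i; cases i <;> simp
  simp only [e1, e2] at h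
  rw [h]
  congr 1
  funext a
  rw [prod_pair (by simp)]; rfl

theorem Ex_union_hz (h h' : α → ℝ) (f : Finset α → ℝ) :
    Ex (hz h) (fun Q => Ex (hz h') fun R => f (Q ∪ R)) = Ex (hz fun a => h a + h' a) f := by
  rw [Ex_union]
  congr 1
  funext a
  simp only [hz, sub_sub_cancel, ← Real.exp_add, neg_add]

theorem Pr_union (p q : α → ℝ) (E : Finset α → Prop) :
    Pr (fun a => 1 - (1 - p a) * (1 - q a)) E = Ex p fun Q => Pr q fun R => E (Q ∪ R) := by
  classical
  rw [Pr_eq, ← Ex_union]
  exact Ex_congr fun Q => (Pr_eq q fun R => E (Q ∪ R)).symm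

theorem Pr_union_hz (h h' : α → ℝ) (E : Finset α → Prop) :
    Pr (hz fun a => h a + h' a) E = Ex (hz h) fun Q => Pr (hz h') fun R => E (Q ∪ R) := by
  classical
  rw [Pr_eq, ← Ex_union_hz]
  exact Ex_congr fun Q => (Pr_eq _ fun R => E (Q ∪ R)).symm

theorem Pr_image_hz (tr : β → α) (h : β → ℝ) (E : Finset α → Prop) :
    Pr (hz fun a => ∑ i ∈ univ.filter (fun i => tr i = a), h i) E =
      Pr (hz h) fun R => E (R.image tr) := by
  classical
  rw [Pr_eq, ← Ex_image_hz, Pr_eq]

end Pool.Agent.P.MP_224820_co.St
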