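import Pool.Agent.P.MP_224820_co.St.IfaceP
import Pool.Agent.P.MP_224820_co.St.Jensen

/-! Step TRANS. -/

set_option autoImplicit false

namespace Pool.Agent.P.MP_224820_co.St

open Finset

/-- mixing the probabilities on a block that the event uses once -/
theorem trans_mix {α K : Type} [Fintype α] [DecidableEq α] [Fintype K] [DecidableEq K]
    {S : Finset α} {E : Finset α → Prop} (hE : Incr E) (hS : Once S E) {pm : α → ℝ} (hp : IsP pm)
    (π : K → ℝ) (P : Finset K → α → ℝ) (h0 : ∀ s t, t ∉ S → P s t = pm t)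
    (hc : ∀ G ⊆ S, ∏ t ∈ G, (1 - pm t) ≤ Ex π fun s => ∏ t ∈ G, (1 - P s t)) :
    Pr pm (fun R => ¬ E R) ≤ Ex π fun s => Pr (P s) (fun R => ¬ E R) := by
  classical
  have e1 : ∀ s, Pr (P s) (fun R => ¬ E R) = Ex pm (fun Q => jfail S E (P s) Q) := fun s => by
    rw [Pr_not_eq_jfail hE hS]
    exact Ex_loc (jfail_loc S E (P s)) fun a ha => h0 s a (by simpa using ha)
  rw [Ex_congr e1, ← Ex_comm, Pr_not_eq_jfail hE hS]
  refine Ex_mono hp fun Q => ?_
  simp only [jfail]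
  rw [Ex_mul]
  split_ifs
  · simp
  · simpa using hc _ (filter_subset _ _)

theorem trans_pow {E : Type} {ρ : ℝ} (h0 : 0 < ρ) (h1 : ρ ≤ 1) (A : Finset E) (k : ℕ)
    (hk : A.card ≤ k) (f : E → ℝ) (hf : ∀ e, 0 ≤ f e ∧ f e ≤ 1 / ρ) :
    0 ≤ ρ ^ k * ∏ e ∈ A, f e ∧ ρ ^ k * ∏ e ∈ A, f e ≤ 1 := by
  have hn : 0 ≤ ∏ e ∈ A, f e := prod_nonneg fun e _ => (hf e).1
  refine ⟨mul_nonneg (pow_nonneg h0.le _) hn, ?_⟩
  have h2 : ∏ e ∈ A, f e ≤ (1 / ρ) ^ A.card := by
    rw [← prod_const]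
    exact prod_le_prod (fun e _ => (hf e).1) fun e _ => (hf e).2
  have h3 : ρ ^ k ≤ ρ ^ A.card := pow_le_pow_of_le_one h0.le h1 hk
  calc ρ ^ k * ∏ e ∈ A, f e ≤ ρ ^ A.card * (1 / ρ) ^ A.card :=
        mul_le_mul h3 h2 hn (pow_nonneg h0.le _)
    _ = 1 := by rw [← mul_pow, mul_one_div_cancel h0.ne', one_pow]

/-- inclusion probabilities when the pairs in `Q` have received their statuses -/
noncomputable def transP {K E Y Λ : Type} [DecidableEq E] [Fintype Λ] (lam0 : ℝ) (lam : Λ → ℝ)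
    (σ : Λ → Finset K → ℝ) (τ : Finset K → ℝ) (ρ : ℝ) (ed' : Y → Finset E) (Q : Finset E)
    (c : E → Finset K) (y : Y) : ℝ :=
  1 - Real.exp (-(lam0 + ∑ l, lam l * ∏ e ∈ ed' y ∩ Q, σ l (c e)))
    * (1 - ρ ^ 3 * ∏ e ∈ ed' y ∩ Q, τ (c e))

theorem trans_isP {K E Y Λ : Type} [DecidableEq E] [Fintype Λ] {lam0 : ℝ} {lam : Λ → ℝ}
    {σ : Λ → Finset K → ℝ} {τ : Finset K → ℝ} {ρ : ℝ} {ed' : Y → Finset E}
    (hσ : ∀ l s, 0 ≤ σ l s) (h0 : 0 < ρ) (h1 : ρ ≤ 1) (hτ : ∀ s, 0 ≤ τ s ∧ τ s ≤ 1 / ρ)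
    (h3 : ∀ y, (ed' y).card ≤ 3) (hl0 : 0 ≤ lam0) (hl : ∀ l, 0 ≤ lam l) (Q : Finset E)
    (c : E → Finset K) : IsP (transP lam0 lam σ τ ρ ed' Q c) := by
  intro y
  obtain ⟨a0, a1⟩ := trans_pow h0 h1 (ed' y ∩ Q) 3
    ((card_le_card inter_subset_left).trans (h3 y)) (fun e => τ (c e)) fun e => hτ _
  have b0 : 0 ≤ lam0 + ∑ l, lam l * ∏ e ∈ ed' y ∩ Q, σ l (c e) :=
    add_nonneg hl0 (sum_nonneg fun l _ => mul_nonneg (hl l) (prod_nonneg fun e _ => hσ _ _))
  have b1 : Real.exp (-(lam0 + ∑ l, lam l * ∏ e ∈ ed' y ∩ Q, σ l (c e))) ≤ 1 :=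
    Real.exp_le_one_iff.2 (by linarith)
  have b2 := Real.exp_pos (-(lam0 + ∑ l, lam l * ∏ e ∈ ed' y ∩ Q, σ l (c e)))
  unfold transP
  constructor <;> nlinarith

theorem trans_st {K E : Type} [Fintype K] [DecidableEq K] [Fintype E] [DecidableEq E] (e : E)
    (A R : Finset (K × E)) :
    st (A ∩ univ.filter (fun x => x.2 = e) ∪ R \ univ.filter (fun x => x.2 = e))
      = Function.update (st R) e (st A e) := by
  funext e'
  by_cases h : e' = e
  · subst h
    ext k
    simp [st]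
  · rw [Function.update_of_ne h]
    ext k
    simp [st, h]

theorem trans_upd {K E : Type} [DecidableEq E] {e : E} {A : Finset E} (he : e ∉ A)
    (c : E → Finset K) (s : Finset K) (f : Finset K → ℝ) :
    ∏ e' ∈ A, f (Function.update c e s e') = ∏ e' ∈ A, f (c e') :=
  prod_congr rfl fun e' h => by rw [Function.update_of_ne (fun h2 : e' = e => he (h2 ▸ h))]

theorem p_TRANS (hTRK : S_TRK) (hMONO : S_MONO) (hSLICE : S_SLICE) :
    S_TRANS := by
  classical
  intro K E Y Λ _ _ _ _ _ _ _ π hπ σ hσ hσ2 Lst ρ h0 h1 hL ed' h3 lam0 lam hl0 hl Ev hEv hOnce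
    p hp hpy
  set τ : Finset K → ℝ := fun s => if Lst s then 1 / ρ else 0 with hτd
  have hτ : ∀ s, 0 ≤ τ s ∧ τ s ≤ 1 / ρ := fun s => by
    have : 0 < 1 / ρ := by positivity
    simp only [hτd]
    split_ifs
    · exact ⟨this.le, le_rfl⟩
    · exact ⟨le_rfl, this.le⟩
  have hP := trans_isP (lam0 := lam0) (lam := lam) hσ h0 h1 hτ h3 hl0 hl
  have hπ' : IsP (fun x : K × E => π x.1) := fun x => hπ x.1
  have step : ∀ (e : E) (Q : Finset E), e ∉ Q → ∀ c : E → Finset K,
      Pr (transP lam0 lam σ τ ρ ed' Q c) (fun T => ¬ Ev T) ≤ Ex π fun s =>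
        Pr (transP lam0 lam σ τ ρ ed' (insert e Q) (Function.update c e s)) (fun T => ¬ Ev T) := by
    intro e Q he c
    have hn : ∀ y, e ∉ ed' y ∩ Q := fun y h => he (mem_inter.1 h).2
    refine trans_mix (S := univ.filter fun y => e ∈ ed' y) hEv ?_ (hP Q c) π _ ?_ ?_
    · intro T hT
      have e1 : T \ univ.filter (fun y => e ∈ ed' y) = T.filter fun y => e ∉ ed' y := by
        ext y
        simp
      rw [e1]
      rcases hOnce e T hT with h | ⟨y, hy, hy2, h⟩
      · exact Or.inl h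
      · exact Or.inr ⟨y, by simp [hy, hy2], h⟩
    · intro s y hy
      have hy' : e ∉ ed' y := by simpa using hy
      unfold transP
      rw [inter_insert_of_notMem hy', trans_upd (hn y) c s τ,
        sum_congr rfl fun l _ => by rw [trans_upd (hn y) c s (σ l)]]
    · intro G hG
      have hy : ∀ y ∈ G, e ∈ ed' y := fun y h => by simpa using hG h
      have key := hTRK K Y Λ π hπ σ hσ hσ2 Lst ρ h0 h1 hL G
        (fun l y => lam l * ∏ e' ∈ ed' y ∩ Q, σ l (c e'))
        (fun y => ρ ^ 3 * ∏ e' ∈ ed' y ∩ Q, τ (c e'))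
        (fun l y _ => mul_nonneg (hl l) (prod_nonneg fun e _ => hσ _ _))
        (fun y h => by
          have hc : (ed' y ∩ Q).card ≤ 2 := by
            have h4 : ed' y ∩ Q ⊆ (ed' y).erase e := fun z hz =>
              mem_erase.2 ⟨fun h5 => hn y (h5 ▸ hz), (mem_inter.1 hz).1⟩
            have h5 := card_le_card h4
            rw [card_erase_of_mem (hy y h)] at h5
            have := h3 y
            omega
          obtain ⟨a0, a1⟩ := trans_pow h0 h1 (ed' y ∩ Q) 2 hc (fun e => τ (c e)) fun e => hτ _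
          have e3 : ρ ^ 3 * ∏ e' ∈ ed' y ∩ Q, τ (c e')
              = ρ * (ρ ^ 2 * ∏ e' ∈ ed' y ∩ Q, τ (c e')) := by ring
          rw [e3]
          constructor <;> nlinarith)
      have e1 : ∏ y ∈ G, (1 - transP lam0 lam σ τ ρ ed' Q c y) = (∏ _y ∈ G, Real.exp (-lam0)) *
          ∏ y ∈ G, (Real.exp (-∑ l, lam l * ∏ e' ∈ ed' y ∩ Q, σ l (c e'))
            * (1 - ρ ^ 3 * ∏ e' ∈ ed' y ∩ Q, τ (c e'))) := by
        rw [← prod_mul_distrib]
        refine prod_congr rfl fun y _ => ?_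
        unfold transP
        rw [neg_add, Real.exp_add]
        ring
      have e2 : ∀ s, ∏ y ∈ G, (1 - transP lam0 lam σ τ ρ ed' (insert e Q) (Function.update c e s) y)
          = (∏ _y ∈ G, Real.exp (-lam0)) *
          ∏ y ∈ G, (Real.exp (-∑ l, σ l s * (lam l * ∏ e' ∈ ed' y ∩ Q, σ l (c e')))
            * (1 - if Lst s then (ρ ^ 3 * ∏ e' ∈ ed' y ∩ Q, τ (c e')) / ρ else 0)) := by
        intro s
        rw [← prod_mul_distrib]
        refine prod_congr rfl fun y h => ?_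
        unfold transP
        have e4 : ∑ l, lam l * ∏ e' ∈ insert e (ed' y ∩ Q), σ l (Function.update c e s e')
            = ∑ l, σ l s * (lam l * ∏ e' ∈ ed' y ∩ Q, σ l (c e')) := by
          refine sum_congr rfl fun l _ => ?_
          rw [prod_insert (hn y), trans_upd (hn y) c s (σ l), Function.update_self]
          ring
        rw [inter_insert_of_mem (hy y h), e4, prod_insert (hn y), trans_upd (hn y) c s τ,
          Function.update_self, neg_add, Real.exp_add]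
        simp only [hτd]
        split_ifs <;> ring
      rw [e1, Ex_congr e2, Ex_mul]
      exact mul_le_mul_of_nonneg_left key (prod_nonneg fun _ _ => (Real.exp_pos _).le)
  have main : ∀ Q : Finset E, Pr p (fun T => ¬ Ev T) ≤ Ex (fun x : K × E => π x.1) fun ξ =>
      Pr (transP lam0 lam σ τ ρ ed' Q (st ξ)) (fun T => ¬ Ev T) := by
    intro Q
    induction Q using Finset.induction_on with
    | empty =>
      rw [← Ex_const (fun x : K × E => π x.1) (Pr p fun T => ¬ Ev T)]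
      refine Ex_mono hπ' fun ξ => hMONO Y _ _ (hP ∅ _) hp (fun y => ?_) Ev hEv
      have := hpy y
      simp only [transP, inter_empty, prod_empty, mul_one]
      linarith
    | insert e Q he ih =>
      refine ih.trans ?_
      rw [Ex_split _ (univ.filter fun x : K × E => x.2 = e) (fun ξ =>
        Pr (transP lam0 lam σ τ ρ ed' (insert e Q) (st ξ)) (fun T => ¬ Ev T)), Ex_comm]
      refine Ex_mono hπ' fun R => ?_
      simp only [trans_st]
      rw [(hSLICE K E π).2 e fun s =>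
        Pr (transP lam0 lam σ τ ρ ed' (insert e Q) (Function.update (st R) e s)) (fun T => ¬ Ev T)]
      exact step e Q he (st R)
  refine (main univ).trans (Ex_mono hπ' fun ξ => ?_)
  have hz0 : ∀ y, 0 ≤ hzs lam0 lam σ ed' ξ y := fun y =>
    add_nonneg hl0 (sum_nonneg fun l _ => mul_nonneg (hl l) (prod_nonneg fun e _ => hσ _ _))
  refine le_trans (Pr_mono_ae (hP univ _) (E' := fun T => ¬ Ev (T ∪ sure Lst ed' ξ))
    fun T _ hT h => ?_) (hMONO Y _ _ (hz_isP hz0) (hP univ _) (fun y => ?_)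
      (fun T => Ev (T ∪ sure Lst ed' ξ)) fun T T' hT h => hEv _ _ (union_subset_union_left hT) h)
  · have : sure Lst ed' ξ ⊆ T := fun y hy => by
      obtain ⟨hc, hs⟩ : (ed' y).card = 3 ∧ ∀ e ∈ ed' y, Lst (st ξ e) := by simpa [sure] using hy
      refine hT y ?_
      have e5 : ∏ e ∈ ed' y, τ (st ξ e) = (1 / ρ) ^ 3 := by
        rw [← hc, ← prod_const]
        exact prod_congr rfl fun e he => by simp only [hτd, if_pos (hs e he)]
      unfold transP
      rw [inter_univ, e5, ← mul_pow, mul_one_div_cancel h0.ne']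
      simp
    rwa [union_eq_left.2 this]
  · obtain ⟨a0, -⟩ := trans_pow h0 h1 (ed' y) 3 (h3 y) (fun e => τ (st ξ e)) fun e => hτ _
    have b2 := Real.exp_pos (-(lam0 + ∑ l, lam l * ∏ e ∈ ed' y, σ l (st ξ e)))
    simp only [hz, hzs, transP, inter_univ]
    nlinarith

end Pool.Agent.P.MP_224820_co.St
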