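import Pool.Agent.P.MP_224820_co.St.IfaceA

/-! Step TUBE. -/

set_option autoImplicit false

namespace Pool.Agent.P.MP_224820_co.St

open Finset

theorem tube_A {W : Type} (x : ℕ → W) (t : ℕ) :
    ∑ j ∈ range t, ({s(x (j + 5), x (j + 4)), s(x (j + 5), x (j + 1)), s(x (j + 5), x j)} :
      Multiset (Sym2 W)) + {s(x 0, x 1), s(x 1, x 2), s(x 2, x 3), s(x 3, x 4)}
    = ∑ j ∈ range t, ({s(x j, x (j + 1)), s(x (j + 1), x (j + 5)), s(x (j + 5), x j)} :
      Multiset (Sym2 W)) + {s(x t, x (t + 1)), s(x (t + 1), x (t + 2)), s(x (t + 2), x (t + 3)),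
        s(x (t + 3), x (t + 4))} := by
  induction t with
  | zero => simp
  | succ t ih =>
    rw [sum_range_succ, sum_range_succ, add_right_comm, ih]
    rw [Sym2.eq_swap (a := x (t + 5)) (b := x (t + 4)), Sym2.eq_swap (a := x (t + 5)) (b := x (t + 1))]
    generalize (∑ j ∈ range t, ({s(x j, x (j + 1)), s(x (j + 1), x (j + 5)), s(x (j + 5), x j)} :
      Multiset (Sym2 W))) = M
    simp only [Multiset.insert_eq_cons, ← Multiset.singleton_add, add_assoc t, Nat.reduceAdd]
    abel

theorem tube_B {W : Type} (x : ℕ → W) (t : ℕ) :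
    ∑ j ∈ range t, ({s(x (j + 5), x (j + 4)), s(x (j + 5), x (j + 1)), s(x (j + 5), x j)} :
      Multiset (Sym2 W)) + {s(x 0, x 4)}
    = ∑ j ∈ range t, ({s(x j, x (j + 4)), s(x (j + 4), x (j + 5)), s(x (j + 5), x j)} :
      Multiset (Sym2 W)) + {s(x t, x (t + 4))} := by
  induction t with
  | zero => simp
  | succ t ih =>
    rw [sum_range_succ, sum_range_succ, add_right_comm, ih]
    rw [Sym2.eq_swap (a := x (t + 5)) (b := x (t + 4)), Sym2.eq_swap (a := x (t + 5)) (b := x (t + 1))]
    generalize (∑ j ∈ range t, ({s(x j, x (j + 4)), s(x (j + 4), x (j + 5)), s(x (j + 5), x j)} :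
      Multiset (Sym2 W))) = M
    simp only [Multiset.insert_eq_cons, ← Multiset.singleton_add, add_assoc t, Nat.reduceAdd]
    abel

theorem p_TUBE :
    S_TUBE := by
  intro W x t
  unfold core
  constructor
  · rw [add_right_comm, tube_A, add_assoc]
    refine FD_add (FD_sum _ _ fun j _ => FD_tri _ _ _) ?_
    have h := FD_add (FD_tri (x t) (x (t + 1)) (x (t + 2))) (FD_tri (x (t + 2)) (x (t + 3)) (x (t + 4)))
    convert h using 1
    simp only [Multiset.insert_eq_cons, ← Multiset.singleton_add]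
    abel
  · rw [add_right_comm, tube_B, add_assoc]
    refine FD_add (FD_sum _ _ fun j _ => FD_tri _ _ _) ?_
    have h := FD_tri (x t) (x (t + 4)) (x (t + 2))
    convert h using 1
    simp only [Multiset.insert_eq_cons, ← Multiset.singleton_add]
    abel

end Pool.Agent.P.MP_224820_co.St
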