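import Pool.Agent.P.MP_224820_co.St.IfaceP

/-! Step TWO. -/

set_option autoImplicit false

namespace Pool.Agent.P.MP_224820_co.St

open Finset

theorem two_first (hSPR : S_SPR) (α : Type) [Fintype α] [DecidableEq α]
    (E Bad : Finset α → Prop) (hE : Incr E) (δ1 δ2 : ℝ) (h2 : 0 ≤ δ2)
    (p p1 p2 : α → ℝ) (hp : IsP p) (hp1 : IsP p1) (hp2 : IsP p2)
    (hle : ∀ a, 1 - p a ≤ (1 - p1 a) * (1 - p2 a)) (hB : Pr p1 Bad ≤ δ1)
    (hG : ∀ Q, ¬ Bad Q → Pr p2 (fun R => ¬ E (Q ∪ R)) ≤ δ2) :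
    Pr p (fun R => ¬ E R) ≤ δ1 + δ2 := by
  have h1 := hSPR α p p1 p2 hp hp1 hp2 hle E hE
  have h3 := Ex_le_bad hp1 Bad (f := fun Q => Pr p2 (fun R => ¬ E (Q ∪ R))) (δ := δ2) h2
    (fun Q => Pr_le_one hp2 _) hG
  linarith

theorem p_TWO (hSPR : S_SPR) :
    S_TWO := by
  intro α _ _ E Bad hE δ1 δ2 h2
  refine ⟨fun p p1 p2 hp hp1 hp2 hle hB hG =>
    two_first hSPR α E Bad hE δ1 δ2 h2 p p1 p2 hp hp1 hp2 hle hB hG, ?_⟩
  intro h h1 h2' g1 g2 hle hB hG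
  refine two_first hSPR α E Bad hE δ1 δ2 h2 (hz h) (hz h1) (hz h2')
    (hz_isP fun a => le_trans (add_nonneg (g1 a) (g2 a)) (hle a)) (hz_isP g1) (hz_isP g2)
    (fun a => ?_) hB hG
  simp only [hz, sub_sub_cancel]
  rw [← Real.exp_add]
  exact Real.exp_le_exp.2 (by linarith [hle a])

end Pool.Agent.P.MP_224820_co.St
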