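import Pool.Agent.P.MP_224820_co.St.JensenG

/-! The lower half of the threshold: below `2 log n / n` some pair lies in no kept triangle. -/

set_option autoImplicit false

namespace Pool.Agent.P.MP_224820_co.St

open Finset Filter

/-- second moment bound for hitting all sets of an almost disjoint family -/
theorem pr_all_hit {α ι : Type} [Fintype α] [DecidableEq α] {p : α → ℝ} (hp : IsP p) {r : ℝ}
    (r0 : 0 ≤ r) (r1 : r < 1) (J : Finset ι) (hJ : J.Nonempty) (S : ι → Finset α) (m : ℕ)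
    (hm : ∀ i ∈ J, (S i).card = m) (hr : ∀ i ∈ J, ∀ a ∈ S i, p a = r)
    (h1 : ∀ i ∈ J, ∀ j ∈ J, i ≠ j → (S i ∩ S j).card ≤ 1) :
    Pr p (fun R => ∀ i ∈ J, ¬ Disjoint (S i) R) ≤ 1 / (J.card * (1 - r) ^ m) + r / (1 - r) := by
  classical
  have s0 : 0 < 1 - r := sub_pos.2 r1
  set a : ℝ := (1 - r) ^ m with ha
  have a0 : 0 < a := pow_pos s0 m
  have c0 : (0 : ℝ) < J.card := by exact_mod_cast hJ.card_pos
  set I : ι → Finset α → ℝ := fun i R => if Disjoint (S i) R then 1 else 0 with hI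
  have e1 : ∀ i ∈ J, Ex p (I i) = a := fun i hi => by
    have := Pr_disjoint p (S i)
    rw [Pr_eq] at this
    rw [this, prod_congr rfl fun x hx => by rw [hr i hi x hx], prod_const, hm i hi]
  have e2 : ∀ i ∈ J, ∀ j ∈ J, Ex p (fun R => I i R * I j R) ≤
      (if i = j then a else 0) + a ^ 2 / (1 - r) := fun i hi j hj => by
    by_cases hij : i = j
    · subst hij
      rw [if_pos rfl, Ex_congr (g := I i) fun R => by simp only [hI]; split_ifs <;> norm_num,
        e1 i hi]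
      have : 0 ≤ a ^ 2 / (1 - r) := by positivity
      linarith
    · have h := Pr_disjoint p (S i ∪ S j)
      rw [Pr_eq] at h
      rw [if_neg hij, zero_add, Ex_congr (g := fun R => if Disjoint (S i ∪ S j) R then 1 else 0)
        fun R => by
          simp only [hI, disjoint_union_left]
          by_cases h2 : Disjoint (S i) R <;> by_cases h3 : Disjoint (S j) R <;> simp [h2, h3],
        h, prod_congr rfl (g := fun _ => 1 - r) fun x hx => by
          rcases mem_union.1 hx with hx | hx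
          · rw [hr i hi x hx]
          · rw [hr j hj x hx],
        prod_const, le_div_iff₀ s0, ← pow_succ, ha, ← pow_mul]
      refine pow_le_pow_of_le_one s0.le (by linarith) ?_
      have := card_union_add_card_inter (S i) (S j)
      have := h1 i hi j hj hij
      have := hm i hi
      have := hm j hj
      omega
  set μ : ℝ := J.card * a with hμ
  have μ0 : 0 < μ := mul_pos c0 a0
  refine (Pr_le_Ex hp (f := fun R => (1 / μ ^ 2) * (∑ i ∈ J, ∑ j ∈ J, I i R * I j R -
    2 * μ * ∑ i ∈ J, I i R + μ ^ 2)) (fun R => ?_) fun R hR => ?_).trans ?_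
  · rw [← sum_mul_sum]
    have : 0 ≤ (∑ i ∈ J, I i R - μ) ^ 2 := sq_nonneg _
    exact mul_nonneg (by positivity) (by nlinarith)
  · have : ∀ i ∈ J, I i R = 0 := fun i hi => if_neg (hR i hi)
    rw [← sum_mul_sum, sum_eq_zero this]
    field_simp
    linarith
  · rw [Ex_mul, Ex_add, Ex_sub, Ex_mul, Ex_const, Ex_sum, Ex_sum, sum_congr rfl e1, sum_const,
      nsmul_eq_mul, ← hμ]
    have h2 : ∑ i ∈ J, Ex p (fun R => ∑ j ∈ J, I i R * I j R) ≤ μ + μ ^ 2 / (1 - r) := by
      calc ∑ i ∈ J, Ex p (fun R => ∑ j ∈ J, I i R * I j R)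
          ≤ ∑ i ∈ J, (a + J.card * (a ^ 2 / (1 - r))) := sum_le_sum fun i hi => by
            rw [Ex_sum]
            refine (sum_le_sum fun j hj => e2 i hi j hj).trans (le_of_eq ?_)
            rw [sum_add_distrib, sum_ite_eq, if_pos hi, sum_const, nsmul_eq_mul]
        _ = μ + μ ^ 2 / (1 - r) := by
            rw [sum_const, nsmul_eq_mul, hμ]; ring
    calc 1 / μ ^ 2 * (∑ i ∈ J, Ex p (fun R => ∑ j ∈ J, I i R * I j R) - 2 * μ * μ + μ ^ 2)
        ≤ 1 / μ ^ 2 * (μ + μ ^ 2 / (1 - r) - 2 * μ * μ + μ ^ 2) :=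
          mul_le_mul_of_nonneg_left (by linarith) (by positivity)
      _ = 1 / μ + r / (1 - r) := by field_simp; ring

variable {V : Type} [Fintype V] [DecidableEq V]

theorem card_tri_KN {e : Sym2 V} (he : e ∈ KN V) :
    ((tri (KN V)).filter fun t => e ∈ ed t).card = Fintype.card V - 2 := by
  induction e using Sym2.ind with
  | _ u v =>
    have huv : u ≠ v := by simpa [mem_KN] using he
    have h := sum_tri_edge (G := KN V) (fun e he => mem_KN.1 he) he fun _ => (1 : ℝ)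
    simp only [sum_const, nsmul_eq_mul, mul_one, Nat.cast_inj] at h
    have e : nb (KN V) u ∩ nb (KN V) v = univ \ {u, v} := by
      ext w
      simp only [mem_inter, mem_nb, mem_KN, Sym2.mk_isDiag_iff, Finset.mem_sdiff, mem_univ,
        Finset.mem_insert, Finset.mem_singleton, true_and, not_or]
      exact ⟨fun h => ⟨fun h2 => h.1 h2.symm, fun h2 => h.2 h2.symm⟩,
        fun h => ⟨fun h2 => h.1 h2.symm, fun h2 => h.2 h2.symm⟩⟩
    rw [h, e, card_sdiff_of_subset (subset_univ _), card_pair huv, card_univ]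

theorem lower_fin {p : Finset V → ℝ} (hp : IsP p) {r : ℝ} (r0 : 0 ≤ r) (r1 : r < 1)
    (hn : 2 ≤ Fintype.card V) (h : ∀ t : Finset V, t.card = 3 → p t ≤ r) :
    Pr p (fun T => Dec T (KN V)) ≤
      1 / (((Fintype.card V).choose 2 : ℕ) * (1 - r) ^ (Fintype.card V - 2)) + r / (1 - r) := by
  have hp' : IsP fun t : Finset V => if t.card = 3 then r else p t := fun t => by
    by_cases ht : t.card = 3
    · simp only [if_pos ht]; exact ⟨r0, r1.le⟩
    · simp only [if_neg ht]; exact hp t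
  refine (Pr_mono_p hp hp' (fun t => ?_) (incr_Dec _)).trans ?_
  · by_cases ht : t.card = 3
    · simp only [if_pos ht]; exact h t ht
    · simp only [if_neg ht]; exact le_rfl
  rw [← card_KN]
  refine le_trans (Pr_mono hp' fun R hR => ?_) (pr_all_hit hp' r0 r1 (KN V) ?_
    (fun e => (tri (KN V)).filter fun t => e ∈ ed t) _ (fun e he => card_tri_KN he)
    (fun e _ t ht => if_pos (mem_tri.1 (mem_filter.1 ht).1).1) fun e _ f _ hef => ?_)
  · obtain ⟨K, hK, h1, h2⟩ := hR
    intro e he hd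
    obtain ⟨t, ⟨ht, het⟩, -⟩ := h2 e he
    exact disjoint_left.1 hd (mem_filter.2 ⟨mem_tri.2 (h1 t ht), het⟩) (hK ht)
  · rw [← card_pos, card_KN]
    exact Nat.choose_pos hn
  · refine card_le_one.2 fun t ht t' ht' => ?_
    simp only [mem_inter, mem_filter, mem_tri] at ht ht'
    exact eq_of_two_edges ht.1.1.1 ht'.1.1.1 hef ht.1.2 ht.2.2 ht'.1.2 ht'.2.2

theorem lower_num {ε : ℝ} (e0 : 0 < ε) (e1 : ε ≤ 1) {n : ℕ} (hn : 2 ≤ n) {r : ℝ} (r0 : 0 ≤ r)
    (r1 : r ≤ ε / 8) (hr : r * n ≤ (2 - ε) * Real.log n) :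
    1 / (((n.choose 2 : ℕ) : ℝ) * (1 - r) ^ (n - 2)) ≤ 4 * (n : ℝ) ^ (-(ε / 2)) := by
  have n2 : (2 : ℝ) ≤ n := by exact_mod_cast hn
  have s0 : 0 < 1 - r := by linarith
  have l0 : 0 ≤ Real.log n := Real.log_nonneg (by linarith)
  have h1 : Real.exp (-(r * (1 + ε / 4))) ≤ 1 - r := by
    have h := Real.add_one_le_exp (r * (1 + ε / 4))
    rw [Real.exp_neg, inv_le_iff_one_le_mul₀ (Real.exp_pos _)]
    have : 1 ≤ (1 - r) * (r * (1 + ε / 4) + 1) := by
      have : 0 ≤ r * (ε / 4 - r * (1 + ε / 4)) := mul_nonneg r0 (by nlinarith)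
      nlinarith
    nlinarith
  have h2 : (n : ℝ) ^ (-(2 - ε / 2)) ≤ (1 - r) ^ (n - 2) := by
    refine le_trans ?_ (pow_le_pow_of_le_one s0.le (by linarith) (Nat.sub_le n 2))
    refine le_trans ?_ (pow_le_pow_left₀ (Real.exp_pos _).le h1 n)
    rw [← Real.exp_nat_mul, Real.rpow_def_of_pos (by linarith)]
    refine Real.exp_le_exp.2 ?_
    have h3 : r * n * (1 + ε / 4) ≤ (2 - ε) * Real.log n * (1 + ε / 4) :=
      mul_le_mul_of_nonneg_right hr (by linarith)
    have h4 : 0 ≤ Real.log n * (ε ^ 2 / 4) := by positivity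
    nlinarith
  have h3 : (n : ℝ) ^ 2 / 4 ≤ ((n.choose 2 : ℕ) : ℝ) := by
    rw [Nat.cast_choose_two]; nlinarith
  have h4 : (n : ℝ) ^ (-(ε / 2)) * ((n : ℝ) ^ 2 * (n : ℝ) ^ (-(2 - ε / 2))) = 1 := by
    rw [← Real.rpow_natCast, ← Real.rpow_add (by linarith), ← Real.rpow_add (by linarith)]
    norm_num
  have p1 : 0 < (n : ℝ) ^ (-(2 - ε / 2)) := Real.rpow_pos_of_pos (by linarith) _
  have p2 : 0 < (n : ℝ) ^ (-(ε / 2)) := Real.rpow_pos_of_pos (by linarith) _
  have p3 : 0 < (n : ℝ) ^ 2 / 4 := by positivity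
  have h5 : (n : ℝ) ^ 2 / 4 * (n : ℝ) ^ (-(2 - ε / 2)) ≤ ((n.choose 2 : ℕ) : ℝ) * (1 - r) ^ (n - 2) :=
    mul_le_mul h3 h2 p1.le (p3.le.trans h3)
  rw [div_le_iff₀ (lt_of_lt_of_le (mul_pos p3 p1) h5)]
  nlinarith [mul_le_mul_of_nonneg_left h5 p2.le]

/-- **Lower half of the threshold.** -/
theorem lower {ε δ : ℝ} (hε : 0 < ε) (hδ : 0 < δ) : ∃ N : ℕ, ∀ (W : Type) [Fintype W]
    [DecidableEq W], N ≤ Fintype.card W → ∀ p : Finset W → ℝ, IsP p →
      (∀ t : Finset W, t.card = 3 →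
        p t ≤ (2 - ε) * Real.log (Fintype.card W) / Fintype.card W) →
      Pr p (fun T => Dec T (KN W)) ≤ δ := by
  set ε' := min ε 1 with hε'
  have e0 : 0 < ε' := lt_min hε one_pos
  have e1 : ε' ≤ 1 := min_le_right _ _
  have e2 : ε' ≤ ε := min_le_left _ _
  have t1 : Tendsto (fun n : ℕ => Real.log n / n) atTop (nhds 0) := by
    have := Real.tendsto_pow_log_div_mul_add_atTop 1 0 1 one_ne_zero
    simp only [pow_one, one_mul, add_zero] at this
    exact this.comp tendsto_natCast_atTop_atTop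
  have t2 : Tendsto (fun n : ℕ => (n : ℝ) ^ (-(ε' / 2))) atTop (nhds 0) :=
    (tendsto_rpow_neg_atTop (by positivity)).comp tendsto_natCast_atTop_atTop
  have ev := ((t1.eventually (gt_mem_nhds (lt_min (show 0 < ε' / 16 by positivity)
    (show 0 < δ / 8 by positivity)))).and
    (t2.eventually (gt_mem_nhds (show 0 < δ / 8 by positivity)))).and (eventually_ge_atTop 2)
  obtain ⟨N, hN⟩ := eventually_atTop.1 ev
  refine ⟨N, fun W _ _ hW p hp h => ?_⟩
  obtain ⟨⟨a1, a2⟩, a3⟩ := hN _ hW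
  set n := Fintype.card W with hn
  have n2 : (2 : ℝ) ≤ n := by exact_mod_cast a3
  have l0 : 0 ≤ Real.log n / n := div_nonneg (Real.log_nonneg (by linarith)) (by linarith)
  have b1 := (lt_min_iff.1 a1).1
  have b2 := (lt_min_iff.1 a1).2
  set r := (2 - ε') * (Real.log n / n) with hr
  have r0 : 0 ≤ r := mul_nonneg (by linarith) l0
  have r2 : r ≤ 2 * (Real.log n / n) := mul_le_mul_of_nonneg_right (by linarith) l0
  have r1 : r ≤ ε' / 8 := by linarith
  refine (lower_fin hp r0 (by linarith) a3 fun t ht => (h t ht).trans ?_).trans ?_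
  · rw [mul_div_assoc]
    exact mul_le_mul_of_nonneg_right (by linarith) l0
  · have h1 := lower_num e0 e1 a3 r0 r1 (le_of_eq (by rw [hr]; field_simp))
    have h2 : r / (1 - r) ≤ 2 * r := by
      rw [div_le_iff₀ (by linarith)]
      nlinarith
    linarith

end Pool.Agent.P.MP_224820_co.St
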