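import Pool.Agent.P.MP_224820_co.St.IfaceM
import Pool.Agent.P.MP_224820_co.St.Lower

/-! Step ZERO. -/

set_option autoImplicit false

namespace Pool.Agent.P.MP_224820_co.St

open Finset Filter Topology

theorem p_ZERO :
    S_ZERO := by
  intro ε δ hε hδ
  obtain ⟨N, h⟩ := lower hε hδ
  refine ⟨N + 1, fun n hn p p0 hp => h (Fin n) (by rw [Fintype.card_fin]; omega) _
    (fun _ => ⟨p0, hp.trans ?_⟩) fun _ _ => by rwa [Fintype.card_fin]⟩
  have n1 : (1 : ℝ) ≤ n := by exact_mod_cast (by omega : 1 ≤ n)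
  have a := Real.log_le_sub_one_of_pos (x := (n : ℝ) / 2) (by linarith)
  have b := Real.log_le_sub_one_of_pos (x := (2 : ℝ)) two_pos
  rw [Real.log_div (by linarith) two_ne_zero] at a
  rw [div_le_one (by linarith)]
  nlinarith [Real.log_nonneg n1]

end Pool.Agent.P.MP_224820_co.St
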