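import Pool.Agent.P.MP_224820_co.St.TTRK
import Pool.Agent.P.MP_224820_co.St.TMONO
import Pool.Agent.P.MP_224820_co.St.TSLICE
import Pool.Agent.P.MP_224820_co.St.TTRANS
import Pool.Agent.P.MP_224820_co.St.TGOODC
import Pool.Agent.P.MP_224820_co.St.TSIG
import Pool.Agent.P.MP_224820_co.St.THAZ
import Pool.Agent.P.MP_224820_co.St.TLGC
import Pool.Agent.P.MP_224820_co.St.TK5
import Pool.Agent.P.MP_224820_co.St.TBOOST
import Pool.Agent.P.MP_224820_co.St.TRA
import Pool.Agent.P.MP_224820_co.St.TBD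
import Pool.Agent.P.MP_224820_co.St.TRB
import Pool.Agent.P.MP_224820_co.St.TRC
import Pool.Agent.P.MP_224820_co.St.TET
import Pool.Agent.P.MP_224820_co.St.TRD
import Pool.Agent.P.MP_224820_co.St.TCH
import Pool.Agent.P.MP_224820_co.St.TCH1
import Pool.Agent.P.MP_224820_co.St.TROUND
import Pool.Agent.P.MP_224820_co.St.TSPR
import Pool.Agent.P.MP_224820_co.St.TTWO
import Pool.Agent.P.MP_224820_co.St.TNIB
import Pool.Agent.P.MP_224820_co.St.TNIBS
import Pool.Agent.P.MP_224820_co.St.TCD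
import Pool.Agent.P.MP_224820_co.St.TLSX
import Pool.Agent.P.MP_224820_co.St.TNUML
import Pool.Agent.P.MP_224820_co.St.TLS
import Pool.Agent.P.MP_224820_co.St.TLE
import Pool.Agent.P.MP_224820_co.St.TLA
import Pool.Agent.P.MP_224820_co.St.TLD
import Pool.Agent.P.MP_224820_co.St.TLS0X
import Pool.Agent.P.MP_224820_co.St.TNUM0
import Pool.Agent.P.MP_224820_co.St.TLS0
import Pool.Agent.P.MP_224820_co.St.TCHAIN
import Pool.Agent.P.MP_224820_co.St.TNUMT
import Pool.Agent.P.MP_224820_co.St.TTOPG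
import Pool.Agent.P.MP_224820_co.St.TCOMP
import Pool.Agent.P.MP_224820_co.St.TPHASE
import Pool.Agent.P.MP_224820_co.St.TTERM
import Pool.Agent.P.MP_224820_co.St.TTOK
import Pool.Agent.P.MP_224820_co.St.TDES
import Pool.Agent.P.MP_224820_co.St.TGN
import Pool.Agent.P.MP_224820_co.St.TOPT
import Pool.Agent.P.MP_224820_co.St.TSEQ
import Pool.Agent.P.MP_224820_co.St.TPATI
import Pool.Agent.P.MP_224820_co.St.TPAT
import Pool.Agent.P.MP_224820_co.St.TAR
import Pool.Agent.P.MP_224820_co.St.TEMB1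
import Pool.Agent.P.MP_224820_co.St.TEMB
import Pool.Agent.P.MP_224820_co.St.TPATH
import Pool.Agent.P.MP_224820_co.St.TABSA
import Pool.Agent.P.MP_224820_co.St.TFSA
import Pool.Agent.P.MP_224820_co.St.TFSB
import Pool.Agent.P.MP_224820_co.St.TCELL
import Pool.Agent.P.MP_224820_co.St.TTUBE
import Pool.Agent.P.MP_224820_co.St.TFGE
import Pool.Agent.P.MP_224820_co.St.TFOLD
import Pool.Agent.P.MP_224820_co.St.TABSB
import Pool.Agent.P.MP_224820_co.St.TNUMA1
import Pool.Agent.P.MP_224820_co.St.TNUMA2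
import Pool.Agent.P.MP_224820_co.St.TABS
import Pool.Agent.P.MP_224820_co.St.TABSX
import Pool.Agent.P.MP_224820_co.St.TSTYP
import Pool.Agent.P.MP_224820_co.St.TGOODP
import Pool.Agent.P.MP_224820_co.St.TPAR
import Pool.Agent.P.MP_224820_co.St.TONE
import Pool.Agent.P.MP_224820_co.St.TZERO
import Pool.Agent.P.MP_224820_co.St.TBRIDGE
import Pool.Agent.P.MP_224820_co.St.TFINAL

namespace Pool.Agent.P.MP_224820_co.St

theorem all_TRK : S_TRK := p_TRK
theorem all_MONO : S_MONO := p_MONO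
theorem all_SLICE : S_SLICE := p_SLICE
theorem all_TRANS : S_TRANS := p_TRANS all_TRK all_MONO all_SLICE
theorem all_GOODC : S_GOODC := p_GOODC
theorem all_SIG : S_SIG := p_SIG
theorem all_HAZ : S_HAZ := p_HAZ all_GOODC all_SIG
theorem all_LGC : S_LGC := p_LGC all_GOODC
theorem all_K5 : S_K5 := p_K5
theorem all_BOOST : S_BOOST := p_BOOST all_K5
theorem all_RA : S_RA := p_RA
theorem all_BD : S_BD := p_BD
theorem all_RB : S_RB := p_RB all_RA all_BD
theorem all_RC : S_RC := p_RC all_RA all_BD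
theorem all_ET : S_ET := p_ET
theorem all_RD : S_RD := p_RD all_RA all_ET
theorem all_CH : S_CH := p_CH
theorem all_CH1 : S_CH1 := p_CH1 all_CH
theorem all_ROUND : S_ROUND := p_ROUND all_RA all_RB all_RC all_RD all_CH1 all_MONO
theorem all_SPR : S_SPR := p_SPR all_MONO
theorem all_TWO : S_TWO := p_TWO all_SPR
theorem all_NIB : S_NIB := p_NIB all_ROUND all_TWO
theorem all_NIBS : S_NIBS := p_NIBS all_NIB
theorem all_CD : S_CD := p_CD all_CH1 all_MONO
theorem all_LSX : S_LSX := p_LSX all_BOOST all_NIBS all_CD all_TWO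
theorem all_NUML : S_NUML := p_NUML
theorem all_LS : S_LS := p_LS all_LSX all_NUML
theorem all_LE : S_LE := p_LE all_CH1
theorem all_LA : S_LA := p_LA all_LE all_CH all_CH1
theorem all_LD : S_LD := p_LD all_LE all_CH all_CH1 all_MONO
theorem all_LS0X : S_LS0X := p_LS0X all_LA all_LD all_CD all_BOOST all_NIBS all_TWO
theorem all_NUM0 : S_NUM0 := p_NUM0
theorem all_LS0 : S_LS0 := p_LS0 all_LS0X all_NUM0
theorem all_CHAIN : S_CHAIN := p_CHAIN all_TWO
theorem all_NUMT : S_NUMT := p_NUMT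
theorem all_TOPG : S_TOPG := p_TOPG all_GOODC all_HAZ all_LGC all_LS all_LS0 all_CHAIN all_NUMT
theorem all_COMP : S_COMP := p_COMP
theorem all_PHASE : S_PHASE := p_PHASE
theorem all_TERM : S_TERM := p_TERM
theorem all_TOK : S_TOK := p_TOK
theorem all_DES : S_DES := p_DES all_COMP all_PHASE all_TERM all_TOK
theorem all_GN : S_GN := p_GN
theorem all_OPT : S_OPT := p_OPT
theorem all_SEQ : S_SEQ := p_SEQ
theorem all_PATI : S_PATI := p_PATI all_SEQ
theorem all_PAT : S_PAT := p_PAT all_PATI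
theorem all_AR : S_AR := p_AR
theorem all_EMB1 : S_EMB1 := p_EMB1 all_GN all_OPT all_PAT all_AR
theorem all_EMB : S_EMB := p_EMB all_EMB1 all_SPR all_MONO all_CH1
theorem all_PATH : S_PATH := p_PATH
theorem all_ABSA : S_ABSA := p_ABSA all_EMB all_PATH
theorem all_FSA : S_FSA := p_FSA
theorem all_FSB : S_FSB := p_FSB
theorem all_CELL : S_CELL := p_CELL all_FSA all_FSB
theorem all_TUBE : S_TUBE := p_TUBE
theorem all_FGE : S_FGE := p_FGE
theorem all_FOLD : S_FOLD := p_FOLD all_TUBE all_FGE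
theorem all_ABSB : S_ABSB := p_ABSB all_CELL all_EMB all_FOLD all_FSA
theorem all_NUMA1 : S_NUMA1 := p_NUMA1
theorem all_NUMA2 : S_NUMA2 := p_NUMA2
theorem all_ABS : S_ABS := p_ABS all_DES all_ABSA all_ABSB all_NUMA1 all_NUMA2 all_TWO
theorem all_ABSX : S_ABSX := p_ABSX all_ABS all_SLICE all_CH1 all_NUMT
theorem all_STYP : S_STYP := p_STYP all_CH all_SLICE
theorem all_GOODP : S_GOODP := p_GOODP all_STYP
theorem all_PAR : S_PAR := p_PAR
theorem all_ONE : S_ONE := p_ONE all_TRANS all_TOPG all_ABSX all_GOODP all_PAR all_NUMT all_SIG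
theorem all_ZERO : S_ZERO := p_ZERO
theorem all_BRIDGE : S_BRIDGE := p_BRIDGE
theorem all_FINAL : S_FINAL := p_FINAL all_ONE all_ZERO all_BRIDGE

end Pool.Agent.P.MP_224820_co.St
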