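import Pool.Agent.P.MP_224820_co.St.Defs

/-! Basic rules for `Ex`, `Pr`, `cnt`. -/

set_option autoImplicit false

namespace Pool.Agent.P.MP_224820_co.St

open Finset

variable {α : Type} [Fintype α] [DecidableEq α]

theorem cnt_eq {ι : Type} (J : Finset ι) (P : ι → Prop) [DecidablePred P] :
    cnt J P = (J.filter P).card := by
  unfold cnt
  congr

theorem cnt_le {ι : Type} (J : Finset ι) (P : ι → Prop) : cnt J P ≤ J.card := by
  classical
  rw [cnt_eq]
  exact card_filter_le _ _

theorem cnt_mono {ι : Type} {J J' : Finset ι} {P P' : ι → Prop} (h : ∀ i ∈ J, P i → i ∈ J' ∧ P' i) :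
    cnt J P ≤ cnt J' P' := by
  classical
  rw [cnt_eq, cnt_eq]
  refine card_le_card fun i hi => ?_
  rw [mem_filter] at hi ⊢
  exact h i hi.1 hi.2

theorem hz_isP {β : Type} {h : β → ℝ} (h0 : ∀ a, 0 ≤ h a) : IsP (hz h) := by
  intro a
  have h1 : Real.exp (-h a) ≤ 1 := Real.exp_le_one_iff.2 (by linarith [h0 a])
  have h2 := Real.exp_pos (-h a)
  unfold hz
  constructor <;> linarith

/-- a hazard `2 q` gives probability at least `q` -/
theorem le_hz {β : Type} {h : β → ℝ} {a : β} {q : ℝ} (h0 : 0 ≤ q) (h1 : q ≤ 1 / 2) (hh : 2 * q ≤ h a) :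
    q ≤ hz h a := by
  unfold hz
  have h2 : 1 + 2 * q ≤ Real.exp (h a) := by linarith [Real.add_one_le_exp (h a)]
  have h3 : Real.exp (-h a) * Real.exp (h a) = 1 := by rw [← Real.exp_add]; simp
  have h4 := Real.exp_pos (-h a)
  have h5 : Real.exp (-h a) * (1 + 2 * q) ≤ 1 := by nlinarith
  by_contra h6
  have h7 : 1 - q < Real.exp (-h a) := by linarith
  nlinarith [mul_nonneg h0 (sub_nonneg.2 h1), mul_lt_mul_of_pos_right h7 (show 0 < 1 + 2 * q by linarith)]

theorem basea_prod (u v : α → ℝ) :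
    ∑ R : Finset α, ∏ a, (if a ∈ R then u a else v a) = ∏ a, (u a + v a) := by
  rw [Fintype.prod_add]
  refine sum_congr rfl fun R _ => ?_
  rw [prod_ite]
  congr 1
  · simp
  · refine prod_congr ?_ fun _ _ => rfl
    ext a
    simp

theorem basea_w {p : α → ℝ} (hp : IsP p) (R : Finset α) :
    0 ≤ ∏ a, if a ∈ R then p a else 1 - p a := by
  refine prod_nonneg fun a _ => ?_
  split_ifs
  · exact (hp a).1
  · linarith [(hp a).2]

theorem Ex_const (p : α → ℝ) (c : ℝ) : Ex p (fun _ => c) = c := by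
  unfold Ex
  rw [← sum_mul, basea_prod]
  simp

theorem Ex_congr {p : α → ℝ} {f g : Finset α → ℝ} (h : ∀ R, f R = g R) : Ex p f = Ex p g := by
  rw [funext h]

theorem Ex_mono {p : α → ℝ} (hp : IsP p) {f g : Finset α → ℝ} (h : ∀ R, f R ≤ g R) :
    Ex p f ≤ Ex p g := by
  exact sum_le_sum fun R _ => mul_le_mul_of_nonneg_left (h R) (basea_w hp R)

/-- monotonicity, ignoring sets that contain a coordinate of probability zero or miss one of probability one -/
theorem Ex_mono_ae {p : α → ℝ} (hp : IsP p) {f g : Finset α → ℝ}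
    (h : ∀ R, (∀ a ∈ R, p a ≠ 0) → (∀ a, p a = 1 → a ∈ R) → f R ≤ g R) : Ex p f ≤ Ex p g := by
  refine sum_le_sum fun R _ => ?_
  by_cases h0 : (∏ a, if a ∈ R then p a else 1 - p a) = 0
  · rw [h0]; simp
  · refine mul_le_mul_of_nonneg_left (h R (fun a ha h1 => h0 ?_) (fun a h1 => ?_)) (basea_w hp R)
    · exact prod_eq_zero (mem_univ a) (by simp [ha, h1])
    · by_contra ha
      exact h0 (prod_eq_zero (mem_univ a) (by simp [ha, h1]))

theorem Ex_nonneg {p : α → ℝ} (hp : IsP p) {f : Finset α → ℝ} (h : ∀ R, 0 ≤ f R) : 0 ≤ Ex p f := by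
  exact sum_nonneg fun R _ => mul_nonneg (basea_w hp R) (h R)

theorem Ex_add (p : α → ℝ) (f g : Finset α → ℝ) :
    Ex p (fun R => f R + g R) = Ex p f + Ex p g := by
  simp only [Ex, mul_add, sum_add_distrib]

theorem Ex_sub (p : α → ℝ) (f g : Finset α → ℝ) :
    Ex p (fun R => f R - g R) = Ex p f - Ex p g := by
  simp only [Ex, mul_sub, sum_sub_distrib]

theorem Ex_mul (p : α → ℝ) (c : ℝ) (f : Finset α → ℝ) : Ex p (fun R => c * f R) = c * Ex p f := by
  simp only [Ex, mul_sum]
  exact sum_congr rfl fun R _ => by ring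

theorem Ex_sum {ι : Type} (p : α → ℝ) (J : Finset ι) (f : ι → Finset α → ℝ) :
    Ex p (fun R => ∑ i ∈ J, f i R) = ∑ i ∈ J, Ex p (f i) := by
  simp only [Ex, mul_sum]
  exact sum_comm

theorem Ex_comm {β : Type} [Fintype β] [DecidableEq β] (p : α → ℝ) (q : β → ℝ)
    (f : Finset α → Finset β → ℝ) :
    Ex p (fun R => Ex q (fun S => f R S)) = Ex q (fun S => Ex p (fun R => f R S)) := by
  simp only [Ex, mul_sum]
  rw [sum_comm]
  exact sum_congr rfl fun S _ => sum_congr rfl fun R _ => by ring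

/-- some outcome is at most the average -/
theorem exists_le_Ex {p : α → ℝ} (hp : IsP p) (f : Finset α → ℝ) : ∃ R, f R ≤ Ex p f := by
  obtain ⟨R, -, hR⟩ := exists_min_image (univ : Finset (Finset α)) f ⟨∅, mem_univ _⟩
  refine ⟨R, ?_⟩
  rw [← Ex_const p (f R)]
  exact Ex_mono hp fun Q => hR Q (mem_univ _)

theorem basea_mem (p : α → ℝ) (a : α) (x y : ℝ) :
    Ex p (fun R => if a ∈ R then x else y) = p a * x + (1 - p a) * y := by
  have h := basea_prod (fun b => p b * if b = a then x else 1)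
    (fun b => (1 - p b) * if b = a then y else 1)
  rw [prod_eq_single a (fun b _ hb => by simp [hb]) (by simp)] at h
  simp only [if_true] at h
  rw [← h]
  refine sum_congr rfl fun R _ => ?_
  have h2 : (if a ∈ R then x else y) =
      ∏ b, (if b = a then (if a ∈ R then x else y) else 1) := by simp
  beta_reduce
  rw [h2, ← prod_mul_distrib]
  refine prod_congr rfl fun b _ => ?_
  by_cases hb : b = a
  · subst hb
    by_cases h3 : b ∈ R <;> simp [h3]
  · simp [hb]

theorem basea_mix {p p' : α → ℝ} {s : Finset α} (h : ∀ a ∈ s, p a = p' a) (f : Finset α → ℝ) :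
    Ex p' f = Ex p (fun Q => Ex p' (fun R => f (Q ∩ s ∪ R \ s))) := by
  rw [← Ex_const p (Ex p' f), Ex_comm, Ex_comm p' p]
  conv_lhs => rw [Ex_comm p p' (fun _ S => f S)]
  unfold Ex
  simp only [mul_sum]
  rw [← Fintype.sum_prod_type', ← Fintype.sum_prod_type']
  have hi : Function.Involutive
      (fun x : Finset α × Finset α => (x.1 ∩ s ∪ x.2 \ s, x.2 ∩ s ∪ x.1 \ s)) := by
    intro x
    ext b <;> by_cases hb : b ∈ s <;> simp [hb]
  symm
  refine Fintype.sum_equiv hi.toPerm _ _ fun x => ?_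
  simp only [Function.Involutive.coe_toPerm]
  rw [← mul_assoc, ← mul_assoc, ← prod_mul_distrib, ← prod_mul_distrib]
  congr 1
  refine prod_congr rfl fun b _ => ?_
  by_cases hb : b ∈ s
  · simp [hb, h b hb]
  · simp [hb, mul_comm]

/-- resampling one coordinate -/
theorem Ex_coord (p : α → ℝ) (a : α) (f : Finset α → ℝ) :
    Ex p f = Ex p (fun R => p a * f (insert a R) + (1 - p a) * f (R.erase a)) := by
  rw [basea_mix (p := p) (p' := p) (s := {a}) (fun _ _ => rfl) f, Ex_comm]
  refine Ex_congr fun R => ?_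
  rw [← basea_mem]
  refine Ex_congr fun Q => ?_
  split_ifs with h
  · congr 1
    ext b
    by_cases hb : b = a <;> simp [hb, h]
  · congr 1
    ext b
    by_cases hb : b = a <;> simp [hb, h]

/-- the coordinates in `s` and outside `s` are independent -/
theorem Ex_split (p : α → ℝ) (s : Finset α) (f : Finset α → ℝ) :
    Ex p f = Ex p (fun Q => Ex p (fun R => f (Q ∩ s ∪ R \ s))) := by
  exact basea_mix (fun _ _ => rfl) f

/-- only the probabilities of the relevant coordinates matter -/
theorem Ex_loc {p p' : α → ℝ} {s : Finset α} {f : Finset α → ℝ} (hf : Loc s f)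
    (h : ∀ a ∈ s, p a = p' a) : Ex p f = Ex p' f := by
  rw [basea_mix h f]
  refine Ex_congr fun Q => ?_
  rw [← Ex_const p' (f Q)]
  refine Ex_congr fun R => hf _ _ ?_
  ext b
  by_cases hb : b ∈ s <;> simp [hb]

theorem Ex_mul_loc (p : α → ℝ) {s t : Finset α} (hst : Disjoint s t) {f g : Finset α → ℝ}
    (hf : Loc s f) (hg : Loc t g) : Ex p (fun R => f R * g R) = Ex p f * Ex p g := by
  rw [Ex_split p s, mul_comm (Ex p f), ← Ex_mul]
  refine Ex_congr fun Q => ?_
  rw [mul_comm (Ex p g), ← Ex_mul]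
  refine Ex_congr fun R => ?_
  congr 1
  · refine hf _ _ ?_
    ext b
    by_cases hb : b ∈ s <;> simp [hb]
  · refine hg _ _ ?_
    ext b
    by_cases hb : b ∈ t
    · have := disjoint_right.1 hst hb
      simp [hb, this]
    · simp [hb]

theorem Ex_prod_loc {ι : Type} (p : α → ℝ) (J : Finset ι) (s : ι → Finset α)
    (hs : (J : Set ι).PairwiseDisjoint s) (f : ι → Finset α → ℝ) (hf : ∀ j ∈ J, Loc (s j) (f j)) :
    Ex p (fun R => ∏ j ∈ J, f j R) = ∏ j ∈ J, Ex p (f j) := by
  classical
  induction J using Finset.induction_on with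
  | empty => simp [Ex_const]
  | insert i J hi ih =>
    simp only [prod_insert hi]
    have h1 : Loc (J.biUnion s) (fun R => ∏ j ∈ J, f j R) := by
      intro R R' h
      refine prod_congr rfl fun j hj => hf j (mem_insert_of_mem hj) _ _ ?_
      have h2 : s j ⊆ J.biUnion s := subset_biUnion_of_mem s hj
      rw [← inter_eq_right.2 h2, ← inter_assoc, ← inter_assoc, h]
    have h2 : Disjoint (s i) (J.biUnion s) := by
      rw [disjoint_biUnion_right]
      intro j hj
      exact hs (by simp) (by simp [hj]) (fun h => hi (h ▸ hj))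
    rw [Ex_mul_loc p h2 (hf i (mem_insert_self _ _)) h1,
      ih (hs.subset (by simp)) (fun j hj => hf j (mem_insert_of_mem hj))]

/-- pulling back along an embedding of index sets -/
theorem Ex_emb {β : Type} [Fintype β] [DecidableEq β] (j : β ↪ α) (p : α → ℝ) (g : Finset β → ℝ) :
    Ex p (fun R => g (univ.filter fun b => j b ∈ R)) = Ex (fun b => p (j b)) g := by
  have h1 : ∀ R : Finset α, g (univ.filter fun b => j b ∈ R) =
      ∑ S : Finset β, g S * ∏ b, (if j b ∈ R then (if b ∈ S then (1 : ℝ) else 0)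
        else (if b ∈ S then 0 else 1)) := by
    intro R
    rw [sum_eq_single (univ.filter fun b => j b ∈ R)]
    · rw [prod_eq_one, mul_one]
      intro b _
      by_cases hb : j b ∈ R <;> simp [hb]
    · intro S _ hS
      have : ∃ b, ¬ (b ∈ S ↔ j b ∈ R) := by
        by_contra h
        push Not at h
        exact hS (by ext b; simp [h b])
      obtain ⟨b, hb⟩ := this
      rw [prod_eq_zero (mem_univ b), mul_zero]
      by_cases h2 : j b ∈ R <;> simp_all
    · simp
  rw [Ex_congr h1, Ex_sum]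
  refine sum_congr rfl fun S _ => ?_
  rw [Ex_mul, mul_comm, Ex_prod_loc p univ (fun b => {j b})]
  · congr 1
    refine prod_congr rfl fun b _ => ?_
    rw [basea_mem]
    by_cases hb : b ∈ S <;> simp [hb]
  · intro b _ c _ h
    simp [Function.onFun, h]
  · intro b _ R R' h
    have : j b ∈ R ↔ j b ∈ R' := by simpa using Finset.ext_iff.1 h (j b)
    simp only [this]

theorem Ex_disjSum {β : Type} [Fintype β] [DecidableEq β] (p : α → ℝ) (q : β → ℝ)
    (f : Finset (α ⊕ β) → ℝ) :
    Ex (Sum.elim p q) f = Ex p (fun R => Ex q (fun S => f (R.disjSum S))) := by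
  unfold Ex
  simp only [mul_sum]
  rw [← Fintype.sum_prod_type']
  symm
  refine Fintype.sum_equiv (Finset.sumEquiv (α := α) (β := β)).symm.toEquiv _ _ fun x => ?_
  simp [Fintype.prod_sum_type, mul_assoc]

end Pool.Agent.P.MP_224820_co.St
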