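import Mathlib

/-! Haxell's theorem on independent transversals and its weighted degree forms. -/

set_option autoImplicit false

namespace Pool.Agent.P.MP_224820_co.St

open Finset

section Hax

variable {α ι β : Type*}

/-- an independent transversal of the classes `E x`, `x ∈ A`, for the conflict pairs `G` -/
def IT (G : Finset (ι × ι)) (A : Finset α) (E : α → Finset ι) : Prop :=
  ∃ f : α → ι, (∀ x ∈ A, f x ∈ E x) ∧ ∀ x ∈ A, ∀ y ∈ A, x ≠ y → (f x, f y) ∉ G

theorem hax_core [DecidableEq α] [DecidableEq ι] (n : ℕ) : ∀ (A : Finset α), A.card = n →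
    ∀ (E : α → Finset ι), (∀ x ∈ A, ∀ y ∈ A, ∀ u ∈ E x, u ∈ E y → x = y) →
    ∀ a ∈ A, ∀ (G : Finset (ι × ι)), ¬ IT G A E → IT G (A.erase a) E →
    ∃ S ⊆ A, a ∈ S ∧ ∃ Z : Finset ι, Z.card + 2 ≤ 2 * S.card ∧
      ∀ x ∈ S, ∀ u ∈ E x, ∃ z ∈ Z, (u, z) ∈ G ∨ (z, u) ∈ G := by
  induction n using Nat.strong_induction_on with
  | _ n ihn =>
  intro A hA E hd a ha G
  induction hm : G.card using Nat.strong_induction_on generalizing G with
  | _ m ihm =>
  intro hG hT
  rcases (E a).eq_empty_or_nonempty with he | ⟨v0, hv0⟩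
  · exact ⟨{a}, by simpa using ha, by simp, ∅, by simp, by simp [he]⟩
  obtain ⟨T, hT1, hT2⟩ := hT
  have hp : ∃ b ∈ A, b ≠ a ∧ ∃ v ∈ E a, ∃ w ∈ E b, ∃ p ∈ G, p = (v, w) ∨ p = (w, v) := by
    by_contra hc
    push Not at hc
    refine hG ⟨Function.update T a v0, fun x hx => ?_, fun x hx y hy hxy hq => ?_⟩
    · by_cases h : x = a
      · subst h; simpa using hv0
      · simpa [h] using hT1 x (mem_erase.2 ⟨h, hx⟩)
    · by_cases h : x = a
      · subst h
        have h' : y ≠ x := fun e => hxy e.symm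
        simp only [Function.update_self, Function.update_of_ne h'] at hq
        exact (hc y hy h' v0 hv0 _ (hT1 y (mem_erase.2 ⟨h', hy⟩)) _ hq).1 rfl
      · by_cases h' : y = a
        · subst h'
          simp only [Function.update_self, Function.update_of_ne h] at hq
          exact (hc x hx h v0 hv0 _ (hT1 x (mem_erase.2 ⟨h, hx⟩)) _ hq).2 rfl
        · simp only [Function.update_of_ne h, Function.update_of_ne h'] at hq
          exact hT2 x (mem_erase.2 ⟨h, hx⟩) y (mem_erase.2 ⟨h', hy⟩) hxy hq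
  obtain ⟨b, hb, hba, v, hv, w, hw, p, hpG, hp⟩ := hp
  by_cases hI : IT (G.erase p) A E
  swap
  · obtain ⟨S, hS, haS, Z, hZ, hdom⟩ := ihm (G.erase p).card
      (by rw [← hm]; exact card_erase_lt_of_mem hpG) (G.erase p) rfl hI
      ⟨T, hT1, fun x hx y hy hxy hq => hT2 x hx y hy hxy (mem_of_mem_erase hq)⟩
    refine ⟨S, hS, haS, Z, hZ, fun x hx u hu => ?_⟩
    obtain ⟨z, hz, h⟩ := hdom x hx u hu
    exact ⟨z, hz, h.imp mem_of_mem_erase mem_of_mem_erase⟩
  obtain ⟨g, hg1, hg2⟩ := hI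
  have hab : g a = v ∧ g b = w := by
    by_contra hc
    refine hG ⟨g, hg1, fun x hx y hy hxy hq => hg2 x hx y hy hxy (mem_erase.2 ⟨fun e => ?_, hq⟩)⟩
    rcases hp with rfl | rfl
    · obtain ⟨e1, e2⟩ := Prod.mk.inj e
      have h1 := hd x hx a ha _ (hg1 x hx) (e1 ▸ hv)
      have h2 := hd y hy b hb _ (hg1 y hy) (e2 ▸ hw)
      subst h1 h2
      exact hc ⟨e1, e2⟩
    · obtain ⟨e1, e2⟩ := Prod.mk.inj e
      have h1 := hd x hx b hb _ (hg1 x hx) (e1 ▸ hw)
      have h2 := hd y hy a ha _ (hg1 y hy) (e2 ▸ hv)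
      subst h1 h2
      exact hc ⟨e2, e1⟩
  have hout : ∀ x ∈ A, x ≠ a → x ≠ b → ∀ y ∈ A, x ≠ y → (g x, g y) ∉ G ∧ (g y, g x) ∉ G := by
    intro x hx h1 h2 y hy hxy
    have n1 : g x ≠ v := fun e => h1 (hd x hx a ha _ (hg1 x hx) (e ▸ hv))
    have n2 : g x ≠ w := fun e => h2 (hd x hx b hb _ (hg1 x hx) (e ▸ hw))
    constructor
    · intro hq
      refine hg2 x hx y hy hxy (mem_erase.2 ⟨fun e => ?_, hq⟩)
      rcases hp with rfl | rfl
      · exact n1 (Prod.mk.inj e).1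
      · exact n2 (Prod.mk.inj e).1
    · intro hq
      refine hg2 y hy x hx hxy.symm (mem_erase.2 ⟨fun e => ?_, hq⟩)
      rcases hp with rfl | rfl
      · exact n2 (Prod.mk.inj e).2
      · exact n1 (Prod.mk.inj e).2
  let N : ι → Prop := fun u => ((u, v) ∈ G ∨ (v, u) ∈ G) ∨ ((u, w) ∈ G ∨ (w, u) ∈ G)
  let E' : α → Finset ι := fun x => (if x = a then E a ∪ E b else E x).filter fun u => ¬ N u
  have hEa : ∀ u, u ∈ E' a ↔ (u ∈ E a ∨ u ∈ E b) ∧ ¬ N u := by intro u; simp [E']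
  have hEx : ∀ x, x ≠ a → ∀ u, u ∈ E' x ↔ u ∈ E x ∧ ¬ N u := by intro x h u; simp [E', h]
  have hN : ∀ x u, u ∈ E' x → ¬ N u := fun x u h => (mem_filter.1 h).2
  have ha' : a ∈ A.erase b := mem_erase.2 ⟨hba.symm, ha⟩
  have key := ihn (A.erase b).card (by rw [← hA]; exact card_erase_lt_of_mem hb) (A.erase b) rfl E'
    (by
      intro x hx y hy u h1 h2
      obtain ⟨hxb, hx⟩ := mem_erase.1 hx
      obtain ⟨hyb, hy⟩ := mem_erase.1 hy
      by_cases e1 : x = a
      · by_cases e2 : y = a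
        · rw [e1, e2]
        · subst e1
          rcases ((hEa u).1 h1).1 with h | h
          · exact hd x hx y hy u h ((hEx y e2 u).1 h2).1
          · exact absurd (hd y hy b hb u ((hEx y e2 u).1 h2).1 h) hyb
      · by_cases e2 : y = a
        · subst e2
          rcases ((hEa u).1 h2).1 with h | h
          · exact hd x hx y hy u ((hEx x e1 u).1 h1).1 h
          · exact absurd (hd x hx b hb u ((hEx x e1 u).1 h1).1 h) hxb
        · exact hd x hx y hy u ((hEx x e1 u).1 h1).1 ((hEx y e2 u).1 h2).1) a ha' G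
    (by
      rintro ⟨h, hh1, hh2⟩
      have hn : ∀ x ∈ A, x ≠ b → ¬ N (h x) := fun x hx e => hN x _ (hh1 x (mem_erase.2 ⟨e, hx⟩))
      rcases ((hEa _).1 (hh1 a ha')).1 with h0 | h0
      · refine hG ⟨Function.update h b w, fun x hx => ?_, fun x hx y hy hxy hq => ?_⟩
        · by_cases e : x = b
          · subst e; simpa using hw
          · rw [Function.update_of_ne e]
            by_cases e' : x = a
            · exact e' ▸ h0
            · exact ((hEx x e' _).1 (hh1 x (mem_erase.2 ⟨e, hx⟩))).1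
        · by_cases e : x = b
          · subst e
            simp only [Function.update_self, Function.update_of_ne hxy.symm] at hq
            exact hn y hy hxy.symm (Or.inr (Or.inr hq))
          · by_cases e' : y = b
            · subst e'
              simp only [Function.update_self, Function.update_of_ne e] at hq
              exact hn x hx e (Or.inr (Or.inl hq))
            · simp only [Function.update_of_ne e, Function.update_of_ne e'] at hq
              exact hh2 x (mem_erase.2 ⟨e, hx⟩) y (mem_erase.2 ⟨e', hy⟩) hxy hq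
      · have hσ : ∀ x ∈ A, x ≠ a → (if x = b then a else x) ∈ A.erase b := by
          intro x hx e
          split_ifs with e'
          · exact ha'
          · exact mem_erase.2 ⟨e', hx⟩
        refine hG ⟨fun x => if x = a then v else h (if x = b then a else x), fun x hx => ?_,
          fun x hx y hy hxy hq => ?_⟩
        · by_cases e : x = a
          · simpa [e] using hv
          · by_cases e' : x = b
            · simpa [e', hba] using h0
            · simpa [e, e'] using ((hEx x e _).1 (hh1 x (mem_erase.2 ⟨e', hx⟩))).1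
        · by_cases e : x = a
          · have e' : y ≠ a := fun q => hxy (e.trans q.symm)
            simp only [if_pos e, if_neg e'] at hq
            exact hN _ _ (hh1 _ (hσ y hy e')) (Or.inl (Or.inr hq))
          · by_cases e' : y = a
            · simp only [if_neg e, if_pos e'] at hq
              exact hN _ _ (hh1 _ (hσ x hx e)) (Or.inl (Or.inl hq))
            · simp only [if_neg e, if_neg e'] at hq
              refine hh2 _ (hσ x hx e) _ (hσ y hy e') ?_ hq
              split_ifs with c1 c2 c2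
              · exact absurd (c1.trans c2.symm) hxy
              · exact fun q => e' q.symm
              · exact e
              · exact hxy)
    ⟨g, fun x hx => by
      obtain ⟨e1, hx⟩ := mem_erase.1 hx
      obtain ⟨e2, hx⟩ := mem_erase.1 hx
      refine (hEx x e1 _).2 ⟨hg1 x hx, ?_⟩
      have h1 := hout x hx e1 e2 a ha e1
      have h2 := hout x hx e1 e2 b hb e2
      rw [hab.1] at h1
      rw [hab.2] at h2
      rintro ((q | q) | q | q)
      exacts [h1.1 q, h1.2 q, h2.1 q, h2.2 q],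
    fun x hx y hy hxy => by
      obtain ⟨e1, hx⟩ := mem_erase.1 hx
      obtain ⟨e2, hx⟩ := mem_erase.1 hx
      exact (hout x hx e1 e2 y (mem_of_mem_erase (mem_of_mem_erase hy)) hxy).1⟩
  obtain ⟨S, hS, haS, Z, hZ, hdom⟩ := key
  have hbS : b ∉ S := fun h => (mem_erase.1 (hS h)).1 rfl
  refine ⟨insert b S, insert_subset hb (hS.trans (erase_subset _ _)), mem_insert_of_mem haS,
    insert v (insert w Z), ?_, fun x hx u hu => ?_⟩
  · rw [card_insert_of_notMem hbS]
    have h1 := card_insert_le v (insert w Z)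
    have h2 := card_insert_le w Z
    omega
  · by_cases hu' : N u
    · rcases hu' with q | q
      · exact ⟨v, by simp, q⟩
      · exact ⟨w, by simp, q⟩
    · have : ∃ y ∈ S, u ∈ E' y := by
        rcases mem_insert.1 hx with rfl | hx
        · exact ⟨a, haS, (hEa u).2 ⟨Or.inr hu, hu'⟩⟩
        · by_cases e : x = a
          · exact ⟨a, haS, (hEa u).2 ⟨Or.inl (e ▸ hu), hu'⟩⟩
          · exact ⟨x, hx, (hEx x e u).2 ⟨hu, hu'⟩⟩
      obtain ⟨y, hy, hu⟩ := this
      obtain ⟨z, hz, h⟩ := hdom y hy u hu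
      exact ⟨z, by simp [hz], h⟩

/-- Haxell: conflicts may depend on the classes; `Z` is a set of (class, element) pairs. -/
theorem haxell_pair [Nonempty ι] (R : α × ι → α × ι → Prop) (A : Finset α) (E : α → Finset ι)
    (h : ∀ S ⊆ A, S.Nonempty → ∀ Z : Finset (α × ι), (∀ z ∈ Z, z.1 ∈ A ∧ z.2 ∈ E z.1) →
      Z.card + 2 ≤ 2 * S.card → ∃ x ∈ S, ∃ u ∈ E x, ∀ z ∈ Z, ¬ R (x, u) z ∧ ¬ R z (x, u)) :
    ∃ f : α → ι, (∀ x ∈ A, f x ∈ E x) ∧
      ∀ x ∈ A, ∀ y ∈ A, x ≠ y → ¬ R (x, f x) (y, f y) := by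
  classical
  let E' : α → Finset (α × ι) := fun x => (E x).image fun u => (x, u)
  have hE : ∀ x z, z ∈ E' x ↔ z.1 = x ∧ z.2 ∈ E x := by
    rintro x ⟨y, u⟩
    simp only [E', mem_image, Prod.mk.injEq]
    constructor
    · rintro ⟨u', h1, rfl, rfl⟩; exact ⟨rfl, h1⟩
    · rintro ⟨rfl, h1⟩; exact ⟨u, h1, rfl, rfl⟩
  let U := A.biUnion E'
  have hU : ∀ z, z ∈ U ↔ z.1 ∈ A ∧ z.2 ∈ E z.1 := by
    intro z
    simp only [U, mem_biUnion, hE]
    constructor
    · rintro ⟨x, hx, rfl, h1⟩; exact ⟨hx, h1⟩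
    · rintro ⟨h1, h2⟩; exact ⟨_, h1, rfl, h2⟩
  let G := (U ×ˢ U).filter fun q => R q.1 q.2
  have hG : ∀ u z, (u, z) ∈ G ↔ (u ∈ U ∧ z ∈ U) ∧ R u z := by intro u z; simp [G]
  have main : ∀ B : Finset α, B ⊆ A → IT G B E' := by
    intro B
    induction B using Finset.induction_on with
    | empty => exact fun _ => ⟨fun x => (x, Classical.arbitrary ι), by simp, by simp⟩
    | insert a B haB ih =>
      intro hB
      by_contra hc
      obtain ⟨S, hS, haS, Z, hZ, hdom⟩ := hax_core _ (insert a B) rfl E'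
        (fun x _ y _ u h1 h2 => ((hE x u).1 h1).1.symm.trans ((hE y u).1 h2).1) a
        (mem_insert_self _ _) G hc
        (by rw [erase_insert haB]; exact ih ((subset_insert _ _).trans hB))
      obtain ⟨x, hx, u, hu, hz⟩ := h S (hS.trans hB) ⟨a, haS⟩ (Z.filter (· ∈ U))
        (fun z hz => (hU z).1 (mem_filter.1 hz).2)
        (le_trans (Nat.add_le_add_right (card_filter_le _ _) 2) hZ)
      obtain ⟨z, hzZ, q | q⟩ := hdom x hx (x, u) ((hE _ _).2 ⟨rfl, hu⟩)
      · exact (hz z (mem_filter.2 ⟨hzZ, ((hG _ _).1 q).1.2⟩)).1 ((hG _ _).1 q).2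
      · exact (hz z (mem_filter.2 ⟨hzZ, ((hG _ _).1 q).1.1⟩)).2 ((hG _ _).1 q).2
  obtain ⟨f, hf1, hf2⟩ := main A subset_rfl
  have e : ∀ x ∈ A, f x = (x, (f x).2) := fun x hx => Prod.ext ((hE _ _).1 (hf1 x hx)).1 rfl
  refine ⟨fun x => (f x).2, fun x hx => ((hE _ _).1 (hf1 x hx)).2, fun x hx y hy hxy hR => ?_⟩
  refine hf2 x hx y hy hxy ((hG _ _).2 ⟨⟨?_, ?_⟩, ?_⟩)
  · exact mem_biUnion.2 ⟨x, hx, hf1 x hx⟩
  · exact mem_biUnion.2 ⟨y, hy, hf1 y hy⟩
  · rw [e x hx, e y hy]; exact hR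

open Classical in
/-- weighted form: every class has weight `≥ D`, every element conflicts with weight `≤ d`,
and `2 d ≤ D`. -/
theorem haxell_conf [Nonempty ι] (R : α × ι → α × ι → Prop) (A : Finset α) (E : α → Finset ι)
    (w : α → ι → ℝ) (D d : ℝ) (hw : ∀ x ∈ A, ∀ u ∈ E x, 0 ≤ w x u) (hD0 : 0 < D)
    (hD : ∀ x ∈ A, D ≤ ∑ u ∈ E x, w x u)
    (hd : ∀ y ∈ A, ∀ v ∈ E y, ∑ x ∈ A, ∑ u ∈ (E x).filter
      (fun u => R (x, u) (y, v) ∨ R (y, v) (x, u)), w x u ≤ d) (hDd : 2 * d ≤ D) :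
    ∃ f : α → ι, (∀ x ∈ A, f x ∈ E x) ∧
      ∀ x ∈ A, ∀ y ∈ A, x ≠ y → ¬ R (x, f x) (y, f y) := by
  refine haxell_pair R A E fun S hS _ Z hZ hc => ?_
  by_contra hn
  push Not at hn
  have h1 : (S.card : ℝ) * D ≤ ∑ x ∈ S, ∑ u ∈ E x, w x u := by
    rw [← nsmul_eq_mul]
    exact card_nsmul_le_sum S _ _ fun x hx => hD x (hS hx)
  have h2 : ∑ x ∈ S, ∑ u ∈ E x, w x u ≤ ∑ x ∈ A, ∑ z ∈ Z, ∑ u ∈ (E x).filter
      (fun u => R (x, u) z ∨ R z (x, u)), w x u := by
    refine le_trans (sum_le_sum fun x hx => ?_) (sum_le_sum_of_subset_of_nonneg hS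
      fun x hx _ => sum_nonneg fun z _ => sum_nonneg fun u hu => hw x hx u (mem_filter.1 hu).1)
    simp_rw [sum_filter]
    rw [sum_comm]
    refine sum_le_sum fun u hu => ?_
    obtain ⟨z, hz, hR⟩ := hn x hx u hu
    have hR' : R (x, u) z ∨ R z (x, u) := by tauto
    refine le_trans (le_of_eq ?_) (single_le_sum (f := fun z =>
      if R (x, u) z ∨ R z (x, u) then w x u else 0) (fun z _ => ?_) hz)
    · rw [if_pos hR']
    · split_ifs
      · exact hw x (hS hx) u hu
      · exact le_rfl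
  rw [sum_comm] at h2
  have h3 : ∑ z ∈ Z, ∑ x ∈ A, ∑ u ∈ (E x).filter
      (fun u => R (x, u) z ∨ R z (x, u)), w x u ≤ (Z.card : ℝ) * (D / 2) := by
    rw [← nsmul_eq_mul]
    exact sum_le_card_nsmul Z _ _ fun z hz => (hd z.1 (hZ z hz).1 z.2 (hZ z hz).2).trans
      (by linarith)
  have h4 : (Z.card : ℝ) + 2 ≤ 2 * S.card := by exact_mod_cast hc
  nlinarith

/-- hypergraph form, weighted degrees: `s x u` is the set (of size `≤ r`) used when class `x`
takes `u`; every point carries weight `≤ d`; `2 r d ≤ D`. -/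
theorem haxell_w [Nonempty ι] [DecidableEq β] (r : ℕ) (A : Finset α) (E : α → Finset ι)
    (s : α → ι → Finset β) (hr : ∀ x ∈ A, ∀ u ∈ E x, (s x u).card ≤ r)
    (w : α → ι → ℝ) (D d : ℝ) (hw : ∀ x ∈ A, ∀ u ∈ E x, 0 ≤ w x u) (hD0 : 0 < D)
    (hD : ∀ x ∈ A, D ≤ ∑ u ∈ E x, w x u) (hd0 : 0 ≤ d)
    (hd : ∀ y : β, ∑ x ∈ A, ∑ u ∈ (E x).filter (fun u => y ∈ s x u), w x u ≤ d)
    (hDd : 2 * r * d ≤ D) :
    ∃ f : α → ι, (∀ x ∈ A, f x ∈ E x) ∧
      ∀ x ∈ A, ∀ y ∈ A, x ≠ y → Disjoint (s x (f x)) (s y (f y)) := by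
  classical
  refine (haxell_conf (fun p q => ¬ Disjoint (s p.1 p.2) (s q.1 q.2)) A E w D
    (r * d) hw hD0 hD (fun y hy v hv => ?_) (by linarith)).imp
    fun f h => ⟨h.1, fun x hx y hy hxy => not_not.1 (h.2 x hx y hy hxy)⟩
  calc _ ≤ ∑ x ∈ A, ∑ t ∈ s y v, ∑ u ∈ (E x).filter (fun u => t ∈ s x u), w x u := by
        refine sum_le_sum fun x hx => ?_
        simp_rw [sum_filter]
        rw [sum_comm]
        refine sum_le_sum fun u hu => ?_
        have h0 : ∀ t ∈ s y v, 0 ≤ if t ∈ s x u then w x u else 0 := fun t _ => by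
          split_ifs
          · exact hw x hx u hu
          · exact le_rfl
        split_ifs with c
        · have c' : ¬ Disjoint (s x u) (s y v) := c.elim id fun q q' => q q'.symm
          obtain ⟨t, ht1, ht2⟩ := not_disjoint_iff.1 c'
          refine le_trans (le_of_eq ?_) (single_le_sum h0 ht2)
          rw [if_pos ht1]
        · exact sum_nonneg h0
    _ = ∑ t ∈ s y v, ∑ x ∈ A, ∑ u ∈ (E x).filter (fun u => t ∈ s x u), w x u := sum_comm
    _ ≤ (s y v).card * d := by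
        rw [← nsmul_eq_mul]
        exact sum_le_card_nsmul _ _ _ fun t _ => hd t
    _ ≤ r * d := mul_le_mul_of_nonneg_right (by exact_mod_cast hr y hy v hv) hd0

/-- hypergraph form, counting degrees -/
theorem haxell_deg [Nonempty ι] [DecidableEq β] (r : ℕ) (A : Finset α) (E : α → Finset ι)
    (s : α → ι → Finset β) (hr : ∀ x ∈ A, ∀ u ∈ E x, (s x u).card ≤ r) (D d : ℝ) (hD0 : 0 < D)
    (hD : ∀ x ∈ A, D ≤ (E x).card)
    (hd : ∀ y : β, ∑ x ∈ A, (((E x).filter fun u => y ∈ s x u).card : ℝ) ≤ d)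
    (hd0 : 0 ≤ d) (hDd : 2 * r * d ≤ D) :
    ∃ f : α → ι, (∀ x ∈ A, f x ∈ E x) ∧
      ∀ x ∈ A, ∀ y ∈ A, x ≠ y → Disjoint (s x (f x)) (s y (f y)) :=
  haxell_w r A E s hr (fun _ _ => 1) D d (fun _ _ _ _ => zero_le_one) hD0
    (by simpa using hD) hd0 (by simpa using hd) hDd

/-- hypergraph form, covering-number condition -/
theorem haxell [Nonempty ι] [DecidableEq β] (r : ℕ) (A : Finset α) (E : α → Finset ι)
    (s : α → ι → Finset β) (hr : ∀ x ∈ A, ∀ u ∈ E x, (s x u).card ≤ r)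
    (h : ∀ S ⊆ A, S.Nonempty → ∀ T : Finset β, T.card + 2 * r ≤ 2 * r * S.card →
      ∃ x ∈ S, ∃ u ∈ E x, Disjoint (s x u) T) :
    ∃ f : α → ι, (∀ x ∈ A, f x ∈ E x) ∧
      ∀ x ∈ A, ∀ y ∈ A, x ≠ y → Disjoint (s x (f x)) (s y (f y)) := by
  refine (haxell_pair (fun p q => ¬ Disjoint (s p.1 p.2) (s q.1 q.2)) A E
    fun S hS hne Z hZ hc => ?_).imp
    fun f h => ⟨h.1, fun x hx y hy hxy => not_not.1 (h.2 x hx y hy hxy)⟩
  obtain ⟨x, hx, u, hu, hd⟩ := h S hS hne (Z.biUnion fun z => s z.1 z.2) (by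
    have := card_biUnion_le_card_mul Z (fun z => s z.1 z.2) r
      fun z hz => hr _ (hZ z hz).1 _ (hZ z hz).2
    nlinarith [Nat.mul_le_mul_right r hc])
  refine ⟨x, hx, u, hu, fun z hz => ?_⟩
  have : Disjoint (s x u) (s z.1 z.2) :=
    hd.mono_right (subset_biUnion_of_mem (fun z : α × ι => s z.1 z.2) hz)
  exact ⟨not_not.2 this, not_not.2 this.symm⟩

end Hax

end Pool.Agent.P.MP_224820_co.St
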