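import Pool.Agent.P.MP_224820_co.St.Base
import Pool.Agent.P.MP_224820_co.St.Haxell

/-! Deterministic cover-down lemmas. -/

set_option autoImplicit false

namespace Pool.Agent.P.MP_224820_co.St

open Finset

variable {V : Type} [Fintype V] [DecidableEq V]

omit [Fintype V] in
/-- General form: every edge `e` of `L` has a list `E e` of triangles through `e`; two chosen triangles
are edge-disjoint as soon as the parts off their own edges are disjoint and no list triangle of `e`
contains another edge of `L`. -/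
theorem cover_gen {L : Finset (Sym2 V)} {T : Finset (Finset V)} (E : Sym2 V → Finset (Finset V))
    (hE : ∀ e ∈ L, ∀ t ∈ E e, t ∈ T ∧ t.card = 3 ∧ e ∈ ed t ∧ ∀ f ∈ L, f ∈ ed t → f = e)
    {D d : ℝ} (hD0 : 0 < D) (hd0 : 0 ≤ d) (hDd : 4 * d ≤ D)
    (hD : ∀ e ∈ L, D ≤ (E e).card)
    (hd : ∀ f, f ∉ L → ∑ e ∈ L, (((E e).filter fun t => f ∈ ed t).card : ℝ) ≤ d) :
    ∃ g : Sym2 V → Finset V, (∀ e ∈ L, g e ∈ E e) ∧
      (∀ e ∈ L, ∀ e' ∈ L, e ≠ e' → Disjoint (ed (g e)) (ed (g e'))) ∧
      L ⊆ (L.image g).biUnion ed ∧ Dec T ((L.image g).biUnion ed) := by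
  classical
  obtain ⟨g, hg, hdis⟩ := haxell_deg (α := Sym2 V) (ι := Finset V) (β := Sym2 V) 2 L E
    (fun e t => (ed t).erase e)
    (fun e he t ht => by
      obtain ⟨-, h3, hm, -⟩ := hE e he t ht
      rw [card_erase_of_mem hm, card_ed h3])
    D d hD0 hD
    (fun f => by
      by_cases hf : f ∈ L
      · refine le_trans (le_of_eq (sum_eq_zero fun e he => ?_)) hd0
        rw [Nat.cast_eq_zero, card_eq_zero, filter_eq_empty_iff]
        intro t ht hm
        rw [mem_erase] at hm
        exact hm.1 ((hE e he t ht).2.2.2 f hf hm.2)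
      · refine le_trans (sum_le_sum fun e _ => ?_) (hd f hf)
        exact_mod_cast card_le_card fun t ht => by
          rw [mem_filter] at ht ⊢
          exact ⟨ht.1, mem_of_mem_erase ht.2⟩)
    hd0 (by push_cast; linarith)
  have hdd : ∀ e ∈ L, ∀ e' ∈ L, e ≠ e' → Disjoint (ed (g e)) (ed (g e')) := by
    intro e he e' he' hne
    rw [disjoint_left]
    intro f h1 h2
    by_cases hf : f ∈ L
    · exact hne (((hE e he _ (hg e he)).2.2.2 f hf h1).symm.trans
        ((hE e' he' _ (hg e' he')).2.2.2 f hf h2))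
    · exact disjoint_left.1 (hdis e he e' he' hne)
        (mem_erase.2 ⟨fun h : f = e => hf (h ▸ he), h1⟩)
        (mem_erase.2 ⟨fun h : f = e' => hf (h ▸ he'), h2⟩)
  refine ⟨g, hg, hdd, fun e he => ?_, Dec_biUnion ?_ ?_ ?_⟩
  · exact mem_biUnion.2 ⟨g e, mem_image_of_mem _ he, (hE e he _ (hg e he)).2.2.1⟩
  · intro t ht
    obtain ⟨e, he, rfl⟩ := mem_image.1 ht
    exact (hE e he _ (hg e he)).1
  · intro t ht
    obtain ⟨e, he, rfl⟩ := mem_image.1 ht
    exact (hE e he _ (hg e he)).2.1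
  · intro t ht t' ht' hne
    obtain ⟨e, he, rfl⟩ := mem_image.1 ht
    obtain ⟨e', he', rfl⟩ := mem_image.1 ht'
    exact hdd e he e' he' fun h => hne (by rw [h])

omit [Fintype V] in
/-- Cover-down into a reservoir: every edge of `L` lies in at least `D` present triangles of type
`L R R`, every edge of `R` in at most `d` of them, `4 d ≤ D`. -/
theorem cover_det {L R : Finset (Sym2 V)} (hL : NoLoop L) (hR : NoLoop R) (hLR : Disjoint L R)
    {T : Finset (Finset V)} {D d : ℝ} (hD0 : 0 < D) (hd0 : 0 ≤ d) (hDd : 4 * d ≤ D)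
    (hD : ∀ e ∈ L, D ≤ cnt T fun t => Ty L R t ∧ e ∈ ed t)
    (hd : ∀ f ∈ R, (cnt T (fun t => Ty L R t ∧ f ∈ ed t) : ℝ) ≤ d) :
    ∃ R' ⊆ R, Dec T (L ∪ R') := by
  classical
  have hE : ∀ e ∈ L, ∀ t ∈ T.filter (fun t => Ty L R t ∧ e ∈ ed t),
      t ∈ T ∧ t.card = 3 ∧ e ∈ ed t ∧ ∀ f ∈ L, f ∈ ed t → f = e := by
    intro e he t ht
    rw [mem_filter] at ht
    exact ⟨ht.1, (Ty_card hL hR ht.2.1).1, ht.2.2,
      fun f hf h => Ty_unique hL hR hLR ht.2.1 hf he h ht.2.2⟩
  obtain ⟨g, hg, -, hsub, hdec⟩ := cover_gen (L := L) (T := T)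
    (fun e => T.filter fun t => Ty L R t ∧ e ∈ ed t) hE hD0 hd0 hDd
    (fun e he => by rw [← cnt_eq]; exact hD e he)
    (fun f hf => by
      by_cases hfR : f ∈ R
      · refine le_trans ?_ (hd f hfR)
        rw [cnt_eq, ← Nat.cast_sum, ← card_biUnion]
        · exact_mod_cast card_le_card fun t ht => by
            obtain ⟨e, _, h⟩ := mem_biUnion.1 ht
            simp only [mem_filter] at h ⊢
            exact ⟨h.1.1, h.1.2.1, h.2⟩
        · intro e he e' he' hne
          rw [Function.onFun, disjoint_left]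
          intro t h1 h2
          simp only [mem_filter] at h1 h2
          exact hne (Ty_unique hL hR hLR h1.1.2.1 he he' h1.1.2.2 h2.1.2.2)
      · refine le_trans (le_of_eq (sum_eq_zero fun e he => ?_)) hd0
        rw [Nat.cast_eq_zero, card_eq_zero, filter_eq_empty_iff]
        intro t ht hm
        rw [mem_filter] at ht
        rcases mem_union.1 ((Ty_card hL hR ht.2.1).2 hm) with h | h
        · exact hf h
        · exact hfR h)
  refine ⟨(L.image g).biUnion ed \ L, fun f hf => ?_, ?_⟩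
  · rw [mem_sdiff, mem_biUnion] at hf
    obtain ⟨⟨t, ht, hft⟩, hfL⟩ := hf
    obtain ⟨e, he, rfl⟩ := mem_image.1 ht
    have := hg e he
    rw [mem_filter] at this
    rcases mem_union.1 ((Ty_card hL hR this.2.1).2 hft) with h | h
    · exact absurd h hfL
    · exact h
  · rwa [union_sdiff_of_subset hsub]

end Pool.Agent.P.MP_224820_co.St
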