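import Mathlib

/-! Basic definitions: random subsets with independent coordinates, graphs, triangle decompositions. -/

set_option autoImplicit false

namespace Pool.Agent.P.MP_224820_co.St

open Finset

section Prob
variable {α : Type} [Fintype α] [DecidableEq α]

/-- expectation over a random subset, `a` being included with probability `p a`, independently -/
noncomputable def Ex (p : α → ℝ) (f : Finset α → ℝ) : ℝ :=
  ∑ R : Finset α, (∏ a, if a ∈ R then p a else 1 - p a) * f R

open Classical in
/-- probability of an event -/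
noncomputable def Pr (p : α → ℝ) (E : Finset α → Prop) : ℝ :=
  Ex p fun R => if E R then 1 else 0

/-- all inclusion probabilities lie in the unit interval -/
def IsP {β : Type} (p : β → ℝ) : Prop := ∀ a, 0 ≤ p a ∧ p a ≤ 1

/-- inclusion probabilities given by hazards -/
noncomputable def hz {β : Type} (h : β → ℝ) : β → ℝ := fun a => 1 - Real.exp (-h a)

/-- increasing events -/
def Incr {β : Type} (E : Finset β → Prop) : Prop := ∀ R R', R ⊆ R' → E R → E R'

/-- `f` depends only on the coordinates in `s` -/
def Loc {β γ : Type} [DecidableEq β] (s : Finset β) (f : Finset β → γ) : Prop :=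
  ∀ R R', R ∩ s = R' ∩ s → f R = f R'

open Classical in
/-- the number of elements of `J` with property `P` -/
noncomputable def cnt {ι : Type} (J : Finset ι) (P : ι → Prop) : ℕ := (J.filter P).card

end Prob

section Graph
variable {V : Type} [Fintype V] [DecidableEq V]

/-- the edges of a vertex set -/
def ed (t : Finset V) : Finset (Sym2 V) := t.sym2.filter fun e => ¬ e.IsDiag

/-- `G` is an edge-disjoint union of triangles taken from `T` -/
def Dec (T : Finset (Finset V)) (G : Finset (Sym2 V)) : Prop :=
  ∃ K ⊆ T, (∀ t ∈ K, t.card = 3 ∧ ed t ⊆ G) ∧ ∀ e ∈ G, ∃! t, t ∈ K ∧ e ∈ ed t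

/-- no loops -/
def NoLoop {W : Type} (G : Finset (Sym2 W)) : Prop := ∀ e ∈ G, ¬ e.IsDiag

/-- neighbourhood -/
def nb (G : Finset (Sym2 V)) (u : V) : Finset V := univ.filter fun w => s(u, w) ∈ G

/-- non-neighbourhood (it contains `u` itself when `G` has no loops) -/
def nn (G : Finset (Sym2 V)) (u : V) : Finset V := univ.filter fun w => s(u, w) ∉ G

/-- the complete graph -/
def KN (W : Type) [Fintype W] [DecidableEq W] : Finset (Sym2 W) := univ.filter fun e => ¬ e.IsDiag

/-- all triangles of a graph -/
def tri (G : Finset (Sym2 V)) : Finset (Finset V) := univ.filter fun t => t.card = 3 ∧ ed t ⊆ G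

/-- the divisibility conditions -/
def Dv (G : Finset (Sym2 V)) : Prop := (∀ v, Even (nb G v).card) ∧ 3 ∣ G.card

/-- triangles with one edge in `L` and two edges in `R` -/
def Ty (L R : Finset (Sym2 V)) (t : Finset V) : Prop :=
  ∃ u v w, t = {u, v, w} ∧ s(u, v) ∈ L ∧ s(u, w) ∈ R ∧ s(v, w) ∈ R

/-- common neighbourhoods of two, three and four vertices have the expected size up to one percent -/
def Typ (b : Finset (Sym2 V)) (β : ℝ) : Prop :=
  ∀ S : Finset V, 2 ≤ S.card → S.card ≤ 4 →
    |((univ.filter fun w => ∀ u ∈ S, s(u, w) ∈ b).card : ℝ) - Fintype.card V * β ^ S.card|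
      ≤ Fintype.card V * β ^ S.card / 100

/-- weight of the triangles of `G` (apart from the edge `uv` itself) on the pair `uv` -/
noncomputable def wd (ω : Finset V → ℝ) (G : Finset (Sym2 V)) (u v : V) : ℝ :=
  ∑ w ∈ nb G u ∩ nb G v, ω {u, v, w}

/-- the three edges of a formal triangle -/
def tr3 {W : Type} (x : W × W × W) : Multiset (Sym2 W) := {s(x.1, x.2.1), s(x.2.1, x.2.2), s(x.2.2, x.1)}

/-- sums of formal triangles -/
def FD {W : Type} (m : Multiset (Sym2 W)) : Prop := ∃ l : Multiset (W × W × W), m = l.bind tr3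

/-- `m` is the edge multiset of a walk of length `k` from `u` to `v` -/
def Wk {W : Type} (u v : W) (k : ℕ) (m : Multiset (Sym2 W)) : Prop :=
  ∃ x : ℕ → W, x 0 = u ∧ x k = v ∧ m = ∑ j ∈ range k, {s(x j, x (j + 1))}

/-- `A` absorbs every divisible subgraph of `X` -/
def Absorbs (A X : Finset (Sym2 V)) : Prop :=
  NoLoop A ∧ Disjoint A X ∧ ∀ L ⊆ X, Dv L → Dec (tri (A ∪ X)) (A ∪ L)

end Graph

end Pool.Agent.P.MP_224820_co.St
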