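import Pool.Agent.P.MP_224820_co.St.Defs

/-! Definitions for the transport lemma, the nibble, the gadgets, the designs and the edge classes. -/

set_option autoImplicit false

namespace Pool.Agent.P.MP_224820_co.St

open Finset

section Status
variable {K E Y : Type} [Fintype K] [DecidableEq K] [Fintype E] [DecidableEq E]

/-- the pairs carrying mark `k` -/
def sl (ξ : Finset (K × E)) (k : K) : Finset E := univ.filter fun e => (k, e) ∈ ξ

/-- the marks of the pair `e` -/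
def st (ξ : Finset (K × E)) (e : E) : Finset K := univ.filter fun k => (k, e) ∈ ξ

/-- hazards in the clustered model -/
noncomputable def hzs {Λ : Type} [Fintype Λ] (lam0 : ℝ) (lam : Λ → ℝ) (σ : Λ → Finset K → ℝ)
    (ed' : Y → Finset E) (ξ : Finset (K × E)) (y : Y) : ℝ :=
  lam0 + ∑ l, lam l * ∏ e ∈ ed' y, σ l (st ξ e)

open Classical in
/-- the triangles that are present for sure in the clustered model -/
noncomputable def sure [Fintype Y] (Lst : Finset K → Prop) (ed' : Y → Finset E) (ξ : Finset (K × E)) :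
    Finset Y :=
  univ.filter fun y => (ed' y).card = 3 ∧ ∀ e ∈ ed' y, Lst (st ξ e)

end Status

section Nibble
variable {V : Type} [Fintype V] [DecidableEq V]

/-- edges of triangles, nothing for other sets -/
def ed3 (t : Finset V) : Finset (Sym2 V) := if t.card = 3 then ed t else ∅

open Classical in
/-- probability `q` on typed triangles -/
noncomputable def tyP (G R : Finset (Sym2 V)) (q : ℝ) (t : Finset V) : ℝ := if Ty G R t then q else 0

/-- the number of typed triangles of `Q` on the pair `e` -/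
noncomputable def lst (G R : Finset (Sym2 V)) (Q : Finset (Finset V)) (e : Sym2 V) : ℕ :=
  cnt Q fun t => Ty G R t ∧ e ∈ ed t

open Classical in
/-- the typed triangles on the pair `e` -/
noncomputable def blk (G R : Finset (Sym2 V)) (e : Sym2 V) : Finset (Finset V) :=
  univ.filter fun t => Ty G R t ∧ e ∈ ed t

open Classical in
/-- the edges of `G` with a short list -/
noncomputable def exc (G R : Finset (Sym2 V)) (k : ℝ) (Q : Finset (Finset V)) : Finset (Sym2 V) :=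
  G.filter fun e => (lst G R Q e : ℝ) ≤ 4 * k

/-- hypotheses of one round of the nibble -/
structure RH (G : Finset (Sym2 V)) (ω : Finset V → ℝ) (W Lo Up δ : ℝ) : Prop where
  nl : NoLoop G
  w0 : ∀ t, 0 ≤ ω t
  wW : ∀ t, ω t ≤ W
  lo : 0 < Lo
  lu : Lo ≤ Up
  d0 : 0 < δ
  d1 : δ ≤ 1 / 10
  qh : δ * W / Up ≤ 1 / 2
  deg : ∀ u v, s(u, v) ∈ G → Lo ≤ wd ω G u v ∧ wd ω G u v ≤ Up

/-- activation probabilities -/
noncomputable def rq (G : Finset (Sym2 V)) (ω : Finset V → ℝ) (Up δ : ℝ) (t : Finset V) : ℝ :=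
  if t ∈ tri G then δ * ω t / Up else 0

/-- extra deletion probabilities, making every edge survive with probability `1 - δ` -/
noncomputable def rk (G : Finset (Sym2 V)) (ω : Finset V → ℝ) (Up δ : ℝ) (e : Sym2 V) : ℝ :=
  if e ∈ G then 1 - (1 - δ) / ∏ t ∈ (tri G).filter (fun t => e ∈ ed t), (1 - rq G ω Up δ t) else 0

/-- the product space of one round -/
noncomputable def rp (G : Finset (Sym2 V)) (ω : Finset V → ℝ) (Up δ : ℝ) : Finset V ⊕ Sym2 V → ℝ :=
  Sum.elim (rq G ω Up δ) (rk G ω Up δ)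

/-- activated triangles -/
def act (G : Finset (Sym2 V)) (X : Finset (Finset V ⊕ Sym2 V)) : Finset (Finset V) :=
  (tri G).filter fun t => Sum.inl t ∈ X

/-- surviving edges -/
def surv (G : Finset (Sym2 V)) (X : Finset (Finset V ⊕ Sym2 V)) : Finset (Sym2 V) :=
  G.filter fun e => Sum.inr e ∉ X ∧ ∀ t ∈ act G X, e ∉ ed t

/-- edges of activated triangles that share an edge with another activated triangle -/
def conf (G : Finset (Sym2 V)) (X : Finset (Finset V ⊕ Sym2 V)) : Finset (Sym2 V) :=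
  G.filter fun e => ∃ t ∈ act G X, e ∈ ed t ∧ ∃ t' ∈ act G X, t' ≠ t ∧ ¬ Disjoint (ed t) (ed t')

/-- parameters of level zero -/
structure P0 where
  q : ℝ
  k : ℝ
  ps : ℝ
  ds : ℝ
  Z : ℝ
  qb : ℝ
  Hb : ℝ
  kb : ℝ
  l1 : ℝ
  l2 : ℝ
  lam : ℝ
  μ : ℝ
  ell : ℝ

/-- numerical side conditions of level zero -/
structure P0.ok (P : P0) (n θ β : ℝ) : Prop where
  q0 : 0 ≤ P.q
  q1 : P.q ≤ 1 / 2
  k0 : 0 ≤ P.k
  ps : Real.exp (4 * P.k - P.q * (n * β ^ 2 / 2) / 2) ≤ P.ps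
  qb0 : 0 ≤ P.qb
  Hb0 : 0 ≤ P.Hb
  qbH : P.qb ≤ 1 - Real.exp (-P.Hb)
  kb0 : 0 ≤ P.kb
  l10 : 0 ≤ P.l1
  l20 : 0 ≤ P.l2
  lam0 : 0 ≤ P.lam
  ds : P.ds ≤ θ * n
  th : θ ≤ 1 / 1600
  ell1 : 1 ≤ P.ell
  mu0 : 0 < P.μ
  mu1 : P.μ ≤ 1 / 2
  mue : Real.exp (-P.ell) ≤ P.μ
  nW : 2 * 10 ^ 9 * P.ell ^ 7 ≤ n * P.μ ^ 5
  nN : 10 ^ 5 * P.ell ^ 5 ≤ 2 * n * β * P.μ ^ 3

/-- failure probability of level zero -/
noncomputable def P0.bd (P : P0) (n θ β : ℝ) : ℝ :=
  n * Real.exp (2 * n * P.ps - P.ds) + n ^ 2 * Real.exp (4 * P.q * (2 * n * β) - P.Z)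
  + (n ^ 2 * Real.exp (4 * P.l1 * P.kb - P.qb * (n * (1 - 4 * θ)) * (1 - Real.exp (-P.l1)))
    + n ^ 2 * Real.exp (2 * P.qb * P.ds * (Real.exp P.l2 - 1) - P.l2 * P.kb)
    + n * Real.exp (4 * P.qb * n * P.ds - θ * n))
  + 11200 * P.ell ^ 3 / P.μ * n ^ 2 * Real.exp (-P.ell)
  + (n ^ 2 * Real.exp (P.Z * P.ps * (Real.exp P.lam - 1) - P.lam * P.k / 2)
    + n ^ 2 * Real.exp (2 * P.q * (10 * P.μ * n * β) * (Real.exp P.lam - 1) - P.lam * P.k / 2))

/-- numerical side conditions of the later levels -/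
structure LN (n β β' μ ell : ℝ) : Prop where
  b0 : 0 < β
  b1 : β ≤ 1
  b'0 : 0 < β'
  ell1 : 1 ≤ ell
  mu0 : 0 < μ
  mu1 : μ ≤ 1 / 2
  mue : Real.exp (-ell) ≤ μ
  nW : 2 * 10 ^ 9 * ell ^ 7 ≤ n * β ^ 2 * μ ^ 5
  nN : 10 ^ 5 * ell ^ 5 ≤ 4 * n * β * β' * μ ^ 3
  cd : 5120 * μ * β ≤ β'
  nq : 128 * ell ≤ n * β' ^ 2

/-- graph hypotheses of the later levels -/
structure LG (A b R : Finset (Sym2 V)) (β β' : ℝ) : Prop where
  nA : NoLoop A
  nb' : NoLoop b
  nR : NoLoop R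
  dAb : Disjoint A b
  dR : Disjoint (A ∪ b) R
  typ : Typ b β
  mix : ∀ x w, s(x, w) ∈ b → ((nb A x ∩ nb b w).card : ℝ) ≤ Fintype.card V * β ^ 2 / 100
  che : ∀ u v, u ≠ v → Fintype.card V * β' ^ 2 / 2 ≤ ((nb R u ∩ nb R v).card : ℝ)
  trk : ∀ u w, u ≠ w → ((nb (A ∪ b) u ∩ nb R w).card : ℝ) ≤ 4 * Fintype.card V * β * β'

end Nibble

section Gadget
variable {V U : Type} [Fintype V] [DecidableEq V] [Fintype U] [DecidableEq U]

/-- edges of an embedded gadget; `back u` lists the earlier neighbours (roots in `V`, free vertices in `U`) -/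
def gE {V U : Type} [Fintype U] (back : U → Finset (V ⊕ U)) (φ : U → V) : Multiset (Sym2 V) :=
  ∑ u, (back u).val.map fun x => s(φ u, Sum.elim id φ x)

/-- root neighbours of a free vertex -/
def rb (back : U → Finset (V ⊕ U)) (u : U) : Finset V := univ.filter fun x => Sum.inl x ∈ back u

/-- all roots -/
def rts (back : U → Finset (V ⊕ U)) : Finset V := univ.filter fun x => ∃ u, Sum.inl x ∈ back u

/-- adjacency of free vertices -/
def adjF {V U : Type} (back : U → Finset (V ⊕ U)) (u w : U) : Prop :=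
  Sum.inr w ∈ back u ∨ Sum.inr u ∈ back w

/-- admissible embeddings -/
def Opt (back : U → Finset (V ⊕ U)) (Fb : Finset (Sym2 V)) (φ : U → V) : Prop :=
  Function.Injective φ ∧ (∀ u, φ u ∉ rts back) ∧ ∀ e ∈ gE back φ, e ∉ Fb

/-- every set of free vertices can be ranked with in-degrees at most three, except for at most `z0`
vertices of in-degree four when the set has at least `s0` elements -/
def GOrd (back : U → Finset (V ⊕ U)) (z0 s0 : ℕ) : Prop :=
  ∀ I : Finset U, ∃ (r : U → ℕ) (Z : Finset U), Z.card ≤ z0 ∧ (Z = ∅ ∨ s0 ≤ I.card) ∧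
    (∀ u ∈ I, ∀ w ∈ I, adjF back u w → r u ≠ r w) ∧
    ∀ u ∈ I, (rb back u).card + cnt I (fun w => adjF back u w ∧ r w < r u) ≤ if u ∈ Z then 4 else 3

/-- structural hypotheses on a gadget, apart from `GOrd` -/
structure GS (back : U → Finset (V ⊕ U)) (wr D1 emax : ℕ) : Prop where
  acyc : ∃ r : U → ℕ, ∀ u w, Sum.inr w ∈ back u → r w < r u
  roots : (rts back).card ≤ wr
  out : ∀ u, (back u).card ≤ D1
  inn : ∀ x, (univ.filter fun u => x ∈ back u).card ≤ D1
  rdeg : ∀ u, (rb back u).card ≤ 2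
  tot : ∑ u, (back u).card ≤ emax

open Classical in
/-- the gain from the first shared edge -/
noncomputable def gain (back : U → Finset (V ⊕ U)) (W0 : Finset V) (β w0 : ℝ) : ℝ :=
  if ∃ u, 2 ≤ (rb back u ∩ W0).card then β else if ∃ x ∈ rts back, x ∈ W0 then β ^ 2 else β ^ 5 * w0

/-- the cost of one vertex placed on an existing embedding -/
noncomputable def FF (n : ℝ) (T wr D1 : ℕ) (β : ℝ) : ℝ := ((T + wr : ℝ) + 3 * (2 * D1) / β ^ 3) / n

/-- bound for the contribution of large overlaps -/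
noncomputable def bigB (T s0 : ℕ) (F y : ℝ) : ℝ := if T < s0 then 0 else y ^ s0 * (1 + F / y) ^ T

/-- numerical hypotheses of the embedding lemma -/
structure EN (n : ℝ) (T wr D1 emax z0 s0 : ℕ) (NG L1 L2 β m κ0 Δ y : ℝ) : Prop where
  b0 : 0 < β
  b1 : β ≤ 1
  m0 : 0 < m
  D : 1 ≤ D1
  y0 : 0 < y
  y1 : y ≤ 1
  n0 : 0 ≤ NG
  n1 : 0 ≤ L1
  n2 : 0 ≤ L2
  wb : (T + wr : ℝ) * β ^ 2 ≤ 1
  opt : (T : ℝ) ^ 2 + T * wr + emax * Δ ≤ n / 2
  mm : m ≤ n ^ T / 2 * β ^ emax
  kap : 8 * T * (1 + FF n T wr D1 β) ^ T *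
      (NG * (β ^ 5 * (T + wr)) + (T + wr) * L1 * β ^ 2 + (T + wr : ℝ) ^ 2 * L2 * β)
    + NG * ((2 / β) ^ z0 * bigB T s0 (FF n T wr D1 β) y) ≤ κ0

/-- hypotheses on a family of gadgets -/
structure EF {Gd : Type} (back : Gd → U → Finset (V ⊕ U)) (𝒢 : Finset Gd) (wr D1 emax z0 s0 : ℕ)
    (NG L1 L2 : ℝ) : Prop where
  gs : ∀ g ∈ 𝒢, GS (back g) wr D1 emax
  ord : ∀ g ∈ 𝒢, GOrd (back g) z0 s0
  num : (𝒢.card : ℝ) ≤ NG
  ld1 : ∀ x, (cnt 𝒢 (fun g => x ∈ rts (back g)) : ℝ) ≤ L1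
  ld2 : ∀ x y, x ≠ y → (cnt 𝒢 (fun g => ∃ u, x ∈ rb (back g) u ∧ y ∈ rb (back g) u) : ℝ) ≤ L2

/-- failure probability of a gadget in one round -/
noncomputable def kapR (m κ0 : ℝ) : ℝ := 4 * (1 + 2 * m * κ0) / m + 4 * m * κ0

/-- inner edges of a capped helical tube on positions `0, …, t + 4` -/
def core {W : Type} (x : ℕ → W) (t : ℕ) : Multiset (Sym2 W) :=
  ∑ j ∈ range t, ({s(x (j + 5), x (j + 4)), s(x (j + 5), x (j + 1)), s(x (j + 5), x j)} :
    Multiset (Sym2 W)) + {s(x (t + 2), x t), s(x (t + 4), x (t + 2))}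

/-- paths of length three or four between two roots -/
def pback (u v : V) (l : ℕ) (i : Fin 3) : Finset (V ⊕ Fin 3) :=
  if i = 0 then {Sum.inl u}
  else if i = 1 then (if l = 4 then {Sum.inr 0} else {Sum.inr 0, Sum.inl v})
  else (if l = 4 then {Sum.inr 1, Sum.inl v} else ∅)

/-- free vertices of a fold with tubes of length `t` -/
abbrev FU (t : ℕ) : Type := (Fin 3 × Fin 21) ⊕ (Fin 2 × Fin 21 × Fin t)

/-- indices of the closed walk -/
def f21 (i : ℕ) : Fin 21 := ⟨i % 21, Nat.mod_lt _ (Nat.succ_pos 20)⟩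

/-- first inner vertex of the `i`-th lengthened edge -/
def fP (W : Type) (t i : ℕ) : W ⊕ FU t := Sum.inr (Sum.inl (0, f21 i))

/-- middle vertex of the `i`-th lengthened edge; every third one is the hub -/
def fQ (W : Type) (t i : ℕ) : W ⊕ FU t := Sum.inr (Sum.inl (1, f21 (if i % 3 = 0 then 0 else i)))

/-- last inner vertex of the `i`-th lengthened edge -/
def fR (W : Type) (t i : ℕ) : W ⊕ FU t := Sum.inr (Sum.inl (2, f21 i))

/-- boundary of the tube `(c, i)` -/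
def fB {W : Type} (t : ℕ) (v : ℕ → W) (k : ℕ) (c : Fin 2) (i j : ℕ) : W ⊕ FU t :=
  if c = 0 then
    (if j = 0 then Sum.inl (v i) else if j = 1 then fP W t i else if j = 2 then fQ W t i
      else if j = 3 then fR W t i else Sum.inl (v (i + 1)))
  else
    (if j = 0 then fQ W t i else if j = 1 then fR W t i else if j = 2 then Sum.inl (v (i + 1))
      else if j = 3 then fP W t ((i + 1) % (3 * k)) else fQ W t (i + 1))

/-- position `j` of the tube `(c, i)` -/
def fX {W : Type} (t : ℕ) (v : ℕ → W) (k : ℕ) (c : Fin 2) (i : Fin 21) (j : ℕ) : W ⊕ FU t :=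
  if h : 5 ≤ j ∧ j - 5 < t then Sum.inr (Sum.inr (c, i, ⟨j - 5, h.2⟩)) else fB t v k c i j

/-- the fold absorbing the closed walk `v 0, …, v (3 k) = v 0` -/
def fback {W : Type} [DecidableEq W] (t : ℕ) (v : ℕ → W) (k : ℕ) : FU t → Finset (W ⊕ FU t)
  | Sum.inl (a, i) =>
    if (i : ℕ) < 3 * k then
      (if a = 0 then {Sum.inl (v i), fQ W t i}
      else if a = 2 then {fQ W t i, Sum.inl (v (i + 1))}
      else if (i : ℕ) % 3 = 1 then {fQ W t 0}
      else if (i : ℕ) % 3 = 2 then {fQ W t 0, fQ W t (i - 1)} else ∅)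
    else ∅
  | Sum.inr (c, i, j) =>
    if (i : ℕ) < 3 * k then
      {fX t v k c i (j + 4), fX t v k c i (j + 1), fX t v k c i j}
        ∪ (if (j : ℕ) + 3 = t then {fX t v k c i t} else ∅)
        ∪ (if (j : ℕ) + 1 = t then {fX t v k c i (t + 2)} else ∅)
    else ∅

end Gadget

section Design

/-- a module of an absorber design: items are virtual paths, cells are closed walks of inputs and items -/
structure Mod {V In Out I Cl : Type} [Fintype I] [Fintype Cl]
    (iu iv : In → V) (il : In → ℕ) (ok : Finset In → Prop)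
    (src tgt : I → V) (len : I → ℕ) (cell : Cl → Multiset (In ⊕ I))
    (out : Out → I) (okO : Finset Out → Prop) (Lam C : ℕ) : Prop where
  len34 : ∀ i, len i = 3 ∨ len i = 4
  inj : Function.Injective out
  closed : ∀ (PI : In → Multiset (Sym2 V)) (PE : I → Multiset (Sym2 V)),
    (∀ w, Wk (iu w) (iv w) (il w) (PI w)) → (∀ i, Wk (src i) (tgt i) (len i) (PE i)) →
    ∀ c, ∃ u k, 1 ≤ k ∧ k ≤ 7 ∧ Wk u u (3 * k) ((cell c).bind (Sum.elim PI PE))
  cover : ∀ S, ok S → ∃ (T : Finset Cl) (SO : Finset Out), okO SO ∧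
    ∑ c ∈ T, cell c + SO.val.map (fun o => Sum.inr (out o))
      = S.val.map Sum.inl + (univ : Finset I).val.map Sum.inr
  load : ∀ v, cnt univ (fun i => src i = v ∨ tgt i = v) ≤ Lam
  mult : ∀ a, cnt univ (fun c => a ∈ cell c) ≤ C

/-- existence of a module whose outputs are items of length three with given ends -/
def HasMod {V In Out : Type} (iu iv : In → V) (il : In → ℕ) (ok : Finset In → Prop)
    (ou ov : Out → V) (okO : Finset Out → Prop) (Lam C : ℕ) : Prop :=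
  ∃ (I Cl : Type) (_ : Fintype I) (_ : Fintype Cl) (src tgt : I → V) (len : I → ℕ)
    (cell : Cl → Multiset (In ⊕ I)) (out : Out → I),
    Mod iu iv il ok src tgt len cell out okO Lam C ∧
      ∀ o, src (out o) = ou o ∧ tgt (out o) = ov o ∧ len (out o) = 3

/-- zero boundary modulo two -/
def Zb {V In : Type} (iu iv : In → V) (S : Finset In) : Prop :=
  ∀ v, Even (cnt S (fun w => iu w = v) + cnt S (fun w => iv w = v))

/-- divisible subgraphs of `X` -/
def okX {n : ℕ} (X : Finset (Sym2 (Fin n))) (S : Finset {e // e ∈ X}) : Prop :=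
  Dv (S.map (Function.Embedding.subtype _))

end Design

section Classes
variable {V : Type} [Fintype V] [DecidableEq V]

/-- the pairs whose first mark is `k` -/
def Cls {r : ℕ} (ξ : Finset (Fin r × Sym2 V)) (k : Fin r) : Finset (Sym2 V) :=
  (KN V).filter fun e => (k, e) ∈ ξ ∧ ∀ k', k' < k → (k', e) ∉ ξ

/-- common neighbours in prescribed classes -/
def cc {r : ℕ} (ξ : Finset (Fin r × Sym2 V)) (l : Finset (V × Fin r)) : ℕ :=
  (univ.filter fun w => ∀ x ∈ l, s(x.1, w) ∈ Cls ξ x.2).card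

/-- all such counts are typical -/
def Good {r : ℕ} (π : Fin r → ℝ) (ξ : Finset (Fin r × Sym2 V)) : Prop :=
  ∀ l : Finset (V × Fin r), Set.InjOn Prod.fst (l : Set (V × Fin r)) → l.card ≤ 4 →
    (Fintype.card V : ℝ) ^ (1 / 100 : ℝ) ≤ Fintype.card V * ∏ x ∈ l, π x.2 →
    |(cc ξ l : ℝ) - Fintype.card V * ∏ x ∈ l, π x.2| ≤ Fintype.card V * (∏ x ∈ l, π x.2) / 100

/-- exponents of the levels -/
noncomputable def xs (x0 : ℝ) (i : ℕ) : ℝ := x0 * (7 / 5) ^ i

/-- admissible level parameters -/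
structure ParOK (n J : ℕ) (x0 : ℝ) : Prop where
  J1 : 1 ≤ J
  J2 : (J : ℝ) ≤ 3 + 3 * Real.log (Real.log n)
  lo : Real.log (Real.log n) / 5 ≤ x0
  hi : x0 ≤ 7 / 25 * Real.log (Real.log n)
  top : xs x0 (J - 1) = 49 / 200 * Real.log n

/-- index of the reservoir class of level `i`; level `J` is the class to be absorbed -/
def kA (J i : ℕ) : Fin (2 * J + 2) := if h : i < J then ⟨2 + 2 * i, by omega⟩ else ⟨0, by omega⟩

/-- index of the main class of level `i`; level `J` is the class holding the absorber -/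
def kB (J i : ℕ) : Fin (2 * J + 2) := if h : i < J then ⟨3 + 2 * i, by omega⟩ else ⟨1, by omega⟩

/-- cube root of the density of the absorbing layer -/
noncomputable def rho (n : ℕ) (η : ℝ) : ℝ := (η * Real.log n / n) ^ (1 / 3 : ℝ)

/-- mark probabilities -/
noncomputable def piK (n J : ℕ) (x0 η : ℝ) (k : Fin (2 * J + 2)) : ℝ :=
  if (k : ℕ) = 0 then Real.exp (-xs x0 J) / 200
  else if (k : ℕ) = 1 then rho n η / 8
  else if (k : ℕ) % 2 = 0 then Real.exp (-xs x0 ((k - 2) / 2)) / 200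
  else Real.exp (-xs x0 ((k - 3) / 2))

/-- hazard multipliers of the layers -/
noncomputable def sig (n J : ℕ) (x0 η : ℝ) : Option (Fin J) → Finset (Fin (2 * J + 2)) → ℝ
  | none, s => 1 / 4 + (if kA J 0 ∈ s then 1 / (4 * piK n J x0 η (kA J 0)) else 0)
  | some i, s => (if kA J i ∈ s then 1 / (8 * piK n J x0 η (kB J i)) else 0)
      + (if kB J i ∈ s then 1 / (8 * piK n J x0 η (kB J i)) else 0)
      + (if kA J (i + 1) ∈ s then 1 / (4 * piK n J x0 η (kA J (i + 1))) else 0)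

/-- base hazards of the layers -/
noncomputable def lamL (n J : ℕ) (x0 η : ℝ) : Option (Fin J) → ℝ
  | none => 64 * η * Real.log n / n
  | some i => (2048 + 163840 * Real.log n * Real.exp (-xs x0 i)) / n

/-- numerical facts on the parameters -/
structure TN (n J : ℕ) (x0 ε : ℝ) : Prop where
  isP : IsP (piK n J x0 (ε / 260))
  pos : ∀ k, 0 < piK n J x0 (ε / 260) k
  sum1 : ∑ k, piK n J x0 (ε / 260) k ≤ 1 / 1000
  sum2 : 1 + 2 * n * ∑ k, piK n J x0 (ε / 260) k ≤ Real.log n ^ (-(1 / 10) : ℝ) * n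
  two : ∀ k k', (n : ℝ) ^ (1 / 100 : ℝ) ≤ n * (piK n J x0 (ε / 260) k * piK n J x0 (ε / 260) k')
  four : ∀ i < J, (n : ℝ) ^ (1 / 100 : ℝ) ≤ n * piK n J x0 (ε / 260) (kB J i) ^ 4
  piA : ∀ i ≤ J, piK n J x0 (ε / 260) (kA J i) = Real.exp (-xs x0 i) / 200
  piB : ∀ i < J, piK n J x0 (ε / 260) (kB J i) = Real.exp (-xs x0 i)
  piC : piK n J x0 (ε / 260) (kB J J) = rho n (ε / 260) / 8
  a0 : Real.log n ^ (-(3 / 10) : ℝ) ≤ Real.exp (-x0) / 200
  degX : 2 * n * (Real.exp (-xs x0 J) / 200) ≤ (n : ℝ) ^ (657 / 1000 : ℝ)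
  rho0 : 0 < rho n (ε / 260)
  rho1 : rho n (ε / 260) ≤ 1
  xrho : Real.exp (-xs x0 J) / 200 ≤ rho n (ε / 260) / 8
  budget : (2 + ε / 2) * Real.log n / n + ∑ l, lamL n J x0 (ε / 260) l + rho n (ε / 260) ^ 3
    ≤ (2 + ε) * Real.log n / n
  cls : 2 * J + 2 ≤ n
  rng : ∀ i < J, Real.log (Real.log n) / 5 ≤ xs x0 i ∧ xs x0 i ≤ 49 / 200 * Real.log n
  log1 : 1 ≤ Real.log n

/-- marks of the absorbing layer -/
def LsK (J : ℕ) (s : Finset (Fin (2 * J + 2))) : Prop := kA J J ∈ s ∨ kB J J ∈ s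

end Classes

end Pool.Agent.P.MP_224820_co.St
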