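import Mathlib

/-! Steiner triple systems in the random 3-graph. -/

set_option autoImplicit false

namespace Pool.Agent.P.MP_224820_co.St

open Finset

/-- a Steiner triple system of order `n`: triangles covering every pair exactly once -/
def IsSTS (n : ℕ) (S : Finset (Finset (Fin n))) : Prop :=
  (∀ t ∈ S, t.card = 3) ∧ ∀ e : Finset (Fin n), e.card = 2 → ∃! t, t ∈ S ∧ e ⊆ t

open Classical in
/-- the probability that the random 3-graph keeping each triangle with probability `p` contains a
Steiner triple system of order `n` -/
noncomputable def probSTS (n : ℕ) (p : ℝ) : ℝ :=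
  ∑ T ∈ (powersetCard 3 (univ : Finset (Fin n))).powerset,
    if ∃ S ⊆ T, IsSTS n S then p ^ T.card * (1 - p) ^ (n.choose 3 - T.card) else 0

end Pool.Agent.P.MP_224820_co.St
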