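import Pool.Agent.P.MP_224820_co.St.Base

/-! One round of selection: second moment for the number of present candidates, first moment for conflicts. -/

set_option autoImplicit false

namespace Pool.Agent.P.MP_224820_co.St

open Finset

variable {α : Type} [Fintype α] [DecidableEq α]

/-- probability that all coordinates of `F` are present -/
noncomputable def emWt {β : Type} (p : β → ℝ) (F : Finset β) : ℝ := ∏ a ∈ F, p a

/-- indicator of `F ⊆ R` -/
noncomputable def emInd {β : Type} [DecidableEq β] (F R : Finset β) : ℝ := if F ⊆ R then 1 else 0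

theorem Ex_emInd (p : α → ℝ) (F : Finset α) : Ex p (fun R => emInd F R) = emWt p F := by
  have h := Pr_subset p F
  rw [Pr_eq] at h
  exact h

omit [Fintype α] in
theorem emInd_mul (F G R : Finset α) : emInd F R * emInd G R = emInd (F ∪ G) R := by
  unfold emInd
  by_cases h1 : F ⊆ R <;> by_cases h2 : G ⊆ R <;> simp [h1, h2, union_subset_iff]

omit [Fintype α] in
theorem emInd_nonneg (F R : Finset α) : 0 ≤ emInd F R := by
  unfold emInd
  split_ifs <;> norm_num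

omit [Fintype α] [DecidableEq α] in
theorem emWt_nonneg {p : α → ℝ} (hp : IsP p) (F : Finset α) : 0 ≤ emWt p F :=
  prod_nonneg fun a _ => (hp a).1

omit [Fintype α] in
theorem emWt_union {p : α → ℝ} {F G : Finset α} (h : Disjoint F G) :
    emWt p (F ∪ G) = emWt p F * emWt p G := prod_union h

theorem ema_var {p : α → ℝ} (hp : IsP p) {κ : Type} (J : Finset κ) (F : κ → Finset α) :
    Ex p (fun R => (∑ y ∈ J, emInd (F y) R - ∑ y ∈ J, emWt p (F y)) ^ 2)
      ≤ ∑ y ∈ J, ∑ y' ∈ J.filter (fun y' => ¬ Disjoint (F y) (F y')), emWt p (F y ∪ F y') := by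
  set μ := ∑ y ∈ J, emWt p (F y) with hμ
  have h1 : ∀ R, (∑ y ∈ J, emInd (F y) R - μ) ^ 2
      = (∑ y ∈ J, ∑ y' ∈ J, emInd (F y ∪ F y') R) + ((-2 * μ) * ∑ y ∈ J, emInd (F y) R + μ ^ 2) := by
    intro R
    have : ∑ y ∈ J, ∑ y' ∈ J, emInd (F y ∪ F y') R = (∑ y ∈ J, emInd (F y) R) ^ 2 := by
      rw [sq, sum_mul_sum]
      exact sum_congr rfl fun y _ => sum_congr rfl fun y' _ => (emInd_mul _ _ _).symm
    rw [this]
    ring
  rw [Ex_congr h1, Ex_add, Ex_add, Ex_mul, Ex_const, Ex_sum, Ex_sum]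
  simp only [Ex_sum, Ex_emInd]
  rw [← hμ]
  have h2 : μ ^ 2 = ∑ y ∈ J, ∑ y' ∈ J, emWt p (F y) * emWt p (F y') := by
    rw [sq, hμ, sum_mul_sum]
  have h3 : ∑ y ∈ J, ∑ y' ∈ J, emWt p (F y ∪ F y')
      ≤ ∑ y ∈ J, ∑ y' ∈ J.filter (fun y' => ¬ Disjoint (F y) (F y')), emWt p (F y ∪ F y') + μ ^ 2 := by
    rw [h2, ← sum_add_distrib]
    refine sum_le_sum fun y _ => ?_
    rw [sum_filter, ← sum_add_distrib]
    refine sum_le_sum fun y' _ => ?_
    by_cases hd : Disjoint (F y) (F y')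
    · simp [hd, emWt_union hd]
    · simp only [hd, not_false_eq_true, if_true]
      have := mul_nonneg (emWt_nonneg hp (F y)) (emWt_nonneg hp (F y'))
      linarith
  nlinarith

/-- with small probability every present candidate has conflict weight at least one -/
theorem ema_one {p : α → ℝ} (hp : IsP p) {κ κ' : Type} (J : Finset κ) (F : κ → Finset α)
    (O : Finset κ') (G : κ' → Finset α) (cw : κ → κ' → ℝ) (hcw : ∀ y o, 0 ≤ cw y o)
    {μ ε₁ ε₂ : ℝ} (hμ : ∑ y ∈ J, emWt p (F y) = μ) (hμ0 : 0 < μ)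
    (h1 : ∑ y ∈ J, ∑ y' ∈ J.filter (fun y' => ¬ Disjoint (F y) (F y')), emWt p (F y ∪ F y')
      ≤ ε₁ * μ ^ 2)
    (h2 : ∑ y ∈ J, ∑ o ∈ O, cw y o * emWt p (F y ∪ G o) ≤ ε₂ * μ) :
    Pr p (fun R => ¬ ∃ y ∈ J, F y ⊆ R ∧ ∑ o ∈ O, cw y o * emInd (G o) R < 1) ≤ 4 * ε₁ + 2 * ε₂ := by
  have hC0 : ∀ R, 0 ≤ ∑ y ∈ J, ∑ o ∈ O, cw y o * emInd (F y ∪ G o) R := fun R =>
    sum_nonneg fun y _ => sum_nonneg fun o _ => mul_nonneg (hcw y o) (emInd_nonneg _ _)
  refine (Pr_le_Ex hp (f := fun R => (4 / μ ^ 2) * (∑ y ∈ J, emInd (F y) R - μ) ^ 2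
    + (2 / μ) * ∑ y ∈ J, ∑ o ∈ O, cw y o * emInd (F y ∪ G o) R) (fun R => ?_) (fun R hR => ?_)).trans ?_
  · have := hC0 R
    positivity
  · have hN : ∑ y ∈ J, emInd (F y) R ≤ ∑ y ∈ J, ∑ o ∈ O, cw y o * emInd (F y ∪ G o) R := by
      refine sum_le_sum fun y hy => ?_
      have h3 : ∑ o ∈ O, cw y o * emInd (F y ∪ G o) R
          = emInd (F y) R * ∑ o ∈ O, cw y o * emInd (G o) R := by
        rw [mul_sum]
        refine sum_congr rfl fun o _ => ?_
        rw [← emInd_mul]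
        ring
      rw [h3]
      by_cases hs : F y ⊆ R
      · have h4 : 1 ≤ ∑ o ∈ O, cw y o * emInd (G o) R := by
          by_contra h5
          exact hR ⟨y, hy, hs, not_le.1 h5⟩
        have h5 := emInd_nonneg (F y) R
        nlinarith
      · simp [emInd, hs]
    set N := ∑ y ∈ J, emInd (F y) R
    set C := ∑ y ∈ J, ∑ o ∈ O, cw y o * emInd (F y ∪ G o) R
    have hC : 0 ≤ C := hC0 R
    by_cases h6 : N ≤ μ / 2
    · have h7 : μ ^ 2 ≤ 4 * (N - μ) ^ 2 := by nlinarith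
      have h8 : 1 ≤ (4 / μ ^ 2) * (N - μ) ^ 2 := by
        rw [div_mul_eq_mul_div, le_div_iff₀ (by positivity)]
        linarith
      have h9 : 0 ≤ (2 / μ) * C := by positivity
      linarith
    · have h8 : 1 ≤ (2 / μ) * C := by
        rw [div_mul_eq_mul_div, le_div_iff₀ hμ0]
        linarith
      have h9 : 0 ≤ (4 / μ ^ 2) * (N - μ) ^ 2 := by positivity
      linarith
  · rw [Ex_add, Ex_mul, Ex_mul]
    have h3 := ema_var hp J F
    rw [hμ] at h3
    have h4 : Ex p (fun R => ∑ y ∈ J, ∑ o ∈ O, cw y o * emInd (F y ∪ G o) R)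
        = ∑ y ∈ J, ∑ o ∈ O, cw y o * emWt p (F y ∪ G o) := by
      simp only [Ex_sum, Ex_mul, Ex_emInd]
    rw [h4]
    have h5 : (4 / μ ^ 2) * Ex p (fun R => (∑ y ∈ J, emInd (F y) R - μ) ^ 2) ≤ 4 * ε₁ := by
      calc _ ≤ (4 / μ ^ 2) * (ε₁ * μ ^ 2) := by gcongr; exact h3.trans h1
        _ = 4 * ε₁ := by field_simp
    have h6 : (2 / μ) * ∑ y ∈ J, ∑ o ∈ O, cw y o * emWt p (F y ∪ G o) ≤ 2 * ε₂ := by
      calc _ ≤ (2 / μ) * (ε₂ * μ) := by gcongr
        _ = 2 * ε₂ := by field_simp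
    linarith

end Pool.Agent.P.MP_224820_co.St
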