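import Pool.Agent.P.MP_224820_co.St.EmB

/-! Placements of rooted templates: structure, number of candidates, overlap sums. -/

set_option autoImplicit false

namespace Pool.Agent.P.MP_224820_co.St

open Finset

variable {P Q V : Type} [Fintype P] [DecidableEq P] [Fintype Q] [DecidableEq Q]
  [Fintype V] [DecidableEq V]

/-- the graph realising a template -/
def emK {P Q V : Type} [DecidableEq V] (E : Finset (P × (P ⊕ Q))) (φ : Q → V) (y : P → V) :
    Finset (Sym2 V) := E.image (emE φ y)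

/-- proper placements: different free positions get different vertices, which are not roots -/
def EmOk {P Q V : Type} (φ : Q → V) (y : P → V) : Prop :=
  Function.Injective y ∧ ∀ j q, y j ≠ φ q

/-- some position carries two root edges -/
def EmTwo {P Q : Type} (B : Finset (P × (P ⊕ Q))) : Prop :=
  ∃ a q q', q ≠ q' ∧ (a, Sum.inr q) ∈ B ∧ (a, Sum.inr q') ∈ B

/-- the root neighbours of one position are different vertices -/
def EmInj {P Q V : Type} (E : Finset (P × (P ⊕ Q))) (φ : Q → V) : Prop :=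
  ∀ a q q', (a, Sum.inr q) ∈ E → (a, Sum.inr q') ∈ E → φ q = φ q' → q = q'

/-- every position has degree at most `Δ` and there are at most `Δ` root edges -/
def EmDeg (E : Finset (P × (P ⊕ Q))) (Δ : ℕ) : Prop :=
  (∀ j, (E.filter fun e => e.1 = j ∨ e.2 = Sum.inl j).card ≤ Δ) ∧
    (E.filter fun e => e.2.isRight).card ≤ Δ

/-- weight of an overlap pattern -/
noncomputable def emW (n ρ Δ M : ℝ) (B : Finset (P × (P ⊕ Q))) : ℝ :=
  Δ ^ (B.image Prod.fst).card * M ^ (emZ B \ B.image Prod.fst).card / (n ^ (emZ B).card * ρ ^ B.card)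

/-- the vertices used by a placement -/
def emV (φ : Q → V) (y : P → V) : Finset V := univ.image y ∪ univ.image φ

omit [Fintype V] [DecidableEq P] [DecidableEq Q] in
theorem emV_card (φ : Q → V) (y : P → V) : (emV φ y).card ≤ Fintype.card P + Fintype.card Q :=
  (card_union_le _ _).trans (Nat.add_le_add (card_image_le.trans (by simp)) (card_image_le.trans (by simp)))

omit [Fintype V] [DecidableEq P] [DecidableEq Q] in
theorem emV_mem {E : Finset (P × (P ⊕ Q))} {φ : Q → V} {y : P → V} (u v : V)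
    (h : s(u, v) ∈ emK E φ y) : u ∈ emV φ y := by
  obtain ⟨e, -, he⟩ := mem_image.1 h
  have h1 : u ∈ emE φ y e := by rw [he]; exact Sym2.mem_mk_left _ _
  rw [emE, Sym2.mem_iff] at h1
  unfold emV
  rcases h1 with h1 | h1
  · simp [h1]
  · rcases h2 : e.2 with j | q <;> rw [h2] at h1 <;> simp [h1]

omit [Fintype P] [Fintype Q] [Fintype V] [DecidableEq P] [DecidableEq Q] [DecidableEq V] in
theorem emOk_inl {φ : Q → V} {y : P → V} (h : EmOk φ y) {j : P} {b : P ⊕ Q}
    (hb : y j = Sum.elim y φ b) : b = Sum.inl j := by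
  cases b with
  | inl j' => rw [h.1 hb]
  | inr q => exact absurd hb (h.2 j q)

omit [Fintype P] [Fintype Q] [Fintype V] [DecidableEq P] [DecidableEq Q] [DecidableEq V] in
theorem emE_injOn {rk : P → ℕ} {E : Finset (P × (P ⊕ Q))} (hE : EmOrd rk E) {φ : Q → V}
    (hφ : EmInj E φ) {y : P → V} (h : EmOk φ y) : Set.InjOn (emE φ y) E := by
  rintro ⟨a, b⟩ he ⟨a', b'⟩ he' hh
  rw [mem_coe] at he he'
  simp only [emE, Sym2.eq_iff] at hh
  rcases hh with ⟨h1, h2⟩ | ⟨h1, h2⟩
  · obtain rfl := h.1 h1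
    cases b with
    | inl j => rw [emOk_inl h h2]
    | inr q =>
      cases b' with
      | inl j' => exact absurd h2.symm (h.2 j' q)
      | inr q' => rw [hφ a q q' he he' h2]
  · have h3 := hE _ he' _ (emOk_inl h h1)
    have h4 := hE _ he _ (emOk_inl h h2.symm)
    simp only at h3 h4
    omega

omit [Fintype P] [Fintype Q] [Fintype V] [DecidableEq P] [DecidableEq Q] in
theorem emK_card {rk : P → ℕ} {E : Finset (P × (P ⊕ Q))} (hE : EmOrd rk E) {φ : Q → V}
    (hφ : EmInj E φ) {y : P → V} (h : EmOk φ y) : (emK E φ y).card = E.card :=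
  card_image_of_injOn (emE_injOn hE hφ h)

omit [Fintype P] [Fintype Q] [Fintype V] [DecidableEq P] [DecidableEq Q] in
theorem emK_noLoop {rk : P → ℕ} {E : Finset (P × (P ⊕ Q))} (hE : EmOrd rk E) {φ : Q → V}
    {y : P → V} (h : EmOk φ y) : NoLoop (emK E φ y) := by
  intro x hx hd
  obtain ⟨e, he, rfl⟩ := mem_image.1 hx
  rw [emE, Sym2.mk_isDiag_iff] at hd
  have := hE e he _ (emOk_inl h hd)
  omega

omit [Fintype P] [Fintype Q] in
theorem emK_deg {E : Finset (P × (P ⊕ Q))} {Δ : ℕ} (hE : EmDeg E Δ) {φ : Q → V}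
    {y : P → V} (h : EmOk φ y) (v : V) : (nb (emK E φ y) v).card ≤ Δ := by
  rw [card_nb_eq, emK, filter_image]
  refine card_image_le.trans ?_
  by_cases hv : ∃ j, y j = v
  · obtain ⟨j, rfl⟩ := hv
    refine le_trans (card_le_card fun e he => ?_) (hE.1 j)
    rw [mem_filter] at he ⊢
    refine ⟨he.1, ?_⟩
    have h1 := he.2
    rw [emE, Sym2.mem_iff] at h1
    rcases h1 with h1 | h1
    · exact Or.inl (h.1 h1).symm
    · exact Or.inr (emOk_inl h h1)
  · refine le_trans (card_le_card fun e he => ?_) hE.2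
    rw [mem_filter] at he ⊢
    refine ⟨he.1, ?_⟩
    have h1 := he.2
    rw [emE, Sym2.mem_iff] at h1
    rcases h1 with h1 | h1
    · exact absurd ⟨_, h1.symm⟩ hv
    · rcases h2 : e.2 with j | q
      · rw [h2] at h1
        exact absurd ⟨j, h1.symm⟩ hv
      · rfl

open Classical in
/-- the candidates: proper placements avoiding the forbidden graph `U` -/
noncomputable def emJ (E : Finset (P × (P ⊕ Q))) (φ : Q → V) (U : Finset (Sym2 V)) : Finset (P → V) :=
  univ.filter fun y => EmOk φ y ∧ Disjoint (emK E φ y) U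

omit [DecidableEq Q] [Fintype Q] in
theorem mem_emJ {E : Finset (P × (P ⊕ Q))} {φ : Q → V} {U : Finset (Sym2 V)} {y : P → V} :
    y ∈ emJ E φ U ↔ EmOk φ y ∧ Disjoint (emK E φ y) U := by
  simp [emJ]

omit [DecidableEq Q] [Fintype Q] in
theorem emJ_card_le (E : Finset (P × (P ⊕ Q))) (φ : Q → V) (U : Finset (Sym2 V)) :
    (emJ E φ U).card ≤ Fintype.card V ^ Fintype.card P :=
  (card_le_univ _).trans (by simp)

theorem emJ_card_ge {rk : P → ℕ} {E : Finset (P × (P ⊕ Q))} (hE : EmOrd rk E) (φ : Q → V)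
    {U : Finset (Sym2 V)} {D : ℕ} (hU : ∀ v, (nb U v).card ≤ D) (h0 : 0 < Fintype.card V)
    (hn : 2 * (Fintype.card P * (Fintype.card P + Fintype.card Q) + E.card * D) ≤ Fintype.card V) :
    Fintype.card V ^ Fintype.card P ≤ 2 * (emJ E φ U).card := by
  classical
  set n := Fintype.card V
  set N := n ^ Fintype.card P with hN
  have hcard : (univ : Finset (P → V)).card = N := by simp [hN, n]
  set A : P × (P ⊕ Q) → Finset (P → V) := fun z =>
    univ.filter fun y => z.2 ≠ Sum.inl z.1 ∧ y z.1 = Sum.elim y φ z.2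
  set B : P × (P ⊕ Q) → Finset (P → V) := fun e => univ.filter fun y => emE φ y e ∈ U
  have hA : ∀ z, (A z).card * n ≤ N * 1 := by
    intro z
    rw [← hcard]
    refine emb_step univ z.1 (fun _ _ _ => mem_univ _) _ fun y => ?_
    refine card_le_one.2 fun v hv w hw => ?_
    obtain ⟨h1, h2⟩ := (mem_filter.1 hv).2
    obtain ⟨-, h3⟩ := (mem_filter.1 hw).2
    rw [emb_elim_update h1, Function.update_self] at h2 h3
    rw [h2, h3]
  have hB : ∀ e ∈ E, (B e).card * n ≤ N * D := by
    intro e he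
    rw [← hcard]
    refine emb_step univ e.1 (fun _ _ _ => mem_univ _) _ fun y => ?_
    refine le_trans (card_le_card fun v hv => ?_) (hU (Sum.elim y φ e.2))
    have h1 := (mem_filter.1 hv).2
    have h4 : e.2 ≠ Sum.inl e.1 := fun h => by
      have := hE e he _ h
      omega
    rw [emE, emb_elim_update h4, Function.update_self, Sym2.eq_swap] at h1
    exact mem_nb.2 h1
  have hsub : (univ : Finset (P → V)) ⊆ emJ E φ U ∪ (univ.biUnion A ∪ E.biUnion B) := by
    intro y _
    by_contra hy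
    simp only [mem_union, mem_biUnion, not_or, not_exists, not_and, mem_univ, true_and, A, B,
      mem_filter] at hy
    obtain ⟨h1, h2, h3⟩ := hy
    refine h1 (mem_emJ.2 ⟨⟨fun j j' h => ?_, fun j q h => h2 (j, Sum.inr q) (by simp) h⟩, ?_⟩)
    · by_contra hne
      exact h2 (j, Sum.inl j') (by simpa using fun h' => hne h'.symm) h
    · rw [disjoint_left]
      intro x hx
      obtain ⟨e, he, rfl⟩ := mem_image.1 hx
      exact h3 e he
  have h1 : N ≤ (emJ E φ U).card + (∑ z, (A z).card + ∑ e ∈ E, (B e).card) := by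
    rw [← hcard]
    refine (card_le_card hsub).trans ((card_union_le _ _).trans (Nat.add_le_add_left ?_ _))
    exact (card_union_le _ _).trans (Nat.add_le_add card_biUnion_le card_biUnion_le)
  have h2 : (∑ z, (A z).card) * n ≤ Fintype.card P * (Fintype.card P + Fintype.card Q) * N := by
    rw [sum_mul]
    refine (sum_le_sum fun z _ => hA z).trans (le_of_eq ?_)
    simp
  have h3 : (∑ e ∈ E, (B e).card) * n ≤ E.card * D * N := by
    rw [sum_mul]
    refine (sum_le_sum hB).trans (le_of_eq ?_)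
    simp only [sum_const, smul_eq_mul]
    ring
  have h4 : 2 * (∑ z, (A z).card + ∑ e ∈ E, (B e).card) * n ≤ N * n := by
    calc _ = 2 * ((∑ z, (A z).card) * n + (∑ e ∈ E, (B e).card) * n) := by ring
      _ ≤ 2 * (Fintype.card P * (Fintype.card P + Fintype.card Q) * N + E.card * D * N) := by omega
      _ = 2 * (Fintype.card P * (Fintype.card P + Fintype.card Q) + E.card * D) * N := by ring
      _ ≤ n * N := Nat.mul_le_mul_right _ hn
      _ = N * n := by ring
  have h5 := Nat.le_of_mul_le_mul_right h4 h0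
  omega

omit [Fintype Q] in
theorem emW_nonneg {n ρ Δ M : ℝ} (hn : 0 ≤ n) (hρ : 0 ≤ ρ) (hΔ : 0 ≤ Δ) (hM : 0 ≤ M)
    (B : Finset (P × (P ⊕ Q))) : 0 ≤ emW n ρ Δ M B := by
  unfold emW
  positivity

/-- the overlaps of a fixed graph `K` with all placements of a template -/
theorem emb_overlap {rk : P → ℕ} {E : Finset (P × (P ⊕ Q))} (hE : EmOrd rk E) (φ : Q → V)
    (K : Finset (Sym2 V)) (W : Finset V) {Δ M : ℕ} (hΔ : ∀ v, (nb K v).card ≤ Δ)
    (hW : ∀ u v, s(u, v) ∈ K → u ∈ W) (hM : W.card ≤ M) {ρ : ℝ} (h0 : 0 < ρ) (h1 : ρ ≤ 1)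
    (hn : 0 < Fintype.card V) (J : Finset (P → V)) :
    ∑ y ∈ J.filter (fun y => ¬ Disjoint K (emK E φ y)), 1 / ρ ^ (K ∩ emK E φ y).card
      ≤ (Fintype.card V : ℝ) ^ Fintype.card P
        * ∑ B ∈ E.powerset.filter (fun B => B.Nonempty ∧ ∀ q ∈ emR B, φ q ∈ W),
          emW (Fintype.card V) ρ Δ M B := by
  set C := E.powerset.filter (fun B => B.Nonempty ∧ ∀ q ∈ emR B, φ q ∈ W)
  have h2 : ∀ y ∈ J.filter (fun y => ¬ Disjoint K (emK E φ y)), 1 / ρ ^ (K ∩ emK E φ y).card
      ≤ ∑ B ∈ C, if ∀ e ∈ B, emE φ y e ∈ K then 1 / ρ ^ B.card else 0 := by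
    intro y hy
    obtain ⟨x, hx1, hx2⟩ := not_disjoint_iff.1 (mem_filter.1 hy).2
    set B := E.filter fun e => emE φ y e ∈ K
    have hBC : B ∈ C := by
      refine mem_filter.2 ⟨mem_powerset.2 (filter_subset _ _), ?_, fun q hq => ?_⟩
      · obtain ⟨e, he, rfl⟩ := mem_image.1 hx2
        exact ⟨e, mem_filter.2 ⟨he, hx1⟩⟩
      · obtain ⟨e, he, h⟩ := (mem_filter.1 hq).2
        have h3 := (mem_filter.1 he).2
        rw [emE, h, Sym2.eq_swap] at h3
        exact hW _ _ h3
    refine le_trans ?_ (single_le_sum (f := fun B : Finset (P × (P ⊕ Q)) =>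
      if ∀ e ∈ B, emE φ y e ∈ K then 1 / ρ ^ B.card else 0) (fun B _ => ?_) hBC)
    · rw [if_pos fun e he => (mem_filter.1 he).2]
      refine one_div_le_one_div_of_le (pow_pos h0 _) (pow_le_pow_of_le_one h0.le h1 ?_)
      refine le_trans (card_le_card fun x hx => ?_) (card_image_le (f := emE φ y))
      obtain ⟨e, he, rfl⟩ := mem_image.1 (mem_inter.1 hx).2
      exact mem_image_of_mem _ (mem_filter.2 ⟨he, (mem_inter.1 hx).1⟩)
    · split_ifs <;> positivity
  refine (sum_le_sum h2).trans ?_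
  refine (sum_le_sum_of_subset_of_nonneg (subset_univ _) fun y _ _ =>
    sum_nonneg fun B _ => by split_ifs <;> positivity).trans ?_
  rw [sum_comm, mul_sum]
  refine sum_le_sum fun B hB => ?_
  have hBE : B ⊆ E := mem_powerset.1 (mem_filter.1 hB).1
  have h3 := emb_count (rk := rk) (B := B) (fun e he => hE e (hBE he)) φ K W hΔ hW hM
  have h4 : ((univ.filter fun y : P → V => ∀ e ∈ B, emE φ y e ∈ K).card : ℝ)
      * (Fintype.card V : ℝ) ^ (emZ B).card ≤ (Fintype.card V : ℝ) ^ Fintype.card P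
        * ((Δ : ℝ) ^ (B.image Prod.fst).card * (M : ℝ) ^ (emZ B \ B.image Prod.fst).card) := by
    exact_mod_cast h3
  have hn' : (0 : ℝ) < Fintype.card V := by exact_mod_cast hn
  rw [← sum_filter, sum_const, nsmul_eq_mul, emW, mul_one_div, ← mul_div_assoc,
    div_le_div_iff₀ (by positivity) (by positivity)]
  calc _ = ((univ.filter fun y : P → V => ∀ e ∈ B, emE φ y e ∈ K).card : ℝ)
      * (Fintype.card V : ℝ) ^ (emZ B).card * ρ ^ B.card := by ring
    _ ≤ _ := by gcongr

end Pool.Agent.P.MP_224820_co.St
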