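import Pool.Agent.P.MP_224820_co.St.EmC
import Pool.Agent.P.MP_224820_co.St.Jensen
import Pool.Agent.P.MP_224820_co.St.Chern

/-! Edge-disjoint embedding of many rooted templates in a random graph, by sprinkling. -/

set_option autoImplicit false

namespace Pool.Agent.P.MP_224820_co.St

open Finset

variable {P Q V ι : Type} [Fintype P] [DecidableEq P] [Fintype Q] [DecidableEq Q]
  [Fintype V] [DecidableEq V] [Fintype ι] [DecidableEq ι]

/-- all gadgets of `I` have proper, pairwise edge-disjoint placements inside `c` avoiding `U` -/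
def EmSel {P Q V ι : Type} [DecidableEq V] (E : ι → Finset (P × (P ⊕ Q))) (φ : ι → Q → V)
    (I : Finset ι) (U c : Finset (Sym2 V)) : Prop :=
  ∃ y : ι → P → V, (∀ i ∈ I, EmOk (φ i) (y i) ∧ emK (E i) (φ i) (y i) ⊆ c \ U) ∧
    ∀ i ∈ I, ∀ j ∈ I, i ≠ j → Disjoint (emK (E i) (φ i) (y i)) (emK (E j) (φ j) (y j))

open Classical in
/-- hypotheses of the embedding lemma -/
structure EmH (rk : P → ℕ) (E : ι → Finset (P × (P ⊕ Q))) (φ : ι → Q → V) (I : Finset ι)
    (Δ e : ℕ) (N₀ N₁ N₂ ρ μ S₀ S₁ S₂ : ℝ) : Prop where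
  ord : ∀ i ∈ I, EmOrd rk (E i)
  inj : ∀ i ∈ I, EmInj (E i) (φ i)
  deg : ∀ i ∈ I, EmDeg (E i) Δ
  size : ∀ i ∈ I, (E i).card ≤ e
  n0 : (I.card : ℝ) ≤ N₀
  n1 : ∀ v, (cnt I (fun i => ∃ q ∈ emR (E i), φ i q = v) : ℝ) ≤ N₁
  n2 : ∀ v w, v ≠ w → (cnt I (fun i => ∃ a q q', (a, Sum.inr q) ∈ E i ∧ (a, Sum.inr q') ∈ E i ∧
    φ i q = v ∧ φ i q' = w) : ℝ) ≤ N₂
  s0 : ∀ i ∈ I, ∑ B ∈ (E i).powerset.filter (fun B => B.Nonempty ∧ emR B = ∅),
    emW (Fintype.card V) ρ Δ (Fintype.card P + Fintype.card Q : ℕ) B ≤ S₀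
  s1 : ∀ i ∈ I, ∑ B ∈ (E i).powerset.filter (fun B => B.Nonempty ∧ ¬ EmTwo B),
    emW (Fintype.card V) ρ Δ (Fintype.card P + Fintype.card Q : ℕ) B ≤ S₁
  s2 : ∀ i ∈ I, ∑ B ∈ (E i).powerset.filter (fun B => B.Nonempty),
    emW (Fintype.card V) ρ Δ (Fintype.card P + Fintype.card Q : ℕ) B ≤ S₂
  mu : ∀ i ∈ I, 2 * μ ≤ (Fintype.card V : ℝ) ^ Fintype.card P * ρ ^ (E i).card
  pos : 0 < ρ ∧ ρ ≤ 1 ∧ 0 < μ ∧ 0 < Fintype.card V
  nn : 0 ≤ N₁ ∧ 0 ≤ N₂ ∧ 0 ≤ S₀ ∧ 0 ≤ S₁ ∧ 0 ≤ S₂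

variable {rk : P → ℕ} {E : ι → Finset (P × (P ⊕ Q))} {φ : ι → Q → V} {I : Finset ι}
  {Δ e : ℕ} {N₀ N₁ N₂ ρ μ S₀ S₁ S₂ : ℝ}

omit [DecidableEq V] [Fintype ι] [DecidableEq ι] in
theorem EmH.mono (h : EmH rk E φ I Δ e N₀ N₁ N₂ ρ μ S₀ S₁ S₂) {I' : Finset ι} (hI : I' ⊆ I) :
    EmH rk E φ I' Δ e N₀ N₁ N₂ ρ μ S₀ S₁ S₂ where
  ord i hi := h.ord i (hI hi)
  inj i hi := h.inj i (hI hi)
  deg i hi := h.deg i (hI hi)
  size i hi := h.size i (hI hi)
  n0 := le_trans (by exact_mod_cast card_le_card hI) h.n0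
  n1 v := le_trans (by exact_mod_cast cnt_mono fun i hi hp => ⟨hI hi, hp⟩) (h.n1 v)
  n2 v w hvw := le_trans (by exact_mod_cast cnt_mono fun i hi hp => ⟨hI hi, hp⟩) (h.n2 v w hvw)
  s0 i hi := h.s0 i (hI hi)
  s1 i hi := h.s1 i (hI hi)
  s2 i hi := h.s2 i (hI hi)
  mu i hi := h.mu i (hI hi)
  pos := h.pos
  nn := h.nn

omit [Fintype ι] [DecidableEq ι] in
/-- overlap patterns whose roots lie in `W`, summed over all gadgets -/
theorem EmH.cross (h : EmH rk E φ I Δ e N₀ N₁ N₂ ρ μ S₀ S₁ S₂) (W : Finset V)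
    (hW : W.card ≤ Fintype.card P + Fintype.card Q) :
    ∑ j ∈ I, ∑ B ∈ (E j).powerset.filter (fun B => B.Nonempty ∧ ∀ q ∈ emR B, φ j q ∈ W),
        emW (Fintype.card V) ρ Δ (Fintype.card P + Fintype.card Q : ℕ) B
      ≤ N₀ * S₀ + (Fintype.card P + Fintype.card Q : ℕ) * N₁ * S₁
        + ((Fintype.card P + Fintype.card Q : ℕ) : ℝ) ^ 2 * N₂ * S₂ := by
  classical
  obtain ⟨hN₁, hN₂, hS₀, hS₁, hS₂⟩ := h.nn
  set M : ℕ := Fintype.card P + Fintype.card Q
  set w := emW (P := P) (Q := Q) (Fintype.card V) ρ Δ (M : ℝ)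
  have hw : ∀ B, 0 ≤ w B := emW_nonneg (by positivity) h.pos.1.le (by positivity) (by positivity)
  set A₁ : V → ι → Prop := fun v i => ∃ q ∈ emR (E i), φ i q = v
  set A₂ : V → V → ι → Prop := fun v v' i => ∃ a q q', (a, Sum.inr q) ∈ E i ∧
    (a, Sum.inr q') ∈ E i ∧ φ i q = v ∧ φ i q' = v'
  have h1 : ∀ j ∈ I, ∑ B ∈ (E j).powerset.filter (fun B => B.Nonempty ∧ ∀ q ∈ emR B, φ j q ∈ W), w B
      ≤ S₀ + (∑ v ∈ W, if A₁ v j then 1 else 0) * S₁
        + (∑ z ∈ W.offDiag, if A₂ z.1 z.2 j then 1 else 0) * S₂ := by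
    intro j hj
    set c₁ : ℝ := ∑ v ∈ W, if A₁ v j then 1 else 0
    set c₂ : ℝ := ∑ z ∈ W.offDiag, if A₂ z.1 z.2 j then 1 else 0
    have hc₁ : 0 ≤ c₁ := sum_nonneg fun _ _ => by split_ifs <;> norm_num
    have hc₂ : 0 ≤ c₂ := sum_nonneg fun _ _ => by split_ifs <;> norm_num
    refine le_trans ?_ (add_le_add (add_le_add (h.s0 j hj)
      (mul_le_mul_of_nonneg_left (h.s1 j hj) hc₁)) (mul_le_mul_of_nonneg_left (h.s2 j hj) hc₂))
    simp only [sum_filter, mul_sum, ← sum_add_distrib]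
    refine sum_le_sum fun B hB => ?_
    have hBE : B ⊆ E j := mem_powerset.1 hB
    have hwB := hw B
    have t0 : 0 ≤ (if B.Nonempty ∧ emR B = ∅ then w B else 0) := by split_ifs <;> simp [hwB]
    have t1 : 0 ≤ c₁ * (if B.Nonempty ∧ ¬ EmTwo B then w B else 0) :=
      mul_nonneg hc₁ (by split_ifs <;> simp [hwB])
    have t2 : 0 ≤ c₂ * (if B.Nonempty then w B else 0) :=
      mul_nonneg hc₂ (by split_ifs <;> simp [hwB])
    by_cases hc : B.Nonempty ∧ ∀ q ∈ emR B, φ j q ∈ W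
    · rw [if_pos hc]
      by_cases h0 : emR B = ∅
      · rw [if_pos ⟨hc.1, h0⟩]
        linarith
      · by_cases h2 : EmTwo B
        · obtain ⟨a, q, q', hq, h3, h4⟩ := h2
          have m3 : φ j q ∈ W := hc.2 q (mem_filter.2 ⟨mem_univ _, _, h3, rfl⟩)
          have m4 : φ j q' ∈ W := hc.2 q' (mem_filter.2 ⟨mem_univ _, _, h4, rfl⟩)
          have m5 : φ j q ≠ φ j q' := fun hh => hq (h.inj j hj a q q' (hBE h3) (hBE h4) hh)
          have h5 : 1 ≤ c₂ := by
            refine le_trans ?_ (single_le_sum (f := fun z : V × V => if A₂ z.1 z.2 j then (1 : ℝ) else 0)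
              (fun _ _ => by split_ifs <;> norm_num) (mem_offDiag.2 ⟨m3, m4, m5⟩ : (φ j q, φ j q') ∈ _))
            rw [if_pos ⟨a, q, q', hBE h3, hBE h4, rfl, rfl⟩]
          rw [if_pos hc.1] at t2 ⊢
          nlinarith
        · obtain ⟨q, hq⟩ := nonempty_iff_ne_empty.2 h0
          have h5 : 1 ≤ c₁ := by
            refine le_trans ?_ (single_le_sum (f := fun v : V => if A₁ v j then (1 : ℝ) else 0)
              (fun _ _ => by split_ifs <;> norm_num) (hc.2 q hq))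
            obtain ⟨e', he', h6⟩ := (mem_filter.1 hq).2
            rw [if_pos ⟨q, mem_filter.2 ⟨mem_univ _, e', hBE he', h6⟩, rfl⟩]
          rw [if_pos (⟨hc.1, h2⟩ : B.Nonempty ∧ ¬ EmTwo B)] at t1 ⊢
          nlinarith
    · rw [if_neg hc]
      linarith
  refine (sum_le_sum h1).trans ?_
  rw [sum_add_distrib, sum_add_distrib, ← sum_mul, ← sum_mul, sum_const, nsmul_eq_mul,
    sum_comm, sum_comm (s := I)]
  have hM : (W.card : ℝ) ≤ M := by exact_mod_cast hW
  have h2 : ∑ v ∈ W, ∑ j ∈ I, (if A₁ v j then (1 : ℝ) else 0) ≤ M * N₁ := by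
    calc _ ≤ ∑ _v ∈ W, N₁ := sum_le_sum fun v _ => by
            have := h.n1 v
            rw [cnt_eq] at this
            rw [sum_boole]
            exact this
      _ = W.card * N₁ := by simp
      _ ≤ _ := by gcongr
  have h3 : ∑ z ∈ W.offDiag, ∑ j ∈ I, (if A₂ z.1 z.2 j then (1 : ℝ) else 0) ≤ (M : ℝ) ^ 2 * N₂ := by
    calc _ ≤ ∑ _z ∈ W.offDiag, N₂ := sum_le_sum fun z hz => by
            have := h.n2 z.1 z.2 (mem_offDiag.1 hz).2.2
            rw [cnt_eq] at this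
            rw [sum_boole]
            exact this
      _ = W.offDiag.card * N₂ := by simp
      _ ≤ _ := by
            gcongr
            have h4 : W.offDiag.card ≤ W.card ^ 2 := by rw [offDiag_card, sq]; omega
            calc (W.offDiag.card : ℝ) ≤ (W.card : ℝ) ^ 2 := by exact_mod_cast h4
              _ ≤ _ := by gcongr
  have h4 := h.n0
  gcongr

/-- the coordinates needed by a candidate: its edges and its private mark -/
def emF (E : ι → Finset (P × (P ⊕ Q))) (φ : ι → Q → V) (z : ι × (P → V)) :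
    Finset (Sym2 V ⊕ (ι × (P → V))) := (emK (E z.1) (φ z.1) z.2).disjSum {z}

omit [DecidableEq P] [Fintype Q] [DecidableEq Q] [Fintype V] [Fintype ι] in
theorem emF_wt2 (q : ι → ℝ) (h0 : 0 < ρ) {z z' : ι × (P → V)} (hz : z ≠ z') :
    emWt (Sum.elim (fun _ => ρ) fun z => q z.1) (emF E φ z ∪ emF E φ z')
      = (ρ ^ (emK (E z.1) (φ z.1) z.2).card * q z.1) * (ρ ^ (emK (E z'.1) (φ z'.1) z'.2).card * q z'.1)
        * (1 / ρ ^ (emK (E z.1) (φ z.1) z.2 ∩ emK (E z'.1) (φ z'.1) z'.2).card) := by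
  have h1 : emF E φ z ∪ emF E φ z'
      = (emK (E z.1) (φ z.1) z.2 ∪ emK (E z'.1) (φ z'.1) z'.2).disjSum {z, z'} := by
    ext x
    cases x <;> simp [emF]
  rw [h1, emWt, prod_disjSum, prod_pair hz]
  simp only [Sum.elim_inl, Sum.elim_inr, prod_const]
  have h2 := card_union_add_card_inter (emK (E z.1) (φ z.1) z.2) (emK (E z'.1) (φ z'.1) z'.2)
  have h3 : ρ ^ (emK (E z.1) (φ z.1) z.2).card * ρ ^ (emK (E z'.1) (φ z'.1) z'.2).card
      = ρ ^ (emK (E z.1) (φ z.1) z.2 ∪ emK (E z'.1) (φ z'.1) z'.2).card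
        * ρ ^ (emK (E z.1) (φ z.1) z.2 ∩ emK (E z'.1) (φ z'.1) z'.2).card := by
    rw [← pow_add, ← pow_add, h2]
  field_simp
  linear_combination (-(q z.1 * q z'.1)) * h3

omit [Fintype P] [DecidableEq P] [Fintype Q] [DecidableEq Q] [Fintype V] [Fintype ι] [DecidableEq ι] in
theorem emF_wt1 (q : ι → ℝ) (z : ι × (P → V)) :
    emWt (Sum.elim (fun _ => ρ) fun z => q z.1) (emF E φ z)
      = ρ ^ (emK (E z.1) (φ z.1) z.2).card * q z.1 := by
  rw [emF, emWt, prod_disjSum]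
  simp

open Classical in
/-- failure probability of one gadget in one round -/
theorem EmH.one (h : EmH rk E φ I Δ e N₀ N₁ N₂ ρ μ S₀ S₁ S₂) {U : Finset (Sym2 V)} {D : ℕ}
    (hU : ∀ v, (nb U v).card ≤ D)
    (hn : 2 * (Fintype.card P * (Fintype.card P + Fintype.card Q) + e * D) ≤ Fintype.card V)
    {i : ι} (hi : i ∈ I) :
    Pr (Sum.elim (fun _ => ρ)
        fun z : ι × (P → V) => if z.1 ∈ I then
          2 * μ / ((Fintype.card V : ℝ) ^ Fintype.card P * ρ ^ (E z.1).card) else 0)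
      (fun R => ¬ ∃ y ∈ emJ (E i) (φ i) U, emF E φ (i, y) ⊆ R ∧
        ∑ o ∈ univ.filter (fun o : ι × (P → V) => o.1 ∈ I.erase i ∧ o.2 ∈ emJ (E o.1) (φ o.1) U),
          (if Disjoint (emK (E i) (φ i) y) (emK (E o.1) (φ o.1) o.2) then 0 else 1)
            * emInd (emF E φ o) R < 1)
      ≤ 4 * (1 / μ + 2 * S₂) + 2 * (2 * μ * (N₀ * S₀ + (Fintype.card P + Fintype.card Q : ℕ) * N₁ * S₁
        + ((Fintype.card P + Fintype.card Q : ℕ) : ℝ) ^ 2 * N₂ * S₂)) := by
  obtain ⟨hρ, hρ1, hμ, hV⟩ := h.pos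
  obtain ⟨hN₁, hN₂, hS₀, hS₁, hS₂⟩ := h.nn
  set N : ℝ := (Fintype.card V : ℝ) ^ Fintype.card P with hN
  have hN0 : 0 < N := by positivity
  set q : ι → ℝ := fun j => if j ∈ I then 2 * μ / (N * ρ ^ (E j).card) else 0 with hq
  have hp : IsP (Sum.elim (fun _ : Sym2 V => ρ) fun z : ι × (P → V) => q z.1) := by
    rintro (a | z)
    · exact ⟨hρ.le, hρ1⟩
    · simp only [Sum.elim_inr, hq]
      split_ifs with hz
      · exact ⟨by positivity, (div_le_one (by positivity)).2 (h.mu _ hz)⟩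
      · exact ⟨le_rfl, zero_le_one⟩
  have hwt : ∀ j ∈ I, ∀ y ∈ emJ (E j) (φ j) U, ρ ^ (emK (E j) (φ j) y).card * q j = 2 * μ / N := by
    intro j hj y hy
    rw [emK_card (h.ord j hj) (h.inj j hj) (mem_emJ.1 hy).1, hq]
    simp only [if_pos hj]
    field_simp
  set J := emJ (E i) (φ i) U
  set m : ℝ := J.card * (2 * μ / N) with hm
  have hJ : N ≤ 2 * J.card := by
    have h1 := emJ_card_ge (h.ord i hi) (φ i) hU hV (le_trans (by have := h.size i hi; gcongr) hn)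
    rw [hN]
    exact_mod_cast h1
  have hm1 : μ ≤ m := by
    rw [hm, ← mul_div_assoc, le_div_iff₀ hN0]
    nlinarith
  have hov : ∀ y ∈ J, ∀ j ∈ I, ∑ y' ∈ (emJ (E j) (φ j) U).filter
      (fun y' => ¬ Disjoint (emK (E i) (φ i) y) (emK (E j) (φ j) y')),
        1 / ρ ^ (emK (E i) (φ i) y ∩ emK (E j) (φ j) y').card
      ≤ N * ∑ B ∈ (E j).powerset.filter (fun B => B.Nonempty ∧ ∀ q ∈ emR B, φ j q ∈ emV (φ i) y),
          emW (Fintype.card V) ρ Δ (Fintype.card P + Fintype.card Q : ℕ) B := fun y hy j hj =>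
    emb_overlap (h.ord j hj) (φ j) _ _ (emK_deg (h.deg i hi) (mem_emJ.1 hy).1) emV_mem
      (emV_card _ _) hρ hρ1 hV _
  refine ema_one hp J (fun y => emF E φ (i, y)) _ (emF E φ) _
    (fun y o => by split_ifs <;> norm_num) (μ := m) ?_ (hμ.trans_le hm1) ?_ ?_
  · rw [hm, ← nsmul_eq_mul, ← sum_const]
    exact sum_congr rfl fun y hy => by rw [emF_wt1, hwt i hi y hy]
  · have h1 : ∀ y ∈ J, ∑ y' ∈ J.filter (fun y' => ¬ Disjoint (emF E φ (i, y)) (emF E φ (i, y'))),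
        emWt (Sum.elim (fun _ : Sym2 V => ρ) fun z : ι × (P → V) => q z.1)
          (emF E φ (i, y) ∪ emF E φ (i, y')) ≤ 2 * μ / N * (1 + 2 * μ * S₂) := by
      intro y hy
      have h2 : J.filter (fun y' => ¬ Disjoint (emF E φ (i, y)) (emF E φ (i, y')))
          ⊆ insert y ((J.filter fun y' => ¬ Disjoint (emK (E i) (φ i) y) (emK (E i) (φ i) y')).erase y) := by
        intro y' hy'
        by_cases hh : y' = y
        · simp [hh]
        · refine mem_insert_of_mem (mem_erase.2 ⟨hh, mem_filter.2 ⟨(mem_filter.1 hy').1, fun hd => ?_⟩⟩)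
          refine (mem_filter.1 hy').2 (disjoint_left.2 ?_)
          rintro (x | x) hx hx'
          · exact disjoint_left.1 hd (by simpa [emF] using hx) (by simpa [emF] using hx')
          · simp only [emF, inr_mem_disjSum, mem_singleton] at hx hx'
            exact hh (Prod.ext_iff.1 (hx'.symm.trans hx)).2
      refine (sum_le_sum_of_subset_of_nonneg h2 fun _ _ _ => emWt_nonneg hp _).trans ?_
      rw [sum_insert (notMem_erase _ _), union_self, emF_wt1, hwt i hi y hy, mul_add, mul_one]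
      refine add_le_add le_rfl ?_
      calc _ = ∑ y' ∈ (J.filter fun y' => ¬ Disjoint (emK (E i) (φ i) y) (emK (E i) (φ i) y')).erase y,
              (2 * μ / N) * (2 * μ / N) * (1 / ρ ^ (emK (E i) (φ i) y ∩ emK (E i) (φ i) y').card) := by
            refine sum_congr rfl fun y' hy' => ?_
            rw [emF_wt2 q hρ (fun hh => (mem_erase.1 hy').1 (Prod.ext_iff.1 hh).2.symm),
              hwt i hi y hy, hwt i hi y' (mem_filter.1 (mem_erase.1 hy').2).1]
        _ ≤ ∑ y' ∈ (J.filter fun y' => ¬ Disjoint (emK (E i) (φ i) y) (emK (E i) (φ i) y')),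
              (2 * μ / N) * (2 * μ / N) * (1 / ρ ^ (emK (E i) (φ i) y ∩ emK (E i) (φ i) y').card) :=
            sum_le_sum_of_subset_of_nonneg (erase_subset _ _) fun _ _ _ => by positivity
        _ ≤ (2 * μ / N) * (2 * μ / N) * (N * S₂) := by
            rw [← mul_sum]
            refine mul_le_mul_of_nonneg_left ((hov y hy i hi).trans ?_) (by positivity)
            refine mul_le_mul_of_nonneg_left (le_trans ?_ (h.s2 i hi)) hN0.le
            exact sum_le_sum_of_subset_of_nonneg (monotone_filter_right _ fun B _ hB => hB.1)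
              fun _ _ _ => emW_nonneg (by positivity) hρ.le (by positivity) (by positivity) _
        _ = _ := by field_simp
    refine (sum_le_sum h1).trans ?_
    rw [sum_const, nsmul_eq_mul, ← mul_assoc, ← hm]
    have h3 : 1 ≤ 1 / μ * m := by
      rw [div_mul_eq_mul_div, one_mul, le_div_iff₀ hμ]
      linarith
    have hm0 : 0 < m := hμ.trans_le hm1
    have h4 : 1 + 2 * μ * S₂ ≤ (1 / μ + 2 * S₂) * m := by nlinarith
    calc m * (1 + 2 * μ * S₂) ≤ m * ((1 / μ + 2 * S₂) * m) := by gcongr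
      _ = _ := by ring
  · rw [hm, mul_comm _ (_ * _), mul_assoc, ← nsmul_eq_mul, ← sum_const]
    refine sum_le_sum fun y hy => ?_
    have h1 := h.cross (emV (φ i) y) (emV_card _ _)
    calc _ = ∑ j ∈ I.erase i, ∑ y' ∈ emJ (E j) (φ j) U,
            (if Disjoint (emK (E i) (φ i) y) (emK (E j) (φ j) y') then 0 else 1)
              * emWt (Sum.elim (fun _ : Sym2 V => ρ) fun z : ι × (P → V) => q z.1)
                (emF E φ (i, y) ∪ emF E φ (j, y')) := by
          rw [sum_finset_product _ (I.erase i) (fun j => emJ (E j) (φ j) U) (by simp)]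
      _ ≤ ∑ j ∈ I.erase i, (2 * μ / N) * (2 * μ / N) * (N * ∑ B ∈ (E j).powerset.filter
            (fun B => B.Nonempty ∧ ∀ q ∈ emR B, φ j q ∈ emV (φ i) y),
              emW (Fintype.card V) ρ Δ (Fintype.card P + Fintype.card Q : ℕ) B) := by
          refine sum_le_sum fun j hj => ?_
          have hjI := (mem_erase.1 hj).2
          refine le_trans (le_of_eq ?_) (mul_le_mul_of_nonneg_left (hov y hy j hjI) (by positivity))
          rw [mul_sum, sum_filter]
          refine sum_congr rfl fun y' hy' => ?_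
          rw [emF_wt2 q hρ (fun hh => (mem_erase.1 hj).1 (Prod.ext_iff.1 hh).1.symm),
            hwt i hi y hy, hwt j hjI y' hy']
          split_ifs <;> simp
      _ ≤ ∑ j ∈ I, (2 * μ / N) * (2 * μ / N) * (N * ∑ B ∈ (E j).powerset.filter
            (fun B => B.Nonempty ∧ ∀ q ∈ emR B, φ j q ∈ emV (φ i) y),
              emW (Fintype.card V) ρ Δ (Fintype.card P + Fintype.card Q : ℕ) B) :=
          sum_le_sum_of_subset_of_nonneg (erase_subset _ _) fun _ _ _ => mul_nonneg (by positivity)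
            (mul_nonneg hN0.le (sum_nonneg fun _ _ =>
              emW_nonneg (by positivity) hρ.le (by positivity) (by positivity) _))
      _ ≤ (2 * μ / N) * (2 * μ / N) * (N * (N₀ * S₀ + (Fintype.card P + Fintype.card Q : ℕ) * N₁ * S₁
            + ((Fintype.card P + Fintype.card Q : ℕ) : ℝ) ^ 2 * N₂ * S₂)) := by
          rw [← mul_sum, ← mul_sum]
          gcongr
      _ = _ := by field_simp

/-- the failure probability of a gadget in one round -/
noncomputable def emDel (M N₀ N₁ N₂ μ S₀ S₁ S₂ : ℝ) : ℝ :=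
  4 * (1 / μ + 2 * S₂) + 2 * (2 * μ * (N₀ * S₀ + M * N₁ * S₁ + M ^ 2 * N₂ * S₂))

/-- one round: most gadgets are placed -/
theorem EmH.round (h : EmH rk E φ I Δ e N₀ N₁ N₂ ρ μ S₀ S₁ S₂) {U : Finset (Sym2 V)} {D : ℕ}
    (hU : ∀ v, (nb U v).card ≤ D)
    (hn : 2 * (Fintype.card P * (Fintype.card P + Fintype.card Q) + e * D) ≤ Fintype.card V) :
    ∃ G : Finset (Sym2 V) → Finset ι, (∀ c, G c ⊆ I ∧ EmSel E φ (G c) U c) ∧
      Ex (fun _ => ρ) (fun c => ((I \ G c).card : ℝ))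
        ≤ I.card * emDel (Fintype.card P + Fintype.card Q : ℕ) N₀ N₁ N₂ μ S₀ S₁ S₂ := by
  classical
  obtain ⟨hρ, hρ1, hμ, hV⟩ := h.pos
  set q : ι × (P → V) → ℝ := fun z => if z.1 ∈ I then
    2 * μ / ((Fintype.card V : ℝ) ^ Fintype.card P * ρ ^ (E z.1).card) else 0 with hq
  have hqP : IsP q := by
    intro z
    simp only [hq]
    split_ifs with hz
    · exact ⟨by positivity, (div_le_one (by positivity)).2 (h.mu _ hz)⟩
    · exact ⟨le_rfl, zero_le_one⟩
  set Good : ι → Finset (Sym2 V ⊕ (ι × (P → V))) → Prop := fun i R =>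
    ∃ y ∈ emJ (E i) (φ i) U, emF E φ (i, y) ⊆ R ∧
      ∑ o ∈ univ.filter (fun o : ι × (P → V) => o.1 ∈ I.erase i ∧ o.2 ∈ emJ (E o.1) (φ o.1) U),
        (if Disjoint (emK (E i) (φ i) y) (emK (E o.1) (φ o.1) o.2) then 0 else 1)
          * emInd (emF E φ o) R < 1 with hGood
  have h1 : Ex (Sum.elim (fun _ => ρ) q) (fun R => ((I.filter fun i => ¬ Good i R).card : ℝ))
      ≤ I.card * emDel (Fintype.card P + Fintype.card Q : ℕ) N₀ N₁ N₂ μ S₀ S₁ S₂ := by
    rw [Ex_congr (g := fun R => ∑ i ∈ I, if ¬ Good i R then (1 : ℝ) else 0)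
      (fun R => by rw [sum_boole]), Ex_sum, ← nsmul_eq_mul, ← sum_const]
    refine sum_le_sum fun i hi => ?_
    rw [← Pr_eq]
    exact h.one hU hn hi
  rw [Ex_disjSum, Ex_comm] at h1
  obtain ⟨T, hT⟩ := exists_le_Ex hqP (fun T => Ex (fun _ : Sym2 V => ρ)
    fun c => ((I.filter fun i => ¬ Good i (c.disjSum T)).card : ℝ))
  refine ⟨fun c => I.filter fun i => Good i (c.disjSum T), fun c => ⟨filter_subset _ _, ?_⟩, ?_⟩
  · have hV' : Nonempty V := Fintype.card_pos_iff.1 hV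
    have h2 : ∀ i, ∃ y : P → V, Good i (c.disjSum T) → y ∈ emJ (E i) (φ i) U ∧
        emF E φ (i, y) ⊆ c.disjSum T ∧
        ∑ o ∈ univ.filter (fun o : ι × (P → V) => o.1 ∈ I.erase i ∧ o.2 ∈ emJ (E o.1) (φ o.1) U),
          (if Disjoint (emK (E i) (φ i) y) (emK (E o.1) (φ o.1) o.2) then 0 else 1)
            * emInd (emF E φ o) (c.disjSum T) < 1 := by
      intro i
      by_cases hg : Good i (c.disjSum T)
      · obtain ⟨y, hy⟩ := hg
        exact ⟨y, fun _ => hy⟩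
      · exact ⟨Classical.arbitrary _, fun hh => absurd hh hg⟩
    choose y hy using h2
    refine ⟨y, fun i hi => ?_, fun i hi j hj hij => ?_⟩
    · obtain ⟨h3, h4, -⟩ := hy i (mem_filter.1 hi).2
      refine ⟨(mem_emJ.1 h3).1, fun x hx => mem_sdiff.2 ⟨?_, disjoint_left.1 (mem_emJ.1 h3).2 hx⟩⟩
      exact inl_mem_disjSum.1 (h4 (inl_mem_disjSum.2 hx))
    · obtain ⟨-, -, h3⟩ := hy i (mem_filter.1 hi).2
      obtain ⟨h4, h5, -⟩ := hy j (mem_filter.1 hj).2
      by_contra hd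
      refine absurd h3 (not_lt.2 (le_trans ?_ (single_le_sum (a := (j, y j)) (fun o _ => ?_) ?_)))
      · simp [hd, emInd, h5]
      · exact mul_nonneg (by split_ifs <;> norm_num) (emInd_nonneg _ _)
      · exact mem_filter.2 ⟨mem_univ _, mem_erase.2 ⟨hij.symm, (mem_filter.1 hj).1⟩, h4⟩
  · refine le_trans (le_of_eq (Ex_congr fun c => ?_)) (hT.trans h1)
    rw [filter_not]

omit [Fintype P] [DecidableEq P] [Fintype Q] [DecidableEq Q] [Fintype V] [Fintype ι] in
theorem EmSel.join {G : Finset ι} {U c c' : Finset (Sym2 V)} (h1 : EmSel E φ G U c)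
    (h2 : EmSel E φ (I \ G) (U ∪ c) c') : EmSel E φ I U (c ∪ c') := by
  obtain ⟨y, hy, hd⟩ := h1
  obtain ⟨y', hy', hd'⟩ := h2
  have h3 : ∀ i ∈ G, ∀ j ∈ I \ G, Disjoint (emK (E i) (φ i) (y i)) (emK (E j) (φ j) (y' j)) := by
    intro i hi j hj
    refine disjoint_left.2 fun x hx hx' => ?_
    exact (mem_sdiff.1 ((hy' j hj).2 hx')).2 (mem_union_right _ (mem_sdiff.1 ((hy i hi).2 hx)).1)
  refine ⟨fun i => if i ∈ G then y i else y' i, fun i hi => ?_, fun i hi j hj hij => ?_⟩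
  · by_cases hG : i ∈ G
    · simp only [if_pos hG]
      exact ⟨(hy i hG).1, (hy i hG).2.trans (sdiff_subset_sdiff subset_union_left Subset.rfl)⟩
    · simp only [if_neg hG]
      have h4 := hy' i (mem_sdiff.2 ⟨hi, hG⟩)
      exact ⟨h4.1, h4.2.trans (sdiff_subset_sdiff subset_union_right subset_union_left)⟩
  · by_cases hG : i ∈ G <;> by_cases hG' : j ∈ G
    · simp only [if_pos hG, if_pos hG']
      exact hd i hG j hG' hij
    · simp only [if_pos hG, if_neg hG']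
      exact h3 i hG j (mem_sdiff.2 ⟨hj, hG'⟩)
    · simp only [if_neg hG, if_pos hG']
      exact (h3 j hG' i (mem_sdiff.2 ⟨hi, hG⟩)).symm
    · simp only [if_neg hG, if_neg hG']
      exact hd' i (mem_sdiff.2 ⟨hi, hG⟩) j (mem_sdiff.2 ⟨hj, hG'⟩) hij

omit [Fintype P] [DecidableEq P] [Fintype Q] [DecidableEq Q] [Fintype V] [Fintype ι] [DecidableEq ι] in
theorem EmSel.incr (U : Finset (Sym2 V)) : Incr (EmSel E φ I U) := by
  rintro c c' hc ⟨y, hy, hd⟩
  exact ⟨y, fun i hi => ⟨(hy i hi).1, (hy i hi).2.trans (sdiff_subset_sdiff hc Subset.rfl)⟩, hd⟩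

/-- the maximum degree of a random graph -/
theorem em_deg {p : Sym2 V → ℝ} (hp : IsP p) {ρ : ℝ} (h : ∀ a, p a ≤ ρ) {D : ℕ}
    (hD : 2 * (Fintype.card V * ρ) ≤ D) :
    Pr p (fun c => ∃ v ∈ (univ : Finset V), D < (nb c v).card)
      ≤ Fintype.card V * Real.exp (-(Fintype.card V * ρ / 4)) := by
  refine (Pr_exists_le' hp _ _ fun v _ => ?_).trans (by rw [card_univ])
  refine le_trans (Pr_mono hp fun c hc => ?_) (chern_two hp (univ.image fun x => s(v, x)) ?_)
  · rw [card_inter_star, inter_univ]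
    exact hD.trans (by exact_mod_cast hc.le)
  · have h0 : 0 ≤ ρ := (hp s(v, v)).1.trans (h _)
    calc _ ≤ ∑ _a ∈ univ.image fun x => s(v, x), ρ := sum_le_sum fun a _ => h a
      _ = (univ.image fun x => s(v, x)).card * ρ := by simp
      _ ≤ _ := by
        gcongr
        exact card_image_le.trans (by simp)

/-- the embedding lemma: `r` rounds of density `ρ` -/
theorem EmH.rounds (r : ℕ) (h : EmH rk E φ I Δ e N₀ N₁ N₂ ρ μ S₀ S₁ S₂) {U : Finset (Sym2 V)} {D D' : ℕ}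
    (hU : ∀ v, (nb U v).card ≤ D) (hD : 2 * (Fintype.card V * ρ) ≤ D')
    (hn : 2 * (Fintype.card P * (Fintype.card P + Fintype.card Q) + e * (D + r * D')) ≤ Fintype.card V) :
    Pr (fun _ => 1 - (1 - ρ) ^ r) (fun c => ¬ EmSel E φ I U c)
      ≤ I.card * emDel (Fintype.card P + Fintype.card Q : ℕ) N₀ N₁ N₂ μ S₀ S₁ S₂ ^ r
        + r * (Fintype.card V * Real.exp (-(Fintype.card V * ρ / 4))) := by
  classical
  obtain ⟨hρ, hρ1, hμ, hV⟩ := h.pos
  obtain ⟨hN₁, hN₂, hS₀, hS₁, hS₂⟩ := h.nn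
  have hN₀ : 0 ≤ N₀ := le_trans (by positivity) h.n0
  set δ := emDel (Fintype.card P + Fintype.card Q : ℕ) N₀ N₁ N₂ μ S₀ S₁ S₂ with hδ
  have hδ0 : 0 ≤ δ := by
    rw [hδ, emDel]
    positivity
  set β := Fintype.card V * Real.exp (-(Fintype.card V * ρ / 4)) with hβ
  have hβ0 : 0 ≤ β := by positivity
  have hP : ∀ r : ℕ, IsP (fun _ : Sym2 V => 1 - (1 - ρ) ^ r) := fun r _ =>
    ⟨sub_nonneg.2 (pow_le_one₀ (by linarith) (by linarith)), sub_le_self _ (pow_nonneg (by linarith) _)⟩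
  have hp : IsP (fun _ : Sym2 V => ρ) := fun _ => ⟨hρ.le, hρ1⟩
  induction r generalizing I U D with
  | zero =>
    rcases I.eq_empty_or_nonempty with rfl | hI
    · have hV' : Nonempty V := Fintype.card_pos_iff.1 hV
      rw [Pr_false _ fun c hc => hc ⟨fun _ _ => Classical.arbitrary _, by simp, by simp⟩]
      simp
    · refine (Pr_le_one (hP 0) _).trans ?_
      have : (1 : ℝ) ≤ I.card := by exact_mod_cast hI.card_pos
      simpa using this
  | succ r ih =>
    obtain ⟨G, hG, hE⟩ := h.round hU (le_trans (by gcongr; omega) hn)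
    have h1 : (fun _ : Sym2 V => 1 - (1 - ρ) ^ (r + 1))
        = fun a => 1 - (1 - (fun _ => ρ) a) * (1 - (fun _ => 1 - (1 - ρ) ^ r) a) := by
      funext a
      ring
    rw [h1, Pr_union]
    have h2 : ∀ c, Pr (fun _ : Sym2 V => 1 - (1 - ρ) ^ r) (fun c' => ¬ EmSel E φ I U (c ∪ c'))
        ≤ (if ∃ v ∈ (univ : Finset V), D' < (nb c v).card then 1 else 0)
          + (δ ^ r * ((I \ G c).card : ℝ) + r * β) := by
      intro c
      split_ifs with hc
      · refine (Pr_le_one (hP r) _).trans (le_add_of_nonneg_right (by positivity))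
      · rw [zero_add, mul_comm]
        refine le_trans (Pr_mono (hP r) fun c' hc' hs => hc' ((hG c).2.join hs))
          (ih (h.mono sdiff_subset) (D := D + D') (fun v => ?_) (le_trans (le_of_eq (by ring)) hn))
        rw [nb_union]
        refine (card_union_le _ _).trans (Nat.add_le_add (hU v) ?_)
        exact not_lt.1 fun hh => hc ⟨v, mem_univ _, hh⟩
    refine (Ex_mono hp h2).trans ?_
    rw [Ex_add, Ex_add, Ex_mul, Ex_const, ← Pr_eq]
    have h3 := em_deg hp (fun _ => le_rfl) hD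
    have h4 : δ ^ r * Ex (fun _ : Sym2 V => ρ) (fun c => ((I \ G c).card : ℝ)) ≤ δ ^ r * (I.card * δ) := by
      gcongr
    push_cast
    calc _ ≤ β + (δ ^ r * (I.card * δ) + r * β) := by linarith
      _ = _ := by ring

end Pool.Agent.P.MP_224820_co.St
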