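import Pool.Agent.P.MP_224820_co.St.EmD

/-! Bounds for the weight sums of the embedding lemma. -/

set_option autoImplicit false

namespace Pool.Agent.P.MP_224820_co.St

open Finset

variable {P Q : Type} [Fintype P] [DecidableEq P] [Fintype Q] [DecidableEq Q]

/-- the back-degrees exceed three by at most `C` in total -/
def EmExc (E : Finset (P × (P ⊕ Q))) (C : ℕ) : Prop :=
  ∑ j, ((E.filter fun e => e.1 = j).card - 3) ≤ C

omit [Fintype Q] [DecidableEq Q] in
theorem emExc_heads {E : Finset (P × (P ⊕ Q))} {C : ℕ} (h : EmExc E C) (Z : Finset P) :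
    (E.filter fun e => e.1 ∈ Z).card ≤ 3 * Z.card + C := by
  rw [card_eq_sum_card_fiberwise (f := Prod.fst) (s := E.filter fun e => e.1 ∈ Z) (t := Z)
    fun e he => (mem_filter.1 (mem_coe.1 he)).2]
  calc _ ≤ ∑ j ∈ Z, (3 + ((E.filter fun e => e.1 = j).card - 3)) := by
        refine sum_le_sum fun j _ => le_trans (card_le_card (t := E.filter fun e => e.1 = j) ?_) (by omega)
        intro e he
        exact mem_filter.2 ⟨(mem_filter.1 (mem_filter.1 he).1).1, (mem_filter.1 he).2⟩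
    _ ≤ 3 * Z.card + C := by
        rw [sum_add_distrib, sum_const, smul_eq_mul, mul_comm]
        exact Nat.add_le_add_left ((sum_le_sum_of_subset (subset_univ _)).trans h) _

omit [Fintype Q] [DecidableEq Q] in
theorem emExc_card {E B : Finset (P × (P ⊕ Q))} {C : ℕ} (h : EmExc E C) (hB : B ⊆ E) :
    B.card ≤ 3 * (B.image Prod.fst).card + C := by
  refine le_trans (card_le_card ?_) (emExc_heads h (B.image Prod.fst))
  intro e he
  exact mem_filter.2 ⟨hB he, mem_image_of_mem _ he⟩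

omit [Fintype Q] in
theorem emW_le {E B : Finset (P × (P ⊕ Q))} {C d : ℕ} (h : EmExc E C) (hB : B ⊆ E) (hd : d ≤ C + 5)
    (hBd : B.card + d ≤ 3 * (emZ B).card + C) {n ρ Δ M : ℝ} (hn : 0 < n) (h0 : 0 < ρ) (h1 : ρ ≤ 1)
    (hΔ : 1 ≤ Δ) (hM : 1 ≤ M) (hMρ : M * ρ ≤ 1) :
    emW n ρ Δ M B ≤ M ^ (C + 5) * (ρ ^ d / ρ ^ C) * (Δ / (n * ρ ^ 3)) ^ (emZ B).card := by
  have h2 := emExc_card h hB
  have h3 := card_sdiff_add_card_eq_card (emb_head_sub B)
  unfold emW
  set t := (B.image Prod.fst).card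
  set s := (emZ B \ B.image Prod.fst).card
  set z := (emZ B).card
  set b := B.card
  have h4 : M ^ s * ρ ^ (3 * z + C) ≤ M ^ (C + 5) * ρ ^ (d + b) := by
    by_cases hs : s ≤ C + 5
    · exact mul_le_mul (pow_le_pow_right₀ hM hs) (pow_le_pow_of_le_one h0.le h1 (by omega))
        (by positivity) (by positivity)
    · calc M ^ s * ρ ^ (3 * z + C) ≤ M ^ s * ρ ^ (s + (d + b)) :=
            mul_le_mul_of_nonneg_left (pow_le_pow_of_le_one h0.le h1 (by omega)) (by positivity)
        _ = (M * ρ) ^ s * ρ ^ (d + b) := by rw [pow_add, mul_pow]; ring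
        _ ≤ 1 * ρ ^ (d + b) := by gcongr; exact pow_le_one₀ (by positivity) hMρ
        _ ≤ _ := by gcongr; exact one_le_pow₀ hM
  have h5 : Δ ^ t ≤ Δ ^ z := pow_le_pow_right₀ hΔ (by omega)
  rw [div_pow, mul_pow, ← pow_mul, ← mul_div_assoc, ← mul_div_assoc, div_mul_eq_mul_div, div_div,
    div_le_div_iff₀ (by positivity) (by positivity)]
  calc _ = Δ ^ t * (M ^ s * ρ ^ (3 * z + C)) * n ^ z := by rw [pow_add]; ring
    _ ≤ Δ ^ z * (M ^ (C + 5) * ρ ^ (d + b)) * n ^ z := by gcongr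
    _ = _ := by rw [pow_add ρ d]; ring

omit [Fintype Q] in
theorem em_sum_Z {E : Finset (P × (P ⊕ Q))} {C : ℕ} (h : EmExc E C) (f : Finset P → ℝ)
    (hf : ∀ Z, 0 ≤ f Z) :
    ∑ B ∈ E.powerset, f (emZ B) ≤ 2 ^ C * ∑ Z : Finset P, 8 ^ Z.card * f Z := by
  rw [← sum_fiberwise_of_maps_to (g := emZ) (t := univ) fun _ _ => mem_univ _, mul_sum]
  refine sum_le_sum fun Z _ => ?_
  rw [sum_congr rfl fun B hB => by rw [(mem_filter.1 hB).2], sum_const, nsmul_eq_mul, ← mul_assoc]
  refine mul_le_mul_of_nonneg_right ?_ (hf Z)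
  have h1 : (E.powerset.filter fun B => emZ B = Z).card ≤ 2 ^ (3 * Z.card + C) := by
    refine le_trans (card_le_card (t := (E.filter fun e => e.1 ∈ Z).powerset) fun B hB => ?_) ?_
    · refine mem_powerset.2 fun e he => mem_filter.2 ⟨mem_powerset.1 (mem_filter.1 hB).1 he, ?_⟩
      rw [← (mem_filter.1 hB).2]
      exact emb_head_sub B (mem_image_of_mem _ he)
    · rw [card_powerset]
      exact Nat.pow_le_pow_right (by norm_num) (emExc_heads h Z)
  calc _ ≤ ((2 ^ (3 * Z.card + C) : ℕ) : ℝ) := by exact_mod_cast h1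
    _ = _ := by push_cast; rw [pow_add, pow_mul]; norm_num [mul_comm]

omit [DecidableEq P] in
theorem em_sum_pow {x : ℝ} (hx : 0 ≤ x) :
    ∑ Z : Finset P, x ^ Z.card ≤ Real.exp (x * Fintype.card P) := by
  classical
  have h := Finset.sum_pow_mul_eq_add_pow x 1 (univ : Finset P)
  simp only [one_pow, mul_one, powerset_univ, card_univ] at h
  rw [h, mul_comm, Real.exp_nat_mul]
  exact pow_le_pow_left₀ (by positivity) (Real.add_one_le_exp x) _

omit [Fintype Q] in
/-- weight of a class of patterns: deficiency `d` for patterns touching fewer than `m₀` positions -/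
theorem em_sum {E : Finset (P × (P ⊕ Q))} {C d m₀ : ℕ} (h : EmExc E C) (hd : d ≤ 5)
    (cls : Finset (P × (P ⊕ Q)) → Prop) [DecidablePred cls]
    (hc : ∀ B ⊆ E, cls B → (emZ B).card < m₀ → B.card + d ≤ 3 * (emZ B).card)
    {n ρ Δ M x : ℝ} (hn : 0 < n) (h0 : 0 < ρ) (h1 : ρ ≤ 1) (hΔ : 1 ≤ Δ) (hM : 1 ≤ M) (hMρ : M * ρ ≤ 1)
    (hx : 8 * Δ / (n * ρ ^ 3) ≤ x) (hx1 : x ≤ 1) :
    ∑ B ∈ E.powerset.filter cls, emW n ρ Δ M B
      ≤ 2 ^ C * M ^ (C + 5)
        * (ρ ^ d * Real.exp (x * Fintype.card P) + 2 ^ Fintype.card P * x ^ m₀ / ρ ^ C) := by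
  set u := Δ / (n * ρ ^ 3) with hu
  have hu0 : 0 ≤ u := by positivity
  have hux : 8 * u ≤ x := by rwa [hu, ← mul_div_assoc]
  have hx0 : 0 ≤ x := by linarith
  set f : Finset P → ℝ := fun Z => M ^ (C + 5) *
    (ρ ^ d * u ^ Z.card + (if m₀ ≤ Z.card then u ^ Z.card else 0) / ρ ^ C)
  have hf : ∀ Z, 0 ≤ f Z := fun Z => by
    have : 0 ≤ (if m₀ ≤ Z.card then u ^ Z.card else 0) := by split_ifs <;> positivity
    positivity
  have h2 : ∀ B ∈ E.powerset.filter cls, emW n ρ Δ M B ≤ f (emZ B) := by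
    intro B hB
    have hBE := mem_powerset.1 (mem_filter.1 hB).1
    by_cases hz : m₀ ≤ (emZ B).card
    · have h3 := emExc_card h hBE
      have h4 := card_le_card (emb_head_sub B)
      refine (emW_le (d := 0) h hBE (by omega) (by omega) hn h0 h1 hΔ hM hMρ).trans ?_
      simp only [f, if_pos hz, mul_assoc]
      gcongr
      have : 0 ≤ ρ ^ d * u ^ (emZ B).card := by positivity
      rw [pow_zero, one_div_mul_eq_div]
      linarith
    · have h3 := hc B hBE (mem_filter.1 hB).2 (not_le.1 hz)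
      refine (emW_le (d := d + C) h hBE (by omega) (by omega) hn h0 h1 hΔ hM hMρ).trans ?_
      simp only [f, if_neg hz, mul_assoc]
      rw [pow_add ρ d, mul_div_assoc, div_self (by positivity)]
      simp [hu]
  refine (sum_le_sum h2).trans ((sum_le_sum_of_subset_of_nonneg (filter_subset _ _)
    fun B _ _ => hf _).trans ((em_sum_Z h f hf).trans ?_))
  rw [mul_assoc]
  gcongr
  calc _ ≤ ∑ Z : Finset P, M ^ (C + 5) * (ρ ^ d * x ^ Z.card + x ^ m₀ / ρ ^ C) := by
        refine sum_le_sum fun Z _ => ?_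
        have h3 : 8 ^ Z.card * u ^ Z.card ≤ x ^ Z.card := by
          rw [← mul_pow]
          gcongr
        have h4 : 8 ^ Z.card * (if m₀ ≤ Z.card then u ^ Z.card else 0) ≤ x ^ m₀ := by
          split_ifs with hz
          · exact h3.trans (pow_le_pow_of_le_one hx0 hx1 hz)
          · rw [mul_zero]
            positivity
        calc _ = M ^ (C + 5) * (ρ ^ d * (8 ^ Z.card * u ^ Z.card)
              + 8 ^ Z.card * (if m₀ ≤ Z.card then u ^ Z.card else 0) / ρ ^ C) := by
              simp only [f]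
              ring
          _ ≤ _ := by gcongr
    _ ≤ _ := by
        rw [← mul_sum, sum_add_distrib, ← mul_sum, sum_const, card_univ, Fintype.card_finset,
          nsmul_eq_mul, mul_div_assoc]
        push_cast
        gcongr
        exact em_sum_pow hx0

omit [Fintype Q] in
/-- crude bound, for templates of bounded size -/
theorem em_sum_crude (E : Finset (P × (P ⊕ Q))) (cls : Finset (P × (P ⊕ Q)) → Prop) [DecidablePred cls]
    {n ρ Δ M X l : ℝ} (hn : 0 < n) (h0 : 0 < ρ) (hΔ0 : 0 ≤ Δ) (hM0 : 0 ≤ M) (hΔ : Δ ≤ X) (hM : M ≤ X)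
    (hX : 1 ≤ X) (hl : 0 ≤ l)
    (hc : ∀ B ⊆ E, cls B → 1 ≤ l * (n ^ (emZ B).card * ρ ^ B.card)) :
    ∑ B ∈ E.powerset.filter cls, emW n ρ Δ M B ≤ 2 ^ E.card * X ^ Fintype.card P * l := by
  have h2 : ∀ B ∈ E.powerset.filter cls, emW n ρ Δ M B ≤ X ^ Fintype.card P * l := by
    intro B hB
    have h3 := card_sdiff_add_card_eq_card (emb_head_sub B)
    have h4 := card_le_univ (emZ B)
    have h5 := hc B (mem_powerset.1 (mem_filter.1 hB).1) (mem_filter.1 hB).2
    rw [emW, div_le_iff₀ (by positivity), mul_assoc]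
    calc _ ≤ X ^ (B.image Prod.fst).card * X ^ (emZ B \ B.image Prod.fst).card := by gcongr
      _ ≤ X ^ Fintype.card P * 1 := by
        rw [← pow_add, mul_one]
        exact pow_le_pow_right₀ hX (by omega)
      _ ≤ _ := by gcongr
  refine (sum_le_sum h2).trans ?_
  rw [sum_const, nsmul_eq_mul, mul_assoc]
  gcongr
  have : (E.powerset.filter cls).card ≤ 2 ^ E.card := (card_filter_le _ _).trans (by simp)
  exact_mod_cast this

end Pool.Agent.P.MP_224820_co.St
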