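import Pool.Agent.P.MP_224820_co.St.IfaceN
import Pool.Agent.P.MP_224820_co.St.IfaceA
import Pool.Agent.P.MP_224820_co.St.DefsF

/-! Statements: edge classes, parameters, assembly. -/

set_option autoImplicit false

namespace Pool.Agent.P.MP_224820_co.St

open Finset Filter Topology

-- deps: CH SLICE
def S_STYP : Prop := ∀ (V : Type) [Fintype V] [DecidableEq V] (r : ℕ) (π : Fin r → ℝ), IsP π →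
  ∑ k, π k ≤ 1 / 1000 → 4000 ≤ Fintype.card V → ∀ l : Finset (V × Fin r),
  Set.InjOn Prod.fst (l : Set (V × Fin r)) → l.card ≤ 4 →
  Pr (fun x : Fin r × Sym2 V => π x.1) (fun ξ => Fintype.card V * (∏ x ∈ l, π x.2) / 100
      < |(cc ξ l : ℝ) - Fintype.card V * ∏ x ∈ l, π x.2|)
    ≤ 2 * Real.exp (-(Fintype.card V * ∏ x ∈ l, π x.2) / 10 ^ 6)

-- deps: STYP
def S_GOODP : Prop := ∀ δ : ℝ, 0 < δ → ∃ n0 : ℕ, ∀ (V : Type) [Fintype V] [DecidableEq V],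
  n0 ≤ Fintype.card V → ∀ (r : ℕ) (π : Fin r → ℝ), r ≤ Fintype.card V → IsP π → ∑ k, π k ≤ 1 / 1000 →
  Pr (fun x : Fin r × Sym2 V => π x.1) (fun ξ => ¬ Good π ξ) ≤ δ

-- deps:
def S_GOODC : Prop := ∀ (V : Type) [Fintype V] [DecidableEq V] (r : ℕ) (π : Fin r → ℝ)
  (ξ : Finset (Fin r × Sym2 V)),
  (∀ k, NoLoop (Cls ξ k) ∧ Cls ξ k ⊆ sl ξ k ∧ ∀ e ∈ Cls ξ k, k ∈ st ξ e) ∧
  (∀ k k', k ≠ k' → Disjoint (Cls ξ k) (Cls ξ k')) ∧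
  (IsP π → Good π ξ →
    (∀ k k', (Fintype.card V : ℝ) ^ (1 / 100 : ℝ) ≤ Fintype.card V * (π k * π k') →
      (∀ v, ((nb (Cls ξ k) v).card : ℝ) ≤ 2 * Fintype.card V * π k) ∧
      ∀ u w, u ≠ w → Fintype.card V * (π k * π k') / 2 ≤ ((nb (Cls ξ k) u ∩ nb (Cls ξ k') w).card : ℝ) ∧
        ((nb (Cls ξ k) u ∩ nb (Cls ξ k') w).card : ℝ) ≤ 2 * Fintype.card V * (π k * π k')) ∧
    ∀ k, (Fintype.card V : ℝ) ^ (1 / 100 : ℝ) ≤ Fintype.card V * π k ^ 4 → Typ (Cls ξ k) (π k))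

-- deps:
def S_PAR : Prop := ∃ n0 : ℕ, ∀ n : ℕ, n0 ≤ n → ∃ (J : ℕ) (x0 : ℝ), ParOK n J x0

-- deps:
def S_NUMT : Prop := ∀ ε : ℝ, 0 < ε → ε ≤ 1 → ∃ n0 : ℕ, ∀ n : ℕ, n0 ≤ n → ∀ (J : ℕ) (x0 : ℝ),
  ParOK n J x0 → TN n J x0 ε

-- deps:
def S_SIG : Prop := ∀ (n J : ℕ) (x0 ε : ℝ), 0 < ε → TN n J x0 ε →
  (∀ l s, 0 ≤ sig n J x0 (ε / 260) l s) ∧
  (∀ l, Ex (piK n J x0 (ε / 260)) (sig n J x0 (ε / 260) l) ≤ 1 / 2) ∧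
  Pr (piK n J x0 (ε / 260)) (LsK J) ≤ rho n (ε / 260) / 4 ∧ ∀ l, 0 ≤ lamL n J x0 (ε / 260) l

-- deps: GOODC SIG
def S_HAZ : Prop := ∀ (n J : ℕ) (x0 ε : ℝ), 0 < ε → 1 ≤ J → TN n J x0 ε →
  ∀ ξ : Finset (Fin (2 * J + 2) × Sym2 (Fin n)),
  ∃ (g : Finset (Fin n) → ℝ) (hl : ℕ → Finset (Fin n) → ℝ), (∀ t, 0 ≤ g t) ∧ (∀ i t, 0 ≤ hl i t) ∧
    (∀ t, g t + ∑ i ∈ range J, hl i t ≤ hzs ((2 + ε / 2) * Real.log n / n) (lamL n J x0 (ε / 260))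
      (sig n J x0 (ε / 260)) ed3 ξ t) ∧
    (∀ t, (2 + ε / 2) * Real.log n / n ≤ g t) ∧
    (∀ G0 : Finset (Sym2 (Fin n)), NoLoop G0 → ∀ t, Ty G0 (Cls ξ (kA J 0)) t →
      ε / 260 * Real.log n / (n * (Real.exp (-x0) / 200) ^ 2) ≤ g t) ∧
    ∀ i < J, ∀ A ⊆ Cls ξ (kA J i),
      (∀ t ∈ tri (A ∪ Cls ξ (kB J i)), 4 / (n * Real.exp (-xs x0 i) ^ 3) ≤ hl i t) ∧
      ∀ t, Ty (A ∪ Cls ξ (kB J i)) (Cls ξ (kA J (i + 1))) t →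
        1280 * Real.log n / (n * (Real.exp (-(7 / 5 * xs x0 i)) / 200) ^ 2) ≤ hl i t

-- deps: GOODC
def S_LGC : Prop := ∀ (n J : ℕ) (x0 ε : ℝ), TN n J x0 ε →
  ∀ ξ : Finset (Fin (2 * J + 2) × Sym2 (Fin n)), Good (piK n J x0 (ε / 260)) ξ →
  ∀ i < J, ∀ A ⊆ Cls ξ (kA J i), LG A (Cls ξ (kB J i)) (Cls ξ (kA J (i + 1)))
    (Real.exp (-xs x0 i)) (Real.exp (-(7 / 5 * xs x0 i)) / 200)

-- deps: GOODC HAZ LGC LS LS0 CHAIN NUMT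
def S_TOPG : Prop := ∀ ε δ : ℝ, 0 < ε → ε ≤ 1 → 0 < δ → ∃ n0 : ℕ, ∀ n : ℕ, n0 ≤ n →
  (n % 6 = 1 ∨ n % 6 = 3) → ∀ (J : ℕ) (x0 : ℝ), ParOK n J x0 →
  ∀ ξ : Finset (Fin (2 * J + 2) × Sym2 (Fin n)), Good (piK n J x0 (ε / 260)) ξ →
  (∃ A ⊆ sl ξ (kB J J), Absorbs A (KN (Fin n) ∩ sl ξ (kA J J))) →
  Pr (hz (hzs ((2 + ε / 2) * Real.log n / n) (lamL n J x0 (ε / 260)) (sig n J x0 (ε / 260)) ed3 ξ))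
    (fun T => ¬ Dec (T ∪ sure (LsK J) ed3 ξ) (KN (Fin n))) ≤ δ

-- deps: ABS SLICE CH1 NUMT
def S_ABSX : Prop := ∀ ε δ : ℝ, 0 < ε → ε ≤ 1 → 0 < δ → ∃ n0 : ℕ, ∀ n : ℕ, n0 ≤ n →
  ∀ (J : ℕ) (x0 : ℝ), ParOK n J x0 →
  Pr (fun x : Fin (2 * J + 2) × Sym2 (Fin n) => piK n J x0 (ε / 260) x.1)
    (fun ξ => ¬ ∃ A ⊆ sl ξ (kB J J), Absorbs A (KN (Fin n) ∩ sl ξ (kA J J))) ≤ δ

-- deps: TRANS TOPG ABSX GOODP PAR NUMT SIG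
def S_ONE : Prop := ∀ ε δ : ℝ, 0 < ε → 0 < δ → ∃ n0 : ℕ, ∀ n : ℕ, n0 ≤ n → (n % 6 = 1 ∨ n % 6 = 3) →
  ∀ p : ℝ, (2 + ε) * Real.log n / n ≤ p → p ≤ 1 →
  Pr (fun _ : Finset (Fin n) => p) (fun T => ¬ Dec T (KN (Fin n))) ≤ δ

-- deps:
def S_ZERO : Prop := ∀ ε δ : ℝ, 0 < ε → 0 < δ → ∃ n0 : ℕ, ∀ n : ℕ, n0 ≤ n →
  ∀ p : ℝ, 0 ≤ p → p ≤ (2 - ε) * Real.log n / n →
  Pr (fun _ : Finset (Fin n) => p) (fun T => Dec T (KN (Fin n))) ≤ δ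

-- deps:
def S_BRIDGE : Prop := ∀ (n : ℕ) (p : ℝ),
  probSTS n p = Pr (fun _ : Finset (Fin n) => p) (fun T => Dec T (KN (Fin n)))

-- deps: ONE ZERO BRIDGE
def S_FINAL : Prop := ∀ ε : ℝ, 0 < ε → ∀ p : ℕ → ℝ, (∀ n, 0 ≤ p n ∧ p n ≤ 1) →
  ((∀ᶠ n : ℕ in atTop, p n ≤ (1 - ε) * (2 * Real.log n / n)) →
    Tendsto (fun n => probSTS n (p n)) (atTop ⊓ 𝓟 {n : ℕ | n % 6 = 1 ∨ n % 6 = 3}) (𝓝 0)) ∧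
  ((∀ᶠ n : ℕ in atTop, (1 + ε) * (2 * Real.log n / n) ≤ p n) →
    Tendsto (fun n => probSTS n (p n)) (atTop ⊓ 𝓟 {n : ℕ | n % 6 = 1 ∨ n % 6 = 3}) (𝓝 1))

end Pool.Agent.P.MP_224820_co.St
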