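import Pool.Agent.P.MP_224820_co.St.IfaceP
import Pool.Agent.P.MP_224820_co.St.Cover

/-! Statements: cover-down, boosting, nibble, levels. -/

set_option autoImplicit false

namespace Pool.Agent.P.MP_224820_co.St

open Finset

-- deps: CH1 MONO
def S_CD : Prop := ∀ (V : Type) [Fintype V] [DecidableEq V] (L R : Finset (Sym2 V)),
  NoLoop L → NoLoop R → Disjoint L R → ∀ (q : ℝ) (p : Finset V → ℝ), 0 ≤ q → IsP p →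
  (∀ t, Ty L R t → q ≤ p t) → ∀ N1 N2 d k k3 l1 l2 : ℝ, 0 ≤ k → 0 ≤ l1 → 0 ≤ l2 →
  (∀ u v, s(u, v) ∈ L → N1 ≤ ((nb R u ∩ nb R v).card : ℝ)) →
  (∀ u w, s(u, w) ∈ R → ((nb L u ∩ nb R w).card : ℝ) ≤ N2) →
  (∀ v, ((nb L v).card : ℝ) ≤ d) →
  Pr p (fun T => ¬ ∃ U ⊆ R, Dec T (L ∪ U) ∧ ∀ v, ((nb U v).card : ℝ) ≤ 2 * k3)
    ≤ (Fintype.card V : ℝ) ^ 2 * Real.exp (4 * l1 * k - q * N1 * (1 - Real.exp (-l1)))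
      + (Fintype.card V : ℝ) ^ 2 * Real.exp (2 * q * N2 * (Real.exp l2 - 1) - l2 * k)
      + Fintype.card V * Real.exp (4 * q * Fintype.card V * d - k3)

-- deps:
def S_K5 : Prop := ∀ (V : Type) [Fintype V] [DecidableEq V] (b : Finset (Sym2 V)) (β : ℝ),
  NoLoop b → 0 < β → β ≤ 1 → Typ b β → ∀ η : Sym2 V → ℝ, (∀ e ∈ b, |η e| ≤ 1 / 30) →
  ∃ ω : Finset V → ℝ, (∀ t, |ω t| ≤ 1 / (2 * (Fintype.card V * β ^ 2))) ∧ (∀ t, ω t ≠ 0 → t ∈ tri b) ∧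
    ∀ u v, s(u, v) ∈ b → wd ω b u v = η s(u, v)

-- deps: K5
def S_BOOST : Prop := ∀ (V : Type) [Fintype V] [DecidableEq V] (A b : Finset (Sym2 V)) (β : ℝ),
  NoLoop A → NoLoop b → Disjoint A b → 0 < β → β ≤ 1 → Typ b β →
  (∀ x w, s(x, w) ∈ b → ((nb A x ∩ nb b w).card : ℝ) ≤ Fintype.card V * β ^ 2 / 100) →
  ∃ ω : Finset V → ℝ, (∀ t, 0 ≤ ω t ∧ ω t ≤ 2 / (Fintype.card V * β ^ 2)) ∧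
    ∀ u v, s(u, v) ∈ A ∪ b → wd ω (A ∪ b) u v = 1

-- deps:
def S_RA : Prop := ∀ (V : Type) [Fintype V] [DecidableEq V] (G : Finset (Sym2 V)) (ω : Finset V → ℝ)
  (W Lo Up δ : ℝ), RH G ω W Lo Up δ →
  IsP (rp G ω Up δ) ∧ (∀ t, rq G ω Up δ t ≤ δ * W / Up) ∧
  (∀ e, ∑ t ∈ (tri G).filter (fun t => e ∈ ed t), rq G ω Up δ t ≤ δ) ∧
  (∀ e, rk G ω Up δ e ≤ δ ∧ rk G ω Up δ e ≤ 2 * (δ * (1 - Lo / Up) + δ ^ 2)) ∧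
  (∀ e ∈ G, Pr (rp G ω Up δ) (fun X => e ∈ surv G X) = 1 - δ) ∧
  (∀ u v w, s(u, v) ∈ G → s(u, w) ∈ G → s(v, w) ∈ G →
    (1 - δ) ^ 2 ≤ Pr (rp G ω Up δ) (fun X => s(u, w) ∈ surv G X ∧ s(v, w) ∈ surv G X) ∧
    Pr (rp G ω Up δ) (fun X => s(u, w) ∈ surv G X ∧ s(v, w) ∈ surv G X)
      ≤ (1 - δ) ^ 2 * (1 + 2 * (δ * W / Up)))

-- deps: RA BD
def S_RB : Prop := ∀ (V : Type) [Fintype V] [DecidableEq V] (G : Finset (Sym2 V)) (ω : Finset V → ℝ)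
  (W Lo Up δ : ℝ), RH G ω W Lo Up δ → ∀ ell dev : ℝ, 1 ≤ ell → 0 < dev →
  40 * ell * δ * W * Up ≤ dev ^ 2 → 6 * ell * W ≤ dev → ∀ u v, s(u, v) ∈ G →
  Pr (rp G ω Up δ) (fun X => ¬ ((1 - δ) ^ 2 * Lo - dev ≤ wd ω (surv G X) u v ∧
    wd ω (surv G X) u v ≤ (1 - δ) ^ 2 * Up * (1 + 2 * (δ * W / Up)) + dev)) ≤ 2 * Real.exp (-ell)

-- deps: RA BD
def S_RC : Prop := ∀ (V : Type) [Fintype V] [DecidableEq V] (G : Finset (Sym2 V)) (ω : Finset V → ℝ)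
  (W Lo Up δ : ℝ), RH G ω W Lo Up δ → ∀ ell N dev : ℝ, 1 ≤ ell →
  16 * ell * δ * N ≤ dev ^ 2 → 6 * ell ≤ dev → ∀ S : Finset (Sym2 V), ((S ∩ G).card : ℝ) ≤ N →
  Pr (rp G ω Up δ) (fun X => ¬ (((S ∩ surv G X).card : ℝ) ≤ (1 - δ) * (S ∩ G).card + dev))
    ≤ Real.exp (-ell)

-- deps: RA ET
def S_RD : Prop := ∀ (V : Type) [Fintype V] [DecidableEq V] (G : Finset (Sym2 V)) (ω : Finset V → ℝ)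
  (W Lo Up δ : ℝ), RH G ω W Lo Up δ → ∀ ell N : ℝ, 1 ≤ ell →
  ∀ S : Finset (Sym2 V), ((S ∩ G).card : ℝ) ≤ N →
  Pr (rp G ω Up δ) (fun X => (∀ e, (((act G X).filter fun t => e ∈ ed t).card : ℝ) ≤ 2 * ell) ∧
    ¬ (((S ∩ conf G X).card : ℝ) ≤ 42 * ell * (9 * δ ^ 2 * N + ell))) ≤ Real.exp (-ell)

-- deps: RA RB RC RD CH1 MONO
def S_ROUND : Prop := ∀ (V : Type) [Fintype V] [DecidableEq V] (G : Finset (Sym2 V))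
  (ω : Finset V → ℝ) (W Lo Up δ : ℝ), RH G ω W Lo Up δ → ∀ ell N dev devS : ℝ, 1 ≤ ell → 0 < dev →
  40 * ell * δ * W * Up ≤ dev ^ 2 → 6 * ell * W ≤ dev → 16 * ell * δ * N ≤ devS ^ 2 → 6 * ell ≤ devS →
  ∀ 𝒮 : Finset (Finset (Sym2 V)), (∀ S ∈ 𝒮, ((S ∩ G).card : ℝ) ≤ N) →
  ∀ p : Finset V → ℝ, IsP p → (∀ t ∈ tri G, δ * W / Up ≤ p t) →
  Pr p (fun T => ¬ ∃ G' ⊆ G, ∃ Wa ⊆ G, Dec T (G \ (G' ∪ Wa)) ∧ Disjoint G' Wa ∧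
    (∀ u v, s(u, v) ∈ G' → (1 - δ) ^ 2 * Lo - dev ≤ wd ω G' u v ∧
      wd ω G' u v ≤ (1 - δ) ^ 2 * Up * (1 + 2 * (δ * W / Up)) + dev) ∧
    ∀ S ∈ 𝒮, ((S ∩ G').card : ℝ) ≤ (1 - δ) * (S ∩ G).card + devS ∧
      ((S ∩ Wa).card : ℝ) ≤ 4 * N * δ * (1 - Lo / Up) + 400 * ell * δ ^ 2 * N + 43 * ell ^ 2)
    ≤ (3 * (Fintype.card V : ℝ) ^ 2 + 4 * 𝒮.card) * Real.exp (-ell)

-- deps: ROUND TWO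
def S_NIB : Prop := ∀ (V : Type) [Fintype V] [DecidableEq V] (G : Finset (Sym2 V))
  (ω : Finset V → ℝ) (W N μ ell : ℝ), NoLoop G → 0 < W → (∀ t, 0 ≤ ω t ∧ ω t ≤ W) →
  (∀ u v, s(u, v) ∈ G → wd ω G u v = 1) → 1 ≤ ell → 0 < μ → μ ≤ 1 / 2 → Real.exp (-ell) ≤ μ →
  10 ^ 9 * ell ^ 7 * W ≤ μ ^ 5 → 10 ^ 5 * ell ^ 5 ≤ N * μ ^ 3 →
  ∀ 𝒮 : Finset (Finset (Sym2 V)), (∀ S ∈ 𝒮, ((S ∩ G).card : ℝ) ≤ N) →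
  ∀ h : Finset V → ℝ, (∀ t, 0 ≤ h t) → (∀ t ∈ tri G, 2 * W / μ ^ 2 ≤ h t) →
  Pr (hz h) (fun T => ¬ ∃ Λ ⊆ G, Dec T (G \ Λ) ∧ ∀ S ∈ 𝒮, ((S ∩ Λ).card : ℝ) ≤ 5 * μ * N)
    ≤ 1600 * ell ^ 3 / μ * ((3 * (Fintype.card V : ℝ) ^ 2 + 4 * 𝒮.card) * Real.exp (-ell))

-- deps: NIB
def S_NIBS : Prop := ∀ (V : Type) [Fintype V] [DecidableEq V] (G R : Finset (Sym2 V))
  (ω : Finset V → ℝ) (W N μ ell : ℝ), NoLoop G → Disjoint G R → 0 < W → (∀ t, 0 ≤ ω t ∧ ω t ≤ W) →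
  (∀ u v, s(u, v) ∈ G → wd ω G u v = 1) → 1 ≤ ell → 0 < μ → μ ≤ 1 / 2 → Real.exp (-ell) ≤ μ →
  10 ^ 9 * ell ^ 7 * W ≤ μ ^ 5 → 10 ^ 5 * ell ^ 5 ≤ N * μ ^ 3 →
  (∀ u w, u ≠ w → ((nb G u ∩ nb R w).card : ℝ) ≤ N) →
  ∀ h : Finset V → ℝ, (∀ t, 0 ≤ h t) → (∀ t ∈ tri G, 2 * W / μ ^ 2 ≤ h t) →
  Pr (hz h) (fun T => ¬ ∃ Λ ⊆ G, Dec T (G \ Λ) ∧ ∀ u w, ((nb Λ u ∩ nb R w).card : ℝ) ≤ 5 * μ * N)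
    ≤ 11200 * ell ^ 3 / μ * (Fintype.card V : ℝ) ^ 2 * Real.exp (-ell)

-- deps: BOOST NIBS CD TWO
def S_LSX : Prop := ∀ (V : Type) [Fintype V] [DecidableEq V] (A b R : Finset (Sym2 V))
  (β β' μ ell : ℝ), LN (Fintype.card V) β β' μ ell → LG A b R β β' →
  ∀ h : Finset V → ℝ, (∀ t, 0 ≤ h t) →
  (∀ t ∈ tri (A ∪ b), 4 / (Fintype.card V * β ^ 2 * μ ^ 2) ≤ h t) →
  (∀ t, Ty (A ∪ b) R t → 128 * ell / (Fintype.card V * β' ^ 2) ≤ h t) →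
  Pr (hz h) (fun T => ¬ ∃ U ⊆ R, Dec T (A ∪ b ∪ U))
    ≤ 20000 * ell ^ 3 / μ * (Fintype.card V : ℝ) ^ 2 * Real.exp (-ell)

-- deps:
def S_NUML : Prop := ∃ n0 : ℕ, ∀ n : ℕ, n0 ≤ n → ∀ x : ℝ, Real.log (Real.log n) / 5 ≤ x →
  x ≤ 49 / 200 * Real.log n →
  LN n (Real.exp (-x)) (Real.exp (-(7 / 5 * x)) / 200) (Real.exp (-(81 / 200 * x))) (10 * Real.log n) ∧
  20000 * (10 * Real.log n) ^ 3 / Real.exp (-(81 / 200 * x)) * (n : ℝ) ^ 2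
    * Real.exp (-(10 * Real.log n)) ≤ 1 / (n : ℝ) ^ 2

-- deps: LSX NUML
def S_LS : Prop := ∃ n0 : ℕ, ∀ (V : Type) [Fintype V] [DecidableEq V], n0 ≤ Fintype.card V →
  ∀ x : ℝ, Real.log (Real.log (Fintype.card V)) / 5 ≤ x → x ≤ 49 / 200 * Real.log (Fintype.card V) →
  ∀ A b R : Finset (Sym2 V), LG A b R (Real.exp (-x)) (Real.exp (-(7 / 5 * x)) / 200) →
  ∀ h : Finset V → ℝ, (∀ t, 0 ≤ h t) →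
  (∀ t ∈ tri (A ∪ b), 4 / (Fintype.card V * Real.exp (-x) ^ 3) ≤ h t) →
  (∀ t, Ty (A ∪ b) R t → 1280 * Real.log (Fintype.card V)
    / (Fintype.card V * (Real.exp (-(7 / 5 * x)) / 200) ^ 2) ≤ h t) →
  Pr (hz h) (fun T => ¬ ∃ U ⊆ R, Dec T (A ∪ b ∪ U)) ≤ 1 / (Fintype.card V : ℝ) ^ 2

-- deps: CH1
def S_LE : Prop := ∀ (V : Type) [Fintype V] [DecidableEq V] (G R : Finset (Sym2 V)),
  NoLoop G → NoLoop R → Disjoint G R → ∀ q N1 k : ℝ, 0 ≤ q → q ≤ 1 →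
  (∀ u v, s(u, v) ∈ G → N1 ≤ ((nb R u ∩ nb R v).card : ℝ)) →
  IsP (tyP G R q) ∧ ∀ e : Sym2 V,
    Pr (tyP G R q) (fun Q => e ∈ exc G R k Q) ≤ Real.exp (4 * k - q * N1 / 2) ∧
    Loc (blk G R e) (fun Q => e ∈ exc G R k Q)

-- deps: LE CH CH1
def S_LA : Prop := ∀ (V : Type) [Fintype V] [DecidableEq V] (G R : Finset (Sym2 V)),
  NoLoop G → NoLoop R → Disjoint G R → ∀ q N1 dR k ps ds Z : ℝ, 0 ≤ q → q ≤ 1 →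
  (∀ u v, s(u, v) ∈ G → N1 ≤ ((nb R u ∩ nb R v).card : ℝ)) → (∀ v, ((nb R v).card : ℝ) ≤ dR) →
  Real.exp (4 * k - q * N1 / 2) ≤ ps →
  Pr (tyP G R q) (fun Q => ¬ ((∀ v, ((nb (exc G R k Q) v).card : ℝ) ≤ ds) ∧
      ∀ f ∈ R, (lst G R Q f : ℝ) ≤ Z))
    ≤ Fintype.card V * Real.exp (2 * Fintype.card V * ps - ds)
      + (Fintype.card V : ℝ) ^ 2 * Real.exp (4 * q * dR - Z)

-- deps: LE CH CH1 MONO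
def S_LD : Prop := ∀ (V : Type) [Fintype V] [DecidableEq V] (G R : Finset (Sym2 V)),
  NoLoop G → NoLoop R → Disjoint G R → ∀ q N1 N2 k ps Z lam : ℝ, 0 ≤ q → 0 ≤ k → 0 ≤ lam →
  (∀ u v, s(u, v) ∈ G → N1 ≤ ((nb R u ∩ nb R v).card : ℝ)) →
  Real.exp (4 * k - q * N1 / 2) ≤ ps →
  ∀ Q : Finset (Finset V), (∀ f ∈ R, (lst G R Q f : ℝ) ≤ Z) →
  ∀ Λ ⊆ G, (∀ e ∈ Λ, e ∉ exc G R k Q) →
  (∀ u w, s(u, w) ∈ R → ((nb Λ u ∩ nb R w).card : ℝ) ≤ N2) →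
  ∀ p : Finset V → ℝ, IsP p → q ≤ 1 → (∀ t, Ty G R t → q ≤ p t) →
  Pr p (fun T => ¬ ∃ U ⊆ R, Dec (Q ∪ T) (Λ ∪ U))
    ≤ (Fintype.card V : ℝ) ^ 2 * Real.exp (Z * ps * (Real.exp lam - 1) - lam * k / 2)
      + (Fintype.card V : ℝ) ^ 2 * Real.exp (2 * q * N2 * (Real.exp lam - 1) - lam * k / 2)

-- deps: LA LD CD BOOST NIBS TWO
def S_LS0X : Prop := ∀ (V : Type) [Fintype V] [DecidableEq V] (G R : Finset (Sym2 V)),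
  NoLoop G → NoLoop R → Disjoint G R → ∀ (θ β : ℝ) (P : P0), P.ok (Fintype.card V) θ β →
  (∀ v, ((nn G v).card : ℝ) ≤ θ * Fintype.card V) →
  (∀ v, ((nb R v).card : ℝ) ≤ 2 * Fintype.card V * β) →
  (∀ u v, u ≠ v → Fintype.card V * β ^ 2 / 2 ≤ ((nb R u ∩ nb R v).card : ℝ)) →
  ∀ h : Finset V → ℝ, (∀ t, 0 ≤ h t) →
  (∀ t ∈ tri G, P.Hb + 4 / (Fintype.card V * P.μ ^ 2) ≤ h t) → (∀ t, Ty G R t → 4 * P.q ≤ h t) →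
  Pr (hz h) (fun T => ¬ ∃ U ⊆ R, Dec T (G ∪ U)) ≤ P.bd (Fintype.card V) θ β

-- deps:
def S_NUM0 : Prop := ∀ ε η δ : ℝ, 0 < ε → ε ≤ 1 → 0 < η → η ≤ 1 → 0 < δ →
  ∃ n0 : ℕ, ∀ n : ℕ, n0 ≤ n → ∀ β : ℝ, Real.log n ^ (-(3 / 10) : ℝ) ≤ β → β ≤ 1 →
  ∃ P : P0, P.ok n (Real.log n ^ (-(1 / 10) : ℝ)) β ∧
    P.Hb + 4 / (n * P.μ ^ 2) ≤ (2 + ε) * Real.log n / n ∧
    4 * P.q ≤ η * Real.log n / (n * β ^ 2) ∧ P.bd n (Real.log n ^ (-(1 / 10) : ℝ)) β ≤ δ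

-- deps: LS0X NUM0
def S_LS0 : Prop := ∀ ε η δ : ℝ, 0 < ε → ε ≤ 1 → 0 < η → η ≤ 1 → 0 < δ →
  ∃ n0 : ℕ, ∀ (V : Type) [Fintype V] [DecidableEq V], n0 ≤ Fintype.card V →
  ∀ G R : Finset (Sym2 V), NoLoop G → NoLoop R → Disjoint G R →
  ∀ β : ℝ, Real.log (Fintype.card V) ^ (-(3 / 10) : ℝ) ≤ β → β ≤ 1 →
  (∀ v, ((nn G v).card : ℝ) ≤ Real.log (Fintype.card V) ^ (-(1 / 10) : ℝ) * Fintype.card V) →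
  (∀ v, ((nb R v).card : ℝ) ≤ 2 * Fintype.card V * β) →
  (∀ u v, u ≠ v → Fintype.card V * β ^ 2 / 2 ≤ ((nb R u ∩ nb R v).card : ℝ)) →
  ∀ h : Finset V → ℝ, (∀ t, 0 ≤ h t) →
  (∀ t ∈ tri G, (2 + ε) * Real.log (Fintype.card V) / Fintype.card V ≤ h t) →
  (∀ t, Ty G R t → η * Real.log (Fintype.card V) / (Fintype.card V * β ^ 2) ≤ h t) →
  Pr (hz h) (fun T => ¬ ∃ U ⊆ R, Dec T (G ∪ U)) ≤ δ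

-- deps: TWO
def S_CHAIN : Prop := ∀ (V : Type) [Fintype V] [DecidableEq V] (J : ℕ) (a b : ℕ → Finset (Sym2 V))
  (G0 Ab : Finset (Sym2 V)),
  (∀ i ≤ J, ∀ j ≤ J, i ≠ j → Disjoint (a i) (a j)) → (∀ i < J, ∀ j < J, i ≠ j → Disjoint (b i) (b j)) →
  (∀ i ≤ J, ∀ j < J, Disjoint (a i) (b j)) →
  (∀ i ≤ J, Disjoint G0 (a i) ∧ Disjoint Ab (a i)) → (∀ j < J, Disjoint G0 (b j) ∧ Disjoint Ab (b j)) →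
  Disjoint G0 Ab → KN V = G0 ∪ Ab ∪ (range (J + 1)).biUnion a ∪ (range J).biUnion b →
  Dv (KN V) → Absorbs Ab (a J) →
  ∀ (h g : Finset V → ℝ) (hl : ℕ → Finset V → ℝ), (∀ t, 0 ≤ g t) → (∀ i t, 0 ≤ hl i t) →
  (∀ t, g t + ∑ i ∈ range J, hl i t ≤ h t) → ∀ δ0 δ1 : ℝ, 0 ≤ δ1 →
  Pr (hz g) (fun T => ¬ ∃ U ⊆ a 0, Dec T (G0 ∪ U)) ≤ δ0 →
  (∀ i < J, ∀ A ⊆ a i, Pr (hz (hl i)) (fun T => ¬ ∃ U ⊆ a (i + 1), Dec T (A ∪ b i ∪ U)) ≤ δ1) →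
  Pr (hz h) (fun T => ¬ Dec (T ∪ tri (Ab ∪ a J)) (KN V)) ≤ δ0 + J * δ1

end Pool.Agent.P.MP_224820_co.St
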