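import Pool.Agent.P.MP_224820_co.St.Jensen
import Pool.Agent.P.MP_224820_co.St.Base

/-! The transport lemma for triangle decompositions. -/

set_option autoImplicit false

namespace Pool.Agent.P.MP_224820_co.St

open Finset

section
variable {α : Type} [Fintype α] [DecidableEq α]

theorem isP_ind (B : Finset α) : IsP fun a => if a ∈ B then (1 : ℝ) else 0 := fun a => by
  by_cases h : a ∈ B <;> simp [h]

/-- a deterministic set -/
theorem Ex_det (B : Finset α) (f : Finset α → ℝ) :
    Ex (fun a => if a ∈ B then (1 : ℝ) else 0) f = f B := by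
  have e : ∀ R : Finset α, (∀ a ∈ R, (if a ∈ B then (1 : ℝ) else 0) ≠ 0) →
      (∀ a, (if a ∈ B then (1 : ℝ) else 0) = 1 → a ∈ R) → R = B := by
    intro R h1 h2
    ext a
    exact ⟨fun h => by simpa using h1 a h, fun h => h2 a (if_pos h)⟩
  rw [← Ex_const (fun a => if a ∈ B then (1 : ℝ) else 0) (f B)]
  exact le_antisymm (Ex_mono_ae (isP_ind B) fun R h1 h2 => by rw [e R h1 h2])
    (Ex_mono_ae (isP_ind B) fun R h1 h2 => by rw [e R h1 h2])

end

variable {V : Type} [Fintype V] [DecidableEq V]

omit [Fintype V] in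
theorem incr_Dec_image {ι : Type} (tr : ι → Finset V) (Q : Finset (Finset V))
    (G : Finset (Sym2 V)) : Incr fun R : Finset ι => Dec (Q ∪ R.image tr) G :=
  fun _ _ h => Dec_mono (union_subset_union_right (image_subset_image h))

omit [Fintype V] in
theorem incr_Dec_union (Q : Finset (Finset V)) (G : Finset (Sym2 V)) :
    Incr fun R : Finset (Finset V) => Dec (Q ∪ R) G :=
  fun _ _ h => Dec_mono (union_subset_union_right h)

omit [Fintype V] in
theorem incr_Dec (G : Finset (Sym2 V)) : Incr fun R : Finset (Finset V) => Dec R G :=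
  fun _ _ h => Dec_mono h

omit [Fintype V] in
/-- a decomposition uses only one triangle on a given pair -/
theorem once_Dec_image {ι : Type} [Fintype ι] [DecidableEq ι] (tr : ι → Finset V)
    (Q : Finset (Finset V)) (G : Finset (Sym2 V)) (e : Sym2 V) :
    Once (univ.filter fun i => e ∈ ed (tr i)) fun R : Finset ι => Dec (Q ∪ R.image tr) G := by
  rintro R ⟨K, hK, h1, h2⟩
  by_cases h : ∃ i ∈ R, tr i ∈ K ∧ e ∈ ed (tr i)
  · obtain ⟨i, hi, hiK, hie⟩ := h
    refine Or.inr ⟨i, by simp [hi, hie], K, fun t ht => ?_, h1, h2⟩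
    rcases mem_union.1 (hK ht) with hQ | hR
    · exact mem_union_left _ hQ
    · obtain ⟨j, hj, rfl⟩ := mem_image.1 hR
      refine mem_union_right _ ?_
      by_cases hje : e ∈ ed (tr j)
      · have := (h2 e ((h1 _ ht).2 hje)).unique ⟨ht, hje⟩ ⟨hiK, hie⟩
        exact mem_image.2 ⟨i, mem_insert_self _ _, this.symm⟩
      · exact mem_image.2 ⟨j, mem_insert_of_mem (by simp [hj, hje]), rfl⟩
  · refine Or.inl ⟨K, fun t ht => ?_, h1, h2⟩
    rcases mem_union.1 (hK ht) with hQ | hR
    · exact mem_union_left _ hQ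
    · obtain ⟨j, hj, rfl⟩ := mem_image.1 hR
      have hje : e ∉ ed (tr j) := fun hje => h ⟨j, hj, ht, hje⟩
      exact mem_union_right _ (mem_image.2 ⟨j, by simp [hj, hje], rfl⟩)

theorem once_Dec_union (Q : Finset (Finset V)) (G : Finset (Sym2 V)) (e : Sym2 V) :
    Once (univ.filter fun t => e ∈ ed t) fun R : Finset (Finset V) => Dec (Q ∪ R) G := by
  simpa using once_Dec_image (id : Finset V → Finset V) Q G e

theorem once_Dec (G : Finset (Sym2 V)) (e : Sym2 V) :
    Once (univ.filter fun t => e ∈ ed t) fun R : Finset (Finset V) => Dec R G := by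
  simpa using once_Dec_union ∅ G e

/-- random triangles may be replaced by all triangles of a random graph -/
theorem transport_tri {E : Finset (Finset V) → Prop} (hE : Incr E)
    (hS : ∀ e : Sym2 V, Once (univ.filter fun t => e ∈ ed t) E) {q : Sym2 V → ℝ} (hq : IsP q)
    {p : Finset V → ℝ} (hp : IsP p) (h : ∀ t : Finset V, t.card = 3 → ∏ e ∈ ed t, q e ≤ p t) :
    Pr p (fun R => ¬ E R) ≤ Pr q fun c => ¬ E (tri c) := by
  classical
  refine (transport_p hq (fun e => univ.filter fun t => e ∈ ed t) hE hS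
    (fun c t => if t ∈ tri c then 1 else 0) (fun c => isP_ind _) (fun c c' hc t => ?_)
    (fun t R R' hR => ?_) hp fun t => ?_).trans (le_of_eq ?_)
  · by_cases ht : t ∈ tri c
    · simp [ht, tri_mono hc ht]
    · rw [if_neg ht]; split_ifs <;> norm_num
  · have : ed t ⊆ R ↔ ed t ⊆ R' := by
      have e : (univ.filter fun y => t ∈ univ.filter fun t => y ∈ ed t) = ed t := by
        ext y; simp
      rw [e] at hR
      rw [← inter_eq_right, hR, inter_eq_right]
    simp only [mem_tri, this]
  · by_cases h3 : t.card = 3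
    · refine le_trans (le_of_eq ?_) (h t h3)
      rw [← Pr_subset, Pr_eq]
      exact Ex_congr fun R => by simp only [mem_tri, h3, true_and]
    · simp only [mem_tri, h3, false_and, if_false, Ex_const]
      exact (hp t).1
  · rw [Pr_eq q]
    exact Ex_congr fun c => by rw [Pr_eq, Ex_det]

/-- hazards of layered triangles may be clustered along the pairs; `lc y` is the pair that carries
the status bit `y`, and `tr i` is the triangle of the layered index `i` -/
theorem transport_layers {β ι : Type} [Fintype β] [DecidableEq β] [Fintype ι] [DecidableEq ι]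
    (lc : β → Sym2 V) (tr : ι → Finset V) {q : β → ℝ} (hq : IsP q) (H : Finset β → ι → ℝ)
    (h0 : ∀ s i, 0 ≤ H s i) (hL : ∀ i, Loc (univ.filter fun y => lc y ∈ ed (tr i)) fun s => H s i)
    {h : Finset V → ℝ}
    (hh : ∀ t, ∑ i ∈ univ.filter (fun i => tr i = t), Ex q (fun s => H s i) ≤ h t)
    (Q : Finset (Finset V)) (G : Finset (Sym2 V)) :
    Pr (hz h) (fun R => ¬ Dec (Q ∪ R) G) ≤
      Ex q fun s => Pr (hz (H s)) fun R => ¬ Dec (Q ∪ R.image tr) G := by
  have hm : ∀ t, 0 ≤ ∑ i ∈ univ.filter (fun i => tr i = t), Ex q (fun s => H s i) :=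
    fun t => sum_nonneg fun i _ => Ex_nonneg hq fun s => h0 s i
  refine (Pr_not_mono_p (hz_isP hm) (hz_isP fun t => (hm t).trans (hh t)) (hz_mono hh)
    (incr_Dec_union Q G)).trans ?_
  rw [Pr_image_hz tr (fun i => Ex q fun s => H s i) fun R => ¬ Dec (Q ∪ R) G]
  refine transport_hz hq (fun y => univ.filter fun i => lc y ∈ ed (tr i)) (incr_Dec_image tr Q G)
    (fun y => once_Dec_image tr Q G (lc y)) H h0 (fun i => ?_) fun _ => le_rfl
  simpa using hL i

/-- both transports together -/
theorem transport_all {β ι : Type} [Fintype β] [DecidableEq β] [Fintype ι] [DecidableEq ι]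
    (lc : β → Sym2 V) (tr : ι → Finset V) {q : β → ℝ} (hq : IsP q) (H : Finset β → ι → ℝ)
    (h0 : ∀ s i, 0 ≤ H s i) (hL : ∀ i, Loc (univ.filter fun y => lc y ∈ ed (tr i)) fun s => H s i)
    {qc : Sym2 V → ℝ} (hqc : IsP qc) {p : Finset V → ℝ} (hp : IsP p)
    (hh : ∀ t : Finset V, t.card = 3 → ∏ e ∈ ed t, qc e +
      ∑ i ∈ univ.filter (fun i => tr i = t), Ex q (fun s => H s i) ≤ p t)
    (h3 : ∀ s i, (tr i).card ≠ 3 → H s i = 0) (G : Finset (Sym2 V)) :
    Pr p (fun R => ¬ Dec R G) ≤
      Ex qc fun c => Ex q fun s => Pr (hz (H s)) fun R => ¬ Dec (tri c ∪ R.image tr) G := by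
  classical
  set h : Finset V → ℝ := fun t => ∑ i ∈ univ.filter (fun i => tr i = t), Ex q (fun s => H s i)
    with hdef
  set pc : Finset V → ℝ := fun t => if t.card = 3 then ∏ e ∈ ed t, qc e else 0 with hpc
  have hm : ∀ t, 0 ≤ h t := fun t => sum_nonneg fun i _ => Ex_nonneg hq fun s => h0 s i
  have hpc' : IsP pc := fun t => by
    simp only [hpc]
    split_ifs
    · exact ⟨prod_nonneg fun e _ => (hqc e).1, prod_le_one (fun e _ => (hqc e).1) fun e _ => (hqc e).2⟩
    · norm_num
  have hI : IsP fun t => 1 - (1 - hz h t) * (1 - pc t) := fun t => by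
    obtain ⟨a0, a1⟩ := hz_isP hm t
    obtain ⟨b0, b1⟩ := hpc' t
    constructor <;> nlinarith
  have hle : ∀ t, 1 - (1 - hz h t) * (1 - pc t) ≤ p t := fun t => by
    obtain ⟨a0, a1⟩ := hz_isP hm t
    obtain ⟨b0, b1⟩ := hpc' t
    have a2 : hz h t ≤ h t := by
      have := Real.add_one_le_exp (-h t)
      simp only [hz]; linarith
    by_cases ht : t.card = 3
    · have := hh t ht
      have e : pc t = ∏ e ∈ ed t, qc e := if_pos ht
      rw [← e] at this
      have : pc t + h t ≤ p t := this
      nlinarith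
    · have e : pc t = 0 := if_neg ht
      have e2 : h t = 0 := sum_eq_zero fun i hi => by
        have : (tr i).card ≠ 3 := by rw [(mem_filter.1 hi).2]; exact ht
        simp only [h3 _ i this, Ex_const]
      have := (hp t).1
      rw [e]; linarith
  refine (Pr_not_mono_p hI hp hle (incr_Dec G)).trans ?_
  rw [Pr_union (hz h) pc fun R => ¬ Dec R G]
  calc Ex (hz h) (fun Q => Pr pc fun R => ¬ Dec (Q ∪ R) G)
      ≤ Ex (hz h) (fun Q => Pr qc fun c => ¬ Dec (Q ∪ tri c) G) :=
        Ex_mono (hz_isP hm) fun Q => transport_tri (incr_Dec_union Q G) (once_Dec_union Q G) hqc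
          hpc' fun t ht => le_of_eq (if_pos ht).symm
    _ = Ex qc fun c => Pr (hz h) fun Q => ¬ Dec (tri c ∪ Q) G := by
        simp only [Pr_eq]
        rw [Ex_comm]
        simp only [union_comm]
    _ ≤ _ := Ex_mono hqc fun c => transport_layers lc tr hq H h0 hL (fun _ => le_rfl) (tri c) G

end Pool.Agent.P.MP_224820_co.St
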