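import Pool.Agent.P.MP_224820_co.St.JensenG

/-! The transport lemma in joint monotone form. -/

set_option autoImplicit false

namespace Pool.Agent.P.MP_224820_co.St

open Finset

theorem one_sub_prod_le {ι : Type} (J : Finset ι) {x : ι → ℝ} (hx : IsP x) :
    1 - ∏ i ∈ J, (1 - x i) ≤ ∑ i ∈ J, x i := by
  classical
  induction J using Finset.induction_on with
  | empty => simp
  | insert i J hi ih =>
    rw [prod_insert hi, sum_insert hi]
    have h1 : ∏ i ∈ J, (1 - x i) ≤ 1 :=
      prod_le_one (fun i _ => sub_nonneg.2 (hx i).2) fun i _ => by linarith [(hx i).1]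
    nlinarith [(hx i).1]

theorem Pr_image {α β : Type} [Fintype α] [DecidableEq α] [Fintype β] [DecidableEq β] (tr : β → α)
    (q : β → ℝ) (E : Finset α → Prop) :
    Pr (fun a => 1 - ∏ i ∈ univ.filter (fun i => tr i = a), (1 - q i)) E =
      Pr q fun R => E (R.image tr) := by
  classical
  rw [Pr_eq, ← Ex_image, Pr_eq]

/-- splitting a random set into independent layers -/
theorem Pr_not_le_image {α β : Type} [Fintype α] [DecidableEq α] [Fintype β] [DecidableEq β]
    (tr : β → α) {q : β → ℝ} (hq : IsP q) {p : α → ℝ} (hp : IsP p)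
    (h : ∀ a, ∑ i ∈ univ.filter (fun i => tr i = a), q i ≤ p a) {E : Finset α → Prop}
    (hE : Incr E) : Pr p (fun R => ¬ E R) ≤ Pr q fun R => ¬ E (R.image tr) := by
  rw [← Pr_image tr q fun R => ¬ E R]
  refine Pr_not_mono_p (fun a => ?_) hp (fun a => (one_sub_prod_le _ hq).trans (h a)) hE
  have h1 : ∏ i ∈ univ.filter (fun i => tr i = a), (1 - q i) ≤ 1 :=
    prod_le_one (fun i _ => sub_nonneg.2 (hq i).2) fun i _ => by linarith [(hq i).1]
  have h2 : 0 ≤ ∏ i ∈ univ.filter (fun i => tr i = a), (1 - q i) :=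
    prod_nonneg fun i _ => sub_nonneg.2 (hq i).2
  constructor <;> linarith

variable {V : Type} [Fintype V] [DecidableEq V]

/-- **Transport lemma**, joint monotone form with a fixed set `Q` of triangles already present. -/
theorem transport_mono_union {β ι : Type} [Fintype β] [DecidableEq β] [Fintype ι] [DecidableEq ι]
    (lc : β → Sym2 V) (tr : ι → Finset V) {q : β → ℝ} (hq : IsP q) (P : Finset β → ι → ℝ)
    (hP : ∀ s, IsP (P s)) (hm : ∀ s s', s ⊆ s' → ∀ i, P s i ≤ P s' i)
    (hL : ∀ i, Loc (univ.filter fun y => lc y ∈ ed (tr i)) fun s => P s i)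
    {p : Finset V → ℝ} (hp : IsP p)
    (hh : ∀ t : Finset V, t.card = 3 →
      ∑ i ∈ univ.filter (fun i => tr i = t), Ex q (fun s => P s i) ≤ p t)
    (h3 : ∀ s i, (tr i).card ≠ 3 → P s i = 0) (Q : Finset (Finset V)) (G : Finset (Sym2 V)) :
    Pr p (fun R => ¬ Dec (Q ∪ R) G) ≤
      Ex q fun s => Pr (P s) fun R => ¬ Dec (Q ∪ R.image tr) G := by
  have hI : IsP fun i => Ex q fun s => P s i := fun i =>
    ⟨Ex_nonneg hq fun s => (hP s i).1,
      (Ex_mono hq fun s => (hP s i).2).trans (le_of_eq (Ex_const q 1))⟩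
  refine (Pr_not_le_image tr hI hp (fun t => ?_) (incr_Dec_union Q G)).trans ?_
  · by_cases ht : t.card = 3
    · exact hh t ht
    · rw [sum_eq_zero fun i hi => ?_]
      · exact (hp t).1
      · have : (tr i).card ≠ 3 := by rw [(mem_filter.1 hi).2]; exact ht
        simp only [h3 _ i this, Ex_const]
  · refine transport_p hq (fun y => univ.filter fun i => lc y ∈ ed (tr i)) (incr_Dec_image tr Q G)
      (fun y => once_Dec_image tr Q G (lc y)) P hP hm (fun i => ?_) hI fun _ => le_rfl
    simpa using hL i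

/-- **Transport lemma**, joint monotone form. -/
theorem transport_mono {β ι : Type} [Fintype β] [DecidableEq β] [Fintype ι] [DecidableEq ι]
    (lc : β → Sym2 V) (tr : ι → Finset V) {q : β → ℝ} (hq : IsP q) (P : Finset β → ι → ℝ)
    (hP : ∀ s, IsP (P s)) (hm : ∀ s s', s ⊆ s' → ∀ i, P s i ≤ P s' i)
    (hL : ∀ i, Loc (univ.filter fun y => lc y ∈ ed (tr i)) fun s => P s i)
    {p : Finset V → ℝ} (hp : IsP p)
    (hh : ∀ t : Finset V, t.card = 3 →
      ∑ i ∈ univ.filter (fun i => tr i = t), Ex q (fun s => P s i) ≤ p t)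
    (h3 : ∀ s i, (tr i).card ≠ 3 → P s i = 0) (G : Finset (Sym2 V)) :
    Pr p (fun R => ¬ Dec R G) ≤ Ex q fun s => Pr (P s) fun R => ¬ Dec (R.image tr) G := by
  simpa using transport_mono_union lc tr hq P hP hm hL hp hh h3 ∅ G

end Pool.Agent.P.MP_224820_co.St
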