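import Pool.Agent.P.MP_224820_co.St.BaseB

/-! Bounded differences with a variance term. -/

set_option autoImplicit false

namespace Pool.Agent.P.MP_224820_co.St

open Finset

variable {α : Type} [Fintype α] [DecidableEq α]

theorem mart_two {p x y th c : ℝ} (h0 : 0 ≤ p) (hc : |x - y| ≤ c) (ht : |th| * c ≤ 1) :
    p * Real.exp (th * x) + (1 - p) * Real.exp (th * y)
      ≤ Real.exp (th * (p * x + (1 - p) * y) + th ^ 2 * (p * c ^ 2)) := by
  have hd : |th * (x - y)| ≤ |th| * c := by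
    rw [abs_mul]; exact mul_le_mul_of_nonneg_left hc (abs_nonneg _)
  have hd1 : |th * (x - y)| ≤ 1 := hd.trans ht
  have h1 := Real.abs_exp_sub_one_sub_id_le hd1
  have h2 : (th * (x - y)) ^ 2 ≤ th ^ 2 * c ^ 2 := by
    have : |th * (x - y)| ^ 2 ≤ (|th| * c) ^ 2 := pow_le_pow_left₀ (abs_nonneg _) hd 2
    rwa [sq_abs, mul_pow |th|, sq_abs] at this
  have h3 : Real.exp (th * (x - y)) - 1 ≤ th * (x - y) + th ^ 2 * c ^ 2 := by
    have := (abs_le.1 h1).2
    linarith
  have h4 : 1 + p * (Real.exp (th * (x - y)) - 1)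
      ≤ Real.exp (p * (th * (x - y) + th ^ 2 * c ^ 2)) := by
    have := Real.add_one_le_exp (p * (th * (x - y) + th ^ 2 * c ^ 2))
    have h5 := mul_le_mul_of_nonneg_left h3 h0
    linarith
  have e1 : Real.exp (th * x) = Real.exp (th * y) * Real.exp (th * (x - y)) := by
    rw [← Real.exp_add]; congr 1; ring
  have e2 : Real.exp (th * (p * x + (1 - p) * y) + th ^ 2 * (p * c ^ 2))
      = Real.exp (th * y) * Real.exp (p * (th * (x - y) + th ^ 2 * c ^ 2)) := by
    rw [← Real.exp_add]; congr 1; ring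
  rw [e1, e2]
  have := mul_le_mul_of_nonneg_left h4 (Real.exp_pos (th * y)).le
  linarith

theorem mart_loc {p : α → ℝ} (hp : IsP p) (c : α → ℝ) (th : ℝ) (s : Finset α)
    (ht : ∀ a ∈ s, |th| * c a ≤ 1) :
    ∀ f : Finset α → ℝ, Loc s f → (∀ a ∈ s, ∀ R, |f (insert a R) - f (R.erase a)| ≤ c a) →
      Ex p (fun R => Real.exp (th * f R))
        ≤ Real.exp (th * Ex p f + th ^ 2 * ∑ a ∈ s, p a * c a ^ 2) := by
  induction s using Finset.induction_on with
  | empty =>
    intro f hf _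
    have h : ∀ R, f R = f ∅ := fun R => hf R ∅ (by simp)
    have e1 : Ex p f = f ∅ := by rw [Ex_congr h, Ex_const]
    have e2 : Ex p (fun R => Real.exp (th * f R)) = Real.exp (th * f ∅) := by
      rw [Ex_congr (g := fun _ => Real.exp (th * f ∅)) (fun R => by rw [h R]), Ex_const]
    rw [e1, e2]; simp
  | insert a s ha ih =>
    intro f hf hc
    set g : Finset α → ℝ := fun R => p a * f (insert a R) + (1 - p a) * f (R.erase a) with hg
    have hgl : Loc s g := by
      intro R R' h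
      have h1 : f (insert a R) = f (insert a R') := by
        apply hf
        ext x
        have := Finset.ext_iff.1 h x
        simp only [mem_inter, mem_insert] at this ⊢
        tauto
      have h2 : f (R.erase a) = f (R'.erase a) := by
        apply hf
        ext x
        have := Finset.ext_iff.1 h x
        simp only [mem_inter, mem_insert, mem_erase] at this ⊢
        tauto
      simp only [hg, h1, h2]
    have hgc : ∀ b ∈ s, ∀ R, |g (insert b R) - g (R.erase b)| ≤ c b := by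
      intro b hb R
      have hab : a ≠ b := fun h => ha (h ▸ hb)
      have h1 := hc b (mem_insert_of_mem hb) (insert a R)
      have h2 := hc b (mem_insert_of_mem hb) (R.erase a)
      have e1 : insert a (insert b R) = insert b (insert a R) := Finset.insert_comm _ _ _
      have e2 : insert a (R.erase b) = (insert a R).erase b := by
        ext x; simp only [mem_insert, mem_erase]
        constructor
        · rintro (rfl | h)
          · exact ⟨hab, Or.inl rfl⟩
          · exact ⟨h.1, Or.inr h.2⟩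
        · rintro ⟨h, rfl | h'⟩
          · exact Or.inl rfl
          · exact Or.inr ⟨h, h'⟩
      have e3 : (insert b R).erase a = insert b (R.erase a) := by
        ext x; simp only [mem_insert, mem_erase]
        constructor
        · rintro ⟨h, rfl | h'⟩
          · exact Or.inl rfl
          · exact Or.inr ⟨h, h'⟩
        · rintro (rfl | h)
          · exact ⟨hab.symm, Or.inl rfl⟩
          · exact ⟨h.1, Or.inr h.2⟩
      have e4 : (R.erase b).erase a = (R.erase a).erase b := Finset.erase_right_comm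
      simp only [hg, e1, e2, e3, e4]
      have e5 : p a * f (insert b (insert a R)) + (1 - p a) * f (insert b (R.erase a)) -
          (p a * f ((insert a R).erase b) + (1 - p a) * f ((R.erase a).erase b))
          = p a * (f (insert b (insert a R)) - f ((insert a R).erase b))
            + (1 - p a) * (f (insert b (R.erase a)) - f ((R.erase a).erase b)) := by ring
      rw [e5]
      have p0 := (hp a).1
      have p1 : 0 ≤ 1 - p a := by linarith [(hp a).2]
      obtain ⟨l1, u1⟩ := abs_le.1 h1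
      obtain ⟨l2, u2⟩ := abs_le.1 h2
      have := mul_le_mul_of_nonneg_left l1 p0
      have := mul_le_mul_of_nonneg_left u1 p0
      have := mul_le_mul_of_nonneg_left l2 p1
      have := mul_le_mul_of_nonneg_left u2 p1
      rw [abs_le]; constructor <;> linarith
    have hE : Ex p f = Ex p g := Ex_coord p a f
    have h1 := ih (fun b hb => ht b (mem_insert_of_mem hb)) g hgl hgc
    rw [Ex_coord p a, sum_insert ha, hE]
    have h2 : Ex p (fun R => p a * Real.exp (th * f (insert a R))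
          + (1 - p a) * Real.exp (th * f (R.erase a)))
        ≤ Ex p (fun R => Real.exp (th ^ 2 * (p a * c a ^ 2)) * Real.exp (th * g R)) := by
      apply Ex_mono hp
      intro R
      have := mart_two (hp a).1 (hc a (mem_insert_self _ _) R) (ht a (mem_insert_self _ _))
      rw [← Real.exp_add, add_comm (th ^ 2 * _)]
      exact this
    rw [Ex_mul] at h2
    refine h2.trans ?_
    have h3 := mul_le_mul_of_nonneg_left h1 (Real.exp_pos (th ^ 2 * (p a * c a ^ 2))).le
    refine h3.trans (le_of_eq ?_)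
    rw [← Real.exp_add]; congr 1; ring

/-- exponential moment under bounded differences -/
theorem Ex_exp_bd {p : α → ℝ} (hp : IsP p) {f : Finset α → ℝ} {c : α → ℝ}
    (hc : ∀ a R, |f (insert a R) - f (R.erase a)| ≤ c a) {th : ℝ} (ht : ∀ a, |th| * c a ≤ 1) :
    Ex p (fun R => Real.exp (th * f R))
      ≤ Real.exp (th * Ex p f + th ^ 2 * ∑ a, p a * c a ^ 2) :=
  mart_loc hp c th univ (fun a _ => ht a) f (fun R R' h => by simpa using congrArg f (by simpa using h))
    (fun a _ R => hc a R)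

/-- upper tail -/
theorem bd_hi {p : α → ℝ} (hp : IsP p) {f : Finset α → ℝ} {c : α → ℝ} {M V th t : ℝ}
    (hc : ∀ a R, |f (insert a R) - f (R.erase a)| ≤ c a) (hM : ∀ a, c a ≤ M)
    (hV : ∑ a, p a * c a ^ 2 ≤ V) (h0 : 0 ≤ th) (h1 : th * M ≤ 1) :
    Pr p (fun R => Ex p f + t ≤ f R) ≤ Real.exp (th ^ 2 * V - th * t) := by
  have ht : ∀ a, |th| * c a ≤ 1 := fun a => by
    rw [abs_of_nonneg h0]; exact (mul_le_mul_of_nonneg_left (hM a) h0).trans h1
  have h2 := Ex_exp_bd hp hc ht
  have h3 : Pr p (fun R => Ex p f + t ≤ f R)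
      ≤ Ex p (fun R => Real.exp (-(th * (Ex p f + t))) * Real.exp (th * f R)) := by
    apply Pr_le_Ex hp
    · intro R; positivity
    · intro R hR
      rw [← Real.exp_add]
      apply Real.one_le_exp
      have := mul_le_mul_of_nonneg_left hR h0
      linarith
  rw [Ex_mul] at h3
  refine h3.trans ((mul_le_mul_of_nonneg_left h2 (Real.exp_pos _).le).trans ?_)
  rw [← Real.exp_add]
  apply Real.exp_le_exp.2
  have := mul_le_mul_of_nonneg_left hV (sq_nonneg th)
  linarith

/-- lower tail -/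
theorem bd_lo {p : α → ℝ} (hp : IsP p) {f : Finset α → ℝ} {c : α → ℝ} {M V th t : ℝ}
    (hc : ∀ a R, |f (insert a R) - f (R.erase a)| ≤ c a) (hM : ∀ a, c a ≤ M)
    (hV : ∑ a, p a * c a ^ 2 ≤ V) (h0 : 0 ≤ th) (h1 : th * M ≤ 1) :
    Pr p (fun R => f R ≤ Ex p f - t) ≤ Real.exp (th ^ 2 * V - th * t) := by
  have hc' : ∀ a R, |(fun R => (-1 : ℝ) * f R) (insert a R) - (fun R => (-1 : ℝ) * f R) (R.erase a)|
      ≤ c a := fun a R => by
    have := hc a R
    rw [abs_sub_comm] at this
    convert this using 2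
    ring
  have h := bd_hi (f := fun R => (-1 : ℝ) * f R) (t := t) hp hc' hM hV h0 h1
  rw [Ex_mul] at h
  refine le_trans (Pr_mono hp fun R hR => ?_) h
  linarith

/-- both tails -/
theorem bd_abs {p : α → ℝ} (hp : IsP p) {f : Finset α → ℝ} {c : α → ℝ} {M V th t : ℝ}
    (hc : ∀ a R, |f (insert a R) - f (R.erase a)| ≤ c a) (hM : ∀ a, c a ≤ M)
    (hV : ∑ a, p a * c a ^ 2 ≤ V) (h0 : 0 ≤ th) (h1 : th * M ≤ 1) :
    Pr p (fun R => t ≤ |f R - Ex p f|) ≤ 2 * Real.exp (th ^ 2 * V - th * t) := by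
  have a1 := bd_hi (t := t) hp hc hM hV h0 h1
  have a2 := bd_lo (t := t) hp hc hM hV h0 h1
  have a3 := Pr_or_le hp (fun R => Ex p f + t ≤ f R) (fun R => f R ≤ Ex p f - t)
  refine le_trans (Pr_mono hp fun R hR => ?_) (a3.trans (by linarith))
  rcases le_abs.1 hR with h | h
  · left; linarith
  · right; linarith

theorem mart_th {M V t : ℝ} (hM : 0 < M) (hV : 0 < V) (ht : 0 ≤ t) :
    ∃ th, 0 ≤ th ∧ th * M ≤ 1 ∧ th ^ 2 * V - th * t ≤ -min (t ^ 2 / (4 * V)) (t / (2 * M)) := by
  by_cases h : t * M ≤ 2 * V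
  · refine ⟨t / (2 * V), by positivity, ?_, ?_⟩
    · rw [div_mul_eq_mul_div, div_le_one (by positivity)]; exact h
    · have : (t / (2 * V)) ^ 2 * V - t / (2 * V) * t = -(t ^ 2 / (4 * V)) := by
        field_simp; ring
      rw [this]; exact neg_le_neg (min_le_left _ _)
  · push Not at h
    refine ⟨1 / M, by positivity, by rw [one_div, inv_mul_cancel₀ hM.ne'], ?_⟩
    refine le_trans ?_ (neg_le_neg (min_le_right _ _))
    have : (1 / M) ^ 2 * V - 1 / M * t + t / (2 * M) = (2 * V - t * M) / (2 * M ^ 2) := by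
      field_simp; ring
    have h2 : (2 * V - t * M) / (2 * M ^ 2) ≤ 0 :=
      div_nonpos_of_nonpos_of_nonneg (by linarith) (by positivity)
    linarith

/-- closed forms -/
theorem bd_hi' {p : α → ℝ} (hp : IsP p) {f : Finset α → ℝ} {c : α → ℝ} {M V t : ℝ}
    (hc : ∀ a R, |f (insert a R) - f (R.erase a)| ≤ c a) (hM : ∀ a, c a ≤ M)
    (hV : ∑ a, p a * c a ^ 2 ≤ V) (hM0 : 0 < M) (hV0 : 0 < V) (ht : 0 ≤ t) :
    Pr p (fun R => Ex p f + t ≤ f R) ≤ Real.exp (-min (t ^ 2 / (4 * V)) (t / (2 * M))) := by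
  obtain ⟨th, h0, h1, h2⟩ := mart_th hM0 hV0 ht
  exact (bd_hi hp hc hM hV h0 h1).trans (Real.exp_le_exp.2 h2)

theorem bd_lo' {p : α → ℝ} (hp : IsP p) {f : Finset α → ℝ} {c : α → ℝ} {M V t : ℝ}
    (hc : ∀ a R, |f (insert a R) - f (R.erase a)| ≤ c a) (hM : ∀ a, c a ≤ M)
    (hV : ∑ a, p a * c a ^ 2 ≤ V) (hM0 : 0 < M) (hV0 : 0 < V) (ht : 0 ≤ t) :
    Pr p (fun R => f R ≤ Ex p f - t) ≤ Real.exp (-min (t ^ 2 / (4 * V)) (t / (2 * M))) := by
  obtain ⟨th, h0, h1, h2⟩ := mart_th hM0 hV0 ht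
  exact (bd_lo hp hc hM hV h0 h1).trans (Real.exp_le_exp.2 h2)

theorem bd_abs' {p : α → ℝ} (hp : IsP p) {f : Finset α → ℝ} {c : α → ℝ} {M V t : ℝ}
    (hc : ∀ a R, |f (insert a R) - f (R.erase a)| ≤ c a) (hM : ∀ a, c a ≤ M)
    (hV : ∑ a, p a * c a ^ 2 ≤ V) (hM0 : 0 < M) (hV0 : 0 < V) (ht : 0 ≤ t) :
    Pr p (fun R => t ≤ |f R - Ex p f|) ≤ 2 * Real.exp (-min (t ^ 2 / (4 * V)) (t / (2 * M))) := by
  obtain ⟨th, h0, h1, h2⟩ := mart_th hM0 hV0 ht
  have := Real.exp_le_exp.2 h2
  exact (bd_abs hp hc hM hV h0 h1).trans (by linarith)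

omit [Fintype α] in
/-- differences of a sum of local terms of oscillation at most `w j` -/
theorem bd_of_sum {ι : Type} (J : Finset ι) (s : ι → Finset α) (g : ι → Finset α → ℝ) (w : ι → ℝ)
    (hl : ∀ j ∈ J, Loc (s j) (g j)) (hw : ∀ j ∈ J, ∀ R R', |g j R - g j R'| ≤ w j) (a : α)
    (R : Finset α) :
    |∑ j ∈ J, g j (insert a R) - ∑ j ∈ J, g j (R.erase a)|
      ≤ ∑ j ∈ J.filter (fun j => a ∈ s j), w j := by
  rw [← sum_sub_distrib, sum_filter]
  refine (abs_sum_le_sum_abs _ _).trans (sum_le_sum fun j hj => ?_)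
  split_ifs with h
  · exact hw j hj _ _
  · have : g j (insert a R) = g j (R.erase a) := by
      apply hl j hj
      ext x
      simp only [mem_inter, mem_insert, mem_erase]
      constructor
      · rintro ⟨rfl | h1, h2⟩
        · exact absurd h2 h
        · exact ⟨⟨fun e => h (e ▸ h2), h1⟩, h2⟩
      · rintro ⟨h1, h2⟩
        exact ⟨Or.inr h1.2, h2⟩
    rw [this]; simp

/-- sums of local terms: every coordinate influences weight at most `M`, and
`M * ∑ j, w j * (expected number of chosen coordinates of s j) ≤ V` -/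
theorem bd_sum {ι : Type} {p : α → ℝ} (hp : IsP p) (J : Finset ι) (s : ι → Finset α)
    (g : ι → Finset α → ℝ) (w : ι → ℝ) (hl : ∀ j ∈ J, Loc (s j) (g j))
    (hw : ∀ j ∈ J, ∀ R R', |g j R - g j R'| ≤ w j) {M V t : ℝ}
    (hM : ∀ a, ∑ j ∈ J.filter (fun j => a ∈ s j), w j ≤ M)
    (hV : M * ∑ j ∈ J, w j * ∑ a ∈ s j, p a ≤ V) (hM0 : 0 < M) (hV0 : 0 < V) (ht : 0 ≤ t) :
    Pr p (fun R => t ≤ |∑ j ∈ J, g j R - ∑ j ∈ J, Ex p (g j)|)
      ≤ 2 * Real.exp (-min (t ^ 2 / (4 * V)) (t / (2 * M))) := by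
  have hw0 : ∀ j ∈ J, 0 ≤ w j := fun j hj => (abs_nonneg _).trans (hw j hj ∅ ∅)
  have h := bd_abs' (f := fun R => ∑ j ∈ J, g j R)
    (c := fun a => ∑ j ∈ J.filter (fun j => a ∈ s j), w j) (t := t) hp
    (bd_of_sum J s g w hl hw) hM ?_ hM0 hV0 ht
  · rwa [Ex_sum] at h
  · refine le_trans ?_ hV
    have e : ∑ j ∈ J, w j * ∑ a ∈ s j, p a
        = ∑ a, p a * ∑ j ∈ J.filter (fun j => a ∈ s j), w j := by
      simp only [sum_filter, mul_sum]
      rw [sum_comm]
      refine sum_congr rfl fun j _ => ?_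
      simp only [mul_ite, mul_zero]
      rw [← sum_filter]
      simp [mul_comm]
    rw [e, mul_sum]
    refine sum_le_sum fun a _ => ?_
    have c0 : 0 ≤ ∑ j ∈ J.filter (fun j => a ∈ s j), w j :=
      sum_nonneg fun j hj => hw0 j (mem_filter.1 hj).1
    have := mul_le_mul_of_nonneg_left (hM a) (mul_nonneg (hp a).1 c0)
    nlinarith

end Pool.Agent.P.MP_224820_co.St
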