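import Pool.Agent.P.MP_224820_co.St.NibC
import Pool.Agent.P.MP_224820_co.St.GrB

/-! The weighted nibble for triangles of a graph. -/

set_option autoImplicit false

namespace Pool.Agent.P.MP_224820_co.St

open Finset

variable {V : Type} [Fintype V] [DecidableEq V]

/-- the weighted nibble, with arbitrary edge sets as tests -/
theorem nibble_set {G : Finset (Sym2 V)} (hG : NoLoop G) {om : Finset V → ℝ} {W d L l : ℝ}
    (hW : 0 < W) (hom : ∀ t ∈ tri G, 0 ≤ om t ∧ om t ≤ W)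
    (hd : ∀ u v, s(u, v) ∈ G → wd om G u v = 1) {ι : Type} (J : Finset ι)
    (Y : ι → Finset (Sym2 V)) (y : ι → ℝ) (hy : ∀ j ∈ J, ((G ∩ Y j).card : ℝ) ≤ y j)
    (hd0 : 0 < d) (hd4 : d ≤ 1 / 4) (hL : -Real.log d ≤ L) (hl : 1 ≤ l)
    (h1 : 120 * L * l * W ≤ d ^ 4) (h2 : ∀ j ∈ J, 48 * L * l ≤ d ^ 2 * y j) {g : Finset V → ℝ}
    (hg0 : ∀ t, 0 ≤ g t) (hg : ∀ t ∈ tri G, om t / (2 * d ^ 2) ≤ g t) :
    Pr (hz g) (fun R => ¬ ∃ Λ ⊆ G, Dec R (G \ Λ) ∧ ∀ j ∈ J, ((Λ ∩ Y j).card : ℝ) ≤ 6 * d * y j)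
      ≤ (3 * (Fintype.card V : ℝ) ^ 2 + J.card) * Real.exp (-l) := by
  have hs : NbSys (tri G) ed om W :=
    ⟨fun t ht => card_ed (mem_tri.1 ht).1, fun t ht t' ht' x y hxy a b c e =>
      eq_of_two_edges (mem_tri.1 ht).1 (mem_tri.1 ht').1 hxy a b c e, fun t ht => (hom t ht).1,
      fun t ht => (hom t ht).2, hW.le⟩
  have h := nib_abs hs hW (G := G) (fun t ht => (mem_tri.1 ht).2) (fun e he => by
    induction e using Sym2.ind with
    | _ u v => rw [sum_tri_edge hG he]; exact hd u v he) hy hd0 hd4 hL hl h1 h2 hg0 hg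
  refine le_trans (Pr_mono (hz_isP hg0) ?_) (h.trans ?_)
  · rintro R hR ⟨K, k1, k2, k3, k4⟩
    refine hR ⟨G \ K.biUnion ed, sdiff_subset, ?_, k4⟩
    rw [Finset.sdiff_sdiff_eq_self (biUnion_subset.2 fun t ht => (k2 t ht).2)]
    exact Dec_biUnion k1 (fun t ht => (mem_tri.1 (k2 t ht).1).1) k3
  · have a1 : (G.card : ℝ) ≤ (Fintype.card V : ℝ) ^ 2 := by exact_mod_cast card_sym2_le G
    have a2 : (Fintype.card (Sym2 V) : ℝ) ≤ (Fintype.card V : ℝ) ^ 2 := by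
      exact_mod_cast card_sym2_le (univ : Finset (Sym2 V))
    exact mul_le_mul_of_nonneg_right (by linarith) (Real.exp_pos _).le

end Pool.Agent.P.MP_224820_co.St
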