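import Pool.Agent.P.MP_224820_co.St.Mart

/-! One round of the nibble: generic estimates for a random family of small sets. -/

set_option autoImplicit false

namespace Pool.Agent.P.MP_224820_co.St

open Finset

theorem nib_hz_le {β : Type} (h : β → ℝ) (a : β) : hz h a ≤ h a := by
  have := Real.add_one_le_exp (-h a)
  simp only [hz]; linarith

variable {A : Type} [Fintype A] [DecidableEq A]

/-- exponential moments of a sum of local terms -/
theorem nib_exp_sum {ι : Type} {p : A → ℝ} (hp : IsP p) (J : Finset ι) (s : ι → Finset A)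
    (g : ι → Finset A → ℝ) (w : ι → ℝ) (hl : ∀ j ∈ J, Loc (s j) (g j))
    (hw : ∀ j ∈ J, ∀ R R', |g j R - g j R'| ≤ w j) {M th : ℝ}
    (hM : ∀ a, ∑ j ∈ J.filter (fun j => a ∈ s j), w j ≤ M) (hth : |th| * M ≤ 1) :
    Ex p (fun R => Real.exp (th * ∑ j ∈ J, g j R))
      ≤ Real.exp (th * ∑ j ∈ J, Ex p (g j) + th ^ 2 * (M * ∑ j ∈ J, w j * ∑ a ∈ s j, p a)) := by
  have hw0 : ∀ j ∈ J, 0 ≤ w j := fun j hj => (abs_nonneg _).trans (hw j hj ∅ ∅)
  have h := Ex_exp_bd (f := fun R => ∑ j ∈ J, g j R)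
    (c := fun a => ∑ j ∈ J.filter (fun j => a ∈ s j), w j) (th := th) hp
    (bd_of_sum J s g w hl hw)
    (fun a => (mul_le_mul_of_nonneg_left (hM a) (abs_nonneg _)).trans hth)
  rw [Ex_sum] at h
  refine h.trans (Real.exp_le_exp.2 ?_)
  have e : ∑ j ∈ J, w j * ∑ a ∈ s j, p a
      = ∑ a, p a * ∑ j ∈ J.filter (fun j => a ∈ s j), w j := by
    simp only [sum_filter, mul_sum]
    rw [sum_comm]
    refine sum_congr rfl fun j _ => ?_
    simp only [mul_ite, mul_zero]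
    rw [← sum_filter]
    simp [mul_comm]
  have h2 : ∑ a, p a * (∑ j ∈ J.filter (fun j => a ∈ s j), w j) ^ 2
      ≤ M * ∑ j ∈ J, w j * ∑ a ∈ s j, p a := by
    rw [e, mul_sum]
    refine sum_le_sum fun a _ => ?_
    have c0 : 0 ≤ ∑ j ∈ J.filter (fun j => a ∈ s j), w j :=
      sum_nonneg fun j hj => hw0 j (mem_filter.1 hj).1
    have := mul_le_mul_of_nonneg_left (hM a) (mul_nonneg (hp a).1 c0)
    nlinarith
  have := mul_le_mul_of_nonneg_left h2 (sq_nonneg th)
  linarith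

variable {X : Type} [DecidableEq X]

/-- the coordinates whose set meets `S` -/
def nbN (k : A → Finset X) (S : Finset X) : Finset A := univ.filter fun a => ¬ Disjoint S (k a)

omit [DecidableEq A] in
theorem mem_nbN {k : A → Finset X} {S : Finset X} {a : A} : a ∈ nbN k S ↔ ¬ Disjoint S (k a) := by
  simp [nbN]

omit [DecidableEq A] in
theorem mem_nbN_one {k : A → Finset X} {x : X} {a : A} : a ∈ nbN k {x} ↔ x ∈ k a := by
  simp [nbN]

theorem nbN_pair (k : A → Finset X) (y z : X) : nbN k {y, z} = nbN k {y} ∪ nbN k {z} := by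
  ext a
  simp only [mem_union, mem_nbN, disjoint_insert_left, disjoint_singleton_left]
  tauto

omit [DecidableEq A] in
theorem nib_disj (k : A → Finset X) (S : Finset X) (R : Finset A) :
    Disjoint S (R.biUnion k) ↔ Disjoint (nbN k S) R := by
  rw [disjoint_biUnion_right, disjoint_right]
  simp only [mem_nbN, not_not]

theorem nib_loc (k : A → Finset X) (S : Finset X) {R R' : Finset A}
    (h : R ∩ nbN k S = R' ∩ nbN k S) : Disjoint S (R.biUnion k) ↔ Disjoint S (R'.biUnion k) := by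
  rw [nib_disj, nib_disj, disjoint_iff_inter_eq_empty, disjoint_iff_inter_eq_empty, inter_comm _ R,
    inter_comm _ R', h]

/-- probability that `S` survives -/
theorem nib_surv (k : A → Finset X) (g : A → ℝ) (S : Finset X) :
    Ex (hz g) (fun R => if Disjoint S (R.biUnion k) then 1 else 0)
      = Real.exp (-∑ a ∈ nbN k S, g a) := by
  rw [← Pr_eq, Pr_congr (nib_disj k S), Pr_disjoint]
  simp only [hz, sub_sub_cancel, ← Real.exp_sum, sum_neg_distrib]

/-- exponential moments for terms attached to disjoint sets -/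
theorem nib_exp {ι : Type} (k : A → Finset X) (hk : ∀ a, (k a).card ≤ 3) {g : A → ℝ}
    (hg : ∀ a, 0 ≤ g a) (J : Finset ι) (P : ι → Finset X)
    (hP : ∀ i ∈ J, ∀ j ∈ J, i ≠ j → Disjoint (P i) (P j)) (f : ι → Finset A → ℝ) (w : ι → ℝ)
    (hl : ∀ j ∈ J, Loc (nbN k (P j)) (f j)) (hw : ∀ j ∈ J, ∀ R R', |f j R - f j R'| ≤ w j)
    {W m th : ℝ} (hW0 : 0 ≤ W) (hW : ∀ j ∈ J, w j ≤ W)
    (hm : ∀ j ∈ J, ∑ a ∈ nbN k (P j), g a ≤ m) (hth : |th| * (3 * W) ≤ 1) :
    Ex (hz g) (fun R => Real.exp (th * ∑ j ∈ J, f j R))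
      ≤ Real.exp (th * ∑ j ∈ J, Ex (hz g) (f j) + th ^ 2 * (3 * W * (m * ∑ j ∈ J, w j))) := by
  classical
  have hw0 : ∀ j ∈ J, 0 ≤ w j := fun j hj => (abs_nonneg _).trans (hw j hj ∅ ∅)
  refine (nib_exp_sum (hz_isP hg) J (fun j => nbN k (P j)) f w hl hw (M := 3 * W) (fun a => ?_)
    hth).trans (Real.exp_le_exp.2 ?_)
  · have h1 : (J.filter fun j => a ∈ nbN k (P j)).card ≤ (k a).card := by
      refine card_le_card_of_forall_subsingleton (fun j x => x ∈ P j) (fun j hj => ?_) fun x _ => ?_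
      · obtain ⟨x, h1, h2⟩ := not_disjoint_iff.1 (mem_nbN.1 (mem_filter.1 hj).2)
        exact ⟨x, h2, h1⟩
      · intro i hi j hj
        by_contra hne
        exact disjoint_left.1 (hP i (mem_filter.1 hi.1).1 j (mem_filter.1 hj.1).1 hne) hi.2 hj.2
    have h3 : ((J.filter fun j => a ∈ nbN k (P j)).card : ℝ) ≤ 3 := by
      exact_mod_cast h1.trans (hk a)
    calc ∑ j ∈ J.filter (fun j => a ∈ nbN k (P j)), w j
        ≤ ∑ _j ∈ J.filter (fun j => a ∈ nbN k (P j)), W :=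
          sum_le_sum fun j hj => hW j (mem_filter.1 hj).1
      _ = (J.filter fun j => a ∈ nbN k (P j)).card * W := by simp
      _ ≤ 3 * W := mul_le_mul_of_nonneg_right h3 hW0
  · have h1 : ∑ j ∈ J, w j * ∑ a ∈ nbN k (P j), hz g a ≤ m * ∑ j ∈ J, w j := by
      rw [mul_sum]
      refine sum_le_sum fun j hj => ?_
      rw [mul_comm m]
      exact mul_le_mul_of_nonneg_left ((sum_le_sum fun a _ => nib_hz_le g a).trans (hm j hj)) (hw0 j hj)
    have h2 := mul_le_mul_of_nonneg_left (mul_le_mul_of_nonneg_left h1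
      (show 0 ≤ 3 * W by positivity)) (sq_nonneg th)
    linarith

/-- two chosen sets rarely meet -/
theorem nib_conf [Fintype X] (k : A → Finset X) {g : A → ℝ} (hg : ∀ a, 0 ≤ g a) {ε : ℝ}
    (hm : ∀ x, ∑ a ∈ nbN k {x}, g a ≤ ε) :
    Pr (hz g) (fun R => ∃ a ∈ R, ∃ b ∈ R, a ≠ b ∧ ¬ Disjoint (k a) (k b))
      ≤ Fintype.card X * ε ^ 2 := by
  have hp := hz_isP hg
  have h1 := Pr_exists_le' hp (univ : Finset X)
    (fun x R => ∃ q ∈ (nbN k {x}).offDiag, ({q.1, q.2} : Finset A) ⊆ R) (δ := ε ^ 2) ?_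
  · refine le_trans (Pr_mono hp ?_) (by simpa using h1)
    rintro R ⟨a, ha, b, hb, hab, h⟩
    obtain ⟨x, xa, xb⟩ := not_disjoint_iff.1 h
    refine ⟨x, a, b, ⟨mem_nbN_one.2 xa, mem_nbN_one.2 xb, hab⟩, ?_⟩
    exact insert_subset_iff.2 ⟨ha, singleton_subset_iff.2 hb⟩
  · intro x _
    refine (Pr_exists_le hp _ _).trans ?_
    have h0 : 0 ≤ ∑ a ∈ nbN k {x}, g a := sum_nonneg fun a _ => hg a
    calc ∑ q ∈ (nbN k {x}).offDiag, Pr (hz g) (fun R => ({q.1, q.2} : Finset A) ⊆ R)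
        ≤ ∑ q ∈ (nbN k {x}).offDiag, g q.1 * g q.2 := by
          refine sum_le_sum fun q hq => ?_
          rw [Pr_subset, prod_pair (mem_offDiag.1 hq).2.2]
          exact mul_le_mul (nib_hz_le g _) (nib_hz_le g _) (hp _).1 (hg _)
      _ ≤ ∑ q ∈ nbN k {x} ×ˢ nbN k {x}, g q.1 * g q.2 :=
          sum_le_sum_of_subset_of_nonneg
            (fun q hq => mem_product.2 ⟨(mem_offDiag.1 hq).1, (mem_offDiag.1 hq).2.1⟩)
            fun q _ _ => mul_nonneg (hg _) (hg _)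
      _ = (∑ a ∈ nbN k {x}, g a) ^ 2 := by rw [sq, sum_mul_sum, sum_product]
      _ ≤ ε ^ 2 := pow_le_pow_left₀ h0 (hm x) 2

end Pool.Agent.P.MP_224820_co.St
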