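import Pool.Agent.P.MP_224820_co.St.NibA

/-! One round of the nibble in a linear system of triples, with waste coins. -/

set_option autoImplicit false

namespace Pool.Agent.P.MP_224820_co.St

open Finset

variable {X I : Type} [Fintype X] [DecidableEq X] [Fintype I] [DecidableEq I]

/-- weight of the triples at `x` whose other points lie in `A` -/
noncomputable def nbD (H : Finset I) (s : I → Finset X) (om : I → ℝ) (A : Finset X) (x : X) : ℝ :=
  ∑ t ∈ H.filter (fun t => x ∈ s t ∧ (s t).erase x ⊆ A), om t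

/-- the points removed by a triple or by a coin -/
def nbK (H : Finset I) (s : I → Finset X) (A : Finset X) : I ⊕ X → Finset X :=
  Sum.elim (fun t => if t ∈ H ∧ s t ⊆ A then s t else ∅) (fun x => {x})

/-- hazards of one round -/
noncomputable def nbG (H : Finset I) (s : I → Finset X) (om : I → ℝ) (A : Finset X) (θ ε : ℝ) :
    I ⊕ X → ℝ :=
  Sum.elim (fun t => if t ∈ H ∧ s t ⊆ A then θ * om t else 0)
    (fun x => if x ∈ A then ε - θ * nbD H s om A x else 0)

/-- linear systems of triples with weights at most `W` -/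
structure NbSys (H : Finset I) (s : I → Finset X) (om : I → ℝ) (W : ℝ) : Prop where
  c3 : ∀ t ∈ H, (s t).card = 3
  lin : ∀ t ∈ H, ∀ t' ∈ H, ∀ x y, x ≠ y → x ∈ s t → y ∈ s t → x ∈ s t' → y ∈ s t' → t = t'
  w0 : ∀ t ∈ H, 0 ≤ om t
  w1 : ∀ t ∈ H, om t ≤ W
  W0 : 0 ≤ W

variable {H : Finset I} {s : I → Finset X} {om : I → ℝ} {W : ℝ} {A : Finset X} {θ ε : ℝ}

omit [Fintype X] [Fintype I] [DecidableEq I] in
theorem nbD_nonneg (h : NbSys H s om W) (A : Finset X) (x : X) : 0 ≤ nbD H s om A x :=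
  sum_nonneg fun t ht => h.w0 t (mem_filter.1 ht).1

omit [Fintype X] [Fintype I] in
theorem nbK_card (h : NbSys H s om W) (A : Finset X) (a : I ⊕ X) : (nbK H s A a).card ≤ 3 := by
  rcases a with t | x
  · simp only [nbK, Sum.elim_inl]
    split_ifs with ht
    · exact (h.c3 t ht.1).le
    · simp
  · simp [nbK]

omit [Fintype X] [Fintype I] in
theorem nbG_nonneg (h : NbSys H s om W) (hθ : 0 ≤ θ) (hd : ∀ x ∈ A, θ * nbD H s om A x ≤ ε)
    (a : I ⊕ X) : 0 ≤ nbG H s om A θ ε a := by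
  rcases a with t | x
  · simp only [nbG, Sum.elim_inl]
    split_ifs with ht
    · exact mul_nonneg hθ (h.w0 t ht.1)
    · exact le_rfl
  · simp only [nbG, Sum.elim_inr]
    split_ifs with hx
    · exact sub_nonneg.2 (hd x hx)
    · exact le_rfl

theorem nbG_one (x : X) :
    ∑ a ∈ nbN (nbK H s A) {x}, nbG H s om A θ ε a = if x ∈ A then ε else 0 := by
  rw [nbN, sum_filter, Fintype.sum_sum_type]
  simp only [disjoint_singleton_left, not_not, nbK, nbG, Sum.elim_inl, Sum.elim_inr, mem_singleton]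
  rw [sum_ite_eq]
  simp only [mem_univ, if_true]
  split_ifs with hx
  · have : ∑ t, (if x ∈ (if t ∈ H ∧ s t ⊆ A then s t else ∅) then
        (if t ∈ H ∧ s t ⊆ A then θ * om t else 0) else 0) = θ * nbD H s om A x := by
      have e : H.filter (fun t => x ∈ s t ∧ (s t).erase x ⊆ A)
          = univ.filter fun t => (t ∈ H ∧ s t ⊆ A) ∧ x ∈ s t := by
        ext t
        simp only [mem_filter, mem_univ, true_and]
        constructor
        · rintro ⟨h1, h2, h3⟩
          refine ⟨⟨h1, fun y hy => ?_⟩, h2⟩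
          by_cases e : y = x
          · exact e ▸ hx
          · exact h3 (mem_erase.2 ⟨e, hy⟩)
        · rintro ⟨⟨h1, h3⟩, h2⟩
          exact ⟨h1, h2, (erase_subset _ _).trans h3⟩
      rw [nbD, e, mul_sum, sum_filter]
      refine sum_congr rfl fun t _ => ?_
      by_cases h1 : t ∈ H ∧ s t ⊆ A
      · simp [h1]
      · simp [h1]
    rw [this]; ring
  · rw [add_zero]
    refine sum_eq_zero fun t _ => ?_
    by_cases h1 : t ∈ H ∧ s t ⊆ A
    · have : x ∉ s t := fun h => hx (h1.2 h)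
      simp [h1, this]
    · simp [h1]

/-- the hazard on the two other points of a triple -/
theorem nbG_two (h : NbSys H s om W) (hθ : 0 ≤ θ) (hd : ∀ x ∈ A, θ * nbD H s om A x ≤ ε)
    {t : I} (ht : t ∈ H) {x : X} (hx : x ∈ s t) (hA : (s t).erase x ⊆ A) :
    2 * ε - θ * W ≤ ∑ a ∈ nbN (nbK H s A) ((s t).erase x), nbG H s om A θ ε a ∧
      ∑ a ∈ nbN (nbK H s A) ((s t).erase x), nbG H s om A θ ε a ≤ 2 * ε := by
  have h2 : ((s t).erase x).card = 2 := by rw [card_erase_of_mem hx, h.c3 t ht]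
  obtain ⟨y, z, hyz, e⟩ := card_eq_two.1 h2
  have hy : y ∈ (s t).erase x := by rw [e]; simp
  have hz : z ∈ (s t).erase x := by rw [e]; simp
  have g0 := nbG_nonneg h hθ hd
  have h3 := sum_union_inter (s₁ := nbN (nbK H s A) {y}) (s₂ := nbN (nbK H s A) {z})
    (f := nbG H s om A θ ε)
  rw [nbG_one, nbG_one, if_pos (hA hy), if_pos (hA hz), ← nbN_pair, ← e] at h3
  have h4 : 0 ≤ ∑ a ∈ nbN (nbK H s A) {y} ∩ nbN (nbK H s A) {z}, nbG H s om A θ ε a :=
    sum_nonneg fun a _ => g0 a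
  have h5 : nbN (nbK H s A) {y} ∩ nbN (nbK H s A) {z} ⊆ {Sum.inl t} := by
    intro a ha
    obtain ⟨a1, a2⟩ := mem_inter.1 ha
    rw [mem_nbN_one] at a1 a2
    rcases a with u | u
    · simp only [nbK, Sum.elim_inl] at a1 a2
      split_ifs at a1 a2 with hu
      · rw [h.lin u hu.1 t ht y z hyz a1 a2 (mem_of_mem_erase hy) (mem_of_mem_erase hz)]
        exact mem_singleton_self _
      · simp at a1
    · simp only [nbK, Sum.elim_inr, mem_singleton] at a1 a2
      exact absurd (a1.trans a2.symm) hyz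
  have h6 := sum_le_sum_of_subset_of_nonneg h5 fun a _ _ => g0 a
  rw [sum_singleton] at h6
  have h7 : nbG H s om A θ ε (Sum.inl t) ≤ θ * W := by
    simp only [nbG, Sum.elim_inl]
    split_ifs
    · exact mul_le_mul_of_nonneg_left (h.w1 t ht) hθ
    · exact mul_nonneg hθ h.W0
  constructor <;> linarith

/-- weighted degrees after one round -/
theorem nib_deg (h : NbSys H s om W) {d d' η ρ th : ℝ} (hε : 0 < ε) (hε4 : ε ≤ 1 / 4)
    (hη0 : 0 ≤ η) (hη : η ≤ 1 / 4) (hd0 : 0 < d) (hdd : d' = d * Real.exp (-(2 * ε)))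
    (hρ : W ≤ ρ * d') (hερ : ε * ρ ≤ 1) (hth : |th| * (3 * ρ) ≤ 1) (hθ : θ = ε / ((1 + η) * d))
    (hA : ∀ x ∈ A, nbD H s om A x ≤ (1 + η) * d) {x : X} (hx : nbD H s om A x ≤ (1 + η) * d) :
    Ex (hz (nbG H s om A θ ε))
        (fun R => Real.exp (th * (nbD H s om (A \ R.biUnion (nbK H s A)) x / d')))
      ≤ Real.exp (th * (nbD H s om A x / d) + (th ^ 2 * (15 * ε * ρ) + |th| * (2 * ε * ρ))) := by
  have e0 := Real.exp_pos (-(2 * ε))
  have e1 : Real.exp (-(2 * ε)) ≤ 1 := Real.exp_le_one_iff.2 (by linarith)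
  have e2 : 1 / 2 ≤ Real.exp (-(2 * ε)) := by linarith [Real.add_one_le_exp (-(2 * ε))]
  have hd' : 0 < d' := by rw [hdd]; positivity
  have hdd' : d' ≤ d := by rw [hdd]; nlinarith
  have hdd2 : d ≤ 2 * d' := by rw [hdd]; nlinarith
  have hρ0 : 0 ≤ ρ := by
    by_contra hn
    have := mul_neg_of_neg_of_pos (not_le.1 hn) hd'
    linarith [h.W0]
  have hθ0 : 0 ≤ θ := by rw [hθ]; positivity
  have hθd : θ * ((1 + η) * d) = ε := by rw [hθ]; field_simp
  have hd : ∀ y ∈ A, θ * nbD H s om A y ≤ ε := fun y hy =>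
    (mul_le_mul_of_nonneg_left (hA y hy) hθ0).trans hθd.le
  have hθW : (1 + η) * (θ * W) ≤ ε * ρ := by
    have h1 : W ≤ ρ * d := hρ.trans (mul_le_mul_of_nonneg_left hdd' hρ0)
    calc (1 + η) * (θ * W) ≤ (1 + η) * (θ * (ρ * d)) := by gcongr
      _ = ε * ρ := by rw [← hθd]; ring
  have hθW0 : 0 ≤ θ * W := mul_nonneg hθ0 h.W0
  have hθW1 : θ * W ≤ 1 := by nlinarith
  have g0 := nbG_nonneg h hθ0 hd
  set J := H.filter (fun t => x ∈ s t ∧ (s t).erase x ⊆ A) with hJ
  set k := nbK H s A with hk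
  set g := nbG H s om A θ ε with hg
  have hJ' : ∀ t ∈ J, t ∈ H ∧ x ∈ s t ∧ (s t).erase x ⊆ A := fun t ht => mem_filter.1 ht
  have hw0 : ∀ t ∈ J, 0 ≤ om t / d' := fun t ht => div_nonneg (h.w0 t (hJ' t ht).1) hd'.le
  have hD : nbD H s om A x = ∑ t ∈ J, om t := rfl
  have hD0 := nbD_nonneg h A x
  have e3 : ∀ R : Finset (I ⊕ X), nbD H s om (A \ R.biUnion k) x / d' =
      ∑ t ∈ J, om t / d' * (if Disjoint ((s t).erase x) (R.biUnion k) then 1 else 0) := by
    intro R
    have e : H.filter (fun t => x ∈ s t ∧ (s t).erase x ⊆ A \ R.biUnion k)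
        = J.filter fun t => Disjoint ((s t).erase x) (R.biUnion k) := by
      rw [hJ, filter_filter]
      exact filter_congr fun t _ => by rw [subset_sdiff, and_assoc]
    rw [nbD, e, sum_filter, sum_div]
    refine sum_congr rfl fun t _ => ?_
    split_ifs <;> simp
  have h1 := nib_exp k (nbK_card h A) g0 J (fun t => (s t).erase x) ?_
    (fun t R => om t / d' * (if Disjoint ((s t).erase x) (R.biUnion k) then 1 else 0))
    (fun t => om t / d') ?_ ?_ (W := ρ) (m := 2 * ε) (th := th) hρ0 ?_ ?_ hth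
  · rw [Ex_congr fun R => by rw [e3 R]]
    refine h1.trans (Real.exp_le_exp.2 ?_)
    have h2 : ∀ t ∈ J, om t / d ≤ Ex (hz g)
        (fun R => om t / d' * (if Disjoint ((s t).erase x) (R.biUnion k) then 1 else 0)) ∧
        Ex (hz g) (fun R => om t / d' * (if Disjoint ((s t).erase x) (R.biUnion k) then 1 else 0))
          ≤ om t / d * (1 + 2 * (θ * W)) := by
      intro t ht
      obtain ⟨t1, t2, t3⟩ := hJ' t ht
      obtain ⟨b1, b2⟩ := nbG_two h hθ0 hd t1 t2 t3
      rw [Ex_mul, nib_surv]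
      have c1 : om t / d = om t / d' * Real.exp (-(2 * ε)) := by rw [hdd]; field_simp
      have c2 : Real.exp (-(2 * ε)) ≤ Real.exp (-∑ a ∈ nbN k ((s t).erase x), g a) :=
        Real.exp_le_exp.2 (by linarith)
      have c3 : Real.exp (-∑ a ∈ nbN k ((s t).erase x), g a)
          ≤ Real.exp (-(2 * ε)) * Real.exp (θ * W) := by
        rw [← Real.exp_add]; exact Real.exp_le_exp.2 (by linarith)
      have c4 : Real.exp (θ * W) ≤ 1 + 2 * (θ * W) := by
        have := Real.abs_exp_sub_one_le (x := θ * W) (by rw [abs_of_nonneg hθW0]; exact hθW1)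
        rw [abs_of_nonneg hθW0] at this
        linarith [(abs_le.1 this).2]
      refine ⟨c1 ▸ mul_le_mul_of_nonneg_left c2 (hw0 t ht), ?_⟩
      rw [c1, mul_assoc]
      exact mul_le_mul_of_nonneg_left (c3.trans (mul_le_mul_of_nonneg_left c4 e0.le)) (hw0 t ht)
    have h3 := sum_le_sum fun t ht => (h2 t ht).1
    have h4 := sum_le_sum fun t ht => (h2 t ht).2
    rw [← sum_div, ← hD] at h3
    rw [← sum_mul, ← sum_div, ← hD] at h4
    rw [← sum_div, ← hD]
    set E := ∑ t ∈ J, Ex (hz g)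
      (fun R => om t / d' * (if Disjoint ((s t).erase x) (R.biUnion k) then 1 else 0))
    set D := nbD H s om A x
    have h5 : D / d ≤ 1 + η := by rwa [div_le_iff₀ hd0]
    have h6 : D / d' ≤ 5 / 2 := by rw [div_le_iff₀ hd']; nlinarith
    have h7 : |E - D / d| ≤ 2 * ε * ρ := by
      rw [abs_of_nonneg (by linarith)]
      nlinarith [mul_le_mul_of_nonneg_right h5 hθW0]
    have h8 : th * (E - D / d) ≤ |th| * (2 * ε * ρ) := by
      refine (le_abs_self _).trans ?_
      rw [abs_mul]; exact mul_le_mul_of_nonneg_left h7 (abs_nonneg _)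
    have h9 : 3 * ρ * (2 * ε * (D / d')) ≤ 15 * ε * ρ := by
      nlinarith [mul_le_mul_of_nonneg_left h6 (mul_nonneg hε.le hρ0)]
    nlinarith [mul_le_mul_of_nonneg_left h9 (sq_nonneg th)]
  · intro t ht t' ht' hne
    refine disjoint_left.2 fun y a b => hne ?_
    exact h.lin t (hJ' t ht).1 t' (hJ' t' ht').1 y x (mem_erase.1 a).1 (mem_erase.1 a).2
      (hJ' t ht).2.1 (mem_erase.1 b).2 (hJ' t' ht').2.1
  · intro t _ R R' hR
    simp only [nib_loc k _ hR]
  · intro t ht R R'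
    have := hw0 t ht
    split_ifs <;> simp [abs_of_nonneg, this]
  · intro t ht
    rw [div_le_iff₀ hd']
    exact (h.w1 t (hJ' t ht).1).trans hρ
  · intro t ht
    obtain ⟨t1, t2, t3⟩ := hJ' t ht
    exact (nbG_two h hθ0 hd t1 t2 t3).2

/-- test sets after one round -/
theorem nib_test (h : NbSys H s om W) {d η a a' mu y : ℝ} (hε : 0 < ε)
    (hη0 : 0 ≤ η) (hd0 : 0 < d) (hθ : θ = ε / ((1 + η) * d))
    (hA : ∀ x ∈ A, |nbD H s om A x - d| ≤ η * d) (ha0 : 0 ≤ a') (ha2 : a' ≤ 2)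
    (ha : a' * Real.exp (-ε) + 2 * ε * η ≤ a) (hmu : 0 ≤ mu) (hmu6 : mu * 6 ≤ 1) (Y : Finset X)
    (hy : ((A ∩ Y).card : ℝ) ≤ y) :
    Ex (hz (nbG H s om A θ ε)) (fun R => Real.exp (mu *
        (a' * ((A \ R.biUnion (nbK H s A)) ∩ Y).card + ((A ∩ Y).filter fun x => Sum.inr x ∈ R).card)))
      ≤ Real.exp (mu * (a * (A ∩ Y).card) + mu ^ 2 * (12 * ε * y)) := by
  have hθ0 : 0 ≤ θ := by rw [hθ]; positivity
  have hθd : θ * ((1 + η) * d) = ε := by rw [hθ]; field_simp
  have hd : ∀ x ∈ A, θ * nbD H s om A x ≤ ε := fun x hx => by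
    have := (abs_le.1 (hA x hx)).2
    exact (mul_le_mul_of_nonneg_left (by linarith) hθ0).trans hθd.le
  have g0 := nbG_nonneg h hθ0 hd
  set k := nbK H s A with hk
  set g := nbG H s om A θ ε with hg
  have hin : ∀ x, (Sum.inr x : I ⊕ X) ∈ nbN k {x} := fun x => by
    rw [mem_nbN_one]; simp [hk, nbK]
  have e3 : ∀ R : Finset (I ⊕ X), a' * ((A \ R.biUnion k) ∩ Y).card +
      (((A ∩ Y).filter fun x => Sum.inr x ∈ R).card : ℝ) = ∑ x ∈ A ∩ Y,
        (a' * (if Disjoint {x} (R.biUnion k) then 1 else 0) + if Sum.inr x ∈ R then 1 else 0) := by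
    intro R
    have e : (A \ R.biUnion k) ∩ Y = (A ∩ Y).filter fun x => Disjoint {x} (R.biUnion k) := by
      ext x
      simp only [mem_inter, mem_sdiff, mem_filter, disjoint_singleton_left]
      tauto
    rw [e, sum_add_distrib, ← mul_sum, sum_boole, sum_boole]
  have hf : ∀ x, ∀ R : Finset (I ⊕ X), 0 ≤ a' * (if Disjoint {x} (R.biUnion k) then (1 : ℝ) else 0) +
      (if Sum.inr x ∈ R then 1 else 0) ∧ a' * (if Disjoint {x} (R.biUnion k) then (1 : ℝ) else 0) +
      (if Sum.inr x ∈ R then 1 else 0) ≤ 2 := by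
    intro x R
    by_cases h1 : Sum.inr x ∈ R
    · have : ¬ Disjoint {x} (R.biUnion k) := by
        rw [nib_disj]; exact not_disjoint_iff.2 ⟨_, hin x, h1⟩
      rw [if_neg this, if_pos h1]; norm_num
    · rw [if_neg h1]
      split_ifs <;> constructor <;> linarith
  have h1 := nib_exp k (nbK_card h A) g0 (A ∩ Y) (fun x => {x}) ?_
    (fun x R => a' * (if Disjoint {x} (R.biUnion k) then 1 else 0) + if Sum.inr x ∈ R then 1 else 0)
    (fun _ => 2) ?_ ?_ (W := 2) (m := ε) (th := mu) (by norm_num) (fun _ _ => le_rfl) ?_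
    (by rw [abs_of_nonneg hmu]; linarith)
  · rw [Ex_congr fun R => by rw [e3 R]]
    refine h1.trans (Real.exp_le_exp.2 ?_)
    have h2 : ∀ x ∈ A ∩ Y, Ex (hz g) (fun R => a' * (if Disjoint {x} (R.biUnion k) then 1 else 0) +
        if Sum.inr x ∈ R then 1 else 0) ≤ a := by
      intro x hx
      have xA := (mem_inter.1 hx).1
      rw [Ex_add, Ex_mul, nib_surv, ← Pr_eq, Pr_mem, nbG_one, if_pos xA]
      have c1 := nib_hz_le g (Sum.inr x)
      have c2 : g (Sum.inr x) = ε - θ * nbD H s om A x := by simp [hg, nbG, xA]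
      have c3 := mul_le_mul_of_nonneg_left (abs_le.1 (hA x xA)).1 hθ0
      have c4 : 0 ≤ θ * d * η * η := by positivity
      nlinarith
    have h3 := sum_le_sum h2
    simp only [sum_const, nsmul_eq_mul] at h3 ⊢
    have h4 := mul_le_mul_of_nonneg_left h3 hmu
    have h5 := mul_le_mul_of_nonneg_left (mul_le_mul_of_nonneg_left hy hε.le) (sq_nonneg mu)
    nlinarith
  · intro x _ z _ hne
    simpa using hne
  · intro x _ R R' hR
    have : Sum.inr x ∈ R ↔ Sum.inr x ∈ R' := by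
      have := Finset.ext_iff.1 hR (Sum.inr x)
      simpa [hin x] using this
    simp only [nib_loc k _ hR, this]
  · intro x _ R R'
    obtain ⟨b1, b2⟩ := hf x R
    obtain ⟨b3, b4⟩ := hf x R'
    rw [abs_le]; constructor <;> linarith
  · intro x hx
    rw [nbG_one, if_pos (mem_inter.1 hx).1]

end Pool.Agent.P.MP_224820_co.St
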