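import Pool.Agent.P.MP_224820_co.St.NibB
import Pool.Agent.P.MP_224820_co.St.Jensen

/-! The nibble in a linear system of triples: many small rounds and one potential. -/

set_option autoImplicit false

namespace Pool.Agent.P.MP_224820_co.St

open Finset

variable {X I : Type} [Fintype X] [DecidableEq X] [Fintype I] [DecidableEq I] {ι : Type}

/-- `R` contains disjoint triples inside `A` that leave few points in every test set -/
def nbOk (H : Finset I) (s : I → Finset X) (J : Finset ι) (Y : ι → Finset X) (A : Finset X)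
    (r : ι → ℝ) (R : Finset I) : Prop :=
  ∃ K ⊆ R, (∀ t ∈ K, t ∈ H ∧ s t ⊆ A) ∧ (∀ t ∈ K, ∀ t' ∈ K, t ≠ t' → Disjoint (s t) (s t')) ∧
    ∀ j ∈ J, (((A \ K.biUnion s) ∩ Y j).card : ℝ) ≤ r j

variable {H : Finset I} {s : I → Finset X} {om : I → ℝ} {W : ℝ} {J : Finset ι} {Y : ι → Finset X}

omit [Fintype X] [Fintype I] [DecidableEq I] in
theorem nbOk_incr (A : Finset X) (r : ι → ℝ) : Incr (nbOk H s J Y A r) := by
  rintro R R' h ⟨K, h1, h2⟩
  exact ⟨K, h1.trans h, h2⟩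

omit [Fintype X] [Fintype I] in
theorem nbOk_step {A : Finset X} {r : ι → ℝ} {Q : Finset (I ⊕ X)} {R : Finset I}
    (hQ : ¬ ∃ a ∈ Q, ∃ b ∈ Q, a ≠ b ∧ ¬ Disjoint (nbK H s A a) (nbK H s A b))
    (h : nbOk H s J Y (A \ Q.biUnion (nbK H s A))
      (fun j => r j - ((A ∩ Y j).filter fun x => Sum.inr x ∈ Q).card) R) :
    nbOk H s J Y A r (Q.toLeft ∪ R) := by
  obtain ⟨K, k1, k2, k3, k4⟩ := h
  set Q1 := Q.toLeft.filter fun t => t ∈ H ∧ s t ⊆ A with hQ1
  have q1 : ∀ t ∈ Q1, Sum.inl t ∈ Q ∧ (t ∈ H ∧ s t ⊆ A) ∧ nbK H s A (Sum.inl t) = s t := by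
    intro t ht
    obtain ⟨a, b⟩ := mem_filter.1 ht
    exact ⟨mem_toLeft.1 a, b, by simp [nbK, b]⟩
  have q2 : ∀ t ∈ Q1, ∀ t' ∈ K, Disjoint (s t) (s t') := by
    intro t ht t' ht'
    refine disjoint_left.2 fun x a b => (mem_sdiff.1 ((k2 t' ht').2 b)).2 ?_
    exact mem_biUnion.2 ⟨_, (q1 t ht).1, (q1 t ht).2.2.symm ▸ a⟩
  refine ⟨Q1 ∪ K, union_subset_union (filter_subset _ _) k1, fun t ht => ?_,
    fun t ht t' ht' hne => ?_, fun j hj => ?_⟩
  · rcases mem_union.1 ht with ht | ht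
    · exact (q1 t ht).2.1
    · exact ⟨(k2 t ht).1, (k2 t ht).2.trans sdiff_subset⟩
  · rcases mem_union.1 ht with ht | ht <;> rcases mem_union.1 ht' with ht' | ht'
    · by_contra hn
      refine hQ ⟨_, (q1 t ht).1, _, (q1 t' ht').1, by simpa using hne, ?_⟩
      rwa [(q1 t ht).2.2, (q1 t' ht').2.2]
    · exact q2 t ht t' ht'
    · exact (q2 t' ht' t ht).symm
    · exact k3 t ht t' ht' hne
  · have h1 : (A \ (Q1 ∪ K).biUnion s) ∩ Y j ⊆
        (((A \ Q.biUnion (nbK H s A)) \ K.biUnion s) ∩ Y j) ∪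
          (A ∩ Y j).filter fun x => Sum.inr x ∈ Q := by
      intro x hx
      obtain ⟨x1, x3⟩ := mem_inter.1 hx
      obtain ⟨x1, x2⟩ := mem_sdiff.1 x1
      by_cases hq : Sum.inr x ∈ Q
      · exact mem_union_right _ (mem_filter.2 ⟨mem_inter.2 ⟨x1, x3⟩, hq⟩)
      · refine mem_union_left _ (mem_inter.2 ⟨mem_sdiff.2 ⟨mem_sdiff.2 ⟨x1, fun hk => ?_⟩,
          fun hk => x2 ?_⟩, x3⟩)
        · obtain ⟨a, a1, a2⟩ := mem_biUnion.1 hk
          rcases a with t | z
          · simp only [nbK, Sum.elim_inl] at a2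
            split_ifs at a2 with ht
            · exact x2 (mem_biUnion.2
                ⟨t, mem_union_left _ (mem_filter.2 ⟨mem_toLeft.2 a1, ht⟩), a2⟩)
            · simp at a2
          · simp only [nbK, Sum.elim_inr, mem_singleton] at a2
            exact hq (a2 ▸ a1)
        · obtain ⟨t, t1, t2⟩ := mem_biUnion.1 hk
          exact mem_biUnion.2 ⟨t, mem_union_right _ t1, t2⟩
    have h2 : (((A \ (Q1 ∪ K).biUnion s) ∩ Y j).card : ℝ) ≤
        (((A \ Q.biUnion (nbK H s A)) \ K.biUnion s) ∩ Y j).card +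
          ((A ∩ Y j).filter fun x => Sum.inr x ∈ Q).card := by
      exact_mod_cast (card_le_card h1).trans (card_union_le _ _)
    have h3 := k4 j hj
    simp only at h3
    linarith

/-- the potential -/
noncomputable def nbPhi (H : Finset I) (s : I → Finset X) (om : I → ℝ) (G : Finset X)
    (J : Finset ι) (Y : ι → Finset X) (lam mu d a c : ℝ) (b : ι → ℝ) (A : Finset X) (r : ι → ℝ) : ℝ :=
  ∑ x ∈ G, (Real.exp (lam * (nbD H s om A x / d) + (-lam + c)) +
      Real.exp (-lam * (nbD H s om A x / d) + (lam + c))) +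
    ∑ j ∈ J, Real.exp (mu * (a * (A ∩ Y j).card) + (-(mu * r j) + b j))

omit [Fintype X] [Fintype I] [DecidableEq I] in
theorem nbPhi_nonneg (G : Finset X) (lam mu d a c : ℝ) (b : ι → ℝ) (A : Finset X) (r : ι → ℝ) :
    0 ≤ nbPhi H s om G J Y lam mu d a c b A r :=
  add_nonneg (sum_nonneg fun _ _ => add_nonneg (Real.exp_pos _).le (Real.exp_pos _).le)
    (sum_nonneg fun _ _ => (Real.exp_pos _).le)

omit [Fintype X] [Fintype I] [DecidableEq I] in
theorem nbPhi_lt {G : Finset X} {lam mu d a c : ℝ} {b : ι → ℝ} {A : Finset X} {r : ι → ℝ}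
    (h : nbPhi H s om G J Y lam mu d a c b A r < 1) :
    (∀ x ∈ G, lam * |nbD H s om A x / d - 1| + c < 0) ∧
      ∀ j ∈ J, mu * (a * (A ∩ Y j).card - r j) + b j < 0 := by
  unfold nbPhi at h
  have p1 : 0 ≤ ∑ x ∈ G, (Real.exp (lam * (nbD H s om A x / d) + (-lam + c)) +
      Real.exp (-lam * (nbD H s om A x / d) + (lam + c))) := by positivity
  have p2 : 0 ≤ ∑ j ∈ J, Real.exp (mu * (a * (A ∩ Y j).card) + (-(mu * r j) + b j)) := by
    positivity
  constructor
  · intro x hx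
    have h1 := single_le_sum (f := fun x => Real.exp (lam * (nbD H s om A x / d) + (-lam + c)) +
      Real.exp (-lam * (nbD H s om A x / d) + (lam + c))) (fun x _ => by positivity) hx
    have h2 := Real.exp_pos (lam * (nbD H s om A x / d) + (-lam + c))
    have h3 := Real.exp_pos (-lam * (nbD H s om A x / d) + (lam + c))
    have h4 := Real.exp_lt_one_iff.1
      (show Real.exp (lam * (nbD H s om A x / d) + (-lam + c)) < 1 by linarith)
    have h5 := Real.exp_lt_one_iff.1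
      (show Real.exp (-lam * (nbD H s om A x / d) + (lam + c)) < 1 by linarith)
    rcases abs_cases (nbD H s om A x / d - 1) with e | e <;> rw [e.1] <;> linarith
  · intro j hj
    have h1 := single_le_sum
      (f := fun j => Real.exp (mu * (a * (A ∩ Y j).card) + (-(mu * r j) + b j)))
      (fun x _ => by positivity) hj
    have h4 := Real.exp_lt_one_iff.1
      (show Real.exp (mu * (a * (A ∩ Y j).card) + (-(mu * r j) + b j)) < 1 by linarith)
    linarith

omit [Fintype X] [DecidableEq X] in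
theorem nib_shift {p : I → ℝ} {f : Finset I → ℝ} {u c : ℝ}
    (h : Ex p (fun R => Real.exp (f R)) ≤ Real.exp u) :
    Ex p (fun R => Real.exp (f R + c)) ≤ Real.exp (u + c) := by
  rw [Ex_congr (g := fun R => Real.exp c * Real.exp (f R)) fun R => by rw [Real.exp_add, mul_comm],
    Ex_mul, Real.exp_add, mul_comm]
  exact mul_le_mul_of_nonneg_right h (Real.exp_pos c).le

/-- the potential does not grow in one round -/
theorem nbPhi_step (h : NbSys H s om W) {G A : Finset X} (hAG : A ⊆ G) {y : ι → ℝ}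
    (hy : ∀ j ∈ J, ((G ∩ Y j).card : ℝ) ≤ y j) {ε η ρ lam mu d d' a a' θ c : ℝ} {b r : ι → ℝ}
    (hε : 0 < ε) (hε4 : ε ≤ 1 / 4) (hη0 : 0 ≤ η) (hη : η ≤ 1 / 4) (hερ : ε * ρ ≤ 1) (hl0 : 0 < lam)
    (hl : lam * (3 * ρ) ≤ 1) (hm0 : 0 < mu) (hm : mu * 6 ≤ 1) (hd0 : 0 < d)
    (hdd : d' = d * Real.exp (-(2 * ε))) (hρ : W ≤ ρ * d') (ha0 : 0 ≤ a') (ha2 : a' ≤ 2)
    (ha : a' * Real.exp (-ε) + 2 * ε * η ≤ a) (hθ : θ = ε / ((1 + η) * d))
    (hG : ∀ x ∈ G, |nbD H s om A x - d| ≤ η * d) :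
    Ex (hz (nbG H s om A θ ε)) (fun Q => nbPhi H s om G J Y lam mu d' a' c b
        (A \ Q.biUnion (nbK H s A))
        (fun j => r j - ((A ∩ Y j).filter fun x => Sum.inr x ∈ Q).card))
      ≤ nbPhi H s om G J Y lam mu d a (c + (lam ^ 2 * (15 * ε * ρ) + lam * (2 * ε * ρ)))
        (fun j => b j + mu ^ 2 * (12 * ε * y j)) A r := by
  have hG' : ∀ x ∈ G, nbD H s om A x ≤ (1 + η) * d := fun x hx => by
    linarith [(abs_le.1 (hG x hx)).2]
  unfold nbPhi
  rw [Ex_add, Ex_sum, Ex_sum]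
  refine add_le_add (sum_le_sum fun x hx => ?_) (sum_le_sum fun j hj => ?_)
  · rw [Ex_add]
    have h1 := nib_deg h hε hε4 hη0 hη hd0 hdd hρ hερ (th := lam) (by rwa [abs_of_pos hl0]) hθ
      (fun x hx => hG' x (hAG hx)) (hG' x hx)
    have h2 := nib_deg h hε hε4 hη0 hη hd0 hdd hρ hερ (th := -lam)
      (by rwa [abs_neg, abs_of_pos hl0]) hθ (fun x hx => hG' x (hAG hx)) (hG' x hx)
    rw [abs_of_pos hl0] at h1
    rw [abs_neg, abs_of_pos hl0] at h2
    refine add_le_add ((nib_shift h1).trans (le_of_eq ?_)) ((nib_shift h2).trans (le_of_eq ?_))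
    · congr 1; ring
    · congr 1; ring
  · have h0 : ((A ∩ Y j).card : ℝ) ≤ y j :=
      le_trans (by exact_mod_cast card_le_card (inter_subset_inter_right hAG)) (hy j hj)
    have h1 := nib_test h hε hη0 hd0 hθ (fun x hx => hG x (hAG hx)) ha0 ha2 ha hm0.le hm (Y j) h0
    refine le_trans (le_of_eq (Ex_congr fun Q => ?_))
      ((nib_shift (c := -(mu * r j) + b j) h1).trans (le_of_eq ?_))
    · congr 1; ring
    · congr 1; ring

/-- induction over the rounds -/
theorem nib_ind (h : NbSys H s om W) {G : Finset X} {y : ι → ℝ}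
    (hy : ∀ j ∈ J, ((G ∩ Y j).card : ℝ) ≤ y j) {ε η ρ lam mu : ℝ} {d a β : ℕ → ℝ}
    (hε : 0 < ε) (hε4 : ε ≤ 1 / 4) (hη0 : 0 ≤ η) (hη : η ≤ 1 / 4) (hρ0 : 0 ≤ ρ) (hερ : ε * ρ ≤ 1)
    (hl0 : 0 < lam)
    (hl : lam * (3 * ρ) ≤ 1) (hm0 : 0 < mu) (hm : mu * 6 ≤ 1) (hd0 : ∀ k, 0 < d k)
    (hdd : ∀ k, d k = d (k + 1) * Real.exp (-(2 * ε))) (hρ : ∀ k, W ≤ ρ * d k) (ha1 : 1 ≤ a 0)
    (ha0 : ∀ k, 0 ≤ a k) (ha2 : ∀ k, a k ≤ 2)
    (ha : ∀ k, a k * Real.exp (-ε) + 2 * ε * η ≤ a (k + 1)) (hβ0 : ∀ k, 0 ≤ β k)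
    (hβ : ∀ k, β k + ε / d (k + 1) ≤ β (k + 1)) (k : ℕ) : ∀ A ⊆ G, ∀ r : ι → ℝ,
    Pr (hz fun t => if t ∈ H then β k * om t else 0) (fun R => ¬ nbOk H s J Y A r R)
      ≤ nbPhi H s om G J Y lam mu (d k) (a k)
          (-(lam * η) + k * (lam ^ 2 * (15 * ε * ρ) + lam * (2 * ε * ρ)))
          (fun j => k * (mu ^ 2 * (12 * ε * y j))) A r + k * (Fintype.card X * ε ^ 2) := by
  classical
  have hb : ∀ k t, 0 ≤ (if t ∈ H then β k * om t else 0) := fun k t => by
    split_ifs with ht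
    · exact mul_nonneg (hβ0 k) (h.w0 t ht)
    · exact le_rfl
  induction k with
  | zero =>
    intro A hAG r
    simp only [Nat.cast_zero, zero_mul, add_zero]
    rcases le_or_gt 1 (nbPhi H s om G J Y lam mu (d 0) (a 0) (-(lam * η)) (fun _ => 0) A r)
      with h1 | h1
    · exact (Pr_le_one (hz_isP (hb 0)) _).trans h1
    · rw [Pr_false]
      · exact nbPhi_nonneg _ _ _ _ _ _ _ _ _
      · intro R
        rw [not_not]
        refine ⟨∅, empty_subset _, fun t ht => absurd ht (notMem_empty _),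
          fun t ht => absurd ht (notMem_empty _), fun j hj => ?_⟩
        have h2 := (nbPhi_lt h1).2 j hj
        have h3 : a 0 * (A ∩ Y j).card - r j < 0 := by
          by_contra hn
          have := mul_nonneg hm0.le (not_lt.1 hn)
          linarith
        have h4 : (0 : ℝ) ≤ (A ∩ Y j).card := Nat.cast_nonneg _
        simp only [biUnion_empty, sdiff_empty]
        nlinarith
  | succ k ih =>
    intro A hAG r
    set e := lam ^ 2 * (15 * ε * ρ) + lam * (2 * ε * ρ) with he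
    have e0 : 0 ≤ e := by positivity
    have k0 : (0 : ℝ) ≤ ((k + 1 : ℕ) : ℝ) * (Fintype.card X * ε ^ 2) := by positivity
    rcases le_or_gt 1 (nbPhi H s om G J Y lam mu (d (k + 1)) (a (k + 1))
      (-(lam * η) + (k + 1 : ℕ) * e) (fun j => (k + 1 : ℕ) * (mu ^ 2 * (12 * ε * y j))) A r)
      with h1 | h1
    · exact (Pr_le_one (hz_isP (hb _)) _).trans (by linarith)
    have d0 := hd0 (k + 1)
    have hG : ∀ x ∈ G, |nbD H s om A x - d (k + 1)| ≤ η * d (k + 1) := by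
      intro x hx
      have h2 := (nbPhi_lt h1).1 x hx
      have h3 : (0 : ℝ) ≤ ((k + 1 : ℕ) : ℝ) * e := by positivity
      have h4 : |nbD H s om A x / d (k + 1) - 1| ≤ η := by
        by_contra hn
        have := mul_lt_mul_of_pos_left (not_le.1 hn) hl0
        linarith
      have h5 : nbD H s om A x - d (k + 1) = (nbD H s om A x / d (k + 1) - 1) * d (k + 1) := by
        field_simp
      rw [h5, abs_mul, abs_of_pos d0]
      exact mul_le_mul_of_nonneg_right h4 d0.le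
    obtain ⟨θ, hθ⟩ : ∃ θ, θ = ε / ((1 + η) * d (k + 1)) := ⟨_, rfl⟩
    have hθ0 : 0 ≤ θ := by rw [hθ]; positivity
    have hθd : θ * ((1 + η) * d (k + 1)) = ε := by rw [hθ]; field_simp
    have hθ1 : θ ≤ ε / d (k + 1) := by
      rw [le_div_iff₀ d0]
      nlinarith [mul_nonneg (mul_nonneg hθ0 hη0) d0.le]
    have hd : ∀ x ∈ A, θ * nbD H s om A x ≤ ε := fun x hx => by
      have := (abs_le.1 (hG x (hAG hx))).2
      exact (mul_le_mul_of_nonneg_left (by linarith) hθ0).trans hθd.le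
    have g0 := nbG_nonneg h hθ0 hd
    have gp := hz_isP g0
    set g := nbG H s om A θ ε with hg
    have s1 : Pr (hz fun t => if t ∈ H then β (k + 1) * om t else 0)
        (fun R => ¬ nbOk H s J Y A r R) ≤
        Pr (hz fun t => g (Sum.inl t) + if t ∈ H then β k * om t else 0)
        (fun R => ¬ nbOk H s J Y A r R) := by
      refine Pr_not_mono_p (hz_isP fun t => add_nonneg (g0 _) (hb k t)) (hz_isP (hb _))
        (hz_mono fun t => ?_) (nbOk_incr A r)
      simp only [hg, nbG, Sum.elim_inl]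
      by_cases ht : t ∈ H
      · have w0 := h.w0 t ht
        have h2 := mul_le_mul_of_nonneg_right (hβ k) w0
        have h3 := mul_le_mul_of_nonneg_right hθ1 w0
        have h4 := mul_nonneg hθ0 w0
        rw [if_pos ht, if_pos ht]
        split_ifs <;> nlinarith
      · simp [ht]
    have s2 : Pr (hz fun t => g (Sum.inl t) + if t ∈ H then β k * om t else 0)
        (fun R => ¬ nbOk H s J Y A r R) = Ex (hz g) fun Q =>
          Pr (hz fun t => if t ∈ H then β k * om t else 0)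
            fun R => ¬ nbOk H s J Y A r (Q.toLeft ∪ R) := by
      have e1 : hz g = Sum.elim (hz fun t => g (Sum.inl t)) (hz fun x => g (Sum.inr x)) := by
        funext a; rcases a with t | x <;> rfl
      rw [Pr_union_hz, e1, Ex_disjSum]
      refine Ex_congr fun Q => ?_
      simp only [toLeft_disjSum, Ex_const]
    have s4 : (Ex (hz g) fun Q => Pr (hz fun t => if t ∈ H then β k * om t else 0)
          fun R => ¬ nbOk H s J Y A r (Q.toLeft ∪ R)) ≤ Ex (hz g) fun Q =>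
        (if ∃ a ∈ Q, ∃ b ∈ Q, a ≠ b ∧ ¬ Disjoint (nbK H s A a) (nbK H s A b) then 1 else 0) +
        (nbPhi H s om G J Y lam mu (d k) (a k) (-(lam * η) + k * e)
          (fun j => k * (mu ^ 2 * (12 * ε * y j))) (A \ Q.biUnion (nbK H s A))
          (fun j => r j - ((A ∩ Y j).filter fun x => Sum.inr x ∈ Q).card)
          + k * (Fintype.card X * ε ^ 2)) := by
      refine Ex_mono gp fun Q => ?_
      have h2 := ih (A \ Q.biUnion (nbK H s A)) (sdiff_subset.trans hAG)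
        (fun j => r j - ((A ∩ Y j).filter fun x => Sum.inr x ∈ Q).card)
      split_ifs with hQ
      · have h3 := (Pr_nonneg (hz_isP (hb k)) _).trans h2
        have h4 := Pr_le_one (hz_isP (hb k)) fun R => ¬ nbOk H s J Y A r (Q.toLeft ∪ R)
        linarith
      · rw [zero_add]
        exact (Pr_mono (hz_isP (hb k)) fun R hR hn => hR (nbOk_step hQ hn)).trans h2
    rw [Ex_add, Ex_add, Ex_const, ← Pr_eq] at s4
    have s5 := nib_conf (nbK H s A) g0 (ε := ε) fun x => by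
      rw [hg, nbG_one]; split_ifs
      · exact le_rfl
      · exact hε.le
    have s6 := nbPhi_step h hAG hy (c := -(lam * η) + k * e)
      (b := fun j => k * (mu ^ 2 * (12 * ε * y j))) (r := r) hε hε4 hη0 hη hερ hl0 hl hm0 hm d0
      (hdd k) (hρ k) (ha0 k) (ha2 k) (ha k) hθ hG
    have e2 : -(lam * η) + ((k + 1 : ℕ) : ℝ) * e = -(lam * η) + k * e + e := by push_cast; ring
    have e3 : (fun j => ((k + 1 : ℕ) : ℝ) * (mu ^ 2 * (12 * ε * y j))) =
        fun j => k * (mu ^ 2 * (12 * ε * y j)) + mu ^ 2 * (12 * ε * y j) := by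
      funext j; push_cast; ring
    rw [e2, e3]
    have e4 : ((k + 1 : ℕ) : ℝ) * (Fintype.card X * ε ^ 2) =
        k * (Fintype.card X * ε ^ 2) + Fintype.card X * ε ^ 2 := by push_cast; ring
    rw [e4]
    linarith

/-- the nibble in a linear system of triples -/
theorem nib_abs (h : NbSys H s om W) (hW : 0 < W) {G : Finset X} (hHG : ∀ t ∈ H, s t ⊆ G)
    (hdeg : ∀ x ∈ G, ∑ t ∈ H.filter (fun t => x ∈ s t), om t = 1) {y : ι → ℝ}
    (hy : ∀ j ∈ J, ((G ∩ Y j).card : ℝ) ≤ y j) {d L l : ℝ} (hd0 : 0 < d) (hd4 : d ≤ 1 / 4)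
    (hL : -Real.log d ≤ L) (hl : 1 ≤ l) (h1 : 120 * L * l * W ≤ d ^ 4)
    (h2 : ∀ j ∈ J, 48 * L * l ≤ d ^ 2 * y j) {g : I → ℝ} (hg0 : ∀ t, 0 ≤ g t)
    (hg : ∀ t ∈ H, om t / (2 * d ^ 2) ≤ g t) :
    Pr (hz g) (fun R => ¬ nbOk H s J Y G (fun j => 6 * d * y j) R)
      ≤ (2 * G.card + J.card + Fintype.card X) * Real.exp (-l) := by
  classical
  obtain ⟨L0, hL0⟩ : ∃ L0, L0 = -Real.log d := ⟨_, rfl⟩
  have eL : Real.exp (-L0) = d := by rw [hL0, neg_neg, Real.exp_log hd0]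
  have L1 : 1 ≤ L0 := by
    by_contra hn
    have a1 := Real.exp_le_exp.2 (show -1 ≤ -L0 by linarith)
    have a2 : Real.exp (-1) * Real.exp 1 = 1 := by rw [← Real.exp_add]; simp
    have a3 := Real.exp_one_lt_d9
    have a4 := Real.exp_pos (-1)
    nlinarith
  have LL : L0 ≤ L := hL0 ▸ hL
  have Lp : 0 < L := by linarith
  obtain ⟨ρ, hρ⟩ : ∃ ρ, ρ = W / d ^ 2 := ⟨_, rfl⟩
  have ρ0 : 0 < ρ := by rw [hρ]; positivity
  have ρd : ρ * d ^ 2 = W := by rw [hρ]; field_simp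
  have ρ1 : 120 * L * l * ρ ≤ d ^ 2 := by
    rw [← ρd] at h1
    have : (120 * L * l * ρ) * d ^ 2 ≤ d ^ 2 * d ^ 2 := by nlinarith
    exact le_of_mul_le_mul_right this (by positivity)
  obtain ⟨T, hT⟩ := exists_nat_ge (4 * L0 + L0 * ρ + L0 ^ 2 * Real.exp l)
  have p1 : 0 ≤ L0 * ρ := by positivity
  have p2 : 0 ≤ L0 ^ 2 * Real.exp l := by positivity
  have T0 : (0 : ℝ) < T := by linarith
  obtain ⟨ε, hε⟩ : ∃ ε, ε = L0 / T := ⟨_, rfl⟩
  have ε0 : 0 < ε := by rw [hε]; positivity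
  have εT : ε * T = L0 := by rw [hε]; field_simp
  have ε4 : ε ≤ 1 / 4 := by rw [hε, div_le_iff₀ T0]; linarith
  have ερ : ε * ρ ≤ 1 := by rw [hε, div_mul_eq_mul_div, div_le_one T0]; linarith
  obtain ⟨lam, hlam⟩ : ∃ lam, lam = d / (30 * L * ρ) := ⟨_, rfl⟩
  have lam0 : 0 < lam := by rw [hlam]; positivity
  have lam1 : lam * (30 * L * ρ) = d := by rw [hlam]; field_simp
  obtain ⟨mu, hmu⟩ : ∃ mu, mu = d / (24 * L) := ⟨_, rfl⟩
  have mu0 : 0 < mu := by rw [hmu]; positivity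
  have mu1 : mu * (24 * L) = d := by rw [hmu]; field_simp
  have x1 : ∀ k : ℕ, Real.exp (-(ε * k)) ≤ 1 := fun k =>
    Real.exp_le_one_iff.2 (neg_nonpos.2 (by positivity))
  have x2 : ∀ k : ℕ, Real.exp (-(2 * ε * k)) ≤ 1 := fun k =>
    Real.exp_le_one_iff.2 (neg_nonpos.2 (by positivity))
  have key := nib_ind h hy (ε := ε) (η := d) (ρ := ρ) (lam := lam) (mu := mu)
    (d := fun k => d ^ 2 * Real.exp (2 * ε * k)) (a := fun k => Real.exp (-(ε * k)) + 4 * d)
    (β := fun k => (1 - Real.exp (-(2 * ε * k))) / (2 * d ^ 2)) ε0 ε4 hd0.le hd4 ρ0.le ερ lam0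
    (by nlinarith [mul_pos lam0 ρ0]) mu0 (by nlinarith) (fun k => by positivity)
    (fun k => by
      rw [mul_assoc (d ^ 2), ← Real.exp_add]; congr 2; push_cast; ring)
    (fun k => by
      have := Real.one_le_exp (show 0 ≤ 2 * ε * k by positivity)
      rw [← mul_assoc, ρd]; nlinarith)
    (by simp only [Nat.cast_zero, mul_zero, neg_zero, Real.exp_zero]; linarith)
    (fun k => by positivity) (fun k => by linarith [x1 k])
    (fun k => by
      have e1 : Real.exp (-(ε * ((k + 1 : ℕ) : ℝ))) = Real.exp (-(ε * k)) * Real.exp (-ε) := by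
        rw [← Real.exp_add]; congr 1; push_cast; ring
      have e2 : Real.exp (-ε) * (1 + ε) ≤ 1 := by
        have a2 : Real.exp (-ε) * Real.exp ε = 1 := by rw [← Real.exp_add]; simp
        nlinarith [Real.add_one_le_exp ε, Real.exp_pos (-ε)]
      have e3 : Real.exp (-ε) ≤ 1 - ε / 2 := by
        by_contra hn
        nlinarith [not_le.1 hn]
      rw [e1]; nlinarith)
    (fun k => div_nonneg (by linarith [x2 k]) (by positivity))
    (fun k => by
      have e1 : Real.exp (-(2 * ε * k)) =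
          Real.exp (-(2 * ε * ((k + 1 : ℕ) : ℝ))) * Real.exp (2 * ε) := by
        rw [← Real.exp_add]; congr 1; push_cast; ring
      have e2 : ε / (d ^ 2 * Real.exp (2 * ε * ((k + 1 : ℕ) : ℝ))) =
          2 * ε * Real.exp (-(2 * ε * ((k + 1 : ℕ) : ℝ))) / (2 * d ^ 2) := by
        rw [Real.exp_neg]; field_simp
      rw [e2, ← add_div, e1]
      refine div_le_div_of_nonneg_right ?_ (by positivity)
      nlinarith [Real.add_one_le_exp (2 * ε), Real.exp_pos (-(2 * ε * ((k + 1 : ℕ) : ℝ)))])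
    T G (Subset.refl G) (fun j => 6 * d * y j)
  have hb : ∀ t, 0 ≤ (if t ∈ H then (1 - Real.exp (-(2 * ε * T))) / (2 * d ^ 2) * om t else 0) ∧
      (if t ∈ H then (1 - Real.exp (-(2 * ε * T))) / (2 * d ^ 2) * om t else 0) ≤ g t := by
    intro t
    split_ifs with ht
    · have w0 := h.w0 t ht
      refine ⟨mul_nonneg (div_nonneg (by linarith [x2 T]) (by positivity)) w0, le_trans ?_ (hg t ht)⟩
      rw [div_mul_eq_mul_div]
      refine div_le_div_of_nonneg_right ?_ (by positivity)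
      nlinarith [Real.exp_pos (-(2 * ε * T))]
    · exact ⟨le_rfl, hg0 t⟩
  refine (Pr_not_mono_p (hz_isP fun t => (hb t).1) (hz_isP hg0) (hz_mono fun t => (hb t).2)
    (nbOk_incr _ _)).trans (key.trans ?_)
  have f1 : d ^ 2 * Real.exp (2 * ε * T) = 1 := by
    rw [mul_assoc 2, εT, ← eL, ← Real.exp_nat_mul, ← Real.exp_add]
    rw [show ((2 : ℕ) : ℝ) * -L0 + 2 * L0 = 0 by push_cast; ring, Real.exp_zero]
  have f2 : Real.exp (-(ε * T)) = d := by rw [εT, eL]
  have f3 : ∀ x ∈ G, nbD H s om G x = 1 := fun x hx => by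
    rw [← hdeg x hx, nbD]
    refine sum_congr (filter_congr fun t ht => ?_) fun _ _ => rfl
    exact ⟨fun a => a.1, fun a => ⟨a, (erase_subset _ _).trans (hHG t ht)⟩⟩
  have f4 : -(lam * d) + T * (lam ^ 2 * (15 * ε * ρ) + lam * (2 * ε * ρ)) ≤ -l := by
    have e : (T : ℝ) * (lam ^ 2 * (15 * ε * ρ) + lam * (2 * ε * ρ)) =
        L0 * (lam ^ 2 * (15 * ρ) + lam * (2 * ρ)) := by rw [← εT]; ring
    have e1 : L0 * (lam ^ 2 * (15 * ρ) + lam * (2 * ρ)) ≤
        L * (lam ^ 2 * (15 * ρ) + lam * (2 * ρ)) := by gcongr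
    have e2 : L * (lam ^ 2 * (15 * ρ)) = lam * d / 2 := by rw [← lam1]; ring
    have q : 0 < L * ρ := by positivity
    have e3 : 8 * (L * ρ) ≤ d := by nlinarith
    have e4 : l ≤ lam * d / 4 := by
      have : l * (120 * (L * ρ)) ≤ lam * d / 4 * (120 * (L * ρ)) := by
        have : lam * d / 4 * (120 * (L * ρ)) = d ^ 2 := by rw [sq]; nth_rw 3 [← lam1]; ring
        nlinarith
      exact le_of_mul_le_mul_right this (by positivity)
    nlinarith [mul_le_mul_of_nonneg_left e3 lam0.le]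
  have f5 : (T : ℝ) * (Fintype.card X * ε ^ 2) ≤ Fintype.card X * Real.exp (-l) := by
    have e : (T : ℝ) * ε ^ 2 ≤ Real.exp (-l) := by
      have a2 : Real.exp (-l) * Real.exp l = 1 := by rw [← Real.exp_add]; simp
      have a3 : (T : ℝ) * ε ^ 2 * T = L0 ^ 2 := by rw [← εT]; ring
      have a4 : L0 ^ 2 * Real.exp l * Real.exp (-l) ≤ T * Real.exp (-l) :=
        mul_le_mul_of_nonneg_right (by linarith) (Real.exp_pos _).le
      refine le_of_mul_le_mul_right ?_ T0
      nlinarith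
    have := mul_le_mul_of_nonneg_left e (Nat.cast_nonneg (Fintype.card X))
    linarith
  simp only [nbPhi, f1, f2]
  have f6 : ∑ x ∈ G, (Real.exp (lam * (nbD H s om G x / 1) + (-lam + (-(lam * d) +
      T * (lam ^ 2 * (15 * ε * ρ) + lam * (2 * ε * ρ))))) +
      Real.exp (-lam * (nbD H s om G x / 1) + (lam + (-(lam * d) +
      T * (lam ^ 2 * (15 * ε * ρ) + lam * (2 * ε * ρ)))))) ≤ ∑ _x ∈ G, 2 * Real.exp (-l) := by
    refine sum_le_sum fun x hx => ?_
    rw [f3 x hx, two_mul (Real.exp (-l))]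
    exact add_le_add (Real.exp_le_exp.2 (by linarith)) (Real.exp_le_exp.2 (by linarith))
  have f7 : ∑ j ∈ J, Real.exp (mu * ((d + 4 * d) * (G ∩ Y j).card) + (-(mu * (6 * d * y j)) +
      T * (mu ^ 2 * (12 * ε * y j)))) ≤ ∑ _j ∈ J, Real.exp (-l) := by
    refine sum_le_sum fun j hj => Real.exp_le_exp.2 ?_
    have y0 : 0 ≤ y j := (Nat.cast_nonneg _).trans (hy j hj)
    have e : (T : ℝ) * (mu ^ 2 * (12 * ε * y j)) = L0 * (mu ^ 2 * (12 * y j)) := by rw [← εT]; ring
    have e1 : L0 * (mu ^ 2 * (12 * y j)) ≤ L * (mu ^ 2 * (12 * y j)) := by gcongr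
    have e2 : L * (mu ^ 2 * (12 * y j)) = mu * d * y j / 2 := by rw [← mu1]; ring
    have e3 := mul_le_mul_of_nonneg_left (hy j hj) (show 0 ≤ mu * (5 * d) by positivity)
    have e4 : l ≤ mu * d * y j / 2 := by
      have : l * (48 * L) ≤ mu * d * y j / 2 * (48 * L) := by
        have : mu * d * y j / 2 * (48 * L) = d ^ 2 * y j := by rw [sq]; nth_rw 3 [← mu1]; ring
        nlinarith [h2 j hj]
      exact le_of_mul_le_mul_right this (by positivity)
    nlinarith
  simp only [sum_const, nsmul_eq_mul] at f6 f7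
  nlinarith

end Pool.Agent.P.MP_224820_co.St
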