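import Pool.Agent.P.MP_224820_co.St.Conc
import Pool.Agent.P.MP_224820_co.St.GrA

/-! Random graphs whose edges are decided by local bits: stars, degrees, typicality. -/

set_option autoImplicit false

namespace Pool.Agent.P.MP_224820_co.St

open Finset

variable {V B : Type} [Fintype V] [DecidableEq V] [Fintype B] [DecidableEq B]

/-- whether a pair is an edge depends only on the bits located at that pair -/
def LocG (lc : B → Sym2 V) (g : Finset B → Finset (Sym2 V)) : Prop :=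
  ∀ e, Loc (univ.filter fun y => lc y = e) (fun s => e ∈ g s)

variable {lc : B → Sym2 V} {q : B → ℝ}

omit [Fintype V] in
theorem LocG.union {g h : Finset B → Finset (Sym2 V)} (hg : LocG lc g) (hh : LocG lc h) :
    LocG lc fun s => g s ∪ h s := fun e R R' hR => by
  have h1 := hg e R R' hR
  have h2 := hh e R R' hR
  simp only [mem_union, h1, h2]

omit [Fintype V] in
theorem LocG.inter {g h : Finset B → Finset (Sym2 V)} (hg : LocG lc g) (hh : LocG lc h) :
    LocG lc fun s => g s ∩ h s := fun e R R' hR => by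
  have h1 := hg e R R' hR
  have h2 := hh e R R' hR
  simp only [mem_inter, h1, h2]

omit [Fintype V] in
theorem LocG.sdiff {g h : Finset B → Finset (Sym2 V)} (hg : LocG lc g) (hh : LocG lc h) :
    LocG lc fun s => g s \ h s := fun e R R' hR => by
  have h1 := hg e R R' hR
  have h2 := hh e R R' hR
  simp only [mem_sdiff, h1, h2]

omit [Fintype V] in
theorem LocG.const (G : Finset (Sym2 V)) : LocG lc fun _ => G := fun _ _ _ _ => rfl

omit [Fintype V] in
theorem LocG.biUnion {ι : Type} (J : Finset ι) {g : ι → Finset B → Finset (Sym2 V)}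
    (hg : ∀ j ∈ J, LocG lc (g j)) : LocG lc fun s => J.biUnion fun j => g j s := fun e R R' hR => by
  simp only [mem_biUnion, eq_iff_iff]
  exact exists_congr fun j => and_congr_right fun hj => iff_of_eq (hg j hj e R R' hR)

/-- the graph given by one bit per pair -/
theorem LocG.bit (bt : Sym2 V → B) (h : ∀ e, lc (bt e) = e) (P : Sym2 V → Prop) [DecidablePred P] :
    LocG lc fun s => univ.filter fun e => P e ∧ bt e ∈ s := fun e R R' hR => by
  have := Finset.ext_iff.1 hR (bt e)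
  simp only [mem_inter, mem_filter, mem_univ, h, and_true] at this
  simp only [mem_filter, mem_univ, true_and, this]

omit [Fintype V] in
/-- different pairs are independent -/
theorem Pr_edges {ι : Type} (q : B → ℝ) (J : Finset ι) (e : ι → Sym2 V) (he : Set.InjOn e J)
    (g : ι → Finset B → Finset (Sym2 V)) (hg : ∀ j ∈ J, LocG lc (g j)) :
    Pr q (fun s => ∀ j ∈ J, e j ∈ g j s) = ∏ j ∈ J, Pr q (fun s => e j ∈ g j s) := by
  classical
  have h := Ex_prod_loc q J (fun j => univ.filter fun y => lc y = e j) ?_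
    (fun j s => if e j ∈ g j s then (1 : ℝ) else 0) ?_
  · rw [Pr_eq, prod_congr rfl fun j _ => Pr_eq q (fun s => e j ∈ g j s), ← h]
    refine Ex_congr fun R => ?_
    rw [Finset.prod_ite_zero]; simp
  · intro i hi j hj hij
    refine disjoint_left.2 fun y h1 h2 => hij (he hi hj ?_)
    rw [← (mem_filter.1 h1).2, ← (mem_filter.1 h2).2]
  · intro j hj R R' hR
    have := hg j hj (e j) R R' hR
    simp only [this]

omit [Fintype V] in
theorem Pr_star (q : B → ℝ) (S : Finset V) (g : V → Finset B → Finset (Sym2 V))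
    (hg : ∀ u ∈ S, LocG lc (g u)) (w : V) :
    Pr q (fun s => ∀ u ∈ S, s(u, w) ∈ g u s) = ∏ u ∈ S, Pr q (fun s => s(u, w) ∈ g u s) :=
  Pr_edges q S (fun u => s(u, w)) (fun _ _ _ _ h => Sym2.congr_left.1 h) g hg

omit [Fintype V] [DecidableEq B] in
theorem star_pd (lc : B → Sym2 V) {S Y : Finset V} (hd : Disjoint S Y) :
    (Y : Set V).PairwiseDisjoint fun w => univ.filter fun y => ∃ u ∈ S, lc y = s(u, w) := by
  intro w hw w' hw' hne
  refine disjoint_left.2 fun y h1 h2 => hne ?_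
  obtain ⟨u, hu, e1⟩ := (mem_filter.1 h1).2
  obtain ⟨u', _, e2⟩ := (mem_filter.1 h2).2
  rcases Sym2.eq_iff.1 (e1.symm.trans e2) with h | h
  · exact h.2
  · exact absurd (h.1 ▸ hu) (disjoint_right.1 hd hw')

omit [Fintype V] in
theorem star_loc {S : Finset V} {g : V → Finset B → Finset (Sym2 V)} (hg : ∀ u ∈ S, LocG lc (g u))
    (w : V) : Loc (univ.filter fun y => ∃ u ∈ S, lc y = s(u, w))
      (fun s => ∀ u ∈ S, s(u, w) ∈ g u s) := by
  intro R R' hR
  simp only [eq_iff_iff]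
  refine forall_congr' fun u => forall_congr' fun hu => iff_of_eq (hg u hu _ R R' ?_)
  ext y
  have := Finset.ext_iff.1 hR y
  simp only [mem_inter, mem_filter, mem_univ, true_and] at this ⊢
  refine and_congr_left fun h => ?_
  have h' : ∃ u ∈ S, lc y = s(u, w) := ⟨u, hu, h⟩
  simpa [h'] using this

section Star
variable {S Y : Finset V} {g : V → Finset B → Finset (Sym2 V)} {β : V → ℝ} {μ t : ℝ}

omit [Fintype V] in
theorem star_mean_le (hq : IsP q) (hg : ∀ u ∈ S, LocG lc (g u))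
    (hβ : ∀ u ∈ S, ∀ w ∈ Y, Pr q (fun s => s(u, w) ∈ g u s) ≤ β u) :
    ∑ w ∈ Y, Pr q (fun s => ∀ u ∈ S, s(u, w) ∈ g u s) ≤ Y.card * ∏ u ∈ S, β u := by
  rw [← nsmul_eq_mul]
  refine sum_le_card_nsmul _ _ _ fun w hw => ?_
  rw [Pr_star q S g hg]
  exact prod_le_prod (fun u _ => Pr_nonneg hq _) fun u hu => hβ u hu w hw

omit [Fintype V] in
theorem star_mean_ge (hg : ∀ u ∈ S, LocG lc (g u)) (h0 : ∀ u ∈ S, 0 ≤ β u)
    (hβ : ∀ u ∈ S, ∀ w ∈ Y, β u ≤ Pr q (fun s => s(u, w) ∈ g u s)) :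
    Y.card * ∏ u ∈ S, β u ≤ ∑ w ∈ Y, Pr q (fun s => ∀ u ∈ S, s(u, w) ∈ g u s) := by
  rw [← nsmul_eq_mul]
  refine card_nsmul_le_sum _ _ _ fun w hw => ?_
  rw [Pr_star q S g hg]
  exact prod_le_prod h0 fun u hu => hβ u hu w hw

omit [Fintype V] in
/-- common neighbours of `S` inside `Y`, upper tail -/
theorem star_upper (hq : IsP q) (hd : Disjoint S Y) (hg : ∀ u ∈ S, LocG lc (g u))
    (hβ : ∀ u ∈ S, ∀ w ∈ Y, Pr q (fun s => s(u, w) ∈ g u s) ≤ β u)
    (hμ : Y.card * ∏ u ∈ S, β u ≤ μ) (ht : 0 ≤ t) :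
    Pr q (fun s => μ + t ≤ (cnt Y fun w => ∀ u ∈ S, s(u, w) ∈ g u s : ℝ))
      ≤ Real.exp (-t ^ 2 / (4 * μ + 2 * t)) :=
  cnt_upper hq (star_pd lc hd) (fun w _ => star_loc hg w) ((star_mean_le hq hg hβ).trans hμ) ht

omit [Fintype V] in
theorem star_far (hq : IsP q) (hd : Disjoint S Y) (hg : ∀ u ∈ S, LocG lc (g u))
    (hβ : ∀ u ∈ S, ∀ w ∈ Y, Pr q (fun s => s(u, w) ∈ g u s) ≤ β u)
    (hμ : 8 * (Y.card * ∏ u ∈ S, β u) ≤ t) :
    Pr q (fun s => t ≤ (cnt Y fun w => ∀ u ∈ S, s(u, w) ∈ g u s : ℝ)) ≤ Real.exp (-t) :=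
  cnt_far hq (star_pd lc hd) (fun w _ => star_loc hg w) (star_mean_le hq hg hβ) hμ

omit [Fintype V] in
/-- common neighbours of `S` inside `Y`, lower tail -/
theorem star_lower (hq : IsP q) (hd : Disjoint S Y) (hg : ∀ u ∈ S, LocG lc (g u))
    (h0 : ∀ u ∈ S, 0 ≤ β u) (hβ : ∀ u ∈ S, ∀ w ∈ Y, β u ≤ Pr q (fun s => s(u, w) ∈ g u s))
    (hμ : μ ≤ Y.card * ∏ u ∈ S, β u) (hμ0 : 0 ≤ μ) (ht : 0 ≤ t) :
    Pr q (fun s => (cnt Y fun w => ∀ u ∈ S, s(u, w) ∈ g u s : ℝ) ≤ μ - t)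
      ≤ Real.exp (-t ^ 2 / (4 * μ + 2 * t)) :=
  cnt_lower hq (star_pd lc hd) (fun w _ => star_loc hg w) (hμ.trans (star_mean_ge hg h0 hβ)) hμ0 ht

theorem star_card {G : V → Finset (Sym2 V)} (hG : ∀ u ∈ S, NoLoop (G u)) :
    (univ.filter fun w => ∀ u ∈ S, s(u, w) ∈ G u).card
      = cnt (univ \ S) fun w => ∀ u ∈ S, s(u, w) ∈ G u := by
  rw [cnt_eq]
  congr 1
  ext w
  simp only [mem_filter, mem_univ, true_and, mem_sdiff, iff_and_self]
  exact fun h hw => hG w hw _ (h w hw) (by simp)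

theorem star_ne {u w : V} (hu : u ∈ S) (hw : w ∈ univ \ S) : ¬ (s(u, w) : Sym2 V).IsDiag := by
  rw [Sym2.mk_isDiag_iff]
  rintro rfl
  exact (mem_sdiff.1 hw).2 hu

theorem star_card_le : ((univ \ S).card : ℝ) ≤ Fintype.card V := by
  exact_mod_cast card_le_univ _

theorem star_card_eq : ((univ \ S).card : ℝ) = Fintype.card V - S.card := by
  rw [card_univ_sdiff, Nat.cast_sub (card_le_univ _)]

/-- common neighbourhoods, upper tail -/
theorem cn_upper (hq : IsP q) (hg : ∀ u ∈ S, LocG lc (g u)) (hN : ∀ u ∈ S, ∀ s, NoLoop (g u s))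
    (h0 : ∀ u ∈ S, 0 ≤ β u)
    (hβ : ∀ u ∈ S, ∀ e : Sym2 V, ¬ e.IsDiag → Pr q (fun s => e ∈ g u s) ≤ β u)
    (hμ : Fintype.card V * ∏ u ∈ S, β u ≤ μ) (ht : 0 ≤ t) :
    Pr q (fun s => μ + t ≤ ((univ.filter fun w => ∀ u ∈ S, s(u, w) ∈ g u s).card : ℝ))
      ≤ Real.exp (-t ^ 2 / (4 * μ + 2 * t)) := by
  simp only [fun s => star_card (G := fun u => g u s) fun u hu => hN u hu s]
  exact star_upper hq disjoint_sdiff hg (fun u hu w hw => hβ u hu _ (star_ne hu hw))
    ((mul_le_mul_of_nonneg_right star_card_le (prod_nonneg h0)).trans hμ) ht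

theorem cn_far (hq : IsP q) (hg : ∀ u ∈ S, LocG lc (g u)) (hN : ∀ u ∈ S, ∀ s, NoLoop (g u s))
    (h0 : ∀ u ∈ S, 0 ≤ β u)
    (hβ : ∀ u ∈ S, ∀ e : Sym2 V, ¬ e.IsDiag → Pr q (fun s => e ∈ g u s) ≤ β u)
    (hμ : 8 * (Fintype.card V * ∏ u ∈ S, β u) ≤ t) :
    Pr q (fun s => t ≤ ((univ.filter fun w => ∀ u ∈ S, s(u, w) ∈ g u s).card : ℝ))
      ≤ Real.exp (-t) := by
  simp only [fun s => star_card (G := fun u => g u s) fun u hu => hN u hu s]
  refine star_far hq disjoint_sdiff hg (fun u hu w hw => hβ u hu _ (star_ne hu hw)) ?_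
  have := mul_le_mul_of_nonneg_right (star_card_le (S := S)) (prod_nonneg h0)
  linarith

/-- common neighbourhoods, lower tail -/
theorem cn_lower (hq : IsP q) (hg : ∀ u ∈ S, LocG lc (g u)) (hN : ∀ u ∈ S, ∀ s, NoLoop (g u s))
    (h0 : ∀ u ∈ S, 0 ≤ β u)
    (hβ : ∀ u ∈ S, ∀ e : Sym2 V, ¬ e.IsDiag → β u ≤ Pr q (fun s => e ∈ g u s))
    (hμ : μ ≤ (Fintype.card V - S.card) * ∏ u ∈ S, β u) (hμ0 : 0 ≤ μ) (ht : 0 ≤ t) :
    Pr q (fun s => ((univ.filter fun w => ∀ u ∈ S, s(u, w) ∈ g u s).card : ℝ) ≤ μ - t)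
      ≤ Real.exp (-t ^ 2 / (4 * μ + 2 * t)) := by
  simp only [fun s => star_card (G := fun u => g u s) fun u hu => hN u hu s]
  exact star_lower hq disjoint_sdiff hg h0 (fun u hu w hw => hβ u hu _ (star_ne hu hw))
    (by rwa [star_card_eq]) hμ0 ht

end Star

section Deg
variable {g h : Finset B → Finset (Sym2 V)} {β γ μ t : ℝ}

theorem nb_eq_cn (G : Finset (Sym2 V)) (u : V) :
    nb G u = univ.filter fun w => ∀ x ∈ ({u} : Finset V), s(x, w) ∈ G := by
  ext w; simp [mem_nb]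

theorem nb_inter_eq_cn (G H : Finset (Sym2 V)) {u v : V} (huv : u ≠ v) :
    nb G u ∩ nb H v = univ.filter fun w => ∀ x ∈ ({u, v} : Finset V),
      s(x, w) ∈ (if x = u then G else H) := by
  ext w; simp [mem_nb, huv.symm]

theorem deg_upper (hq : IsP q) (hg : LocG lc g) (hN : ∀ s, NoLoop (g s)) (h0 : 0 ≤ β)
    (hβ : ∀ e : Sym2 V, ¬ e.IsDiag → Pr q (fun s => e ∈ g s) ≤ β)
    (hμ : Fintype.card V * β ≤ μ) (ht : 0 ≤ t) (u : V) :
    Pr q (fun s => μ + t ≤ ((nb (g s) u).card : ℝ)) ≤ Real.exp (-t ^ 2 / (4 * μ + 2 * t)) := by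
  simp only [nb_eq_cn]
  exact cn_upper (S := {u}) (g := fun _ => g) (β := fun _ => β) hq (fun _ _ => hg)
    (fun _ _ => hN) (fun _ _ => h0) (fun _ _ => hβ) (by simpa using hμ) ht

theorem deg_far (hq : IsP q) (hg : LocG lc g) (hN : ∀ s, NoLoop (g s)) (h0 : 0 ≤ β)
    (hβ : ∀ e : Sym2 V, ¬ e.IsDiag → Pr q (fun s => e ∈ g s) ≤ β)
    (hμ : 8 * (Fintype.card V * β) ≤ t) (u : V) :
    Pr q (fun s => t ≤ ((nb (g s) u).card : ℝ)) ≤ Real.exp (-t) := by
  simp only [nb_eq_cn]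
  exact cn_far (S := {u}) (g := fun _ => g) (β := fun _ => β) hq (fun _ _ => hg)
    (fun _ _ => hN) (fun _ _ => h0) (fun _ _ => hβ) (by simpa using hμ)

theorem deg_lower (hq : IsP q) (hg : LocG lc g) (hN : ∀ s, NoLoop (g s)) (h0 : 0 ≤ β)
    (hβ : ∀ e : Sym2 V, ¬ e.IsDiag → β ≤ Pr q (fun s => e ∈ g s))
    (hμ : μ ≤ (Fintype.card V - 1) * β) (hμ0 : 0 ≤ μ) (ht : 0 ≤ t) (u : V) :
    Pr q (fun s => ((nb (g s) u).card : ℝ) ≤ μ - t) ≤ Real.exp (-t ^ 2 / (4 * μ + 2 * t)) := by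
  simp only [nb_eq_cn]
  exact cn_lower (S := {u}) (g := fun _ => g) (β := fun _ => β) hq (fun _ _ => hg)
    (fun _ _ => hN) (fun _ _ => h0) (fun _ _ => hβ) (by simpa using hμ) hμ0 ht

omit [Fintype V] [Fintype B] [DecidableEq B] in
theorem rg_two {u v : V} {P : V → (Finset B → Finset (Sym2 V)) → Prop} (hu : P u g) (hv : P v h)
    (huv : u ≠ v) : ∀ x ∈ ({u, v} : Finset V), P x fun s => if x = u then g s else h s := by
  intro x hx
  rcases mem_insert.1 hx with rfl | hx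
  · simpa using hu
  · rw [mem_singleton.1 hx]; simpa [huv.symm] using hv

omit [Fintype V] in
theorem rg_prod {u v : V} (huv : u ≠ v) (β γ : ℝ) :
    ∏ x ∈ ({u, v} : Finset V), (if x = u then β else γ) = β * γ := by
  rw [prod_pair huv]; simp [huv.symm]

theorem codeg_upper (hq : IsP q) (hg : LocG lc g) (hh : LocG lc h) (hN : ∀ s, NoLoop (g s))
    (hN' : ∀ s, NoLoop (h s)) (h0 : 0 ≤ β) (h0' : 0 ≤ γ)
    (hβ : ∀ e : Sym2 V, ¬ e.IsDiag → Pr q (fun s => e ∈ g s) ≤ β)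
    (hγ : ∀ e : Sym2 V, ¬ e.IsDiag → Pr q (fun s => e ∈ h s) ≤ γ)
    (hμ : Fintype.card V * (β * γ) ≤ μ) (ht : 0 ≤ t) {u v : V} (huv : u ≠ v) :
    Pr q (fun s => μ + t ≤ ((nb (g s) u ∩ nb (h s) v).card : ℝ))
      ≤ Real.exp (-t ^ 2 / (4 * μ + 2 * t)) := by
  simp only [fun s => nb_inter_eq_cn (g s) (h s) huv]
  exact cn_upper (S := {u, v}) (g := fun x s => if x = u then g s else h s)
    (β := fun x => if x = u then β else γ) hq
    (rg_two (P := fun _ g => LocG lc g) hg hh huv)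
    (rg_two (P := fun _ g => ∀ s, NoLoop (g s)) hN hN' huv)
    (fun x _ => by split_ifs <;> assumption)
    (rg_two (P := fun x g => ∀ e : Sym2 V, ¬ e.IsDiag →
      Pr q (fun s => e ∈ g s) ≤ if x = u then β else γ) (by simpa using hβ)
      (by simpa [huv.symm] using hγ) huv)
    (by rwa [rg_prod huv]) ht

theorem codeg_far (hq : IsP q) (hg : LocG lc g) (hh : LocG lc h) (hN : ∀ s, NoLoop (g s))
    (hN' : ∀ s, NoLoop (h s)) (h0 : 0 ≤ β) (h0' : 0 ≤ γ)
    (hβ : ∀ e : Sym2 V, ¬ e.IsDiag → Pr q (fun s => e ∈ g s) ≤ β)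
    (hγ : ∀ e : Sym2 V, ¬ e.IsDiag → Pr q (fun s => e ∈ h s) ≤ γ)
    (hμ : 8 * (Fintype.card V * (β * γ)) ≤ t) {u v : V} (huv : u ≠ v) :
    Pr q (fun s => t ≤ ((nb (g s) u ∩ nb (h s) v).card : ℝ)) ≤ Real.exp (-t) := by
  simp only [fun s => nb_inter_eq_cn (g s) (h s) huv]
  exact cn_far (S := {u, v}) (g := fun x s => if x = u then g s else h s)
    (β := fun x => if x = u then β else γ) hq
    (rg_two (P := fun _ g => LocG lc g) hg hh huv)
    (rg_two (P := fun _ g => ∀ s, NoLoop (g s)) hN hN' huv)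
    (fun x _ => by split_ifs <;> assumption)
    (rg_two (P := fun x g => ∀ e : Sym2 V, ¬ e.IsDiag →
      Pr q (fun s => e ∈ g s) ≤ if x = u then β else γ) (by simpa using hβ)
      (by simpa [huv.symm] using hγ) huv)
    (by rwa [rg_prod huv])

theorem codeg_lower (hq : IsP q) (hg : LocG lc g) (hh : LocG lc h) (hN : ∀ s, NoLoop (g s))
    (hN' : ∀ s, NoLoop (h s)) (h0 : 0 ≤ β) (h0' : 0 ≤ γ)
    (hβ : ∀ e : Sym2 V, ¬ e.IsDiag → β ≤ Pr q (fun s => e ∈ g s))
    (hγ : ∀ e : Sym2 V, ¬ e.IsDiag → γ ≤ Pr q (fun s => e ∈ h s))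
    (hμ : μ ≤ (Fintype.card V - 2) * (β * γ)) (hμ0 : 0 ≤ μ) (ht : 0 ≤ t) {u v : V} (huv : u ≠ v) :
    Pr q (fun s => ((nb (g s) u ∩ nb (h s) v).card : ℝ) ≤ μ - t)
      ≤ Real.exp (-t ^ 2 / (4 * μ + 2 * t)) := by
  simp only [fun s => nb_inter_eq_cn (g s) (h s) huv]
  exact cn_lower (S := {u, v}) (g := fun x s => if x = u then g s else h s)
    (β := fun x => if x = u then β else γ) hq
    (rg_two (P := fun _ g => LocG lc g) hg hh huv)
    (rg_two (P := fun _ g => ∀ s, NoLoop (g s)) hN hN' huv)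
    (fun x _ => by split_ifs <;> assumption)
    (rg_two (P := fun x g => ∀ e : Sym2 V, ¬ e.IsDiag →
      (if x = u then β else γ) ≤ Pr q (fun s => e ∈ g s)) (by simpa using hβ)
      (by simpa [huv.symm] using hγ) huv)
    (by rw [rg_prod huv, card_pair huv]; simpa using hμ) hμ0 ht

end Deg

/-- a union bound over all vertex sets of size one to four -/
theorem Pr_four (hq : IsP q) (E : Finset V → Finset B → Prop) {δ : ℝ} (hδ : 0 ≤ δ)
    (h : ∀ S : Finset V, 2 ≤ S.card → S.card ≤ 4 → Pr q (E S) ≤ δ) :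
    Pr q (fun s => ∃ S : Finset V, 2 ≤ S.card ∧ S.card ≤ 4 ∧ E S s)
      ≤ (Fintype.card V : ℝ) ^ 4 * δ := by
  classical
  have h1 := Pr_exists_le' hq (univ : Finset (Fin 4 → V))
    (fun x s => 2 ≤ (univ.image x).card ∧ E (univ.image x) s) (δ := δ) fun x _ => by
      by_cases hx : 2 ≤ (univ.image x).card
      · exact (Pr_mono hq fun s hs => hs.2).trans
          (h _ hx (card_image_le.trans (by simp)))
      · rw [Pr_false q fun s hs => hx hs.1]; exact hδ
  rw [card_univ, Fintype.card_fun, Fintype.card_fin, Nat.cast_pow] at h1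
  refine le_trans (Pr_mono hq ?_) h1
  rintro s ⟨S, h2, h4, hE⟩
  have hne : S.Nonempty := card_pos.1 (by omega)
  have : Nonempty S := hne.to_subtype
  obtain ⟨f, hf⟩ : ∃ f : Fin 4 → S, Function.Surjective f := by
    obtain ⟨j⟩ : Nonempty (S ↪ Fin 4) := Function.Embedding.nonempty_of_card_le (by simpa using h4)
    exact ⟨Function.invFun j, Function.invFun_surjective j.injective⟩
  have e : univ.image (fun i => (f i : V)) = S := by
    ext y
    simp only [mem_image, mem_univ, true_and]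
    constructor
    · rintro ⟨i, rfl⟩; exact (f i).2
    · intro hy
      obtain ⟨i, hi⟩ := hf ⟨y, hy⟩
      exact ⟨i, by rw [hi]⟩
  exact ⟨fun i => (f i : V), mem_univ _, by rw [e]; exact ⟨h2, hE⟩⟩

/-- every graph between two random graphs of almost the same density is typical -/
theorem typ_sandwich (hq : IsP q) {g h : Finset B → Finset (Sym2 V)} (hg : LocG lc g)
    (hh : LocG lc h) (hN : ∀ s, NoLoop (g s)) (hN' : ∀ s, NoLoop (h s)) {β : ℝ} (h0 : 0 ≤ β)
    (h1 : β ≤ 1) (hn : 1000 ≤ Fintype.card V)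
    (hlo : ∀ e : Sym2 V, ¬ e.IsDiag → 9999 / 10000 * β ≤ Pr q (fun s => e ∈ g s))
    (hhi : ∀ e : Sym2 V, ¬ e.IsDiag → Pr q (fun s => e ∈ h s) ≤ 1001 / 1000 * β) :
    Pr q (fun s => ¬ ∀ G, g s ⊆ G → G ⊆ h s → Typ G β)
      ≤ 2 * (Fintype.card V : ℝ) ^ 4 * Real.exp (-(Fintype.card V * β ^ 4 / 200000)) := by
  set n : ℝ := (Fintype.card V : ℝ) with hn'
  have n0 : (1000 : ℝ) ≤ n := by rw [hn']; exact_mod_cast hn
  have key : ∀ S : Finset V, S.card ≤ 4 → ∀ μ : ℝ, 0 ≤ μ → μ ≤ 201 / 200 * (n * β ^ S.card) →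
      Real.exp (-(n * β ^ S.card / 200) ^ 2 / (4 * μ + 2 * (n * β ^ S.card / 200)))
        ≤ Real.exp (-(n * β ^ 4 / 200000)) := by
    intro S h4 μ m0 m1
    apply Real.exp_le_exp.2
    have hm : n * β ^ 4 ≤ n * β ^ S.card :=
      mul_le_mul_of_nonneg_left (pow_le_pow_of_le_one h0 h1 h4) (by linarith)
    have m4 : 0 ≤ n * β ^ 4 := by positivity
    set m := n * β ^ S.card
    rcases (m4.trans hm).eq_or_lt with e | e
    · have : n * β ^ 4 = 0 := by linarith
      rw [this, ← e]; simp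
    · rw [div_le_iff₀ (by linarith)]
      nlinarith
  have hA := Pr_four hq (fun S s => 201 / 200 * (n * β ^ S.card) + n * β ^ S.card / 200
      ≤ ((univ.filter fun w => ∀ u ∈ S, s(u, w) ∈ h s).card : ℝ)) (Real.exp_pos _).le
    fun S _ h4 => by
      refine le_trans (cn_upper (g := fun _ => h) (β := fun _ => 1001 / 1000 * β) hq
        (fun _ _ => hh) (fun _ _ => hN') (fun _ _ => by positivity) (fun _ _ => hhi) ?_
        (by positivity)) (key S h4 _ (by positivity) le_rfl)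
      rw [prod_const, mul_pow]
      have : (1001 / 1000 : ℝ) ^ S.card ≤ 201 / 200 :=
        (pow_le_pow_right₀ (by norm_num) h4).trans (by norm_num)
      have h5 : 0 ≤ n * β ^ S.card := by positivity
      nlinarith
  have hB := Pr_four hq (fun S s => ((univ.filter fun w => ∀ u ∈ S, s(u, w) ∈ g s).card : ℝ)
      ≤ 199 / 200 * (n * β ^ S.card) - n * β ^ S.card / 200) (Real.exp_pos _).le
    fun S _ h4 => by
      have h5 : 0 ≤ n * β ^ S.card := by positivity
      refine le_trans (cn_lower (g := fun _ => g) (β := fun _ => 9999 / 10000 * β) hq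
        (fun _ _ => hg) (fun _ _ => hN) (fun _ _ => by positivity) (fun _ _ => hlo) ?_
        (by positivity) (by positivity)) (key S h4 _ (by positivity) (by linarith))
      rw [prod_const, mul_pow]
      have a1 : (9995 / 10000 : ℝ) ≤ (9999 / 10000 : ℝ) ^ S.card :=
        le_trans (by norm_num) (pow_le_pow_of_le_one (by norm_num) (by norm_num) h4)
      have a2 : (S.card : ℝ) ≤ 4 := by exact_mod_cast h4
      have a3 : 996 / 1000 * n ≤ n - S.card := by linarith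
      have a4 : 0 ≤ β ^ S.card := by positivity
      have a5 : 996 / 1000 * n * (9995 / 10000 * β ^ S.card)
          ≤ (n - S.card) * ((9999 / 10000 : ℝ) ^ S.card * β ^ S.card) :=
        mul_le_mul a3 (mul_le_mul_of_nonneg_right a1 a4) (by positivity) (by linarith)
      nlinarith
  refine le_trans (Pr_mono hq ?_) ((Pr_or_le hq _ _).trans (add_le_add hA hB |>.trans (by linarith)))
  intro s hs
  by_contra hc
  apply hs
  intro G g1 g2 S h2 h4
  push Not at hc
  have c1 := hc.1 S h2 h4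
  have c2 := hc.2 S h2 h4
  have d1 : ((univ.filter fun w => ∀ u ∈ S, s(u, w) ∈ g s).card : ℝ)
      ≤ (univ.filter fun w => ∀ u ∈ S, s(u, w) ∈ G).card := by
    exact_mod_cast card_le_card fun w hw => by
      simp only [mem_filter, mem_univ, true_and] at hw ⊢
      exact fun u hu => g1 (hw u hu)
  have d2 : ((univ.filter fun w => ∀ u ∈ S, s(u, w) ∈ G).card : ℝ)
      ≤ (univ.filter fun w => ∀ u ∈ S, s(u, w) ∈ h s).card := by
    exact_mod_cast card_le_card fun w hw => by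
      simp only [mem_filter, mem_univ, true_and] at hw ⊢
      exact fun u hu => g2 (hw u hu)
  rw [abs_le]
  constructor <;> linarith

/-- almost complete graphs are typical -/
theorem typ_dense {G : Finset (Sym2 V)}
    (h : ∀ u, ((nn G u).card : ℝ) ≤ Fintype.card V / 400) : Typ G 1 := by
  intro S _ h4
  have h1 : ((univ.filter fun w => ∀ u ∈ S, s(u, w) ∈ G).card : ℝ) ≤ Fintype.card V := by
    exact_mod_cast card_le_univ _
  have h2 : Fintype.card V ≤ (univ.filter fun w => ∀ u ∈ S, s(u, w) ∈ G).card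
      + ∑ u ∈ S, (nn G u).card := by
    refine le_trans ?_ (Nat.add_le_add_left card_biUnion_le _)
    refine le_trans (card_le_card fun w _ => ?_) (card_union_le _ _)
    simp only [mem_union, mem_filter, mem_univ, true_and, mem_biUnion, mem_nn]
    by_contra hc
    push Not at hc
    obtain ⟨⟨u, hu, h3⟩, h5⟩ := hc
    exact h3 (h5 u hu)
  have h3 : ∑ u ∈ S, ((nn G u).card : ℝ) ≤ S.card * (Fintype.card V / 400) := by
    rw [← nsmul_eq_mul]; exact sum_le_card_nsmul _ _ _ fun u _ => h u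
  have h5 : (S.card : ℝ) ≤ 4 := by exact_mod_cast h4
  have h6 : (Fintype.card V : ℝ) ≤ (univ.filter fun w => ∀ u ∈ S, s(u, w) ∈ G).card
      + ∑ u ∈ S, ((nn G u).card : ℝ) := by exact_mod_cast h2
  have h7 : (0 : ℝ) ≤ Fintype.card V := by positivity
  rw [one_pow, mul_one, abs_le]
  constructor <;> nlinarith

end Pool.Agent.P.MP_224820_co.St
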