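import Pool.Agent.P.MP_224820_co.St.StatDefs
import Pool.Agent.P.MP_224820_co.St.Lower

/-! From the finite probability layer to the statement. -/

set_option autoImplicit false

namespace Pool.Agent.P.MP_224820_co.St

open Finset Filter Topology

theorem Ex_const_on {α : Type} [Fintype α] [DecidableEq α] (U : Finset α) (p : ℝ)
    (f : Finset α → ℝ) : Ex (fun a => if a ∈ U then p else 0) f =
      ∑ T ∈ U.powerset, p ^ T.card * (1 - p) ^ (U.card - T.card) * f T := by
  rw [Ex]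
  symm
  refine (sum_congr rfl fun T hT => ?_).trans (sum_subset (subset_univ U.powerset) fun T _ hT => ?_)
  · congr 1
    have hTU := mem_powerset.1 hT
    rw [← prod_mul_prod_compl T, ← card_sdiff_of_subset hTU, ← prod_const, ← prod_const]
    congr 1
    · exact prod_congr rfl fun a ha => by rw [if_pos ha, if_pos (hTU ha)]
    · rw [← prod_subset (s₁ := U \ T) (s₂ := Tᶜ)]
      · refine prod_congr rfl fun a ha => ?_
        rw [if_neg (mem_sdiff.1 ha).2, if_pos (mem_sdiff.1 ha).1]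
      · intro a ha
        exact mem_compl.2 (mem_sdiff.1 ha).2
      · intro a ha hb
        have h1 := mem_compl.1 ha
        have h2 : a ∉ U := fun h => hb (mem_sdiff.2 ⟨h, h1⟩)
        rw [if_neg h1, if_neg h2, sub_zero]
  · obtain ⟨a, ha, hb⟩ := not_subset.1 (fun h => hT (mem_powerset.2 h))
    rw [prod_eq_zero (mem_univ a), zero_mul]
    rw [if_pos ha, if_neg hb]

theorem dec_iff_sts {n : ℕ} (T : Finset (Finset (Fin n))) :
    Dec T (KN (Fin n)) ↔ ∃ S ⊆ T, IsSTS S := by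
  constructor
  · rintro ⟨K, hK, h1, h2⟩
    refine ⟨K, hK, fun t ht => (h1 t ht).1, fun e he => ?_⟩
    obtain ⟨x, y, hxy, rfl⟩ := card_eq_two.1 he
    have := h2 s(x, y) (mem_KN.2 (by simpa using hxy))
    simpa only [mk_mem_ed, insert_subset_iff, singleton_subset_iff, hxy, ne_eq, not_false_eq_true,
      and_true] using this
  · rintro ⟨K, hK, h1, h2⟩
    refine ⟨K, hK, fun t ht => ⟨h1 t ht, fun e he => mem_KN.2 (mem_filter.1 he).2⟩, fun e he => ?_⟩
    induction e using Sym2.ind with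
    | _ x y =>
      have hxy : x ≠ y := by simpa [mem_KN] using he
      have := h2 {x, y} (card_pair hxy)
      simpa only [mk_mem_ed, insert_subset_iff, singleton_subset_iff, hxy, ne_eq, not_false_eq_true,
        and_true] using this

theorem probSTS_eq (n : ℕ) (p : ℝ) : probSTS n p =
    Pr (fun t : Finset (Fin n) => if t.card = 3 then p else 0) fun T => Dec T (KN (Fin n)) := by
  classical
  have e : (fun t : Finset (Fin n) => if t.card = 3 then p else 0) =
      fun t => if t ∈ powersetCard 3 (univ : Finset (Fin n)) then p else 0 := by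
    funext t; simp only [mem_powersetCard, subset_univ, true_and]
  rw [e, Pr_eq, Ex_const_on, probSTS, sum_filter, card_powersetCard, card_univ, Fintype.card_fin]
  refine sum_congr rfl fun T _ => ?_
  simp only [dec_iff_sts]
  split_ifs <;> simp

theorem isP_three {W : Type} {p : ℝ} (p0 : 0 ≤ p) (p1 : p ≤ 1) :
    IsP fun t : Finset W => if t.card = 3 then p else 0 := fun t => by
  by_cases ht : t.card = 3
  · simp only [if_pos ht]; exact ⟨p0, p1⟩
  · simp only [if_neg ht]; norm_num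

/-- the upper half of the threshold in the finite layer -/
def Upper : Prop := ∀ ε δ : ℝ, 0 < ε → 0 < δ → ∃ N : ℕ, ∀ n : ℕ, N ≤ n → (n % 6 = 1 ∨ n % 6 = 3) →
  ∀ p : ℝ, 0 ≤ p → p ≤ 1 → (2 + ε) * Real.log n / n ≤ p →
    Pr (fun t : Finset (Fin n) => if t.card = 3 then p else 0) (fun T => ¬ Dec T (KN (Fin n))) ≤ δ

/-- uniform form of the sharp threshold -/
theorem uniform_of_upper (hU : Upper) {ε δ : ℝ} (hε : 0 < ε) (hδ : 0 < δ) : ∃ N : ℕ, ∀ n : ℕ,
    N ≤ n → (n % 6 = 1 ∨ n % 6 = 3) → ∀ p : ℝ, 0 ≤ p → p ≤ 1 →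
      (p ≤ (1 - ε) * (2 * Real.log n / n) → probSTS n p ≤ δ) ∧
      ((1 + ε) * (2 * Real.log n / n) ≤ p → 1 - δ ≤ probSTS n p) := by
  obtain ⟨N1, h1⟩ := lower (ε := 2 * ε) (by linarith) hδ
  obtain ⟨N2, h2⟩ := hU (2 * ε) δ (by linarith) hδ
  refine ⟨max N1 N2, fun n hn h6 p p0 p1 => ⟨fun h => ?_, fun h => ?_⟩⟩
  · rw [probSTS_eq]
    refine h1 (Fin n) (by simpa using le_of_max_le_left hn) _ (isP_three p0 p1) fun t ht => ?_
    rw [if_pos ht, Fintype.card_fin]
    exact h.trans (le_of_eq (by ring))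
  · have := h2 n (le_of_max_le_right hn) h6 p p0 p1 ((le_of_eq (by ring)).trans h)
    rw [Pr_not, ← probSTS_eq] at this
    linarith

/-- the hand-in statement from the upper half -/
theorem final_of_upper (hU : Upper) (ε : ℝ) (hε : 0 < ε) (p : ℕ → ℝ)
    (hp : ∀ n, 0 ≤ p n ∧ p n ≤ 1) :
    ((∀ᶠ n : ℕ in atTop ⊓ 𝓟 {n | n % 6 = 1 ∨ n % 6 = 3}, p n ≤ (1 - ε) * (2 * Real.log n / n)) →
      Tendsto (fun n => probSTS n (p n)) (atTop ⊓ 𝓟 {n | n % 6 = 1 ∨ n % 6 = 3}) (𝓝 0)) ∧
    ((∀ᶠ n : ℕ in atTop ⊓ 𝓟 {n | n % 6 = 1 ∨ n % 6 = 3}, (1 + ε) * (2 * Real.log n / n) ≤ p n) →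
      Tendsto (fun n => probSTS n (p n)) (atTop ⊓ 𝓟 {n | n % 6 = 1 ∨ n % 6 = 3}) (𝓝 1)) := by
  have b0 : ∀ n, 0 ≤ probSTS n (p n) := fun n => by
    rw [probSTS_eq]; exact Pr_nonneg (isP_three (hp n).1 (hp n).2) _
  have b1 : ∀ n, probSTS n (p n) ≤ 1 := fun n => by
    rw [probSTS_eq]; exact Pr_le_one (isP_three (hp n).1 (hp n).2) _
  have key : ∀ δ : ℝ, 0 < δ → ∀ᶠ n : ℕ in atTop ⊓ 𝓟 {n | n % 6 = 1 ∨ n % 6 = 3},
      (p n ≤ (1 - ε) * (2 * Real.log n / n) → probSTS n (p n) ≤ δ) ∧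
      ((1 + ε) * (2 * Real.log n / n) ≤ p n → 1 - δ ≤ probSTS n (p n)) := fun δ hδ => by
    obtain ⟨N, hN⟩ := uniform_of_upper hU hε hδ
    rw [eventually_inf_principal]
    filter_upwards [eventually_ge_atTop N] with n hn h6 using hN n hn h6 _ (hp n).1 (hp n).2
  constructor
  · intro h
    refine tendsto_order.2 ⟨fun a ha => Eventually.of_forall fun n => ha.trans_le (b0 n),
      fun a ha => ?_⟩
    filter_upwards [h, key (a / 2) (by linarith)] with n h1 h2
    linarith [h2.1 h1]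
  · intro h
    refine tendsto_order.2 ⟨fun a ha => ?_,
      fun a ha => Eventually.of_forall fun n => (b1 n).trans_lt ha⟩
    filter_upwards [h, key ((1 - a) / 2) (by linarith)] with n h1 h2
    linarith [h2.2 h1]

end Pool.Agent.P.MP_224820_co.St
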