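import Mathlib

/-! The objects of the statement: Steiner triple systems and the binomial random 3-graph. -/

namespace Pool.Agent.P.MP_224820_co

open Finset

/-- `S` is a Steiner triple system on the vertex set `Fin n`: a set of triangles (3-subsets) such
that every edge (2-subset) lies in exactly one of them -/
def IsSTS {n : ℕ} (S : Finset (Finset (Fin n))) : Prop :=
  (∀ t ∈ S, t.card = 3) ∧ ∀ e : Finset (Fin n), e.card = 2 → ∃! t, t ∈ S ∧ e ⊆ t

open Classical in
/-- the probability that the set `T` of kept triangles contains a Steiner triple system when each
of the `n.choose 3` triangles of `K_n` is kept independently with probability `p` -/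
noncomputable def probSTS (n : ℕ) (p : ℝ) : ℝ :=
  ∑ T ∈ (powersetCard 3 (univ : Finset (Fin n))).powerset with ∃ S ⊆ T, IsSTS S,
    p ^ T.card * (1 - p) ^ (n.choose 3 - T.card)

end Pool.Agent.P.MP_224820_co
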