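import Pool.Agent.P.MP_224820_co.St.CoverP

/-! Stage 0, deterministic part: covering the short edges by surgery on a packing. -/

set_option autoImplicit false

namespace Pool.Agent.P.MP_224820_co.St

open Finset

variable {V : Type} [Fintype V] [DecidableEq V]

/-- `K` is a family of edge-disjoint triangles of `G` -/
def Pack (K : Finset (Finset V)) (G : Finset (Sym2 V)) : Prop :=
  (∀ t ∈ K, t.card = 3 ∧ ed t ⊆ G) ∧ ∀ t ∈ K, ∀ t' ∈ K, t ≠ t' → Disjoint (ed t) (ed t')

/-- the edges of the triangles of `K` that meet `F` -/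
def clo (K : Finset (Finset V)) (F : Finset (Sym2 V)) : Finset (Sym2 V) :=
  (K.filter fun k => ¬ Disjoint (ed k) F).biUnion ed

omit [Fintype V] in
theorem mem_clo {K : Finset (Finset V)} {F : Finset (Sym2 V)} {g : Sym2 V} :
    g ∈ clo K F ↔ ∃ k ∈ K, g ∈ ed k ∧ ∃ e ∈ ed k, e ∈ F := by
  simp only [clo, mem_biUnion, mem_filter, not_disjoint_iff]
  constructor
  · rintro ⟨k, ⟨h1, e, h2, h3⟩, h4⟩; exact ⟨k, h1, h4, e, h2, h3⟩
  · rintro ⟨k, h1, h4, e, h2, h3⟩; exact ⟨k, ⟨h1, e, h2, h3⟩, h4⟩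

omit [Fintype V] in
theorem Pack.card_meet {K : Finset (Finset V)} {G : Finset (Sym2 V)} (h : Pack K G)
    (F : Finset (Sym2 V)) : (K.filter fun k => ¬ Disjoint (ed k) F).card ≤ F.card := by
  calc (K.filter fun k => ¬ Disjoint (ed k) F).card
      = ∑ _k ∈ K.filter (fun k => ¬ Disjoint (ed k) F), 1 := card_eq_sum_ones _
    _ ≤ ∑ k ∈ K.filter (fun k => ¬ Disjoint (ed k) F), (ed k ∩ F).card :=
        sum_le_sum fun k hk => card_pos.2 (not_disjoint_iff_nonempty_inter.1 (mem_filter.1 hk).2)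
    _ = ((K.filter fun k => ¬ Disjoint (ed k) F).biUnion fun k => ed k ∩ F).card := by
        rw [card_biUnion]
        intro k hk k' hk' hne
        exact (h.2 k (mem_filter.1 hk).1 k' (mem_filter.1 hk').1 hne).mono inter_subset_left
          inter_subset_left
    _ ≤ F.card := card_le_card (biUnion_subset.2 fun k _ => inter_subset_right)

omit [Fintype V] in
theorem card_biUnion_ed {K : Finset (Finset V)} (h : ∀ t ∈ K, t.card = 3) :
    (K.biUnion ed).card ≤ 3 * K.card := by
  refine card_biUnion_le.trans ?_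
  rw [sum_congr rfl fun t ht => card_ed (h t ht), sum_const, smul_eq_mul, mul_comm]

omit [Fintype V] in
theorem Pack.card_clo {K : Finset (Finset V)} {G : Finset (Sym2 V)} (h : Pack K G)
    (F : Finset (Sym2 V)) : (clo K F).card ≤ 3 * F.card :=
  (card_biUnion_ed fun t ht => (h.1 t (mem_filter.1 ht).1).1).trans
    (Nat.mul_le_mul_left 3 (h.card_meet F))

omit [Fintype V] [DecidableEq V] in
theorem NoLoop.mono {G H : Finset (Sym2 V)} (hG : NoLoop G) (h : H ⊆ G) : NoLoop H :=
  fun e he => hG e (h he)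

omit [Fintype V] in
theorem Ty.mono {L L' R R' : Finset (Sym2 V)} (h : L ⊆ L') (h' : R ⊆ R') {t : Finset V}
    (ht : Ty L R t) : Ty L' R' t := by
  obtain ⟨u, v, w, rfl, a, b, c⟩ := ht
  exact ⟨u, v, w, rfl, h a, h' b, h' c⟩

open Classical in
/-- present reservoir triangles on an edge -/
noncomputable def ysf (G a : Finset (Sym2 V)) (R : Finset (Finset V)) (f : Sym2 V) :
    Finset (Finset V) := R.filter fun t => Ty G a t ∧ f ∈ ed t

open Classical in
/-- plain triangles whose use could release an edge of a reservoir triangle on `f` -/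
noncomputable def csf (G a S G' : Finset (Sym2 V)) (K R : Finset (Finset V)) (f : Sym2 V) :
    Finset (Finset V) :=
  univ.filter fun t => Ty S G' t ∧ ∃ g ∈ ed t, g ∈ G' ∧ g ∈ clo K ((ysf G a R f).biUnion ed)

theorem surgery {G a S : Finset (Sym2 V)} (hG : NoLoop G) (ha : NoLoop a) (hd : Disjoint G a)
    {K R A : Finset (Finset V)} (hK : Pack K G) (hS : S ⊆ G) {D D' : ℝ} (hD : 0 < D) (hD' : 0 < D')
    (h1 : ∀ e ∈ G, e ∉ S → D ≤ cnt R fun t => Ty G a t ∧ e ∈ ed t)
    (h2 : ∀ f ∈ a, (cnt R (fun t => Ty (G \ K.biUnion ed) a t ∧ f ∈ ed t) : ℝ) ≤ D / 8)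
    (h3 : ∀ e ∈ S, D' ≤ cnt A fun t => Ty S (G \ (S ∪ clo K S)) t ∧ e ∈ ed t)
    (h4 : ∀ f ∈ G \ (S ∪ clo K S),
      (cnt A (fun t => Ty S (G \ (S ∪ clo K S)) t ∧ f ∈ ed t) : ℝ) ≤ D' / 4)
    (h5 : ∀ f ∈ a, 9 * ((A ∩ csf G a S (G \ (S ∪ clo K S)) K R f).card : ℝ) ≤ D / 8) :
    ∃ a' ⊆ a, Dec (K ∪ R ∪ A) (G ∪ a') := by
  classical
  set G' := G \ (S ∪ clo K S) with hG'
  set S' := S \ K.biUnion ed with hS'
  have hG'G : G' ⊆ G := sdiff_subset
  have nG' : NoLoop G' := hG.mono hG'G
  have nS : NoLoop S := hG.mono hS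
  have nS' : NoLoop S' := nS.mono sdiff_subset
  have dSG : Disjoint S G' := disjoint_left.2 fun e he h => (mem_sdiff.1 h).2 (mem_union_left _ he)
  have dS'G : Disjoint S' G' := dSG.mono_left sdiff_subset
  -- cover the uncovered short edges by plain triangles
  obtain ⟨R', hR', hdec⟩ := cover_det nS' nG' dS'G (T := A.filter fun t => Ty S' G' t)
    (D := D') (d := D' / 4) hD' (by linarith) (by linarith)
    (fun e he => by
      refine (h3 e (mem_sdiff.1 he).1).trans (Nat.cast_le.2 (cnt_mono fun t ht h => ?_))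
      induction e using Sym2.ind with
      | _ u v =>
      obtain ⟨w, rfl, b, c⟩ := Ty_of_left nS nG' dSG h.1 (mem_sdiff.1 he).1 h.2
      have : Ty S' G' ({u, v, w} : Finset V) := ⟨u, v, w, rfl, he, b, c⟩
      exact ⟨mem_filter.2 ⟨ht, this⟩, this, h.2⟩)
    (fun f hf => by
      refine le_trans (Nat.cast_le.2 (cnt_mono fun t ht h => ?_)) (h4 f hf)
      exact ⟨(mem_filter.1 ht).1, h.1.mono sdiff_subset Subset.rfl, h.2⟩)
  obtain ⟨KA, hKA, hKA1, hKA2⟩ := hdec
  have hdec : Dec A (S' ∪ R') := ⟨KA, hKA.trans (filter_subset _ _), hKA1, hKA2⟩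
  set K' := K.filter fun k => Disjoint (ed k) R' with hK'
  have dK' : Dec K (K'.biUnion ed) := Dec_biUnion (filter_subset _ _)
    (fun t ht => (hK.1 t (mem_filter.1 ht).1).1)
    fun t ht t' ht' hne => hK.2 t (mem_filter.1 ht).1 t' (mem_filter.1 ht').1 hne
  have dis1 : Disjoint (S' ∪ R') (K'.biUnion ed) := by
    rw [disjoint_left]
    intro e he h
    obtain ⟨k, hk, hek⟩ := mem_biUnion.1 h
    rcases mem_union.1 he with he | he
    · exact (mem_sdiff.1 he).2 (mem_biUnion.2 ⟨k, (mem_filter.1 hk).1, hek⟩)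
    · exact disjoint_left.1 (mem_filter.1 hk).2 hek he
  set C := S' ∪ R' ∪ K'.biUnion ed with hC
  have hCG : C ⊆ G := by
    refine union_subset (union_subset (sdiff_subset.trans hS) (hR'.trans hG'G)) ?_
    exact biUnion_subset.2 fun k hk => (hK.1 k (mem_filter.1 hk).1).2
  have dC : Dec (K ∪ R ∪ A) C := Dec_union dis1 (Dec_mono subset_union_right hdec)
    (Dec_mono (subset_union_left.trans subset_union_left) dK')
  have hSC : S ⊆ C := by
    intro e he
    by_cases h : e ∈ K.biUnion ed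
    · obtain ⟨k, hk, hek⟩ := mem_biUnion.1 h
      refine mem_union_right _ (mem_biUnion.2 ⟨k, mem_filter.2 ⟨hk, ?_⟩, hek⟩)
      rw [disjoint_left]
      intro g hg hgR
      exact (mem_sdiff.1 (hR' hgR)).2 (mem_union_right _ (mem_clo.2 ⟨k, hk, hg, e, hek, he⟩))
    · exact mem_union_left _ (mem_union_left _ (mem_sdiff.2 ⟨he, h⟩))
  have nL : NoLoop (G \ C) := hG.mono sdiff_subset
  have dL : Disjoint (G \ C) a := hd.mono_left sdiff_subset
  obtain ⟨a', ha', hdec2⟩ := cover_det nL ha dL (T := R) (D := D) (d := D / 4) hD (by linarith)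
    (by linarith)
    (fun e he => by
      refine (h1 e (mem_sdiff.1 he).1 fun h => (mem_sdiff.1 he).2 (hSC h)).trans
        (Nat.cast_le.2 (cnt_mono fun t ht h => ⟨ht, ?_, h.2⟩))
      induction e using Sym2.ind with
      | _ u v =>
      obtain ⟨w, rfl, b, c⟩ := Ty_of_left hG ha hd h.1 (mem_sdiff.1 he).1 h.2
      exact ⟨u, v, w, rfl, he, b, c⟩)
    (fun f hf => by
      have a1 := h2 f hf
      have a2 := h5 f hf
      set W := clo K ((A ∩ csf G a S G' K R f).biUnion ed) with hW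
      have cW : W.card ≤ 9 * (A ∩ csf G a S G' K R f).card := by
        refine (hK.card_clo _).trans ?_
        have := card_biUnion_ed (K := A ∩ csf G a S G' K R f) fun t ht => by
          have := (mem_inter.1 ht).2
          unfold csf at this
          exact (Ty_card nS nG' (mem_filter.1 this).2.1).1
        omega
      have key : cnt R (fun t => Ty (G \ C) a t ∧ f ∈ ed t)
          ≤ cnt R (fun t => Ty (G \ K.biUnion ed) a t ∧ f ∈ ed t) + W.card := by
        rw [cnt_eq, cnt_eq]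
        have hsub : R.filter (fun t => Ty (G \ C) a t ∧ f ∈ ed t) ⊆
            R.filter (fun t => Ty (G \ K.biUnion ed) a t ∧ f ∈ ed t) ∪
              (W.filter (· ∈ G)).biUnion fun g =>
                R.filter fun t => t.card = 3 ∧ f ∈ ed t ∧ g ∈ ed t := by
          intro t ht
          rw [mem_filter] at ht
          obtain ⟨htR, hty, hft⟩ := ht
          have h3t := (Ty_card nL ha hty).1
          have hty' : Ty G a t := hty.mono sdiff_subset Subset.rfl
          obtain ⟨u, v, w, rfl, b, c, d⟩ := hty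
          have huv : s(u, v) ∈ ed ({u, v, w} : Finset V) :=
            mk_mem_ed.2 ⟨by simp, by simp, nL.ne b⟩
          by_cases hb : s(u, v) ∈ K.biUnion ed
          · refine mem_union_right _ (mem_biUnion.2 ⟨s(u, v), mem_filter.2 ⟨?_, (mem_sdiff.1 b).1⟩,
              mem_filter.2 ⟨htR, h3t, hft, huv⟩⟩)
            obtain ⟨k, hk, hek⟩ := mem_biUnion.1 hb
            have hk' : ¬ Disjoint (ed k) R' := fun h => (mem_sdiff.1 b).2
              (mem_union_right _ (mem_biUnion.2 ⟨k, mem_filter.2 ⟨hk, h⟩, hek⟩))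
            obtain ⟨g, hg1, hg2⟩ := not_disjoint_iff.1 hk'
            obtain ⟨τ, ⟨hτ, hgτ⟩, -⟩ := hKA2 g (mem_union_right _ hg2)
            have hτ' := mem_filter.1 (hKA hτ)
            refine mem_clo.2 ⟨k, hk, hek, g, hg1, mem_biUnion.2 ⟨τ, mem_inter.2 ⟨hτ'.1, ?_⟩, hgτ⟩⟩
            unfold csf
            refine mem_filter.2 ⟨mem_univ _, hτ'.2.mono sdiff_subset Subset.rfl, g, hgτ, hR' hg2,
              mem_clo.2 ⟨k, hk, hg1, s(u, v), hek, mem_biUnion.2 ⟨{u, v, w}, ?_, huv⟩⟩⟩
            unfold ysf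
            exact mem_filter.2 ⟨htR, hty', hft⟩
          · exact mem_union_left _ (mem_filter.2 ⟨htR,
              ⟨u, v, w, rfl, mem_sdiff.2 ⟨(mem_sdiff.1 b).1, hb⟩, c, d⟩, hft⟩)
        refine (card_le_card hsub).trans ((card_union_le _ _).trans (Nat.add_le_add_left ?_ _))
        refine card_biUnion_le.trans ?_
        refine le_trans (sum_le_sum (g := fun _ => 1) fun g hg => ?_) ?_
        · rw [card_le_one]
          intro t ht t' ht'
          rw [mem_filter] at ht ht'
          have hne : f ≠ g := fun h => disjoint_left.1 hd (mem_filter.1 hg).2 (h ▸ hf)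
          exact eq_of_two_edges ht.2.1 ht'.2.1 hne ht.2.2.1 ht.2.2.2 ht'.2.2.1 ht'.2.2.2
        · rw [← card_eq_sum_ones]
          exact card_filter_le _ _
      have k1 : (cnt R (fun t => Ty (G \ C) a t ∧ f ∈ ed t) : ℝ)
          ≤ cnt R (fun t => Ty (G \ K.biUnion ed) a t ∧ f ∈ ed t) + W.card := by
        exact_mod_cast key
      have k2 : (W.card : ℝ) ≤ 9 * (A ∩ csf G a S G' K R f).card := by exact_mod_cast cW
      linarith)
  refine ⟨a', ha', ?_⟩
  have e : G ∪ a' = C ∪ (G \ C ∪ a') := by rw [← union_assoc, union_sdiff_of_subset hCG]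
  rw [e]
  refine Dec_union ?_ dC (Dec_mono (subset_union_right.trans subset_union_left) hdec2)
  exact disjoint_union_right.2 ⟨disjoint_sdiff, (hd.mono hCG ha')⟩

end Pool.Agent.P.MP_224820_co.St
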