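import Pool.Agent.P.MP_224820_co.St.IfaceP

/-! Step BD. -/

set_option autoImplicit false

namespace Pool.Agent.P.MP_224820_co.St

open Finset

theorem bd_exp {x : ℝ} (h : |x| ≤ 1) : Real.exp x ≤ 1 + x + x ^ 2 := by
  have h1 := Real.abs_exp_sub_one_sub_id_le h
  have h2 := le_abs_self (Real.exp x - 1 - x)
  linarith

theorem bd_pt {q u v c lam : ℝ} (h0 : 0 ≤ q) (h1 : q ≤ 1) (hl : 0 ≤ lam) (hc : |u - v| ≤ c)
    (hlc : lam * c ≤ 1) :
    q * Real.exp (lam * u) + (1 - q) * Real.exp (lam * v) ≤
      Real.exp (lam ^ 2 * (q * c ^ 2)) * Real.exp (lam * (q * u + (1 - q) * v)) := by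
  obtain ⟨t, ht⟩ : ∃ t, t = lam * (u - v) := ⟨_, rfl⟩
  obtain ⟨m, hm⟩ : ∃ m, m = lam * (q * u + (1 - q) * v) := ⟨_, rfl⟩
  have ht1 : |t| ≤ lam * c := by
    rw [ht, abs_mul, abs_of_nonneg hl]
    exact mul_le_mul_of_nonneg_left hc hl
  have ht0 := abs_nonneg t
  have ht2 : t ^ 2 ≤ (lam * c) ^ 2 := by
    rw [← sq_abs t]
    exact pow_le_pow_left₀ ht0 ht1 2
  have e1 : lam * u = (1 - q) * t + m := by rw [ht, hm]; ring
  have e2 : lam * v = -q * t + m := by rw [ht, hm]; ring
  have a1 : |(1 - q) * t| ≤ 1 := by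
    rw [abs_mul, abs_of_nonneg (sub_nonneg.2 h1)]
    nlinarith
  have a2 : |-q * t| ≤ 1 := by
    rw [abs_mul, abs_neg, abs_of_nonneg h0]
    nlinarith
  have b1 := mul_le_mul_of_nonneg_left (bd_exp a1) h0
  have b2 := mul_le_mul_of_nonneg_left (bd_exp a2) (sub_nonneg.2 h1)
  have b3 := Real.add_one_le_exp (lam ^ 2 * (q * c ^ 2))
  have b4 : q * (1 - q) * t ^ 2 ≤ lam ^ 2 * (q * c ^ 2) := by
    have c1 : q * (1 - q) * t ^ 2 ≤ q * t ^ 2 := by
      have := mul_nonneg (mul_nonneg h0 h0) (sq_nonneg t)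
      nlinarith
    have c2 := mul_le_mul_of_nonneg_left ht2 h0
    nlinarith
  have b5 : q * Real.exp ((1 - q) * t) + (1 - q) * Real.exp (-q * t) ≤
      Real.exp (lam ^ 2 * (q * c ^ 2)) := by
    have c3 : q * (1 + (1 - q) * t + ((1 - q) * t) ^ 2) + (1 - q) * (1 + -q * t + (-q * t) ^ 2)
        = 1 + q * (1 - q) * t ^ 2 := by ring
    linarith
  rw [e1, e2, ← hm, Real.exp_add, Real.exp_add]
  have b6 := mul_le_mul_of_nonneg_right b5 (Real.exp_pos m).le
  linarith

theorem tbd_mgf {α : Type} [Fintype α] [DecidableEq α] {p : α → ℝ} (hp : IsP p) (c : α → ℝ)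
    {lam : ℝ} (hl : 0 ≤ lam) (hlc : ∀ a, lam * c a ≤ 1) (s : Finset α) :
    ∀ f : Finset α → ℝ, Loc s f → (∀ a R, |f (insert a R) - f (R.erase a)| ≤ c a) →
      Ex p (fun R => Real.exp (lam * f R)) ≤
        Real.exp (lam ^ 2 * (∑ a ∈ s, p a * c a ^ 2) + lam * Ex p f) := by
  induction s using Finset.induction_on with
  | empty =>
    intro f hf _
    have h : ∀ R, f R = f ∅ := fun R => hf _ _ (by simp)
    rw [Ex_congr h, Ex_congr (g := fun _ => Real.exp (lam * f ∅)) fun R => by rw [h R],
      Ex_const, Ex_const]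
    simp
  | insert a s ha ih =>
    intro f hf hc
    have hg : Loc s (fun R => p a * f (insert a R) + (1 - p a) * f (R.erase a)) := by
      intro R R' h
      have h1 : ∀ b ∈ s, b ∈ R ↔ b ∈ R' := fun b hb => by
        simpa [hb] using Finset.ext_iff.1 h b
      have h2 : f (insert a R) = f (insert a R') := by
        refine hf _ _ ?_
        ext b
        by_cases hb : b = a
        · simp [hb]
        · by_cases hs : b ∈ s
          · simp [hb, hs, h1 b hs]
          · simp [hb, hs]
      have h3 : f (R.erase a) = f (R'.erase a) := by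
        refine hf _ _ ?_
        ext b
        by_cases hb : b = a
        · simp [hb]
        · by_cases hs : b ∈ s
          · simp [hb, hs, h1 b hs]
          · simp [hb, hs]
      simp only [h2, h3]
    have hd : ∀ b R, |(p a * f (insert a (insert b R)) + (1 - p a) * f ((insert b R).erase a)) -
        (p a * f (insert a (R.erase b)) + (1 - p a) * f ((R.erase b).erase a))| ≤ c b := by
      intro b R
      by_cases hb : b = a
      · subst hb
        have e1 : insert b (insert b R) = insert b (R.erase b) := by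
          ext x; by_cases hx : x = b <;> simp [hx]
        have e2 : (insert b R).erase b = (R.erase b).erase b := by
          ext x; by_cases hx : x = b <;> simp [hx]
        rw [e1, e2, sub_self, abs_zero]
        exact (abs_nonneg _).trans (hc b R)
      · have e1 : insert a (insert b R) = insert b (insert a R) := insert_comm _ _ _
        have e2 : insert a (R.erase b) = (insert a R).erase b :=
          (erase_insert_of_ne (Ne.symm hb)).symm
        have e3 : (insert b R).erase a = insert b (R.erase a) := erase_insert_of_ne hb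
        have e4 : (R.erase b).erase a = (R.erase a).erase b := erase_right_comm
        rw [e1, e2, e3, e4]
        have c1 := abs_le.1 (hc b (insert a R))
        have c2 := abs_le.1 (hc b (R.erase a))
        have q0 := (hp a).1
        have q1 := sub_nonneg.2 (hp a).2
        rw [abs_le]
        constructor
        · nlinarith [mul_le_mul_of_nonneg_left c1.1 q0, mul_le_mul_of_nonneg_left c2.1 q1]
        · nlinarith [mul_le_mul_of_nonneg_left c1.2 q0, mul_le_mul_of_nonneg_left c2.2 q1]
    have h3 := ih _ hg hd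
    rw [← Ex_coord p a f] at h3
    rw [Ex_coord p a (fun R => Real.exp (lam * f R))]
    refine (Ex_mono hp fun R => bd_pt (hp a).1 (hp a).2 hl (hc a R) (hlc a)).trans ?_
    rw [Ex_mul, sum_insert ha, mul_add, add_assoc, Real.exp_add]
    exact mul_le_mul_of_nonneg_left h3 (Real.exp_pos _).le

theorem bd_tail {α : Type} [Fintype α] [DecidableEq α] {p : α → ℝ} (hp : IsP p)
    (f : Finset α → ℝ) (c : α → ℝ) (hc : ∀ a R, |f (insert a R) - f (R.erase a)| ≤ c a)
    {lam Vr : ℝ} (x : ℝ) (hl : 0 ≤ lam) (hlc : ∀ a, lam * c a ≤ 1)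
    (hV : ∑ a, p a * c a ^ 2 ≤ Vr) :
    Pr p (fun R => x ≤ f R - Ex p f) ≤ Real.exp (lam ^ 2 * Vr - lam * x) := by
  have h1 := tbd_mgf hp c hl hlc univ f (fun R R' h => by
    rw [inter_univ, inter_univ] at h
    rw [h]) hc
  refine (Pr_le_Ex hp (f := fun R => Real.exp (-(lam * (Ex p f + x))) * Real.exp (lam * f R))
    (fun R => by positivity) fun R hR => ?_).trans ?_
  · rw [← Real.exp_add]
    refine Real.one_le_exp ?_
    have := mul_le_mul_of_nonneg_left hR hl
    linarith
  · rw [Ex_mul]
    refine (mul_le_mul_of_nonneg_left h1 (Real.exp_pos _).le).trans ?_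
    rw [← Real.exp_add]
    refine Real.exp_le_exp.2 ?_
    have := mul_le_mul_of_nonneg_left hV (sq_nonneg lam)
    linarith

theorem p_BD :
    S_BD := by
  intro α _ _ p hp f c hc lam Vr x hl hlc hV
  refine ⟨bd_tail hp f c hc x hl hlc hV, ?_⟩
  have h := bd_tail hp (fun R => -1 * f R) c (fun a R => by
    rw [← mul_sub, abs_mul]
    simpa using hc a R) x hl hlc hV
  rw [Ex_mul] at h
  refine le_of_eq_of_le (Pr_congr fun R => ?_) h
  constructor <;> intro h1 <;> linarith

end Pool.Agent.P.MP_224820_co.St
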