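import Pool.Agent.P.MP_224820_co.St.IfaceN
import Pool.Agent.P.MP_224820_co.St.IfaceP
import Pool.Agent.P.MP_224820_co.St.CoverP

/-! Step CD. -/

set_option autoImplicit false

namespace Pool.Agent.P.MP_224820_co.St

open Finset

section
variable {V : Type} [Fintype V] [DecidableEq V]

open Classical in
/-- typed triangles through a vertex -/
noncomputable def cd_at (L R : Finset (Sym2 V)) (v : V) : Finset (Finset V) :=
  univ.filter fun t => Ty L R t ∧ v ∈ t

theorem cd_mem_at {L R : Finset (Sym2 V)} {v : V} {t : Finset V} :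
    t ∈ cd_at L R v ↔ Ty L R t ∧ v ∈ t := by
  simp [cd_at]

theorem cd_mem_blk {L R : Finset (Sym2 V)} {e : Sym2 V} {t : Finset V} :
    t ∈ blk L R e ↔ Ty L R t ∧ e ∈ ed t := by
  simp [blk]

theorem cd_card_at {L R : Finset (Sym2 V)} {d : ℝ} (hd : ∀ v, ((nb L v).card : ℝ) ≤ d) (v : V) :
    ((cd_at L R v).card : ℝ) ≤ 2 * Fintype.card V * d := by
  have h1 : cd_at L R v ⊆ ((nb L v ×ˢ (univ : Finset V)).image fun x => ({v, x.1, x.2} : Finset V))
      ∪ (((univ : Finset V).sigma fun a => nb L a).image fun x => ({x.1, x.2, v} : Finset V)) := by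
    intro t ht
    obtain ⟨⟨a, b, c, rfl, k1, -, -⟩, hv⟩ := cd_mem_at.1 ht
    rw [mem_union, mem_image, mem_image]
    simp only [mem_insert, mem_singleton] at hv
    rcases hv with rfl | rfl | rfl
    · exact Or.inl ⟨(b, c), mem_product.2 ⟨mem_nb.2 k1, mem_univ _⟩, rfl⟩
    · refine Or.inl ⟨(a, c), mem_product.2 ⟨mem_nb.2 (by rwa [Sym2.eq_swap]), mem_univ _⟩, ?_⟩
      exact insert_comm _ _ _
    · exact Or.inr ⟨⟨a, b⟩, mem_sigma.2 ⟨mem_univ _, mem_nb.2 k1⟩, rfl⟩
  have h2 : (cd_at L R v).card ≤ (nb L v).card * Fintype.card V + ∑ a, (nb L a).card := by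
    refine (card_le_card h1).trans ((card_union_le _ _).trans (Nat.add_le_add ?_ ?_))
    · exact card_image_le.trans (by rw [card_product, card_univ])
    · exact card_image_le.trans (by rw [card_sigma])
  have h3 : ((cd_at L R v).card : ℝ) ≤ (nb L v).card * Fintype.card V + ∑ a, ((nb L a).card : ℝ) := by
    exact_mod_cast h2
  have h4 : ∑ a, ((nb L a).card : ℝ) ≤ ∑ _a : V, d := sum_le_sum fun a _ => hd a
  rw [sum_const, nsmul_eq_mul, card_univ] at h4
  have h5 := hd v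
  have h6 : (0 : ℝ) ≤ Fintype.card V := Nat.cast_nonneg _
  nlinarith

theorem cd_sum {L R : Finset (Sym2 V)} (q : ℝ) {F : Finset (Finset V)} (hF : ∀ t ∈ F, Ty L R t) :
    ∑ t ∈ F, tyP L R q t = F.card * q := by
  rw [sum_congr rfl (g := fun _ => q) fun t ht => by simp [tyP, hF t ht], sum_const, nsmul_eq_mul]

theorem cd_blk_left {L R : Finset (Sym2 V)} (hL : NoLoop L) (hR : NoLoop R) (hLR : Disjoint L R)
    {u v : V} (he : s(u, v) ∈ L) : (blk L R s(u, v)).card = (nb R u ∩ nb R v).card := by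
  have h := sum_typed_left hL hR hLR he fun _ => 1
  simp only [sum_const, nsmul_eq_mul, mul_one, Nat.cast_inj] at h
  exact h

theorem cd_blk_right {L R : Finset (Sym2 V)} (hL : NoLoop L) (hR : NoLoop R) (hLR : Disjoint L R)
    {u w : V} (he : s(u, w) ∈ R) :
    (blk L R s(u, w)).card ≤ (nb L u ∩ nb R w).card + (nb L w ∩ nb R u).card :=
  card_typed_right hL hR hLR he

theorem cd_det {L R : Finset (Sym2 V)} (hL : NoLoop L) (hR : NoLoop R) (hLR : Disjoint L R)
    {T : Finset (Finset V)} {k k3 : ℝ} (hk : 0 ≤ k)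
    (h1 : ∀ e ∈ L, 4 * k < ((blk L R e ∩ T).card : ℝ))
    (h2 : ∀ f ∈ R, ((blk L R f ∩ T).card : ℝ) < k)
    (h3 : ∀ v, ((cd_at L R v ∩ T).card : ℝ) < k3) :
    ∃ U ⊆ R, Dec T (L ∪ U) ∧ ∀ v, ((nb U v).card : ℝ) ≤ 2 * k3 := by
  classical
  have hc : ∀ e, cnt (T.filter (Ty L R)) (fun t => Ty L R t ∧ e ∈ ed t) = (blk L R e ∩ T).card := by
    intro e
    rw [cnt_eq]
    congr 1
    ext t
    simp only [mem_filter, mem_inter, cd_mem_blk]
    tauto
  have hf := Nat.lt_floor_add_one (4 * k)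
  obtain ⟨U, hU, hD⟩ := cover_det hL hR hLR (T := T.filter (Ty L R)) (D := (⌊4 * k⌋₊ : ℝ) + 1) (d := k)
    (by positivity) hk hf.le
    (fun e he => by
      rw [hc]
      have : ⌊4 * k⌋₊ < (blk L R e ∩ T).card := (Nat.floor_lt (by positivity)).2 (h1 e he)
      exact_mod_cast this)
    (fun f hf => by rw [hc]; exact (h2 f hf).le)
  refine ⟨U, hU, Dec_mono (filter_subset _ _) hD, fun v => ?_⟩
  have a1 := Dec_deg hD v
  have a2 : (nb U v).card ≤ (nb (L ∪ U) v).card := card_le_card (nb_mono subset_union_right v)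
  have a3 : (T.filter (Ty L R)).filter (fun t => v ∈ t) = cd_at L R v ∩ T := by
    ext t
    simp only [mem_filter, mem_inter, cd_mem_at]
    tauto
  rw [a3] at a1
  have a4 : ((nb U v).card : ℝ) ≤ 2 * (cd_at L R v ∩ T).card := by exact_mod_cast a2.trans a1
  linarith [h3 v]

end

theorem p_CD (hCH1 : S_CH1) (hMONO : S_MONO) :
    S_CD := by
  intro V _ _ L R hL hR hLR q p hq hp hqp N1 N2 d k k3 l1 l2 hk hl1 hl2 hN1 hN2 hd
  have hle : ∀ t, tyP L R q t ≤ p t := by
    intro t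
    unfold tyP
    split_ifs with h
    · exact hqp t h
    · exact (hp t).1
  have hp' : IsP (tyP L R q) := by
    intro t
    refine ⟨?_, (hle t).trans (hp t).2⟩
    unfold tyP
    split_ifs
    · exact hq
    · exact le_rfl
  refine (hMONO _ (tyP L R q) p hp' hp hle
    (fun T => ∃ U ⊆ R, Dec T (L ∪ U) ∧ ∀ v, ((nb U v).card : ℝ) ≤ 2 * k3) ?_).trans ?_
  · rintro T T' hT ⟨U, a, b, c⟩
    exact ⟨U, a, Dec_mono hT b, c⟩
  have h1 : Pr (tyP L R q) (fun T => ∃ e ∈ L, ((blk L R e ∩ T).card : ℝ) ≤ 4 * k)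
      ≤ L.card * Real.exp (4 * l1 * k - q * N1 * (1 - Real.exp (-l1))) := by
    refine Pr_exists_le' hp' L _ fun e he => ?_
    induction e using Sym2.ind with
    | _ u v =>
    refine ((hCH1 _ _ hp' (blk L R s(u, v)) l1 (q * N1) (4 * k) hl1).2 ?_).trans (le_of_eq ?_)
    · rw [cd_sum q fun t ht => (cd_mem_blk.1 ht).1, cd_blk_left hL hR hLR he]
      nlinarith [hN1 u v he]
    · congr 1; ring
  have h2 : Pr (tyP L R q) (fun T => ∃ f ∈ R, k ≤ ((blk L R f ∩ T).card : ℝ))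
      ≤ R.card * Real.exp (2 * q * N2 * (Real.exp l2 - 1) - l2 * k) := by
    refine Pr_exists_le' hp' R _ fun f hf => ?_
    induction f using Sym2.ind with
    | _ u w =>
    refine (hCH1 _ _ hp' (blk L R s(u, w)) l2 (2 * q * N2) k hl2).1 ?_
    rw [cd_sum q fun t ht => (cd_mem_blk.1 ht).1]
    have b1 : ((blk L R s(u, w)).card : ℝ) ≤ (nb L u ∩ nb R w).card + (nb L w ∩ nb R u).card := by
      exact_mod_cast cd_blk_right hL hR hLR hf
    have b2 := hN2 u w hf
    have b3 := hN2 w u (by rwa [Sym2.eq_swap])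
    nlinarith
  have h3 : Pr (tyP L R q) (fun T => ∃ v ∈ (univ : Finset V), k3 ≤ ((cd_at L R v ∩ T).card : ℝ))
      ≤ (univ : Finset V).card * Real.exp (4 * q * Fintype.card V * d - k3) := by
    refine Pr_exists_le' hp' univ _ fun v _ => ?_
    refine ((hCH1 _ _ hp' (cd_at L R v) 1 (2 * Fintype.card V * d * q) k3 zero_le_one).1 ?_).trans
      (Real.exp_le_exp.2 ?_)
    · rw [cd_sum q fun t ht => (cd_mem_at.1 ht).1]
      exact mul_le_mul_of_nonneg_right (cd_card_at hd v) hq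
    · have b1 : (0 : ℝ) ≤ d := le_trans (Nat.cast_nonneg _) (hd v)
      have b2 : (0 : ℝ) ≤ 2 * Fintype.card V * d * q := by positivity
      have b3 := Real.exp_one_lt_d9
      nlinarith
  rw [card_univ] at h3
  have h4 := Pr_or_le hp' (fun T => ∃ e ∈ L, ((blk L R e ∩ T).card : ℝ) ≤ 4 * k)
    (fun T => ∃ f ∈ R, k ≤ ((blk L R f ∩ T).card : ℝ))
  have h5 := Pr_or_le hp' (fun T => (∃ e ∈ L, ((blk L R e ∩ T).card : ℝ) ≤ 4 * k) ∨
      (∃ f ∈ R, k ≤ ((blk L R f ∩ T).card : ℝ)))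
    (fun T => ∃ v ∈ (univ : Finset V), k3 ≤ ((cd_at L R v ∩ T).card : ℝ))
  have h6 : (L.card : ℝ) ≤ (Fintype.card V : ℝ) ^ 2 := by exact_mod_cast card_sym2_le L
  have h7 : (R.card : ℝ) ≤ (Fintype.card V : ℝ) ^ 2 := by exact_mod_cast card_sym2_le R
  refine le_trans (Pr_mono hp' fun T hT => ?_) (h5.trans ?_)
  · by_contra hc
    simp only [not_or, not_exists, not_and, not_le] at hc
    exact hT (cd_det hL hR hLR hk hc.1.1 hc.1.2 fun v => hc.2 v (mem_univ v))
  · have c1 := mul_le_mul_of_nonneg_right h6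
      (Real.exp_pos (4 * l1 * k - q * N1 * (1 - Real.exp (-l1)))).le
    have c2 := mul_le_mul_of_nonneg_right h7
      (Real.exp_pos (2 * q * N2 * (Real.exp l2 - 1) - l2 * k)).le
    linarith

end Pool.Agent.P.MP_224820_co.St
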