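import Pool.Agent.P.MP_224820_co.St.IfaceA

/-! Step EMB1. -/

set_option autoImplicit false

namespace Pool.Agent.P.MP_224820_co.St

open Finset

theorem emb1_nodup {ι α : Type} [DecidableEq ι] (s : Finset ι) (f : ι → Multiset α)
    (h1 : ∀ i ∈ s, (f i).Nodup)
    (h2 : ∀ i ∈ s, ∀ j ∈ s, i ≠ j → ∀ a ∈ f i, a ∉ f j) : (∑ i ∈ s, f i).Nodup := by
  induction s using Finset.induction_on with
  | empty => simp
  | insert i s hi ih =>
    rw [sum_insert hi, Multiset.nodup_add]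
    refine ⟨h1 i (mem_insert_self _ _), ih (fun j hj => h1 j (mem_insert_of_mem hj))
      fun j hj k hk => h2 j (mem_insert_of_mem hj) k (mem_insert_of_mem hk), ?_⟩
    refine Multiset.disjoint_left.2 fun {a} ha hb => ?_
    obtain ⟨j, hj, haj⟩ := Multiset.mem_sum.1 hb
    exact h2 i (mem_insert_self _ _) j (mem_insert_of_mem hj) (fun h => hi (h ▸ hj)) a ha haj

theorem emb1_cnt {ι κ : Type} (J : Finset ι) (W : Finset κ) (P : ι → Prop) (Q : κ → ι → Prop)
    (L : ℝ) (h : ∀ i ∈ J, P i → ∃ x ∈ W, Q x i) (hL : ∀ x ∈ W, (cnt J (Q x) : ℝ) ≤ L) :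
    (cnt J P : ℝ) ≤ W.card * L := by
  classical
  have h1 : J.filter P ⊆ W.biUnion fun x => J.filter (Q x) := by
    intro i hi
    obtain ⟨a, b⟩ := mem_filter.1 hi
    obtain ⟨x, hx, hq⟩ := h i a b
    exact mem_biUnion.2 ⟨x, hx, mem_filter.2 ⟨a, hq⟩⟩
  have h2 : cnt J P ≤ ∑ x ∈ W, cnt J (Q x) := by
    rw [cnt_eq]
    refine (card_le_card h1).trans (card_biUnion_le.trans (le_of_eq ?_))
    exact sum_congr rfl fun x _ => (cnt_eq _ _).symm
  calc (cnt J P : ℝ) ≤ ∑ x ∈ W, (cnt J (Q x) : ℝ) := by exact_mod_cast h2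
    _ ≤ ∑ _x ∈ W, L := sum_le_sum hL
    _ = _ := by simp

theorem emb1_ind {ι : Type} (J : Finset ι) (P : ι → Prop) [DecidablePred P] (a : ℝ) :
    ∑ i ∈ J, (if P i then a else 0) = cnt J P * a := by
  rw [cnt_eq, ← sum_filter]
  simp

theorem emb1_gain {V U Gd : Type} [Fintype V] [DecidableEq V] [Fintype U] [DecidableEq U]
    (back : Gd → U → Finset (V ⊕ U)) (𝒢 : Finset Gd) {wr D1 emax z0 s0 : ℕ} {NG L1 L2 : ℝ}
    (hF : EF back 𝒢 wr D1 emax z0 s0 NG L1 L2) (h1 : 0 ≤ L1) (h2 : 0 ≤ L2) (W0 : Finset V)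
    {β w0 : ℝ} (hb : 0 < β) (hw : (W0.card : ℝ) ≤ w0) :
    ∑ g ∈ 𝒢, gain (back g) W0 β w0 ≤ NG * (β ^ 5 * w0) + w0 * L1 * β ^ 2 + w0 ^ 2 * L2 * β := by
  classical
  have hw0 : 0 ≤ w0 := (Nat.cast_nonneg _).trans hw
  have k1 : ∀ g, gain (back g) W0 β w0 ≤ β ^ 5 * w0
      + (if ∃ x ∈ rts (back g), x ∈ W0 then β ^ 2 else 0)
      + (if ∃ u, 2 ≤ (rb (back g) u ∩ W0).card then β else 0) := by
    intro g
    have a1 : 0 ≤ β ^ 5 * w0 := by positivity
    have a2 : 0 ≤ β ^ 2 := by positivity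
    unfold gain
    split_ifs <;> linarith
  have k2 : (cnt 𝒢 (fun g => ∃ x ∈ rts (back g), x ∈ W0) : ℝ) ≤ W0.card * L1 :=
    emb1_cnt 𝒢 W0 _ (fun x g => x ∈ rts (back g)) L1
      (fun g _ ⟨x, a, b⟩ => ⟨x, b, a⟩) fun x _ => hF.ld1 x
  have k3 : (cnt 𝒢 (fun g => ∃ u, 2 ≤ (rb (back g) u ∩ W0).card) : ℝ) ≤ W0.offDiag.card * L2 := by
    refine emb1_cnt 𝒢 W0.offDiag _
      (fun x g => ∃ u, x.1 ∈ rb (back g) u ∧ x.2 ∈ rb (back g) u) L2 ?_ ?_
    · rintro g - ⟨u, hu⟩
      obtain ⟨a, ha, b, hb, hab⟩ := one_lt_card.1 hu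
      exact ⟨(a, b), mem_offDiag.2 ⟨(mem_inter.1 ha).2, (mem_inter.1 hb).2, hab⟩, u,
        (mem_inter.1 ha).1, (mem_inter.1 hb).1⟩
    · intro x hx
      exact hF.ld2 _ _ (mem_offDiag.1 hx).2.2
  have k4 : (W0.offDiag.card : ℝ) ≤ w0 ^ 2 := by
    have : W0.offDiag.card ≤ W0.card * W0.card := by
      rw [offDiag_card]; omega
    have h3 : (W0.offDiag.card : ℝ) ≤ W0.card * W0.card := by exact_mod_cast this
    have h4 : (0 : ℝ) ≤ W0.card := Nat.cast_nonneg _
    nlinarith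
  refine (sum_le_sum fun g _ => k1 g).trans ?_
  rw [sum_add_distrib, sum_add_distrib, emb1_ind, emb1_ind, sum_const, nsmul_eq_mul]
  have b1 := mul_le_mul_of_nonneg_right hF.num (show 0 ≤ β ^ 5 * w0 by positivity)
  have b2 := mul_le_mul_of_nonneg_right (k2.trans (mul_le_mul_of_nonneg_right hw h1))
    (show 0 ≤ β ^ 2 by positivity)
  have b3 := mul_le_mul_of_nonneg_right (k3.trans (mul_le_mul_of_nonneg_right k4 h2)) hb.le
  linarith

theorem emb1_bigB (T s0 : ℕ) {F y : ℝ} (hF : 0 ≤ F) (hy : 0 < y) : 0 ≤ bigB T s0 F y := by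
  unfold bigB
  split_ifs
  · exact le_rfl
  · positivity

theorem emb1_term {m N P β : ℝ} (hm : 0 < m) (hb : 0 < β) (hP : 0 < P) (hN : P / 2 ≤ N) (a b : ℕ) :
    m / (N * β ^ (a + b)) * β ^ a ≤ 2 * m / P * (1 / β) ^ b := by
  have hN0 : 0 < N := by linarith
  have h1 : m / (N * β ^ (a + b)) * β ^ a = m / N * (1 / β) ^ b := by
    rw [pow_add, one_div, inv_pow]
    field_simp
  rw [h1]
  refine mul_le_mul_of_nonneg_right ?_ (by positivity)
  rw [div_le_div_iff₀ hN0 hP]
  nlinarith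

theorem p_EMB1 (hGN : S_GN) (hOPT : S_OPT) (hPAT : S_PAT) (hAR : S_AR) :
    S_EMB1 := by
  intro V U _ _ _ _ _ Gd _ _ back 𝒢 wr D1 emax z0 s0 NG L1 L2 β m κ0 Δ y hF hN Fb hFb
  classical
  rcases isEmpty_or_nonempty Gd with hGd | hGd
  · refine ⟨fun _ => ∅, fun _ g => isEmptyElim g, fun c => ⟨empty_subset _, by simp, by simp⟩, ?_⟩
    rw [eq_empty_of_isEmpty 𝒢]
    simp [Ex_const]
  have hb := hN.b0
  have hm := hN.m0
  have hn : (0 : ℝ) < Fintype.card V := by exact_mod_cast Fintype.card_pos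
  have hΔ : 0 ≤ Δ := (Nat.cast_nonneg _).trans (hFb (Classical.arbitrary V))
  obtain ⟨P, hP⟩ : ∃ P : ℝ, P = (Fintype.card V : ℝ) ^ Fintype.card U := ⟨_, rfl⟩
  have hP0 : 0 < P := by rw [hP]; positivity
  obtain ⟨F, hFd⟩ : ∃ F : ℝ, F = FF (Fintype.card V) (Fintype.card U) wr D1 β := ⟨_, rfl⟩
  have hF0 : 0 ≤ F := by rw [hFd]; unfold FF; positivity
  have hB0 := emb1_bigB (Fintype.card U) s0 hF0 hN.y0
  have hkap := hN.kap
  rw [← hFd] at hkap
  have hk0 : 0 ≤ κ0 := by
    refine le_trans ?_ hkap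
    have := hN.n0
    have := hN.n1
    have := hN.n2
    positivity
  have hcnt : ∀ g ∈ 𝒢, P / 2 ≤ (cnt univ (Opt (back g) Fb) : ℝ) := fun g hg => by
    rw [hP]
    exact hOPT V U (back g) wr D1 emax (hF.gs g hg) Fb Δ hFb hΔ hN.opt
  have hcard : ∀ g ∈ 𝒢, ∀ φ, Opt (back g) Fb φ →
      (gE (back g) φ).toFinset.card = ∑ u, (back g u).card := fun g hg φ ho => by
    obtain ⟨a, -, -, b, -⟩ := hGN V U (back g) wr D1 emax (hF.gs g hg) φ ho.1 ho.2.1
    rw [Multiset.toFinset_card_of_nodup a, b]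
  obtain ⟨π, hπ⟩ : ∃ π : Gd × (U → V) → ℝ, π = fun o => if o.1 ∈ 𝒢 ∧ Opt (back o.1) Fb o.2 then
      m / (cnt univ (Opt (back o.1) Fb) * β ^ ∑ u, (back o.1 u).card) else 0 := ⟨_, rfl⟩
  have hne : ∀ o, π o ≠ 0 → o.1 ∈ 𝒢 ∧ Opt (back o.1) Fb o.2 := fun o ho => by
    by_contra h
    exact ho (by rw [hπ]; exact if_neg h)
  have hisP : IsP π := by
    intro o
    rw [hπ]
    dsimp only
    split_ifs with h
    · have a1 := hcnt _ h.1
      have a2 : β ^ emax ≤ β ^ ∑ u, (back o.1 u).card :=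
        pow_le_pow_of_le_one hb.le hN.b1 (hF.gs _ h.1).tot
      have a3 := hN.mm
      rw [← hP] at a3
      have a4 : m ≤ cnt univ (Opt (back o.1) Fb) * β ^ ∑ u, (back o.1 u).card :=
        a3.trans (mul_le_mul a1 a2 (by positivity) (Nat.cast_nonneg _))
      exact ⟨by positivity, (div_le_one (hm.trans_le a4)).2 a4⟩
    · exact ⟨le_rfl, zero_le_one⟩
  have c1 : ∀ g ∈ 𝒢, ∑ o ∈ univ.filter (fun o : Gd × (U → V) => o.1 = g),
      π o * β ^ (gE (back o.1) o.2).toFinset.card = m := by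
    intro g hg
    have a1 := hcnt g hg
    have a2 : (0 : ℝ) < cnt univ (Opt (back g) Fb) := by linarith
    rw [sum_filter, Fintype.sum_prod_type, sum_eq_single g]
    · have a3 : ∀ φ : U → V, (if g = g then π (g, φ) * β ^ (gE (back g) φ).toFinset.card else 0)
          = if Opt (back g) Fb φ then m / cnt univ (Opt (back g) Fb) else 0 := by
        intro φ
        rw [if_pos rfl, hπ]
        dsimp only
        by_cases ho : Opt (back g) Fb φ
        · rw [if_pos ⟨hg, ho⟩, if_pos ho, hcard g hg φ ho]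
          field_simp
        · rw [if_neg fun h => ho h.2, if_neg ho, zero_mul]
      rw [sum_congr rfl fun φ _ => a3 φ, emb1_ind]
      field_simp
    · intro g' _ h
      simp [h]
    · simp
  have c2 : ∀ o : Gd × (U → V), π o ≠ 0 →
      ∑ o' ∈ univ.filter (fun o' : Gd × (U → V) => o' ≠ o ∧
        ¬ Disjoint (gE (back o.1) o.2).toFinset (gE (back o'.1) o'.2).toFinset),
        π o' * β ^ ((gE (back o'.1) o'.2).toFinset \ (gE (back o.1) o.2).toFinset).card
      ≤ 2 * m * κ0 := by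
    intro o ho
    obtain ⟨hg, hop⟩ := hne o ho
    obtain ⟨-, -, -, -, g5, g6⟩ := hGN V U (back o.1) wr D1 emax (hF.gs _ hg) o.2 hop.1 hop.2.1
    obtain ⟨E0, hE0⟩ : ∃ E0, E0 = (gE (back o.1) o.2).toFinset := ⟨_, rfl⟩
    obtain ⟨W0, hW0⟩ : ∃ W0, W0 = rts (back o.1) ∪ univ.image o.2 := ⟨_, rfl⟩
    rw [← hE0] at g5 ⊢
    rw [← hW0] at g6
    have hW : (W0.card : ℝ) ≤ (Fintype.card U + wr : ℝ) := by
      have a1 : W0.card ≤ Fintype.card U + wr := by
        rw [hW0]
        refine (card_union_le _ _).trans ?_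
        have := (hF.gs _ hg).roots
        have := card_image_le (s := (univ : Finset U)) (f := o.2)
        rw [card_univ] at this
        omega
      exact_mod_cast a1
    have hD : (1 : ℝ) ≤ D1 := by exact_mod_cast hN.D
    have pat : ∀ g ∈ 𝒢, ∑ φ ∈ univ.filter (fun φ : U → V => ¬ Disjoint (gE (back g) φ).toFinset E0),
        (1 / β) ^ ((gE (back g) φ).toFinset ∩ E0).card ≤ P * (8 * Fintype.card U
          * (1 + F) ^ Fintype.card U * gain (back g) W0 β (Fintype.card U + wr)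
          + (2 / β) ^ z0 * bigB (Fintype.card U) s0 F y) := by
      intro g hg'
      rw [hP]
      refine hPAT V U (back g) z0 s0 (hF.gs g hg').rdeg (hF.ord g hg') E0 W0 _ (2 * D1) β F y
        (fun e he => g6 e (by rw [hE0] at he; exact Multiset.mem_toFinset.1 he)) hW
        (fun z => by exact_mod_cast g5 z) (by linarith) hb hN.b1 hN.wb hF0 (le_of_eq ?_) hN.y0 hN.y1
      rw [hFd]
      unfold FF
      field_simp
    have hgain := emb1_gain back 𝒢 hF hN.n1 hN.n2 W0 hb hW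
    calc _ ≤ ∑ o' : Gd × (U → V), if o'.1 ∈ 𝒢 then
            (if ¬ Disjoint (gE (back o'.1) o'.2).toFinset E0 then
              2 * m / P * (1 / β) ^ ((gE (back o'.1) o'.2).toFinset ∩ E0).card else 0) else 0 := by
          rw [sum_filter]
          refine sum_le_sum fun o' _ => ?_
          have a0 : 0 ≤ 2 * m / P * (1 / β) ^ ((gE (back o'.1) o'.2).toFinset ∩ E0).card := by
            positivity
          by_cases h0 : π o' = 0
          · rw [h0, zero_mul, ite_self]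
            split_ifs <;> first | exact a0 | exact le_rfl
          obtain ⟨hg', hop'⟩ := hne o' h0
          rw [if_pos hg']
          by_cases hd : Disjoint (gE (back o'.1) o'.2).toFinset E0
          · rw [if_neg fun h => h.2 hd.symm, if_neg (not_not.2 hd)]
          · rw [if_pos hd]
            split_ifs
            · rw [hπ]
              dsimp only
              rw [if_pos ⟨hg', hop'⟩, ← hcard _ hg' _ hop',
                ← card_sdiff_add_card_inter (gE (back o'.1) o'.2).toFinset E0]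
              exact emb1_term hm hb hP0 (hcnt _ hg') _ _
            · exact a0
      _ = ∑ g ∈ 𝒢, 2 * m / P * ∑ φ ∈ univ.filter
            (fun φ : U → V => ¬ Disjoint (gE (back g) φ).toFinset E0),
            (1 / β) ^ ((gE (back g) φ).toFinset ∩ E0).card := by
          rw [Fintype.sum_prod_type]
          simp only [sum_ite_irrel, sum_const_zero]
          rw [← sum_filter, filter_mem_eq_inter, univ_inter]
          refine sum_congr rfl fun g _ => ?_
          rw [← sum_filter, mul_sum]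
      _ ≤ ∑ g ∈ 𝒢, 2 * m * (8 * Fintype.card U
          * (1 + F) ^ Fintype.card U * gain (back g) W0 β (Fintype.card U + wr)
          + (2 / β) ^ z0 * bigB (Fintype.card U) s0 F y) := by
          refine sum_le_sum fun g hg' => ?_
          refine (mul_le_mul_of_nonneg_left (pat g hg') (by positivity)).trans (le_of_eq ?_)
          field_simp
      _ ≤ 2 * m * κ0 := by
          rw [← mul_sum]
          refine mul_le_mul_of_nonneg_left (le_trans ?_ hkap) (by positivity)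
          rw [sum_add_distrib, ← mul_sum, sum_const, nsmul_eq_mul]
          exact add_le_add (mul_le_mul_of_nonneg_left hgain (by positivity))
            (mul_le_mul_of_nonneg_right hF.num (by positivity))
  obtain ⟨succ, ch, h1, h2⟩ := hAR (Sym2 V) (Gd × (U → V)) Gd Prod.fst
    (fun o => (gE (back o.1) o.2).toFinset) π hisP β m (2 * m * κ0) hb.le hN.b1 hm
    (by positivity) 𝒢 c1 c2
  refine ⟨succ, fun c g => (ch c g).2, fun c => ?_, h2.trans (le_of_eq ?_)⟩
  · obtain ⟨a, b, d⟩ := h1 c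
    have hop : ∀ g ∈ succ c, Opt (back g) Fb (ch c g).2 := fun g hg => by
      have := (hne _ (b g hg).2.1).2
      rwa [(b g hg).1] at this
    have hgn := fun g (hg : g ∈ succ c) =>
      hGN V U (back g) wr D1 emax (hF.gs g (a hg)) _ (hop g hg).1 (hop g hg).2.1
    refine ⟨a, emb1_nodup _ _ (fun g hg => (hgn g hg).1) fun g hg g' hg' hgg e he he' => ?_, ?_⟩
    · have := d g hg g' hg' hgg
      rw [(b g hg).1, (b g' hg').1] at this
      exact disjoint_left.1 this (Multiset.mem_toFinset.2 he) (Multiset.mem_toFinset.2 he')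
    · intro e he
      obtain ⟨g, hg, heg⟩ := Multiset.mem_sum.1 he
      have := (b g hg).2.2
      rw [(b g hg).1] at this
      exact ⟨this (Multiset.mem_toFinset.2 heg), (hop g hg).2.2 e heg, (hgn g hg).2.1 e heg⟩
  · unfold kapR
    ring

end Pool.Agent.P.MP_224820_co.St
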