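import Pool.Agent.P.MP_224820_co.St.IfaceA

/-! Step NUMA2. -/

set_option autoImplicit false

namespace Pool.Agent.P.MP_224820_co.St

open Finset

theorem numa2_ev (K L0 : ℝ) (hK : 0 < K) : ∃ n0 : ℕ, ∀ n : ℕ, n0 ≤ n → 1 ≤ n ∧
    L0 ≤ Real.log n ∧ K * Real.log n ^ 4 ≤ (n : ℝ) ^ (1 / 15000 : ℝ) := by
  have h1 := (isLittleO_log_rpow_rpow_atTop (4 : ℝ) (s := 1 / 15000) (by norm_num)).bound
    (c := 1 / K) (by positivity)
  have h2 := Real.tendsto_log_atTop.eventually_ge_atTop L0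
  have h3 := (h1.and h2).and (Filter.eventually_ge_atTop (1 : ℝ))
  obtain ⟨n0, h⟩ := Filter.eventually_atTop.1
    ((tendsto_natCast_atTop_atTop (R := ℝ)).eventually h3)
  refine ⟨n0, fun n hn => ?_⟩
  obtain ⟨⟨ha, hb⟩, hc⟩ := h n hn
  refine ⟨by exact_mod_cast hc, hb, ?_⟩
  have h0 : 0 ≤ Real.log n := Real.log_nonneg hc
  have e : Real.log n ^ (4 : ℝ) = Real.log n ^ 4 := by
    rw [show (4 : ℝ) = ((4 : ℕ) : ℝ) by norm_num, Real.rpow_natCast]
  rw [e, Real.norm_of_nonneg (by positivity), Real.norm_of_nonneg (by positivity)] at ha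
  calc K * Real.log n ^ 4 ≤ K * (1 / K * (n : ℝ) ^ (1 / 15000 : ℝ)) := by gcongr
    _ = _ := by field_simp

/-- the numerical situation -/
structure Numa2 (η w a d L b E : ℝ) (T : ℕ) : Prop where
  L1 : 1 ≤ L
  E1 : 1 ≤ E
  K : 20000000000000 * E * L ^ 4 ≤ w
  dw : d * w ^ 15 = a ^ 2
  wa : w ^ 100 ≤ a
  b0 : 1 / (160000 * a) ≤ b
  b1 : b ≤ L / a
  q0 : 3 ≤ a ^ 3 * b ^ 3
  q1 : a ^ 3 * b ^ 3 ≤ L
  T1 : (T : ℝ) ≤ 483 * L
  T0 : 210 * L ≤ T
  ex : Real.exp L = a ^ 3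

namespace Numa2

variable {η w a d L b E : ℝ} {T : ℕ}

theorem numa2_wL (h : Numa2 η w a d L b E T) : 20000000000000 * L ^ 4 ≤ w := by
  have := h.L1; have := h.E1; have := h.K
  have h1 : (0 : ℝ) ≤ L ^ 4 := by positivity
  nlinarith

theorem numa2_w (h : Numa2 η w a d L b E T) : 20000000000000 ≤ w := by
  have h1 : (1 : ℝ) ≤ L ^ 4 := one_le_pow₀ h.L1
  have := h.numa2_wL
  linarith

theorem numa2_Ew (h : Numa2 η w a d L b E T) : E ≤ w := by
  have h1 : (1 : ℝ) ≤ L ^ 4 := one_le_pow₀ h.L1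
  have := h.K; have := h.E1
  nlinarith

theorem numa2_pw (h : Numa2 η w a d L b E T) {k : ℕ} (hk : k ≤ 100) : w ^ k ≤ a := by
  have := h.numa2_w
  exact (pow_le_pow_right₀ (by linarith) hk).trans h.wa

theorem numa2_wa (h : Numa2 η w a d L b E T) : w ≤ a := by
  simpa using h.numa2_pw (k := 1) (by norm_num)

theorem numa2_a (h : Numa2 η w a d L b E T) : 20000000000000 ≤ a :=
  h.numa2_w.trans h.numa2_wa

theorem numa2_Lk (h : Numa2 η w a d L b E T) {k : ℕ} (hk : k ≤ 4) :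
    20000000000000 * L ^ k ≤ w := by
  have h1 : L ^ k ≤ L ^ 4 := pow_le_pow_right₀ h.L1 hk
  have := h.numa2_wL
  linarith

theorem numa2_b (h : Numa2 η w a d L b E T) : 0 < b := by
  have := h.numa2_a
  exact lt_of_lt_of_le (by positivity) h.b0

theorem numa2_d0 (h : Numa2 η w a d L b E T) : 0 < d := by
  have := h.numa2_a; have := h.numa2_w
  have h1 : 0 < d * w ^ 15 := by rw [h.dw]; positivity
  exact (mul_pos_iff_of_pos_right (by positivity)).1 h1

theorem numa2_d1 (h : Numa2 η w a d L b E T) : d ≤ a ^ 2 := by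
  have := h.numa2_w
  have h1 : (1 : ℝ) ≤ w ^ 15 := one_le_pow₀ (by linarith)
  rw [← h.dw]
  exact le_mul_of_one_le_right h.numa2_d0.le h1

theorem numa2_ab (h : Numa2 η w a d L b E T) : a * b ≤ L := by
  have := h.numa2_a
  have h1 := h.b1
  rw [le_div_iff₀ (by positivity)] at h1
  linarith

theorem numa2_ab0 (h : Numa2 η w a d L b E T) : 1 ≤ 160000 * (a * b) := by
  have := h.numa2_a
  have h1 := h.b0
  rw [div_le_iff₀ (by positivity)] at h1
  linarith

theorem numa2_b1 (h : Numa2 η w a d L b E T) : b ≤ 1 := by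
  have := h.numa2_a; have := h.numa2_ab; have := h.numa2_b; have := h.numa2_wa
  have h1 := h.numa2_Lk (k := 1) (by norm_num)
  have := h.L1
  rw [pow_one] at h1
  by_contra hc
  have : a * 1 ≤ a * b := by gcongr; linarith
  linarith

theorem numa2_wb (h : Numa2 η w a d L b E T) : ((T : ℝ) + 21) * b ^ 2 ≤ 1 := by
  have ha := h.numa2_a; have hb := h.numa2_b; have := h.numa2_wa; have := h.L1
  have h1 := h.numa2_Lk (k := 3) (by norm_num)
  have h2 : (a * b) ^ 2 ≤ L ^ 2 := by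
    have := h.numa2_ab
    gcongr
  have h3 : (T : ℝ) + 21 ≤ 504 * L := by have := h.T1; linarith
  have h4 : ((T : ℝ) + 21) * (a * b) ^ 2 ≤ 504 * L * L ^ 2 := by gcongr
  have h5 : a ≤ a ^ 2 := by nlinarith
  have h6 : a ^ 2 * (((T : ℝ) + 21) * b ^ 2) ≤ a ^ 2 * 1 := by nlinarith
  exact le_of_mul_le_mul_left h6 (by positivity)

theorem numa2_opt (h : Numa2 η w a d L b E T) : (T : ℝ) ^ 2 + T * 21 +
    (3 * T + 84) * (40000 * d + 10000 * (3 * a ^ 3 * b)) ≤ a ^ 3 / 2 := by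
  have ha := h.numa2_a; have hb := h.numa2_b; have := h.numa2_wa; have hL := h.L1
  have hT := h.T1
  have hT0 : (0 : ℝ) ≤ T := by positivity
  have h1 := h.numa2_Lk (k := 2) (by norm_num)
  have ha2 : (1 : ℝ) ≤ a ^ 2 := one_le_pow₀ (by linarith)
  have h2 : a ^ 3 * b ≤ a ^ 2 * L := by
    have := h.numa2_ab
    calc a ^ 3 * b = a ^ 2 * (a * b) := by ring
      _ ≤ _ := by gcongr
  have h3 : d ≤ a ^ 2 * L := h.numa2_d1.trans (le_mul_of_one_le_right (by positivity) hL)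
  have h4 : 40000 * d + 10000 * (3 * a ^ 3 * b) ≤ 70000 * (a ^ 2 * L) := by linarith
  have h5 : 3 * (T : ℝ) + 84 ≤ 1533 * L := by linarith
  have hd := h.numa2_d0
  have h6 : (3 * (T : ℝ) + 84) * (40000 * d + 10000 * (3 * a ^ 3 * b))
      ≤ 1533 * L * (70000 * (a ^ 2 * L)) := by gcongr
  have h7 : (T : ℝ) * (T + 21) ≤ 483 * L * (504 * L) := by gcongr; linarith
  have h8 : L ^ 2 ≤ a ^ 2 * L ^ 2 := le_mul_of_one_le_left (by positivity) ha2
  have h9 : a ^ 2 * (20000000000000 * L ^ 2) ≤ a ^ 2 * a := by gcongr; linarith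
  nlinarith

theorem numa2_mm (h : Numa2 η w a d L b E T) :
    w ^ 6 ≤ (a ^ 3) ^ T / 2 * b ^ (3 * T + 84) := by
  have ha := h.numa2_a; have hb := h.numa2_b
  have e : (a ^ 3) ^ T / 2 * b ^ (3 * T + 84) = (a ^ 3 * b ^ 3) ^ T * b ^ 84 / 2 := by
    rw [mul_pow, pow_add, pow_mul]; ring
  have h1 : a ^ 630 ≤ (a ^ 3 * b ^ 3) ^ T := by
    calc a ^ 630 = Real.exp L ^ 210 := by rw [h.ex, ← pow_mul]
      _ = Real.exp (210 * L) := by rw [← Real.exp_nat_mul]; norm_num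
      _ ≤ Real.exp (T * 1) := Real.exp_le_exp.2 (by have := h.T0; linarith)
      _ = Real.exp 1 ^ T := Real.exp_nat_mul 1 T
      _ ≤ _ := by
        have := Real.exp_one_lt_d9; have := h.q0
        gcongr; linarith
  have h2 : 1 ≤ a ^ 2 * b := by have := h.numa2_ab0; nlinarith [mul_pos (by linarith : 0 < a) hb]
  have h3 : 1 ≤ (a ^ 2 * b) ^ 84 := one_le_pow₀ h2
  have h4 : a ^ 2 ≤ a ^ 462 := pow_le_pow_right₀ (by linarith) (by norm_num)
  have h5 := h.numa2_pw (k := 6) (by norm_num)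
  have h6 : a ^ 462 ≤ a ^ 630 * b ^ 84 := by
    calc a ^ 462 ≤ a ^ 462 * (a ^ 2 * b) ^ 84 := le_mul_of_one_le_right (by positivity) h3
      _ = _ := by rw [mul_pow, ← pow_mul, ← mul_assoc, ← pow_add]
  have h7 : a ^ 630 * b ^ 84 ≤ (a ^ 3 * b ^ 3) ^ T * b ^ 84 := by gcongr
  rw [e]
  nlinarith

theorem numa2_ng (h : Numa2 η w a d L b E T) : a ^ 3 * (60 * (40000 * d)) ≤ a ^ 6 := by
  have ha := h.numa2_a; have := h.numa2_d1; have := h.numa2_d0
  calc a ^ 3 * (60 * (40000 * d)) = a ^ 3 * (2400000 * d) := by ring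
    _ ≤ a ^ 3 * (a * a ^ 2) := by gcongr; linarith
    _ = _ := by ring

theorem numa2_k1 (h : Numa2 η w a d L b E T) {G : ℝ} (hG0 : 0 ≤ G) (hG : G ≤ E) :
    8 * T * G * (a ^ 3 * (60 * (40000 * d)) * (b ^ 5 * (T + 21)) +
      (T + 21) * (60 * (40000 * d)) * b ^ 2 + ((T : ℝ) + 21) ^ 2 * 60 * b) ≤ 1 / w ^ 12 / 2 := by
  have ha := h.numa2_a; have hb := h.numa2_b; have hw := h.numa2_w; have hL := h.L1
  have hT := h.T1; have hd := h.numa2_d0; have hE := h.E1
  have hT0 : (0 : ℝ) ≤ T := by positivity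
  have h3 : (T : ℝ) + 21 ≤ 504 * L := by linarith
  have h2 : (a * b) ^ 2 ≤ L ^ 2 := by
    have := h.numa2_ab
    gcongr
  have hP : d * b ^ 2 ≤ L ^ 2 / w ^ 15 := by
    rw [le_div_iff₀ (by positivity)]
    calc d * b ^ 2 * w ^ 15 = (d * w ^ 15) * b ^ 2 := by ring
      _ = (a * b) ^ 2 := by rw [h.dw]; ring
      _ ≤ _ := h2
  have hB : b ≤ L / w ^ 15 := by
    have := h.numa2_pw (k := 15) (by norm_num)
    exact h.b1.trans (by gcongr)
  set x := 1 / w ^ 15 with hx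
  have hx0 : 0 < x := by positivity
  have hP' : d * b ^ 2 ≤ L ^ 2 * x := by rw [hx, mul_one_div]; exact hP
  have hB' : b ≤ L * x := by rw [hx, mul_one_div]; exact hB
  have hq := h.q1
  have s1 : a ^ 3 * (60 * (40000 * d)) * (b ^ 5 * (T + 21)) ≤ 1209600000 * (L ^ 4 * x) := by
    calc _ = 2400000 * (a ^ 3 * b ^ 3) * (d * b ^ 2) * (T + 21) := by ring
      _ ≤ 2400000 * L * (L ^ 2 * x) * (504 * L) := by gcongr
      _ = _ := by ring
  have hL3 : L ^ 3 * x ≤ L ^ 4 * x := by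
    have : L ^ 3 ≤ L ^ 4 := pow_le_pow_right₀ hL (by norm_num)
    gcongr
  have s2 : ((T : ℝ) + 21) * (60 * (40000 * d)) * b ^ 2 ≤ 1209600000 * (L ^ 3 * x) := by
    calc _ = 2400000 * (d * b ^ 2) * (T + 21) := by ring
      _ ≤ 2400000 * (L ^ 2 * x) * (504 * L) := by gcongr
      _ = _ := by ring
  have s3 : ((T : ℝ) + 21) ^ 2 * 60 * b ≤ 15240960 * (L ^ 3 * x) := by
    calc _ ≤ (504 * L) ^ 2 * 60 * (L * x) := by gcongr
      _ = _ := by ring
  have hL4 : 0 ≤ L ^ 4 * x := by positivity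
  have s4 : a ^ 3 * (60 * (40000 * d)) * (b ^ 5 * (T + 21)) +
      (T + 21) * (60 * (40000 * d)) * b ^ 2 + ((T : ℝ) + 21) ^ 2 * 60 * b
      ≤ 2500000000 * (L ^ 4 * x) := by linarith
  have hLw : L ≤ w ^ 2 := by
    have := h.numa2_Lk (k := 1) (by norm_num)
    nlinarith
  have hK := h.K
  calc _ ≤ 8 * (483 * L) * E * (2500000000 * (L ^ 4 * x)) := by gcongr
    _ = 9660000000000 * E * L ^ 4 * L * x := by ring
    _ ≤ w / 2 * w ^ 2 * x := by
        have : 0 ≤ E * L ^ 4 := by positivity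
        gcongr; nlinarith
    _ = _ := by rw [hx]; field_simp

theorem numa2_k2 (h : Numa2 η w a d L b E T) {G Y : ℝ} (hG0 : 0 ≤ G) (hG : G ≤ E) (hY0 : 0 ≤ Y)
    (hY : Y ≤ 1 / a ^ 120) :
    a ^ 3 * (60 * (40000 * d)) * ((2 / b) ^ 84 * (Y * G)) ≤ 1 / w ^ 12 / 2 := by
  have ha := h.numa2_a; have hb := h.numa2_b; have hw := h.numa2_w; have hd := h.numa2_d0
  have h1 : 2 / b ≤ w * a := by
    rw [div_le_iff₀ hb]
    have := h.numa2_ab0
    nlinarith [mul_pos (by linarith : 0 < a) hb]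
  have h2 : (2 / b) ^ 84 ≤ a ^ 85 := by
    have := h.numa2_pw (k := 84) (by norm_num)
    calc (2 / b) ^ 84 ≤ (w * a) ^ 84 := by gcongr
      _ = w ^ 84 * a ^ 84 := mul_pow _ _ _
      _ ≤ a * a ^ 84 := by gcongr
      _ = _ := by ring
  have h3 := h.numa2_ng
  have h4 := h.numa2_Ew
  have h5 : 2 * w ^ 13 ≤ a ^ 29 := by
    have := h.numa2_pw (k := 14) (by norm_num)
    have h6 : a ^ 1 ≤ a ^ 29 := pow_le_pow_right₀ (by linarith) (by norm_num)
    have h7 : 2 * w ^ 13 ≤ w * w ^ 13 := by gcongr; linarith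
    calc 2 * w ^ 13 ≤ w * w ^ 13 := h7
      _ = w ^ 14 := by ring
      _ ≤ _ := by rw [pow_one] at h6; linarith
  have h6 : Y * G ≤ 1 / a ^ 120 * w := mul_le_mul hY (hG.trans h4) hG0 (by positivity)
  have h7 : (2 / b) ^ 84 * (Y * G) ≤ a ^ 85 * (1 / a ^ 120 * w) :=
    mul_le_mul h2 h6 (by positivity) (by positivity)
  calc _ ≤ a ^ 6 * (a ^ 85 * (1 / a ^ 120 * w)) :=
        mul_le_mul h3 h7 (mul_nonneg (pow_nonneg (div_nonneg zero_le_two hb.le) _)
          (mul_nonneg hY0 hG0)) (pow_nonneg (by linarith) _)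
    _ = w / a ^ 29 := by
        have e : a ^ 120 = a ^ 6 * a ^ 85 * a ^ 29 := by rw [← pow_add, ← pow_add]
        have h8 : a ^ 6 ≠ 0 := by positivity
        have h9 : a ^ 85 ≠ 0 := by positivity
        have h10 : a ^ 29 ≠ 0 := by positivity
        rw [e]
        generalize a ^ 6 = x at h8
        generalize a ^ 85 = y at h9
        generalize a ^ 29 = z at h10
        field_simp
    _ ≤ w / (2 * w ^ 13) := by gcongr
    _ = _ := by field_simp

theorem numa2_fin (h : Numa2 η w a d L b E T) {M : ℕ} (h5 : (w ^ 5) ^ M = a ^ 10) :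
    kapR (w ^ 6) (1 / w ^ 12) ^ M * (a ^ 3 * (60 * (40000 * d))) +
      10000 * (a ^ 3 * Real.exp (2 * a ^ 3 * b - 3 * a ^ 3 * b)) ≤ 1 / a ^ 3 := by
  have ha := h.numa2_a; have hb := h.numa2_b; have hw := h.numa2_w; have hd := h.numa2_d0
  have h6 : (1 : ℝ) ≤ w ^ 6 := one_le_pow₀ (by linarith)
  have k0 : 0 ≤ kapR (w ^ 6) (1 / w ^ 12) := by unfold kapR; positivity
  have k1 : kapR (w ^ 6) (1 / w ^ 12) ≤ 1 / w ^ 5 := by
    have e : kapR (w ^ 6) (1 / w ^ 12) = (8 + 8 / w ^ 6) / w ^ 6 := by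
      unfold kapR; field_simp; ring
    have h7 : 8 / w ^ 6 ≤ 8 := div_le_self (by norm_num) h6
    rw [e]
    calc (8 + 8 / w ^ 6) / w ^ 6 ≤ w / w ^ 6 := by gcongr; linarith
      _ = _ := by field_simp
  have k2 : kapR (w ^ 6) (1 / w ^ 12) ^ M ≤ 1 / a ^ 10 := by
    refine (pow_le_pow_left₀ k0 k1 _).trans (le_of_eq ?_)
    rw [one_div_pow, h5]
  have k3 := h.numa2_ng
  have k4 : kapR (w ^ 6) (1 / w ^ 12) ^ M * (a ^ 3 * (60 * (40000 * d)))
      ≤ 1 / a ^ 3 / 2 := by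
    calc _ ≤ 1 / a ^ 10 * a ^ 6 := mul_le_mul k2 k3 (by positivity) (by positivity)
      _ = 1 / a ^ 3 / a := by field_simp
      _ ≤ _ := by gcongr; linarith
  have k5 : 2 * a ^ 3 * b - 3 * a ^ 3 * b ≤ -a := by
    have := h.numa2_ab0
    have h8 : 1 ≤ a * (a * b) := by nlinarith [mul_pos (by linarith : 0 < a) hb]
    have h9 : a * 1 ≤ a * (a * (a * b)) := by gcongr
    nlinarith
  have k6 : Real.exp (2 * a ^ 3 * b - 3 * a ^ 3 * b) ≤ 5040 / a ^ 7 := by
    have h7 := Real.pow_div_factorial_le_exp a (by linarith) 7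
    have e : ((Nat.factorial 7 : ℕ) : ℝ) = 5040 := by norm_num [Nat.factorial]
    rw [e] at h7
    calc _ ≤ Real.exp (-a) := Real.exp_le_exp.2 k5
      _ = 1 / Real.exp a := by rw [Real.exp_neg, one_div]
      _ ≤ 1 / (a ^ 7 / 5040) := by gcongr
      _ = _ := by field_simp
  have k7 : 10000 * (a ^ 3 * Real.exp (2 * a ^ 3 * b - 3 * a ^ 3 * b)) ≤ 1 / a ^ 3 / 2 := by
    calc _ ≤ 10000 * (a ^ 3 * (5040 / a ^ 7)) := by gcongr
      _ = 1 / a ^ 3 / (a / 50400000) := by field_simp; norm_num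
      _ ≤ _ := by gcongr; linarith
  exact (add_le_add k4 k7).trans (add_halves _).le

theorem numa2_F (h : Numa2 η w a d L b E T) (hη : 0 < η)
    (hq : a ^ 3 * b ^ 3 = η * L / 160000 ^ 3) :
    0 ≤ FF (a ^ 3) T 21 300 b ∧
      T * FF (a ^ 3) T 21 300 b ≤ 1 + 1800 * 160000 ^ 3 * 483 / η := by
  have ha := h.numa2_a; have hb := h.numa2_b; have hL := h.L1; have hT := h.T1
  have hw := h.numa2_wa
  refine ⟨by unfold FF; positivity, ?_⟩
  have e : T * FF (a ^ 3) T 21 300 b = T * (T + 21) / a ^ 3 + 1800 * T / (a ^ 3 * b ^ 3) := by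
    unfold FF; push_cast; field_simp; ring
  rw [e, hq]
  refine add_le_add ?_ ?_
  · rw [div_le_one (by positivity)]
    have h7 : (T : ℝ) * (T + 21) ≤ 483 * L * (504 * L) := by gcongr; linarith
    have h1 := h.numa2_Lk (k := 2) (by norm_num)
    have h6 : a ^ 1 ≤ a ^ 3 := pow_le_pow_right₀ (by linarith) (by norm_num)
    nlinarith
  · calc 1800 * T / (η * L / 160000 ^ 3) ≤ 1800 * (483 * L) / (η * L / 160000 ^ 3) := by gcongr
      _ = _ := by field_simp

end Numa2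

theorem numa2_pow {F c : ℝ} (hF : 0 ≤ F) {T : ℕ} (h : T * F ≤ c) : (1 + F) ^ T ≤ Real.exp c := by
  calc (1 + F) ^ T ≤ Real.exp F ^ T := by
        gcongr; have := Real.add_one_le_exp F; linarith
    _ = Real.exp (T * F) := (Real.exp_nat_mul F T).symm
    _ ≤ _ := Real.exp_le_exp.2 h

theorem p_NUMA2 :
    S_NUMA2 := by
  intro η hη hη1
  set C : ℝ := 1 + 1800 * 160000 ^ 3 * 483 / η with hC
  have hC0 : 0 ≤ C := by positivity
  set E : ℝ := Real.exp (C * Real.exp 40) with hE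
  have h40 : 1 ≤ Real.exp 40 := Real.one_le_exp (by norm_num)
  have hE1 : 1 ≤ E := Real.one_le_exp (by positivity)
  obtain ⟨n0, hn0⟩ := numa2_ev (20000000000000 * E) (2 + 3 * 160000 ^ 3 / η) (by positivity)
  refine ⟨n0, fun n hn => ?_⟩
  obtain ⟨h1, hL, hK⟩ := hn0 n hn
  have hN : (0 : ℝ) < n := by exact_mod_cast h1
  set L := Real.log n with hLd
  set w := (n : ℝ) ^ (1 / 15000 : ℝ) with hw
  have hw0 : 0 < w := by positivity
  have hp : ∀ k : ℕ, w ^ k = (n : ℝ) ^ ((k : ℝ) / 15000) := fun k => by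
    rw [hw, ← Real.rpow_natCast, ← Real.rpow_mul hN.le]; congr 1; ring
  have h3η : 0 ≤ 3 * 160000 ^ 3 / η := by positivity
  have hL2 : 2 ≤ L := by linarith
  have hηL : 3 * 160000 ^ 3 ≤ η * L := by
    have : 3 * 160000 ^ 3 / η ≤ L := by linarith
    rw [div_le_iff₀ hη] at this; linarith
  have hw1 : 1 ≤ w := Real.one_le_rpow (by exact_mod_cast h1) (by norm_num)
  obtain ⟨a, ha⟩ : ∃ a, a = w ^ 5000 := ⟨_, rfl⟩
  have ha0 : 0 < a := by rw [ha]; exact pow_pos hw0 _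
  have hNa : (n : ℝ) = a ^ 3 := by
    rw [ha, ← pow_mul, hp]; norm_num
  have hd : (n : ℝ) ^ (1997 / 3000 : ℝ) * w ^ 15 = a ^ 2 := by
    rw [ha, ← pow_mul, hp, hp, ← Real.rpow_add hN]; norm_num
  have hm : (n : ℝ) ^ (-(1003 / 3000) : ℝ) = 1 / (a * w ^ 15) := by
    rw [ha, ← pow_add, hp, Real.rpow_neg hN.le, one_div]; norm_num
  have hρ0 : 0 < rho n η := by unfold rho; positivity
  have hρ : rho n η ^ 3 = η * L / a ^ 3 := by
    unfold rho
    rw [← Real.rpow_natCast, ← Real.rpow_mul (by positivity), ← hNa]; norm_num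
    rfl
  have hρ' : (a * rho n η) ^ 3 = η * L := by rw [mul_pow, hρ]; field_simp
  have r0 : 1 ≤ a * rho n η := by
    by_contra hc
    have : (a * rho n η) ^ 3 ≤ 1 := pow_le_one₀ (by positivity) (by linarith)
    linarith
  have r1 : a * rho n η ≤ L := by
    have h2 : η * L ≤ L ^ 3 := by
      have : L ^ 1 ≤ L ^ 3 := pow_le_pow_right₀ (by linarith) (by norm_num)
      nlinarith
    exact le_of_pow_le_pow_left₀ (n := 3) (by norm_num) (by linarith) (hρ'.le.trans h2)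
  have hs1 : L ≤ (⌈L⌉₊ : ℕ) := Nat.le_ceil L
  have hs2 : ((⌈L⌉₊ : ℕ) : ℝ) ≤ L + 1 := (Nat.ceil_lt_add_one (by linarith)).le
  have hs3 : 2 ≤ ⌈L⌉₊ := by
    have : (2 : ℝ) ≤ (⌈L⌉₊ : ℕ) := hL2.trans hs1
    exact_mod_cast this
  generalize ⌈L⌉₊ = s at hs1 hs2 hs3
  have hq : a ^ 3 * (rho n η / 160000) ^ 3 = η * L / 160000 ^ 3 := by
    rw [← hρ']; ring
  have hex : Real.exp L = a ^ 3 := by rw [hLd, Real.exp_log hN, hNa]
  have H : Numa2 η w a ((n : ℝ) ^ (1997 / 3000 : ℝ)) L (rho n η / 160000) E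
      (63 + 42 * (5 * s)) :=
    { L1 := by linarith
      E1 := hE1
      K := hK
      dw := hd
      wa := by rw [ha]; exact pow_le_pow_right₀ hw1 (by norm_num)
      b0 := by rw [div_le_iff₀ (by positivity)]; linarith
      b1 := by
        rw [le_div_iff₀ ha0]
        nlinarith [mul_pos ha0 hρ0]
      q0 := by rw [hq, le_div_iff₀ (by positivity)]; exact hηL
      q1 := by
        rw [hq, div_le_iff₀ (by positivity)]
        nlinarith
      T1 := by push_cast; linarith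
      T0 := by push_cast; linarith
      ex := hex }
  have h5 : (w ^ 5) ^ 10000 = a ^ 10 := by rw [ha, ← pow_mul, ← pow_mul]
  have hw2 := H.numa2_w
  have ha2 := H.numa2_a
  generalize (n : ℝ) ^ (1997 / 3000 : ℝ) = d at H ⊢
  refine ⟨?_, ?_, s, w ^ 6, 1 / w ^ 12, Real.exp (-40), hs3, ?_, ?_⟩
  · rw [hm]
    have h6 : w ^ 1 ≤ w ^ 15 := pow_le_pow_right₀ hw1 (by norm_num)
    have h7 : 160000 ≤ w ^ 15 := by rw [pow_one] at h6; linarith
    push_cast
    rw [mul_one_div, div_le_iff₀ (by positivity)]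
    have : 1 * 160000 ≤ a * rho n η * w ^ 15 := by gcongr
    linarith
  · have h6 := H.numa2_Lk (k := 1) (by norm_num)
    have h7 := H.numa2_wa
    rw [pow_one] at h6
    by_contra hc
    have : a * 1 ≤ a * rho n η := by gcongr; linarith
    linarith
  · obtain ⟨F0, F1⟩ := H.numa2_F hη hq
    have hd0 := H.numa2_d0
    rw [hNa]
    refine ⟨H.numa2_b, H.numa2_b1, by positivity, by norm_num, Real.exp_pos _,
      Real.exp_le_one_iff.2 (by norm_num), by positivity, by positivity, by norm_num, ?_, ?_,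
      H.numa2_mm, ?_⟩
    · simpa using H.numa2_wb
    · have := H.numa2_opt
      push_cast at this ⊢
      linarith
    · have g1 : (1 + FF (a ^ 3) (63 + 42 * (5 * s)) 21 300 (rho n η / 160000))
          ^ (63 + 42 * (5 * s)) ≤ E := by
        refine numa2_pow F0 (F1.trans ?_)
        exact le_mul_of_one_le_right hC0 h40
      have g2 : (1 + FF (a ^ 3) (63 + 42 * (5 * s)) 21 300 (rho n η / 160000) / Real.exp (-40))
          ^ (63 + 42 * (5 * s)) ≤ E := by
        refine numa2_pow (by positivity) ?_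
        rw [Real.exp_neg, div_inv_eq_mul, ← mul_assoc]
        exact mul_le_mul_of_nonneg_right F1 (by positivity)
      have g3 : Real.exp (-40) ^ s ≤ 1 / a ^ 120 := by
        rw [← Real.exp_nat_mul, show 120 = 3 * 40 from rfl, pow_mul, ← hex, ← Real.exp_nat_mul,
          one_div, ← Real.exp_neg]
        refine Real.exp_le_exp.2 ?_
        push_cast
        linarith
      have k1 := H.numa2_k1 (by positivity) g1
      have k2 := H.numa2_k2 (by positivity) g2 (by positivity) g3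
      unfold bigB
      rw [if_neg (by omega)]
      have := (add_le_add k1 k2).trans (add_halves _).le
      simpa only [Nat.cast_ofNat] using this
  · have := H.numa2_fin h5
    rw [hNa]
    simpa only [Nat.cast_ofNat] using this

end Pool.Agent.P.MP_224820_co.St
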