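import Pool.Agent.P.MP_224820_co.St.IfaceM
import Pool.Agent.P.MP_224820_co.St.IfaceN

/-! Step TOPG. -/

set_option autoImplicit false

namespace Pool.Agent.P.MP_224820_co.St

open Finset Filter Topology

theorem topg_AA {J i j : ℕ} (hi : i ≤ J) (hj : j ≤ J) (h : i ≠ j) : kA J i ≠ kA J j := by
  unfold kA
  split_ifs <;> simp only [ne_eq, Fin.mk.injEq] <;> omega

theorem topg_BB {J i j : ℕ} (hi : i ≤ J) (hj : j ≤ J) (h : i ≠ j) : kB J i ≠ kB J j := by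
  unfold kB
  split_ifs <;> simp only [ne_eq, Fin.mk.injEq] <;> omega

theorem topg_AB (J i j : ℕ) : kA J i ≠ kB J j := by
  unfold kA kB
  split_ifs <;> simp only [ne_eq, Fin.mk.injEq] <;> omega

theorem topg_A0 (J : ℕ) : ((kA J J : Fin (2 * J + 2)) : ℕ) = 0 := by
  simp [kA]

theorem topg_B1 (J : ℕ) : ((kB J J : Fin (2 * J + 2)) : ℕ) = 1 := by
  simp [kB]

theorem topg_X {V : Type} [Fintype V] [DecidableEq V] (J : ℕ) (ξ : Finset (Fin (2 * J + 2) × Sym2 V)) :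
    KN V ∩ sl ξ (kA J J) = Cls ξ (kA J J) := by
  ext e
  simp only [mem_inter, Cls, sl, mem_filter, mem_univ, true_and]
  refine ⟨fun h => ⟨h.1, h.2, fun k' hk' => ?_⟩, fun h => ⟨h.1, h.2.1⟩⟩
  have := Fin.lt_def.1 hk'
  rw [topg_A0] at this
  omega

theorem topg_C {V : Type} [Fintype V] [DecidableEq V] (J : ℕ) (ξ : Finset (Fin (2 * J + 2) × Sym2 V))
    {A : Finset (Sym2 V)} (h1 : A ⊆ sl ξ (kB J J)) (h2 : NoLoop A)
    (h3 : Disjoint A (KN V ∩ sl ξ (kA J J))) : A ⊆ Cls ξ (kB J J) := by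
  intro e he
  have hK : e ∈ KN V := mem_KN.2 (h2 e he)
  have h4 := h1 he
  simp only [sl, mem_filter, mem_univ, true_and] at h4
  simp only [Cls, mem_filter]
  refine ⟨hK, h4, fun k' hk' hm => ?_⟩
  have h5 := Fin.lt_def.1 hk'
  rw [topg_B1] at h5
  have h6 : k' = kA J J := Fin.ext (by rw [topg_A0]; omega)
  refine disjoint_left.1 h3 he (mem_inter.2 ⟨hK, ?_⟩)
  simp only [sl, mem_filter, mem_univ, true_and]
  exact h6 ▸ hm

theorem topg_nn {V : Type} [Fintype V] [DecidableEq V] {r : ℕ} (C : Fin r → Finset (Sym2 V))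
    (U : Finset (Sym2 V)) (hU : ∀ e ∈ U, ∃ k, e ∈ C k) (d : Fin r → ℝ) (v : V)
    (hd : ∀ k, ((nb (C k) v).card : ℝ) ≤ d k) :
    ((nn (KN V \ U) v).card : ℝ) ≤ 1 + ∑ k, d k := by
  have h1 : nn (KN V \ U) v ⊆ {v} ∪ univ.biUnion fun k => nb (C k) v := by
    intro w hw
    rw [mem_nn, Finset.mem_sdiff, mem_KN] at hw
    by_cases hvw : v = w
    · simp [hvw]
    · have h2 : s(v, w) ∈ U := by
        by_contra h3
        exact hw ⟨fun h4 => hvw (Sym2.mk_isDiag_iff.1 h4), h3⟩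
      obtain ⟨k, hk⟩ := hU _ h2
      exact mem_union_right _ (mem_biUnion.2 ⟨k, mem_univ _, mem_nb.2 hk⟩)
  have h2 : (nn (KN V \ U) v).card ≤ 1 + ∑ k, (nb (C k) v).card := by
    refine (card_le_card h1).trans ((card_union_le _ _).trans ?_)
    rw [card_singleton]
    exact Nat.add_le_add_left card_biUnion_le 1
  have h3 : ((nn (KN V \ U) v).card : ℝ) ≤ 1 + ∑ k, ((nb (C k) v).card : ℝ) := by exact_mod_cast h2
  exact h3.trans (by linarith [sum_le_sum fun k (_ : k ∈ univ) => hd k])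

theorem p_TOPG (hGOODC : S_GOODC) (hHAZ : S_HAZ) (hLGC : S_LGC) (hLS : S_LS) (hLS0 : S_LS0) (hCHAIN : S_CHAIN) (hNUMT : S_NUMT) :
    S_TOPG := by
  intro ε δ hε hε1 hδ
  obtain ⟨n1, h1⟩ := hNUMT ε hε hε1
  obtain ⟨n2, h2⟩ := hLS
  obtain ⟨n3, h3⟩ := hLS0 (ε / 2) (ε / 260) (δ / 2) (by positivity) (by linarith) (by positivity)
    (by linarith) (by positivity)
  obtain ⟨n4, h4⟩ := exists_nat_ge (2 / δ)
  refine ⟨max (max n1 n2) (max n3 n4), fun n hn hmod J x0 hP ξ hG hA => ?_⟩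
  simp only [max_le_iff] at hn
  obtain ⟨⟨hn1, hn2⟩, hn3, hn4⟩ := hn
  have hT := h1 n hn1 J x0 hP
  obtain ⟨A, hA1, hA2⟩ := hA
  obtain ⟨c1, c2, c3⟩ := hGOODC (Fin n) (2 * J + 2) (piK n J x0 (ε / 260)) ξ
  obtain ⟨c3, -⟩ := c3 hT.isP hG
  have hc : Fintype.card (Fin n) = n := Fintype.card_fin n
  rw [hc] at c3
  have hAC := topg_C J ξ hA1 hA2.1 hA2.2.1
  rw [topg_X] at hA2
  obtain ⟨g, hl, g0, hl0, hs, g1, g2, hl1⟩ := hHAZ n J x0 ε hε hP.J1 hT ξ
  set U : Finset (Sym2 (Fin n)) := A ∪ (range (J + 1)).biUnion (fun i => Cls ξ (kA J i))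
    ∪ (range J).biUnion (fun i => Cls ξ (kB J i)) with hU
  have hUk : ∀ e ∈ U, ∃ k, e ∈ Cls ξ k := by
    intro e he
    simp only [hU, mem_union, mem_biUnion] at he
    rcases he with (he | ⟨i, -, he⟩) | ⟨i, -, he⟩
    exacts [⟨_, hAC he⟩, ⟨_, he⟩, ⟨_, he⟩]
  have hUK : U ⊆ KN (Fin n) := fun e he => by
    obtain ⟨k, hk⟩ := hUk e he
    exact mem_KN.2 ((c1 k).1 e hk)
  have hG0 : NoLoop (KN (Fin n) \ U) := fun e he => mem_KN.1 (mem_sdiff.1 he).1
  have dA : ∀ i ≤ J, Disjoint (KN (Fin n) \ U) (Cls ξ (kA J i)) := fun i hi =>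
    sdiff_disjoint.mono_right fun e he => by
      simp only [hU, mem_union, mem_biUnion]
      exact Or.inl (Or.inr ⟨i, mem_range.2 (by omega), he⟩)
  have dB : ∀ i < J, Disjoint (KN (Fin n) \ U) (Cls ξ (kB J i)) := fun i hi =>
    sdiff_disjoint.mono_right fun e he => by
      simp only [hU, mem_union, mem_biUnion]
      exact Or.inr ⟨i, mem_range.2 hi, he⟩
  have dC : Disjoint (KN (Fin n) \ U) A :=
    sdiff_disjoint.mono_right fun e he => by
      simp only [hU, mem_union]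
      exact Or.inl (Or.inl he)
  have hβ : piK n J x0 (ε / 260) (kA J 0) = Real.exp (-x0) / 200 := by
    rw [hT.piA 0 (Nat.zero_le _)]
    simp [xs]
  have l0 : Pr (hz g) (fun T => ¬ ∃ W ⊆ Cls ξ (kA J 0), Dec T (KN (Fin n) \ U ∪ W)) ≤ δ / 2 := by
    obtain ⟨e1, e2⟩ := c3 (kA J 0) (kA J 0) (hT.two _ _)
    rw [hβ] at e1 e2
    refine h3 (Fin n) (by rw [hc]; exact hn3) _ _ hG0 (c1 _).1 (dA 0 (Nat.zero_le _))
      (Real.exp (-x0) / 200) ?_ ?_ ?_ ?_ ?_ g g0 ?_ ?_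
    · rw [hc]; exact hT.a0
    · rw [← hβ]; exact (hT.isP _).2
    · intro v
      rw [hc]
      refine (topg_nn (Cls ξ) U hUk (fun k => 2 * n * piK n J x0 (ε / 260) k) v
        fun k => (c3 k k (hT.two _ _)).1 v).trans ?_
      rw [← mul_sum]
      exact hT.sum2
    · rw [hc]; exact e1
    · intro u v huv
      rw [hc, sq]
      exact (e2 u v huv).1
    · intro t _
      rw [hc]; exact g1 t
    · intro t ht
      rw [hc]; exact g2 _ hG0 t ht
  have l1 : ∀ i < J, ∀ A' ⊆ Cls ξ (kA J i), Pr (hz (hl i)) (fun T => ¬ ∃ W ⊆ Cls ξ (kA J (i + 1)),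
      Dec T (A' ∪ Cls ξ (kB J i) ∪ W)) ≤ 1 / (n : ℝ) ^ 2 := by
    intro i hi A' hA'
    have := h2 (Fin n) (by rw [hc]; exact hn2) (xs x0 i) (by rw [hc]; exact (hT.rng i hi).1)
      (by rw [hc]; exact (hT.rng i hi).2) A' _ _ (hLGC n J x0 ε hT ξ hG i hi A' hA') (hl i) (hl0 i)
      (by rw [hc]; exact (hl1 i hi A' hA').1) (by rw [hc]; exact (hl1 i hi A' hA').2)
    rwa [hc] at this
  have key := hCHAIN (Fin n) J (fun i => Cls ξ (kA J i)) (fun i => Cls ξ (kB J i)) (KN (Fin n) \ U) A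
    (fun i hi j hj h => c2 _ _ (topg_AA hi hj h))
    (fun i hi j hj h => c2 _ _ (topg_BB hi.le hj.le h))
    (fun i _ j _ => c2 _ _ (topg_AB J i j))
    (fun i hi => ⟨dA i hi, (c2 _ _ (topg_AB J i J).symm).mono_left hAC⟩)
    (fun j hj => ⟨dB j hj, (c2 _ _ (topg_BB le_rfl hj.le hj.ne')).mono_left hAC⟩)
    dC (by rw [union_assoc, union_assoc, ← union_assoc A, ← hU, sdiff_union_of_subset hUK])
    (Dv_KN (by rw [hc]; exact hmod)) hA2 _ g hl g0 hl0 hs (δ / 2) (1 / (n : ℝ) ^ 2) (by positivity) l0 l1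
  have hp := hz_isP fun t => le_trans (add_nonneg (g0 t) (sum_nonneg fun i _ => hl0 i t)) (hs t)
  have hsub : tri (A ∪ Cls ξ (kA J J)) ⊆ sure (LsK J) ed3 ξ := by
    intro t ht
    obtain ⟨t3, ht⟩ := mem_tri.1 ht
    have e3 : ed3 t = ed t := if_pos t3
    have e4 : t ∈ sure (LsK J) ed3 ξ ↔ (ed3 t).card = 3 ∧ ∀ e ∈ ed3 t, LsK J (st ξ e) := by
      simp only [sure, Finset.mem_filter, mem_univ, true_and]
    rw [e4, e3]
    refine ⟨card_ed t3, fun e he => ?_⟩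
    rcases mem_union.1 (ht he) with h | h
    · exact Or.inr ((c1 _).2.2 e (hAC h))
    · exact Or.inl ((c1 _).2.2 e h)
  refine (Pr_mono hp fun T hT' hD => hT' (Dec_mono (union_subset_union_right hsub) hD)).trans
    (key.trans ?_)
  have hJ : (J : ℝ) ≤ n := by exact_mod_cast (show J ≤ n by have := hT.cls; omega)
  have hn0 : (0 : ℝ) < n := by exact_mod_cast (show 0 < n by have := hT.cls; omega)
  have hd : 2 / δ ≤ n := h4.trans (by exact_mod_cast hn4)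
  rw [div_le_iff₀ hδ] at hd
  have : (J : ℝ) * (1 / (n : ℝ) ^ 2) ≤ δ / 2 := by
    rw [mul_one_div, div_le_iff₀ (by positivity)]
    nlinarith
  linarith

end Pool.Agent.P.MP_224820_co.St
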