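import Pool.Agent.P.MP_224820_co.St.IfaceP

/-! Step TRK. -/

set_option autoImplicit false

namespace Pool.Agent.P.MP_224820_co.St

open Finset

theorem trk_exp {S : ℝ} (h0 : 0 ≤ S) (h1 : S ≤ 1 / 2) : Real.exp (-(2 * S)) ≤ 1 - S := by
  have h2 := Real.add_one_le_exp (2 * S)
  have h3 : Real.exp (-(2 * S)) * Real.exp (2 * S) = 1 := by rw [← Real.exp_add]; simp
  have h4 := Real.exp_pos (-(2 * S))
  nlinarith [mul_le_mul_of_nonneg_left h2 h4.le, mul_nonneg h0 (show 0 ≤ 1 - 2 * S by linarith)]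

theorem trk_tan (c f : ℝ) : Real.exp (-c) * (1 + c - f) ≤ Real.exp (-f) := by
  have h := Real.add_one_le_exp (c - f)
  rw [show -f = -c + (c - f) by ring, Real.exp_add]
  exact mul_le_mul_of_nonneg_left (by linarith) (Real.exp_pos _).le

theorem trk_prod {Y : Type} (G : Finset Y) (z : Y → ℝ) (h : ∀ y ∈ G, 0 ≤ z y ∧ z y ≤ 1) :
    1 - ∑ y ∈ G, z y ≤ ∏ y ∈ G, (1 - z y) := by
  classical
  induction G using Finset.induction_on with
  | empty => simp
  | insert a G ha ih =>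
    rw [sum_insert ha, prod_insert ha]
    have h1 := h a (mem_insert_self _ _)
    have h2 := ih fun y hy => h y (mem_insert_of_mem hy)
    have h3 : 0 ≤ ∑ y ∈ G, z y := sum_nonneg fun y hy => (h y (mem_insert_of_mem hy)).1
    nlinarith [mul_le_mul_of_nonneg_left h2 (sub_nonneg.2 h1.2), mul_nonneg h1.1 h3]

theorem p_TRK :
    S_TRK := by
  intro K Y Λ _ _ _ π hπ σ hσ0 hσ Lst _ ρ hρ0 hρ1 hB G H x hH hx
  set c : ℝ := ∑ l, ∑ y ∈ G, H l y with hc
  set S : ℝ := ∑ y ∈ G, x y / ρ with hS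
  let f : Finset K → ℝ := fun s => ∑ l, (∑ y ∈ G, H l y) * σ l s
  have hHl : ∀ l, 0 ≤ ∑ y ∈ G, H l y := fun l => sum_nonneg fun y hy => hH l y hy
  have hc0 : 0 ≤ c := sum_nonneg fun l _ => hHl l
  have hf0 : ∀ s, 0 ≤ f s := fun s => sum_nonneg fun l _ => mul_nonneg (hHl l) (hσ0 l s)
  have hz : ∀ y ∈ G, 0 ≤ x y / ρ ∧ x y / ρ ≤ 1 := fun y hy =>
    ⟨div_nonneg (hx y hy).1 hρ0.le, (div_le_one hρ0).2 (hx y hy).2⟩
  have hS0 : 0 ≤ S := sum_nonneg fun y hy => (hz y hy).1
  have hEf : Ex π f ≤ c / 2 := by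
    rw [Ex_sum π univ fun l s => (∑ y ∈ G, H l y) * σ l s, hc, sum_div]
    refine sum_le_sum fun l _ => ?_
    rw [Ex_mul]
    linarith [mul_le_mul_of_nonneg_left (hσ l) (hHl l)]
  have hB0 := Pr_nonneg hπ Lst
  have hBe := Pr_eq π Lst
  have hL : ∏ y ∈ G, (Real.exp (-∑ l, H l y) * (1 - x y)) ≤ Real.exp (-(c + ρ * S)) := by
    have e : -(c + ρ * S) = ∑ y ∈ G, (-∑ l, H l y + -x y) := by
      rw [sum_add_distrib, sum_neg_distrib, sum_neg_distrib, sum_comm, hS, mul_sum, neg_add]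
      congr 2
      exact sum_congr rfl fun y _ => by field_simp
    rw [e, Real.exp_sum]
    refine prod_le_prod (fun y hy => mul_nonneg (Real.exp_pos _).le
      (by linarith [(hx y hy).2])) fun y _ => ?_
    rw [Real.exp_add]
    exact mul_le_mul_of_nonneg_left (by linarith [Real.add_one_le_exp (-x y)]) (Real.exp_pos _).le
  have hI : ∀ s, ∏ y ∈ G, (Real.exp (-∑ l, σ l s * H l y) * (1 - if Lst s then x y / ρ else 0))
      = Real.exp (-f s) * if Lst s then ∏ y ∈ G, (1 - x y / ρ) else 1 := by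
    intro s
    rw [prod_mul_distrib, ← Real.exp_sum, sum_neg_distrib, sum_comm]
    congr 1
    · congr 2
      exact sum_congr rfl fun l _ => by rw [← mul_sum, mul_comm]
    · split_ifs <;> simp
  refine hL.trans ?_
  rw [Ex_congr hI]
  by_cases h : S ≤ 1 / 2
  · let m : ℝ := c + ρ * S
    have h1 : Ex π (fun s => Real.exp (-m) * ((1 + m) - (f s + 2 * S * if Lst s then 1 else 0)))
        ≤ Ex π fun s => Real.exp (-f s) * if Lst s then ∏ y ∈ G, (1 - x y / ρ) else 1 := by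
      refine Ex_mono hπ fun s => (trk_tan _ _).trans ?_
      rw [neg_add, Real.exp_add]
      refine mul_le_mul_of_nonneg_left ?_ (Real.exp_pos _).le
      split_ifs
      · rw [mul_one]; exact (trk_exp hS0 h).trans (trk_prod G _ hz)
      · simp
    refine le_trans ?_ h1
    rw [Ex_mul, Ex_sub, Ex_const, Ex_add, Ex_mul, ← hBe]
    refine le_mul_of_one_le_right (Real.exp_pos _).le ?_
    have := mul_le_mul_of_nonneg_left hB hS0
    simp only [m]
    nlinarith [mul_nonneg hρ0.le hS0]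
  · have h1 : Ex π (fun s => Real.exp (-c) * ((1 + c) * (1 - if Lst s then 1 else 0) - f s))
        ≤ Ex π fun s => Real.exp (-f s) * if Lst s then ∏ y ∈ G, (1 - x y / ρ) else 1 := by
      refine Ex_mono hπ fun s => ?_
      split_ifs
      · have h2 : 0 ≤ ∏ y ∈ G, (1 - x y / ρ) :=
          prod_nonneg fun y hy => sub_nonneg.2 (hz y hy).2
        have h3 := mul_nonneg (Real.exp_pos (-c)).le (hf0 s)
        have h4 := mul_nonneg (Real.exp_pos (-f s)).le h2
        simp only [sub_self, mul_zero, zero_sub, mul_neg]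
        linarith
      · simpa using trk_tan c (f s)
    refine le_trans ?_ h1
    rw [Ex_mul, Ex_sub, Ex_mul, Ex_sub, Ex_const, ← hBe, neg_add, Real.exp_add]
    refine mul_le_mul_of_nonneg_left ?_ (Real.exp_pos _).le
    have h2 := trk_exp hB0 (by linarith)
    have h3 : Real.exp (-(ρ * S)) ≤ Real.exp (-(2 * Pr π Lst)) :=
      Real.exp_le_exp.2 (by nlinarith [mul_le_mul_of_nonneg_left (not_le.1 h).le hρ0.le])
    nlinarith [mul_nonneg hc0 (show 0 ≤ 1 / 2 - Pr π Lst by linarith)]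

end Pool.Agent.P.MP_224820_co.St
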