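import Pool.Agent.P.MP_224820_co.St.GrB

/-! One helical tube absorbs a closed trail of length divisible by three. -/

set_option autoImplicit false

namespace Pool.Agent.P.MP_224820_co.St

open Finset

variable {W : Type}

/-- a single edge as a multiset -/
def tbE (a b : W) : Multiset (Sym2 W) := {s(a, b)}

theorem tbE_comm (a b : W) : tbE a b = tbE b a := by
  unfold tbE; rw [Sym2.eq_swap]

theorem tb_tri (a b c : W) : FD (tbE a b + tbE b c + tbE a c) := by
  have h := FD_tri a b c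
  have e : tbE a b + tbE b c + tbE a c = {s(a, b), s(b, c), s(c, a)} := by
    rw [tbE_comm a c]; rfl
  rw [e]; exact h

/-- the edges of the tube: helix with differences `1, 3r+1, 3r+2` on the positions `0 .. n+3r+1`,
a windmill `y`, and the spokes to the trail `x` and to the windmill -/
def tubeE (r n : ℕ) (x p y : ℕ → W) : Multiset (Sym2 W) :=
  ∑ i ∈ range (n + (3 * r + 1)), tbE (p i) (p (i + 1))
    + ∑ i ∈ range (n + 1), tbE (p i) (p (i + (3 * r + 1)))
    + ∑ i ∈ range n, tbE (p i) (p (i + (3 * r + 2)))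
    + ∑ i ∈ range (3 * r), tbE (y i) (y (i + 1))
    + ∑ i ∈ range (3 * r + 1), tbE (x i) (p i)
    + ∑ i ∈ range (3 * r + 1), tbE (x i) (p (i + 1))
    + ∑ i ∈ range (3 * r + 1), tbE (y i) (p (n + i))
    + ∑ i ∈ range (3 * r + 1), tbE (y i) (p (n + i + 1))

theorem tb_wind (r : ℕ) (y : ℕ → W) (hy : ∀ j ≤ r, y (3 * j) = y 0) :
    FD (∑ i ∈ range (3 * r), tbE (y i) (y (i + 1))) := by
  induction r with
  | zero => simpa using FD_zero
  | succ r ih =>
    have h1 := ih fun j hj => hy j (by omega)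
    have h2 : y (3 * r + 2 + 1) = y (3 * r) := by
      rw [show 3 * r + 2 + 1 = 3 * (r + 1) by ring, hy (r + 1) le_rfl, hy r (by omega)]
    rw [show 3 * (r + 1) = 3 * r + 1 + 1 + 1 by ring, sum_range_succ, sum_range_succ, sum_range_succ,
      add_assoc, add_assoc]
    refine FD_add h1 ?_
    have h3 := tb_tri (y (3 * r)) (y (3 * r + 1)) (y (3 * r + 1 + 1))
    rw [show 3 * r + 1 + 1 + 1 = 3 * r + 2 + 1 by ring, h2, tbE_comm (y (3 * r + 1 + 1)), ← add_assoc]
    exact h3

/-- the tube alone is a sum of triangles -/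
theorem tube_fd0 (r n : ℕ) (x p y : ℕ → W) (hy : y (3 * r) = y 0) : FD (tubeE r n x p y) := by
  have a1 := FD_sum (range (3 * r + 1)) _ fun i _ => tb_tri (x i) (p i) (p (i + 1))
  have a2 := FD_sum (range n) _ fun i _ => tb_tri (p i) (p (i + (3 * r + 1))) (p (i + (3 * r + 2)))
  have a3 := FD_sum (range (3 * r)) _ fun i _ => tb_tri (y i) (y (i + 1)) (p (n + i + 1))
  have a4 := tb_tri (y 0) (p n) (p (n + (3 * r + 1)))
  have a := FD_add (FD_add (FD_add a1 a2) a3) a4
  simp only [sum_add_distrib] at a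
  have e1 : ∑ i ∈ range (n + (3 * r + 1)), tbE (p i) (p (i + 1))
      = ∑ i ∈ range (3 * r + 1), tbE (p i) (p (i + 1))
        + ∑ i ∈ range n, tbE (p (i + (3 * r + 1))) (p (i + (3 * r + 2))) := by
    rw [add_comm n, sum_range_add]
    congr 1
    refine sum_congr rfl fun i _ => ?_
    rw [add_comm (3 * r + 1) i, add_assoc]
  have e2 : ∑ i ∈ range (3 * r + 1), tbE (y i) (p (n + i))
      = ∑ i ∈ range (3 * r), tbE (y (i + 1)) (p (n + i + 1)) + tbE (y 0) (p n) := by
    rw [sum_range_succ']; rfl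
  have e3 : ∑ i ∈ range (3 * r + 1), tbE (y i) (p (n + i + 1))
      = ∑ i ∈ range (3 * r), tbE (y i) (p (n + i + 1)) + tbE (y 0) (p (n + (3 * r + 1))) := by
    rw [sum_range_succ, hy]; rfl
  unfold tubeE
  rw [e1, e2, e3, sum_range_succ (fun i => tbE (p i) (p (i + (3 * r + 1))))]
  convert a using 1
  abel

/-- the tube together with the closed trail is a sum of triangles -/
theorem tube_fd1 (r n : ℕ) (x p y : ℕ → W) (hx : x (3 * r) = x 0) (hy : ∀ j ≤ r, y (3 * j) = y 0) :
    FD (tubeE r n x p y + ∑ i ∈ range (3 * r), tbE (x i) (x (i + 1))) := by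
  have a1 := FD_sum (range (3 * r)) _ fun i _ => tb_tri (x i) (x (i + 1)) (p (i + 1))
  have a2 := tb_tri (x 0) (p 0) (p (0 + (3 * r + 1)))
  have a3 := FD_sum (range n) _ fun i _ => tb_tri (p i) (p (i + 1)) (p (i + (3 * r + 2)))
  have a4 := FD_sum (range (3 * r + 1)) _ fun i _ => tb_tri (y i) (p (n + i)) (p (n + i + 1))
  have a5 := tb_wind r y hy
  have a := FD_add (FD_add (FD_add (FD_add a1 a2) a3) a4) a5
  simp only [sum_add_distrib] at a
  have e1 : ∑ i ∈ range (n + (3 * r + 1)), tbE (p i) (p (i + 1))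
      = ∑ i ∈ range n, tbE (p i) (p (i + 1))
        + ∑ i ∈ range (3 * r + 1), tbE (p (n + i)) (p (n + i + 1)) := by
    rw [sum_range_add]
  have e2 : ∑ i ∈ range (n + 1), tbE (p i) (p (i + (3 * r + 1)))
      = ∑ i ∈ range n, tbE (p (i + 1)) (p (i + (3 * r + 2))) + tbE (p 0) (p (0 + (3 * r + 1))) := by
    rw [sum_range_succ']
    congr 1
    refine sum_congr rfl fun i _ => ?_
    rw [show i + 1 + (3 * r + 1) = i + (3 * r + 2) by ring]
  have e3 : ∑ i ∈ range (3 * r + 1), tbE (x i) (p i)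
      = ∑ i ∈ range (3 * r), tbE (x (i + 1)) (p (i + 1)) + tbE (x 0) (p 0) := by
    rw [sum_range_succ']
  have e4 : ∑ i ∈ range (3 * r + 1), tbE (x i) (p (i + 1))
      = ∑ i ∈ range (3 * r), tbE (x i) (p (i + 1)) + tbE (x 0) (p (0 + (3 * r + 1))) := by
    rw [sum_range_succ, hx, zero_add]
  unfold tubeE
  rw [e1, e2, e3, e4]
  convert a using 1
  abel

end Pool.Agent.P.MP_224820_co.St
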