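import Pool.Agent.P.MP_224820_co.St.Surg
import Pool.Agent.P.MP_224820_co.St.Conc

/-! Stage 0, probabilistic part with explicit parameters. -/

set_option autoImplicit false

namespace Pool.Agent.P.MP_224820_co.St

open Finset

variable {V : Type} [Fintype V] [DecidableEq V]

open Classical in
/-- the typed triangles on a pair -/
noncomputable def tyOn (L R : Finset (Sym2 V)) (e : Sym2 V) : Finset (Finset V) :=
  univ.filter fun t => Ty L R t ∧ e ∈ ed t

theorem mem_tyOn {L R : Finset (Sym2 V)} {e : Sym2 V} {t : Finset V} :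
    t ∈ tyOn L R e ↔ Ty L R t ∧ e ∈ ed t := by
  unfold tyOn
  simp

theorem cnt_tyOn (L R : Finset (Sym2 V)) (e : Sym2 V) (T : Finset (Finset V)) :
    cnt T (fun t => Ty L R t ∧ e ∈ ed t) = (T ∩ tyOn L R e).card := by
  classical
  rw [cnt_eq]
  congr 1
  ext t
  simp [mem_tyOn]

theorem card_tyOn_left {L R : Finset (Sym2 V)} (hL : NoLoop L) (hR : NoLoop R)
    (hLR : Disjoint L R) {u v : V} (he : s(u, v) ∈ L) :
    (tyOn L R s(u, v)).card = (nb R u ∩ nb R v).card := by
  have h := sum_typed_left hL hR hLR he fun _ => 1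
  simp only [sum_const, nsmul_eq_mul, mul_one] at h
  unfold tyOn
  exact_mod_cast h

theorem card_tyOn_right {L R : Finset (Sym2 V)} (hL : NoLoop L) (hR : NoLoop R)
    (hLR : Disjoint L R) {u w : V} (he : s(u, w) ∈ R) :
    (tyOn L R s(u, w)).card ≤ (nb L u ∩ nb R w).card + (nb L w ∩ nb R u).card :=
  card_typed_right hL hR hLR he

theorem sum_tyOn {L R : Finset (Sym2 V)} {p : Finset V → ℝ} {q : ℝ}
    (h : ∀ t, Ty L R t → p t = q) (e : Sym2 V) :
    ∑ t ∈ tyOn L R e, p t = (tyOn L R e).card * q := by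
  rw [sum_congr rfl fun t ht => h t (mem_tyOn.1 ht).1, sum_const, nsmul_eq_mul]

open Classical in
/-- the edges of `G` with fewer than `D` present reservoir triangles -/
noncomputable def short (G a : Finset (Sym2 V)) (D : ℝ) (R : Finset (Finset V)) :
    Finset (Sym2 V) := G.filter fun e => ((R ∩ tyOn G a e).card : ℝ) ≤ D

theorem mem_short {G a : Finset (Sym2 V)} {D : ℝ} {R : Finset (Finset V)} {e : Sym2 V} :
    e ∈ short G a D R ↔ e ∈ G ∧ ((R ∩ tyOn G a e).card : ℝ) ≤ D := by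
  unfold short
  simp

/-- short edges are rare in every fixed set of pairs -/
theorem short_rare {G a : Finset (Sym2 V)} (hG : NoLoop G) (ha : NoLoop a) (hd : Disjoint G a)
    {p : Finset V → ℝ} (hp : IsP p) {q M : ℝ} (hq : 0 ≤ q) (hM0 : 0 ≤ M)
    (hpq : ∀ t, Ty G a t → p t = q) (hM : ∀ u v, s(u, v) ∈ G → M ≤ (nb a u ∩ nb a v).card)
    (F : Finset (Sym2 V)) {Δ : ℝ} (hΔ : 8 * (F.card * Real.exp (-(M * q / 8))) ≤ Δ) :
    Pr p (fun R => Δ ≤ (F ∩ short G a (M * q / 2) R).card) ≤ Real.exp (-Δ) := by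
  classical
  have h := cnt_far (J := F ∩ G) (s := tyOn G a)
    (P := fun e R => ((R ∩ tyOn G a e).card : ℝ) ≤ M * q / 2) hp
    (fun e he e' he' hne => by
      rw [Function.onFun, disjoint_left]
      intro t h1 h2
      rw [mem_tyOn] at h1 h2
      exact hne (Ty_unique hG ha hd h1.1 (mem_inter.1 he).2 (mem_inter.1 he').2 h1.2 h2.2))
    (fun e _ R R' h => by simp only [h])
    (μ := F.card * Real.exp (-(M * q / 8))) (k := Δ) ?_ hΔ
  · refine le_trans (Pr_mono hp fun R hR => hR.trans (le_of_eq ?_)) h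
    rw [cnt_eq]
    congr 2
    ext e
    simp [mem_short, and_assoc]
  · refine le_trans (sum_le_sum (g := fun _ => Real.exp (-(M * q / 8))) fun e he => ?_) ?_
    · refine chern_half hp _ (by positivity) ?_
      induction e using Sym2.ind with
      | _ u v =>
      rw [sum_tyOn hpq, card_tyOn_left hG ha hd (mem_inter.1 he).2]
      exact mul_le_mul_of_nonneg_right (hM u v (mem_inter.1 he).2) hq
    · rw [sum_const, nsmul_eq_mul]
      exact mul_le_mul_of_nonneg_right (Nat.cast_le.2 (card_le_card inter_subset_left))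
        (Real.exp_pos _).le

/-- the pairs at `v` and the edges of the packing triangles through `v` -/
def around (K : Finset (Finset V)) (v : V) : Finset (Sym2 V) :=
  (univ.image fun x => s(v, x)) ∪ (K.filter fun k => v ∈ k).biUnion ed

theorem Pack.card_around {K : Finset (Finset V)} {G : Finset (Sym2 V)} (h : Pack K G) (v : V) :
    (around K v).card ≤ 4 * Fintype.card V := by
  have h1 : (univ.image fun x => s(v, x)).card ≤ Fintype.card V := card_image_le.trans card_univ.le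
  have h2 := card_biUnion_ed (K := K.filter fun k => v ∈ k) fun t ht => (h.1 t (mem_filter.1 ht).1).1
  have h3 := card_nb_biUnion (fun t ht => (h.1 t ht).1) h.2 v
  have h4 : (nb (K.biUnion ed) v).card ≤ Fintype.card V := card_le_univ _
  have h5 := card_union_le (univ.image fun x => s(v, x)) ((K.filter fun k => v ∈ k).biUnion ed)
  unfold around
  omega

theorem card_nb_le_around (K : Finset (Finset V)) (S : Finset (Sym2 V)) (v : V) :
    (nb S v).card ≤ (around K v ∩ S).card := by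
  have := card_inter_star S v univ
  rw [inter_univ] at this
  rw [← this, inter_comm]
  exact card_le_card (inter_subset_inter_right subset_union_left)

theorem Pack.card_nb_clo {K : Finset (Finset V)} {G : Finset (Sym2 V)} (h : Pack K G)
    (S : Finset (Sym2 V)) (v : V) : (nb (clo K S) v).card ≤ 2 * (around K v ∩ S).card := by
  unfold clo
  rw [card_nb_biUnion (fun t ht => (h.1 t (mem_filter.1 ht).1).1)
    fun t ht t' ht' hne => h.2 t (mem_filter.1 ht).1 t' (mem_filter.1 ht').1 hne]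
  refine Nat.mul_le_mul_left 2 (le_trans (card_le_card fun k hk => ?_)
    (h.card_meet (around K v ∩ S)))
  simp only [mem_filter, not_disjoint_iff] at hk ⊢
  obtain ⟨⟨h1, e, h2, h3⟩, h4⟩ := hk
  exact ⟨h1, e, h2, mem_inter.2 ⟨mem_union_right _ (mem_biUnion.2 ⟨k, mem_filter.2 ⟨h1, h4⟩, h2⟩), h3⟩⟩

/-- the plain layer, given the reservoir layer -/
theorem zero_plain {G a S : Finset (Sym2 V)} (hG : NoLoop G) (ha : NoLoop a) (hd : Disjoint G a)
    {K R : Finset (Finset V)} (hK : Pack K G) (hS : S ⊆ G) {p : Finset V → ℝ} (hp : IsP p)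
    {r D D' Δ y ξ θ τ : ℝ} {k : ℕ} (hD : 0 < D) (hD' : 0 < D') (hr : 0 ≤ r) (hθ : 0 ≤ θ)
    (hy : 1 ≤ y) (hΔ0 : 0 ≤ Δ) (hpr : ∀ t ∈ tri G, p t = r) (hξ : ∀ u, ((nn G u).card : ℝ) ≤ ξ)
    (h1 : ∀ e ∈ G, e ∉ S → D ≤ cnt R fun t => Ty G a t ∧ e ∈ ed t)
    (h2 : ∀ f ∈ a, (cnt R (fun t => Ty (G \ K.biUnion ed) a t ∧ f ∈ ed t) : ℝ) ≤ D / 8)
    (h3 : ∀ v, ((around K v ∩ S).card : ℝ) ≤ Δ)
    (h4 : ∀ f ∈ a, ((R ∩ tyOn G a f).card : ℝ) ≤ y)
    (hτ : 18 * y * Δ * r ≤ τ) (hk1 : (k : ℝ) ≤ D' / 4) (hk2 : 9 * (k : ℝ) ≤ D / 8) :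
    Pr p (fun A => ¬ ∃ a' ⊆ a, Dec (K ∪ R ∪ A) (G ∪ a')) ≤ (Fintype.card V : ℝ) ^ 2 *
      (Real.exp (θ * D' - (1 - Real.exp (-θ)) * ((Fintype.card V - 2 * ξ - 6 * Δ) * r))
        + 2 * τ ^ k) := by
  classical
  set G' := G \ (S ∪ clo K S) with hG'
  have hG'G : G' ⊆ G := sdiff_subset
  have nG' : NoLoop G' := hG.mono hG'G
  have nS : NoLoop S := hG.mono hS
  have dSG : Disjoint S G' := disjoint_left.2 fun e he h => (mem_sdiff.1 h).2 (mem_union_left _ he)
  have hty : ∀ t, Ty S G' t → p t = r := fun t ht =>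
    hpr t (mem_tri.2 ⟨(Ty_card nS nG' ht).1, (Ty_card nS nG' ht).2.trans (union_subset hS hG'G)⟩)
  have nbS : ∀ v, ((nb S v).card : ℝ) ≤ Δ := fun v =>
    (Nat.cast_le.2 (card_nb_le_around K S v)).trans (h3 v)
  have nnG : ∀ v, ((nn G' v).card : ℝ) ≤ ξ + 3 * Δ := by
    intro v
    have a1 : (nn G' v).card ≤ (nn G v).card + ((nb S v).card + (nb (clo K S) v).card) := by
      rw [hG', nn_sdiff, nb_union]
      exact (card_union_le _ _).trans (Nat.add_le_add_left (card_union_le _ _) _)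
    have a2 : ((nb (clo K S) v).card : ℝ) ≤ 2 * (around K v ∩ S).card := by
      exact_mod_cast hK.card_nb_clo S v
    have a3 : ((nn G' v).card : ℝ) ≤ (nn G v).card + ((nb S v).card + (nb (clo K S) v).card) := by
      exact_mod_cast a1
    linarith [hξ v, nbS v, h3 v]
  have cty : ∀ f ∈ G', ((tyOn S G' f).card : ℝ) ≤ 2 * Δ := by
    intro f hf
    induction f using Sym2.ind with
    | _ u w =>
    have a1 := card_tyOn_right nS nG' dSG hf
    have a2 : (nb S u ∩ nb G' w).card ≤ (nb S u).card := card_le_card inter_subset_left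
    have a3 : (nb S w ∩ nb G' u).card ≤ (nb S w).card := card_le_card inter_subset_left
    have a4 : ((tyOn S G' s(u, w)).card : ℝ) ≤ (nb S u).card + (nb S w).card := by
      exact_mod_cast a1.trans (Nat.add_le_add a2 a3)
    linarith [nbS u, nbS w]
  have hτ0 : 0 ≤ τ := le_trans (by positivity) hτ
  have cn : ∀ H : Finset (Sym2 V), (H.card : ℝ) ≤ (Fintype.card V : ℝ) ^ 2 := fun H => by
    exact_mod_cast card_sym2_le H
  have b1 := Pr_exists_le' hp S (fun e A => ((A ∩ tyOn S G' e).card : ℝ) ≤ D')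
    (δ := Real.exp (θ * D' - (1 - Real.exp (-θ)) * ((Fintype.card V - 2 * ξ - 6 * Δ) * r)))
    fun e he => by
      refine chern_lo hp _ ?_ hθ
      induction e using Sym2.ind with
      | _ u v =>
      rw [sum_tyOn hty, card_tyOn_left nS nG' dSG he]
      refine mul_le_mul_of_nonneg_right ?_ hr
      have a1 : Fintype.card V ≤ (nb G' u ∩ nb G' v).card + ((nn G' u).card + (nn G' v).card) := by
        rw [← card_univ]
        refine le_trans (card_le_card fun w _ => ?_)
          ((card_union_le _ _).trans (Nat.add_le_add_left (card_union_le _ _) _))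
        simp only [mem_union, mem_inter, mem_nb, mem_nn]
        tauto
      have a2 : (Fintype.card V : ℝ)
          ≤ (nb G' u ∩ nb G' v).card + ((nn G' u).card + (nn G' v).card) := by exact_mod_cast a1
      linarith [nnG u, nnG v]
  have b2 := Pr_exists_le' hp G' (fun f A => k ≤ (A ∩ tyOn S G' f).card) (δ := τ ^ k)
    fun f hf => by
      refine chern_pow hp _ ?_ k
      rw [sum_tyOn hty]
      have := mul_le_mul_of_nonneg_right (cty f hf) hr
      have : 0 ≤ Δ * r := by positivity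
      nlinarith
  have b3 := Pr_exists_le' hp a (fun f A => k ≤ (A ∩ csf G a S G' K R f).card) (δ := τ ^ k)
    fun f hf => by
      refine chern_pow hp _ ?_ k
      have e1 : ∑ t ∈ csf G a S G' K R f, p t = (csf G a S G' K R f).card * r := by
        rw [sum_congr rfl fun t ht => hty t ?_, sum_const, nsmul_eq_mul]
        unfold csf at ht
        exact (mem_filter.1 ht).2.1
      set W := clo K ((ysf G a R f).biUnion ed) with hW
      have e2 : ysf G a R f = R ∩ tyOn G a f := by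
        ext t
        unfold ysf
        simp [mem_tyOn]
      have c1 : W.card ≤ 9 * (R ∩ tyOn G a f).card := by
        refine (hK.card_clo _).trans ?_
        have := card_biUnion_ed (K := ysf G a R f) fun t ht => by
          rw [e2] at ht
          exact (Ty_card hG ha (mem_tyOn.1 (mem_inter.1 ht).2).1).1
        rw [e2] at this ⊢
        omega
      have c2 : csf G a S G' K R f ⊆ (W.filter (· ∈ G')).biUnion (tyOn S G') := by
        intro t ht
        unfold csf at ht
        obtain ⟨-, h, g, g1, g2, g3⟩ := mem_filter.1 ht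
        exact mem_biUnion.2 ⟨g, mem_filter.2 ⟨g3, g2⟩, mem_tyOn.2 ⟨h, g1⟩⟩
      have c3 : ((csf G a S G' K R f).card : ℝ) ≤ ∑ g ∈ W.filter (· ∈ G'), ((tyOn S G' g).card : ℝ) := by
        exact_mod_cast (card_le_card c2).trans card_biUnion_le
      have c4 : ∑ g ∈ W.filter (· ∈ G'), ((tyOn S G' g).card : ℝ) ≤ ∑ _g ∈ W.filter (· ∈ G'), 2 * Δ :=
        sum_le_sum fun g hg => cty g (mem_filter.1 hg).2
      rw [sum_const, nsmul_eq_mul] at c4
      have c5 : ((W.filter (· ∈ G')).card : ℝ) ≤ 9 * y := by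
        have : ((W.filter (· ∈ G')).card : ℝ) ≤ 9 * (R ∩ tyOn G a f).card := by
          exact_mod_cast (card_filter_le _ _).trans c1
        linarith [h4 f hf]
      have c6 : ((csf G a S G' K R f).card : ℝ) ≤ 9 * y * (2 * Δ) :=
        c3.trans (c4.trans (mul_le_mul_of_nonneg_right c5 (by positivity)))
      rw [e1]
      nlinarith [mul_le_mul_of_nonneg_right c6 hr]
  have o1 := Pr_or_le hp (fun A => ∃ f ∈ G', k ≤ (A ∩ tyOn S G' f).card)
    (fun A => ∃ f ∈ a, k ≤ (A ∩ csf G a S G' K R f).card)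
  have o2 := Pr_or_le hp (fun A => ∃ e ∈ S, ((A ∩ tyOn S G' e).card : ℝ) ≤ D')
    (fun A => (∃ f ∈ G', k ≤ (A ∩ tyOn S G' f).card) ∨
      ∃ f ∈ a, k ≤ (A ∩ csf G a S G' K R f).card)
  refine le_trans (Pr_mono hp fun A hA => ?_) (o2.trans ?_)
  · by_contra hc
    simp only [not_or, not_exists, not_and, not_le] at hc
    obtain ⟨c1, c2, c3⟩ := hc
    refine hA (surgery hG ha hd hK hS hD hD' h1 h2 (fun e he => ?_) (fun f hf => ?_) fun f hf => ?_)
    · rw [cnt_tyOn]; exact (c1 e he).le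
    · rw [cnt_tyOn]
      have : ((A ∩ tyOn S G' f).card : ℝ) ≤ k := by exact_mod_cast (c2 f hf).le
      linarith
    · have : ((A ∩ csf G a S G' K R f).card : ℝ) ≤ k := by exact_mod_cast (c3 f hf).le
      linarith
  · have t1 := mul_le_mul_of_nonneg_right (cn S) (Real.exp_pos
      (θ * D' - (1 - Real.exp (-θ)) * ((Fintype.card V - 2 * ξ - 6 * Δ) * r))).le
    have t2 := mul_le_mul_of_nonneg_right (cn G') (pow_nonneg hτ0 k)
    have t3 := mul_le_mul_of_nonneg_right (cn a) (pow_nonneg hτ0 k)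
    linarith

/-- Stage 0 with explicit parameters. -/
theorem zero_explicit {G a : Finset (Sym2 V)} (hG : NoLoop G) (ha : NoLoop a) (hd : Disjoint G a)
    {K : Finset (Finset V)} (hK : Pack K G) {pR pA : Finset V → ℝ} (hpR : IsP pR) (hpA : IsP pA)
    {q r M m Δa c D' Δ y ξ θ τ : ℝ} {k : ℕ} (hq : 0 < q) (hM0 : 0 < M) (hD' : 0 < D') (hr : 0 ≤ r)
    (hθ : 0 ≤ θ) (hy : 1 ≤ y) (hc : 1 ≤ c)
    (hpq : ∀ t, Ty G a t → pR t = q) (hpr : ∀ t ∈ tri G, pA t = r)
    (hξ : ∀ u, ((nn G u).card : ℝ) ≤ ξ)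
    (hM : ∀ u v, s(u, v) ∈ G → M ≤ (nb a u ∩ nb a v).card)
    (hΔa : ∀ u, ((nb a u).card : ℝ) ≤ Δa)
    (hm : ∀ u w, s(u, w) ∈ a → ((nb (G \ K.biUnion ed) u ∩ nb a w).card : ℝ) ≤ m)
    (hΔ : 32 * (Fintype.card V * Real.exp (-(M * q / 8))) ≤ Δ) (hcm : 32 * c * m ≤ M)
    (hya : 16 * Δa * q ≤ y) (hτ : 18 * y * Δ * r ≤ τ) (hk1 : (k : ℝ) ≤ D' / 4)
    (hk2 : 144 * (k : ℝ) ≤ M * q) :
    Ex pR (fun R => Pr pA fun A => ¬ ∃ a' ⊆ a, Dec (K ∪ R ∪ A) (G ∪ a'))
      ≤ Fintype.card V * Real.exp (-Δ) + (Fintype.card V : ℝ) ^ 2 *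
        (Real.exp (-((Real.log c - 1) * (M * q / 16))) + Real.exp (-y) +
          Real.exp (θ * D' - (1 - Real.exp (-θ)) * ((Fintype.card V - 2 * ξ - 6 * Δ) * r))
            + 2 * τ ^ k) := by
  classical
  have hΔ0 : 0 ≤ Δ := le_trans (by positivity) hΔ
  have hτ0 : 0 ≤ τ := le_trans (by positivity) hτ
  have cn : (a.card : ℝ) ≤ (Fintype.card V : ℝ) ^ 2 := by exact_mod_cast card_sym2_le a
  have nL : NoLoop (G \ K.biUnion ed) := hG.mono sdiff_subset
  have dL : Disjoint (G \ K.biUnion ed) a := hd.mono_left sdiff_subset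
  have b1 := Pr_exists_le' hpR univ
    (fun v R => Δ ≤ (around K v ∩ short G a (M * q / 2) R).card) (δ := Real.exp (-Δ))
    fun v _ => short_rare hG ha hd hpR hq.le hM0.le hpq hM _ (by
      have : ((around K v).card : ℝ) ≤ 4 * Fintype.card V := by exact_mod_cast hK.card_around v
      nlinarith [Real.exp_pos (-(M * q / 8))])
  have b2 := Pr_exists_le' hpR a
    (fun f R => M * q / 16 ≤ (R ∩ tyOn (G \ K.biUnion ed) a f).card)
    (δ := Real.exp (-((Real.log c - 1) * (M * q / 16)))) fun f hf => by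
      refine chern_far hpR _ (μ := 2 * m * q) ?_ hc (by nlinarith)
      induction f using Sym2.ind with
      | _ u w =>
      rw [sum_tyOn fun t ht => hpq t (ht.mono sdiff_subset Subset.rfl)]
      have a1 : ((tyOn (G \ K.biUnion ed) a s(u, w)).card : ℝ) ≤
          (nb (G \ K.biUnion ed) u ∩ nb a w).card + (nb (G \ K.biUnion ed) w ∩ nb a u).card := by
        exact_mod_cast card_tyOn_right nL ha dL hf
      have a2 := hm u w hf
      have a3 := hm w u (by rwa [Sym2.eq_swap])
      nlinarith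
  have b3 := Pr_exists_le' hpR a (fun f R => y ≤ (tyOn G a f ∩ R).card) (δ := Real.exp (-y))
    fun f hf => by
      refine card_far hpR _ (μ := 2 * Δa * q) ?_ (by linarith)
      induction f using Sym2.ind with
      | _ u w =>
      rw [sum_tyOn hpq]
      have a1 := card_tyOn_right hG ha hd hf
      have a2 : (nb G u ∩ nb a w).card ≤ (nb a w).card := card_le_card inter_subset_right
      have a3 : (nb G w ∩ nb a u).card ≤ (nb a u).card := card_le_card inter_subset_right
      have a4 : ((tyOn G a s(u, w)).card : ℝ) ≤ (nb a w).card + (nb a u).card := by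
        exact_mod_cast a1.trans (Nat.add_le_add a2 a3)
      nlinarith [hΔa u, hΔa w]
  rw [card_univ] at b1
  have o1 := Pr_or_le hpR (fun R => ∃ f ∈ a, M * q / 16 ≤ (R ∩ tyOn (G \ K.biUnion ed) a f).card)
    (fun R => ∃ f ∈ a, y ≤ (tyOn G a f ∩ R).card)
  have o2 := Pr_or_le hpR
    (fun R => ∃ v ∈ univ, Δ ≤ (around K v ∩ short G a (M * q / 2) R).card)
    (fun R => (∃ f ∈ a, M * q / 16 ≤ (R ∩ tyOn (G \ K.biUnion ed) a f).card) ∨
      ∃ f ∈ a, y ≤ (tyOn G a f ∩ R).card)
  have main := Ex_le_bad hpR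
    (fun R => (∃ v ∈ univ, Δ ≤ (around K v ∩ short G a (M * q / 2) R).card) ∨
      (∃ f ∈ a, M * q / 16 ≤ (R ∩ tyOn (G \ K.biUnion ed) a f).card) ∨
      ∃ f ∈ a, y ≤ (tyOn G a f ∩ R).card)
    (f := fun R => Pr pA fun A => ¬ ∃ a' ⊆ a, Dec (K ∪ R ∪ A) (G ∪ a'))
    (δ := (Fintype.card V : ℝ) ^ 2 *
      (Real.exp (θ * D' - (1 - Real.exp (-θ)) * ((Fintype.card V - 2 * ξ - 6 * Δ) * r))
        + 2 * τ ^ k)) (by positivity) (fun R => Pr_le_one hpA _) fun R hR => by
      simp only [not_or, not_exists, not_and, not_le] at hR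
      obtain ⟨c1, c2, c3⟩ := hR
      refine zero_plain hG ha hd hK (S := short G a (M * q / 2) R) (fun e he => (mem_short.1 he).1)
        hpA (D := M * q / 2) (by positivity) hD' hr hθ hy hΔ0 hpr hξ (fun e he h => ?_)
        (fun f hf => ?_) (fun v => (c1 v (mem_univ _)).le) (fun f hf => ?_) hτ hk1 (by linarith)
      · rw [cnt_tyOn]
        by_contra h'
        exact h (mem_short.2 ⟨he, (not_le.1 h').le⟩)
      · rw [cnt_tyOn]; linarith [c2 f hf]
      · rw [inter_comm]; exact (c3 f hf).le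
  have t2 := mul_le_mul_of_nonneg_right cn (Real.exp_pos (-((Real.log c - 1) * (M * q / 16)))).le
  have t3 := mul_le_mul_of_nonneg_right cn (Real.exp_pos (-y)).le
  linarith

end Pool.Agent.P.MP_224820_co.St
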