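import Pool.Agent.P.MP_224820_co.St.ZeroA
import Pool.Agent.P.MP_224820_co.St.Jensen

/-! Stage 0, asymptotic form. -/

set_option autoImplicit false

namespace Pool.Agent.P.MP_224820_co.St

open Finset

theorem zero_exp_le {x c : ℝ} (hc : 0 < c) (h : 1 / c ≤ x) : Real.exp (-x) ≤ c := by
  have hx : 0 < x := lt_of_lt_of_le (by positivity) h
  have h1 : x ≤ Real.exp x := by linarith [Real.add_one_le_exp x]
  rw [Real.exp_neg, inv_le_comm₀ (Real.exp_pos _) hc, ← one_div]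
  linarith

theorem zero_numeric {η ε δ γ : ℝ} (hη : 0 < η) (hε : 0 < ε) (hδ : 0 < δ) (hγ : 0 < γ) (k : ℕ) :
    ∃ L0 : ℝ, ∀ L, L0 ≤ L → 1 ≤ L ∧ 192 * Real.exp (-(η * L / 8)) ≤ ε / 40 ∧
      1728 * (16 * L ^ 2 + 3 * L) * L ≤ Real.exp (η * L / 16) ∧ (k : ℝ) ≤ γ * L / 4 ∧
      144 * (k : ℝ) ≤ η * L ∧ 5 * Real.exp (-L) + Real.exp (-(ε * L / 2)) ≤ δ := by
  have e1 := Filter.eventually_ge_atTop (1 : ℝ)
  have e2 := Filter.eventually_ge_atTop (8 * (1 / (ε / 7680)) / η)
  have e3 := Filter.eventually_ge_atTop (1728 * 19 * 24 * 16 ^ 4 / η ^ 4)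
  have e4 := Filter.eventually_ge_atTop (4 * (k : ℝ) / γ)
  have e5 := Filter.eventually_ge_atTop (144 * (k : ℝ) / η)
  have e6 := Filter.eventually_ge_atTop (1 / (δ / 10))
  have e7 := Filter.eventually_ge_atTop (2 * (1 / (δ / 2)) / ε)
  obtain ⟨L0, h⟩ := Filter.eventually_atTop.1
    (e1.and (e2.and (e3.and (e4.and (e5.and (e6.and e7))))))
  refine ⟨L0, fun L hL => ?_⟩
  obtain ⟨h1, h2, h3, h4, h5, h6, h7⟩ := h L hL
  rw [div_le_iff₀ hη] at h2 h5
  rw [div_le_iff₀ hγ] at h4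
  rw [div_le_iff₀ hε] at h7
  rw [div_le_iff₀ (pow_pos hη 4)] at h3
  refine ⟨h1, ?_, ?_, by linarith, by linarith, ?_⟩
  · have := zero_exp_le (x := η * L / 8) (c := ε / 7680) (by positivity) (by linarith)
    linarith
  · have a1 := Real.pow_div_factorial_le_exp (η * L / 16) (by positivity) 4
    have a2 : ((Nat.factorial 4 : ℕ) : ℝ) = 24 := by norm_num [Nat.factorial]
    rw [a2] at a1
    refine le_trans ?_ a1
    have a3 : (η * L / 16) ^ 4 / 24 = (L * η ^ 4) * L ^ 3 / (24 * 16 ^ 4) := by ring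
    rw [a3, le_div_iff₀ (by positivity)]
    have a4 : 0 ≤ L ^ 3 := by positivity
    have a5 : L ^ 2 ≤ L ^ 3 := pow_le_pow_right₀ h1 (by norm_num)
    nlinarith [mul_le_mul_of_nonneg_right h3 a4]
  · have a1 := zero_exp_le (x := L) (c := δ / 10) (by positivity) h6
    have a2 := zero_exp_le (x := ε * L / 2) (c := δ / 2) (by positivity) (by linarith)
    linarith

/-- Stage 0.  `K` is the packing produced by the first nibble on the almost complete graph `G`,
`a` is the reservoir graph, `pR` the layer of triangles of type `G a a`, `pA` the big layer. -/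
theorem zero_asym {η ε δ : ℝ} (hη : 0 < η) (hε : 0 < ε) (hδ : 0 < δ) :
    ∃ c0 : ℝ, 0 < c0 ∧ ∃ N : ℕ, ∀ (V : Type) [Fintype V] [DecidableEq V], N ≤ Fintype.card V →
      ∀ (G a : Finset (Sym2 V)) (K : Finset (Finset V)) (pR pA : Finset V → ℝ) (q M : ℝ),
        NoLoop G → NoLoop a → Disjoint G a → Pack K G → IsP pR → IsP pA → 0 < M →
        η * Real.log (Fintype.card V) ≤ M * q →
        (∀ t, Ty G a t → q ≤ pR t) →
        (∀ t ∈ tri G, (2 + ε) * Real.log (Fintype.card V) / Fintype.card V ≤ pA t) →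
        (∀ u, ((nn G u).card : ℝ) ≤ c0 * Fintype.card V) →
        (∀ u v, s(u, v) ∈ G → M ≤ (nb a u ∩ nb a v).card) →
        (∀ u, ((nb a u).card : ℝ) ≤ M * Real.log (Fintype.card V)) →
        (∀ u w, s(u, w) ∈ a → ((nb (G \ K.biUnion ed) u ∩ nb a w).card : ℝ) ≤ c0 * M) →
        Ex pR (fun R => Pr pA fun A => ¬ ∃ a' ⊆ a, Dec (K ∪ R ∪ A) (G ∪ a')) ≤ δ := by
  wlog hη1 : η ≤ 1 generalizing η
  · obtain ⟨c0, h0, N, h⟩ := this one_pos le_rfl
    refine ⟨c0, h0, max N 1, fun V _ _ hN G a K pR pA q M a1 a2 a3 a4 a5 a6 a7 a8 =>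
      h V ((le_max_left _ _).trans hN) G a K pR pA q M a1 a2 a3 a4 a5 a6 a7 (le_trans ?_ a8)⟩
    exact mul_le_mul_of_nonneg_right (not_le.1 hη1).le
      (Real.log_nonneg (by exact_mod_cast (le_max_right _ _).trans hN))
  wlog hε1 : ε ≤ 1 generalizing ε
  · obtain ⟨c0, h0, N, h⟩ := this one_pos le_rfl
    refine ⟨c0, h0, max N 1, fun V _ _ hN G a K pR pA q M a1 a2 a3 a4 a5 a6 a7 a8 a9 a10 =>
      h V ((le_max_left _ _).trans hN) G a K pR pA q M a1 a2 a3 a4 a5 a6 a7 a8 a9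
        fun t ht => le_trans ?_ (a10 t ht)⟩
    refine div_le_div_of_nonneg_right (mul_le_mul_of_nonneg_right (by linarith [not_le.1 hε1])
      (Real.log_nonneg (by exact_mod_cast (le_max_right _ _).trans hN))) (Nat.cast_nonneg _)
  set θ := Real.log (20 / ε) with hθ
  have hθ0 : 0 < θ := Real.log_pos (by rw [lt_div_iff₀ hε]; linarith)
  have hθe : Real.exp (-θ) = ε / 20 := by
    rw [Real.exp_neg, hθ, Real.exp_log (by positivity), inv_div]
  set c := Real.exp (1 + 48 / η) with hc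
  have hc1 : 1 ≤ c := Real.one_le_exp (by positivity)
  set k := ⌈48 / η⌉₊ with hk
  have hk1 : 48 ≤ (k : ℝ) * η := by
    rw [← div_le_iff₀ hη]; exact Nat.le_ceil _
  obtain ⟨L0, hL0⟩ := zero_numeric hη hε hδ (γ := ε / (20 * θ)) (by positivity) k
  refine ⟨min (1 / (32 * c)) (ε / 80), by positivity, ⌈Real.exp L0⌉₊ + 1,
    fun V _ _ hN G a K pR pA q M hG ha hd hK hpR hpA hM hq hR hA hξ hMa hΔa hm => ?_⟩
  classical
  have hn1 : (1 : ℝ) ≤ Fintype.card V := by exact_mod_cast (Nat.le_add_left 1 _).trans hN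
  have hn0 : (0 : ℝ) < Fintype.card V := by linarith
  set L := Real.log (Fintype.card V) with hL
  have hn : (Fintype.card V : ℝ) = Real.exp L := (Real.exp_log hn0).symm
  have hLL : L0 ≤ L := by
    rw [hL, Real.le_log_iff_exp_le hn0]
    exact (Nat.le_ceil _).trans (by exact_mod_cast (Nat.le_succ _).trans hN)
  obtain ⟨n1, n2, n3, n4, n5, n6⟩ := hL0 L hLL
  set q0 := η * L / M with hq0
  have hq0p : 0 < q0 := by positivity
  have hMq : M * q0 = η * L := by rw [hq0]; field_simp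
  have hq0q : q0 ≤ q := by rw [hq0, div_le_iff₀ hM]; linarith
  set r := (2 + ε) * L / Fintype.card V with hr
  have hr0 : 0 ≤ r := by positivity
  set pR' : Finset V → ℝ := fun t => if Ty G a t then q0 else 0 with hpR'
  set pA' : Finset V → ℝ := fun t => if t ∈ tri G then r else 0 with hpA'
  have lR : ∀ t, pR' t ≤ pR t := fun t => by
    simp only [hpR']
    split_ifs with h
    · exact hq0q.trans (hR t h)
    · exact (hpR t).1
  have lA : ∀ t, pA' t ≤ pA t := fun t => by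
    simp only [hpA']
    split_ifs with h
    · exact hA t h
    · exact (hpA t).1
  have iR : IsP pR' := fun t => ⟨by simp only [hpR']; split_ifs <;> positivity,
    (lR t).trans (hpR t).2⟩
  have iA : IsP pA' := fun t => ⟨by simp only [hpA']; split_ifs <;> positivity,
    (lA t).trans (hpA t).2⟩
  have step1 : Ex pR (fun R => Pr pA fun A => ¬ ∃ a' ⊆ a, Dec (K ∪ R ∪ A) (G ∪ a'))
      ≤ Ex pR (fun R => Pr pA' fun A => ¬ ∃ a' ⊆ a, Dec (K ∪ R ∪ A) (G ∪ a')) :=
    Ex_mono hpR fun R => Pr_not_mono_p iA hpA lA fun A A' h ⟨a', h1, h2⟩ =>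
      ⟨a', h1, Dec_mono (union_subset_union_right h) h2⟩
  have step2 : Ex pR (fun R => Pr pA' fun A => ¬ ∃ a' ⊆ a, Dec (K ∪ R ∪ A) (G ∪ a'))
      ≤ Ex pR' (fun R => Pr pA' fun A => ¬ ∃ a' ⊆ a, Dec (K ∪ R ∪ A) (G ∪ a')) := by
    have := Ex_mono_p iR hpR lR
      (f := fun R => -1 * Pr pA' fun A => ¬ ∃ a' ⊆ a, Dec (K ∪ R ∪ A) (G ∪ a')) fun R R' h => by
        have : Pr pA' (fun A => ¬ ∃ a' ⊆ a, Dec (K ∪ R' ∪ A) (G ∪ a'))
            ≤ Pr pA' fun A => ¬ ∃ a' ⊆ a, Dec (K ∪ R ∪ A) (G ∪ a') :=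
          Pr_mono iA fun A h1 ⟨a', h2, h3⟩ => h1 ⟨a', h2,
            Dec_mono (union_subset_union_left (union_subset_union_right h)) h3⟩
        linarith
    rw [Ex_mul, Ex_mul] at this
    linarith
  set E := Real.exp (-(η * L / 8)) with hE
  have hE0 : 0 < E := Real.exp_pos _
  have c01 : min (1 / (32 * c)) (ε / 80) ≤ 1 / (32 * c) := min_le_left _ _
  have c02 : min (1 / (32 * c)) (ε / 80) ≤ ε / 80 := min_le_right _ _
  have main := zero_explicit hG ha hd hK iR iA (q := q0) (r := r) (M := M)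
    (m := min (1 / (32 * c)) (ε / 80) * M) (Δa := M * L) (c := c) (D' := ε / (20 * θ) * L)
    (Δ := 32 * (Fintype.card V * E)) (y := 16 * L ^ 2 + 3 * L)
    (ξ := min (1 / (32 * c)) (ε / 80) * Fintype.card V) (θ := θ) (τ := Real.exp (-(η * L / 16)))
    (k := k) hq0p hM (by positivity) hr0 hθ0.le (by nlinarith) hc1
    (fun t ht => if_pos ht) (fun t ht => if_pos ht) hξ hMa hΔa hm (by rw [hMq])
    (by
      have : 32 * c * min (1 / (32 * c)) (ε / 80) ≤ 1 := by
        rw [le_div_iff₀ (by positivity)] at c01; linarith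
      nlinarith)
    (by
      have : 16 * (M * L) * q0 = 16 * L * (M * q0) := by ring
      rw [this, hMq]
      nlinarith [mul_le_mul_of_nonneg_right hη1 (sq_nonneg L)])
    (by
      have e1 : 18 * (16 * L ^ 2 + 3 * L) * (32 * (Fintype.card V * E)) * r
          = 576 * (16 * L ^ 2 + 3 * L) * ((2 + ε) * L) * E := by rw [hr]; field_simp; ring
      have e2 : Real.exp (η * L / 16) * E = Real.exp (-(η * L / 16)) := by
        rw [hE, ← Real.exp_add]; congr 1; ring
      rw [e1, ← e2]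
      refine mul_le_mul_of_nonneg_right (le_trans ?_ n3) hE0.le
      have : 0 ≤ (16 * L ^ 2 + 3 * L) * L := by positivity
      nlinarith)
    n4 (by rw [hMq]; exact n5)
  refine step1.trans (step2.trans (main.trans (le_trans ?_ n6)))
  have hX : 0 < Real.exp (-L) := Real.exp_pos _
  have sq : ∀ x : ℝ, (Fintype.card V : ℝ) ^ 2 * Real.exp x = Real.exp (2 * L + x) := fun x => by
    rw [Real.exp_add, hn, ← Real.exp_nat_mul]; norm_num
  have t1 : Fintype.card V * Real.exp (-(32 * (Fintype.card V * E))) ≤ Real.exp (-L) := by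
    have a1 : Fintype.card V * E = Real.exp (L - η * L / 8) := by
      rw [hn, hE, ← Real.exp_add]; congr 1
    have a2 := Real.add_one_le_exp (L - η * L / 8)
    rw [a1]
    nth_rewrite 1 [hn]
    rw [← Real.exp_add]
    exact Real.exp_le_exp.2 (by nlinarith)
  have t2 : (Fintype.card V : ℝ) ^ 2 * Real.exp (-((Real.log c - 1) * (M * q0 / 16)))
      ≤ Real.exp (-L) := by
    rw [sq, hMq, hc, Real.log_exp]
    refine Real.exp_le_exp.2 (le_of_eq ?_)
    field_simp
    ring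
  have t3 : (Fintype.card V : ℝ) ^ 2 * Real.exp (-(16 * L ^ 2 + 3 * L)) ≤ Real.exp (-L) := by
    rw [sq]
    exact Real.exp_le_exp.2 (by nlinarith)
  have t4 : (Fintype.card V : ℝ) ^ 2 * Real.exp (θ * (ε / (20 * θ) * L) - (1 - Real.exp (-θ)) *
      ((Fintype.card V - 2 * (min (1 / (32 * c)) (ε / 80) * Fintype.card V)
        - 6 * (32 * (Fintype.card V * E))) * r)) ≤ Real.exp (-(ε * L / 2)) := by
    rw [sq, hθe]
    refine Real.exp_le_exp.2 ?_
    have a1 : θ * (ε / (20 * θ) * L) = ε * L / 20 := by field_simp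
    have a2 : (Fintype.card V - 2 * (min (1 / (32 * c)) (ε / 80) * Fintype.card V)
        - 6 * (32 * (Fintype.card V * E))) * r
        = (1 - 2 * min (1 / (32 * c)) (ε / 80) - 192 * E) * ((2 + ε) * L) := by
      rw [hr]; field_simp; ring
    have a3 : (1 - ε / 20) * ((2 + ε) * L)
        ≤ (1 - 2 * min (1 / (32 * c)) (ε / 80) - 192 * E) * ((2 + ε) * L) :=
      mul_le_mul_of_nonneg_right (by linarith) (by positivity)
    have a4 : (1 - ε / 20) * ((1 - ε / 20) * ((2 + ε) * L))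
        ≤ (1 - ε / 20) * ((1 - 2 * min (1 / (32 * c)) (ε / 80) - 192 * E) * ((2 + ε) * L)) :=
      mul_le_mul_of_nonneg_left a3 (by linarith)
    have a5 : 2 + 7 * ε / 10 ≤ (1 - ε / 20) * ((1 - ε / 20) * (2 + ε)) := by
      nlinarith [mul_nonneg hε.le (sq_nonneg ε), mul_nonneg hε.le (sub_nonneg.2 hε1)]
    have a6 := mul_le_mul_of_nonneg_right a5 (by linarith : (0 : ℝ) ≤ L)
    rw [a1, a2]
    nlinarith [mul_pos hε (by linarith : (0 : ℝ) < L)]
  have t5 : (Fintype.card V : ℝ) ^ 2 * Real.exp (-(η * L / 16)) ^ k ≤ Real.exp (-L) := by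
    rw [← Real.exp_nat_mul, sq]
    exact Real.exp_le_exp.2 (by nlinarith)
  linarith

end Pool.Agent.P.MP_224820_co.St
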